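import Pool.Agent.H.MP_0cacf8.Final

/-!
# Consequences for digraphs of large arc-connectivity
-/

set_option autoImplicit false

namespace Pool.Agent.H.MP_0cacf8

open Relation Finset

variable {V : Type*} [Fintype V] [DecidableEq V] {adj : V → V → Prop}

omit [Fintype V] [DecidableEq V] in
theorem rtg_flip {r s : V → V → Prop} {a b : V} (h : ReflTransGen r a b)
    (hrs : ∀ a b, r a b → s b a) : ReflTransGen s b a := by
  induction h with
  | refl => exact ReflTransGen.refl
  | tail _ h ih => exact ReflTransGen.head (hrs _ _ h) ih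

/-- Deleting fewer than `k` arcs leaves the digraph strongly connected. -/
def ArcStrong (adj : V → V → Prop) (k : ℕ) : Prop :=
  ∀ F : Finset (V × V), F.card < k → ∀ u v : V,
    ReflTransGen (fun x y => adj x y ∧ (x, y) ∉ F) u v

omit [Fintype V] in
theorem ArcStrong.flip {k : ℕ} (h : ArcStrong adj k) : ArcStrong (fun x y => adj y x) k := by
  intro F hF u v
  have h1 := h (F.image Prod.swap) (lt_of_le_of_lt Finset.card_image_le hF) v u
  induction h1 with
  | refl => exact ReflTransGen.refl
  | @tail b c _ hbc ih =>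
    refine ReflTransGen.head ⟨hbc.1, ?_⟩ ih
    intro hF'
    exact hbc.2 (Finset.mem_image.2 ⟨(c, b), hF', rfl⟩)

open Classical in
theorem ArcStrong.indeg {k : ℕ} (h : ArcStrong adj k) (hV : Nontrivial V) (x : V) :
    k ≤ ((univ : Finset V).filter (fun p => p ≠ x ∧ adj p x)).card := by
  by_contra hcon
  push Not at hcon
  obtain ⟨u, hu⟩ := exists_ne x
  set N := (univ : Finset V).filter (fun p => p ≠ x ∧ adj p x) with hN
  have h1 := h (N.image (fun p => (p, x))) (lt_of_le_of_lt Finset.card_image_le hcon) u x
  have key : ∀ w, ReflTransGen (fun a b => adj a b ∧ (a, b) ∉ N.image (fun p => (p, x))) u w →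
      w ≠ x := by
    intro w hw
    induction hw with
    | refl => exact hu
    | @tail b c _ hbc ih =>
      rintro rfl
      exact hbc.2 (Finset.mem_image.2 ⟨b, Finset.mem_filter.2 ⟨mem_univ _, ih, hbc.1⟩, rfl⟩)
  exact key x h1 rfl

open Classical in
/-- A `k`-arc-strong digraph, `k ≥ 3`, with a vertex of in-degree at least `n + 2 - k`. -/
theorem K3_of_indeg (hnt : Nontrivial V) {k : ℕ} (hk : 3 ≤ k) (h : ArcStrong adj k) (y : V)
    (hy : Fintype.card V + 2 ≤ ((univ : Finset V).filter (fun p => p ≠ y ∧ adj p y)).card + k) :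
    K3set adj := by
  set X := (univ : Finset V).filter (fun p => p ≠ y ∧ adj p y) with hX
  have hyX : y ∉ X := fun h => (Finset.mem_filter.1 h).2.1 rfl
  have hstrong : ∀ u v, ReflTransGen adj u v := by
    intro u v
    have h1 := h ∅ (by simpa using (by omega : 0 < k)) u v
    induction h1 with
    | refl => exact ReflTransGen.refl
    | tail _ h ih => exact ih.tail h.1
  have hcompl : (univ \ (insert y X)).card + 3 ≤ k := by
    have h1 : (univ \ (insert y X)).card = Fintype.card V - (X.card + 1) := by
      rw [Finset.card_sdiff_of_subset (Finset.subset_univ _), Finset.card_univ,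
        Finset.card_insert_of_notMem hyX]
    have h2 : (insert y X).card ≤ Fintype.card V := Finset.card_le_univ _
    rw [Finset.card_insert_of_notMem hyX] at h2
    omega
  have hdeg : ∀ x ∈ X, ∃ p ∈ X, ∃ q ∈ X, p ≠ q ∧ p ≠ x ∧ q ≠ x ∧ adj p x ∧ adj q x := by
    intro x _
    have h1 := h.indeg hnt x
    set N := (univ : Finset V).filter (fun p => p ≠ x ∧ adj p x) with hN
    have h2 : N.card ≤ (N ∩ X).card + (insert y (univ \ (insert y X))).card := by
      rw [← Finset.card_inter_add_card_sdiff N X]
      refine Nat.add_le_add_left (Finset.card_le_card ?_) _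
      intro v hv
      rw [Finset.mem_sdiff] at hv
      by_cases hvy : v = y
      · rw [hvy]; exact Finset.mem_insert_self _ _
      · refine Finset.mem_insert_of_mem (Finset.mem_sdiff.2 ⟨mem_univ _, ?_⟩)
        intro h3
        rcases Finset.mem_insert.1 h3 with h3 | h3
        · exact hvy h3
        · exact hv.2 h3
    have h3 := Finset.card_insert_le y (univ \ (insert y X))
    have h4 : 1 < (N ∩ X).card := by omega
    obtain ⟨p, hp, q, hq, hpq⟩ := Finset.one_lt_card.1 h4
    rw [Finset.mem_inter] at hp hq
    obtain ⟨_, p1, p2⟩ := Finset.mem_filter.1 hp.1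
    obtain ⟨_, q1, q2⟩ := Finset.mem_filter.1 hq.1
    exact ⟨p, hp.2, q, hq.2, hpq, p1, q1, p2, q2⟩
  have hXne : X.Nonempty := by
    rw [Finset.nonempty_iff_ne_empty]
    intro h0
    have h1 := h.indeg hnt y
    rw [← hX, h0, Finset.card_empty] at h1
    omega
  refine thmE y X hXne hyX hdeg (fun x _ => hstrong y x) ?_
  intro x hx
  exact ReflTransGen.single ⟨(Finset.mem_filter.1 hx).2.2, hyX⟩

end Pool.Agent.H.MP_0cacf8
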