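import Pool.Agent.H.MP_0d008e_co.Menger

/-!
# Walks with interior in a set; subdivisions of the bidirected triangle, set version
-/

set_option autoImplicit false

namespace Pool.Agent.H.MP_0cacf8

open Relation Pool.Agent.H.MP_0d008e_co

variable {V : Type*} {adj : V → V → Prop}

/-- Reachability inside `S`. -/
abbrev RR (adj : V → V → Prop) (S : Set V) : V → V → Prop := ReflTransGen (Induced adj S)

/-- There is a walk of at least two arcs from `a` to `b` with all interior vertices in `S`. -/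
def ConnN (adj : V → V → Prop) (S : Set V) (a b : V) : Prop :=
  ∃ p ∈ S, ∃ q ∈ S, adj a p ∧ RR adj S p q ∧ adj q b

/-- There is a walk of at least one arc from `a` to `b` with all interior vertices in `S`. -/
def Conn (adj : V → V → Prop) (S : Set V) (a b : V) : Prop :=
  adj a b ∨ ConnN adj S a b

/-- `b ∈ E`, or there is a walk from a vertex of `E` to `b` with all vertices but `b` in `S`. -/
def RootConn (adj : V → V → Prop) (S E : Set V) (b : V) : Prop :=
  b ∈ E ∨ ∃ r ∈ E, r ∈ S ∧ ∃ q ∈ S, RR adj S r q ∧ adj q b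

theorem RR.mono {S T : Set V} (h : S ⊆ T) {a b : V} (hr : RR adj S a b) : RR adj T a b := by
  induction hr with
  | refl => exact ReflTransGen.refl
  | tail _ hx ih => exact ih.tail ⟨h hx.1, h hx.2.1, hx.2.2⟩

theorem ConnN.mono {S T : Set V} (h : S ⊆ T) {a b : V} (hr : ConnN adj S a b) :
    ConnN adj T a b := by
  obtain ⟨p, hp, q, hq, h1, h2, h3⟩ := hr
  exact ⟨p, h hp, q, h hq, h1, RR.mono h h2, h3⟩

theorem Conn.mono {S T : Set V} (h : S ⊆ T) {a b : V} (hr : Conn adj S a b) : Conn adj T a b := by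
  rcases hr with hr | hr
  · exact Or.inl hr
  · exact Or.inr (ConnN.mono h hr)

theorem RootConn.mono {S T E : Set V} (h : S ⊆ T) {b : V} (hr : RootConn adj S E b) :
    RootConn adj T E b := by
  rcases hr with hr | ⟨r, hrE, hrS, q, hq, h2, h3⟩
  · exact Or.inl hr
  · exact Or.inr ⟨r, hrE, h hrS, q, h hq, RR.mono h h2, h3⟩

theorem RR.mem_right {S : Set V} {a b : V} (hr : RR adj S a b) (ha : a ∈ S) : b ∈ S := by
  induction hr with
  | refl => exact ha
  | tail _ h _ => exact h.2.1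

theorem RR.mem_left {S : Set V} {a b : V} (hr : RR adj S a b) (hb : b ∈ S) : a ∈ S := by
  induction hr using ReflTransGen.head_induction_on with
  | refl => exact hb
  | head h _ _ => exact h.1

/-- First vertex in `B`. -/
theorem first_hit {S B : Set V} {a b : V} (hr : RR adj S a b) (ha : a ∉ B) :
    (RR adj (S \ B) a b ∧ b ∉ B) ∨
      ∃ y z, RR adj (S \ B) a y ∧ y ∈ S ∧ y ∉ B ∧ z ∈ S ∧ z ∈ B ∧ adj y z ∧ RR adj S z b := by
  induction hr using ReflTransGen.head_induction_on with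
  | refl => exact Or.inl ⟨ReflTransGen.refl, ha⟩
  | @head a c h hcb ih =>
    by_cases hc : c ∈ B
    · exact Or.inr ⟨a, c, ReflTransGen.refl, h.1, ha, h.2.1, hc, h.2.2, hcb⟩
    · have hac : RR adj (S \ B) a c := ReflTransGen.single ⟨⟨h.1, ha⟩, ⟨h.2.1, hc⟩, h.2.2⟩
      rcases ih hc with ⟨h1, h2⟩ | ⟨y, z, h1, h2⟩
      · exact Or.inl ⟨hac.trans h1, h2⟩
      · exact Or.inr ⟨y, z, hac.trans h1, h2⟩

/-- Last vertex in `B`. -/
theorem last_exit {S B : Set V} {a b : V} (hr : RR adj S a b) (hb : b ∉ B) :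
    (RR adj (S \ B) a b ∧ a ∉ B) ∨
      ∃ y z, y ∈ S ∧ y ∈ B ∧ z ∈ S ∧ z ∉ B ∧ adj y z ∧ RR adj (S \ B) z b ∧ RR adj S a y := by
  induction hr with
  | refl => exact Or.inl ⟨ReflTransGen.refl, hb⟩
  | @tail c b hac h ih =>
    by_cases hc : c ∈ B
    · exact Or.inr ⟨c, b, h.1, hc, h.2.1, hb, h.2.2, ReflTransGen.refl, hac⟩
    · have hcb : RR adj (S \ B) c b := ReflTransGen.single ⟨⟨h.1, hc⟩, ⟨h.2.1, hb⟩, h.2.2⟩
      rcases ih hc with ⟨h1, h2⟩ | ⟨y, z, h1, h2, h3, h4, h5, h6, h7⟩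
      · exact Or.inl ⟨h1.trans hcb, h2⟩
      · exact Or.inr ⟨y, z, h1, h2, h3, h4, h5, h6.trans hcb, h7⟩

/-- A walk from `a ∈ A` to `b ∉ A` gives a walk from a vertex of `A` whose interior avoids `A` and
`b`. -/
theorem exit_conn {S A : Set V} {a b : V} (hr : RR adj S a b) (ha : a ∈ A) (hb : b ∉ A) :
    ∃ e ∈ A, e ∈ S ∧ Conn adj ((S \ A) \ {b}) e b ∧ RR adj S a e := by
  rcases last_exit hr hb with ⟨_, h⟩ | ⟨y, z, h1, h2, h3, h4, h5, h6, h7⟩
  · exact absurd ha h
  · refine ⟨y, h2, h1, ?_, h7⟩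
    by_cases hz : z = b
    · subst hz; exact Or.inl h5
    · rcases first_hit (B := {b}) h6 (by simpa using hz) with ⟨_, h⟩ | ⟨p, q, g1, g2, g3, g4, g5, g6, _⟩
      · exact absurd rfl h
      · have : q = b := g5
        subst this
        exact Or.inr ⟨z, ⟨⟨h3, h4⟩, hz⟩, p, ⟨g2, g3⟩, h5, g1, g6⟩

theorem conn_of_RR {S : Set V} {a b : V} (hr : RR adj S a b) (hab : a ≠ b) :
    Conn adj ((S \ {a}) \ {b}) a b := by
  obtain ⟨e, he, _, h, _⟩ := exit_conn (A := {a}) hr rfl (by simpa using hab.symm)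
  have : e = a := he
  rwa [this] at h

/-- Either a walk can be kept, or it can be stopped at its first vertex in `P`. -/
theorem hit_conn {S P : Set V} {a b : V} (hr : Conn adj S a b) :
    Conn adj (S \ P) a b ∨ ∃ z ∈ P, z ∈ S ∧ Conn adj (S \ P) a z := by
  rcases hr with hr | ⟨p, hp, q, hq, h1, h2, h3⟩
  · exact Or.inl (Or.inl hr)
  · by_cases hpP : p ∈ P
    · exact Or.inr ⟨p, hpP, hp, Or.inl h1⟩
    · rcases first_hit (B := P) h2 hpP with ⟨g1, g2⟩ | ⟨y, z, g1, g2, g3, g4, g5, g6, _⟩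
      · exact Or.inl (Or.inr ⟨p, ⟨hp, hpP⟩, q, ⟨hq, g2⟩, h1, g1, h3⟩)
      · exact Or.inr ⟨z, g5, g4, Or.inr ⟨p, ⟨hp, hpP⟩, y, ⟨g2, g3⟩, h1, g1, g6⟩⟩

/-- Walk `a → ... → z → ... → q → b`. -/
theorem Conn.glue {S T : Set V} {a z q b : V} (h : Conn adj S a z) (hz : z ∈ T) (hq : q ∈ T)
    (h2 : RR adj T z q) (h3 : adj q b) : ConnN adj (S ∪ T) a b := by
  have hT : RR adj (S ∪ T) z q := RR.mono Set.subset_union_right h2
  rcases h with h | ⟨p, hp, q', hq', g1, g2, g3⟩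
  · exact ⟨z, Or.inr hz, q, Or.inr hq, h, hT, h3⟩
  · refine ⟨p, Or.inl hp, q, Or.inr hq, g1, ?_, h3⟩
    exact ((RR.mono Set.subset_union_left g2).tail ⟨Or.inl hq', Or.inr hz, g3⟩).trans hT

/-- A walk avoiding a vertex set `B` up to its first vertex: if every arc of the walk entering `B`
comes from `x`, then the walk from `a ∉ B` either avoids `B` or reaches `x` before. -/
theorem enter_from {S B : Set V} {a b x : V} (hr : RR adj S a b) (ha : a ∉ B)
    (hent : ∀ u ∈ S, u ∉ B → ∀ v ∈ B, v ∈ S → adj u v → u = x) :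
    (RR adj (S \ B) a b ∧ b ∉ B) ∨ (RR adj (S \ B) a x) := by
  rcases first_hit hr ha with h | ⟨y, z, h1, h2, h3, h4, h5, h6, _⟩
  · exact Or.inl h
  · right
    have := hent y h2 h3 z h5 h4 h6
    rwa [this] at h1

/-- Splitting a minimal walk at a vertex. -/
theorem split_conn {A : Set V} {x e c : V} (h : ConnN adj A x e) (hc : c ∈ A)
    (hmin : ¬ ConnN adj (A \ {c}) x e) :
    ∃ U W : Set V, U ⊆ A \ {c} ∧ W ⊆ A \ {c} ∧ Disjoint U W ∧ Conn adj U x c ∧
      Conn adj W c e := by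
  obtain ⟨p, hp, q, hq, h1, h2, h3⟩ := h
  set U : Set V := {u | u ∈ A \ {c} ∧ ∃ p ∈ A \ {c}, adj x p ∧ RR adj (A \ {c}) p u} with hU
  refine ⟨U, (A \ {c}) \ U, fun u hu => hu.1, fun u hu => hu.1, ?_, ?_, ?_⟩
  · exact Set.disjoint_sdiff_right
  · by_cases hpc : p = c
    · subst hpc; exact Or.inl h1
    · have hpc' : p ∉ ({c} : Set V) := by simpa using hpc
      rcases first_hit h2 hpc' with ⟨g1, g2⟩ | ⟨y, z, g1, g2, g3, g4, g5, g6, _⟩
      · exact absurd ⟨p, ⟨hp, hpc'⟩, q, ⟨hq, g2⟩, h1, g1, h3⟩ hmin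
      · have hz : z = c := g5
        subst hz
        have key : ∀ w, RR adj (A \ {z}) p w → RR adj U p w ∧ w ∈ U := by
          intro w hw
          induction hw with
          | refl => exact ⟨ReflTransGen.refl, ⟨hp, hpc'⟩, p, ⟨hp, hpc'⟩, h1, ReflTransGen.refl⟩
          | @tail b c hb hbc ih =>
            have hcU : c ∈ U := ⟨hbc.2.1, p, ⟨hp, hpc'⟩, h1, hb.tail hbc⟩
            exact ⟨ih.1.tail ⟨ih.2, hcU, hbc.2.2⟩, hcU⟩
        have hy := key y g1
        exact Or.inr ⟨p, (key p ReflTransGen.refl).2, y, hy.2, h1, hy.1, g6⟩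
  · by_cases hqc : q = c
    · subst hqc; exact Or.inl h3
    · have hqc' : q ∉ ({c} : Set V) := by simpa using hqc
      have key : ∀ w, w ∈ A \ {c} → RR adj (A \ {c}) w q → w ∉ U := by
        rintro w hw hwq ⟨_, p', hp', g1, g2⟩
        exact hmin ⟨p', hp', q, ⟨hq, hqc'⟩, g1, g2.trans hwq, h3⟩
      have key2 : ∀ w, w ∈ A \ {c} → RR adj (A \ {c}) w q → RR adj ((A \ {c}) \ U) w q := by
        intro w hw hwq
        induction hwq using ReflTransGen.head_induction_on with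
        | refl => exact ReflTransGen.refl
        | @head b d hbd hdq ih =>
          have hd := hbd.2.1
          refine ReflTransGen.head ⟨⟨hw, key b hw (ReflTransGen.head hbd hdq)⟩,
            ⟨hd, key d hd hdq⟩, hbd.2.2⟩ (ih hd)
      rcases last_exit h2 hqc' with ⟨g1, g2⟩ | ⟨y, z, g1, g2, g3, g4, g5, g6, _⟩
      · exact absurd ⟨p, ⟨hp, g2⟩, q, ⟨hq, hqc'⟩, h1, g1, h3⟩ hmin
      · have hy : y = c := g2
        subst hy
        have hz : z ∈ A \ {y} := ⟨g3, g4⟩
        exact Or.inr ⟨z, ⟨hz, key z hz g6⟩, q, ⟨⟨hq, hqc'⟩, key q ⟨hq, hqc'⟩ ReflTransGen.refl⟩, g5,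
          key2 z hz g6, h3⟩

/-- A finite set carrying a walk contains a minimal one. -/
theorem exists_min_connN [DecidableEq V] {x e : V} (A : Finset V)
    (h : ConnN adj (A : Set V) x e) :
    ∃ B ⊆ A, ConnN adj (B : Set V) x e ∧ ∀ c ∈ B, ¬ ConnN adj ((B : Set V) \ {c}) x e := by
  induction A using Finset.strongInduction with
  | _ A ih =>
    by_cases hc : ∃ c ∈ A, ConnN adj ((A : Set V) \ {c}) x e
    · obtain ⟨c, hcA, hc⟩ := hc
      have : ((A.erase c : Finset V) : Set V) = (A : Set V) \ {c} := by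
        ext v; simp [and_comm]
      obtain ⟨B, hB, hB2⟩ := ih (A.erase c) (Finset.erase_ssubset hcA) (by rw [this]; exact hc)
      exact ⟨B, hB.trans (Finset.erase_subset _ _), hB2⟩
    · push Not at hc
      exact ⟨A, Finset.Subset.refl _, h, hc⟩

end Pool.Agent.H.MP_0cacf8
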