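import Pool.Agent.H.MP_0cacf8.Fan

/-!
# The core: a rooted subdivision of the bidirected triangle minus an arc
-/

set_option autoImplicit false

namespace Pool.Agent.H.MP_0cacf8

open Relation Finset Pool.Agent.H.MP_0d008e_co

variable {V : Type*} {adj : V → V → Prop}

/-- Three vertices `v, e, c` of `C` and internally disjoint paths in `C` (the interiors are the
classes `1, ..., 5` of the labelling `lab`) `v → e`, `e → v`, `v → c`, `e → c`, `c → e`, and a path
from `E` to `v` (class `6`). -/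
def F1 (adj : V → V → Prop) (C E : Finset V) : Prop :=
  ∃ (v e c : V) (lab : V → ℕ), v ∈ C ∧ e ∈ C ∧ c ∈ C ∧ v ≠ e ∧ v ≠ c ∧ e ≠ c ∧
    lab v = 0 ∧ lab e = 0 ∧ lab c = 0 ∧ (∀ u, lab u ≠ 0 → u ∈ C) ∧
    Conn adj {u | lab u = 1} v e ∧ Conn adj {u | lab u = 2} e v ∧
    Conn adj {u | lab u = 3} v c ∧ Conn adj {u | lab u = 4} e c ∧
    Conn adj {u | lab u = 5} c e ∧ RootConn adj {u | lab u = 6} (E : Set V) v

/-- `x ∈ C` and the nonempty set `G ⊆ C \ {x}` avoiding `E`, entered (inside `C`) only from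
`x`. -/
def Pod (adj : V → V → Prop) (C E : Finset V) (x : V) (G : Finset V) : Prop :=
  x ∈ C ∧ G ⊆ C ∧ G.Nonempty ∧ x ∉ G ∧ Disjoint G E ∧
    ∀ u ∈ C, ∀ g ∈ G, adj u g → u ∈ G ∨ u = x

section finish

variable [DecidableEq V]

/-- The last step of the construction. `Y` is the pod, `x` its entrance. -/
theorem finish {C E Y : Finset V} {x e c : V} {A B : Finset V} {T Sr : Set V}
    (hYC : Y ⊆ C) (hx : x ∈ C) (hxY : x ∉ Y) (he : e ∈ Y)
    (hAY : A ⊆ Y) (hBY : B ⊆ Y) (heA : e ∉ A) (heB : e ∉ B) (hAB : Disjoint A B)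
    (hcA : c ∈ A) (hA : ConnN adj (A : Set V) x e)
    (hAmin : ∀ c ∈ A, ¬ ConnN adj ((A : Set V) \ {c}) x e)
    (hB : Conn adj (B : Set V) x e)
    (hL : Conn adj (((Y : Set V) \ (A ∪ B)) \ {e}) e c)
    (hT : T = ((C : Set V) \ Y) \ {x}) (hSr : Sr ⊆ T)
    (hPe : Conn adj (T \ Sr) e x) (hPr : RootConn adj Sr (E : Set V) x) :
    F1 adj C E := by
  classical
  obtain ⟨U, W, hU, hW, hUW, hxc, hce⟩ := split_conn hA hcA (hAmin c hcA)
  have hcY : c ∈ Y := hAY hcA
  have hce' : c ≠ e := fun h => heA (h ▸ hcA)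
  have hxe : x ≠ e := fun h => hxY (h ▸ he)
  have hxc' : x ≠ c := fun h => hxY (h ▸ hcY)
  have hUA : ∀ u ∈ U, u ∈ A ∧ u ≠ c := fun u hu => hU hu
  have hWA : ∀ u ∈ W, u ∈ A ∧ u ≠ c := fun u hu => hW hu
  have hABd : ∀ u ∈ A, u ∉ B := fun u h1 h2 => (Finset.disjoint_left.1 hAB) h1 h2
  have hUWd : ∀ u ∈ U, u ∉ W := fun u h1 h2 => (Set.disjoint_left.1 hUW) h1 h2
  have hTm : ∀ u, u ∈ T ↔ u ∈ C ∧ u ∉ Y ∧ u ≠ x := by
    intro u; rw [hT]; simp [and_assoc]
  let lab : V → ℕ := fun u =>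
    if u = x ∨ u = e ∨ u = c then 0 else
    if u ∈ B then 1 else
    if u ∈ U then 3 else
    if u ∈ W then 5 else
    if u ∈ Y then 4 else
    if u ∈ Sr then 6 else
    if u ∈ C then 2 else 0
  refine ⟨x, e, c, lab, hx, hYC he, hYC hcY, hxe, hxc', fun h => hce' h.symm, ?_, ?_, ?_, ?_, ?_,
    ?_, ?_, ?_, ?_, ?_⟩
  · simp [lab]
  · simp [lab]
  · simp [lab]
  · intro u hu
    by_contra hC
    apply hu
    have h1 : u ∉ B := fun h => hC (hYC (hBY h))
    have h2 : u ∉ U := fun h => hC (hYC (hAY (hUA u h).1))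
    have h3 : u ∉ W := fun h => hC (hYC (hAY (hWA u h).1))
    have h4 : u ∉ Y := fun h => hC (hYC h)
    have h5 : u ∉ Sr := fun h => hC ((hTm u).1 (hSr h)).1
    simp [lab, h1, h2, h3, h4, h5, hC]
  · refine Conn.mono ?_ hB
    intro u hu
    have h0 : ¬ (u = x ∨ u = e ∨ u = c) := by
      rintro (rfl | rfl | rfl)
      · exact hxY (hBY hu)
      · exact heB hu
      · exact hABd _ hcA hu
    have hu' : u ∈ B := hu
    show lab u = 1
    simp only [lab, if_neg h0, if_pos hu']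
  · refine Conn.mono ?_ hPe
    rintro u ⟨huT, huS⟩
    obtain ⟨g1, g2, g3⟩ := (hTm u).1 huT
    have h0 : ¬ (u = x ∨ u = e ∨ u = c) := by
      rintro (rfl | rfl | rfl)
      · exact g3 rfl
      · exact g2 he
      · exact g2 hcY
    have h1 : u ∉ B := fun h => g2 (hBY h)
    have h2 : u ∉ U := fun h => g2 (hAY (hUA u h).1)
    have h3 : u ∉ W := fun h => g2 (hAY (hWA u h).1)
    show lab u = 2
    simp only [lab, if_neg h0, if_neg h1, if_neg h2, if_neg h3, if_neg g2, if_neg huS, if_pos g1]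
  · refine Conn.mono ?_ hxc
    intro u hu
    obtain ⟨g1, g2⟩ := hUA u hu
    have h0 : ¬ (u = x ∨ u = e ∨ u = c) := by
      rintro (rfl | rfl | rfl)
      · exact hxY (hAY g1)
      · exact heA g1
      · exact g2 rfl
    show lab u = 3
    simp only [lab, if_neg h0, if_neg (hABd u g1), if_pos hu]
  · refine Conn.mono ?_ hL
    rintro u ⟨⟨g1, g2⟩, g3⟩
    have g2' : u ∉ A ∧ u ∉ B := by
      constructor
      · intro h; exact g2 (Or.inl h)
      · intro h; exact g2 (Or.inr h)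
    have h0 : ¬ (u = x ∨ u = e ∨ u = c) := by
      rintro (rfl | rfl | rfl)
      · exact hxY g1
      · exact g3 rfl
      · exact g2'.1 hcA
    have h2 : u ∉ U := fun h => g2'.1 (hUA u h).1
    have h3 : u ∉ W := fun h => g2'.1 (hWA u h).1
    have g1' : u ∈ Y := g1
    show lab u = 4
    simp only [lab, if_neg h0, if_neg g2'.2, if_neg h2, if_neg h3, if_pos g1']
  · refine Conn.mono ?_ hce
    intro u hu
    obtain ⟨g1, g2⟩ := hWA u hu
    have h0 : ¬ (u = x ∨ u = e ∨ u = c) := by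
      rintro (rfl | rfl | rfl)
      · exact hxY (hAY g1)
      · exact heA g1
      · exact g2 rfl
    have h2 : u ∉ U := fun h => hUWd u h hu
    show lab u = 5
    simp only [lab, if_neg h0, if_neg (hABd u g1), if_neg h2, if_pos hu]
  · refine RootConn.mono ?_ hPr
    intro u hu
    obtain ⟨g1, g2, g3⟩ := (hTm u).1 (hSr hu)
    have h0 : ¬ (u = x ∨ u = e ∨ u = c) := by
      rintro (rfl | rfl | rfl)
      · exact g3 rfl
      · exact g2 he
      · exact g2 hcY
    have h1 : u ∉ B := fun h => g2 (hBY h)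
    have h2 : u ∉ U := fun h => g2 (hAY (hUA u h).1)
    have h3 : u ∉ W := fun h => g2 (hAY (hWA u h).1)
    show lab u = 6
    simp only [lab, if_neg h0, if_neg h1, if_neg h2, if_neg h3, if_neg g2, if_pos hu]

end finish

/-- Outside the pods no vertex separates the entries from the others. -/
theorem reach_of_no_pod [DecidableEq V] {C E : Finset V} (_hEC : E ⊆ C)
    (hno : ¬ ∃ x G, Pod adj C E x G) {s u : V} (hs : s ∈ C) (hu : u ∈ C) (hus : u ≠ s) :
    ∃ r ∈ E, r ≠ s ∧ RR adj ((C : Set V) \ {s}) r u := by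
  classical
  by_contra hcon
  set G : Finset V := C.filter (fun w => w ≠ s ∧ ¬ ∃ r ∈ E, r ≠ s ∧
    RR adj ((C : Set V) \ {s}) r w) with hG
  apply hno
  refine ⟨s, G, hs, filter_subset _ _, ⟨u, mem_filter.2 ⟨hu, hus, hcon⟩⟩, ?_, ?_, ?_⟩
  · intro h; exact (mem_filter.1 h).2.1 rfl
  · rw [Finset.disjoint_left]
    intro w hw hwE
    obtain ⟨_, h1, h2⟩ := mem_filter.1 hw
    exact h2 ⟨w, hwE, h1, ReflTransGen.refl⟩
  · intro w hw g hg hwg
    by_contra h
    push Not at h
    obtain ⟨g1, g2, g3⟩ := mem_filter.1 hg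
    have : ∃ r ∈ E, r ≠ s ∧ RR adj ((C : Set V) \ {s}) r w := by
      by_contra h4
      exact h.1 (mem_filter.2 ⟨hw, h.2, h4⟩)
    obtain ⟨r, h1, h2, h3⟩ := this
    exact g3 ⟨r, h1, h2, h3.tail ⟨⟨hw, h.2⟩, ⟨g1, g2⟩, hwg⟩⟩

/-- With a pod of maximal size at `x`, no vertex separates the entries from `x`. -/
theorem reach_of_max_pod [DecidableEq V] {C E G : Finset V} {x : V} (hEC : E ⊆ C)
    (hne : E.Nonempty) (hstrong : ∀ u ∈ C, ∀ v ∈ C, RR adj (C : Set V) u v)
    (hpod : Pod adj C E x G) (hmax : ∀ y G', Pod adj C E y G' → G'.card ≤ G.card)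
    (_hxE : x ∉ E) {s : V} (hsx : s ≠ x) :
    ∃ r ∈ E, r ≠ s ∧ RR adj ((C : Set V) \ {s}) r x := by
  classical
  obtain ⟨hx, hGC, _, hxG, hGE, hent⟩ := hpod
  obtain ⟨r0, hr0⟩ := hne
  have hr0G : r0 ∉ G := fun h => (Finset.disjoint_left.1 hGE) h hr0
  -- a walk from `r0` to `x` avoiding `G`
  have hwalk : RR adj ((C : Set V) \ G) r0 x := by
    rcases enter_from (B := (G : Set V)) (hstrong r0 (hEC hr0) x hx) hr0G
      (fun u hu huG v hv _ h => (hent u hu v hv h).resolve_left huG) with h | h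
    · exact h.1
    · exact h
  by_cases hsC : s ∈ C
  · by_contra hcon
    have hsG : s ∉ G := by
      intro h
      refine hcon ⟨r0, hr0, fun h' => hr0G (h' ▸ h), RR.mono ?_ hwalk⟩
      rintro v ⟨h1, h2⟩
      refine ⟨h1, ?_⟩
      rintro rfl
      exact h2 h
    set G' : Finset V := C.filter (fun w => w ≠ s ∧ ¬ ∃ r ∈ E, r ≠ s ∧
      RR adj ((C : Set V) \ {s}) r w) with hG'
    have hp : Pod adj C E s G' := by
      refine ⟨hsC, filter_subset _ _, ⟨x, mem_filter.2 ⟨hx, hsx.symm, hcon⟩⟩, ?_, ?_, ?_⟩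
      · intro h; exact (mem_filter.1 h).2.1 rfl
      · rw [Finset.disjoint_left]
        intro w hw hwE
        obtain ⟨_, h1, h2⟩ := mem_filter.1 hw
        exact h2 ⟨w, hwE, h1, ReflTransGen.refl⟩
      · intro w hw g hg hwg
        by_contra h
        push Not at h
        obtain ⟨g1, g2, g3⟩ := mem_filter.1 hg
        have : ∃ r ∈ E, r ≠ s ∧ RR adj ((C : Set V) \ {s}) r w := by
          by_contra h4
          exact h.1 (mem_filter.2 ⟨hw, h.2, h4⟩)
        obtain ⟨r, h1, h2, h3⟩ := this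
        exact g3 ⟨r, h1, h2, h3.tail ⟨⟨hw, h.2⟩, ⟨g1, g2⟩, hwg⟩⟩
    have hss : G ⊂ G' := by
      rw [Finset.ssubset_iff_of_subset]
      · exact ⟨x, mem_filter.2 ⟨hx, hsx.symm, hcon⟩, hxG⟩
      · intro g hg
        refine mem_filter.2 ⟨hGC hg, fun h => hsG (h ▸ hg), ?_⟩
        rintro ⟨r, h1, h2, h3⟩
        have hrG : r ∉ G := fun h => (Finset.disjoint_left.1 hGE) h h1
        rcases enter_from (B := (G : Set V)) h3 hrG
          (fun u hu huG v hv _ h => (hent u hu.1 v hv h).resolve_left huG) with h | h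
        · exact h.2 hg
        · exact hcon ⟨r, h1, h2, RR.mono Set.sdiff_subset h⟩
    have := hmax s G' hp
    have := Finset.card_lt_card hss
    omega
  · refine ⟨r0, hr0, fun h => hsC (h ▸ hEC hr0), RR.mono ?_ hwalk⟩
    rintro v ⟨h1, h2⟩
    refine ⟨h1, ?_⟩
    rintro rfl
    exact hsC h1

/-- A walk stopped at its first vertex in `B`, with interior avoiding `B` and the start. -/
theorem hit_from {S B : Set V} {a b : V} (hr : RR adj S a b) (ha : a ∉ B) (hb : b ∈ B) :
    ∃ z ∈ B, z ∈ S ∧ Conn adj ((S \ B) \ {a}) a z := by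
  rcases first_hit hr ha with ⟨_, h⟩ | ⟨y, z, h1, h2, h3, h4, h5, h6, _⟩
  · exact absurd hb h
  · refine ⟨z, h5, h4, ?_⟩
    by_cases hya : y = a
    · subst hya; exact Or.inl h6
    · have h7 := conn_of_RR h1 (fun h => hya h.symm)
      have h8 := Conn.glue (T := {y}) h7 rfl rfl ReflTransGen.refl h6
      refine Or.inr (ConnN.mono ?_ h8)
      rintro u (hu | hu)
      · exact hu.1
      · have : u = y := hu
        subst this
        exact ⟨⟨h2, h3⟩, hya⟩

section core

variable [Fintype V] [DecidableEq V]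

/-- The two outer paths. -/
theorem outer {C E Y G : Finset V} {x e : V} (hEC : E ⊆ C) (hne : E.Nonempty)
    (hstrong : ∀ u ∈ C, ∀ v ∈ C, RR adj (C : Set V) u v) (hpod : Pod adj C E x G)
    (hmax : ∀ y G', Pod adj C E y G' → G'.card ≤ G.card) (hYE : Disjoint Y E)
    (hent : ∀ u ∈ C, ∀ v ∈ Y, adj u v → u ∈ Y ∨ u = x)
    (he : Conn adj (((C : Set V) \ Y) \ {x}) e x) :
    ∃ Sr : Set V, Sr ⊆ ((C : Set V) \ Y) \ {x} ∧ Conn adj ((((C : Set V) \ Y) \ {x}) \ Sr) e x ∧
      RootConn adj Sr (E : Set V) x := by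
  classical
  by_cases hxE : x ∈ E
  · exact ⟨∅, Set.empty_subset _, by simpa using he, Or.inl hxE⟩
  · obtain ⟨S, r, hdisj, hS⟩ := fan C E x hEC hxE hne
      (fun s hs => reach_of_max_pod hEC hne hstrong hpod hmax hxE hs)
    have hST : ∀ i, S i ⊆ ((C : Set V) \ Y) \ {x} := by
      intro i p hp
      obtain ⟨h1, h2, h3, h4⟩ := hS i
      refine ⟨⟨(h1 hp).1, ?_⟩, (h1 hp).2⟩
      intro hpY
      have hrY : r i ∉ (Y : Set V) := fun h => (Finset.disjoint_left.1 hYE) h h2
      rcases enter_from (B := (Y : Set V)) (h4 p hp).1 hrY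
        (fun u hu huY v hv _ h => (hent u (h1 hu).1 v hv h).resolve_left huY) with h | h
      · exact h.2 hpY
      · have := RR.mem_right h ⟨h3, hrY⟩
        exact (h1 this.1).2 rfl
    have hroot : ∀ i, RootConn adj (S i) (E : Set V) x := by
      intro i
      obtain ⟨h1, h2, h3, h4⟩ := hS i
      obtain ⟨q, hq, h5, h6⟩ := (h4 (r i) h3).2
      exact Or.inr ⟨r i, h2, h3, q, hq, h5, h6⟩
    have hdd : ∀ i j : Fin 2, i ≠ j → ∀ u ∈ S i, u ∉ S j := by
      intro i j hij u hi hj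
      fin_cases i <;> fin_cases j
      · exact hij rfl
      · exact (Set.disjoint_left.1 hdisj) hi hj
      · exact (Set.disjoint_left.1 hdisj) hj hi
      · exact hij rfl
    rcases hit_conn (P := S 0 ∪ S 1) he with h | ⟨z, hz, _, h⟩
    · refine ⟨S 0, hST 0, Conn.mono ?_ h, hroot 0⟩
      rintro u ⟨h1, h2⟩
      exact ⟨h1, fun h3 => h2 (Or.inl h3)⟩
    · obtain ⟨i, j, hij, hzi, hP⟩ : ∃ i j : Fin 2, i ≠ j ∧ z ∈ S i ∧
          ∀ u, u ∉ S 0 ∪ S 1 → u ∉ S j := by
        rcases hz with hz | hz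
        · exact ⟨0, 1, by decide, hz, fun u hu h => hu (Or.inr h)⟩
        · exact ⟨1, 0, by decide, hz, fun u hu h => hu (Or.inl h)⟩
      obtain ⟨h1, h2, h3, h4⟩ := hS i
      obtain ⟨q, hq, h5, h6⟩ := (h4 z hzi).2
      refine ⟨S j, hST j, Or.inr (ConnN.mono ?_ (Conn.glue h hzi hq h5 h6)), hroot j⟩
      rintro u (⟨g1, g2⟩ | g)
      · exact ⟨g1, hP u g2⟩
      · exact ⟨hST i g, hdd i j hij u g⟩

theorem core (m : ℕ) : ∀ C E : Finset V, C.card = m → E ⊆ C → E.Nonempty →
    (∀ u ∈ C, ∀ v ∈ C, RR adj (C : Set V) u v) →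
    (∀ c ∈ C, c ∉ E → ∃ p ∈ C, ∃ q ∈ C, p ≠ q ∧ p ≠ c ∧ q ≠ c ∧ adj p c ∧ adj q c) →
    (∃ x G, Pod adj C E x G) → F1 adj C E := by
  classical
  induction m using Nat.strong_induction_on with
  | _ m ih =>
    intro C E hm hEC hne hstrong hdeg hpods
    -- a pod of maximal size
    obtain ⟨x, G, hpod, hmax⟩ : ∃ x G, Pod adj C E x G ∧
        ∀ y G', Pod adj C E y G' → G'.card ≤ G.card := by
      have hne' : ((univ : Finset (Finset V)).filter (fun G => ∃ x, Pod adj C E x G)).Nonempty := by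
        obtain ⟨x, G, h⟩ := hpods
        exact ⟨G, mem_filter.2 ⟨mem_univ _, x, h⟩⟩
      obtain ⟨G, hG, hGm⟩ := exists_max_image _ (fun G : Finset V => G.card) hne'
      obtain ⟨x, hx⟩ := (mem_filter.1 hG).2
      exact ⟨x, G, hx, fun y G' h => hGm G' (mem_filter.2 ⟨mem_univ _, y, h⟩)⟩
    obtain ⟨hx, hGC, hGne, hxG, hGE, hent⟩ := id hpod
    -- a source component of `G`
    obtain ⟨Y, hYG, hYne, hYcl, hYmin⟩ : ∃ Y, Y ⊆ G ∧ Y.Nonempty ∧
        (∀ u ∈ G, ∀ v ∈ Y, adj u v → u ∈ Y) ∧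
        ∀ Z, Z ⊆ G → Z.Nonempty → (∀ u ∈ G, ∀ v ∈ Z, adj u v → u ∈ Z) → Y.card ≤ Z.card := by
      have hne' : ((univ : Finset (Finset V)).filter (fun Y => Y ⊆ G ∧ Y.Nonempty ∧
          (∀ u ∈ G, ∀ v ∈ Y, adj u v → u ∈ Y))).Nonempty :=
        ⟨G, mem_filter.2 ⟨mem_univ _, Finset.Subset.refl _, hGne, fun u hu _ _ _ => hu⟩⟩
      obtain ⟨Y, hY, hYm⟩ := exists_min_image _ (fun G : Finset V => G.card) hne'
      obtain ⟨_, h1, h2, h3⟩ := mem_filter.1 hY
      exact ⟨Y, h1, h2, h3, fun Z g1 g2 g3 => hYm Z (mem_filter.2 ⟨mem_univ _, g1, g2, g3⟩)⟩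
    have hYC : Y ⊆ C := hYG.trans hGC
    have hxY : x ∉ Y := fun h => hxG (hYG h)
    have hYE : Disjoint Y E := Finset.disjoint_of_subset_left hYG hGE
    have hentY : ∀ u ∈ C, ∀ v ∈ Y, adj u v → u ∈ Y ∨ u = x := by
      intro u hu v hv h
      rcases hent u hu v (hYG hv) h with h1 | h1
      · exact Or.inl (hYcl u h1 v hv h)
      · exact Or.inr h1
    have hYstrong : ∀ u ∈ Y, ∀ v ∈ Y, RR adj (Y : Set V) u v := by
      intro u hu v hv
      set Z := Y.filter (fun w => RR adj (Y : Set V) w v) with hZ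
      have h1 : Y.card ≤ Z.card := by
        refine hYmin Z ((filter_subset _ _).trans hYG) ⟨v, mem_filter.2 ⟨hv, ReflTransGen.refl⟩⟩ ?_
        intro w hw z hz hwz
        obtain ⟨hz1, hz2⟩ := mem_filter.1 hz
        have hwY := hYcl w hw z hz1 hwz
        exact mem_filter.2 ⟨hwY, ReflTransGen.head ⟨hwY, hz1, hwz⟩ hz2⟩
      have h2 : Z = Y := Finset.eq_of_subset_of_card_le (filter_subset _ _) h1
      rw [← h2] at hu
      exact (mem_filter.1 hu).2
    obtain ⟨y0, hy0⟩ := hYne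
    set E' := Y.filter (fun v => adj x v) with hE'
    have hE'Y : E' ⊆ Y := filter_subset _ _
    have hE'ne : E'.Nonempty := by
      rcases first_hit (B := (Y : Set V)) (hstrong x hx y0 (hYC hy0)) hxY with h | h
      · exact absurd hy0 h.2
      · obtain ⟨y, z, _, h2, h3, _, h5, h6, _⟩ := h
        have : y = x := (hentY y h2 z h5 h6).resolve_left h3
        subst this
        exact ⟨z, mem_filter.2 ⟨h5, h6⟩⟩
    by_cases hp' : ∃ y G', Pod adj Y E' y G'
    · -- induction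
      have hlt : Y.card < m := by
        rw [← hm]
        refine Finset.card_lt_card ((Finset.ssubset_iff_of_subset hYC).2 ⟨x, hx, hxY⟩)
      have hdeg' : ∀ c ∈ Y, c ∉ E' → ∃ p ∈ Y, ∃ q ∈ Y, p ≠ q ∧ p ≠ c ∧ q ≠ c ∧ adj p c ∧
          adj q c := by
        intro c hc hcE
        obtain ⟨p, hp, q, hq, h1, h2, h3, h4, h5⟩ := hdeg c (hYC hc)
          (fun h => (Finset.disjoint_left.1 hYE) hc h)
        have hxc : ¬ adj x c := fun h => hcE (mem_filter.2 ⟨hc, h⟩)
        have hp' : p ∈ Y := (hentY p hp c hc h4).resolve_right (fun h => hxc (h ▸ h4))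
        have hq' : q ∈ Y := (hentY q hq c hc h5).resolve_right (fun h => hxc (h ▸ h5))
        exact ⟨p, hp', q, hq', h1, h2, h3, h4, h5⟩
      obtain ⟨v, e, c, lab, hv, he, hc, hve, hvc, hec, l1, l2, l3, hlab, c1, c2, c3, c4, c5, hroot⟩ :=
        ih Y.card hlt Y E' rfl hE'Y hE'ne hYstrong hdeg' hp'
      let lab' : V → ℕ := fun u => if u ∈ Y then lab u else if u ∈ C then 6 else 0
      have hin : ∀ i, i ≠ 0 → {u | lab u = i} ⊆ {u | lab' u = i} := by
        intro i hi u hu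
        have hu' : lab u = i := hu
        have : u ∈ Y := hlab u (by rw [hu']; exact hi)
        show lab' u = i
        simp only [lab', if_pos this]
        exact hu'
      have hout : ((C : Set V) \ Y) ⊆ {u | lab' u = 6} := by
        rintro u ⟨h1, h2⟩
        have h1' : u ∈ C := h1
        have h2' : u ∉ Y := h2
        show lab' u = 6
        simp only [lab', if_neg h2', if_pos h1']
      refine ⟨v, e, c, lab', hYC hv, hYC he, hYC hc, hve, hvc, hec, ?_, ?_, ?_, ?_,
        Conn.mono (hin 1 (by norm_num)) c1, Conn.mono (hin 2 (by norm_num)) c2,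
        Conn.mono (hin 3 (by norm_num)) c3, Conn.mono (hin 4 (by norm_num)) c4,
        Conn.mono (hin 5 (by norm_num)) c5, ?_⟩
      · simp [lab', hv, l1]
      · simp [lab', he, l2]
      · simp [lab', hc, l3]
      · intro u hu
        by_contra h
        have h' : u ∉ Y := fun h' => h (hYC h')
        exact hu (by simp [lab', h, h'])
      · obtain ⟨r0, hr0⟩ := hne
        have hr0Y : r0 ∉ (Y : Set V) := fun h => (Finset.disjoint_left.1 hYE) h hr0
        have hwalk : RR adj ((C : Set V) \ Y) r0 x := by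
          rcases enter_from (B := (Y : Set V)) (hstrong r0 (hEC hr0) x hx) hr0Y
            (fun u hu huY v hv _ h => (hentY u hu v hv h).resolve_left huY) with h | h
          · exact h.1
          · exact h
        have hx6 : x ∈ {u | lab' u = 6} := hout ⟨hx, hxY⟩
        have hr6 : r0 ∈ {u | lab' u = 6} := hout ⟨hEC hr0, hr0Y⟩
        rcases hroot with h | ⟨r', hr', hr'6, q, hq, h1, h2⟩
        · exact Or.inr ⟨r0, hr0, hr6, x, hx6, RR.mono hout hwalk, (mem_filter.1 h).2⟩
        · refine Or.inr ⟨r0, hr0, hr6, q, hin 6 (by norm_num) hq, ?_, h2⟩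
          exact ((RR.mono hout hwalk).tail ⟨hx6, hin 6 (by norm_num) hr'6,
            (mem_filter.1 hr').2⟩).trans (RR.mono (hin 6 (by norm_num)) h1)
    · -- the pod `Y` has no pod
      obtain ⟨e, heY, _, hPe, _⟩ := exit_conn (A := (Y : Set V)) (hstrong y0 (hYC hy0) x hx) hy0 hxY
      have heY' : e ∈ Y := heY
      obtain ⟨Sr, hSr, hPe', hPr⟩ := outer hEC hne hstrong hpod hmax hYE hentY hPe
      have hreach : ∀ s, ∀ u ∈ Y, u ≠ s → ∃ r ∈ E', r ≠ s ∧ RR adj ((Y : Set V) \ {s}) r u := by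
        intro s u hu hus
        by_cases hs : s ∈ Y
        · exact reach_of_no_pod hE'Y hp' hs hu hus
        · obtain ⟨r, hr⟩ := hE'ne
          refine ⟨r, hr, fun h => hs (h ▸ hE'Y hr), RR.mono ?_ (hYstrong r (hE'Y hr) u hu)⟩
          intro w hw
          refine ⟨hw, ?_⟩
          rintro rfl
          exact hs hw
      have heE : e ∉ E := fun h => (Finset.disjoint_left.1 hYE) heY' h
      by_cases hxe : adj x e
      · -- `x → e` and a second path
        obtain ⟨w, hwY, hwe, hadj⟩ : ∃ w ∈ Y, w ≠ e ∧ adj w e := by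
          obtain ⟨p, hp, q, hq, h1, h2, h3, h4, h5⟩ := hdeg e (hYC heY') heE
          rcases hentY p hp e heY' h4 with h | h
          · exact ⟨p, h, h2, h4⟩
          · rcases hentY q hq e heY' h5 with h' | h'
            · exact ⟨q, h', h3, h5⟩
            · exact absurd (h.trans h'.symm) h1
        obtain ⟨r, hr, hre, hrw⟩ := hreach e w hwY hwe
        have hcon : ConnN adj ((Y.erase e : Finset V) : Set V) x e := by
          have heq : ((Y.erase e : Finset V) : Set V) = (Y : Set V) \ {e} := by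
            ext v; simp [and_comm]
          rw [heq]
          exact ⟨r, ⟨hE'Y hr, hre⟩, w, ⟨hwY, hwe⟩, (mem_filter.1 hr).2, hrw, hadj⟩
        obtain ⟨A, hA, hA1, hA2⟩ := exists_min_connN _ hcon
        have hAY : A ⊆ Y := hA.trans (Finset.erase_subset _ _)
        have heA : e ∉ A := fun h => Finset.notMem_erase e Y (hA h)
        obtain ⟨a, ha, _⟩ := id hA1
        obtain ⟨c, hcA, _, hL⟩ := hit_from (B := (A : Set V)) (hYstrong e heY' a (hAY ha)) heA ha
        refine finish (A := A) (B := ∅) (c := c) hYC hx hxY heY' hAY (Finset.empty_subset _) heA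
          (Finset.notMem_empty _) (Finset.disjoint_empty_right _) hcA hA1 hA2 (Or.inl hxe) ?_ rfl hSr
          hPe' hPr
        simpa using hL
      · have heE' : e ∉ E' := fun h => hxe (mem_filter.1 h).2
        obtain ⟨S, r, hdisj, hS⟩ := fan Y E' e hE'Y heE' hE'ne
          (fun s hs => hreach s e heY' hs.symm)
        have hconn : ∀ i, ConnN adj (((univ : Finset V).filter (fun v => v ∈ S i) : Finset V) :
            Set V) x e := by
          intro i
          have heq : (((univ : Finset V).filter (fun v => v ∈ S i) : Finset V) : Set V) = S i := by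
            ext v; simp
          rw [heq]
          obtain ⟨h1, h2, h3, h4⟩ := hS i
          obtain ⟨q, hq, h5, h6⟩ := (h4 (r i) h3).2
          exact ⟨r i, h3, q, hq, (mem_filter.1 h2).2, h5, h6⟩
        have hmin := fun i => exists_min_connN _ (hconn i)
        choose A hA hA1 hA2 using hmin
        have hAS : ∀ i, ∀ v ∈ A i, v ∈ S i := fun i v hv => (mem_filter.1 (hA i hv)).2
        have hAY : ∀ i, A i ⊆ Y := fun i v hv => ((hS i).1 (hAS i v hv)).1
        have heA : ∀ i, e ∉ A i := fun i h => ((hS i).1 (hAS i e h)).2 rfl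
        have hAd : Disjoint (A 0) (A 1) := by
          rw [Finset.disjoint_left]
          intro v h0 h1
          exact (Set.disjoint_left.1 hdisj) (hAS 0 v h0) (hAS 1 v h1)
        obtain ⟨a, ha, _⟩ := id (hA1 0)
        obtain ⟨c, hcA, _, hL⟩ := hit_from (B := (A 0 : Set V) ∪ (A 1 : Set V))
          (hYstrong e heY' a (hAY 0 ha)) (by rintro (h | h); exacts [heA 0 h, heA 1 h])
          (Or.inl ha)
        rcases hcA with hc | hc
        · exact finish (A := A 0) (B := A 1) (c := c) hYC hx hxY heY' (hAY 0) (hAY 1) (heA 0)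
            (heA 1) hAd hc (hA1 0) (hA2 0) (Or.inr (hA1 1)) hL rfl hSr hPe' hPr
        · refine finish (A := A 1) (B := A 0) (c := c) hYC hx hxY heY' (hAY 1) (hAY 0) (heA 1)
            (heA 0) hAd.symm hc (hA1 1) (hA2 1) (Or.inr (hA1 0)) ?_ rfl hSr hPe' hPr
          rw [Set.union_comm]
          exact hL

end core

end Pool.Agent.H.MP_0cacf8
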