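import Pool.Agent.H.MP_0cacf8.RC3A

/-!
# Splitting a path at a vertex, ears to the tip, subdividing an arc
-/

set_option autoImplicit false

namespace Pool.Agent.H.MP_0cacf8

open Relation Finset Pool.Agent.H.MP_0d008e_co

variable {V : Type*} {adj : V → V → Prop}

theorem RK_of_tip {C X : Set V} {x e c : V} {S : Seg → Set V} (h : IsK adj C x e c S)
    (hx : x ∈ X) : RK adj C X :=
  ⟨x, e, c, S, ∅, h, Set.empty_subset _, fun h => h, fun h => h, fun h => h,
    fun _ _ h => h.elim, Or.inl hx⟩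

namespace IsK

variable {C : Set V} {v e c : V} {S : Seg → Set V}

theorem ne_of_mem (h : IsK adj C v e c S) {x : V} {i : Seg} (hx : x ∈ S i) :
    x ≠ v ∧ x ≠ e ∧ x ≠ c := by
  refine ⟨?_, ?_, ?_⟩
  · rintro rfl
    exact h.nv i hx
  · rintro rfl
    exact h.ne i hx
  · rintro rfl
    exact h.nc i hx

/-- A vertex in all subdivisions is a branch vertex or on a path. -/
theorem mem_or (h : IsK adj C v e c S) {x : V} (hx : ¬ Km adj (C \ {x})) :
    x = v ∨ x = e ∨ x = c ∨ ∃ i, x ∈ S i := by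
  by_contra hcon
  push Not at hcon
  obtain ⟨h1, h2, h3, h4⟩ := hcon
  apply hx
  refine ⟨v, e, c, S, ⟨h.vC, h1.symm⟩, ⟨h.eC, h2.symm⟩, ⟨h.cC, h3.symm⟩, h.ve, h.vc, h.ec, ?_,
    h.nv, h.ne, h.nc, h.disj, h.conn⟩
  intro i u hu
  refine ⟨h.sub i hu, ?_⟩
  rintro rfl
  exact h4 i hu

/-- A path avoiding `x` is impossible if `x` is in all subdivisions. -/
theorem no_avoid (h : IsK adj C v e c S) {x : V} (hx : ¬ Km adj (C \ {x})) {i : Seg}
    (hi : x ∈ S i) {T : Set V} (hT : T ⊆ C) (hxT : x ∉ T) (nv : v ∉ T) (ne : e ∉ T) (nc : c ∉ T)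
    (hd : ∀ j, j ≠ i → ∀ u ∈ T, u ∉ S j)
    (hconn : Conn adj T (src v e c i) (dst v e c i)) : False := by
  obtain ⟨h1, h2, h3⟩ := h.ne_of_mem hi
  apply hx
  refine ⟨v, e, c, _, h.repl i ⟨h.vC, h1.symm⟩ ⟨h.eC, h2.symm⟩ ⟨h.cC, h3.symm⟩ (T := T) ?_ ?_ nv ne nc
    hd hconn (fun j _ => h.conn j)⟩
  · intro u hu
    refine ⟨hT hu, ?_⟩
    rintro rfl
    exact hxT hu
  · intro j hj u hu
    refine ⟨h.sub j hu, ?_⟩
    rintro rfl
    exact h.disj i j hj.symm _ hi hu

theorem split (h : IsK adj C v e c S) {x : V} (hx : ¬ Km adj (C \ {x})) {i : Seg}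
    (hi : x ∈ S i) : ∃ U W : Set V, U ⊆ S i \ {x} ∧ W ⊆ S i \ {x} ∧ Disjoint U W ∧
      Conn adj U (src v e c i) x ∧ Conn adj W x (dst v e c i) := by
  have hno : ¬ Conn adj (S i \ {x}) (src v e c i) (dst v e c i) := by
    intro hc
    exact h.no_avoid hx hi (T := S i \ {x}) (fun u hu => h.sub i hu.1) (fun h => h.2 rfl)
      (fun hu => h.nv i hu.1) (fun hu => h.ne i hu.1) (fun hu => h.nc i hu.1)
      (fun j hj u hu => h.disj i j hj.symm u hu.1) hc
  rcases h.conn i with hc | hc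
  · exact absurd (Or.inl hc) hno
  · exact split_conn hc hi (fun h2 => hno (Or.inr h2))

end IsK

/-- pieces from which new subdivisions are put together -/
inductive Atom
  | u | w | r | z
  | s (j : Seg)

/-- the pieces -/
def atom (S : Seg → Set V) (U W R Z : Set V) (i : Seg) : Atom → Set V
  | .u => U
  | .w => W
  | .r => R
  | .z => Z
  | .s j => {y | j ≠ i ∧ y ∈ S j}

theorem atom_disj {S : Seg → Set V} {U W R Z : Set V} {i : Seg}
    (dd : ∀ i j, i ≠ j → ∀ u, u ∈ S i → u ∉ S j) (hU : U ⊆ S i) (hW : W ⊆ S i)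
    (hUW : ∀ y ∈ U, y ∉ W) (hR : ∀ j, ∀ y ∈ R, y ∉ S j) (hZ : ∀ j, ∀ y ∈ Z, y ∉ S j)
    (hRZ : ∀ y ∈ R, y ∉ Z) : ∀ k l, k ≠ l → ∀ y, y ∈ atom S U W R Z i k →
      y ∉ atom S U W R Z i l := by
  intro k l hkl y hk hl
  cases k <;> cases l
  · exact hkl rfl
  · exact hUW y hk hl
  · exact hR i y hl (hU hk)
  · exact hZ i y hl (hU hk)
  · exact dd _ _ hl.1 y hl.2 (hU hk)
  · exact hUW y hl hk
  · exact hkl rfl
  · exact hR i y hl (hW hk)
  · exact hZ i y hl (hW hk)
  · exact dd _ _ hl.1 y hl.2 (hW hk)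
  · exact hR i y hk (hU hl)
  · exact hR i y hk (hW hl)
  · exact hkl rfl
  · exact hRZ y hk hl
  · exact hR _ y hk hl.2
  · exact hZ i y hk (hU hl)
  · exact hZ i y hk (hW hl)
  · exact hRZ y hl hk
  · exact hkl rfl
  · exact hZ _ y hk hl.2
  · exact dd _ _ hk.1 y hk.2 (hU hl)
  · exact dd _ _ hk.1 y hk.2 (hW hl)
  · exact hR _ y hl hk.2
  · exact hZ _ y hl hk.2
  · rename_i j j'
    have hjj : j ≠ j' := fun h => hkl (by rw [h])
    exact dd j j' hjj y hk.2 hl.2

theorem Conn.atoms {α : Type*} {A : α → Set V} {g : α → Seg} {i : Seg} {a b : V} {T : Set V} (k : α)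
    (hk : g k = i) (hT : T ⊆ A k) (h : Conn adj T a b) :
    Conn adj {y | ∃ k, g k = i ∧ y ∈ A k} a b := by
  refine Conn.mono ?_ h
  intro y hy
  exact ⟨k, hk, hT hy⟩

/-- Assembling a subdivision from disjoint pieces. -/
theorem of_atoms {α : Type*} {C : Set V} {v e c : V} {A : α → Set V} (g : α → Seg)
    (hv : v ∈ C) (he : e ∈ C) (hc : c ∈ C) (ve : v ≠ e) (vc : v ≠ c) (ec : e ≠ c)
    (hsub : ∀ k, A k ⊆ C) (nv : ∀ k, v ∉ A k) (ne : ∀ k, e ∉ A k) (nc : ∀ k, c ∉ A k)
    (hd : ∀ k l, k ≠ l → ∀ y, y ∈ A k → y ∉ A l)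
    (conn : ∀ i, Conn adj {y | ∃ k, g k = i ∧ y ∈ A k} (src v e c i) (dst v e c i)) :
    IsK adj C v e c (fun i => {y | ∃ k, g k = i ∧ y ∈ A k}) where
  vC := hv
  eC := he
  cC := hc
  ve := ve
  vc := vc
  ec := ec
  sub := fun i y hy => by
    obtain ⟨k, _, h⟩ := hy
    exact hsub k h
  nv := fun i hy => by
    obtain ⟨k, _, h⟩ := hy
    exact nv k h
  ne := fun i hy => by
    obtain ⟨k, _, h⟩ := hy
    exact ne k h
  nc := fun i hy => by
    obtain ⟨k, _, h⟩ := hy
    exact nc k h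
  disj := fun i j hij y h1 h2 => by
    obtain ⟨k, hk, h1⟩ := h1
    obtain ⟨l, hl, h2⟩ := h2
    by_cases hkl : k = l
    · subst hkl
      exact hij (hk.symm.trans hl)
    · exact hd k l hkl y h1 h2
  conn := conn

namespace IsK

variable {C : Set V} {v e c : V} {S : Seg → Set V}

/-- An ear from `x` on a path other than `b` to the tip. -/
theorem ear {X : Set V} (h : IsK adj C v e c S) {x : V} (hxX : x ∈ X) {i : Seg} (hib : i ≠ .b)
    (hi : x ∈ S i) {U W R : Set V} (hU : U ⊆ S i \ {x}) (hW : W ⊆ S i \ {x}) (hUW : Disjoint U W)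
    (h1 : Conn adj U (src v e c i) x) (h2 : Conn adj W x (dst v e c i)) (hR : R ⊆ C)
    (nv : v ∉ R) (ne : e ∉ R) (nc : c ∉ R) (hRS : ∀ j, ∀ u ∈ R, u ∉ S j) (h3 : Conn adj R x v) :
    RK adj C X := by
  have hxC : x ∈ C := h.sub i hi
  obtain ⟨x1, x2, x3⟩ := h.ne_of_mem hi
  have hUS : U ⊆ S i := fun u hu => (hU hu).1
  have hWS : W ⊆ S i := fun u hu => (hW hu).1
  have hdA := atom_disj (S := S) (U := U) (W := W) (R := R) (Z := {c}) (i := i) h.disj hUS hWS
    (fun y h1 h2 => (Set.disjoint_left.1 hUW) h1 h2) hRS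
    (by
      intro j y hyc
      rw [Set.mem_singleton_iff.1 hyc]
      exact h.nc j)
    (by
      intro y hyR hyc
      rw [Set.mem_singleton_iff.1 hyc] at hyR
      exact nc hyR)
  have hsub : ∀ k, atom S U W R {c} i k ⊆ C := by
    intro k y hy
    cases k
    · exact h.sub i (hUS hy)
    · exact h.sub i (hWS hy)
    · exact hR hy
    · rw [Set.mem_singleton_iff.1 hy]
      exact h.cC
    · exact h.sub _ hy.2
  have hxA : ∀ k, x ∉ atom S U W R {c} i k := by
    intro k hy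
    cases k
    · exact (hU hy).2 rfl
    · exact (hW hy).2 rfl
    · exact hRS i x hy hi
    · exact x3 hy
    · exact h.disj _ _ hy.1 x hy.2 hi
  have hvA : ∀ k, v ∉ atom S U W R {c} i k := by
    intro k hy
    cases k
    · exact h.nv i (hUS hy)
    · exact h.nv i (hWS hy)
    · exact nv hy
    · exact h.vc hy
    · exact h.nv _ hy.2
  have heA : ∀ k, e ∉ atom S U W R {c} i k := by
    intro k hy
    cases k
    · exact h.ne i (hUS hy)
    · exact h.ne i (hWS hy)
    · exact ne hy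
    · exact h.ec hy
    · exact h.ne _ hy.2
  cases i with
  | b => exact absurd rfl hib
  | a1 =>
    have j2 : Conn adj (S .a2 ∪ (S .c1 ∪ {c})) v e := Or.inr (Conn.join (h.conn .a2) (h.conn .c1))
    refine RK_of_tip (x := x) (e := v) (c := e) (of_atoms (A := atom S U W R {c} .a1)
      (fun k => match k with
        | .u => .b
        | .w => .a2
        | .r => .a1
        | .z => .b2
        | .s .b => .c1
        | .s _ => .b2) hxC h.vC h.eC x1 x2 h.ve hsub hxA hvA heA hdA ?_) hxX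
    intro j
    cases j
    · exact Conn.atoms .r rfl (fun y hy => hy) h3
    · exact Conn.atoms .u rfl (fun y hy => hy) h1
    · exact Conn.atoms .w rfl (fun y hy => hy) h2
    · refine Conn.mono ?_ j2
      rintro y (hy | hy | hy)
      · exact ⟨.s .a2, rfl, by decide, hy⟩
      · exact ⟨.s .c1, rfl, by decide, hy⟩
      · exact ⟨.z, rfl, hy⟩
    · exact Conn.atoms (.s .b) rfl (fun y hy => And.intro (by decide) hy) (h.conn .b)
  | a2 =>
    have j2 : Conn adj (W ∪ (S .c1 ∪ {c})) x e := Or.inr (Conn.join h2 (h.conn .c1))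
    refine RK_of_tip (x := x) (e := v) (c := e) (of_atoms (A := atom S U W R {c} .a2)
      (fun k => match k with
        | .u => .b
        | .w => .a2
        | .r => .a1
        | .z => .a2
        | .s .b => .c1
        | .s .a1 => .b2
        | .s _ => .a2) hxC h.vC h.eC x1 x2 h.ve hsub hxA hvA heA hdA ?_) hxX
    intro j
    cases j
    · exact Conn.atoms .r rfl (fun y hy => hy) h3
    · exact Conn.atoms .u rfl (fun y hy => hy) h1
    · refine Conn.mono ?_ j2
      rintro y (hy | hy | hy)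
      · exact ⟨.w, rfl, hy⟩
      · exact ⟨.s .c1, rfl, by decide, hy⟩
      · exact ⟨.z, rfl, hy⟩
    · exact Conn.atoms (.s .a1) rfl (fun y hy => And.intro (by decide) hy) (h.conn .a1)
    · exact Conn.atoms (.s .b) rfl (fun y hy => And.intro (by decide) hy) (h.conn .b)
  | b2 =>
    have j2 : Conn adj (W ∪ (S .c1 ∪ {c})) x e := Or.inr (Conn.join h2 (h.conn .c1))
    refine RK_of_tip (x := x) (e := e) (c := v) (of_atoms (A := atom S U W R {c} .b2)
      (fun k => match k with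
        | .u => .b
        | .w => .a1
        | .r => .a2
        | .z => .a1
        | .s .b => .b2
        | .s .a1 => .c1
        | .s _ => .a1) hxC h.eC h.vC x2 x1 h.ve.symm hsub hxA heA hvA hdA ?_) hxX
    intro j
    cases j
    · refine Conn.mono ?_ j2
      rintro y (hy | hy | hy)
      · exact ⟨.w, rfl, hy⟩
      · exact ⟨.s .c1, rfl, by decide, hy⟩
      · exact ⟨.z, rfl, hy⟩
    · exact Conn.atoms .u rfl (fun y hy => hy) h1
    · exact Conn.atoms .r rfl (fun y hy => hy) h3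
    · exact Conn.atoms (.s .b) rfl (fun y hy => And.intro (by decide) hy) (h.conn .b)
    · exact Conn.atoms (.s .a1) rfl (fun y hy => And.intro (by decide) hy) (h.conn .a1)
  | c1 =>
    have j2 : Conn adj (S .b2 ∪ (U ∪ {c})) e x := Or.inr (Conn.join (h.conn .b2) h1)
    refine RK_of_tip (x := x) (e := e) (c := v) (of_atoms (A := atom S U W R {c} .c1)
      (fun k => match k with
        | .u => .b
        | .w => .a1
        | .r => .a2
        | .z => .b
        | .s .b => .b2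
        | .s .a1 => .c1
        | .s _ => .b) hxC h.eC h.vC x2 x1 h.ve.symm hsub hxA heA hvA hdA ?_) hxX
    intro j
    cases j
    · exact Conn.atoms .w rfl (fun y hy => hy) h2
    · refine Conn.mono ?_ j2
      rintro y (hy | hy | hy)
      · exact ⟨.s .b2, rfl, by decide, hy⟩
      · exact ⟨.u, rfl, hy⟩
      · exact ⟨.z, rfl, hy⟩
    · exact Conn.atoms .r rfl (fun y hy => hy) h3
    · exact Conn.atoms (.s .b) rfl (fun y hy => And.intro (by decide) hy) (h.conn .b)
    · exact Conn.atoms (.s .a1) rfl (fun y hy => And.intro (by decide) hy) (h.conn .a1)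

end IsK

end Pool.Agent.H.MP_0cacf8
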