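import Pool.Agent.H.MP_0cacf8.Final
import Pool.Agent.H.MP_0cacf8.RC3B

/-!
# Subdivisions of the bidirected triangle minus an arc: minimal paths, reversal, moves
-/

set_option autoImplicit false

namespace Pool.Agent.H.MP_0cacf8

open Relation Finset Pool.Agent.H.MP_0d008e_co

variable {V : Type*} {adj : V → V → Prop}

/-! ### Minimal path sets -/

/-- `Q` is a minimal set of inner vertices of a walk from `a` to `b`. -/
def MP (adj : V → V → Prop) (Q : Set V) (a b : V) : Prop :=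
  Conn adj Q a b ∧ ∀ y ∈ Q, ¬ Conn adj (Q \ {y}) a b

theorem exists_MP [Finite V] {Q : Set V} {a b : V} (h : Conn adj Q a b) :
    ∃ Q', Q' ⊆ Q ∧ MP adj Q' a b := by
  classical
  have key : ∀ n : ℕ, ∀ Q : Set V, Q.ncard = n → Conn adj Q a b → ∃ Q', Q' ⊆ Q ∧ MP adj Q' a b := by
    intro n
    induction n using Nat.strong_induction_on with
    | _ n ih =>
      intro Q hn hQ
      by_cases hy : ∃ y ∈ Q, Conn adj (Q \ {y}) a b
      · obtain ⟨y, hyQ, hy⟩ := hy
        have hlt : (Q \ {y}).ncard < n := by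
          rw [← hn]
          exact Set.ncard_lt_ncard ⟨Set.sdiff_subset, fun g => (g hyQ).2 rfl⟩ (Set.toFinite Q)
        obtain ⟨Q', h1, h2⟩ := ih _ hlt _ rfl hy
        exact ⟨Q', h1.trans Set.sdiff_subset, h2⟩
      · exact ⟨Q, Set.Subset.refl _, hQ, fun y hyQ g => hy ⟨y, hyQ, g⟩⟩
  exact key _ Q rfl h

theorem MP.split {Q : Set V} {a b y : V} (h : MP adj Q a b) (hy : y ∈ Q) :
    ∃ U W : Set V, U ⊆ Q \ {y} ∧ W ⊆ Q \ {y} ∧ Disjoint U W ∧ Conn adj U a y ∧ Conn adj W y b := by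
  rcases h.1 with h1 | h1
  · exact absurd (Or.inl h1) (h.2 y hy)
  · exact split_conn h1 hy (fun g => h.2 y hy (Or.inr g))

/-- The vertices of `W` on walks from `w` to `b`. -/
theorem Conn.tails {W : Set V} {w b : V} (h : Conn adj W w b) :
    Conn adj (W ∩ {y | Tail adj W y b}) w b :=
  Conn.restrict h fun _ _ _ g => g

theorem MP.uniq {Q : Set V} {a b w w' : V} (h : MP adj Q a b) (h1 : adj a w) (h2 : adj a w')
    (hw : w ∈ Q ∨ w = b) (hw' : w' ∈ Q ∨ w' = b) : w = w' := by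
  by_contra hne
  rcases hw with hw | hw
  · rcases hw' with hw' | hw'
    · obtain ⟨U, W, _, hW, _, _, c2⟩ := h.split hw'
      have h3 := Conn.tails c2
      have h4 : Conn adj ((W ∩ {y | Tail adj W y b}) ∪ {w'}) a b := by
        have := Conn.join (U := ∅) (Or.inl h2) h3
        rw [Set.empty_union] at this
        exact Or.inr this
      have h5 : w ∈ W ∩ {y | Tail adj W y b} := by
        by_contra h5
        refine h.2 w hw (Conn.mono ?_ h4)
        rintro y (hy | hy)
        · refine ⟨(hW hy.1).1, ?_⟩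
          rintro rfl
          exact h5 hy
        · have hy' : y = w' := hy
          rw [hy']
          exact ⟨hw', fun g => hne g.symm⟩
      obtain ⟨h6, h7⟩ := h5
      rcases h7 with h7 | ⟨_, q, hq, h8, h9⟩
      · subst h7
        exact h.2 w' hw' (Or.inl h1)
      · exact h.2 w' hw' (Conn.mono hW (Or.inr ⟨w, h6, q, hq, h1, h8, h9⟩))
    · subst hw'
      exact h.2 w hw (Or.inl h2)
  · subst hw
    rcases hw' with hw' | hw'
    · exact h.2 w' hw' (Or.inl h1)
    · exact hne hw'.symm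

/-! ### Reversal -/

/-- the reversal of the paths -/
def rev : Seg → Seg
  | .a1 => .b2
  | .b => .c1
  | .a2 => .a2
  | .b2 => .a1
  | .c1 => .b

theorem rev_inj {i j : Seg} (h : rev i = rev j) : i = j := by
  cases i <;> cases j <;> first | rfl | exact absurd h (by decide)

theorem IsK.flip {C : Set V} {v e c : V} {S : Seg → Set V} (h : IsK adj C v e c S) :
    IsK (fun x y => adj y x) C c e v (fun i => S (rev i)) where
  vC := h.cC
  eC := h.eC
  cC := h.vC
  ve := h.ec.symm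
  vc := h.vc.symm
  ec := h.ve.symm
  sub := fun i => h.sub _
  nv := fun i => h.nc _
  ne := fun i => h.ne _
  nc := fun i => h.nv _
  disj := fun i j hij u h1 h2 => h.disj _ _ (fun g => hij (rev_inj g)) u h1 h2
  conn := fun i => by
    cases i
    · exact Conn_flip (h.conn .b2)
    · exact Conn_flip (h.conn .c1)
    · exact Conn_flip (h.conn .a2)
    · exact Conn_flip (h.conn .a1)
    · exact Conn_flip (h.conn .b)

/-! ### Subdivisions whose branch vertices are not `h` -/

/-- A subdivision of the bidirected triangle whose branch vertices are different from `h`. -/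
def K3off (adj : V → V → Prop) (h : V) : Prop :=
  ∃ (a b c : V) (lab : V → ℕ), (a ≠ h ∧ b ≠ h ∧ c ≠ h) ∧ a ≠ b ∧ a ≠ c ∧ b ≠ c ∧ lab a = 0 ∧
    lab b = 0 ∧ lab c = 0 ∧ Conn adj {u | lab u = 1} a b ∧ Conn adj {u | lab u = 2} b a ∧
    Conn adj {u | lab u = 3} a c ∧ Conn adj {u | lab u = 4} b c ∧
    Conn adj {u | lab u = 5} c b ∧ Conn adj {u | lab u = 6} c a

theorem K3off_flip {h : V} (hk : K3off (fun x y => adj y x) h) : K3off adj h := by
  obtain ⟨a, b, c, lab, h0, h1, h2, h3, h4, h5, h6, g1, g2, g3, g4, g5, g6⟩ := hk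
  let f : ℕ → ℕ := fun i => if i = 1 then 2 else if i = 2 then 1 else if i = 3 then 6 else
    if i = 4 then 5 else if i = 5 then 4 else if i = 6 then 3 else 0
  have hf : ∀ i j, f i = j → {u | lab u = i} ⊆ {u | f (lab u) = j} := by
    rintro i j hij u hu
    have : lab u = i := hu
    show f (lab u) = j
    rw [this, hij]
  refine ⟨a, b, c, fun u => f (lab u), h0, h1, h2, h3, ?_, ?_, ?_, ?_, ?_, ?_, ?_, ?_, ?_⟩
  · simp [f, h4]
  · simp [f, h5]
  · simp [f, h6]
  · exact Conn.mono (hf 2 1 (by simp [f])) (Conn_flip g2)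
  · exact Conn.mono (hf 1 2 (by simp [f])) (Conn_flip g1)
  · exact Conn.mono (hf 6 3 (by simp [f])) (Conn_flip g6)
  · exact Conn.mono (hf 5 4 (by simp [f])) (Conn_flip g5)
  · exact Conn.mono (hf 4 5 (by simp [f])) (Conn_flip g4)
  · exact Conn.mono (hf 3 6 (by simp [f])) (Conn_flip g3)

/-- all vertices but `h` -/
abbrev Ch (h : V) : Set V := {y | y ≠ h}

/-! ### Closing a subdivision -/

theorem K3_of {z : V} {T : Set V} {v e c : V} {S : Seg → Set V} (h : IsK adj (Ch z) v e c S)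
    (hv : v ∉ T) (he : e ∉ T) (hc : c ∉ T) (hT : ∀ i, ∀ u ∈ T, u ∉ S i)
    (hconn : Conn adj T c v) : K3off adj z := by
  classical
  let lab : V → ℕ := fun u => if u ∈ S .a1 then 1 else if u ∈ S .b then 2 else
    if u ∈ S .a2 then 3 else if u ∈ S .b2 then 4 else if u ∈ S .c1 then 5 else
    if u ∈ T then 6 else 0
  have l0 : ∀ u, (∀ i, u ∉ S i) → u ∉ T → lab u = 0 := by
    intro u h1 h2
    simp [lab, h1, h2]
  have l1 : S .a1 ⊆ {u | lab u = 1} := by
    intro u hu
    show lab u = 1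
    simp [lab, hu]
  have l2 : S .b ⊆ {u | lab u = 2} := by
    intro u hu
    have h1 := h.disj .b .a1 (by decide) u hu
    show lab u = 2
    simp [lab, hu, h1]
  have l3 : S .a2 ⊆ {u | lab u = 3} := by
    intro u hu
    have h1 := h.disj .a2 .a1 (by decide) u hu
    have h2 := h.disj .a2 .b (by decide) u hu
    show lab u = 3
    simp [lab, hu, h1, h2]
  have l4 : S .b2 ⊆ {u | lab u = 4} := by
    intro u hu
    have h1 := h.disj .b2 .a1 (by decide) u hu
    have h2 := h.disj .b2 .b (by decide) u hu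
    have h3 := h.disj .b2 .a2 (by decide) u hu
    show lab u = 4
    simp [lab, hu, h1, h2, h3]
  have l5 : S .c1 ⊆ {u | lab u = 5} := by
    intro u hu
    have h1 := h.disj .c1 .a1 (by decide) u hu
    have h2 := h.disj .c1 .b (by decide) u hu
    have h3 := h.disj .c1 .a2 (by decide) u hu
    have h4 := h.disj .c1 .b2 (by decide) u hu
    show lab u = 5
    simp [lab, hu, h1, h2, h3, h4]
  have l6 : T ⊆ {u | lab u = 6} := by
    intro u hu
    have h1 := hT .a1 u hu
    have h2 := hT .b u hu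
    have h3 := hT .a2 u hu
    have h4 := hT .b2 u hu
    have h5 := hT .c1 u hu
    show lab u = 6
    simp [lab, hu, h1, h2, h3, h4, h5]
  exact ⟨v, e, c, lab, ⟨h.vC, h.eC, h.cC⟩, h.ve, h.vc, h.ec, l0 v h.nv hv, l0 e h.ne he, l0 c h.nc hc,
    Conn.mono l1 (h.conn .a1), Conn.mono l2 (h.conn .b), Conn.mono l3 (h.conn .a2),
    Conn.mono l4 (h.conn .b2), Conn.mono l5 (h.conn .c1), Conn.mono l6 hconn⟩

/-! ### Constructor -/

/-- five sets -/
def seg5 (A1 B A2 B2 C1 : Set V) : Seg → Set V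
  | .a1 => A1
  | .b => B
  | .a2 => A2
  | .b2 => B2
  | .c1 => C1

/-- The pieces of a subdivision, without repetition. -/
theorem mkK {C A1 B A2 B2 C1 : Set V} {v e c : V} (hv : v ∈ C) (he : e ∈ C) (hc : c ∈ C)
    (ve : v ≠ e) (vc : v ≠ c) (ec : e ≠ c)
    (hmem : ∀ i, ∀ y ∈ seg5 A1 B A2 B2 C1 i, y ∈ C ∧ y ≠ v ∧ y ≠ e ∧ y ≠ c)
    (hd : ∀ y, (y ∈ A1 → y ∉ B ∧ y ∉ A2 ∧ y ∉ B2 ∧ y ∉ C1) ∧ (y ∈ B → y ∉ A2 ∧ y ∉ B2 ∧ y ∉ C1) ∧
      (y ∈ A2 → y ∉ B2 ∧ y ∉ C1) ∧ (y ∈ B2 → y ∉ C1))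
    (k1 : Conn adj A1 v e) (k2 : Conn adj B e v) (k3 : Conn adj A2 v c) (k4 : Conn adj B2 e c)
    (k5 : Conn adj C1 c e) : IsK adj C v e c (seg5 A1 B A2 B2 C1) where
  vC := hv
  eC := he
  cC := hc
  ve := ve
  vc := vc
  ec := ec
  sub := fun i y hy => (hmem i y hy).1
  nv := fun i hy => (hmem i v hy).2.1 rfl
  ne := fun i hy => (hmem i e hy).2.2.1 rfl
  nc := fun i hy => (hmem i c hy).2.2.2 rfl
  disj := fun i j hij u h1 h2 => by
    obtain ⟨d1, d2, d3, d4⟩ := hd u
    cases i <;> cases j <;> simp only [seg5] at h1 h2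
    · exact hij rfl
    · exact (d1 h1).1 h2
    · exact (d1 h1).2.1 h2
    · exact (d1 h1).2.2.1 h2
    · exact (d1 h1).2.2.2 h2
    · exact (d1 h2).1 h1
    · exact hij rfl
    · exact (d2 h1).1 h2
    · exact (d2 h1).2.1 h2
    · exact (d2 h1).2.2 h2
    · exact (d1 h2).2.1 h1
    · exact (d2 h2).1 h1
    · exact hij rfl
    · exact (d3 h1).1 h2
    · exact (d3 h1).2 h2
    · exact (d1 h2).2.2.1 h1
    · exact (d2 h2).2.1 h1
    · exact (d3 h2).1 h1
    · exact hij rfl
    · exact d4 h1 h2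
    · exact (d1 h2).2.2.2 h1
    · exact (d2 h2).2.2 h1
    · exact (d3 h2).2 h1
    · exact d4 h2 h1
    · exact hij rfl
  conn := fun i => by
    cases i
    · exact k1
    · exact k2
    · exact k3
    · exact k4
    · exact k5

/-- All paths can be taken minimal. -/
theorem IsK.shrink [Finite V] {C : Set V} {v e c : V} {S : Seg → Set V} (h : IsK adj C v e c S) :
    ∃ S' : Seg → Set V, (∀ i, S' i ⊆ S i) ∧ IsK adj C v e c S' ∧
      ∀ i, MP adj (S' i) (src v e c i) (dst v e c i) := by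
  choose S' h1 h2 using fun i => exists_MP (h.conn i)
  refine ⟨S', h1, ⟨h.vC, h.eC, h.cC, h.ve, h.vc, h.ec, fun i => (h1 i).trans (h.sub i),
    fun i g => h.nv i (h1 i g), fun i g => h.ne i (h1 i g), fun i g => h.nc i (h1 i g),
    fun i j hij u g1 g2 => h.disj i j hij u (h1 i g1) (h1 j g2), fun i => (h2 i).1⟩, h2⟩

section main

variable [Fintype V] [DecidableEq V]

/-- Theorem E, with branch vertices different from `t`. -/
theorem thmE_off (t : V) (X : Finset V) (hX : X.Nonempty) (htX : t ∉ X)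
    (hdeg : ∀ x ∈ X, ∃ p ∈ X, ∃ q ∈ X, p ≠ q ∧ p ≠ x ∧ q ≠ x ∧ adj p x ∧ adj q x)
    (hto : ∀ x ∈ X, ReflTransGen adj t x)
    (hfrom : ∀ x ∈ X, ReflTransGen (fun a b => adj a b ∧ b ∉ X) x t) : K3off adj t := by
  classical
  obtain ⟨Q, hQX, hQne, hQcl, hQs⟩ := exists_source (adj := adj) X hX
  obtain ⟨q0, hq0⟩ := hQne
  have htQ : t ∉ (Q : Set V) := fun h => htX (hQX h)
  have huniv : ∀ {a b : V}, ReflTransGen adj a b → RR adj Set.univ a b := by
    intro a b h
    induction h with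
    | refl => exact ReflTransGen.refl
    | tail _ h ih => exact ih.tail ⟨trivial, trivial, h⟩
  obtain ⟨y, r, hty, _, hyQ, _, hr, hyr, _⟩ :
      ∃ y z, RR adj (Set.univ \ (Q : Set V)) t y ∧ y ∈ Set.univ ∧ y ∉ (Q : Set V) ∧
        z ∈ Set.univ ∧ z ∈ (Q : Set V) ∧ adj y z ∧ RR adj Set.univ z q0 := by
    rcases first_hit (B := (Q : Set V)) (huniv (hto q0 (hQX hq0))) htQ with h | h
    · exact absurd hq0 h.2
    · exact h
  have hrQ : r ∈ Q := hr
  have hF : F1 adj Q {r} := by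
    refine core Q.card Q {r} rfl (by simpa using hrQ) ⟨r, by simp⟩ hQs ?_ ?_
    · intro c hc _
      obtain ⟨p, hp, q, hq, h1, h2, h3, h4, h5⟩ := hdeg c (hQX hc)
      exact ⟨p, hQcl p hp c hc h4, q, hQcl q hq c hc h5, h1, h2, h3, h4, h5⟩
    · obtain ⟨p, hp, q, hq, h1, h2, h3, h4, h5⟩ := hdeg r (hQX hrQ)
      refine ⟨r, Q.erase r, hrQ, Finset.erase_subset _ _,
        ⟨p, Finset.mem_erase.2 ⟨h2, hQcl p hp r hrQ h4⟩⟩, Finset.notMem_erase _ _, ?_, ?_⟩
      · rw [Finset.disjoint_singleton_right]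
        exact Finset.notMem_erase _ _
      · intro u hu g _ _
        by_cases hur : u = r
        · exact Or.inr hur
        · exact Or.inl (Finset.mem_erase.2 ⟨hur, hu⟩)
  obtain ⟨v, e, c, lab, hv, he, hc, hve, hvc, hec, l1, l2, l3, hlab, c1, c2, c3, c4, c5, hroot⟩ := hF
  let lab' : V → ℕ := fun u => if u ∈ Q then lab u else 6
  have hin : ∀ i, i ≠ 0 → {u | lab u = i} ⊆ {u | lab' u = i} := by
    intro i hi u hu
    have hu' : lab u = i := hu
    have : u ∈ Q := hlab u (by rw [hu']; exact hi)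
    show lab' u = i
    simp only [lab', if_pos this]
    exact hu'
  have hout : ∀ u, u ∉ Q → u ∈ {u | lab' u = 6} := by
    intro u h2
    show lab' u = 6
    simp only [lab', if_neg h2]
  refine ⟨v, e, c, lab', ⟨?_, ?_, ?_⟩, hve, hvc, hec, ?_, ?_, ?_,
    Conn.mono (hin 1 (by norm_num)) c1, Conn.mono (hin 2 (by norm_num)) c2,
    Conn.mono (hin 3 (by norm_num)) c3, Conn.mono (hin 4 (by norm_num)) c4,
    Conn.mono (hin 5 (by norm_num)) c5, ?_⟩
  · rintro rfl
    exact htQ hv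
  · rintro rfl
    exact htQ he
  · rintro rfl
    exact htQ hc
  · simp [lab', hv, l1]
  · simp [lab', he, l2]
  · simp [lab', hc, l3]
  · -- the walk from `c` through `t` to `v`
    obtain ⟨c', hcc', hc't⟩ : ∃ c', (adj c c' ∧ c' ∉ X) ∧
        ReflTransGen (fun a b => adj a b ∧ b ∉ X) c' t := by
      rcases ReflTransGen.cases_head (hfrom c (hQX hc)) with h | h
      · exact absurd (h ▸ hQX hc) htX
      · exact h
    have hc'6 : c' ∈ {u | lab' u = 6} := hout c' (fun h => hcc'.2 (hQX h))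
    have w0 : ∀ w, ReflTransGen (fun a b => adj a b ∧ b ∉ X) c' w →
        RR adj {u | lab' u = 6} c' w ∧ w ∈ {u | lab' u = 6} := by
      intro w hw
      induction hw with
      | refl => exact ⟨ReflTransGen.refl, hc'6⟩
      | @tail a b _ hab ih =>
        have hb : b ∈ {u | lab' u = 6} := hout b (fun h => hab.2 (hQX h))
        exact ⟨ih.1.tail ⟨ih.2, hb, hab.1⟩, hb⟩
    have w1 := w0 t hc't
    have w2 : RR adj {u | lab' u = 6} t y := by
      refine RR.mono ?_ hty
      intro u hu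
      exact hout u hu.2
    have hy6 : y ∈ {u | lab' u = 6} := hout y hyQ
    rcases hroot with h | ⟨r', hr', hr'6, q, hq, h1, h2⟩
    · have : v = r := by simpa using h
      subst this
      exact Or.inr ⟨c', hc'6, y, hy6, hcc'.1, w1.1.trans w2, hyr⟩
    · have : r' = r := by simpa using hr'
      subst this
      exact Or.inr ⟨c', hc'6, q, hin 6 (by norm_num) hq, hcc'.1,
        ((w1.1.trans w2).tail ⟨hy6, hin 6 (by norm_num) hr'6, hyr⟩).trans
          (RR.mono (hin 6 (by norm_num)) h1), h2⟩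

end main

end Pool.Agent.H.MP_0cacf8
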