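import Pool.Agent.H.MP_0cacf8.EYA

/-!
# Moves of the tip and of the third vertex
-/

set_option autoImplicit false
set_option linter.unusedSimpArgs false

namespace Pool.Agent.H.MP_0cacf8

open Relation Finset Pool.Agent.H.MP_0d008e_co

variable {V : Type*} {adj : V → V → Prop}

namespace IsK

variable {C : Set V} {v e c : V} {S : Seg → Set V}

/-- the five paths are disjoint -/
theorem dfacts (h : IsK adj C v e c S) (y : V) :
    (y ∈ S .a1 → y ∉ S .b ∧ y ∉ S .a2 ∧ y ∉ S .b2 ∧ y ∉ S .c1) ∧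
    (y ∈ S .b → y ∉ S .a2 ∧ y ∉ S .b2 ∧ y ∉ S .c1) ∧
    (y ∈ S .a2 → y ∉ S .b2 ∧ y ∉ S .c1) ∧ (y ∈ S .b2 → y ∉ S .c1) :=
  ⟨fun g => ⟨h.disj _ _ (by decide) y g, h.disj _ _ (by decide) y g, h.disj _ _ (by decide) y g,
    h.disj _ _ (by decide) y g⟩, fun g => ⟨h.disj _ _ (by decide) y g, h.disj _ _ (by decide) y g,
    h.disj _ _ (by decide) y g⟩, fun g => ⟨h.disj _ _ (by decide) y g,
    h.disj _ _ (by decide) y g⟩, fun g => h.disj _ _ (by decide) y g⟩

/-- the third vertex moves to the path `a1` -/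
theorem third_a1 (h : IsK adj C v e c S) (hm : MP adj (S .a1) v e) {w : V} (hw : w ∈ S .a1)
    (hcw : adj c w) : ∃ S' : Seg → Set V, IsK adj C c e w S' := by
  obtain ⟨U, W, hU, hW, hUW, k1, k2⟩ := hm.split hw
  rw [Set.disjoint_left] at hUW
  obtain ⟨w1, w2, w3⟩ := h.ne_of_mem hw
  have hvC := h.vC
  have ve := h.ve
  have vc := h.vc
  have nv := h.nv
  refine ⟨_, mkK (A1 := S .c1) (B := S .b2) (A2 := ∅) (B2 := S .b ∪ (U ∪ {v})) (C1 := W)
    h.cC h.eC (h.sub _ hw) h.ec.symm w3.symm w2.symm ?_ ?_ (h.conn .c1) (h.conn .b2)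
    (Or.inl hcw) (Or.inr (Conn.join (h.conn .b) k1)) k2⟩
  · intro i y hy
    have f := h.dfacts y
    have g := fun i (g : y ∈ S i) => h.ne_of_mem g
    have g' := fun i (g : y ∈ S i) => h.sub i g
    have u := @hU y
    have u' := @hW y
    cases i <;> simp only [seg5, Set.mem_union, Set.mem_singleton_iff, Set.mem_sdiff,
      Set.mem_empty_iff_false] at hy u u' <;> grind (splits := 40)
  · intro y
    have f := h.dfacts y
    have u := @hU y
    have u' := @hW y
    have uw := @hUW y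
    simp only [Set.mem_union, Set.mem_singleton_iff, Set.mem_sdiff,
      Set.mem_empty_iff_false] at u u' ⊢
    grind (splits := 40)

/-- the third vertex moves to the path `b` -/
theorem third_b (h : IsK adj C v e c S) (hm : MP adj (S .b) e v) {w : V} (hw : w ∈ S .b)
    (hcw : adj c w) : ∃ S' : Seg → Set V, IsK adj C c e w S' := by
  obtain ⟨U, W, hU, hW, hUW, k1, k2⟩ := hm.split hw
  rw [Set.disjoint_left] at hUW
  obtain ⟨w1, w2, w3⟩ := h.ne_of_mem hw
  have hvC := h.vC
  have ve := h.ve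
  have vc := h.vc
  have nv := h.nv
  refine ⟨_, mkK (A1 := S .c1) (B := S .b2) (A2 := ∅) (B2 := U) (C1 := W ∪ (S .a1 ∪ {v}))
    h.cC h.eC (h.sub _ hw) h.ec.symm w3.symm w2.symm ?_ ?_ (h.conn .c1) (h.conn .b2)
    (Or.inl hcw) k1 (Or.inr (Conn.join k2 (h.conn .a1)))⟩
  · intro i y hy
    have f := h.dfacts y
    have g := fun i (g : y ∈ S i) => h.ne_of_mem g
    have g' := fun i (g : y ∈ S i) => h.sub i g
    have u := @hU y
    have u' := @hW y
    cases i <;> simp only [seg5, Set.mem_union, Set.mem_singleton_iff, Set.mem_sdiff,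
      Set.mem_empty_iff_false] at hy u u' <;> grind (splits := 40)
  · intro y
    have f := h.dfacts y
    have u := @hU y
    have u' := @hW y
    have uw := @hUW y
    simp only [Set.mem_union, Set.mem_singleton_iff, Set.mem_sdiff,
      Set.mem_empty_iff_false] at u u' ⊢
    grind (splits := 40)

/-- the third vertex moves to the path `a2` -/
theorem third_a2 (h : IsK adj C v e c S) (hm : MP adj (S .a2) v c) {w : V} (hw : w ∈ S .a2)
    (hcw : adj c w) : ∃ S' : Seg → Set V, IsK adj C e c w S' ∧ ∀ j, ∀ y ∈ S' j, y ∉ S .a1 := by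
  obtain ⟨U, W, hU, hW, hUW, k1, k2⟩ := hm.split hw
  rw [Set.disjoint_left] at hUW
  obtain ⟨w1, w2, w3⟩ := h.ne_of_mem hw
  have hvC := h.vC
  have ve := h.ve
  have vc := h.vc
  have nv := h.nv
  refine ⟨_, ⟨mkK (A1 := S .b2) (B := S .c1) (A2 := S .b ∪ (U ∪ {v})) (B2 := ∅) (C1 := W)
    h.eC h.cC (h.sub _ hw) h.ec w2.symm w3.symm ?_ ?_ (h.conn .b2) (h.conn .c1)
    (Or.inr (Conn.join (h.conn .b) k1)) (Or.inl hcw) k2, ?_⟩⟩
  · intro i y hy
    have f := h.dfacts y
    have g := fun i (g : y ∈ S i) => h.ne_of_mem g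
    have g' := fun i (g : y ∈ S i) => h.sub i g
    have u := @hU y
    have u' := @hW y
    cases i <;> simp only [seg5, Set.mem_union, Set.mem_singleton_iff, Set.mem_sdiff,
      Set.mem_empty_iff_false] at hy u u' <;> grind (splits := 40)
  · intro y
    have f := h.dfacts y
    have u := @hU y
    have u' := @hW y
    have uw := @hUW y
    simp only [Set.mem_union, Set.mem_singleton_iff, Set.mem_sdiff,
      Set.mem_empty_iff_false] at u u' ⊢
    grind (splits := 40)
  · intro j y hy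
    have f := h.dfacts y
    have u := @hU y
    have u' := @hW y
    cases j <;> simp only [seg5, Set.mem_union, Set.mem_singleton_iff, Set.mem_sdiff,
      Set.mem_empty_iff_false] at hy u u' <;> grind (splits := 40)

/-- the third vertex moves to the path `b2` -/
theorem third_b2 (h : IsK adj C v e c S) (hm : MP adj (S .b2) e c) {w : V} (hw : w ∈ S .b2)
    (hcw : adj c w) : ∃ S' : Seg → Set V, IsK adj C e c w S' ∧ ∀ j, ∀ y ∈ S' j, y ∉ S .a1 := by
  obtain ⟨U, W, hU, hW, hUW, k1, k2⟩ := hm.split hw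
  rw [Set.disjoint_left] at hUW
  obtain ⟨w1, w2, w3⟩ := h.ne_of_mem hw
  have hvC := h.vC
  have ve := h.ve
  have vc := h.vc
  have nv := h.nv
  refine ⟨_, ⟨mkK (A1 := S .b ∪ (S .a2 ∪ {v})) (B := S .c1) (A2 := U) (B2 := ∅) (C1 := W)
    h.eC h.cC (h.sub _ hw) h.ec w2.symm w3.symm ?_ ?_ (Or.inr (Conn.join (h.conn .b) (h.conn .a2))) (h.conn .c1)
    k1 (Or.inl hcw) k2, ?_⟩⟩
  · intro i y hy
    have f := h.dfacts y
    have g := fun i (g : y ∈ S i) => h.ne_of_mem g
    have g' := fun i (g : y ∈ S i) => h.sub i g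
    have u := @hU y
    have u' := @hW y
    cases i <;> simp only [seg5, Set.mem_union, Set.mem_singleton_iff, Set.mem_sdiff,
      Set.mem_empty_iff_false] at hy u u' <;> grind (splits := 40)
  · intro y
    have f := h.dfacts y
    have u := @hU y
    have u' := @hW y
    have uw := @hUW y
    simp only [Set.mem_union, Set.mem_singleton_iff, Set.mem_sdiff,
      Set.mem_empty_iff_false] at u u' ⊢
    grind (splits := 40)
  · intro j y hy
    have f := h.dfacts y
    have u := @hU y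
    have u' := @hW y
    cases j <;> simp only [seg5, Set.mem_union, Set.mem_singleton_iff, Set.mem_sdiff,
      Set.mem_empty_iff_false] at hy u u' <;> grind (splits := 40)

/-- the tip moves to the path `a1` -/
theorem tip_a1 (h : IsK adj C v e c S) (hm : MP adj (S .a1) v e) {x : V} (hx : x ∈ S .a1)
    {R : Set V} (hR : R ⊆ C) (nv : v ∉ R) (ne : e ∉ R) (nc : c ∉ R) (hRS : ∀ j, ∀ u ∈ R, u ∉ S j)
    (h3 : Conn adj R x v) : ∃ S' : Seg → Set V, IsK adj C x v e S' := by
  obtain ⟨U, W, hU, hW, hUW, k1, k2⟩ := hm.split hx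
  rw [Set.disjoint_left] at hUW
  obtain ⟨x1, x2, x3⟩ := h.ne_of_mem hx
  have hcC := h.cC
  have ec := h.ec
  have vc := h.vc
  have hnc := h.nc
  refine ⟨_, mkK (A1 := R) (B := U) (A2 := W) (B2 := S .a2 ∪ (S .c1 ∪ {c})) (C1 := S .b)
    (h.sub _ hx) h.vC h.eC x1 x2 h.ve ?_ ?_ h3 k1
    k2 (Or.inr (Conn.join (h.conn .a2) (h.conn .c1))) (h.conn .b)⟩
  · intro i y hy
    have f := h.dfacts y
    have g := fun i (g : y ∈ S i) => h.ne_of_mem g
    have g' := fun i (g : y ∈ S i) => h.sub i g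
    have r := @hR y
    have r' := fun j (g : y ∈ R) => hRS j y g
    have u := @hU y
    have u' := @hW y
    clear hU hW hUW hR hRS
    cases i <;> simp only [seg5, Set.mem_union, Set.mem_singleton_iff, Set.mem_sdiff,
      Set.mem_empty_iff_false] at hy u u' <;> grind (splits := 40)
  · intro y
    have f := h.dfacts y
    have r' := fun j (g : y ∈ R) => hRS j y g
    have u := @hU y
    have u' := @hW y
    have uw := @hUW y
    clear hU hW hUW hR hRS
    simp only [Set.mem_union, Set.mem_singleton_iff, Set.mem_sdiff,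
      Set.mem_empty_iff_false] at u u' ⊢
    grind (splits := 40)

/-- the tip moves to the path `a2` -/
theorem tip_a2 (h : IsK adj C v e c S) (hm : MP adj (S .a2) v c) {x : V} (hx : x ∈ S .a2)
    {R : Set V} (hR : R ⊆ C) (nv : v ∉ R) (ne : e ∉ R) (nc : c ∉ R) (hRS : ∀ j, ∀ u ∈ R, u ∉ S j)
    (h3 : Conn adj R x v) : ∃ S' : Seg → Set V, IsK adj C x v e S' := by
  obtain ⟨U, W, hU, hW, hUW, k1, k2⟩ := hm.split hx
  rw [Set.disjoint_left] at hUW
  obtain ⟨x1, x2, x3⟩ := h.ne_of_mem hx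
  have hcC := h.cC
  have ec := h.ec
  have vc := h.vc
  have hnc := h.nc
  refine ⟨_, mkK (A1 := R) (B := U) (A2 := W ∪ (S .c1 ∪ {c})) (B2 := S .a1) (C1 := S .b)
    (h.sub _ hx) h.vC h.eC x1 x2 h.ve ?_ ?_ h3 k1
    (Or.inr (Conn.join k2 (h.conn .c1))) (h.conn .a1) (h.conn .b)⟩
  · intro i y hy
    have f := h.dfacts y
    have g := fun i (g : y ∈ S i) => h.ne_of_mem g
    have g' := fun i (g : y ∈ S i) => h.sub i g
    have r := @hR y
    have r' := fun j (g : y ∈ R) => hRS j y g
    have u := @hU y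
    have u' := @hW y
    clear hU hW hUW hR hRS
    cases i <;> simp only [seg5, Set.mem_union, Set.mem_singleton_iff, Set.mem_sdiff,
      Set.mem_empty_iff_false] at hy u u' <;> grind (splits := 40)
  · intro y
    have f := h.dfacts y
    have r' := fun j (g : y ∈ R) => hRS j y g
    have u := @hU y
    have u' := @hW y
    have uw := @hUW y
    clear hU hW hUW hR hRS
    simp only [Set.mem_union, Set.mem_singleton_iff, Set.mem_sdiff,
      Set.mem_empty_iff_false] at u u' ⊢
    grind (splits := 40)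

/-- the tip moves to the path `b2` -/
theorem tip_b2 (h : IsK adj C v e c S) (hm : MP adj (S .b2) e c) {x : V} (hx : x ∈ S .b2)
    {R : Set V} (hR : R ⊆ C) (nv : v ∉ R) (ne : e ∉ R) (nc : c ∉ R) (hRS : ∀ j, ∀ u ∈ R, u ∉ S j)
    (h3 : Conn adj R x v) : ∃ S' : Seg → Set V, IsK adj C x e v S' := by
  obtain ⟨U, W, hU, hW, hUW, k1, k2⟩ := hm.split hx
  rw [Set.disjoint_left] at hUW
  obtain ⟨x1, x2, x3⟩ := h.ne_of_mem hx
  have hcC := h.cC
  have ec := h.ec
  have vc := h.vc
  have hnc := h.nc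
  refine ⟨_, mkK (A1 := W ∪ (S .c1 ∪ {c})) (B := U) (A2 := R) (B2 := S .b) (C1 := S .a1)
    (h.sub _ hx) h.eC h.vC x2 x1 h.ve.symm ?_ ?_ (Or.inr (Conn.join k2 (h.conn .c1))) k1
    h3 (h.conn .b) (h.conn .a1)⟩
  · intro i y hy
    have f := h.dfacts y
    have g := fun i (g : y ∈ S i) => h.ne_of_mem g
    have g' := fun i (g : y ∈ S i) => h.sub i g
    have r := @hR y
    have r' := fun j (g : y ∈ R) => hRS j y g
    have u := @hU y
    have u' := @hW y
    clear hU hW hUW hR hRS
    cases i <;> simp only [seg5, Set.mem_union, Set.mem_singleton_iff, Set.mem_sdiff,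
      Set.mem_empty_iff_false] at hy u u' <;> grind (splits := 40)
  · intro y
    have f := h.dfacts y
    have r' := fun j (g : y ∈ R) => hRS j y g
    have u := @hU y
    have u' := @hW y
    have uw := @hUW y
    clear hU hW hUW hR hRS
    simp only [Set.mem_union, Set.mem_singleton_iff, Set.mem_sdiff,
      Set.mem_empty_iff_false] at u u' ⊢
    grind (splits := 40)

/-- the tip moves to the path `c1` -/
theorem tip_c1 (h : IsK adj C v e c S) (hm : MP adj (S .c1) c e) {x : V} (hx : x ∈ S .c1)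
    {R : Set V} (hR : R ⊆ C) (nv : v ∉ R) (ne : e ∉ R) (nc : c ∉ R) (hRS : ∀ j, ∀ u ∈ R, u ∉ S j)
    (h3 : Conn adj R x v) : ∃ S' : Seg → Set V, IsK adj C x e v S' := by
  obtain ⟨U, W, hU, hW, hUW, k1, k2⟩ := hm.split hx
  rw [Set.disjoint_left] at hUW
  obtain ⟨x1, x2, x3⟩ := h.ne_of_mem hx
  have hcC := h.cC
  have ec := h.ec
  have vc := h.vc
  have hnc := h.nc
  refine ⟨_, mkK (A1 := W) (B := S .b2 ∪ (U ∪ {c})) (A2 := R) (B2 := S .b) (C1 := S .a1)
    (h.sub _ hx) h.eC h.vC x2 x1 h.ve.symm ?_ ?_ k2 (Or.inr (Conn.join (h.conn .b2) k1))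
    h3 (h.conn .b) (h.conn .a1)⟩
  · intro i y hy
    have f := h.dfacts y
    have g := fun i (g : y ∈ S i) => h.ne_of_mem g
    have g' := fun i (g : y ∈ S i) => h.sub i g
    have r := @hR y
    have r' := fun j (g : y ∈ R) => hRS j y g
    have u := @hU y
    have u' := @hW y
    clear hU hW hUW hR hRS
    cases i <;> simp only [seg5, Set.mem_union, Set.mem_singleton_iff, Set.mem_sdiff,
      Set.mem_empty_iff_false] at hy u u' <;> grind (splits := 40)
  · intro y
    have f := h.dfacts y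
    have r' := fun j (g : y ∈ R) => hRS j y g
    have u := @hU y
    have u' := @hW y
    have uw := @hUW y
    clear hU hW hUW hR hRS
    simp only [Set.mem_union, Set.mem_singleton_iff, Set.mem_sdiff,
      Set.mem_empty_iff_false] at u u' ⊢
    grind (splits := 40)

end IsK

end Pool.Agent.H.MP_0cacf8
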