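import Pool.Agent.H.MP_0cacf8.EYB

/-!
# No subdivision minus an arc whose center and third vertex are exits
-/

set_option autoImplicit false

namespace Pool.Agent.H.MP_0cacf8

open Relation Finset Pool.Agent.H.MP_0d008e_co

variable {V : Type*} {adj : V → V → Prop}

/-- The hypotheses, for a contradiction. -/
structure EY (adj : V → V → Prop) (h : V) : Prop where
  irr : ∀ u, ¬ adj u u
  ey : ∀ u, u ≠ h → adj u h ∨ adj h u
  str : ∀ x u w, u ≠ h → w ≠ h → u ≠ x → w ≠ x → RR adj (Ch h \ {x}) u w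
  big : ∀ x y, ∃ z, z ≠ h ∧ z ≠ x ∧ z ≠ y
  dout : ∀ u, u ≠ h → ¬ adj u h → ∀ x y, ∃ w, w ≠ h ∧ w ≠ x ∧ w ≠ y ∧ adj u w
  din : ∀ u, u ≠ h → ¬ adj h u → ∀ x y, ∃ w, w ≠ h ∧ w ≠ x ∧ w ≠ y ∧ adj w u
  ent : ∃ w, adj h w
  exi : ∃ w, adj w h
  no : ¬ K3off adj h

theorem RR_flip' {S : Set V} {a b : V} (h : RR adj S a b) : RR (fun x y => adj y x) S b a :=
  RR_flip (adj := fun x y => adj y x) h

theorem Conn_flip' {S : Set V} {a b : V} (h : Conn adj S a b) :
    Conn (fun x y => adj y x) S b a :=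
  Conn_flip (adj := fun x y => adj y x) h

theorem EY.flip {h : V} (hE : EY adj h) : EY (fun x y => adj y x) h where
  irr := hE.irr
  ey := fun u hu => (hE.ey u hu).symm
  str := fun x u w h1 h2 h3 h4 => RR_flip' (hE.str x w u h2 h1 h4 h3)
  big := hE.big
  dout := hE.din
  din := hE.dout
  ent := hE.exi
  exi := hE.ent
  no := fun g => hE.no (K3off_flip g)

namespace EY

variable {h : V}

theorem strong (hE : EY adj h) {u w : V} (hu : u ≠ h) (hw : w ≠ h) : RR adj (Ch h) u w := by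
  obtain ⟨z, h1, h2, h3⟩ := hE.big u w
  exact RR.mono Set.sdiff_subset (hE.str z u w hu hw h2.symm h3.symm)

theorem ne_of_exit (hE : EY adj h) {u : V} (hu : adj u h) : u ≠ h := by
  rintro rfl
  exact hE.irr u hu

theorem ne_of_entry (hE : EY adj h) {u : V} (hu : adj h u) : u ≠ h := by
  rintro rfl
  exact hE.irr u hu

theorem rtg_of_RR {S : Set V} {a b : V} (hr : RR adj S a b) : ReflTransGen adj a b := by
  induction hr with
  | refl => exact ReflTransGen.refl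
  | tail _ h ih => exact ih.tail h.2.2

/-- ranks of the exits -/
theorem ranks [Fintype V] [DecidableEq V] (hE : EY adj h) : ∃ r : V → ℕ, ∀ u w w', adj u h →
    adj w h → adj w' h → w ≠ w' → adj w u → adj w' u → r w < r u ∨ r w' < r u := by
  classical
  have key : ∀ n : ℕ, ∀ Y : Finset V, Y.card = n → (∀ y ∈ Y, adj y h) →
      ∃ r : V → ℕ, ∀ u ∈ Y, ∀ w ∈ Y, ∀ w' ∈ Y, w ≠ w' → adj w u → adj w' u →
        r w < r u ∨ r w' < r u := by
    intro n
    induction n with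
    | zero =>
      intro Y hY _
      rw [Finset.card_eq_zero] at hY
      subst hY
      exact ⟨fun _ => 0, fun u hu => absurd hu (notMem_empty u)⟩
    | succ n ih =>
      intro Y hY hex
      have hne : Y.Nonempty := by
        rw [← Finset.card_pos]
        omega
      have hbad : ∃ u ∈ Y, ∀ w ∈ Y, ∀ w' ∈ Y, w ≠ w' → adj w u → adj w' u → False := by
        by_contra hcon
        push Not at hcon
        apply hE.no
        refine thmE_off h Y hne (fun g => hE.irr h (hex h g)) ?_ ?_ ?_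
        · intro x hx
          obtain ⟨w, hw, w', hw', h1, h2, h3, _⟩ := hcon x hx
          refine ⟨w, hw, w', hw', h1, ?_, ?_, h2, h3⟩
          · rintro rfl
            exact hE.irr w h2
          · rintro rfl
            exact hE.irr w' h3
        · intro x hx
          obtain ⟨w, hw⟩ := hE.ent
          exact ReflTransGen.head hw (rtg_of_RR (hE.strong (hE.ne_of_entry hw)
            (hE.ne_of_exit (hex x hx))))
        · intro x hx
          exact ReflTransGen.single ⟨hex x hx, fun g => hE.irr h (hex h g)⟩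
      obtain ⟨u0, hu0, hb⟩ := hbad
      obtain ⟨r, hr⟩ := ih (Y.erase u0) (by rw [Finset.card_erase_of_mem hu0]; omega)
        (fun y hy => hex y (mem_of_mem_erase hy))
      refine ⟨fun y => if y = u0 then 0 else r y + 1, ?_⟩
      intro u hu w hw w' hw' hne' h1 h2
      by_cases huu : u = u0
      · subst huu
        exact (hb w hw w' hw' hne' h1 h2).elim
      · by_cases hwu : w = u0
        · left
          simp [hwu, huu]
        · by_cases hwu' : w' = u0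
          · right
            simp [hwu', huu]
          · rcases hr u (mem_erase.2 ⟨huu, hu⟩) w (mem_erase.2 ⟨hwu, hw⟩) w'
              (mem_erase.2 ⟨hwu', hw'⟩) hne' h1 h2 with g | g
            · left
              simp [huu, hwu, g]
            · right
              simp [huu, hwu', g]
  obtain ⟨r, hr⟩ := key _ ((univ : Finset V).filter (fun y => adj y h)) rfl
    (fun y hy => (mem_filter.1 hy).2)
  exact ⟨r, fun u w w' h1 h2 h3 h4 h5 h6 => hr u (mem_filter.2 ⟨mem_univ _, h1⟩) w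
    (mem_filter.2 ⟨mem_univ _, h2⟩) w' (mem_filter.2 ⟨mem_univ _, h3⟩) h4 h5 h6⟩

end EY

/-- arcs to vertices which are no entries and not in `M`, from non-exits or from lower ranks -/
def low (adj : V → V → Prop) (h : V) (r : V → ℕ) (M : Set V) (w u : V) : Prop :=
  adj w u ∧ ¬ adj h u ∧ u ∉ M ∧ (adj w h → r w < r u)

theorem low_rank {h : V} (hE : EY adj h) {r : V → ℕ} {M P : Set V} {z v : V} (hP : P ⊆ Ch h)
    (hc : Conn (low adj h r M) P z v) (hz : adj z h) : r z < r v := by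
  rcases hc with hc | ⟨p, hp, q, hq, h1, h2, h3⟩
  · exact hc.2.2.2 hz
  · have hex : ∀ y ∈ P, ¬ adj h y → adj y h := fun y hy g =>
      (hE.ey y (hP hy)).resolve_right g
    have key : ∀ y, RR (low adj h r M) P p y → adj y h ∧ r z < r y := by
      intro y hy
      induction hy with
      | refl => exact ⟨hex p hp h1.2.1, h1.2.2.2 hz⟩
      | @tail y w _ hyw ih =>
        exact ⟨hex w hyw.2.1 hyw.2.2.2.1, ih.2.trans (hyw.2.2.2.2.2 ih.1)⟩
    have := key q h2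
    exact this.2.trans (h3.2.2.2 this.1)

/-- One of two disjoint paths from `E` to `v`. -/
structure FP (L : V → V → Prop) (E M T : Set V) (r v : V) : Prop where
  rE : r ∈ E
  rT : r ∈ T
  vT : v ∉ T
  wk : ∀ p ∈ T, RR L T r p ∧ ∃ q ∈ T, RR L T p q ∧ L q v

namespace FP

variable {L : V → V → Prop} {E M T : Set V} {r v : V}

theorem conn (hf : FP L E M T r v) : Conn L (T \ {r}) r v := by
  obtain ⟨_, q, hq, h1, h2⟩ := hf.wk r hf.rT
  have h3 : RR L (T ∪ {v}) r v :=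
    (RR.mono Set.subset_union_left h1).tail ⟨Or.inl hq, Or.inr rfl, h2⟩
  have hrv : r ≠ v := by
    rintro rfl
    exact hf.vT hf.rT
  refine Conn.mono ?_ (conn_of_RR h3 hrv)
  rintro y ⟨⟨hy | hy, h4⟩, h5⟩
  · exact ⟨hy, h4⟩
  · exact absurd hy h5

theorem nM (hf : FP L E M T r v) (hL : ∀ u w, L u w → w ∉ M) {y : V} (hy : y ∈ T) (hyr : y ≠ r) :
    y ∉ M := by
  rcases ReflTransGen.cases_tail (hf.wk y hy).1 with g | ⟨w, _, g⟩
  · exact absurd g hyr
  · exact hL _ _ g.2.2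

theorem tail (hf : FP L E M T r v) (hL : ∀ u w, L u w → w ∉ M) {y : V} (hy : y ∈ T)
    (hyM : y ∉ M) : ∃ q ∈ T \ M, RR L (T \ M) y q ∧ L q v := by
  obtain ⟨_, q, hq, h1, h2⟩ := hf.wk y hy
  have key : ∀ w, RR L T y w → RR L (T \ M) y w ∧ w ∉ M := by
    intro w hw
    induction hw with
    | refl => exact ⟨ReflTransGen.refl, hyM⟩
    | @tail a b _ hab ih =>
      have hb := hL _ _ hab.2.2
      exact ⟨ih.1.tail ⟨⟨hab.1, ih.2⟩, ⟨hab.2.1, hb⟩, hab.2.2⟩, hb⟩
  exact ⟨q, ⟨hq, (key q h1).2⟩, (key q h1).1, h2⟩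

end FP

/-- The result of the exchange. -/
def Exch (adj L : V → V → Prop) (E M B T0 T1 : Set V) (e v : V) : Prop :=
  ∃ (B' P : Set V) (z : V), z ∈ E ∧ z ≠ e ∧ z ≠ v ∧ z ∉ B' ∧ z ∉ P ∧ Conn adj B' e v ∧ Conn L P z v ∧
    (∀ y ∈ B', (y ∈ B ∨ y ∈ T0 ∨ y ∈ T1) ∧ y ∉ M) ∧
    (∀ y ∈ P, (y ∈ T0 ∨ y ∈ T1) ∧ y ∉ M ∧ y ∉ B')

theorem Exch.symm {L : V → V → Prop} {E M B T0 T1 : Set V} {e v : V}
    (hx : Exch adj L E M B T0 T1 e v) : Exch adj L E M B T1 T0 e v := by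
  obtain ⟨B', P, z, h1, h2, h3, h4, h5, h6, h7, h8, h9⟩ := hx
  exact ⟨B', P, z, h1, h2, h3, h4, h5, h6, h7, fun y hy => ⟨(h8 y hy).1.imp id Or.symm, (h8 y hy).2⟩,
    fun y hy => ⟨(h9 y hy).1.symm, (h9 y hy).2⟩⟩

theorem exch1 {L : V → V → Prop} {E M B T0 T1 : Set V} {e v r0 r1 : V}
    (hL : ∀ u w, L u w → w ∉ M) (hL' : ∀ u w, L u w → adj u w)
    (f0 : FP L E M T0 r0 v) (f1 : FP L E M T1 r1 v) (hd : Disjoint T0 T1) (heM : e ∈ M)
    (hBM : ∀ y ∈ B, y ∉ M)
    (hc : e ∈ T0 ∨ (e ∉ T1 ∧ ∃ z ∈ T0, z ∈ B ∧ Conn adj (B \ (T0 ∪ T1)) e z)) :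
    Exch adj L E M B T0 T1 e v := by
  rw [Set.disjoint_left] at hd
  have hr1v : r1 ≠ v := by
    rintro rfl
    exact f1.vT f1.rT
  rcases hc with hc | ⟨hc, z, hz, hzB, hz2⟩
  · have her : e = r0 := by
      by_contra g
      exact f0.nM hL hc g heM
    subst her
    refine ⟨T0 \ {e}, T1 \ {r1}, r1, f1.rE, ?_, hr1v, ?_, fun g => g.2 rfl, ?_, f1.conn, ?_, ?_⟩
    · rintro rfl
      exact hd hc f1.rT
    · exact fun g => hd g.1 f1.rT
    · exact Conn.congr (fun u w _ _ g => hL' u w g) f0.conn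
    · exact fun y hy => ⟨Or.inr (Or.inl hy.1), f0.nM hL hy.1 hy.2⟩
    · exact fun y hy => ⟨Or.inr hy.1, f1.nM hL hy.1 hy.2, fun g => hd g.1 hy.1⟩
  · obtain ⟨q, hq, h1, h2⟩ := f0.tail hL hz (hBM z hzB)
    refine ⟨(B \ (T0 ∪ T1)) ∪ (T0 \ M), T1 \ {r1}, r1, f1.rE, ?_, hr1v, ?_, fun g => g.2 rfl, ?_,
      f1.conn, ?_, ?_⟩
    · rintro rfl
      exact hc f1.rT
    · rintro (g | g)
      · exact g.2 (Or.inr f1.rT)
      · exact hd g.1 f1.rT
    · exact Or.inr (Conn.glue hz2 ⟨hz, hBM z hzB⟩ hq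
        (RR.congr (fun u _ w _ g => hL' u w g) h1) (hL' _ _ h2))
    · rintro y (hy | hy)
      · exact ⟨Or.inl hy.1, hBM y hy.1⟩
      · exact ⟨Or.inr (Or.inl hy.1), hy.2⟩
    · intro y hy
      refine ⟨Or.inr hy.1, f1.nM hL hy.1 hy.2, ?_⟩
      rintro (g | g)
      · exact g.2 (Or.inr hy.1)
      · exact hd g.1 hy.1

theorem exch {L : V → V → Prop} {E M B T0 T1 : Set V} {e v r0 r1 : V}
    (hL : ∀ u w, L u w → w ∉ M) (hL' : ∀ u w, L u w → adj u w)
    (f0 : FP L E M T0 r0 v) (f1 : FP L E M T1 r1 v) (hd : Disjoint T0 T1) (heM : e ∈ M)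
    (hBM : ∀ y ∈ B, y ∉ M) (hB : Conn adj B e v) : Exch adj L E M B T0 T1 e v := by
  by_cases h0 : e ∈ T0
  · exact exch1 hL hL' f0 f1 hd heM hBM (Or.inl h0)
  by_cases h1 : e ∈ T1
  · exact (exch1 hL hL' f1 f0 hd.symm heM hBM (Or.inl h1)).symm
  rcases hit_conn (P := T0 ∪ T1) hB with hB' | ⟨z, hz, hzB, hz2⟩
  · have hr0v : r0 ≠ v := by
      rintro rfl
      exact f0.vT f0.rT
    refine ⟨B \ (T0 ∪ T1), T0 \ {r0}, r0, f0.rE, ?_, hr0v, ?_, fun g => g.2 rfl, hB', f0.conn, ?_,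
      ?_⟩
    · rintro rfl
      exact h0 f0.rT
    · exact fun g => g.2 (Or.inl f0.rT)
    · exact fun y hy => ⟨Or.inl hy.1, hBM y hy.1⟩
    · exact fun y hy => ⟨Or.inl hy.1, f0.nM hL hy.1 hy.2, fun g => g.2 (Or.inl hy.1)⟩
  · rcases hz with hz | hz
    · exact exch1 hL hL' f0 f1 hd heM hBM (Or.inr ⟨h1, z, hz, hzB, hz2⟩)
    · refine (exch1 hL hL' f1 f0 hd.symm heM hBM (Or.inr ⟨h0, z, hz, hzB, ?_⟩)).symm
      rw [Set.union_comm]
      exact hz2

end Pool.Agent.H.MP_0cacf8
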