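import Pool.Agent.H.MP_0cacf8.EYC

/-!
# No subdivision minus an arc whose center and third vertex are exits (proof)
-/

set_option autoImplicit false

namespace Pool.Agent.H.MP_0cacf8

open Relation Finset Pool.Agent.H.MP_0d008e_co

variable {V : Type*} {adj : V → V → Prop}

theorem step_two {h c z : V} (h1 : adj c h) (h2 : adj h z) : Conn adj {h} c z :=
  Or.inr ⟨h, rfl, h, rfl, h1, ReflTransGen.refl, h2⟩

/-- An exit as third vertex and an entry as tip. -/
theorem EY.no_te {h : V} (hE : EY adj h) {v e c : V} {S : Seg → Set V}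
    (hk : IsK adj (Ch h) v e c S) (h1 : adj c h) (h2 : adj h v) : False := by
  refine hE.no (K3_of (T := {h}) hk ?_ ?_ ?_ ?_ (step_two h1 h2))
  · exact fun g => hk.vC g
  · exact fun g => hk.eC g
  · exact fun g => hk.cC g
  · intro i u hu g
    have hu' : u = h := hu
    exact hk.sub i g hu'

section fin

variable [Fintype V] [DecidableEq V]

theorem fan_low {h : V} (hE : EY adj h) {r : V → ℕ}
    (hr : ∀ u w w', adj u h → adj w h → adj w' h → w ≠ w' → adj w u → adj w' u →
      r w < r u ∨ r w' < r u) {M : Set V} (hM : M ⊆ Ch h) (hne : M.Nonempty) {v : V}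
    (hvh : v ≠ h) (hv : ¬ adj h v) (hvM : v ∉ M) :
    ∃ (T0 T1 : Set V) (r0 r1 : V), Disjoint T0 T1 ∧ T0 ⊆ Ch h ∧ T1 ⊆ Ch h ∧
      FP (low adj h r M) {y | y ≠ h ∧ (y ∈ M ∨ adj h y)} M T0 r0 v ∧
      FP (low adj h r M) {y | y ≠ h ∧ (y ∈ M ∨ adj h y)} M T1 r1 v := by
  classical
  set E : Finset V := univ.filter (fun y => y ≠ h ∧ (y ∈ M ∨ adj h y)) with hEdef
  have mE : ∀ y, y ∈ E ↔ y ≠ h ∧ (y ∈ M ∨ adj h y) := by
    intro y
    rw [hEdef, mem_filter]
    exact ⟨fun g => g.2, fun g => ⟨mem_univ _, g⟩⟩
  have hcoe : (((univ : Finset V).erase h : Finset V) : Set V) = Ch h := by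
    ext y
    simp
  have hvE : v ∉ E := by
    rw [mE]
    rintro ⟨_, g | g⟩
    · exact hvM g
    · exact hv g
  obtain ⟨m, hm⟩ := hne
  have key : ∀ s : V, ∀ n : ℕ, ∀ u, u ≠ h → u ≠ s → r u = n →
      ∃ r0 ∈ E, r0 ≠ s ∧ RR (low adj h r M) (Ch h \ {s}) r0 u := by
    intro s n
    induction n using Nat.strong_induction_on with
    | _ n ih =>
      intro u hu hus hn
      by_cases huE : u ∈ E
      · exact ⟨u, huE, hus, ReflTransGen.refl⟩
      · have hu' : u ∉ M ∧ ¬ adj h u := by
          rw [mE] at huE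
          exact ⟨fun g => huE ⟨hu, Or.inl g⟩, fun g => huE ⟨hu, Or.inr g⟩⟩
        have hue : adj u h := (hE.ey u hu).resolve_right hu'.2
        obtain ⟨w, hwh, hws, hwl⟩ : ∃ w, w ≠ h ∧ w ≠ s ∧ low adj h r M w u := by
          obtain ⟨w1, a1, a2, _, a4⟩ := hE.din u hu hu'.2 s s
          by_cases g1 : adj w1 h → r w1 < r u
          · exact ⟨w1, a1, a2, a4, hu'.2, hu'.1, g1⟩
          · push Not at g1
            obtain ⟨w2, b1, b2, b3, b4⟩ := hE.din u hu hu'.2 s w1
            refine ⟨w2, b1, b2, b4, hu'.2, hu'.1, ?_⟩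
            intro g2
            rcases hr u w1 w2 hue g1.1 g2 b3.symm a4 b4 with g3 | g3
            · exact absurd g3 (by omega)
            · exact g3
        have harc : Induced (low adj h r M) (Ch h \ {s}) w u := ⟨⟨hwh, hws⟩, ⟨hu, hus⟩, hwl⟩
        by_cases hwE : w ∈ E
        · exact ⟨w, hwE, hws, ReflTransGen.single harc⟩
        · have hwx : adj w h := by
            rw [mE] at hwE
            exact (hE.ey w hwh).resolve_right (fun g => hwE ⟨hwh, Or.inr g⟩)
          obtain ⟨r0, c1, c2, c3⟩ := ih (r w) (hn ▸ hwl.2.2.2 hwx) w hwh hws rfl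
          exact ⟨r0, c1, c2, c3.tail harc⟩
  obtain ⟨T, r', hd, hT⟩ := fan (adj := low adj h r M) (univ.erase h) E v
    (fun y hy => mem_erase.2 ⟨((mE y).1 hy).1, mem_univ _⟩) hvE ⟨m, (mE m).2 ⟨hM hm, Or.inl hm⟩⟩
    (by
      intro s hs
      rw [hcoe]
      exact key s _ v hvh hs.symm rfl)
  rw [hcoe] at hT
  refine ⟨T 0, T 1, r' 0, r' 1, hd, fun y hy => ((hT 0).1 hy).1, fun y hy => ((hT 1).1 hy).1,
    ⟨(mE _).1 (hT 0).2.1, (hT 0).2.2.1, fun g => ((hT 0).1 g).2 rfl, (hT 0).2.2.2⟩,
    ⟨(mE _).1 (hT 1).2.1, (hT 1).2.2.1, fun g => ((hT 1).1 g).2 rfl, (hT 1).2.2.2⟩⟩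

/-- No subdivision minus an arc has exits as center and third vertex. -/
theorem EY.no_ct {h : V} (hE : EY adj h) : ∀ {v e c : V} {S : Seg → Set V},
    IsK adj (Ch h) v e c S → adj e h → adj c h → False := by
  classical
  obtain ⟨r, hr⟩ := hE.ranks
  have main : ∀ n : ℕ, ∀ v e c : V, ∀ S : Seg → Set V, IsK adj (Ch h) v e c S → adj e h →
      adj c h → r v = n → False := by
    intro n
    induction n using Nat.strong_induction_on with
    | _ n ih =>
      intro v e c S0 hk0 he hc hn
      obtain ⟨S, _, hk, hmp⟩ := hk0.shrink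
      have hvh : v ≠ h := hk.vC
      have hv : ¬ adj h v := fun g => hE.no_te hk hc g
      set M : Set V := {y | y = e ∨ y = c ∨ ∃ i, i ≠ Seg.b ∧ y ∈ S i} with hM
      have mM : ∀ y, y ∈ M ↔ (y = e ∨ y = c ∨ ∃ i, i ≠ Seg.b ∧ y ∈ S i) := fun y => Iff.rfl
      have hMC : M ⊆ Ch h := by
        rintro y (g | g | ⟨i, _, g⟩)
        · rw [g]
          exact hk.eC
        · rw [g]
          exact hk.cC
        · exact hk.sub i g
      have heM : e ∈ M := Or.inl rfl
      have hcM : c ∈ M := Or.inr (Or.inl rfl)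
      have hvM : v ∉ M := by
        rintro (g | g | ⟨i, _, g⟩)
        · exact hk.ve g
        · exact hk.vc g
        · exact hk.nv i g
      obtain ⟨T0, T1, r0, r1, hd, hT0, hT1, f0, f1⟩ := fan_low hE hr hMC ⟨e, heM⟩ hvh hv hvM
      have hL : ∀ u w, low adj h r M u w → w ∉ M := fun u w g => g.2.2.1
      have hBM : ∀ y ∈ S .b, y ∉ M := by
        rintro y hy (g | g | ⟨i, hi, g⟩)
        · rw [g] at hy
          exact hk.ne _ hy
        · rw [g] at hy
          exact hk.nc _ hy
        · exact hk.disj i .b hi y g hy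
      obtain ⟨B', P, z, z1, z2, z3, z4, z5, z6, z7, z8, z9⟩ :=
        exch hL (fun u w g => g.1) f0 f1 hd heM hBM (hk.conn .b)
      have hB'C : B' ⊆ Ch h := by
        intro y hy
        rcases (z8 y hy).1 with g | g | g
        · exact hk.sub _ g
        · exact hT0 g
        · exact hT1 g
      have hPC : P ⊆ Ch h := by
        intro y hy
        rcases (z9 y hy).1 with g | g
        · exact hT0 g
        · exact hT1 g
      have hvP : v ∉ P := by
        intro g
        rcases (z9 v g).1 with g | g
        · exact f0.vT g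
        · exact f1.vT g
      have hvB' : v ∉ B' := by
        intro g
        rcases (z8 v g).1 with g | g | g
        · exact hk.nv _ g
        · exact f0.vT g
        · exact f1.vT g
      have heP : e ∉ P := fun g => (z9 e g).2.1 heM
      have hcP : c ∉ P := fun g => (z9 c g).2.1 hcM
      have hk2 := hk.repl .b hk.vC hk.eC hk.cC hB'C (fun j _ => hk.sub j) hvB'
        (fun g => (z8 e g).2 heM) (fun g => (z8 c g).2 hcM)
        (fun j hj u hu g => (z8 u hu).2 (Or.inr (Or.inr ⟨j, hj, g⟩))) z6 (fun j _ => hk.conn j)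
      set S2 : Seg → Set V := fun j => if j = Seg.b then B' else S j with hS2
      have s2 : ∀ j, j ≠ Seg.b → S2 j = S j := fun j hj => by simp only [hS2, if_neg hj]
      have s2b : S2 .b = B' := by simp only [hS2, if_true]
      have hPS : ∀ j, ∀ u ∈ P, u ∉ S2 j := by
        intro j u hu g
        by_cases hj : j = Seg.b
        · rw [hj, s2b] at g
          exact (z9 u hu).2.2 g
        · rw [s2 j hj] at g
          exact (z9 u hu).2.1 (Or.inr (Or.inr ⟨j, hj, g⟩))
      have hPa : Conn adj P z v := Conn.congr (fun u w _ _ g => g.1) z7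
      have fin : ∀ {e' c' : V} {S' : Seg → Set V}, IsK adj (Ch h) z e' c' S' → adj e' h →
          adj c' h → False := by
        intro e' c' S' hk' he' hc'
        have hz : ¬ adj h z := fun g => hE.no_te hk' hc' g
        have hz' : adj z h := (hE.ey z z1.1).resolve_right hz
        have hlt := low_rank hE hPC z7 hz'
        exact ih (r z) (hn ▸ hlt) z e' c' S' hk' he' hc' rfl
      have hvx : adj v h := (hE.ey v hvh).resolve_right hv
      by_cases hzM : z ∈ M
      · rcases hzM with g | g | ⟨i, hi, g⟩
        · exact z2 g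
        · rw [g] at hPa
          exact hE.no (K3_of hk2 hvP heP hcP hPS hPa)
        · have g2 : z ∈ S2 i := by
            rw [s2 i hi]
            exact g
          have hmp2 : MP adj (S2 i) (src v e c i) (dst v e c i) := by
            rw [s2 i hi]
            exact hmp i
          cases i with
          | b => exact hi rfl
          | a1 =>
            obtain ⟨S', hk'⟩ := hk2.tip_a1 hmp2 g2 hPC hvP heP hcP hPS hPa
            exact fin hk' hvx he
          | a2 =>
            obtain ⟨S', hk'⟩ := hk2.tip_a2 hmp2 g2 hPC hvP heP hcP hPS hPa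
            exact fin hk' hvx he
          | b2 =>
            obtain ⟨S', hk'⟩ := hk2.tip_b2 hmp2 g2 hPC hvP heP hcP hPS hPa
            exact fin hk' he hvx
          | c1 =>
            obtain ⟨S', hk'⟩ := hk2.tip_c1 hmp2 g2 hPC hvP heP hcP hPS hPa
            exact fin hk' he hvx
      · have hz : adj h z := z1.2.resolve_left hzM
        have hzc : z ≠ c := by
          rintro rfl
          exact hzM hcM
        have hconn : Conn adj ({h} ∪ (P ∪ {z})) c v := Or.inr (Conn.join (step_two hc hz) hPa)
        refine hE.no (K3_of hk2 ?_ ?_ ?_ ?_ hconn)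
        · rintro (g | g | g)
          · exact hk.vC g
          · exact hvP g
          · exact z3 g.symm
        · rintro (g | g | g)
          · exact hk.eC g
          · exact heP g
          · exact z2 g.symm
        · rintro (g | g | g)
          · exact hk.cC g
          · exact hcP g
          · exact hzc g.symm
        · rintro i u (g | g | g) g'
          · have hu : u = h := g
            exact hk2.sub i g' hu
          · exact hPS i u g g'
          · have hu : u = z := g
            rw [hu] at g'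
            by_cases hi : i = Seg.b
            · rw [hi, s2b] at g'
              exact z4 g'
            · rw [s2 i hi] at g'
              exact hzM (Or.inr (Or.inr ⟨i, hi, g'⟩))
  intro v e c S hk he hc
  exact main _ v e c S hk he hc rfl

/-- No subdivision minus an arc has entries as center and tip. -/
theorem EY.no_ct' {h : V} (hE : EY adj h) {v e c : V} {S : Seg → Set V}
    (hk : IsK adj (Ch h) v e c S) (he : adj h e) (hv : adj h v) : False :=
  hE.flip.no_ct hk.flip he hv

end fin

end Pool.Agent.H.MP_0cacf8
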