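import Pool.Agent.H.MP_0cacf8.EYD

/-!
# Every arc is a path of a subdivision minus an arc
-/

set_option autoImplicit false

namespace Pool.Agent.H.MP_0cacf8

open Relation Finset Pool.Agent.H.MP_0d008e_co

variable {V : Type*} {adj : V → V → Prop}

theorem hd_head {S : Set V} {a w : V} (h : Head adj S a w) :
    Head adj (S ∩ {y | Head adj S a y}) a w := by
  rcases h with h | ⟨hw, p, hp, h1, h2⟩
  · exact Or.inl h
  · exact Or.inr ⟨⟨hw, Or.inr ⟨hw, p, hp, h1, h2⟩⟩, p, ⟨hp, Or.inr ⟨hp, p, hp, h1,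
      ReflTransGen.refl⟩⟩, h1, RR.restrict h2 (fun y hy g1 _ => Or.inr ⟨hy, p, hp, h1, g1⟩)⟩

theorem hd_conn {S : Set V} {a b : V} (h : Conn adj S a b) :
    Conn adj (S ∩ {y | Head adj S a y}) a b :=
  Conn.restrict h (fun _ _ g _ => g)

/-- One of the ends of two disjoint paths can be kept. -/
theorem exch2 {A0 A1 P Z : Set V} {w u z0 z1 : V} (hd : Disjoint A0 A1) (hz0 : z0 ∈ Z)
    (hz1 : z1 ∈ Z) (hz : z0 ≠ z1) (c0 : Conn adj A0 w z0) (c1 : Conn adj A1 w z1)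
    (h0 : ∀ y ∈ A0, Head adj A0 w y) (h1 : ∀ y ∈ A1, Head adj A1 w y) (hP : Conn adj P w u) :
    ∃ (B0 B1 : Set V) (s : V), Disjoint B0 B1 ∧ Conn adj B0 w u ∧ Conn adj B1 w s ∧ s ∈ Z ∧
      s ≠ u ∧ B0 ⊆ (A0 ∪ A1) ∪ P ∧ B1 ⊆ (A0 ∪ A1) ∪ P := by
  rw [Set.disjoint_left] at hd
  have s0 : A0 ⊆ (A0 ∪ A1) ∪ P := fun y hy => Or.inl (Or.inl hy)
  have s1 : A1 ⊆ (A0 ∪ A1) ∪ P := fun y hy => Or.inl (Or.inr hy)
  have sP : P \ (A0 ∪ A1) ⊆ (A0 ∪ A1) ∪ P := fun y hy => Or.inr hy.1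
  by_cases g0 : z0 = u
  · subst g0
    exact ⟨A0, A1, z1, Set.disjoint_left.2 hd, c0, c1, hz1, hz.symm, s0, s1⟩
  by_cases g1 : z1 = u
  · subst g1
    exact ⟨A1, A0, z0, (Set.disjoint_left.2 hd).symm, c1, c0, hz0, hz, s1, s0⟩
  rcases hit_conn (P := A0 ∪ A1) (Conn_flip' hP) with k | ⟨y, hy, hyP, k⟩
  · have k' := Conn_flip k
    refine ⟨P \ (A0 ∪ A1), A1, z1, ?_, k', c1, hz1, g1, sP, s1⟩
    rw [Set.disjoint_left]
    exact fun y hy g => hy.2 (Or.inr g)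
  · have k' := Conn_flip k
    obtain ⟨w1, k1, k2⟩ := k'.first
    rcases hy with hy | hy
    · refine ⟨A0 ∪ (P \ (A0 ∪ A1)), A1, z1, ?_, bypass (h0 y hy) k1 k2, c1, hz1, g1,
        Set.union_subset s0 sP, s1⟩
      rw [Set.disjoint_left]
      rintro x (hx | hx) g
      · exact hd hx g
      · exact hx.2 (Or.inr g)
    · refine ⟨A1 ∪ (P \ (A0 ∪ A1)), A0, z0, ?_, bypass (h1 y hy) k1 k2, c0, hz0, g0,
        Set.union_subset s1 sP, s0⟩
      rw [Set.disjoint_left]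
      rintro x (hx | hx) g
      · exact hd g hx
      · exact hx.2 (Or.inl g)

theorem EY.out2 {h : V} (hE : EY adj h) {u : V} (hu : u ≠ h) (x : V) :
    ∃ w, w ≠ h ∧ w ≠ x ∧ adj u w := by
  obtain ⟨y, h1, h2, h3⟩ := hE.big u x
  by_cases hx : u = x
  · subst hx
    rcases ReflTransGen.cases_head (hE.strong hu h1) with g | ⟨w, g, _⟩
    · exact absurd g.symm h2
    · refine ⟨w, g.2.1, ?_, g.2.2⟩
      rintro rfl
      exact hE.irr w g.2.2
  · rcases ReflTransGen.cases_head (hE.str x u y hu h1 hx h3) with g | ⟨w, g, _⟩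
    · exact absurd g.symm h2
    · exact ⟨w, g.2.1.1, g.2.1.2, g.2.2⟩

section fin

variable [Fintype V] [DecidableEq V]

/-- Two disjoint paths from `w` and `w'` to `u`. -/
theorem EY.two_in {h : V} (hE : EY adj h) {u w w' : V} (hu : u ≠ h) (hw : w ≠ h) (hw' : w' ≠ h)
    (hww : w ≠ w') (hwu : w ≠ u) (hwu' : w' ≠ u) :
    ∃ P Q : Set V, Disjoint P Q ∧ P ⊆ Ch h \ {u} ∧ Q ⊆ Ch h \ {u} ∧ w ∈ P ∧ w' ∈ Q ∧
      (∃ q ∈ P, RR adj P w q ∧ adj q u) ∧ (∃ q ∈ Q, RR adj Q w' q ∧ adj q u) := by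
  classical
  have hcoe : (((univ : Finset V).erase h : Finset V) : Set V) = Ch h := by
    ext y
    simp
  obtain ⟨T, r, hd, hT⟩ := fan (adj := adj) (univ.erase h) {w, w'} u
    (by
      intro y hy
      rw [mem_insert, mem_singleton] at hy
      rcases hy with rfl | rfl
      · exact mem_erase.2 ⟨hw, mem_univ _⟩
      · exact mem_erase.2 ⟨hw', mem_univ _⟩)
    (by
      rw [mem_insert, mem_singleton]
      rintro (g | g)
      · exact hwu g.symm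
      · exact hwu' g.symm)
    ⟨w, mem_insert_self _ _⟩
    (by
      intro s hs
      rw [hcoe]
      by_cases hws : w = s
      · subst hws
        exact ⟨w', mem_insert_of_mem (mem_singleton_self _), hww.symm,
          hE.str w w' u hw' hu hww.symm hwu.symm⟩
      · exact ⟨w, mem_insert_self _ _, hws, hE.str s w u hw hu hws hs.symm⟩)
  rw [hcoe] at hT
  rw [Set.disjoint_left] at hd
  have h0 : r 0 = w ∨ r 0 = w' := by
    have := (hT 0).2.1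
    rw [mem_insert, mem_singleton] at this
    exact this
  have h1 : r 1 = w ∨ r 1 = w' := by
    have := (hT 1).2.1
    rw [mem_insert, mem_singleton] at this
    exact this
  have hne : r 0 ≠ r 1 := by
    intro g
    have := (hT 1).2.2.1
    rw [← g] at this
    exact hd (hT 0).2.2.1 this
  have w0 : ∀ i, ∃ q ∈ T i, RR adj (T i) (r i) q ∧ adj q u := fun i =>
    ((hT i).2.2.2 (r i) (hT i).2.2.1).2
  rcases h0 with h0 | h0
  · have h1' : r 1 = w' := h1.resolve_left (fun g => hne (h0.trans g.symm))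
    refine ⟨T 0, T 1, Set.disjoint_left.2 hd, (hT 0).1, (hT 1).1, h0 ▸ (hT 0).2.2.1,
      h1' ▸ (hT 1).2.2.1, h0 ▸ w0 0, h1' ▸ w0 1⟩
  · have h1' : r 1 = w := h1.resolve_right (fun g => hne (h0.trans g.symm))
    refine ⟨T 1, T 0, (Set.disjoint_left.2 hd).symm, (hT 1).1, (hT 0).1, h1' ▸ (hT 1).2.2.1,
      h0 ▸ (hT 0).2.2.1, h1' ▸ w0 1, h0 ▸ w0 0⟩

/-- Every arc `u → w` is a path of a subdivision minus an arc with center `u` and tip `w`. -/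
theorem EY.arc {h : V} (hE : EY adj h) {u w : V} (hu : u ≠ h) (hw : w ≠ h) (huw : adj u w) :
    ∃ c S, IsK adj (Ch h) w u c S := by
  classical
  have hcoe : (((univ : Finset V).erase h : Finset V) : Set V) = Ch h := by
    ext y
    simp
  obtain ⟨w', hw', hww, huw'⟩ := hE.out2 hu w
  have hwu : w ≠ u := by
    rintro rfl
    exact hE.irr _ huw
  have hwu' : w' ≠ u := by
    rintro rfl
    exact hE.irr _ huw'
  obtain ⟨P, Q0, hPQ, hP, hQ0, hwP, hwQ, ⟨p, hp, p1, p2⟩, ⟨q, hq, q1, q2⟩⟩ :=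
    hE.two_in hu hw hw' hww.symm hwu hwu'
  rw [Set.disjoint_left] at hPQ
  obtain ⟨Q, hQ, hmp⟩ := exists_MP (Q := Q0) (a := u) (b := u)
    (Or.inr ⟨w', hwQ, q, hq, huw', q1, q2⟩ : Conn adj Q0 u u)
  obtain ⟨q0, hq0⟩ : ∃ q0, q0 ∈ Q := by
    rcases hmp.1 with g | ⟨q0, g, _⟩
    · exact absurd g (hE.irr u)
    · exact ⟨q0, g⟩
  have hQC : ∀ y ∈ Q, y ≠ h ∧ y ≠ u ∧ y ∉ P := fun y hy =>
    ⟨(hQ0 (hQ hy)).1, (hQ0 (hQ hy)).2, fun g => hPQ g (hQ hy)⟩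
  set Z : Finset V := univ.filter (fun y => y = u ∨ y ∈ Q) with hZ
  have mZ : ∀ y, y ∈ Z ↔ (y = u ∨ y ∈ Q) := by
    intro y
    rw [hZ, mem_filter]
    exact ⟨fun g => g.2, fun g => ⟨mem_univ _, g⟩⟩
  have hwZ : w ∉ Z := by
    rw [mZ]
    rintro (g | g)
    · exact hwu g
    · exact (hQC w g).2.2 hwP
  obtain ⟨T, r, hd, hT⟩ := fan (adj := fun x y => adj y x) (univ.erase h) Z w
    (by
      intro y hy
      rcases (mZ y).1 hy with g | g
      · exact mem_erase.2 ⟨g ▸ hu, mem_univ _⟩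
      · exact mem_erase.2 ⟨(hQC y g).1, mem_univ _⟩)
    hwZ ⟨u, (mZ u).2 (Or.inl rfl)⟩
    (by
      intro s hs
      rw [hcoe]
      by_cases hsu : s = u
      · subst hsu
        exact ⟨q0, (mZ q0).2 (Or.inr hq0), (hQC q0 hq0).2.1,
          RR_flip' (hE.str s w q0 hw (hQC q0 hq0).1 hwu (hQC q0 hq0).2.1)⟩
      · exact ⟨u, (mZ u).2 (Or.inl rfl), fun g => hsu g.symm,
          RR_flip' (hE.str s w u hw hu hs.symm (fun g => hsu g.symm))⟩)
  rw [hcoe] at hT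
  have hf : ∀ i, FP (fun x y => adj y x) (Z : Set V) ∅ (T i) (r i) w := fun i =>
    ⟨(hT i).2.1, (hT i).2.2.1, fun g => ((hT i).1 g).2 rfl, (hT i).2.2.2⟩
  have hz : ∀ i, ∃ z, z ∈ (Z : Set V) ∧ z ∈ T i ∧ Conn adj (T i \ (Z : Set V)) w z := by
    intro i
    have k := Conn_flip (hf i).conn
    rcases hit_conn (P := (Z : Set V)) k with k1 | ⟨z, k1, k2, k3⟩
    · refine ⟨r i, (hT i).2.1, (hT i).2.2.1, Conn.mono ?_ k1⟩
      exact fun y hy => ⟨hy.1.1, hy.2⟩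
    · refine ⟨z, k1, k2.1, Conn.mono ?_ k3⟩
      exact fun y hy => ⟨hy.1.1, hy.2⟩
  choose z z1 z2 z3 using hz
  rw [Set.disjoint_left] at hd
  have hzz : z 0 ≠ z 1 := by
    intro g
    have := z2 1
    rw [← g] at this
    exact hd (z2 0) this
  have hcP : Conn adj (P \ {w}) w u := by
    have k1 : RR adj (P ∪ {u}) w u :=
      (RR.mono Set.subset_union_left p1).tail ⟨Or.inl hp, Or.inr rfl, p2⟩
    refine Conn.mono ?_ (conn_of_RR k1 hwu)
    rintro y ⟨⟨hy | hy, h4⟩, h5⟩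
    · exact ⟨hy, h4⟩
    · exact absurd hy h5
  set A : Fin 2 → Set V := fun i =>
    (T i \ (Z : Set V)) ∩ {y | Head adj (T i \ (Z : Set V)) w y} with hA
  obtain ⟨B0, B1, s, hB, b0, b1, hs, hsu, sB0, sB1⟩ := exch2 (A0 := A 0) (A1 := A 1)
    (P := P \ {w}) (Z := (Z : Set V)) (w := w) (u := u) (z0 := z 0) (z1 := z 1)
    (Set.disjoint_left.2 fun y hy g => hd hy.1.1 g.1.1) (z1 0) (z1 1) hzz (hd_conn (z3 0))
    (hd_conn (z3 1)) (fun y hy => hd_head hy.2) (fun y hy => hd_head hy.2) hcP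
  have hsQ : s ∈ Q := ((mZ s).1 hs).resolve_left hsu
  obtain ⟨U, W, hU, hW, hUW, k1, k2⟩ := hmp.split hsQ
  rw [Set.disjoint_left] at hB hUW
  have hall : ∀ y, y ∈ (A 0 ∪ A 1) ∪ (P \ {w}) → y ≠ h ∧ y ≠ w ∧ y ≠ u ∧ y ∉ Q := by
    rintro y ((hy | hy) | hy)
    · have g1 := (hT 0).1 hy.1.1
      have g2 := hy.1.2
      exact ⟨g1.1, g1.2, fun g => g2 ((mZ y).2 (Or.inl g)), fun g => g2 ((mZ y).2 (Or.inr g))⟩
    · have g1 := (hT 1).1 hy.1.1
      have g2 := hy.1.2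
      exact ⟨g1.1, g1.2, fun g => g2 ((mZ y).2 (Or.inl g)), fun g => g2 ((mZ y).2 (Or.inr g))⟩
    · exact ⟨(hP hy.1).1, hy.2, (hP hy.1).2, fun g => (hQC y g).2.2 hy.1⟩
  have hwQ' : w ∉ Q := fun g => hwZ ((mZ w).2 (Or.inr g))
  have huQ : u ∉ Q := fun g => (hQC u g).2.1 rfl
  refine ⟨s, _, mkK (A1 := B0) (B := ∅) (A2 := B1) (B2 := U) (C1 := W) hw hu (hQC s hsQ).1 hwu
    (fun g => hwQ' (g ▸ hsQ)) hsu.symm ?_ ?_ b0 (Or.inl huw) b1 k1 k2⟩
  · intro i y hy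
    have a0 := fun g => hall y (@sB0 y g)
    have a1 := fun g => hall y (@sB1 y g)
    have u0 : y ∈ U → y ∈ Q ∧ y ≠ s := fun g => ⟨(hU g).1, (hU g).2⟩
    have u1 : y ∈ W → y ∈ Q ∧ y ≠ s := fun g => ⟨(hW g).1, (hW g).2⟩
    have u2 : y ∈ Q → y ≠ h ∧ y ≠ u ∧ y ≠ w := fun g => ⟨(hQC y g).1, (hQC y g).2.1,
      fun k => hwQ' (k ▸ g)⟩
    have u3 : y ∉ Q → y ≠ s := fun g k => g (k ▸ hsQ)
    clear hU hW hUW hB sB0 sB1
    cases i <;> simp only [seg5, Set.mem_empty_iff_false] at hy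
    · have b := a0 hy
      exact ⟨b.1, b.2.1, b.2.2.1, u3 b.2.2.2⟩
    · have b := a1 hy
      exact ⟨b.1, b.2.1, b.2.2.1, u3 b.2.2.2⟩
    · have b := u2 (u0 hy).1
      exact ⟨b.1, b.2.2, b.2.1, (u0 hy).2⟩
    · have b := u2 (u1 hy).1
      exact ⟨b.1, b.2.2, b.2.1, (u1 hy).2⟩
  · intro y
    have a0 := fun g => hall y (@sB0 y g)
    have a1 := fun g => hall y (@sB1 y g)
    refine ⟨fun g => ⟨fun k => k, fun k => hB g k, fun k => (a0 g).2.2.2 (hU k).1,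
      fun k => (a0 g).2.2.2 (hW k).1⟩, fun g => g.elim, fun g => ⟨fun k => (a1 g).2.2.2 (hU k).1,
      fun k => (a1 g).2.2.2 (hW k).1⟩, fun g k => hUW g k⟩

theorem EY.bip {h : V} (hE : EY adj h) {u w : V} (hu : u ≠ h) (hw : w ≠ h) (huw : adj u w)
    (h1 : adj h u) (h2 : adj h w) : False := by
  obtain ⟨c, S, hk⟩ := hE.arc hu hw huw
  exact hE.no_ct' hk h1 h2

theorem EY.bip' {h : V} (hE : EY adj h) {u w : V} (hu : u ≠ h) (hw : w ≠ h) (huw : adj u w)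
    (h1 : adj u h) (h2 : adj w h) : False :=
  hE.flip.bip hw hu huw h2 h1

theorem EY.notboth {h : V} (hE : EY adj h) {u : V} (hu : u ≠ h) (h1 : adj u h) (h2 : adj h u) :
    False := by
  obtain ⟨w, hw, _, huw⟩ := hE.out2 hu u
  rcases hE.ey w hw with g | g
  · exact hE.bip' hu hw huw h1 g
  · exact hE.bip hu hw huw h2 g

end fin

end Pool.Agent.H.MP_0cacf8
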