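import Pool.Agent.H.MP_0cacf8.EYE

/-!
# Arcs from exits are in digons; a cycle of digons with a chord of minimal length
-/

set_option autoImplicit false

namespace Pool.Agent.H.MP_0cacf8

open Relation Finset Pool.Agent.H.MP_0d008e_co

variable {V : Type*} {adj : V → V → Prop}

section fin

variable [Fintype V] [DecidableEq V]

omit [Fintype V] [DecidableEq V] in
/-- An arc from the third vertex to an exit stays in the subdivision if the tip is an entry. -/
theorem EY.clos {h : V} (hE : EY adj h) {v e c w : V} {S : Seg → Set V}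
    (hk : IsK adj (Ch h) v e c S) (hv : adj h v) (hcw : adj c w) (hw : adj w h) :
    w = v ∨ w = e ∨ w = c ∨ ∃ i, w ∈ S i := by
  by_contra hcon
  push Not at hcon
  obtain ⟨n1, n2, n3, n4⟩ := hcon
  have hconn : Conn adj (∅ ∪ ({h} ∪ {w})) c v :=
    Or.inr (Conn.join (Or.inl hcw) (step_two hw hv))
  rw [Set.empty_union] at hconn
  refine hE.no (K3_of hk ?_ ?_ ?_ ?_ hconn)
  · rintro (g | g)
    · exact hk.vC g
    · exact n1 g.symm
  · rintro (g | g)
    · exact hk.eC g
    · exact n2 g.symm
  · rintro (g | g)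
    · exact hk.cC g
    · exact n3 g.symm
  · rintro i u (g | g) g'
    · have hu : u = h := g
      exact hk.sub i g' hu
    · have hu : u = w := g
      exact n4 i (hu ▸ g')

/-- An arc from an entry to the tip starts in the subdivision if the third vertex is an exit. -/
theorem EY.clos' {h : V} (hE : EY adj h) {v e c w : V} {S : Seg → Set V}
    (hk : IsK adj (Ch h) v e c S) (hc : adj c h) (hwv : adj w v) (hw : adj h w) :
    w = v ∨ w = e ∨ w = c ∨ ∃ i, w ∈ S i := by
  rcases hE.flip.clos hk.flip hc hwv hw with g | g | g | ⟨i, g⟩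
  · exact Or.inr (Or.inr (Or.inl g))
  · exact Or.inr (Or.inl g)
  · exact Or.inl g
  · exact Or.inr (Or.inr (Or.inr ⟨_, g⟩))

/-- The first path is an arc if the center is an exit and the tip an entry. -/
theorem EY.l2 {h : V} (hE : EY adj h) {v e c : V} {S0 : Seg → Set V}
    (hk0 : IsK adj (Ch h) v e c S0) (he : adj e h) (hv : adj h v) : adj v e := by
  obtain ⟨S, _, hk, hmp⟩ := hk0.shrink
  have hcC : c ≠ h := hk.cC
  have hce : ¬ adj c h := fun g => hE.no_ct hk he g
  have hc : adj h c := (hE.ey c hcC).resolve_left hce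
  obtain ⟨q1, hq1, hq1'⟩ := (hk.conn .c1).first
  have hq : q1 ∈ S .c1 ∨ q1 = e := by
    rcases hq1' with g | ⟨g, _⟩
    · exact Or.inr g
    · exact Or.inl g
  obtain ⟨w, hwh, hwq, hcw⟩ := hE.out2 hcC q1
  have hw : adj w h := (hE.ey w hwh).resolve_right (fun g => hE.bip hcC hwh hcw hc g)
  have fin : ∀ S' : Seg → Set V, IsK adj (Ch h) e c w S' → (∀ j, ∀ y ∈ S' j, y ∉ S .a1) →
      w ∉ S .a1 → adj v e := by
    intro S' hk' hS' hwa
    obtain ⟨p, hp, hp'⟩ := (hk.conn .a1).last
    rcases hp' with g | ⟨g, _⟩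
    · rw [← g] at hp
      exact hp
    · exfalso
      have hph : p ≠ h := hk.sub _ g
      have hpe : adj h p := (hE.ey p hph).resolve_left
        (fun k => hE.bip' hph hk.eC hp k he)
      rcases hE.clos' hk' hw hp hpe with k | k | k | ⟨i, k⟩
      · exact hk.ne _ (k ▸ g)
      · exact hk.nc _ (k ▸ g)
      · exact hwa (k ▸ g)
      · exact hS' i p k g
  rcases hE.clos hk hv hcw hw with g | g | g | ⟨i, g⟩
  · exact (hE.notboth hwh hw (g ▸ hv)).elim
  · exact absurd ((hmp .c1).uniq hcw hq1 (Or.inr g) hq) hwq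
  · exact absurd (g ▸ hcw) (hE.irr c)
  · cases i with
    | a1 =>
      obtain ⟨S', hk'⟩ := hk.third_a1 (hmp .a1) g hcw
      exact (hE.no_ct hk' he hw).elim
    | b =>
      obtain ⟨S', hk'⟩ := hk.third_b (hmp .b) g hcw
      exact (hE.no_ct hk' he hw).elim
    | c1 => exact absurd ((hmp .c1).uniq hcw hq1 (Or.inl g) hq) hwq
    | a2 =>
      obtain ⟨S', hk', hS'⟩ := hk.third_a2 (hmp .a2) g hcw
      exact fin S' hk' hS' (hk.disj _ _ (by decide) w g)
    | b2 =>
      obtain ⟨S', hk', hS'⟩ := hk.third_b2 (hmp .b2) g hcw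
      exact fin S' hk' hS' (hk.disj _ _ (by decide) w g)

/-- Arcs starting in exits are in digons. -/
theorem EY.digon {h : V} (hE : EY adj h) {u w : V} (hu : u ≠ h) (hw : w ≠ h) (huw : adj u w)
    (hux : adj u h) : adj w u := by
  obtain ⟨c, S, hk⟩ := hE.arc hu hw huw
  exact hE.l2 hk hux ((hE.ey w hw).resolve_left (fun g => hE.bip' hu hw huw hux g))

/-- digons -/
def Gam (adj : V → V → Prop) (x y : V) : Prop := adj x y ∧ adj y x

theorem EY.gam {h : V} (hE : EY adj h) {u : V} (hu : u ≠ h) (x : V) :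
    ∃ w, w ≠ h ∧ w ≠ x ∧ Gam adj u w := by
  rcases hE.ey u hu with g | g
  · obtain ⟨w, h1, h2, h3⟩ := hE.out2 hu x
    exact ⟨w, h1, h2, h3, hE.digon hu h1 h3 g⟩
  · obtain ⟨w, h1, h2, h3⟩ := hE.flip.out2 hu x
    have h3' : adj w u := h3
    have hw : adj w h := (hE.ey w h1).resolve_right (fun k => hE.bip h1 hu h3' k g)
    exact ⟨w, h1, h2, hE.digon h1 hu h3' hw, h3'⟩

omit [Fintype V] [DecidableEq V] in
theorem chain_pre {R : V → V → Prop} {l1 l2 : List V} (h : l2.IsChain R) (e : l1 <+: l2) :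
    l1.IsChain R := by
  obtain ⟨t, rfl⟩ := e
  exact (List.isChain_append.1 h).1

omit [Fintype V] [DecidableEq V] in
theorem chain_back : ∀ (l : List V) (a : V), (a :: l).IsChain (Gam adj) →
    RR adj {x | x ∈ a :: l} ((a :: l).getLast (List.cons_ne_nil a l)) a := by
  intro l
  induction l with
  | nil =>
    intro a _
    exact ReflTransGen.refl
  | cons b l ih =>
    intro a ha
    rw [List.isChain_cons_cons] at ha
    have h1 := ih b ha.2
    rw [List.getLast_cons (List.cons_ne_nil b l)]
    refine ReflTransGen.tail (RR.mono ?_ h1) ⟨?_, ?_, ha.1.2⟩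
    · intro y hy
      exact List.mem_cons_of_mem _ hy
    · exact List.mem_cons_of_mem _ List.mem_cons_self
    · exact List.mem_cons_self

/-- No path of digons from an entry with an arc from its first to its last vertex. -/
theorem EY.no_closed {h : V} (hE : EY adj h) : ∀ n : ℕ, ∀ (m : List V) (z1 z2 y : V),
    m.length = n → m ≠ [] → (z1 :: z2 :: (m ++ [y])).Nodup →
    (z1 :: z2 :: (m ++ [y])).IsChain (Gam adj) → (∀ x ∈ z1 :: z2 :: (m ++ [y]), x ≠ h) →
    adj h z1 → adj z1 y → False := by
  intro n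
  induction n using Nat.strong_induction_on with
  | _ n ih =>
    intro m z1 z2 y hn hm hnd hch hh hz1 hzy
    obtain ⟨z3, m', rfl⟩ := List.exists_cons_of_ne_nil hm
    have hall : z1 ≠ h ∧ z2 ≠ h ∧ z3 ≠ h := by
      refine ⟨hh _ ?_, hh _ ?_, hh _ ?_⟩ <;> simp
    obtain ⟨n1, n2, n3⟩ := hall
    rw [List.cons_append] at hch hnd hh
    obtain ⟨k1, k2⟩ := List.isChain_cons_cons.1 hch
    obtain ⟨k3, k4⟩ := List.isChain_cons_cons.1 k2
    have e2 : adj z2 h := (hE.ey z2 n2).resolve_right (fun g => hE.bip n1 n2 k1.1 hz1 g)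
    have e3 : adj h z3 := (hE.ey z3 n3).resolve_left (fun g => hE.bip' n2 n3 k3.1 e2 g)
    have e3' : ¬ adj z3 h := fun g => hE.notboth n3 g e3
    -- the list after `z3`
    obtain ⟨z4, l, hl⟩ : ∃ z4 l, m' ++ [y] = z4 :: l := by
      cases m' with
      | nil => exact ⟨y, [], rfl⟩
      | cons a m' => exact ⟨a, m' ++ [y], rfl⟩
    have hlast : (z4 :: l).getLast (List.cons_ne_nil z4 l) = y := by
      have : (m' ++ [y]).getLast (by simp) = y := by simp
      rw [← this]
      congr 1
      exact hl.symm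
    rw [hl] at k4 hch hnd hh
    obtain ⟨k5, k6⟩ := List.isChain_cons_cons.1 k4
    have n4 : z4 ≠ h := hh _ (by simp)
    have e4 : adj z4 h := (hE.ey z4 n4).resolve_right (fun g => hE.bip n3 n4 k5.1 e3 g)
    simp only [List.nodup_cons, List.mem_cons, not_or] at hnd
    obtain ⟨⟨d12, d13, d14, d1l⟩, ⟨d23, d24, d2l⟩, ⟨d34, d3l⟩, d4l, dl⟩ := hnd
    have hmemC : ∀ x ∈ z4 :: l, x ≠ h := fun x hx =>
      hh x (List.mem_cons_of_mem _ (List.mem_cons_of_mem _ (List.mem_cons_of_mem _ hx)))
    -- the subdivision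
    have hconn : Conn adj {x | x ∈ z4 :: l} z1 z3 := by
      refine Or.inr ⟨y, ?_, z4, ?_, hzy, ?_, k5.2⟩
      · show y ∈ z4 :: l
        rw [← hlast]
        exact List.getLast_mem _
      · exact List.mem_cons_self
      · have := chain_back l z4 k6
        rw [hlast] at this
        exact this
    have hk : IsK adj (Ch h) z1 z2 z3 (seg5 ∅ ∅ {x | x ∈ z4 :: l} ∅ ∅) := by
      refine mkK n1 n2 n3 d12 d13 d23 ?_ ?_ (Or.inl k1.1) (Or.inl k1.2) hconn (Or.inl k3.1)
        (Or.inl k3.2)
      · intro i x hx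
        cases i <;> simp only [seg5, Set.mem_empty_iff_false] at hx
        have hx' : x ∈ z4 :: l := hx
        refine ⟨hmemC x hx', ?_, ?_, ?_⟩
        · rintro rfl
          rcases List.mem_cons.1 hx' with g | g
          · exact d14 g
          · exact d1l g
        · rintro rfl
          rcases List.mem_cons.1 hx' with g | g
          · exact d24 g
          · exact d2l g
        · rintro rfl
          rcases List.mem_cons.1 hx' with g | g
          · exact d34 g
          · exact d3l g
      · intro x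
        refine ⟨fun g => g.elim, fun g => g.elim, fun _ => ⟨fun g => g, fun g => g⟩,
          fun g => g.elim⟩
    -- a new arc
    obtain ⟨w, w1, w2, w4, h3w⟩ := hE.dout z3 n3 e3' z2 z4
    have hw : adj w h := (hE.ey w w1).resolve_right (fun g => hE.bip n3 w1 h3w e3 g)
    have hwl : w ∈ l := by
      rcases hE.clos hk hz1 h3w hw with g | g | g | ⟨i, g⟩
      · exact (hE.notboth w1 hw (g ▸ hz1)).elim
      · exact absurd g w2
      · exact absurd (g ▸ h3w) (hE.irr z3)
      · cases i <;> simp only [seg5, Set.mem_empty_iff_false] at g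
        have g' : w ∈ z4 :: l := g
        rcases List.mem_cons.1 g' with g'' | g''
        · exact absurd g'' w4
        · exact g''
    obtain ⟨s, t, hst⟩ := List.append_of_mem hwl
    have hs : s ≠ [] := by
      rintro rfl
      rw [List.nil_append] at hst
      rw [hst] at k6
      exact hE.bip' n4 w1 (List.isChain_cons_cons.1 k6).1.1 e4 hw
    have hpre : (z3 :: z4 :: (s ++ [w])) <+: (z3 :: z4 :: l) := by
      refine ⟨t, ?_⟩
      rw [hst]
      simp
    refine ih s.length ?_ s z3 z4 w rfl hs ?_ ?_ ?_ e3 h3w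
    · have h1 := congrArg List.length hl
      rw [hst] at h1
      simp only [List.length_append, List.length_cons, List.length_nil] at h1 hn
      omega
    · refine List.Nodup.sublist hpre.sublist ?_
      simp only [List.nodup_cons, List.mem_cons, not_or]
      exact ⟨⟨d34, d3l⟩, d4l, dl⟩
    · exact chain_pre k4 hpre
    · intro x hx
      refine hh x ?_
      exact List.mem_cons_of_mem _ (List.mem_cons_of_mem _ (hpre.subset hx))

end fin

end Pool.Agent.H.MP_0cacf8
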