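import Pool.Agent.H.MP_0cacf8.EYF

/-!
# A vertex adjacent to all others whose deletion leaves a 2-strong digraph
-/

set_option autoImplicit false

namespace Pool.Agent.H.MP_0cacf8

open Relation Finset Pool.Agent.H.MP_0d008e_co

variable {V : Type*} {adj : V → V → Prop}

section fin

variable [Fintype V] [DecidableEq V]

theorem EY.false {h : V} (hE : EY adj h) : False := by
  have gsymm : ∀ {x y : V}, Gam adj x y → Gam adj y x := fun g => ⟨g.2, g.1⟩
  have key : ∀ n : ℕ, ∃ l : List V, l.length = n + 2 ∧ l.Nodup ∧ l.IsChain (Gam adj) ∧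
      ∀ x ∈ l, x ≠ h := by
    intro n
    induction n with
    | zero =>
      obtain ⟨z, h1, _, _⟩ := hE.big h h
      obtain ⟨w, h2, h3, h4⟩ := hE.gam h1 z
      refine ⟨[z, w], rfl, ?_, ?_, ?_⟩
      · simp [h3.symm]
      · simpa using h4
      · simp [h1, h2]
    | succ n ih =>
      obtain ⟨l, hn, hnd, hch, hh⟩ := ih
      obtain ⟨a, l, rfl⟩ := List.exists_cons_of_length_pos (by omega : 0 < l.length)
      obtain ⟨b, l, rfl⟩ := List.exists_cons_of_length_pos (by
        simp only [List.length_cons] at hn
        omega : 0 < l.length)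
      have ha : a ≠ h := hh a (by simp)
      have hb : b ≠ h := hh b (by simp)
      obtain ⟨w, h2, h3, h4⟩ := hE.gam ha b
      have hwa : w ≠ a := by
        rintro rfl
        exact hE.irr _ h4.1
      by_cases hw : w ∈ l
      · exfalso
        obtain ⟨hab, hch'⟩ := List.isChain_cons_cons.1 hch
        obtain ⟨s, t, rfl⟩ := List.append_of_mem hw
        have hpre : (b :: (s ++ [w])) <+: (b :: (s ++ w :: t)) := by
          refine ⟨t, ?_⟩
          simp
        have hpre' : (a :: b :: (s ++ [w])) <+: (a :: b :: (s ++ w :: t)) := by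
          refine ⟨t, ?_⟩
          simp
        have hc1 := chain_pre hch' hpre
        have hs : s ≠ [] := by
          rintro rfl
          rw [List.nil_append] at hc1
          have hbw := (List.isChain_cons_cons.1 hc1).1
          rcases hE.ey a ha with g | g
          · have g1 : adj h b := (hE.ey b hb).resolve_left (fun k => hE.bip' ha hb hab.1 g k)
            have g2 : adj w h := (hE.ey w h2).resolve_right (fun k => hE.bip hb h2 hbw.1 g1 k)
            exact hE.bip' ha h2 h4.1 g g2
          · have g1 : adj b h := (hE.ey b hb).resolve_right (fun k => hE.bip ha hb hab.1 g k)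
            have g2 : adj h w := (hE.ey w h2).resolve_left (fun k => hE.bip' hb h2 hbw.1 g1 k)
            exact hE.bip ha h2 h4.1 g g2
        rcases hE.ey a ha with g | g
        · -- `a` is an exit: start in `b`
          have g1 : adj h b := (hE.ey b hb).resolve_left (fun k => hE.bip' ha hb hab.1 g k)
          obtain ⟨z2, s', rfl⟩ := List.exists_cons_of_ne_nil hs
          refine hE.no_closed _ (s' ++ [w]) b z2 a rfl (by simp) ?_ ?_ ?_ g1 hab.2
          · have h5 : (a :: b :: z2 :: (s' ++ [w])).Nodup := by
              refine List.Nodup.sublist hpre'.sublist ?_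
              exact hnd
            have h6 : (b :: z2 :: ((s' ++ [w]) ++ [a])).Perm (a :: b :: z2 :: (s' ++ [w])) := by
              have : b :: z2 :: ((s' ++ [w]) ++ [a]) = (b :: z2 :: (s' ++ [w])) ++ [a] := rfl
              rw [this]
              exact List.perm_append_singleton _ _
            exact h6.nodup_iff.2 h5
          · have : b :: z2 :: ((s' ++ [w]) ++ [a]) = (b :: z2 :: (s' ++ [w])) ++ [a] := rfl
            rw [this, List.isChain_append]
            refine ⟨hc1, by simp, ?_⟩
            intro x hx y hy
            simp only [List.head?_cons, Option.mem_def, Option.some.injEq] at hy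
            have hx' : (b :: z2 :: (s' ++ [w])).getLast? = some w := by
              have : b :: z2 :: (s' ++ [w]) = (b :: z2 :: s') ++ [w] := rfl
              rw [this, List.getLast?_append]
              simp
            rw [hx'] at hx
            simp only [Option.mem_def, Option.some.injEq] at hx
            rw [← hx, ← hy]
            exact gsymm h4
          · intro x hx
            have h5 : x = a ∨ x ∈ b :: z2 :: (s' ++ [w]) := by
              simp only [List.mem_cons, List.mem_append, List.not_mem_nil, or_false] at hx ⊢
              tauto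
            rcases h5 with rfl | h5
            · exact ha
            · exact hh x (List.mem_cons_of_mem _ (hpre.subset h5))
        · refine hE.no_closed _ s a b w rfl hs ?_ ?_ ?_ g h4.1
          · exact List.Nodup.sublist hpre'.sublist hnd
          · exact chain_pre hch hpre'
          · exact fun x hx => hh x (hpre'.subset hx)
      · refine ⟨w :: a :: b :: l, by simp only [List.length_cons] at hn ⊢; omega, ?_, ?_, ?_⟩
        · rw [List.nodup_cons]
          refine ⟨?_, hnd⟩
          simp only [List.mem_cons, not_or]
          exact ⟨hwa, h3, hw⟩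
        · exact List.isChain_cons_cons.2 ⟨gsymm h4, hch⟩
        · intro x hx
          rcases List.mem_cons.1 hx with rfl | hx
          · exact h2
          · exact hh x hx
  obtain ⟨l, h1, h2, _, _⟩ := key (Fintype.card V)
  have := h2.length_le_card
  omega

/-- **Theorem.** -/
theorem ey2 (h : V) (irr : ∀ u, ¬ adj u u)
    (ey : ∀ u, u ≠ h → adj u h ∨ adj h u)
    (str : ∀ x u w, u ≠ h → w ≠ h → u ≠ x → w ≠ x → RR adj (Ch h \ {x}) u w)
    (big : ∀ x y, ∃ z, z ≠ h ∧ z ≠ x ∧ z ≠ y)
    (dout : ∀ u, u ≠ h → ¬ adj u h → ∀ x y, ∃ w, w ≠ h ∧ w ≠ x ∧ w ≠ y ∧ adj u w)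
    (din : ∀ u, u ≠ h → ¬ adj h u → ∀ x y, ∃ w, w ≠ h ∧ w ≠ x ∧ w ≠ y ∧ adj w u)
    (ent : ∃ w, adj h w) (exi : ∃ w, adj w h) : K3off adj h := by
  by_contra hno
  exact EY.false (adj := adj) (h := h) ⟨irr, ey, str, big, dout, din, ent, exi, hno⟩

end fin

end Pool.Agent.H.MP_0cacf8
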