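import Pool.Agent.H.MP_0cacf8.EYI

/-!
# Hub pairs: types of the branch vertices, the center closure lemma
-/

set_option autoImplicit false

namespace Pool.Agent.H.MP_0cacf8

open Relation Finset Pool.Agent.H.MP_0d008e_co

variable {V : Type*} {adj : V → V → Prop}

/-- the vertices of the subdivision -/
def OnK (v e c : V) (S : Seg → Set V) (u : V) : Prop := u = v ∨ u = e ∨ u = c ∨ ∃ i, u ∈ S i

theorem rev_rev (i : Seg) : rev (rev i) = i := by cases i <;> rfl

theorem OnK.flip {v e c : V} {S : Seg → Set V} {u : V}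
    (h : OnK c e v (fun i => S (rev i)) u) : OnK v e c S u := by
  rcases h with h | h | h | ⟨i, h⟩
  · exact Or.inr (Or.inr (Or.inl h))
  · exact Or.inr (Or.inl h)
  · exact Or.inl h
  · exact Or.inr (Or.inr (Or.inr ⟨_, h⟩))

theorem OnK.mono {v e c : V} {S S' : Seg → Set V} (hS : ∀ i, S' i ⊆ S i) {u : V}
    (h : OnK v e c S' u) : OnK v e c S u := by
  rcases h with h | h | h | ⟨i, h⟩
  · exact Or.inl h
  · exact Or.inr (Or.inl h)
  · exact Or.inr (Or.inr (Or.inl h))
  · exact Or.inr (Or.inr (Or.inr ⟨i, hS i h⟩))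

theorem IsK.onK {C : Set V} {v e c : V} {S : Seg → Set V} (h : IsK adj C v e c S) {u : V}
    (hu : OnK v e c S u) : u ∈ C := by
  rcases hu with hu | hu | hu | ⟨i, hu⟩
  · exact hu ▸ h.vC
  · exact hu ▸ h.eC
  · exact hu ▸ h.cC
  · exact h.sub i hu

theorem IsK.restr {C W : Set V} {v e c : V} {S : Seg → Set V} (h : IsK adj C v e c S)
    (hW : ∀ u ∈ W, ¬ OnK v e c S u) : IsK adj (C \ W) v e c S where
  vC := ⟨h.vC, fun g => hW v g (Or.inl rfl)⟩
  eC := ⟨h.eC, fun g => hW e g (Or.inr (Or.inl rfl))⟩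
  cC := ⟨h.cC, fun g => hW c g (Or.inr (Or.inr (Or.inl rfl)))⟩
  ve := h.ve
  vc := h.vc
  ec := h.ec
  sub := fun i u hu => ⟨h.sub i hu, fun g => hW u g (Or.inr (Or.inr (Or.inr ⟨i, hu⟩)))⟩
  nv := h.nv
  ne := h.ne
  nc := h.nc
  disj := h.disj
  conn := h.conn

theorem IsK.le {C C' : Set V} {v e c : V} {S : Seg → Set V} (h : IsK adj C v e c S)
    (hC : C ⊆ C') : IsK adj C' v e c S :=
  h.mono hC (fun _ _ g => g)

theorem IsK.flip' {C : Set V} {v e c : V} {S : Seg → Set V}
    (h : IsK (fun x y => adj y x) C v e c S) : IsK adj C c e v (fun i => S (rev i)) :=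
  IsK.flip (adj := fun x y => adj y x) h

/-- Closing a subdivision by a path from the third vertex to the tip, through `h` or not. -/
theorem K3_of' {z : V} {T : Set V} {v e c : V} {S : Seg → Set V} (h : IsK adj (Ch z) v e c S)
    (hT : ∀ u ∈ T, ¬ OnK v e c S u) (hconn : Conn adj T c v) : K3off adj z :=
  K3_of h (fun g => hT v g (Or.inl rfl)) (fun g => hT e g (Or.inr (Or.inl rfl)))
    (fun g => hT c g (Or.inr (Or.inr (Or.inl rfl))))
    (fun i u hu g => hT u hu (Or.inr (Or.inr (Or.inr ⟨i, g⟩)))) hconn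

namespace EYB

variable {h : V}

/-- The third vertex reaches `h`, the tip is reached from `h`. -/
theorem good (hE : EYB adj h) {v e c : V} {S : Seg → Set V} (hk : IsK adj (Ch h) v e c S)
    {Q P : Set V} (hQ : ∀ u ∈ Q, ¬ OnK v e c S u) (hP : ∀ u ∈ P, ¬ OnK v e c S u)
    (hc : Conn adj Q c h) (hv : Conn adj P h v) : False := by
  refine hE.no (K3_of' (T := Q ∪ (P ∪ {h})) hk ?_ (Or.inr (Conn.join hc hv)))
  rintro u (hu | hu | hu)
  · exact hQ u hu
  · exact hP u hu
  · have hu' : u = h := hu
    intro g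
    exact hk.onK g hu'

theorem te (hE : EYB adj h) {v e c : V} {S : Seg → Set V} (hk : IsK adj (Ch h) v e c S)
    (hc : adj c h) (hv : adj h v) : False :=
  hE.good (Q := ∅) (P := ∅) hk (fun _ g => g.elim) (fun _ g => g.elim) (Or.inl hc) (Or.inl hv)

section fin

variable [Fintype V] [DecidableEq V]

/-- Center an exit and third vertex good: impossible. -/
theorem L1 (hE : EYB adj h) {v e c : V} {S : Seg → Set V} (hk : IsK adj (Ch h) v e c S)
    (he : adj e h) {Q : Set V} (hQh : Q ⊆ Ch h) (hQ : ∀ u ∈ Q, ¬ OnK v e c S u)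
    (hc : Conn adj Q c h) : False := by
  classical
  obtain ⟨r, hr⟩ := hE.ranks
  have hX : Ch h \ ((∅ : Finset V) : Set V) = Ch h := by simp
  have main : ∀ n : ℕ, ∀ (v e c : V) (S : Seg → Set V) (Q : Set V), IsK adj (Ch h) v e c S →
      adj e h → Q ⊆ Ch h → (∀ u ∈ Q, ¬ OnK v e c S u) → Conn adj Q c h → r v = n → False := by
    intro n
    induction n using Nat.strong_induction_on with
    | _ n ih =>
      intro v e c S0 Q0 hk0 he hQh0 hQ0 hc0 hn
      obtain ⟨S, hSS, hk, hmp⟩ := hk0.shrink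
      have hv : ¬ adj h v := fun g => hE.good (P := ∅) hk0 hQ0 (fun _ g => g.elim) hc0 (Or.inl g)
      have hvx : adj v h := (hE.ey v hk.vC).resolve_right hv
      set Q : Set V := Q0 ∩ {y | Head adj Q0 c y} with hQdef
      have hc : Conn adj Q c h := hd_conn hc0
      have hQh : Q ⊆ Ch h := fun y hy => hQh0 hy.1
      have hQ : ∀ u ∈ Q, ¬ OnK v e c S u := fun u hu g => hQ0 u hu.1 (g.mono hSS)
      obtain ⟨B', P, z, ts⟩ := tip_step hE hr (X := ∅) (by simp) (hX.symm ▸ hk) hv (Q := Q)
        (hX.symm ▸ hQh) (fun g => hQ v g (Or.inl rfl))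
        (fun i u hu g => hQ u hu (Or.inr (Or.inr (Or.inr ⟨i, g⟩))))
      rw [hX] at ts
      set S2 : Seg → Set V := fun j => if j = Seg.b then B' else S j with hS2
      have s2 : ∀ j, j ≠ Seg.b → S2 j = S j := fun j hj => by simp only [hS2, if_neg hj]
      have hQ2 : ∀ u ∈ Q, ¬ OnK v e c S2 u := by
        rintro u hu (g | g | g | ⟨i, g⟩)
        · exact hQ u hu (Or.inl g)
        · exact hQ u hu (Or.inr (Or.inl g))
        · exact hQ u hu (Or.inr (Or.inr (Or.inl g)))
        · exact ts.SQ i u hu g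
      have hP2 : ∀ u ∈ P, ¬ OnK v e c S2 u := by
        rintro u hu (g | g | g | ⟨i, g⟩)
        · exact ts.vP (g ▸ hu)
        · exact ts.eP (g ▸ hu)
        · exact ts.cP (g ▸ hu)
        · exact ts.PS i u hu g
      have fin : ∀ {e' c' : V} {S' : Seg → Set V}, IsK adj (Ch h) z e' c' S' → adj e' h →
          adj c' h → False := by
        intro e' c' S' hk' he' hc'
        have hz : ¬ adj h z := fun g => hE.te hk' hc' g
        have hz' : adj z h := (hE.ey z hk'.vC).resolve_right hz
        exact ih (r z) (hn ▸ ts.rank hz') z e' c' S' ∅ hk' he' (Set.empty_subset _)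
          (fun _ g => g.elim) (Or.inl hc') rfl
      rcases ts.alt with ⟨i, hib, hz⟩ | hz | ⟨hz, hzS, hzQ⟩
      · obtain ⟨S', hk'⟩ := ts.isK.tip_any (fun i hi => by
          rw [s2 i hi]
          exact hmp i) hib hz ts.PC ts.vP ts.eP ts.cP ts.PS ts.conn
        rcases hk' with ⟨_, hk'⟩ | ⟨_, hk'⟩
        · exact fin hk' hvx he
        · exact fin hk' he hvx
      · obtain ⟨w1, k1, k2⟩ := ts.conn.first
        have hh : Head adj Q c z := hd_head hz.2
        refine hE.no (K3_of' (T := Q ∪ P) ts.isK ?_ (bypass hh k1 k2))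
        rintro u (hu | hu)
        · exact hQ2 u hu
        · exact hP2 u hu
      · have k : Conn adj (∅ ∪ (P ∪ {z})) h v := Or.inr (Conn.join (Or.inl hz) ts.conn)
        refine hE.good ts.isK hQ2 ?_ hc k
        rintro u (hu | hu | hu)
        · exact hu.elim
        · exact hP2 u hu
        · have hu' : u = z := hu
          rw [hu']
          rintro (g | g | g | ⟨i, g⟩)
          · exact ts.zv g
          · exact ts.ze g
          · exact ts.zc g
          · exact hzS i g
  exact main _ v e c S Q hk he hQh hQ hc rfl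

/-- Center an entry and tip good: impossible. -/
theorem L2 (hE : EYB adj h) {v e c : V} {S : Seg → Set V} (hk : IsK adj (Ch h) v e c S)
    (he : adj h e) {Q : Set V} (hQh : Q ⊆ Ch h) (hQ : ∀ u ∈ Q, ¬ OnK v e c S u)
    (hv : Conn adj Q h v) : False :=
  hE.flip.L1 hk.flip he hQh (fun u hu g => hQ u hu g.flip) (Conn_flip' hv)

/-- If the center is an exit, the third vertex is not. -/
theorem third (hE : EYB adj h) {v e c : V} {S : Seg → Set V} (hk : IsK adj (Ch h) v e c S)
    (he : adj e h) : ¬ adj c h := fun g =>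
  hE.L1 (Q := ∅) hk he (Set.empty_subset _) (fun _ g => g.elim) (Or.inl g)

/-- If the center is an entry, the tip is not. -/
theorem tip (hE : EYB adj h) {v e c : V} {S : Seg → Set V} (hk : IsK adj (Ch h) v e c S)
    (he : adj h e) : ¬ adj h v := fun g =>
  hE.L2 (Q := ∅) hk he (Set.empty_subset _) (fun _ g => g.elim) (Or.inl g)

/-- The center is not both. -/
theorem center (hE : EYB adj h) {v e c : V} {S : Seg → Set V} (hk0 : IsK adj (Ch h) v e c S)
    (h1 : adj e h) (h2 : adj h e) : False := by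
  classical
  obtain ⟨r, hr⟩ := hE.flip.ranks
  have hX : Ch h \ ((∅ : Finset V) : Set V) = Ch h := by simp
  obtain ⟨S, hSS, hk, hmp⟩ := hk0.flip.shrink
  have hc : ¬ adj c h := hE.third hk0 h1
  have hc' : adj h c := (hE.ey c hk0.cC).resolve_left hc
  obtain ⟨B', P, z, ts⟩ := tip_step hE.flip hr (X := ∅) (by simp) (hX.symm ▸ hk) hc (Q := ∅)
    (Set.empty_subset _) (fun g => g) (fun i u hu g => hu.elim)
  rw [hX] at ts
  set S2 : Seg → Set V := fun j => if j = Seg.b then B' else S j with hS2
  have s2 : ∀ j, j ≠ Seg.b → S2 j = S j := fun j hj => by simp only [hS2, if_neg hj]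
  rcases ts.alt with ⟨i, hib, hz⟩ | hz | ⟨hz, hzS, hzQ⟩
  · obtain ⟨S', hk'⟩ := ts.isK.tip_any (fun i hi => by
      rw [s2 i hi]
      exact hmp i) hib hz ts.PC ts.vP ts.eP ts.cP ts.PS ts.conn
    rcases hk' with ⟨_, hk'⟩ | ⟨_, hk'⟩
    · exact hE.tip hk'.flip' hc' h2
    · exact hE.tip hk'.flip' h2 hc'
  · exact hz.elim
  · have k : Conn adj (P ∪ (∅ ∪ {z})) c h :=
      Or.inr (Conn.join (Conn_flip ts.conn) (Or.inl hz))
    refine hE.L1 ts.isK.flip' h1 (Q := P ∪ (∅ ∪ {z})) ?_ ?_ k
    · rintro u (hu | hu | hu)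
      · exact ts.PC hu
      · exact hu.elim
      · have hu' : u = z := hu
        rw [hu']
        exact ts.zC
    · rintro u (hu | hu | hu)
      · intro g
        rcases g.flip with g | g | g | ⟨i, g⟩
        · exact ts.vP (g ▸ hu)
        · exact ts.eP (g ▸ hu)
        · exact ts.cP (g ▸ hu)
        · exact ts.PS i u hu g
      · exact hu.elim
      · have hu' : u = z := hu
        rw [hu']
        intro g
        rcases g.flip with g | g | g | ⟨i, g⟩
        · exact ts.zv g
        · exact ts.ze g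
        · exact ts.zc g
        · exact hzS i g

/-- **Closure at the center.** If the center is an exit, it is not reached from `h` outside of the
subdivision. -/
theorem lemK (hE : EYB adj h) {v e c : V} {S : Seg → Set V} (hk0 : IsK adj (Ch h) v e c S)
    (he : adj e h) {Q : Set V} (hQh : Q ⊆ Ch h) (hQ : ∀ u ∈ Q, ¬ OnK v e c S u)
    (hy : Conn adj Q h e) : False := by
  classical
  obtain ⟨r, hr⟩ := hE.flip.ranks
  have hen : ¬ adj h e := fun g => hE.center hk0 he g
  -- the last entry on the path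
  obtain ⟨u, huQ, hu, W, hWQ, hWn, hW⟩ : ∃ u ∈ Q, adj h u ∧ ∃ W : Set V, W ⊆ Q ∧
      (∀ y ∈ W, ¬ adj h y) ∧ Conn adj W u e := by
    rcases hy with hy | ⟨p, hp, q, hq, h1, h2, h3⟩
    · exact absurd hy hen
    · by_cases hqe : adj h q
      · exact ⟨q, hq, hqe, ∅, Set.empty_subset _, fun _ g => g.elim, Or.inl h3⟩
      · rcases last_exit (B := {y | adj h y}) h2 hqe with ⟨_, g⟩ | ⟨y, z, g1, g2, g3, g4, g5, g6, _⟩
        · exact absurd h1 g
        · have hzq : q ∈ Q \ {y | adj h y} := ⟨hq, hqe⟩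
          exact ⟨y, g1, g2, Q \ {y | adj h y}, Set.sdiff_subset, fun w hw => hw.2,
            Or.inr ⟨z, ⟨g3, g4⟩, q, hzq, g5, g6, h3⟩⟩
  have hXc : ((({u} : Finset V) : Set V)) = {u} := by simp
  have main : ∀ n : ℕ, ∀ (v c : V) (S : Seg → Set V), IsK adj (Ch h \ {u}) v e c S →
      (∀ y ∈ W, ¬ OnK v e c S y) → r c = n → False := by
    intro n
    induction n using Nat.strong_induction_on with
    | _ n ih =>
      intro v c S0 hk0 hW0 hn
      obtain ⟨S, hSS, hk, hmp⟩ := hk0.flip.shrink
      have hkh : IsK adj (Ch h) v e c S0 := hk0.le Set.sdiff_subset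
      have hc : ¬ adj c h := hE.third hkh he
      have hc' : adj h c := (hE.ey c hkh.cC).resolve_left hc
      have hWoff : ∀ y ∈ W, ¬ OnK c e v S y := fun y hy g => hW0 y hy (g.mono hSS).flip
      have hWC : W ⊆ Ch h \ {u} := by
        intro y hy
        refine ⟨hQh (hWQ hy), ?_⟩
        rintro rfl
        exact hWn _ hy hu
      obtain ⟨B', P, z, ts⟩ := tip_step hE.flip hr (X := {u}) (by simp) (hXc.symm ▸ hk) hc (Q := W)
        (hXc.symm ▸ hWC) (fun g => hWoff c g (Or.inl rfl))
        (fun i y hy g => hWoff y hy (Or.inr (Or.inr (Or.inr ⟨i, g⟩))))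
      rw [hXc] at ts
      set S2 : Seg → Set V := fun j => if j = Seg.b then B' else S j with hS2
      have s2 : ∀ j, j ≠ Seg.b → S2 j = S j := fun j hj => by simp only [hS2, if_neg hj]
      have hWS2 : ∀ y ∈ W, ¬ OnK c e v S2 y := by
        rintro y hy (g | g | g | ⟨i, g⟩)
        · exact hWoff y hy (Or.inl g)
        · exact hWoff y hy (Or.inr (Or.inl g))
        · exact hWoff y hy (Or.inr (Or.inr (Or.inl g)))
        · exact ts.SQ i y hy g
      have hPS2 : ∀ y ∈ P, ¬ OnK c e v S2 y := by
        rintro y hy (g | g | g | ⟨i, g⟩)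
        · exact ts.vP (g ▸ hy)
        · exact ts.eP (g ▸ hy)
        · exact ts.cP (g ▸ hy)
        · exact ts.PS i y hy g
      -- an exit outside
      have out : adj z h → (∀ i, z ∉ S2 i) → False := by
        intro hz hzS
        have k : Conn adj (P ∪ (∅ ∪ {z})) c h :=
          Or.inr (Conn.join (Conn_flip ts.conn) (Or.inl hz))
        have hkC : IsK adj (Ch h) v e c (fun i => S2 (rev i)) :=
          ts.isK.flip'.le Set.sdiff_subset
        refine hE.L1 hkC he (Q := P ∪ (∅ ∪ {z})) ?_ ?_ k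
        · rintro y (hy | hy | hy)
          · exact (ts.PC hy).1
          · exact hy.elim
          · have hy' : y = z := hy
            rw [hy']
            exact ts.zC.1
        · rintro y (hy | hy | hy)
          · exact fun g => hPS2 y hy g.flip
          · exact hy.elim
          · have hy' : y = z := hy
            rw [hy']
            intro g
            rcases g.flip with g | g | g | ⟨i, g⟩
            · exact ts.zv g
            · exact ts.ze g
            · exact ts.zc g
            · exact hzS i g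
      rcases ts.alt with ⟨i, hib, hz⟩ | hz | ⟨hz, hzS, hzQ⟩
      · have hk2 := ts.isK.restr (W := W) hWS2
        obtain ⟨S', hk'⟩ := hk2.tip_any (fun i hi => by
          rw [s2 i hi]
          exact hmp i) hib hz (R := P) (fun y hy => ⟨ts.PC hy, ts.PQ y hy⟩) ts.vP ts.eP ts.cP
          ts.PS ts.conn
        rcases hk' with ⟨_, hk'⟩ | ⟨_, hk'⟩
        · have hk3 := hk'.flip'
          have k : Conn adj (∅ ∪ (W ∪ {u})) h e := Or.inr (Conn.join (Or.inl hu) hW)
          refine hE.L2 (hk3.le (fun y hy => hy.1.1)) hc' (Q := ∅ ∪ (W ∪ {u})) ?_ ?_ k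
          · rintro y (hy | hy | hy)
            · exact hy.elim
            · exact (hWC hy).1
            · have hy' : y = u := hy
              rw [hy']
              exact hQh huQ
          · rintro y (hy | hy | hy)
            · exact hy.elim
            · exact fun g => (hk3.onK g).2 hy
            · exact fun g => (hk3.onK g).1.2 hy
        · have hk3 := hk'.flip'
          have hk4 : IsK adj (Ch h) c e z (fun i => S' (rev i)) := hk3.le (fun y hy => hy.1.1)
          have hz1 : ¬ adj z h := hE.third hk4 he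
          have hz2 : adj h z := (hE.ey z hk4.cC).resolve_left hz1
          exact ih (r z) (hn ▸ ts.rank hz2) c z _ (hk3.le (fun y hy => hy.1))
            (fun y hy g => (hk3.onK g).2 hy) rfl
      · refine out ?_ (fun i => ts.SQ i z hz)
        exact (hE.ey z ts.zC.1).resolve_right (hWn z hz)
      · exact out hz hzS
  refine main _ v c S (hk0.restr ?_) (fun y hy => hQ y (hWQ hy)) rfl
  intro y hy
  have hy' : y = u := hy
  rw [hy']
  exact hQ u huQ

end fin

end EYB

end Pool.Agent.H.MP_0cacf8
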