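import Pool.Agent.H.MP_0cacf8.EYLift
import Pool.Agent.H.MP_0cacf8.EYJ
import Pool.Agent.H.MP_0cacf8.EYG

/-!
# Existence of minimal sets with one in-neighbour; the reduction
-/

set_option autoImplicit false

namespace Pool.Agent.H.MP_0cacf8

open Relation Finset Pool.Agent.H.MP_0d008e_co

variable {V : Type*} {adj : V → V → Prop} {h : V}

/-- A set with only one in-neighbour. -/
structure PreFrag (adj : V → V → Prop) (h : V) (S : Set V) (z : V) : Prop where
  zh : z ≠ h
  zS : z ∉ S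
  Sh : ∀ y ∈ S, y ≠ h
  Sne : S.Nonempty
  One : ∃ o, o ≠ h ∧ o ≠ z ∧ o ∉ S
  ent : ∀ u, u ≠ h → u ∉ S → ∀ s ∈ S, adj u s → u = z

theorem exists_frag0 [Finite V] {S0 : Set V} {z0 : V} (h0 : PreFrag adj h S0 z0) :
    ∃ S z, Frag adj h S z := by
  classical
  have main : ∀ n : ℕ, ∀ (S : Set V) (z : V), S.ncard = n → PreFrag adj h S z →
      ∃ S z, Frag adj h S z := by
    intro n
    induction n using Nat.strong_induction_on with
    | _ n ih =>
      intro S z hn hF
      by_cases hm : ∀ A ⊆ S, A.Nonempty → A ≠ S → ∀ x, ∃ a ∈ A, ∃ u, u ≠ h ∧ u ∉ A ∧ u ≠ x ∧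
          adj u a
      · exact ⟨S, z, hF.zh, hF.zS, hF.Sh, hF.Sne, hF.One, hF.ent, hm⟩
      · push Not at hm
        obtain ⟨A, hAS, hAne, hAS', x, hx⟩ := hm
        have hlt : A.ncard < n := by
          rw [← hn]
          exact Set.ncard_lt_ncard (lt_of_le_of_ne hAS hAS') (Set.toFinite S)
        obtain ⟨s0, hs0, hs0A⟩ : ∃ s0 ∈ S, s0 ∉ A := by
          by_contra hcon
          push Not at hcon
          exact hAS' (Set.Subset.antisymm hAS hcon)
        obtain ⟨o, o1, o2, o3⟩ := hF.One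
        by_cases hxx : x ≠ h ∧ x ∉ A
        · refine ih _ hlt A x rfl ⟨hxx.1, hxx.2, fun y hy => hF.Sh y (hAS hy), hAne, ?_, ?_⟩
          · by_cases hxz : x = z
            · exact ⟨o, o1, hxz ▸ o2, fun g => o3 (hAS g)⟩
            · exact ⟨z, hF.zh, fun g => hxz g.symm, fun g => hF.zS (hAS g)⟩
          · intro u u1 u2 s hs us
            by_contra hux
            exact hx s hs u u1 u2 hux us
        · refine ih _ hlt A z rfl ⟨hF.zh, fun g => hF.zS (hAS g), fun y hy => hF.Sh y (hAS hy),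
            hAne, ⟨o, o1, o2, fun g => o3 (hAS g)⟩, ?_⟩
          intro u u1 u2 s hs us
          exfalso
          refine hx s hs u u1 u2 ?_ us
          rintro rfl
          exact hxx ⟨u1, u2⟩
  exact main _ S0 z0 rfl h0

section fin

variable [Fintype V] [DecidableEq V]

/-- Either we are in the 2-strong case, or there is a minimal set with one in-neighbour. -/
theorem EYB.frag (hE : EYB adj h) (ne : ∃ u, u ≠ h)
    (str : ∀ u w, u ≠ h → w ≠ h → RR adj (Ch h) u w)
    (in2 : ∀ u, u ≠ h → ∀ x, ∃ w, w ≠ h ∧ w ≠ x ∧ adj w u) : ∃ S z, Frag adj h S z := by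
  classical
  obtain ⟨u0, hu0⟩ := ne
  by_cases hs : ∀ x u w, u ≠ h → w ≠ h → u ≠ x → w ≠ x → RR adj (Ch h \ {x}) u w
  · exfalso
    have big : ∀ x y, ∃ z, z ≠ h ∧ z ≠ x ∧ z ≠ y := by
      intro x y
      by_cases h1 : u0 = x
      · subst h1
        obtain ⟨w, w1, w2, w3⟩ := in2 u0 hu0 y
        refine ⟨w, w1, ?_, w2⟩
        rintro rfl
        exact hE.irr _ w3
      · by_cases h2 : u0 = y
        · subst h2
          obtain ⟨w, w1, w2, w3⟩ := in2 u0 hu0 x
          refine ⟨w, w1, w2, ?_⟩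
          rintro rfl
          exact hE.irr _ w3
        · exact ⟨u0, hu0, h1, h2⟩
    have c2 : ∀ x y : V, ({x, y} : Finset V).card ≤ 3 := fun x y => by
      have := Finset.card_insert_le x ({y} : Finset V)
      rw [Finset.card_singleton] at this
      omega
    refine EY.false (adj := adj) (h := h) ⟨hE.irr, hE.ey, hs, big, ?_, ?_, ?_, ?_, hE.no⟩
    · intro u hu hux x y
      obtain ⟨w, w1, w2, w3⟩ := hE.dout u hu hux {x, y} (c2 x y)
      simp only [mem_insert, mem_singleton, not_or] at w2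
      exact ⟨w, w1, w2.1, w2.2, w3⟩
    · intro u hu hux x y
      obtain ⟨w, w1, w2, w3⟩ := hE.din u hu hux {x, y} (c2 x y)
      simp only [mem_insert, mem_singleton, not_or] at w2
      exact ⟨w, w1, w2.1, w2.2, w3⟩
    · rcases ReflTransGen.cases_head (hE.from_h u0) with g | ⟨w, g, _⟩
      · exact absurd g.symm hu0
      · exact ⟨w, g⟩
    · rcases ReflTransGen.cases_tail (hE.to_h u0) with g | ⟨w, _, g⟩
      · exact absurd g.symm hu0
      · exact ⟨w, g⟩
  · push Not at hs
    obtain ⟨x, u, w, u1, w1, ux, wx, hno⟩ := hs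
    have hxh : x ≠ h := by
      rintro rfl
      apply hno
      have : Ch x \ {x} = Ch x := by
        ext y
        simp
      rw [this]
      exact str u w u1 w1
    refine exists_frag0 (S0 := {y | y ≠ h ∧ y ≠ x ∧ ¬ RR adj (Ch h \ {x}) u y}) (z0 := x)
      ⟨hxh, fun g => g.2.1 rfl, fun y hy => hy.1, ⟨w, w1, wx, hno⟩,
        ⟨u, u1, ux, fun g => g.2.2 ReflTransGen.refl⟩, ?_⟩
    intro a a1 a2 s hs' as
    by_contra hax
    have har : RR adj (Ch h \ {x}) u a := by
      by_contra hcon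
      exact a2 ⟨a1, hax, hcon⟩
    exact hs'.2.2 (har.tail ⟨⟨a1, hax⟩, ⟨hs'.1, hs'.2.1⟩, as⟩)

end fin

end Pool.Agent.H.MP_0cacf8
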