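import Pool.Agent.H.MP_0cacf8.EYG

/-!
# A set of vertices in the place of the vertex adjacent to all others
-/

set_option autoImplicit false

namespace Pool.Agent.H.MP_0cacf8

open Relation Finset Pool.Agent.H.MP_0d008e_co

variable {V : Type*} {adj : V → V → Prop}

/-- the contraction of `Z` -/
def cn (adj : V → V → Prop) (Z : Set V) : Option {v // v ∉ Z} → Option {v // v ∉ Z} → Prop
  | some u, some w => adj u w
  | some u, none => ∃ z ∈ Z, adj u z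
  | none, some w => ∃ z ∈ Z, adj z w
  | none, none => False

/-- representatives; `Z` is represented by vertices where it is entered -/
def Rep (adj : V → V → Prop) (Z : Set V) : Option {v // v ∉ Z} → V → Prop
  | some u, x => x = u
  | none, x => x ∈ Z ∧ ∃ u, u ∉ Z ∧ adj u x

theorem rep_mem {Z S : Set V} {S' : Set (Option {v // v ∉ Z})}
    (h1 : ∀ u : {v // v ∉ Z}, some u ∈ S' → (u : V) ∈ S) (h2 : none ∈ S' → Z ⊆ S)
    {p : Option {v // v ∉ Z}} {x : V} (hp : p ∈ S') (hr : Rep adj Z p x) : x ∈ S := by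
  cases p with
  | none => exact h2 hp hr.1
  | some u =>
    have hr' : x = u := hr
    rw [hr']
    exact h1 u hp

theorem lift_walk {Z S : Set V} {S' : Set (Option {v // v ∉ Z})}
    (hZ : ∀ z ∈ Z, ∀ z' ∈ Z, (∃ u, u ∉ Z ∧ adj u z) → (∃ w, w ∉ Z ∧ adj z' w) → RR adj Z z z')
    (h1 : ∀ u : {v // v ∉ Z}, some u ∈ S' → (u : V) ∈ S) (h2 : none ∈ S' → Z ⊆ S)
    {p q : Option {v // v ∉ Z}} {x : V} (hx : Rep adj Z p x) (hr : RR (cn adj Z) S' p q) :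
    ∃ y, Rep adj Z q y ∧ RR adj S x y := by
  induction hr with
  | refl => exact ⟨x, hx, ReflTransGen.refl⟩
  | @tail q r _ hqr ih =>
    obtain ⟨y, hy, hxy⟩ := ih
    obtain ⟨hq, hr, hadj⟩ := hqr
    have hyS := rep_mem h1 h2 hq hy
    cases q with
    | none =>
      cases r with
      | none => exact hadj.elim
      | some w =>
        obtain ⟨z, hz, hzw⟩ := hadj
        have g1 := hZ y hy.1 z hz hy.2 ⟨w, w.2, hzw⟩
        exact ⟨w, rfl, ReflTransGen.tail (ReflTransGen.trans hxy (RR.mono (h2 hq) g1))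
          ⟨h2 hq hz, h1 w hr, hzw⟩⟩
    | some u =>
      have hy' : y = u := hy
      subst hy'
      cases r with
      | none =>
        obtain ⟨z, hz, huz⟩ := hadj
        exact ⟨z, ⟨hz, u, u.2, huz⟩, hxy.tail ⟨hyS, h2 hr hz, huz⟩⟩
      | some w =>
        have hadj' : adj u w := hadj
        exact ⟨w, rfl, hxy.tail ⟨hyS, h1 w hr, hadj'⟩⟩

theorem lift_conn {Z S : Set V} {S' : Set (Option {v // v ∉ Z})}
    (hZ : ∀ z ∈ Z, ∀ z' ∈ Z, (∃ u, u ∉ Z ∧ adj u z) → (∃ w, w ∉ Z ∧ adj z' w) → RR adj Z z z')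
    (h1 : ∀ u : {v // v ∉ Z}, some u ∈ S' → (u : V) ∈ S) (h2 : none ∈ S' → Z ⊆ S)
    {a b : {v // v ∉ Z}} (hc : Conn (cn adj Z) S' (some a) (some b)) : Conn adj S a b := by
  rcases hc with hc | ⟨p, hp, q, hq, g1, g2, g3⟩
  · exact Or.inl hc
  · obtain ⟨x, hx, hax⟩ : ∃ x, Rep adj Z p x ∧ adj a x := by
      cases p with
      | none =>
        obtain ⟨z, hz, haz⟩ := g1
        exact ⟨z, ⟨hz, a, a.2, haz⟩, haz⟩
      | some u => exact ⟨u, rfl, g1⟩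
    obtain ⟨y, hy, hxy⟩ := lift_walk hZ h1 h2 hx g2
    have hxS := rep_mem h1 h2 hp hx
    have hyS := rep_mem h1 h2 hq hy
    cases q with
    | none =>
      obtain ⟨z, hz, hzb⟩ := g3
      have k := hZ y hy.1 z hz hy.2 ⟨b, b.2, hzb⟩
      exact Or.inr ⟨x, hxS, z, h2 hq hz, hax, ReflTransGen.trans hxy (RR.mono (h2 hq) k), hzb⟩
    | some u =>
      have hy' : y = u := hy
      subst hy'
      exact Or.inr ⟨x, hxS, u, hyS, hax, hxy, g3⟩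

theorem K3set_of_cn {Z : Set V}
    (hZ : ∀ z ∈ Z, ∀ z' ∈ Z, (∃ u, u ∉ Z ∧ adj u z) → (∃ w, w ∉ Z ∧ adj z' w) → RR adj Z z z')
    (hk : K3off (cn adj Z) none) : K3set adj := by
  classical
  obtain ⟨a, b, c, lab, ⟨ha, hb, hc⟩, hab, hac, hbc, l1, l2, l3, g1, g2, g3, g4, g5, g6⟩ := hk
  obtain ⟨a, rfl⟩ := Option.ne_none_iff_exists'.1 ha
  obtain ⟨b, rfl⟩ := Option.ne_none_iff_exists'.1 hb
  obtain ⟨c, rfl⟩ := Option.ne_none_iff_exists'.1 hc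
  let lab' : V → ℕ := fun u => if hu : u ∈ Z then lab none else lab (some ⟨u, hu⟩)
  have e1 : ∀ u : {v // v ∉ Z}, lab' u = lab (some u) := by
    intro u
    simp only [lab', dif_neg u.2]
  have e2 : ∀ u ∈ Z, lab' u = lab none := by
    intro u hu
    simp only [lab', dif_pos hu]
  have k1 : ∀ i, ∀ u : {v // v ∉ Z}, some u ∈ {x | lab x = i} → (u : V) ∈ {x | lab' x = i} := by
    intro i u hu
    have hu' : lab (some u) = i := hu
    show lab' u = i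
    rw [e1 u, hu']
  have k2 : ∀ i, none ∈ {x | lab x = i} → Z ⊆ {x | lab' x = i} := by
    intro i hn u hu
    have hn' : lab none = i := hn
    show lab' u = i
    rw [e2 u hu, hn']
  refine ⟨a, b, c, lab', ?_, ?_, ?_, ?_, ?_, ?_, lift_conn hZ (k1 1) (k2 1) g1,
    lift_conn hZ (k1 2) (k2 2) g2, lift_conn hZ (k1 3) (k2 3) g3, lift_conn hZ (k1 4) (k2 4) g4,
    lift_conn hZ (k1 5) (k2 5) g5, lift_conn hZ (k1 6) (k2 6) g6⟩
  · exact fun g => hab (congrArg some (Subtype.ext g))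
  · exact fun g => hac (congrArg some (Subtype.ext g))
  · exact fun g => hbc (congrArg some (Subtype.ext g))
  · rw [e1 a, l1]
  · rw [e1 b, l2]
  · rw [e1 c, l3]

theorem cn_walk {Z : Set V} {x : V} {x' : Option {v // v ∉ Z}}
    (hx : ∀ y : {v // v ∉ Z}, (y : V) ≠ x → some y ≠ x') {u w : {v // v ∉ Z}} (hu : (u : V) ≠ x)
    (h : RR adj (Zᶜ \ {x}) u w) : RR (cn adj Z) (Ch none \ {x'}) (some u) (some w) := by
  have key : ∀ y : V, RR adj (Zᶜ \ {x}) u y → ∃ hy : y ∉ Z, y ≠ x ∧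
      RR (cn adj Z) (Ch none \ {x'}) (some u) (some ⟨y, hy⟩) := by
    intro y hy
    induction hy with
    | refl => exact ⟨u.2, hu, ReflTransGen.refl⟩
    | @tail y z _ hyz ih =>
      obtain ⟨h1, h2, h3⟩ := ih
      obtain ⟨g1, g2, g3⟩ := hyz
      refine ⟨g2.1, g2.2, h3.tail ⟨⟨?_, ?_⟩, ⟨?_, ?_⟩, g3⟩⟩
      · exact Option.some_ne_none _
      · exact hx ⟨y, h1⟩ h2
      · exact Option.some_ne_none _
      · exact hx ⟨z, g2.1⟩ g2.2
  obtain ⟨_, _, h3⟩ := key w h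
  exact h3

/-- **Theorem** for a set `Z`. -/
theorem ey_set [Finite V] (Z : Set V) (irr : ∀ u, ¬ adj u u)
    (hZ : ∀ z ∈ Z, ∀ z' ∈ Z, (∃ u, u ∉ Z ∧ adj u z) → (∃ w, w ∉ Z ∧ adj z' w) → RR adj Z z z')
    (ey : ∀ u, u ∉ Z → (∃ z ∈ Z, adj u z) ∨ (∃ z ∈ Z, adj z u))
    (str : ∀ x u w, u ∉ Z → w ∉ Z → u ≠ x → w ≠ x → RR adj (Zᶜ \ {x}) u w)
    (big : ∀ x y, ∃ z, z ∉ Z ∧ z ≠ x ∧ z ≠ y)
    (dout : ∀ u, u ∉ Z → (∀ z ∈ Z, ¬ adj u z) → ∀ x y, ∃ w, w ≠ x ∧ w ≠ y ∧ adj u w)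
    (din : ∀ u, u ∉ Z → (∀ z ∈ Z, ¬ adj z u) → ∀ x y, ∃ w, w ≠ x ∧ w ≠ y ∧ adj w u)
    (ent : ∃ z ∈ Z, ∃ w, w ∉ Z ∧ adj z w) (exi : ∃ z ∈ Z, ∃ w, w ∉ Z ∧ adj w z) :
    K3set adj := by
  classical
  have := Fintype.ofFinite V
  obtain ⟨z0, hz0, _⟩ := id ent
  -- a vertex of `V` for every vertex of the contraction
  have pick : ∀ x : Option {v // v ∉ Z}, ∃ x0 : V, ∀ y : {v // v ∉ Z}, (y : V) ≠ x0 →
      some y ≠ x := by
    intro x
    cases x with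
    | none => exact ⟨z0, fun y _ => Option.some_ne_none _⟩
    | some x =>
      refine ⟨x, fun y hy g => hy ?_⟩
      rw [Option.some.inj g]
  have pick' : ∀ x : Option {v // v ∉ Z}, ∃ x0 : V, ∀ y : {v // v ∉ Z}, some y ≠ x ↔
      (y : V) ≠ x0 := by
    intro x
    cases x with
    | none =>
      refine ⟨z0, fun y => ⟨fun _ g => y.2 (g ▸ hz0), fun _ => Option.some_ne_none _⟩⟩
    | some x =>
      refine ⟨x, fun y => ⟨fun hy g => hy ?_, fun hy g => hy ?_⟩⟩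
      · rw [Subtype.ext g]
      · rw [Option.some.inj g]
  refine K3set_of_cn hZ (ey2 (adj := cn adj Z) none ?_ ?_ ?_ ?_ ?_ ?_ ?_ ?_)
  · intro u
    cases u with
    | none => exact fun g => g
    | some u => exact irr u
  · intro u hu
    obtain ⟨u, rfl⟩ := Option.ne_none_iff_exists'.1 hu
    exact ey u u.2
  · intro x u w hu hw hux hwx
    obtain ⟨u, rfl⟩ := Option.ne_none_iff_exists'.1 hu
    obtain ⟨w, rfl⟩ := Option.ne_none_iff_exists'.1 hw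
    obtain ⟨x0, hx0⟩ := pick' x
    exact cn_walk (fun y hy => (hx0 y).2 hy) ((hx0 u).1 hux)
      (str x0 u w u.2 w.2 ((hx0 u).1 hux) ((hx0 w).1 hwx))
  · intro x y
    obtain ⟨x0, hx0⟩ := pick' x
    obtain ⟨y0, hy0⟩ := pick' y
    obtain ⟨z, h1, h2, h3⟩ := big x0 y0
    exact ⟨some ⟨z, h1⟩, Option.some_ne_none _, (hx0 ⟨z, h1⟩).2 h2, (hy0 ⟨z, h1⟩).2 h3⟩
  · intro u hu hno x y
    obtain ⟨u, rfl⟩ := Option.ne_none_iff_exists'.1 hu
    obtain ⟨x0, hx0⟩ := pick' x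
    obtain ⟨y0, hy0⟩ := pick' y
    have hno' : ∀ z ∈ Z, ¬ adj u z := fun z hz g => hno ⟨z, hz, g⟩
    obtain ⟨w, h2, h3, h4⟩ := dout u u.2 hno' x0 y0
    have h1 : w ∉ Z := fun g => hno' w g h4
    exact ⟨some ⟨w, h1⟩, Option.some_ne_none _, (hx0 ⟨w, h1⟩).2 h2, (hy0 ⟨w, h1⟩).2 h3, h4⟩
  · intro u hu hno x y
    obtain ⟨u, rfl⟩ := Option.ne_none_iff_exists'.1 hu
    obtain ⟨x0, hx0⟩ := pick' x
    obtain ⟨y0, hy0⟩ := pick' y
    have hno' : ∀ z ∈ Z, ¬ adj z u := fun z hz g => hno ⟨z, hz, g⟩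
    obtain ⟨w, h2, h3, h4⟩ := din u u.2 hno' x0 y0
    have h1 : w ∉ Z := fun g => hno' w g h4
    exact ⟨some ⟨w, h1⟩, Option.some_ne_none _, (hx0 ⟨w, h1⟩).2 h2, (hy0 ⟨w, h1⟩).2 h3, h4⟩
  · obtain ⟨z, hz, w, hw, g⟩ := ent
    exact ⟨some ⟨w, hw⟩, z, hz, g⟩
  · obtain ⟨z, hz, w, hw, g⟩ := exi
    exact ⟨some ⟨w, hw⟩, z, hz, g⟩

end Pool.Agent.H.MP_0cacf8
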