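import Pool.Agent.H.MP_0cacf8.EYE

/-!
# Hub pairs without connectivity assumption: steps of the tip, forbidden types
-/

set_option autoImplicit false

namespace Pool.Agent.H.MP_0cacf8

open Relation Finset Pool.Agent.H.MP_0d008e_co

variable {V : Type*} {adj : V → V → Prop}

/-- A hub pair: `h` reaches and is reached from every vertex, every other vertex is joined to `h`, non-exits have
out-degree and non-entries have in-degree at least four outside `h`. -/
structure EYB (adj : V → V → Prop) (h : V) : Prop where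
  irr : ∀ u, ¬ adj u u
  ey : ∀ u, u ≠ h → adj u h ∨ adj h u
  dout : ∀ u, u ≠ h → ¬ adj u h → ∀ X : Finset V, X.card ≤ 3 → ∃ w, w ≠ h ∧ w ∉ X ∧ adj u w
  din : ∀ u, u ≠ h → ¬ adj h u → ∀ X : Finset V, X.card ≤ 3 → ∃ w, w ≠ h ∧ w ∉ X ∧ adj w u
  from_h : ∀ u, ReflTransGen adj h u
  to_h : ∀ u, ReflTransGen adj u h
  no : ¬ K3off adj h

theorem rtg_flip' {a b : V} (h : ReflTransGen adj a b) :
    ReflTransGen (fun x y => adj y x) b a := by
  induction h with
  | refl => exact ReflTransGen.refl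
  | tail _ h ih => exact ReflTransGen.head h ih

theorem EYB.flip {h : V} (hE : EYB adj h) : EYB (fun x y => adj y x) h where
  irr := hE.irr
  ey := fun u hu => (hE.ey u hu).symm
  dout := hE.din
  din := hE.dout
  from_h := fun u => rtg_flip' (hE.to_h u)
  to_h := fun u => rtg_flip' (hE.from_h u)
  no := fun g => hE.no (K3off_flip g)

/-- the rank condition -/
def RankOK (adj : V → V → Prop) (h : V) (r : V → ℕ) : Prop :=
  ∀ u w w', adj u h → adj w h → adj w' h → w ≠ w' → adj w u → adj w' u → r w < r u ∨ r w' < r u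

theorem low_rank' {h : V} (ey : ∀ u, u ≠ h → adj u h ∨ adj h u) {r : V → ℕ} {M P : Set V}
    {z v : V} (hP : P ⊆ Ch h) (hc : Conn (low adj h r M) P z v) (hz : adj z h) : r z < r v := by
  rcases hc with hc | ⟨p, hp, q, hq, h1, h2, h3⟩
  · exact hc.2.2.2 hz
  · have hex : ∀ y ∈ P, ¬ adj h y → adj y h := fun y hy g => (ey y (hP hy)).resolve_right g
    have key : ∀ y, RR (low adj h r M) P p y → adj y h ∧ r z < r y := by
      intro y hy
      induction hy with
      | refl => exact ⟨hex p hp h1.2.1, h1.2.2.2 hz⟩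
      | @tail y w _ hyw ih =>
        exact ⟨hex w hyw.2.1 hyw.2.2.2.1, ih.2.trans (hyw.2.2.2.2.2 ih.1)⟩
    have := key q h2
    exact this.2.trans (h3.2.2.2 this.1)

namespace IsK

variable {C : Set V} {v e c : V} {S : Seg → Set V}

/-- the new subdivision after a move of the tip -/
theorem tip_any (h : IsK adj C v e c S) (hm : ∀ i, i ≠ .b → MP adj (S i) (src v e c i) (dst v e c i))
    {x : V} {i : Seg} (hib : i ≠ .b) (hx : x ∈ S i)
    {R : Set V} (hR : R ⊆ C) (nv : v ∉ R) (ne : e ∉ R) (nc : c ∉ R) (hRS : ∀ j, ∀ u ∈ R, u ∉ S j)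
    (h3 : Conn adj R x v) : ∃ S' : Seg → Set V,
      ((i = .a1 ∨ i = .a2) ∧ IsK adj C x v e S') ∨ ((i = .b2 ∨ i = .c1) ∧ IsK adj C x e v S') := by
  cases i with
  | b => exact absurd rfl hib
  | a1 =>
    obtain ⟨S', hk⟩ := h.tip_a1 (hm _ hib) hx hR nv ne nc hRS h3
    exact ⟨S', Or.inl ⟨Or.inl rfl, hk⟩⟩
  | a2 =>
    obtain ⟨S', hk⟩ := h.tip_a2 (hm _ hib) hx hR nv ne nc hRS h3
    exact ⟨S', Or.inl ⟨Or.inr rfl, hk⟩⟩
  | b2 =>
    obtain ⟨S', hk⟩ := h.tip_b2 (hm _ hib) hx hR nv ne nc hRS h3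
    exact ⟨S', Or.inr ⟨Or.inl rfl, hk⟩⟩
  | c1 =>
    obtain ⟨S', hk⟩ := h.tip_c1 (hm _ hib) hx hR nv ne nc hRS h3
    exact ⟨S', Or.inr ⟨Or.inr rfl, hk⟩⟩

end IsK

section fin

variable [Fintype V] [DecidableEq V]

theorem EYB.ranks {h : V} (hE : EYB adj h) : ∃ r : V → ℕ, RankOK adj h r := by
  classical
  have key : ∀ n : ℕ, ∀ Y : Finset V, Y.card = n → (∀ y ∈ Y, adj y h) →
      ∃ r : V → ℕ, ∀ u ∈ Y, ∀ w ∈ Y, ∀ w' ∈ Y, w ≠ w' → adj w u → adj w' u →
        r w < r u ∨ r w' < r u := by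
    intro n
    induction n with
    | zero =>
      intro Y hY _
      rw [Finset.card_eq_zero] at hY
      subst hY
      exact ⟨fun _ => 0, fun u hu => absurd hu (notMem_empty u)⟩
    | succ n ih =>
      intro Y hY hex
      have hne : Y.Nonempty := by
        rw [← Finset.card_pos]
        omega
      have hbad : ∃ u ∈ Y, ∀ w ∈ Y, ∀ w' ∈ Y, w ≠ w' → adj w u → adj w' u → False := by
        by_contra hcon
        push Not at hcon
        apply hE.no
        refine thmE_off h Y hne (fun g => hE.irr h (hex h g)) ?_ ?_ ?_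
        · intro x hx
          obtain ⟨w, hw, w', hw', h1, h2, h3, _⟩ := hcon x hx
          refine ⟨w, hw, w', hw', h1, ?_, ?_, h2, h3⟩
          · rintro rfl
            exact hE.irr w h2
          · rintro rfl
            exact hE.irr w' h3
        · intro x hx
          exact hE.from_h x
        · intro x hx
          exact ReflTransGen.single ⟨hex x hx, fun g => hE.irr h (hex h g)⟩
      obtain ⟨u0, hu0, hb⟩ := hbad
      obtain ⟨r, hr⟩ := ih (Y.erase u0) (by rw [Finset.card_erase_of_mem hu0]; omega)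
        (fun y hy => hex y (mem_of_mem_erase hy))
      refine ⟨fun y => if y = u0 then 0 else r y + 1, ?_⟩
      intro u hu w hw w' hw' hne' h1 h2
      by_cases huu : u = u0
      · subst huu
        exact (hb w hw w' hw' hne' h1 h2).elim
      · by_cases hwu : w = u0
        · left
          simp [hwu, huu]
        · by_cases hwu' : w' = u0
          · right
            simp [hwu', huu]
          · rcases hr u (mem_erase.2 ⟨huu, hu⟩) w (mem_erase.2 ⟨hwu, hw⟩) w'
              (mem_erase.2 ⟨hwu', hw'⟩) hne' h1 h2 with g | g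
            · left
              simp [huu, hwu, g]
            · right
              simp [huu, hwu', g]
  obtain ⟨r, hr⟩ := key _ ((univ : Finset V).filter (fun y => adj y h)) rfl
    (fun y hy => (mem_filter.1 hy).2)
  exact ⟨r, fun u w w' h1 h2 h3 h4 h5 h6 => hr u (mem_filter.2 ⟨mem_univ _, h1⟩) w
    (mem_filter.2 ⟨mem_univ _, h2⟩) w' (mem_filter.2 ⟨mem_univ _, h3⟩) h4 h5 h6⟩

/-- two disjoint low paths into `v`, avoiding `X` -/
theorem fan_low' {h : V} (hE : EYB adj h) {r : V → ℕ} (hr : RankOK adj h r) {X : Finset V}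
    (hX : X.card ≤ 1) {M : Set V} (hM : M ⊆ Ch h \ (X : Set V)) (hne : M.Nonempty) {v : V}
    (hvh : v ∈ Ch h \ (X : Set V)) (hv : ¬ adj h v) (hvM : v ∉ M) :
    ∃ (T0 T1 : Set V) (r0 r1 : V), Disjoint T0 T1 ∧ T0 ⊆ Ch h \ (X : Set V) ∧
      T1 ⊆ Ch h \ (X : Set V) ∧
      FP (low adj h r M) {y | y ∈ Ch h \ (X : Set V) ∧ (y ∈ M ∨ adj h y)} M T0 r0 v ∧
      FP (low adj h r M) {y | y ∈ Ch h \ (X : Set V) ∧ (y ∈ M ∨ adj h y)} M T1 r1 v := by
  classical
  set C : Finset V := (univ.erase h) \ X with hCdef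
  have hcoe : (C : Set V) = Ch h \ (X : Set V) := by
    rw [hCdef]
    ext y
    simp
  set E : Finset V := C.filter (fun y => y ∈ M ∨ adj h y) with hEdef
  have mE : ∀ y, y ∈ E ↔ y ∈ Ch h \ (X : Set V) ∧ (y ∈ M ∨ adj h y) := by
    intro y
    rw [hEdef, mem_filter, ← hcoe]
    exact Iff.rfl
  have hvE : v ∉ E := by
    rw [mE]
    rintro ⟨_, g | g⟩
    · exact hvM g
    · exact hv g
  obtain ⟨m, hm⟩ := hne
  have key : ∀ s : V, ∀ n : ℕ, ∀ u, u ∈ Ch h \ (X : Set V) → u ≠ s → r u = n →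
      ∃ r0 ∈ E, r0 ≠ s ∧ RR (low adj h r M) ((C : Set V) \ {s}) r0 u := by
    intro s n
    induction n using Nat.strong_induction_on with
    | _ n ih =>
      intro u hu hus hn
      by_cases huE : u ∈ E
      · exact ⟨u, huE, hus, ReflTransGen.refl⟩
      · have hu' : u ∉ M ∧ ¬ adj h u := by
          rw [mE] at huE
          exact ⟨fun g => huE ⟨hu, Or.inl g⟩, fun g => huE ⟨hu, Or.inr g⟩⟩
        have hue : adj u h := (hE.ey u hu.1).resolve_right hu'.2
        obtain ⟨w, hwh, hws, hwl⟩ : ∃ w, w ∈ Ch h \ (X : Set V) ∧ w ≠ s ∧ low adj h r M w u := by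
          obtain ⟨w1, a1, a2, a4⟩ := hE.din u hu.1 hu'.2 (insert s X)
            ((Finset.card_insert_le _ _).trans (by omega))
          rw [mem_insert, not_or] at a2
          by_cases g1 : adj w1 h → r w1 < r u
          · exact ⟨w1, ⟨a1, a2.2⟩, a2.1, a4, hu'.2, hu'.1, g1⟩
          · push Not at g1
            obtain ⟨w2, b1, b2, b4⟩ := hE.din u hu.1 hu'.2 (insert w1 (insert s X))
              ((Finset.card_insert_le _ _).trans (by
                have := Finset.card_insert_le s X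
                omega))
            rw [mem_insert, mem_insert, not_or, not_or] at b2
            refine ⟨w2, ⟨b1, b2.2.2⟩, b2.2.1, b4, hu'.2, hu'.1, ?_⟩
            intro g2
            rcases hr u w1 w2 hue g1.1 g2 (fun g => b2.1 g.symm) a4 b4 with g3 | g3
            · exact absurd g3 (by omega)
            · exact g3
        have harc : Induced (low adj h r M) ((C : Set V) \ {s}) w u :=
          ⟨⟨hcoe ▸ hwh, hws⟩, ⟨hcoe ▸ hu, hus⟩, hwl⟩
        by_cases hwE : w ∈ E
        · exact ⟨w, hwE, hws, ReflTransGen.single harc⟩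
        · have hwx : adj w h := by
            rw [mE] at hwE
            exact (hE.ey w hwh.1).resolve_right (fun g => hwE ⟨hwh, Or.inr g⟩)
          obtain ⟨r0, c1, c2, c3⟩ := ih (r w) (hn ▸ hwl.2.2.2 hwx) w hwh hws rfl
          exact ⟨r0, c1, c2, c3.tail harc⟩
  obtain ⟨T, r', hd, hT⟩ := fan (adj := low adj h r M) C E v (filter_subset _ _) hvE
    ⟨m, (mE m).2 ⟨hM hm, Or.inl hm⟩⟩ (fun s hs => key s _ v hvh hs.symm rfl)
  rw [hcoe] at hT
  refine ⟨T 0, T 1, r' 0, r' 1, hd, fun y hy => ((hT 0).1 hy).1, fun y hy => ((hT 1).1 hy).1,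
    ⟨(mE _).1 (hT 0).2.1, (hT 0).2.2.1, fun g => ((hT 0).1 g).2 rfl, (hT 0).2.2.2⟩,
    ⟨(mE _).1 (hT 1).2.1, (hT 1).2.2.1, fun g => ((hT 1).1 g).2 rfl, (hT 1).2.2.2⟩⟩

/-- The result of a step of the tip. -/
structure TipStep (adj : V → V → Prop) (h : V) (r : V → ℕ) (C Q : Set V) (v e c : V)
    (S2 : Seg → Set V) (P : Set V) (z : V) : Prop where
  isK : IsK adj C v e c S2
  SQ : ∀ i, ∀ u ∈ Q, u ∉ S2 i
  PC : P ⊆ C
  vP : v ∉ P
  eP : e ∉ P
  cP : c ∉ P
  PS : ∀ i, ∀ u ∈ P, u ∉ S2 i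
  PQ : ∀ u ∈ P, u ∉ Q
  zC : z ∈ C
  zP : z ∉ P
  zv : z ≠ v
  ze : z ≠ e
  zc : z ≠ c
  conn : Conn adj P z v
  rank : adj z h → r z < r v
  alt : (∃ i, i ≠ Seg.b ∧ z ∈ S2 i) ∨ z ∈ Q ∨ (adj h z ∧ (∀ i, z ∉ S2 i) ∧ z ∉ Q)

theorem tip_step {h : V} (hE : EYB adj h) {r : V → ℕ} (hr : RankOK adj h r) {X : Finset V}
    (hX : X.card ≤ 1) {v e c : V} {S : Seg → Set V} (hk : IsK adj (Ch h \ (X : Set V)) v e c S)
    (hv : ¬ adj h v) {Q : Set V} (hQC : Q ⊆ Ch h \ (X : Set V)) (hvQ : v ∉ Q)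
    (hQS : ∀ i, ∀ u ∈ Q, u ∉ S i) :
    ∃ B' P z, TipStep adj h r (Ch h \ (X : Set V)) Q v e c
      (fun j => if j = Seg.b then B' else S j) P z := by
  classical
  set C : Set V := Ch h \ (X : Set V) with hC
  set M : Set V := {y | y = e ∨ y = c ∨ (∃ i, i ≠ Seg.b ∧ y ∈ S i) ∨ y ∈ Q} with hM
  have hMC : M ⊆ C := by
    rintro y (g | g | ⟨i, _, g⟩ | g)
    · rw [g]
      exact hk.eC
    · rw [g]
      exact hk.cC
    · exact hk.sub i g
    · exact hQC g
  have heM : e ∈ M := Or.inl rfl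
  have hcM : c ∈ M := Or.inr (Or.inl rfl)
  have hvM : v ∉ M := by
    rintro (g | g | ⟨i, _, g⟩ | g)
    · exact hk.ve g
    · exact hk.vc g
    · exact hk.nv i g
    · exact hvQ g
  obtain ⟨T0, T1, r0, r1, hd, hT0, hT1, f0, f1⟩ := fan_low' hE hr hX hMC ⟨e, heM⟩ hk.vC hv hvM
  have hL : ∀ u w, low adj h r M u w → w ∉ M := fun u w g => g.2.2.1
  have hBM : ∀ y ∈ S .b, y ∉ M := by
    rintro y hy (g | g | ⟨i, hi, g⟩ | g)
    · rw [g] at hy
      exact hk.ne _ hy
    · rw [g] at hy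
      exact hk.nc _ hy
    · exact hk.disj i .b hi y g hy
    · exact hQS .b y g hy
  obtain ⟨B', P, z, z1, z2, z3, z4, z5, z6, z7, z8, z9⟩ :=
    exch hL (fun u w g => g.1) f0 f1 hd heM hBM (hk.conn .b)
  have hB'C : B' ⊆ C := by
    intro y hy
    rcases (z8 y hy).1 with g | g | g
    · exact hk.sub _ g
    · exact hT0 g
    · exact hT1 g
  have hPC : P ⊆ C := by
    intro y hy
    rcases (z9 y hy).1 with g | g
    · exact hT0 g
    · exact hT1 g
  have hvP : v ∉ P := by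
    intro g
    rcases (z9 v g).1 with g | g
    · exact f0.vT g
    · exact f1.vT g
  have hvB' : v ∉ B' := by
    intro g
    rcases (z8 v g).1 with g | g | g
    · exact hk.nv _ g
    · exact f0.vT g
    · exact f1.vT g
  have heP : e ∉ P := fun g => (z9 e g).2.1 heM
  have hcP : c ∉ P := fun g => (z9 c g).2.1 hcM
  have hk2 := hk.repl .b hk.vC hk.eC hk.cC hB'C (fun j _ => hk.sub j) hvB'
    (fun g => (z8 e g).2 heM) (fun g => (z8 c g).2 hcM)
    (fun j hj u hu g => (z8 u hu).2 (Or.inr (Or.inr (Or.inl ⟨j, hj, g⟩)))) z6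
    (fun j _ => hk.conn j)
  set S2 : Seg → Set V := fun j => if j = Seg.b then B' else S j with hS2
  have s2 : ∀ j, j ≠ Seg.b → S2 j = S j := fun j hj => by simp only [hS2, if_neg hj]
  have s2b : S2 .b = B' := by simp only [hS2, if_true]
  have hPS : ∀ j, ∀ u ∈ P, u ∉ S2 j := by
    intro j u hu g
    by_cases hj : j = Seg.b
    · rw [hj, s2b] at g
      exact (z9 u hu).2.2 g
    · rw [s2 j hj] at g
      exact (z9 u hu).2.1 (Or.inr (Or.inr (Or.inl ⟨j, hj, g⟩)))
  have hPa : Conn adj P z v := Conn.congr (fun u w _ _ g => g.1) z7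
  have hzc : z ≠ c := by
    rintro rfl
    exact hE.no (K3_of (hk2.mono Set.sdiff_subset (fun _ _ g => g)) hvP heP hcP hPS hPa)
  refine ⟨B', P, z, ⟨hk2, ?_, hPC, hvP, heP, hcP, hPS, ?_, z1.1, z5, z3, z2, hzc, hPa, ?_, ?_⟩⟩
  · intro i u hu g
    by_cases hi : i = Seg.b
    · have g' : u ∈ S2 i := g
      rw [hi, s2b] at g'
      exact (z8 u g').2 (Or.inr (Or.inr (Or.inr hu)))
    · have g' : u ∈ S2 i := g
      rw [s2 i hi] at g'
      exact hQS i u hu g'
  · exact fun u hu g => (z9 u hu).2.1 (Or.inr (Or.inr (Or.inr g)))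
  · exact fun hz => low_rank' hE.ey (fun y hy => (hPC hy).1) z7 hz
  · by_cases hzM : z ∈ M
    · rcases hzM with g | g | ⟨i, hi, g⟩ | g
      · exact absurd g z2
      · exact absurd g hzc
      · refine Or.inl ⟨i, hi, ?_⟩
        show z ∈ S2 i
        rw [s2 i hi]
        exact g
      · exact Or.inr (Or.inl g)
    · have hz : adj h z := z1.2.resolve_left hzM
      refine Or.inr (Or.inr ⟨hz, ?_, fun g => hzM (Or.inr (Or.inr (Or.inr g)))⟩)
      intro i g
      by_cases hi : i = Seg.b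
      · have g' : z ∈ S2 i := g
        rw [hi, s2b] at g'
        exact z4 g'
      · have g' : z ∈ S2 i := g
        rw [s2 i hi] at g'
        exact hzM (Or.inr (Or.inr (Or.inl ⟨i, hi, g'⟩)))

end fin

end Pool.Agent.H.MP_0cacf8
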