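import Pool.Agent.H.MP_0cacf8.GArc

/-!
# The torso of a minimal set with only one in-neighbour
-/

set_option autoImplicit false
set_option linter.unusedSimpArgs false

namespace Pool.Agent.H.MP_0cacf8

open Relation Finset Pool.Agent.H.MP_0d008e_co

variable {V : Type*} {adj : V → V → Prop} {h z : V} {S : Set V}

/-- A set with only one in-neighbour, not everything. -/
structure Pre (adj : V → V → Prop) (h : V) (S : Set V) (z : V) : Prop where
  zh : z ≠ h
  zS : z ∉ S
  Sh : ∀ y ∈ S, y ≠ h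
  Sne : S.Nonempty
  One : ∃ o, o ≠ h ∧ o ≠ z ∧ o ∉ S
  ent : ∀ u, u ≠ h → u ∉ S → ∀ s ∈ S, adj u s → u = z

/-- A minimal set with only one in-neighbour. -/
structure Frag (adj : V → V → Prop) (h : V) (S : Set V) (z : V) : Prop where
  zh : z ≠ h
  zS : z ∉ S
  Sh : ∀ y ∈ S, y ≠ h
  Sne : S.Nonempty
  One : ∃ o, o ≠ h ∧ o ≠ z ∧ o ∉ S
  ent : ∀ u, u ≠ h → u ∉ S → ∀ s ∈ S, adj u s → u = z
  min : ∀ A ⊆ S, A.Nonempty → A ≠ S → ∀ x, ∃ a ∈ A, ∃ u, u ≠ h ∧ u ∉ A ∧ u ≠ x ∧ adj u a

theorem Frag.toPre (hF : Frag adj h S z) : Pre adj h S z :=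
  ⟨hF.zh, hF.zS, hF.Sh, hF.Sne, hF.One, hF.ent⟩

/-- the vertices outside -/
def Out (h z : V) (S : Set V) : Set V := {y | y ≠ h ∧ y ≠ z ∧ y ∉ S}

/-- The torso of `S`: everything outside is contracted to `z`. -/
def gam (adj : V → V → Prop) (h z : V) (S : Set V) (a b : V) : Prop :=
  (b ∈ S ∧ (a ∈ S ∨ a = z) ∧ adj a b) ∨ (a ∈ S ∧ b = z ∧ ∃ o, o ≠ h ∧ o ∉ S ∧ adj a o)

namespace Pre

section str

variable (hstr : ∀ u w, u ≠ h → w ≠ h → RR adj (Ch h) u w)
include hstr

/-- a vertex entering `S` -/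
theorem ent_ex (hF : Pre adj h S z) : ∃ n ∈ S, adj z n := by
  obtain ⟨s, hs⟩ := hF.Sne
  rcases first_hit (B := S) (hstr z s hF.zh (hF.Sh s hs)) hF.zS with
    g | ⟨y, t, _, g2, g3, _, g5, g6, _⟩
  · exact absurd hs g.2
  · have := hF.ent y g2 g3 t g5 g6
    subst this
    exact ⟨t, g5, g6⟩

/-- everything outside reaches `z` outside -/
theorem reach (hF : Pre adj h S z) {o : V} (ho : o ∈ Out h z S) :
    ∃ y ∈ Out h z S, RR adj (Out h z S) o y ∧ adj y z := by
  obtain ⟨s, hs⟩ := hF.Sne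
  rcases first_hit (B := S ∪ {z}) (hstr o s ho.1 (hF.Sh s hs))
    (by rintro (g | g); exacts [ho.2.2 g, ho.2.1 g]) with g | ⟨y, t, g1, g2, g3, _, g5, g6, _⟩
  · exact absurd (Or.inl hs) g.2
  · have hy : y ∈ Out h z S := ⟨g2, fun k => g3 (Or.inr k), fun k => g3 (Or.inl k)⟩
    have ht : t = z := by
      rcases g5 with k | k
      · exact absurd (hF.ent y g2 hy.2.2 t k g6) hy.2.1
      · exact k
    subst ht
    refine ⟨y, hy, RR.mono ?_ g1, g6⟩
    intro w hw
    exact ⟨hw.1, fun k => hw.2 (Or.inr k), fun k => hw.2 (Or.inl k)⟩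

/-- an arc of the torso is a path with interior outside -/
theorem gam_arc (hF : Pre adj h S z) {a b : V} (hab : gam adj h z S a b) :
    Conn adj (Out h z S) a b := by
  rcases hab with ⟨_, _, g⟩ | ⟨_, rfl, o, h1, h2, h3⟩
  · exact Or.inl g
  · by_cases hoz : o = b
    · subst hoz
      exact Or.inl h3
    · have ho : o ∈ Out h b S := ⟨h1, hoz, h2⟩
      obtain ⟨y, hy, h4, h5⟩ := hF.reach hstr ho
      exact Or.inr ⟨o, ho, y, hy, h3, h4, h5⟩

/-- a walk of the torso is a walk -/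
theorem gam_conn (hF : Pre adj h S z) {W : Set V} {a b : V}
    (hc : Conn (gam adj h z S) W a b) : Conn adj (W ∪ Out h z S) a b := by
  rcases hc with g | ⟨p, hp, q, hq, g1, g2, g3⟩
  · exact Conn.mono Set.subset_union_right (hF.gam_arc hstr g)
  · have step : ∀ {x y : V}, x ∈ W → y ∈ W → gam adj h z S x y →
        RR adj (W ∪ Out h z S) x y := by
      intro x y hx hy g
      rcases hF.gam_arc hstr g with k | ⟨p, hp, q, hq, k1, k2, k3⟩
      · exact ReflTransGen.single ⟨Or.inl hx, Or.inl hy, k⟩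
      · exact ReflTransGen.head ⟨Or.inl hx, Or.inr hp, k1⟩
          ((RR.mono Set.subset_union_right k2).tail ⟨Or.inr hq, Or.inl hy, k3⟩)
    have key : ∀ w, RR (gam adj h z S) W p w → RR adj (W ∪ Out h z S) p w := by
      intro w hw
      induction hw with
      | refl => exact ReflTransGen.refl
      | tail _ hxy ih => exact ih.trans (step hxy.1 hxy.2.1 hxy.2.2)
    have g2' := key q g2
    have k1 := hF.gam_arc hstr g1
    have k3 := hF.gam_arc hstr g3
    have hsub : Out h z S ∪ (W ∪ Out h z S) ⊆ W ∪ Out h z S :=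
      Set.union_subset Set.subset_union_right (Set.Subset.refl _)
    rcases k3 with k3 | ⟨p', hp', q', hq', m1, m2, m3⟩
    · exact Or.inr (ConnN.mono hsub (Conn.glue k1 (Or.inl hp) (Or.inl hq) g2' k3))
    · refine Or.inr (ConnN.mono hsub (Conn.glue k1 (Or.inl hp) (Or.inr hq') ?_ m3))
      exact g2'.trans (ReflTransGen.head ⟨Or.inl hq, Or.inr hp', m1⟩
        (RR.mono Set.subset_union_right m2))

end str

end Pre

namespace Frag


/-- a walk of the torso which does not enter `z` -/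
theorem gam_conn' {W : Set V} {a b : V} (hzW : z ∉ W) (hbz : b ≠ z)
    (hc : Conn (gam adj h z S) W a b) : Conn adj W a b := by
  have key : ∀ {x y : V}, y ≠ z → gam adj h z S x y → adj x y := by
    rintro x y hy (⟨_, _, g⟩ | ⟨_, g, _⟩)
    · exact g
    · exact absurd g hy
  refine Conn.congr ?_ hc
  rintro u w _ (g | g) k
  · exact key (g ▸ hbz) k
  · exact key (fun e => hzW (e ▸ g)) k

theorem gam_head {W : Set V} {a b : V} (hzW : z ∉ W) (hc : Head (gam adj h z S) W a b) :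
    Head adj W a b := by
  have key : ∀ {x y : V}, y ∈ W → gam adj h z S x y → adj x y := by
    rintro x y hy (⟨_, _, g⟩ | ⟨_, g, _⟩)
    · exact g
    · exact absurd (g ▸ hy) hzW
  rcases hc with g | ⟨hb, p, hp, g1, g2⟩
  · exact Or.inl g
  · exact Or.inr ⟨hb, p, hp, key hp g1, RR.congr (fun u _ w hw k => key hw k) g2⟩

end Frag

theorem head_conn {U W : Set V} {a p b : V} (h1 : Head adj U a p) (h2 : Conn adj W p b) :
    Conn adj (U ∪ W) a b := by
  obtain ⟨w, g1, g2⟩ := h2.first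
  exact bypass h1 g1 g2

/-- The vertices of a subdivision minus an arc. -/
def KV (v e c : V) (S : Seg → Set V) : Set V := {u | u = v ∨ u = e ∨ u = c ∨ ∃ i, u ∈ S i}

section

/-- Lifting subdivisions minus an arc of the torso, third vertex in `S`. -/
theorem Pre.lift1 (hstr : ∀ u w, u ≠ h → w ≠ h → RR adj (Ch h) u w) (hF : Pre adj h S z)
    {v e c : V} {T : Seg → Set V} (hk : IsK (gam adj h z S) (insert z S) v e c T) (he : e ∈ S)
    (hcz : c ≠ z) :
    ∃ T' : Seg → Set V, IsK adj (Ch h) v e c T' ∧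
      (∀ u ∈ S, u ∈ KV v e c T' → u ∈ KV v e c T) ∧ (z ∉ KV v e c T → T' = T) := by
  classical
  have hSz : insert z S ⊆ Ch h := by
    rintro y (g | g)
    · rw [g]
      exact hF.zh
    · exact hF.Sh y g
  have hez : e ≠ z := fun g => hF.zS (g ▸ he)
  have hO : ∀ y ∈ Out h z S, y ∉ insert z S := by
    rintro y hy (g | g)
    · exact hy.2.1 g
    · exact hy.2.2 g
  have hOh : Out h z S ⊆ Ch h := fun y hy => hy.1
  have hsubT : ∀ i, T i ⊆ Ch h := fun i => (hk.sub i).trans hSz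
  have nO : ∀ {y : V}, y ∈ insert z S → y ∉ Out h z S := fun hy g => hO _ g hy
  -- replace the segment which contains `z` or ends in `z`
  have main : ∀ i0 : Seg, (∀ j, j ≠ i0 → z ∉ T j ∧ dst v e c j ≠ z) →
      IsK adj (Ch h) v e c (fun j => if j = i0 then T i0 ∪ Out h z S else T j) := by
    intro i0 hi0
    refine hk.repl i0 (hSz hk.vC) (hSz hk.eC) (hSz hk.cC) (Set.union_subset (hsubT i0) hOh)
      (fun j _ => hsubT j) ?_ ?_ ?_ ?_ (hF.gam_conn hstr (hk.conn i0))
      (fun j hj => Frag.gam_conn' (hi0 j hj).1 (hi0 j hj).2 (hk.conn j))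
    · rintro (g | g)
      · exact hk.nv _ g
      · exact nO hk.vC g
    · rintro (g | g)
      · exact hk.ne _ g
      · exact nO hk.eC g
    · rintro (g | g)
      · exact hk.nc _ g
      · exact nO hk.cC g
    · rintro j hj u (g | g) g'
      · exact hk.disj _ _ (Ne.symm hj) u g g'
      · exact nO (hk.sub j g') g
  have mainKV : ∀ i0 : Seg, ∀ u ∈ S,
      u ∈ KV v e c (fun j => if j = i0 then T i0 ∪ Out h z S else T j) → u ∈ KV v e c T := by
    rintro i0 u hu (g | g | g | ⟨j, g⟩)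
    · exact Or.inl g
    · exact Or.inr (Or.inl g)
    · exact Or.inr (Or.inr (Or.inl g))
    · by_cases hj : j = i0
      · simp only [hj, if_true] at g
        rcases g with g | g
        · exact Or.inr (Or.inr (Or.inr ⟨i0, g⟩))
        · exact absurd hu g.2.2
      · simp only [if_neg hj] at g
        exact Or.inr (Or.inr (Or.inr ⟨j, g⟩))
  by_cases hvz : v = z
  · refine ⟨_, main .b ?_, mainKV .b, fun g => absurd (Or.inl hvz.symm) g⟩
    intro j hj
    refine ⟨fun g => hk.nv j (hvz ▸ g), ?_⟩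
    cases j
    · exact hez
    · exact absurd rfl hj
    · exact hcz
    · exact hcz
    · exact hez
  · have hdst : ∀ j, dst v e c j ≠ z := by
      intro j
      cases j
      · exact hez
      · exact hvz
      · exact hcz
      · exact hcz
      · exact hez
    by_cases hi : ∃ i, z ∈ T i
    · obtain ⟨i, hi⟩ := hi
      refine ⟨_, main i ?_, mainKV i, fun g => absurd (Or.inr (Or.inr (Or.inr ⟨i, hi⟩))) g⟩
      exact fun j hj => ⟨fun g => hk.disj _ _ hj z g hi, hdst j⟩
    · push Not at hi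
      refine ⟨T, ⟨hSz hk.vC, hSz hk.eC, hSz hk.cC, hk.ve, hk.vc, hk.ec, hsubT, hk.nv, hk.ne, hk.nc,
        hk.disj, fun i => Frag.gam_conn' (hi i) (hdst i) (hk.conn i)⟩, fun u _ g => g,
        fun _ => rfl⟩

variable [Finite V]

/-- Lifting subdivisions minus an arc of the torso, third vertex `z`. -/
theorem Pre.lift2 (hstr : ∀ u w, u ≠ h → w ≠ h → RR adj (Ch h) u w) (hF : Pre adj h S z)
    {v e : V} {T : Seg → Set V} (hk : IsK (gam adj h z S) (insert z S) v e z T) (he : e ∈ S) :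
    ∃ (c' : V) (T' : Seg → Set V), IsK adj (Ch h) v e c' T' ∧ c' ≠ h ∧ c' ∉ S ∧
      (∀ u ∈ S, u ∈ KV v e c' T' → u ∈ KV v e z T) := by
  classical
  have hSz : insert z S ⊆ Ch h := by
    rintro y (g | g)
    · rw [g]
      exact hF.zh
    · exact hF.Sh y g
  have hez : e ≠ z := fun g => hF.zS (g ▸ he)
  have hvz : v ≠ z := hk.vc
  have hO : ∀ y ∈ Out h z S, y ∉ insert z S := by
    rintro y hy (g | g)
    · exact hy.2.1 g
    · exact hy.2.2 g
  have hOh : Out h z S ⊆ Ch h := fun y hy => hy.1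
  have hTz : ∀ i, z ∉ T i := fun i => hk.nc i
  have hTS : ∀ i, T i ⊆ S := by
    intro i y hy
    rcases hk.sub i hy with g | g
    · exact absurd (g ▸ hy) (hTz i)
    · exact g
  have hvS : v ∈ S := (hk.vC).resolve_left hvz
  -- the last arcs of `A2` and `B2`
  obtain ⟨p, hp1, hp2⟩ := (hk.conn .a2).last
  obtain ⟨q, hq1, hq2⟩ := (hk.conn .b2).last
  have hp2' : Head adj (T .a2) v p := Frag.gam_head (hTz _) hp2
  have hq2' : Head adj (T .b2) e q := Frag.gam_head (hTz _) hq2
  have hpc : Conn adj (Out h z S) p z := hF.gam_arc hstr hp1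
  have hqc : Conn adj (Out h z S) q z := hF.gam_arc hstr hq1
  obtain ⟨P1, hP1, hm⟩ := exists_MP hpc
  have c1 : Conn adj (T .c1) z e := Frag.gam_conn' (hTz _) hez (hk.conn .c1)
  have a1 : Conn adj (T .a1) v e := Frag.gam_conn' (hTz _) hez (hk.conn .a1)
  have b : Conn adj (T .b) e v := Frag.gam_conn' (hTz _) hvz (hk.conn .b)
  have mk : ∀ (c' : V) (PA PB PC : Set V), (c' = z ∨ c' ∈ Out h z S) → PA ⊆ Out h z S →
      PB ⊆ Out h z S → (∀ y ∈ PC, y = z ∨ y ∈ Out h z S) → (∀ y ∈ PA, y ∉ PB ∧ y ∉ PC ∧ y ≠ c') →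
      (∀ y ∈ PB, y ∉ PC ∧ y ≠ c') → (∀ y ∈ PC, y ≠ c') → Conn adj PA p c' → Conn adj PB q c' →
      Conn adj (PC ∪ T .c1) c' e →
      ∃ (c' : V) (T' : Seg → Set V), IsK adj (Ch h) v e c' T' ∧ c' ≠ h ∧ c' ∉ S ∧
        (∀ u ∈ S, u ∈ KV v e c' T' → u ∈ KV v e z T) := by
    intro c' PA PB PC hc' hPA hPB hPC d1 d2 d3 k1 k2 k3
    have hc'S : c' ∉ S := by
      rcases hc' with g | g
      · rw [g]
        exact hF.zS
      · exact g.2.2
    have hc'h : c' ≠ h := by
      rcases hc' with g | g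
      · rw [g]
        exact hF.zh
      · exact g.1
    have nA : ∀ y ∈ PA, y ≠ h ∧ y ∉ S := fun y hy => ⟨(hPA hy).1, (hPA hy).2.2⟩
    have nB : ∀ y ∈ PB, y ≠ h ∧ y ∉ S := fun y hy => ⟨(hPB hy).1, (hPB hy).2.2⟩
    have nC : ∀ y ∈ PC, y ≠ h ∧ y ∉ S := by
      intro y hy
      rcases hPC y hy with g | g
      · rw [g]
        exact ⟨hF.zh, hF.zS⟩
      · exact ⟨g.1, g.2.2⟩
    have hT : ∀ i, ∀ y ∈ T i, y ∈ S ∧ y ≠ h ∧ y ≠ v ∧ y ≠ e ∧ y ≠ c' := fun i y hy =>
      ⟨hTS i hy, hF.Sh y (hTS i hy), (hk.ne_of_mem hy).1, (hk.ne_of_mem hy).2.1,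
        fun g => hc'S (g ▸ hTS i hy)⟩
    refine ⟨c', seg5 (T .a1) (T .b) (T .a2 ∪ PA) (T .b2 ∪ PB) (PC ∪ T .c1), ?_, hc'h, hc'S, ?_⟩
    · refine mkK (hF.Sh v hvS) (hF.Sh e he) hc'h hk.ve (fun g => hc'S (g ▸ hvS))
        (fun g => hc'S (g ▸ he)) ?_ ?_ a1 b (head_conn hp2' k1) (head_conn hq2' k2) k3
      · have hvn : ∀ y, y ∉ S → y ≠ v := fun y hy g => hy (g ▸ hvS)
        have hen : ∀ y, y ∉ S → y ≠ e := fun y hy g => hy (g ▸ he)
        intro i y hy
        cases i <;> simp only [seg5] at hy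
        · have := hT _ y hy
          exact ⟨this.2.1, this.2.2⟩
        · have := hT _ y hy
          exact ⟨this.2.1, this.2.2⟩
        · rcases hy with hy | hy
          · have := hT _ y hy
            exact ⟨this.2.1, this.2.2⟩
          · exact ⟨(nA y hy).1, hvn y (nA y hy).2, hen y (nA y hy).2, (d1 y hy).2.2⟩
        · rcases hy with hy | hy
          · have := hT _ y hy
            exact ⟨this.2.1, this.2.2⟩
          · exact ⟨(nB y hy).1, hvn y (nB y hy).2, hen y (nB y hy).2, (d2 y hy).2⟩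
        · rcases hy with hy | hy
          · exact ⟨(nC y hy).1, hvn y (nC y hy).2, hen y (nC y hy).2, d3 y hy⟩
          · have := hT _ y hy
            exact ⟨this.2.1, this.2.2⟩
      · intro y
        have f := hk.dfacts y
        have tA := fun g : y ∈ PA => nA y g
        have tB := fun g : y ∈ PB => nB y g
        have tC := fun g : y ∈ PC => nC y g
        have t := fun i (g : y ∈ T i) => (hT i y g).1
        have e1 := d1 y
        have e2 := d2 y
        simp only [Set.mem_union]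
        clear d1 d2 d3 nA nB nC hT hPA hPB hPC
        grind (splits := 40)
    · rintro u hu (g | g | g | ⟨i, g⟩)
      · exact Or.inl g
      · exact Or.inr (Or.inl g)
      · exact absurd (g ▸ hu) hc'S
      · cases i <;> simp only [seg5] at g
        · exact Or.inr (Or.inr (Or.inr ⟨_, g⟩))
        · exact Or.inr (Or.inr (Or.inr ⟨_, g⟩))
        · rcases g with g | g
          · exact Or.inr (Or.inr (Or.inr ⟨_, g⟩))
          · exact absurd hu (nA u g).2
        · rcases g with g | g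
          · exact Or.inr (Or.inr (Or.inr ⟨_, g⟩))
          · exact absurd hu (nB u g).2
        · rcases g with g | g
          · exact absurd hu (nC u g).2
          · exact Or.inr (Or.inr (Or.inr ⟨_, g⟩))
  rcases hit_conn (P := P1) hqc with g | ⟨y, hy, _, g⟩
  · refine mk z P1 (Out h z S \ P1) ∅ (Or.inl rfl) hP1 Set.sdiff_subset (fun y hy => hy.elim) ?_ ?_
      (fun y hy => hy.elim) hm.1 g (by rw [Set.empty_union]; exact c1)
    · exact fun y hy => ⟨fun k => k.2 hy, fun k => k, (hP1 hy).2.1⟩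
    · exact fun y hy => ⟨fun k => k, hy.1.2.1⟩
  · obtain ⟨U, W, hU, hW, hUW, k1, k2⟩ := hm.split hy
    rw [Set.disjoint_left] at hUW
    refine mk y U (Out h z S \ P1) (W ∪ {z}) (Or.inr (hP1 hy)) (fun w hw => hP1 (hU hw).1)
      Set.sdiff_subset ?_ ?_ ?_ ?_ k1 g ?_
    · rintro w (hw | hw)
      · exact Or.inr (hP1 (hW hw).1)
      · exact Or.inl hw
    · intro w hw
      refine ⟨fun k => k.2 (hU hw).1, ?_, (hU hw).2⟩
      rintro (k | k)
      · exact hUW hw k
      · exact (hP1 (hU hw).1).2.1 k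
    · intro w hw
      refine ⟨?_, fun k => hw.2 (k ▸ hy)⟩
      rintro (k | k)
      · exact hw.2 (hW k).1
      · exact hw.1.2.1 k
    · rintro w (hw | hw)
      · exact (hW hw).2
      · have : w = z := hw
        rw [this]
        exact fun k => (hP1 hy).2.1 k.symm
    · have := Conn.join k2 c1
      refine Or.inr (ConnN.mono ?_ this)
      rintro w (hw | hw | hw)
      · exact Or.inl (Or.inl hw)
      · exact Or.inr hw
      · exact Or.inl (Or.inr hw)

end

/-! ### The same for `Frag` -/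

section wrap

variable (hstr : ∀ u w, u ≠ h → w ≠ h → RR adj (Ch h) u w)
include hstr

theorem Frag.ent_ex (hF : Frag adj h S z) : ∃ n ∈ S, adj z n := hF.toPre.ent_ex hstr

theorem Frag.reach (hF : Frag adj h S z) {o : V} (ho : o ∈ Out h z S) :
    ∃ y ∈ Out h z S, RR adj (Out h z S) o y ∧ adj y z := hF.toPre.reach hstr ho

theorem Frag.gam_arc (hF : Frag adj h S z) {a b : V} (hab : gam adj h z S a b) :
    Conn adj (Out h z S) a b := hF.toPre.gam_arc hstr hab

theorem Frag.gam_conn (hF : Frag adj h S z) {W : Set V} {a b : V}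
    (hc : Conn (gam adj h z S) W a b) : Conn adj (W ∪ Out h z S) a b := hF.toPre.gam_conn hstr hc

theorem Frag.lift1 (hF : Frag adj h S z)
    {v e c : V} {T : Seg → Set V} (hk : IsK (gam adj h z S) (insert z S) v e c T) (he : e ∈ S)
    (hcz : c ≠ z) :
    ∃ T' : Seg → Set V, IsK adj (Ch h) v e c T' ∧
      (∀ u ∈ S, u ∈ KV v e c T' → u ∈ KV v e c T) ∧ (z ∉ KV v e c T → T' = T) :=
  hF.toPre.lift1 hstr hk he hcz

theorem Frag.lift2 [Finite V] (hF : Frag adj h S z)
    {v e : V} {T : Seg → Set V} (hk : IsK (gam adj h z S) (insert z S) v e z T) (he : e ∈ S) :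
    ∃ (c' : V) (T' : Seg → Set V), IsK adj (Ch h) v e c' T' ∧ c' ≠ h ∧ c' ∉ S ∧
      (∀ u ∈ S, u ∈ KV v e c' T' → u ∈ KV v e z T) := hF.toPre.lift2 hstr hk he

end wrap

end Pool.Agent.H.MP_0cacf8
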