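import Pool.Agent.H.MP_0cacf8.EYA

/-!
# The local form of EY*: contraction to a hub
-/

set_option autoImplicit false

namespace Pool.Agent.H.MP_0cacf8

open Relation Finset Pool.Agent.H.MP_0d008e_co

universe u

/-- EY* for the finite digraph `adj` with hub `h`. -/
def EYStarFor {W : Type u} (adj : W → W → Prop) (h : W) : Prop :=
  (∀ u, ¬ adj u u) → (∀ u, u ≠ h → adj u h ∨ adj h u) →
  (∀ u, u ≠ h → ¬ adj u h → ∀ A : Finset W, A.card ≤ 3 → ∃ w, w ≠ h ∧ w ∉ A ∧ adj u w) →
  (∀ u, u ≠ h → ¬ adj h u → ∀ A : Finset W, A.card ≤ 3 → ∃ w, w ≠ h ∧ w ∉ A ∧ adj w u) →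
  (∀ u, ReflTransGen adj h u) → (∀ u, ReflTransGen adj u h) →
  (∀ u, u ≠ h → ∀ w, w ≠ h → RR adj (Ch h) u w) →
  (∀ u, u ≠ h → ∃ p q, p ≠ h ∧ q ≠ h ∧ p ≠ q ∧ adj p u ∧ adj q u) →
  (∃ u, u ≠ h) → K3off adj h

variable {V : Type u} {adj : V → V → Prop}

/-- `x` has a walk to `h` with all inner vertices outside `X`. -/
def ExitOff (adj : V → V → Prop) (X : Finset V) (h x : V) : Prop :=
  ∃ o, o ∉ X ∧ adj x o ∧ RR adj ((X : Set V)ᶜ) o h

/-- `h` has a walk to `x` with all inner vertices outside `X`. -/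
def EntryOff (adj : V → V → Prop) (X : Finset V) (h x : V) : Prop :=
  ∃ o, o ∉ X ∧ adj o x ∧ RR adj ((X : Set V)ᶜ) h o

theorem RTG_of_RR {S : Set V} {X : Finset V} (hS : S ⊆ (X : Set V)ᶜ) {a b : V} (h : RR adj S a b) :
    ReflTransGen (fun a b => adj a b ∧ b ∉ X) a b := by
  induction h with
  | refl => exact ReflTransGen.refl
  | tail _ h ih => exact ih.tail ⟨h.2.2, fun g => hS h.2.1 (by exact_mod_cast g)⟩

theorem RR_of_RTG {a b : V} (h : ReflTransGen adj a b) : RR adj Set.univ a b := by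
  induction h with
  | refl => exact ReflTransGen.refl
  | tail _ h ih => exact ih.tail ⟨trivial, trivial, h⟩

section lift

variable {S : Finset V} {h : V}

/-- The vertices of the contracted digraph. -/
abbrev WS (S : Finset V) (h : V) : Type u := {v : V // v ∈ S ∨ v = h}

/-- The contracted digraph. -/
def cadj (adj : V → V → Prop) (S X : Finset V) (h : V) (x y : WS S h) : Prop :=
  (x.1 ≠ h ∧ y.1 ≠ h ∧ adj x.1 y.1) ∨
    (x.1 ≠ h ∧ y.1 = h ∧ ∃ o, o ∉ S ∧ adj x.1 o ∧ RR adj ((S : Set V)ᶜ) o h) ∨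
    (x.1 = h ∧ y.1 ≠ h ∧ EntryOff adj X h y.1)

open Classical in
/-- the labelling -/
noncomputable def llab (lab : WS S h → ℕ) (hh : WS S h) (u : V) : ℕ :=
  if hu : u ∈ S then lab ⟨u, Or.inl hu⟩ else lab hh

variable {X : Finset V}

theorem llab_out (lab : WS S h → ℕ) (hh : WS S h) {u : V} (hu : u ∉ S) :
    llab lab hh u = lab hh := by
  simp [llab, hu]

theorem llab_in (lab : WS S h → ℕ) (hh : WS S h) {u : WS S h} (hu : u.1 ∈ S) :
    llab lab hh u.1 = lab u := by
  simp [llab, hu]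

theorem llab_eq (lab : WS S h → ℕ) (hh : WS S h) (hh1 : hh.1 = h) (u : WS S h) :
    llab lab hh u.1 = lab u := by
  by_cases hu : u.1 ∈ S
  · exact llab_in lab hh hu
  · have : u.1 = h := by
      rcases u.2 with h1 | h1
      · exact absurd h1 hu
      · exact h1
    have h2 : u = hh := Subtype.ext (this.trans hh1.symm)
    rw [llab_out lab hh hu, h2]

/-- An arc of the contracted digraph gives a walk inside the label class of `h`. -/
theorem RR_lift (lab : WS S h → ℕ) (hh : WS S h) (hh1 : hh.1 = h) (hSX : S ⊆ X)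
    {i : ℕ} {x y : WS S h} (hxy : RR (cadj adj S X h) {u | lab u = i} x y) :
    RR adj {u | llab lab hh u = i} x.1 y.1 := by
  induction hxy with
  | refl => exact ReflTransGen.refl
  | @tail y z _ hyz ih =>
    refine ih.trans ?_
    obtain ⟨hy, hz, hyz⟩ := hyz
    have hy' : llab lab hh y.1 = i := (llab_eq lab hh hh1 y).trans hy
    have hz' : llab lab hh z.1 = i := (llab_eq lab hh hh1 z).trans hz
    rcases hyz with ⟨_, _, h1⟩ | ⟨_, h2, o, ho, h3, h4⟩ | ⟨h2, _, o, ho, h3, h4⟩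
    · exact ReflTransGen.single ⟨hy', hz', h1⟩
    · have hz2 : z = hh := Subtype.ext (h2.trans hh1.symm)
      have hi : lab hh = i := by rw [← hz2]; exact hz
      have hsub : (S : Set V)ᶜ ⊆ {u | llab lab hh u = i} := by
        intro u hu
        exact (llab_out lab hh (by simpa using hu)).trans hi
      rw [h2]
      exact ReflTransGen.head ⟨hy', hsub (by simpa using ho), h3⟩ (RR.mono hsub h4)
    · have hy2 : y = hh := Subtype.ext (h2.trans hh1.symm)
      have hi : lab hh = i := by rw [← hy2]; exact hy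
      have hsub : (X : Set V)ᶜ ⊆ {u | llab lab hh u = i} := by
        intro u hu
        refine (llab_out lab hh ?_).trans hi
        intro g
        exact hu (by exact_mod_cast hSX g)
      rw [h2]
      exact (RR.mono hsub h4).tail ⟨hsub (by simpa using ho), hz', h3⟩

theorem Conn_lift (lab : WS S h → ℕ) (hh : WS S h) (hh1 : hh.1 = h) (hSX : S ⊆ X)
    {i : ℕ} {x y : WS S h} (hx : x.1 ≠ h) (hy : y.1 ≠ h)
    (hxy : Conn (cadj adj S X h) {u | lab u = i} x y) :
    Conn adj {u | llab lab hh u = i} x.1 y.1 := by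
  rcases hxy with h0 | ⟨p, hp, q, hq, h1, h2, h3⟩
  · rcases h0 with ⟨_, _, h1⟩ | ⟨_, h2, _⟩ | ⟨h2, _⟩
    · exact Or.inl h1
    · exact absurd h2 hy
    · exact absurd h2 hx
  · have hp' : llab lab hh p.1 = i := (llab_eq lab hh hh1 p).trans hp
    have hq' : llab lab hh q.1 = i := (llab_eq lab hh hh1 q).trans hq
    have hmid := RR_lift (adj := adj) (X := X) lab hh hh1 hSX h2
    -- the first piece
    obtain ⟨p', hp1, hp2, hp3⟩ : ∃ p', llab lab hh p' = i ∧ adj x.1 p' ∧
        RR adj {u | llab lab hh u = i} p' p.1 := by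
      rcases h1 with ⟨_, _, h1⟩ | ⟨_, g2, o, ho, g3, g4⟩ | ⟨g2, _⟩
      · exact ⟨p.1, hp', h1, ReflTransGen.refl⟩
      · have hz2 : p = hh := Subtype.ext (g2.trans hh1.symm)
        have hi : lab hh = i := by rw [← hz2]; exact hp
        have hsub : (S : Set V)ᶜ ⊆ {u | llab lab hh u = i} := by
          intro u hu
          exact (llab_out lab hh (by simpa using hu)).trans hi
        rw [g2]
        exact ⟨o, hsub (by simpa using ho), g3, RR.mono hsub g4⟩
      · exact absurd g2 hx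
    obtain ⟨q', hq1, hq2, hq3⟩ : ∃ q', llab lab hh q' = i ∧ adj q' y.1 ∧
        RR adj {u | llab lab hh u = i} q.1 q' := by
      rcases h3 with ⟨_, _, h1⟩ | ⟨_, g2, _⟩ | ⟨g2, _, o, ho, g3, g4⟩
      · exact ⟨q.1, hq', h1, ReflTransGen.refl⟩
      · exact absurd g2 hy
      · have hz2 : q = hh := Subtype.ext (g2.trans hh1.symm)
        have hi : lab hh = i := by rw [← hz2]; exact hq
        have hsub : (X : Set V)ᶜ ⊆ {u | llab lab hh u = i} := by
          intro u hu
          refine (llab_out lab hh ?_).trans hi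
          intro g
          exact hu (by exact_mod_cast hSX g)
        rw [g2]
        exact ⟨o, hsub (by simpa using ho), g3, RR.mono hsub g4⟩
    exact Or.inr ⟨p', hp1, q', hq1, hp2, (hp3.trans hmid).trans hq3, hq2⟩

theorem K3off_lift (hh : WS S h) (hh1 : hh.1 = h) (hSX : S ⊆ X)
    (hk : K3off (cadj adj S X h) hh) : K3off adj h := by
  obtain ⟨a, b, c, lab, ⟨h0a, h0b, h0c⟩, h1, h2, h3, h4, h5, h6, g1, g2, g3, g4, g5, g6⟩ := hk
  have ne : ∀ x : WS S h, x ≠ hh → x.1 ≠ h := fun x hx g => hx (Subtype.ext (g.trans hh1.symm))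
  have ha := ne a h0a
  have hb := ne b h0b
  have hc := ne c h0c
  refine ⟨a.1, b.1, c.1, llab lab hh, ⟨ha, hb, hc⟩, fun g => h1 (Subtype.ext g),
    fun g => h2 (Subtype.ext g), fun g => h3 (Subtype.ext g),
    (llab_eq lab hh hh1 a).trans h4, (llab_eq lab hh hh1 b).trans h5,
    (llab_eq lab hh hh1 c).trans h6, ?_, ?_, ?_, ?_, ?_, ?_⟩
  · exact Conn_lift lab hh hh1 hSX ha hb g1
  · exact Conn_lift lab hh hh1 hSX hb ha g2
  · exact Conn_lift lab hh hh1 hSX ha hc g3
  · exact Conn_lift lab hh hh1 hSX hb hc g4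
  · exact Conn_lift lab hh hh1 hSX hc hb g5
  · exact Conn_lift lab hh hh1 hSX hc ha g6

end lift

section main

variable [Fintype V] [DecidableEq V]

/-- LOCAL THEOREM. `EYStarFor` is only used for the contracted digraph. -/
theorem local_EY (hEY : ∀ (W : Type u) [Fintype W] [DecidableEq W] (g : W → W → Prop) (t : W),
      EYStarFor g t)
    (irr : ∀ v, ¬ adj v v) (hstr : ∀ u v, ReflTransGen adj u v) (h : V) (X : Finset V)
    (hX : X.Nonempty) (hhX : h ∉ X)
    (h0 : ∀ x ∈ X, ExitOff adj X h x ∨ EntryOff adj X h x)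
    (h1 : ∀ x ∈ X, ∃ p ∈ X, ∃ q ∈ X, p ≠ q ∧ adj p x ∧ adj q x)
    (h2 : ∀ x ∈ X, ¬ EntryOff adj X h x → ∀ A : Finset V, A.card ≤ 3 → ∃ w ∈ X, w ∉ A ∧ adj w x)
    (h3 : ∀ x ∈ X, ¬ ExitOff adj X h x → ∀ A : Finset V, A.card ≤ 3 → ∃ w ∈ X, w ∉ A ∧ adj x w) :
    K3off adj h := by
  classical
  obtain ⟨S, hSX, hSne, hScl, hSs⟩ := exists_source (adj := adj) X hX
  have hhS : h ∉ S := fun g => hhX (hSX g)
  have hXS : (X : Set V)ᶜ ⊆ (S : Set V)ᶜ := by
    intro u hu g
    exact hu (by exact_mod_cast hSX (by exact_mod_cast g))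
  -- the rest
  set R : Finset V := X.filter (fun v => v ∉ S ∧ ¬ RR adj ((S : Set V)ᶜ) v h) with hR
  by_cases hRne : R.Nonempty
  · -- an out-core all of whose vertices are entries
    have hnex : ∀ x ∈ R, ¬ ExitOff adj X h x := by
      rintro x hx ⟨o, ho, g1, g2⟩
      obtain ⟨_, hx2, hx3⟩ := mem_filter.1 hx
      refine hx3 (ReflTransGen.head ⟨by simpa using hx2, ?_, g1⟩ (RR.mono hXS g2))
      exact hXS (by simpa using ho)
    have hout : ∀ x ∈ R, ∀ w ∈ X, adj x w → w ∈ R := by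
      intro x hx w hw hxw
      obtain ⟨hx1, hx2, hx3⟩ := mem_filter.1 hx
      have hwS : w ∉ S := fun g => hx2 (hScl x hx1 w g hxw)
      refine mem_filter.2 ⟨hw, hwS, fun g => hx3 ?_⟩
      exact ReflTransGen.head ⟨by simpa using hx2, by simpa using hwS, hxw⟩ g
    refine K3off_flip (thmE_off (adj := fun x y => adj y x) h R hRne
      (fun g => hhX (mem_filter.1 g).1) ?_ ?_ ?_)
    · intro x hx
      have hx1 := (mem_filter.1 hx).1
      obtain ⟨p, hp, _, hxp⟩ := h3 x hx1 (hnex x hx) ∅ (by simp)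
      obtain ⟨q, hq, hqA, hxq⟩ := h3 x hx1 (hnex x hx) {p} (by simp)
      have hqp : q ≠ p := by simpa using hqA
      refine ⟨p, hout x hx p hp hxp, q, hout x hx q hq hxq, hqp.symm, ?_, ?_, hxp, hxq⟩
      · rintro rfl; exact irr _ hxp
      · rintro rfl; exact irr _ hxq
    · have rvs : ∀ x, ReflTransGen adj x h → ReflTransGen (fun x y => adj y x) h x := by
        intro x hx
        induction hx using ReflTransGen.head_induction_on with
        | refl => exact ReflTransGen.refl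
        | head hab _ ih => exact ih.tail hab
      exact fun x _ => rvs x (hstr x h)
    · intro x hx
      have hx1 := (mem_filter.1 hx).1
      obtain ⟨o, ho, g1, g2⟩ := (h0 x hx1).resolve_left (hnex x hx)
      have g3 : RR (fun x y => adj y x) ((X : Set V)ᶜ) o h := by
        refine RR_flip (adj := fun x y => adj y x) ?_
        exact g2
      have g4 : ReflTransGen (fun a b => adj b a ∧ b ∉ R) o h := by
        refine RTG_of_RR (adj := fun x y => adj y x) (X := R) (S := (X : Set V)ᶜ) ?_ g3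
        intro u hu g
        exact hu (by exact_mod_cast (mem_filter.1 (by exact_mod_cast g)).1)
      exact ReflTransGen.head ⟨g1, fun g => ho (mem_filter.1 g).1⟩ g4
  · have hT : ∀ v ∈ X, v ∉ S → RR adj ((S : Set V)ᶜ) v h := by
      intro v hv hvS
      by_contra hg
      exact hRne ⟨v, mem_filter.2 ⟨hv, hvS, hg⟩⟩
    by_cases hent : ∃ v ∈ S, EntryOff adj X h v
    · -- contraction
      obtain ⟨v0, hv0, hv0e⟩ := hent
      let hh : WS S h := ⟨h, Or.inr rfl⟩
      have hne : ∀ x : WS S h, x ≠ hh → x.1 ∈ S := by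
        intro x hx
        rcases x.2 with g | g
        · exact g
        · exact absurd (Subtype.ext g) hx
      have hSh : ∀ x : WS S h, x ≠ hh → x.1 ≠ h := fun x hx g => hx (Subtype.ext g)
      have hin : ∀ v (hv : v ∈ S), (⟨v, Or.inl hv⟩ : WS S h) ≠ hh := by
        intro v hv g
        have g' : v = h := Subtype.ext_iff.1 g
        exact hhS (g' ▸ hv)
      have hvne : ∀ v ∈ S, v ≠ h := fun v hv g => hhS (g ▸ hv)
      have key : ∀ a (ha : a ∈ S) b, RR adj (S : Set V) a b → ∃ hb : b ∈ S,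
          RR (cadj adj S X h) (Ch hh) ⟨a, Or.inl ha⟩ ⟨b, Or.inl hb⟩ := by
        intro a ha b hab
        induction hab with
        | refl => exact ⟨ha, ReflTransGen.refl⟩
        | @tail b c _ hbc ih =>
          obtain ⟨hb, ih⟩ := ih
          have hc : c ∈ S := by exact_mod_cast hbc.2.1
          exact ⟨hc, ih.tail ⟨hin b hb, hin c hc, Or.inl ⟨hvne b hb, hvne c hc, hbc.2.2⟩⟩⟩
      have strS : ∀ u, u ≠ hh → ∀ w, w ≠ hh → RR (cadj adj S X h) (Ch hh) u w := by
        intro u hu w hw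
        obtain ⟨_, h5⟩ := key u.1 (hne u hu) w.1 (hSs u.1 (hne u hu) w.1 (hne w hw))
        exact h5
      have unr : ∀ {u w : WS S h}, RR (cadj adj S X h) (Ch hh) u w →
          ReflTransGen (cadj adj S X h) u w := by
        intro u w huw
        induction huw with
        | refl => exact ReflTransGen.refl
        | tail _ g ih => exact ih.tail g.2.2
      -- an exit
      obtain ⟨y, z, hyS, hzS, hyz, hz⟩ : ∃ y z, y ∈ S ∧ z ∉ S ∧ adj y z ∧
          RR adj ((S : Set V)ᶜ) z h := by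
        rcases last_exit (B := (S : Set V)) (RR_of_RTG (hstr v0 h)) (by simpa using hhS) with
          ⟨_, g⟩ | ⟨y, z, _, g1, _, g2, g3, g4, _⟩
        · exact absurd (by simpa using hv0) g
        · exact ⟨y, z, by simpa using g1, by simpa using g2, g3,
            RR.mono (fun w hw => hw.2) g4⟩
      have hyarc : cadj adj S X h ⟨y, Or.inl hyS⟩ hh :=
        Or.inr (Or.inl ⟨hvne y hyS, rfl, z, hzS, hyz, hz⟩)
      have h0arc : cadj adj S X h hh ⟨v0, Or.inl hv0⟩ :=
        Or.inr (Or.inr ⟨rfl, hvne v0 hv0, hv0e⟩)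
      refine K3off_lift (X := X) hh rfl hSX (hEY (WS S h) (cadj adj S X h) hh ?_ ?_ ?_ ?_ ?_ ?_
        strS ?_ ⟨_, hin v0 hv0⟩)
      · rintro u (⟨_, _, g⟩ | ⟨g1, g2, _⟩ | ⟨g1, g2, _⟩)
        · exact irr _ g
        · exact g1 g2
        · exact g2 g1
      · intro u hu
        have huS := hne u hu
        rcases h0 u.1 (hSX huS) with ⟨o, ho, g1, g2⟩ | g
        · exact Or.inl (Or.inr (Or.inl ⟨hSh u hu, rfl, o, fun g => ho (hSX g), g1, RR.mono hXS g2⟩))
        · exact Or.inr (Or.inr (Or.inr ⟨rfl, hSh u hu, g⟩))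
      · intro u hu huh A hA
        have huS := hne u hu
        have hnex : ¬ ExitOff adj X h u.1 := by
          rintro ⟨o, ho, g1, g2⟩
          exact huh (Or.inr (Or.inl ⟨hSh u hu, rfl, o, fun g => ho (hSX g), g1, RR.mono hXS g2⟩))
        obtain ⟨w, hw, hwA, huw⟩ := h3 u.1 (hSX huS) hnex (A.image Subtype.val)
          (Finset.card_image_le.trans hA)
        have hwS : w ∈ S := by
          by_contra hwS
          exact huh (Or.inr (Or.inl ⟨hSh u hu, rfl, w, hwS, huw, hT w hw hwS⟩))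
        refine ⟨⟨w, Or.inl hwS⟩, hin w hwS, fun g => hwA (Finset.mem_image_of_mem _ g), ?_⟩
        exact Or.inl ⟨hSh u hu, hvne w hwS, huw⟩
      · intro u hu huh A hA
        have huS := hne u hu
        have hnen : ¬ EntryOff adj X h u.1 := fun g => huh (Or.inr (Or.inr ⟨rfl, hSh u hu, g⟩))
        obtain ⟨w, hw, hwA, huw⟩ := h2 u.1 (hSX huS) hnen (A.image Subtype.val)
          (Finset.card_image_le.trans hA)
        have hwS : w ∈ S := hScl w hw u.1 huS huw
        refine ⟨⟨w, Or.inl hwS⟩, hin w hwS, fun g => hwA (Finset.mem_image_of_mem _ g), ?_⟩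
        exact Or.inl ⟨hvne w hwS, hSh u hu, huw⟩
      · intro u
        by_cases hu : u = hh
        · rw [hu]
        · exact ReflTransGen.head h0arc (unr (strS _ (hin v0 hv0) u hu))
      · intro u
        by_cases hu : u = hh
        · rw [hu]
        · exact (unr (strS u hu _ (hin y hyS))).tail hyarc
      · intro u hu
        have huS := hne u hu
        obtain ⟨p, hp, q, hq, g1, g2, g3⟩ := h1 u.1 (hSX huS)
        have hpS := hScl p hp u.1 huS g2
        have hqS := hScl q hq u.1 huS g3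
        exact ⟨⟨p, Or.inl hpS⟩, ⟨q, Or.inl hqS⟩, hin p hpS, hin q hqS,
          fun g => g1 (Subtype.ext_iff.1 g), Or.inl ⟨hvne p hpS, hSh u hu, g2⟩,
          Or.inl ⟨hvne q hqS, hSh u hu, g3⟩⟩
    · -- the source component is an in-core of exits
      push Not at hent
      refine thmE_off h S hSne hhS ?_ (fun x _ => hstr h x) ?_
      · intro x hx
        obtain ⟨p, hp, q, hq, g1, g2, g3⟩ := h1 x (hSX hx)
        refine ⟨p, hScl p hp x hx g2, q, hScl q hq x hx g3, g1, ?_, ?_, g2, g3⟩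
        · rintro rfl; exact irr _ g2
        · rintro rfl; exact irr _ g3
      · intro x hx
        obtain ⟨o, ho, g1, g2⟩ := (h0 x (hSX hx)).resolve_right (hent x hx)
        exact ReflTransGen.head ⟨g1, fun g => ho (hSX g)⟩ (RTG_of_RR hXS g2)

/-- Strong digraph, `W` strong, every vertex of `X` has a neighbour in `W`, minimum semidegree at
least four in `X`: subdivision of the bidirected triangle. -/
theorem local_EY_nbhd (hEY : ∀ (W : Type u) [Fintype W] [DecidableEq W] (g : W → W → Prop) (t : W),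
      EYStarFor g t)
    (irr : ∀ v, ¬ adj v v) (hstr : ∀ u v, ReflTransGen adj u v) (h : V) (W : Set V) (hhW : h ∈ W)
    (hW : ∀ u ∈ W, ∀ w ∈ W, RR adj W u w) (X : Finset V) (hX : X.Nonempty)
    (hWX : ∀ x ∈ X, x ∉ W) (hN : ∀ x ∈ X, (∃ w ∈ W, adj x w) ∨ ∃ w ∈ W, adj w x)
    (hin : ∀ x ∈ X, ∀ A : Finset V, A.card ≤ 3 → ∃ w ∈ X, w ∉ A ∧ adj w x)
    (hout : ∀ x ∈ X, ∀ A : Finset V, A.card ≤ 3 → ∃ w ∈ X, w ∉ A ∧ adj x w) : K3off adj h := by
  have hsub : W ⊆ (X : Set V)ᶜ := fun w hw g => hWX w (by exact_mod_cast g) hw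
  refine local_EY hEY irr hstr h X hX (fun g => hWX h g hhW) ?_ ?_ (fun x hx _ => hin x hx)
    (fun x hx _ => hout x hx)
  · intro x hx
    rcases hN x hx with ⟨w, hw, g⟩ | ⟨w, hw, g⟩
    · exact Or.inl ⟨w, by simpa using hsub hw, g, RR.mono hsub (hW w hw h hhW)⟩
    · exact Or.inr ⟨w, by simpa using hsub hw, g, RR.mono hsub (hW h hhW w hw)⟩
  · intro x hx
    obtain ⟨p, hp, _, g1⟩ := hin x hx ∅ (by simp)
    obtain ⟨q, hq, hqA, g2⟩ := hin x hx {p} (by simp)
    have hqp : q ≠ p := by simpa using hqA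
    exact ⟨p, hp, q, hq, hqp.symm, g1, g2⟩

end main

end Pool.Agent.H.MP_0cacf8
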