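import Pool.Agent.H.MP_0cacf8.EYD

/-!
# Torso lemma: definitions

`Q` is a set of vertices, `r ∉ Q` is the root, `g` is a relation (the torso on `Q ∪ {r}`).
-/

set_option autoImplicit false

namespace Pool.Agent.H.MP_0cacf8

open Relation Finset Pool.Agent.H.MP_0d008e_co

variable {V : Type*}

/-- A torso. -/
structure Torso (g : V → V → Prop) (Q : Set V) (r : V) : Prop where
  rQ : r ∉ Q
  irr : ∀ u, ¬ g u u
  str : ∀ u ∈ Q, ∀ w ∈ Q, RR g Q u w
  ent : ∀ A ⊆ Q, A.Nonempty → A ≠ Q → ∀ x,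
    ∃ u ∈ insert r Q, u ∉ A ∧ u ≠ x ∧ ∃ a ∈ A, g u a
  out : ∃ q ∈ Q, g q r

/-- `v` is dominated by `x`: every path from `v` to the root passes `x`. -/
def Dom (g : V → V → Prop) (Q : Set V) (r x v : V) : Prop :=
  x ∈ Q ∧ v ∈ Q ∧ v ≠ x ∧ ¬ RR g (insert r Q \ {x}) v r

/-- undominated vertices of `Q` -/
def R0 (g : V → V → Prop) (Q : Set V) (r x : V) : Prop := x ∈ Q ∧ ∀ y, ¬ Dom g Q r y x

/-- the root or an undominated vertex -/
def Top (g : V → V → Prop) (Q : Set V) (r p : V) : Prop := p = r ∨ R0 g Q r p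

/-- the class of `p` (for `p = r` only `r` itself) -/
def Cl (g : V → V → Prop) (Q : Set V) (r p v : V) : Prop := v = p ∨ Dom g Q r p v

/-- `u` is a vertex of the subdivision -/
def InK (v e c : V) (S : Seg → Set V) (u : V) : Prop := u = v ∨ u = e ∨ u = c ∨ ∃ i, u ∈ S i

/-- The hypotheses of the torso lemma: `E` entries, `Y` exits. -/
structure Typed (g : V → V → Prop) (Q : Set V) (r : V) (E Y : V → Prop) : Prop where
  EY : ∀ u, E u → Y u → False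
  ctr : ∀ {a b c : V} {S : Seg → Set V}, IsK g (insert r Q) a b c S → b ∈ Q → E b ∨ Y b
  yc : ∀ {a b c : V} {S : Seg → Set V}, IsK g (insert r Q) a b c S → b ∈ Q → Y b → c ∈ Q → E c
  ea : ∀ {a b c : V} {S : Seg → Set V}, IsK g (insert r Q) a b c S → b ∈ Q → E b → a ∈ Q → Y a
  bad : ∀ {a b c : V} {S : Seg → Set V}, IsK g (insert r Q) a b c S → b ∈ Q → E b → a ∈ Q →
    ∀ u ∈ Q, E u → g u a → InK a b c S u
  lemK : ∀ {a b c : V} {S : Seg → Set V}, IsK g (insert r Q) a b c S → b ∈ Q → Y b →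
    ∀ u ∈ Q, E u → g u b → InK a b c S u
  lemKr : ∀ {a b c : V} {S : Seg → Set V}, IsK g (insert r Q) a b c S → R0 g Q r b → Y b →
    g r b → InK a b c S r
  deg : ∀ b, R0 g Q r b → Y b → ∀ x1 x2 x3, ∃ u ∈ insert r Q, u ≠ x1 ∧ u ≠ x2 ∧ u ≠ x3 ∧ g u b

/-- `y` is an undominated exit, `p` the root or an undominated entry, `y` sends into the class of
`p`. -/
def Dlt (g : V → V → Prop) (Q : Set V) (r : V) (E Y : V → Prop) (p y : V) : Prop :=
  (R0 g Q r y ∧ Y y) ∧ (p = r ∨ (R0 g Q r p ∧ E p)) ∧ ∃ v, g y v ∧ Cl g Q r p v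

/-- neighbours in the bipartite graph -/
def Sim (g : V → V → Prop) (Q : Set V) (r : V) (E Y : V → Prop) (a b : V) : Prop :=
  Dlt g Q r E Y a b ∨ Dlt g Q r E Y b a

/-- A loop `z 0, …, z n`. -/
structure Loop (g : V → V → Prop) (Q : Set V) (r : V) (E Y : V → Prop) (n : ℕ) (z : ℕ → V) :
    Prop where
  inj : ∀ i ≤ n, ∀ j ≤ n, z i = z j → i = j
  sim : ∀ i < n, Sim g Q r E Y (z i) (z (i + 1))
  mid : ∃ i, 0 < i ∧ i < n ∧ R0 g Q r (z i) ∧ Y (z i)
  close : ∃ v, Cl g Q r (z n) v ∧ (g (z 0) v ∨ (g (z 0) r ∧ g r v ∧ ∀ i ≤ n, z i ≠ r))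

end Pool.Agent.H.MP_0cacf8
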