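import Pool.Agent.H.MP_0cacf8.EYLift
import Pool.Agent.H.MP_0cacf8.EYT0
import Pool.Agent.H.MP_0cacf8.EYJ

/-!
# The torso of a minimal set with only one in-neighbour: hypotheses of the torso lemma
-/

set_option autoImplicit false

namespace Pool.Agent.H.MP_0cacf8

open Relation Finset Pool.Agent.H.MP_0d008e_co

variable {V : Type*} {adj : V → V → Prop} {h z : V} {S : Set V}

/-- entries which are not exits -/
def TE (adj : V → V → Prop) (h u : V) : Prop := u ≠ h ∧ ¬ adj u h

/-- exits which are not entries -/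
def TY (adj : V → V → Prop) (h u : V) : Prop := u ≠ h ∧ ¬ adj h u

/-- There is a minimal set with only one in-neighbour. -/
theorem exists_frag [Finite V] (hP : ∃ (S : Set V) (z : V), Pre adj h S z) :
    ∃ (S : Set V) (z : V), Frag adj h S z := by
  classical
  have key : ∀ n : ℕ, ∀ (S : Set V) (z : V), S.ncard = n → Pre adj h S z →
      ∃ (S : Set V) (z : V), Frag adj h S z := by
    intro n
    induction n using Nat.strong_induction_on with
    | _ n ih =>
      intro S z hn hp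
      by_cases hm : ∀ A ⊆ S, A.Nonempty → A ≠ S → ∀ x, ∃ a ∈ A, ∃ u, u ≠ h ∧ u ∉ A ∧ u ≠ x ∧ adj u a
      · exact ⟨S, z, hp.zh, hp.zS, hp.Sh, hp.Sne, hp.One, hp.ent, hm⟩
      · push Not at hm
        obtain ⟨A, hAS, hAne, hne, x, hA⟩ := hm
        have hlt : A.ncard < n := by
          rw [← hn]
          exact Set.ncard_lt_ncard ⟨hAS, fun g => hne (Set.Subset.antisymm hAS g)⟩ (Set.toFinite S)
        have hzA : z ∉ A := fun g => hp.zS (hAS g)
        obtain ⟨o, o1, o2, o3⟩ := hp.One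
        have hoA : o ∉ A := fun g => o3 (hAS g)
        by_cases hx : x ≠ h ∧ x ∉ A
        · refine ih _ hlt A x rfl ⟨hx.1, hx.2, fun y hy => hp.Sh y (hAS hy), hAne, ?_, ?_⟩
          · by_cases hxo : o = x
            · exact ⟨z, hp.zh, fun g => o2 (hxo.trans g.symm), hzA⟩
            · exact ⟨o, o1, hxo, hoA⟩
          · intro u hu huA s hs hus
            by_contra hux
            exact hA s hs u hu huA hux hus
        · refine ih _ hlt A z rfl ⟨hp.zh, hzA, fun y hy => hp.Sh y (hAS hy), hAne,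
            ⟨o, o1, o2, hoA⟩, ?_⟩
          intro u hu huA s hs hus
          exfalso
          have hux : u ≠ x := by
            rintro rfl
            exact hx ⟨hu, huA⟩
          exact hA s hs u hu huA hux hus
  obtain ⟨S, z, hp⟩ := hP
  exact key _ S z rfl hp

/-- If `G` is not 2-strong there is a set with only one in-neighbour. -/
theorem exists_pre (hn : ¬ ∀ x u w, u ≠ h → w ≠ h → u ≠ x → w ≠ x → RR adj (Ch h \ {x}) u w)
    (hstr : ∀ u w, u ≠ h → w ≠ h → RR adj (Ch h) u w) :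
    ∃ (S : Set V) (z : V), Pre adj h S z := by
  push Not at hn
  obtain ⟨x, u, w, hu, hw, hux, hwx, hno⟩ := hn
  by_cases hxh : x = h
  · exfalso
    refine hno (RR.mono ?_ (hstr u w hu hw))
    intro y hy
    exact ⟨hy, fun g => hy (g.trans hxh)⟩
  refine ⟨{v | v ≠ h ∧ v ≠ x ∧ RR adj (Ch h \ {x}) v w}, x, hxh, fun g => g.2.1 rfl,
    fun y hy => hy.1, ⟨w, hw, hwx, ReflTransGen.refl⟩, ⟨u, hu, hux, fun g => hno g.2.2⟩, ?_⟩
  intro v hv hvA s hs hvs
  by_contra hvx
  exact hvA ⟨hv, hvx, ReflTransGen.head ⟨⟨hv, hvx⟩, ⟨hs.1, hs.2.1⟩, hvs⟩ hs.2.2⟩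

namespace Frag

/-- `S` is strong -/
theorem inS (hF : Frag adj h S z) {s t : V} (hs : s ∈ S) (ht : t ∈ S) : RR adj S s t := by
  by_contra hcon
  obtain ⟨a, ha, u, hu, huA, huz, hua⟩ := hF.min {a | a ∈ S ∧ ¬ RR adj S s a} (fun a ha => ha.1)
    ⟨t, ht, hcon⟩ (by
      intro g
      have : s ∈ {a | a ∈ S ∧ ¬ RR adj S s a} := by
        rw [g]
        exact hs
      exact this.2 ReflTransGen.refl) z
  by_cases huS : u ∈ S
  · have h1 : RR adj S s u := by
      by_contra g
      exact huA ⟨huS, g⟩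
    exact ha.2 (h1.tail ⟨huS, ha.1, hua⟩)
  · exact huz (hF.ent u hu huS a ha.1 hua)

/-- every vertex of `S` is reached from `z` avoiding any other vertex -/
theorem reachN (hstr : ∀ u w, u ≠ h → w ≠ h → RR adj (Ch h) u w) (hF : Frag adj h S z) (x : V)
    {a : V} (ha : a ∈ S) (hax : a ≠ x) :
    ∃ n ∈ S, adj z n ∧ n ≠ x ∧ RR adj (S \ {x}) n a := by
  by_contra hcon
  set A : Set V := {a | a ∈ S ∧ a ≠ x ∧ ¬ ∃ n ∈ S, adj z n ∧ n ≠ x ∧ RR adj (S \ {x}) n a} with hA
  obtain ⟨n0, hn0, hzn⟩ := hF.ent_ex hstr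
  have hwit : ∀ n ∈ A, ¬ adj z n := by
    rintro n ⟨h1, h2, h3⟩ g
    exact h3 ⟨n, h1, g, h2, ReflTransGen.refl⟩
  obtain ⟨b, hb, u, hu, huA, hux, hub⟩ := hF.min A (fun a ha => ha.1) ⟨a, ha, hax, hcon⟩ (by
    intro g
    exact hwit n0 (g ▸ hn0) hzn) x
  by_cases huS : u ∈ S
  · obtain ⟨n, g1, g2, g3, g4⟩ : ∃ n ∈ S, adj z n ∧ n ≠ x ∧ RR adj (S \ {x}) n u := by
      by_contra g
      exact huA ⟨huS, hux, g⟩
    exact hb.2.2 ⟨n, g1, g2, g3, g4.tail ⟨⟨huS, hux⟩, ⟨hb.1, hb.2.1⟩, hub⟩⟩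
  · have := hF.ent u hu huS b hb.1 hub
    subst this
    exact hwit b hb hub

theorem gam_RR {W : Set V} (hW : W ⊆ S) {a b : V} (hr : RR adj W a b) :
    RR (gam adj h z S) W a b :=
  RR.congr (fun _ hu _ hw g => Or.inl ⟨hW hw, Or.inl (hW hu), g⟩) hr

/-- (a), (b), (c) -/
theorem torso (irr : ∀ u, ¬ adj u u) (hstr : ∀ u w, u ≠ h → w ≠ h → RR adj (Ch h) u w)
    (hF : Frag adj h S z) : Torso (gam adj h z S) S z where
  rQ := hF.zS
  irr := by
    rintro u (⟨_, _, g⟩ | ⟨g1, g2, _⟩)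
    · exact irr u g
    · exact hF.zS (g2 ▸ g1)
  str := fun u hu w hw => gam_RR (Set.Subset.refl _) (hF.inS hu hw)
  ent := by
    intro A hA hne hAS x
    obtain ⟨a, ha, u, hu, huA, hux, hua⟩ := hF.min A hA hne hAS x
    by_cases huS : u ∈ S
    · exact ⟨u, Or.inr huS, huA, hux, a, ha, Or.inl ⟨hA ha, Or.inl huS, hua⟩⟩
    · have := hF.ent u hu huS a (hA ha) hua
      exact ⟨u, Or.inl this, huA, hux, a, ha, Or.inl ⟨hA ha, Or.inr this, hua⟩⟩
  out := by
    obtain ⟨s, hs⟩ := hF.Sne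
    obtain ⟨o, o1, _, o3⟩ := hF.One
    rcases last_exit (B := S) (hstr s o (hF.Sh s hs) o1) o3 with g | ⟨y, t, _, g2, g3, g4, g5, _⟩
    · exact absurd hs g.2
    · exact ⟨y, g2, Or.inr ⟨g2, rfl, t, g3, g4, g5⟩⟩

/-- arcs into vertices of `S` -/
theorem gam_in (hF : Frag adj h S z) {u a : V} (ha : a ∈ S) (hu : u ≠ h) :
    adj u a ↔ gam adj h z S u a := by
  constructor
  · intro g
    by_cases huS : u ∈ S
    · exact Or.inl ⟨ha, Or.inl huS, g⟩
    · exact Or.inl ⟨ha, Or.inr (hF.ent u hu huS a ha g), g⟩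
  · rintro (⟨_, _, g⟩ | ⟨_, g, _⟩)
    · exact g
    · exact absurd (g ▸ ha) hF.zS

end Frag

/-! ### Typed -/

section

variable [Fintype V] [DecidableEq V]

theorem Frag.typed (hE : EYB adj h) (hstr : ∀ u w, u ≠ h → w ≠ h → RR adj (Ch h) u w)
    (hF : Frag adj h S z)
    (hB' : ∀ b, R0 (gam adj h z S) S z b → gam adj h z S z b →
      ∃ (a : V) (T : Seg → Set V), IsK (gam adj h z S) (insert z S) a b z T) :
    Typed (gam adj h z S) S z (TE adj h) (TY adj h) where
  EY := by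
    rintro u ⟨h1, h2⟩ ⟨_, h3⟩
    rcases hE.ey u h1 with g | g
    · exact h2 g
    · exact h3 g
  ctr := by
    intro a b c T hk hb
    have hbh := hF.Sh b hb
    by_contra hcon
    have h1 : adj b h := by
      by_contra g
      exact hcon (Or.inl ⟨hbh, g⟩)
    have h2 : adj h b := by
      by_contra g
      exact hcon (Or.inr ⟨hbh, g⟩)
    by_cases hc : c = z
    · subst hc
      obtain ⟨c', T', hk', _⟩ := hF.lift2 hstr hk hb
      exact hE.center hk' h1 h2
    · obtain ⟨T', hk', _⟩ := hF.lift1 hstr hk hb hc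
      exact hE.center hk' h1 h2
  yc := by
    intro a b c T hk hb hY hc
    have hcz : c ≠ z := fun g => hF.zS (g ▸ hc)
    obtain ⟨T', hk', _⟩ := hF.lift1 hstr hk hb hcz
    refine ⟨hF.Sh c hc, hE.third hk' ?_⟩
    exact (hE.ey b hY.1).resolve_right hY.2
  ea := by
    intro a b c T hk hb hX ha
    have hbe : adj h b := (hE.ey b hX.1).resolve_left hX.2
    refine ⟨hF.Sh a ha, ?_⟩
    by_cases hc : c = z
    · subst hc
      obtain ⟨c', T', hk', _⟩ := hF.lift2 hstr hk hb
      exact hE.tip hk' hbe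
    · obtain ⟨T', hk', _⟩ := hF.lift1 hstr hk hb hc
      exact hE.tip hk' hbe
  bad := by
    intro a b c T hk hb hX ha u hu hEu hua
    by_contra hcon
    have hbe : adj h b := (hE.ey b hX.1).resolve_left hX.2
    have hue : adj h u := (hE.ey u hEu.1).resolve_left hEu.2
    have hua' : adj u a := (hF.gam_in ha (hF.Sh u hu)).2 hua
    have hc1 : Conn adj {u} h a := Or.inr ⟨u, rfl, u, rfl, hue, ReflTransGen.refl, hua'⟩
    have hsub : ({u} : Set V) ⊆ Ch h := by
      rintro y rfl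
      exact hEu.1
    by_cases hc : c = z
    · subst hc
      obtain ⟨c', T', hk', _, _, h3⟩ := hF.lift2 hstr hk hb
      refine hE.L2 hk' hbe hsub ?_ hc1
      rintro y rfl g
      exact hcon (h3 y hu g)
    · obtain ⟨T', hk', h3, _⟩ := hF.lift1 hstr hk hb hc
      refine hE.L2 hk' hbe hsub ?_ hc1
      rintro y rfl g
      exact hcon (h3 y hu g)
  lemK := by
    intro a b c T hk hb hY u hu hEu hub
    by_contra hcon
    have hbe : adj b h := (hE.ey b hY.1).resolve_right hY.2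
    have hue : adj h u := (hE.ey u hEu.1).resolve_left hEu.2
    have hub' : adj u b := (hF.gam_in hb (hF.Sh u hu)).2 hub
    have hc1 : Conn adj {u} h b := Or.inr ⟨u, rfl, u, rfl, hue, ReflTransGen.refl, hub'⟩
    have hsub : ({u} : Set V) ⊆ Ch h := by
      rintro y rfl
      exact hEu.1
    by_cases hc : c = z
    · subst hc
      obtain ⟨c', T', hk', _, _, h3⟩ := hF.lift2 hstr hk hb
      refine hE.lemK hk' hbe hsub ?_ hc1
      rintro y rfl g
      exact hcon (h3 y hu g)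
    · obtain ⟨T', hk', h3, _⟩ := hF.lift1 hstr hk hb hc
      refine hE.lemK hk' hbe hsub ?_ hc1
      rintro y rfl g
      exact hcon (h3 y hu g)
  lemKr := by
    intro a b c T hk hb hY hzb
    by_contra hcon
    have hbe : adj b h := (hE.ey b hY.1).resolve_right hY.2
    have hbS : b ∈ S := hb.1
    -- an entry outside `S`
    obtain ⟨a1, T1, hk1⟩ := hB' b hb hzb
    obtain ⟨c', T', hk', hc'h, hc'S, _⟩ := hF.lift2 hstr hk1 hbS
    have hc'e : adj h c' := (hE.ey c' hc'h).resolve_left (hE.third hk' hbe)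
    have hzb' : adj z b := (hF.gam_in hbS hF.zh).2 hzb
    -- the path from `h` outside `S`
    have hconn : Conn adj (Out h z S ∪ {z}) h b := by
      by_cases hcz : c' = z
      · subst hcz
        exact Or.inr ⟨c', Or.inr rfl, c', Or.inr rfl, hc'e, ReflTransGen.refl, hzb'⟩
      · have hO : c' ∈ Out h z S := ⟨hc'h, hcz, hc'S⟩
        obtain ⟨y, hy, g1, g2⟩ := hF.reach hstr hO
        exact Or.inr ⟨c', Or.inl hO, z, Or.inr rfl, hc'e,
          (RR.mono Set.subset_union_left g1).tail ⟨Or.inl hy, Or.inr rfl, g2⟩, hzb'⟩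
    have hcz : c ≠ z := fun g => hcon (Or.inr (Or.inr (Or.inl g.symm)))
    obtain ⟨T2, hk2, _, h4⟩ := hF.lift1 hstr hk hbS hcz
    have hT2 : T2 = T := h4 hcon
    subst hT2
    refine hE.lemK hk2 hbe (Q := Out h z S ∪ {z}) ?_ ?_ hconn
    · rintro y (hy | hy)
      · exact hy.1
      · have : y = z := hy
        rw [this]
        exact hF.zh
    · have hin : ∀ y, InK a b c T2 y → y ∈ S := by
        intro y hy
        have hyz : y ≠ z := fun g => hcon (g ▸ hy)
        have hyi : y ∈ insert z S := by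
          rcases hy with g | g | g | ⟨i, g⟩
          · exact g ▸ hk.vC
          · exact g ▸ hk.eC
          · exact g ▸ hk.cC
          · exact hk.sub i g
        exact hyi.resolve_left hyz
      rintro y (hy | hy) g
      · exact hy.2.2 (hin y g)
      · have : y = z := hy
        exact hcon (this ▸ g)
  deg := by
    intro b hb hY x1 x2 x3
    obtain ⟨w, h1, h2, h3⟩ := hE.din b hY.1 hY.2 {x1, x2, x3} Finset.card_le_three
    simp only [Finset.mem_insert, Finset.mem_singleton, not_or] at h2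
    have h4 := (hF.gam_in hb.1 h1).1 h3
    refine ⟨w, ?_, h2.1, h2.2.1, h2.2.2, h4⟩
    rcases h4 with ⟨_, g | g, _⟩ | ⟨g, _, _⟩
    · exact Or.inr g
    · exact Or.inl g
    · exact Or.inr g

end

end Pool.Agent.H.MP_0cacf8
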