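import Pool.Agent.H.MP_0cacf8.EYS2

/-!
# Only one vertex sends outside: it is an exit
-/

set_option autoImplicit false

namespace Pool.Agent.H.MP_0cacf8

open Relation Finset Pool.Agent.H.MP_0d008e_co

variable {V : Type*} {adj : V → V → Prop} {h z : V} {S : Set V}

section

variable [Fintype V] [DecidableEq V]

theorem fan_low5 {h : V} {r : V → ℕ} (hey : ∀ u, u ≠ h → adj u h ∨ adj h u)
    (hdin : ∀ u, u ≠ h → ¬ adj h u → ∀ x y, ∃ w, w ≠ h ∧ w ≠ x ∧ w ≠ y ∧ adj w u)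
    (hr : ∀ u w w', adj u h → adj w h → adj w' h → w ≠ w' → adj w u → adj w' u →
      r w < r u ∨ r w' < r u) {M : Set V} (hM : M ⊆ Ch h) (hne : M.Nonempty) {v : V}
    (hvh : v ≠ h) (hv : ¬ adj h v) (hvM : v ∉ M) :
    ∃ (T0 T1 : Set V) (r0 r1 : V), Disjoint T0 T1 ∧ T0 ⊆ Ch h ∧ T1 ⊆ Ch h ∧
      FP (low adj h r M) {y | y ≠ h ∧ (y ∈ M ∨ adj h y)} M T0 r0 v ∧
      FP (low adj h r M) {y | y ≠ h ∧ (y ∈ M ∨ adj h y)} M T1 r1 v := by
  classical
  set E : Finset V := univ.filter (fun y => y ≠ h ∧ (y ∈ M ∨ adj h y)) with hEdef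
  have mE : ∀ y, y ∈ E ↔ y ≠ h ∧ (y ∈ M ∨ adj h y) := by
    intro y
    rw [hEdef, mem_filter]
    exact ⟨fun g => g.2, fun g => ⟨mem_univ _, g⟩⟩
  have hcoe : (((univ : Finset V).erase h : Finset V) : Set V) = Ch h := by
    ext y
    simp
  have hvE : v ∉ E := by
    rw [mE]
    rintro ⟨_, g | g⟩
    · exact hvM g
    · exact hv g
  obtain ⟨m, hm⟩ := hne
  have key : ∀ s : V, ∀ n : ℕ, ∀ u, u ≠ h → u ≠ s → r u = n →
      ∃ r0 ∈ E, r0 ≠ s ∧ RR (low adj h r M) (Ch h \ {s}) r0 u := by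
    intro s n
    induction n using Nat.strong_induction_on with
    | _ n ih =>
      intro u hu hus hn
      by_cases huE : u ∈ E
      · exact ⟨u, huE, hus, ReflTransGen.refl⟩
      · have hu' : u ∉ M ∧ ¬ adj h u := by
          rw [mE] at huE
          exact ⟨fun g => huE ⟨hu, Or.inl g⟩, fun g => huE ⟨hu, Or.inr g⟩⟩
        have hue : adj u h := (hey u hu).resolve_right hu'.2
        obtain ⟨w, hwh, hws, hwl⟩ : ∃ w, w ≠ h ∧ w ≠ s ∧ low adj h r M w u := by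
          obtain ⟨w1, a1, a2, _, a4⟩ := hdin u hu hu'.2 s s
          by_cases g1 : adj w1 h → r w1 < r u
          · exact ⟨w1, a1, a2, a4, hu'.2, hu'.1, g1⟩
          · push Not at g1
            obtain ⟨w2, b1, b2, b3, b4⟩ := hdin u hu hu'.2 s w1
            refine ⟨w2, b1, b2, b4, hu'.2, hu'.1, ?_⟩
            intro g2
            rcases hr u w1 w2 hue g1.1 g2 b3.symm a4 b4 with g3 | g3
            · exact absurd g3 (by omega)
            · exact g3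
        have harc : Induced (low adj h r M) (Ch h \ {s}) w u := ⟨⟨hwh, hws⟩, ⟨hu, hus⟩, hwl⟩
        by_cases hwE : w ∈ E
        · exact ⟨w, hwE, hws, ReflTransGen.single harc⟩
        · have hwx : adj w h := by
            rw [mE] at hwE
            exact (hey w hwh).resolve_right (fun g => hwE ⟨hwh, Or.inr g⟩)
          obtain ⟨r0, c1, c2, c3⟩ := ih (r w) (hn ▸ hwl.2.2.2 hwx) w hwh hws rfl
          exact ⟨r0, c1, c2, c3.tail harc⟩
  obtain ⟨T, r', hd, hT⟩ := fan (adj := low adj h r M) (univ.erase h) E v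
    (fun y hy => mem_erase.2 ⟨((mE y).1 hy).1, mem_univ _⟩) hvE ⟨m, (mE m).2 ⟨hM hm, Or.inl hm⟩⟩
    (by
      intro s hs
      rw [hcoe]
      exact key s _ v hvh hs.symm rfl)
  rw [hcoe] at hT
  refine ⟨T 0, T 1, r' 0, r' 1, hd, fun y hy => ((hT 0).1 hy).1, fun y hy => ((hT 1).1 hy).1,
    ⟨(mE _).1 (hT 0).2.1, (hT 0).2.2.1, fun g => ((hT 0).1 g).2 rfl, (hT 0).2.2.2⟩,
    ⟨(mE _).1 (hT 1).2.1, (hT 1).2.2.1, fun g => ((hT 1).1 g).2 rfl, (hT 1).2.2.2⟩⟩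

/-- Two disjoint paths to the non-entry `z`, one from `m` and one from an entry. -/
theorem EYB.fx (hE : EYB adj h) {m z : V} {B : Set V} (hm : m ≠ h) (hz : z ≠ h) (hmz : m ≠ z)
    (hzn : ¬ adj h z) (hB : ∀ y ∈ B, y ≠ h ∧ y ≠ m ∧ y ≠ z) (hc : Conn adj B m z) :
    ∃ (B' P : Set V) (e : V), adj h e ∧ e ≠ m ∧ e ≠ z ∧ e ∉ B' ∧ Conn adj B' m z ∧ Conn adj P e z ∧
      (∀ y ∈ B', y ≠ h ∧ y ≠ m ∧ y ≠ z ∧ RR adj (Ch h \ {m}) y z) ∧
      (∀ y ∈ P, y ≠ h ∧ y ≠ m ∧ y ≠ z ∧ y ∉ B' ∧ RR adj (Ch h \ {m}) y z) ∧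
      RR adj (Ch h \ {m}) e z := by
  obtain ⟨r, hr⟩ := hE.ranks
  obtain ⟨T0, T1, r0, r1, hd, hT0, hT1, f0, f1⟩ := fan_low5 (M := {m}) hE.ey
    (fun u hu hu' x y => by
      obtain ⟨w, h1, h2, h3⟩ := hE.din u hu hu' {x, y} (Finset.card_le_two.trans (by norm_num))
      simp only [Finset.mem_insert, Finset.mem_singleton, not_or] at h2
      exact ⟨w, h1, h2.1, h2.2, h3⟩) hr
    (by
      rintro y rfl
      exact hm) ⟨m, rfl⟩ hz hzn (fun g => hmz g.symm)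
  have hL : ∀ u w, low adj h r {m} u w → w ∉ ({m} : Set V) := fun u w g => g.2.2.1
  obtain ⟨B0, P0, e, z1, z2, z3, z4, z5, z6, z7, z8, z9⟩ :=
    exch hL (fun u w g => g.1) f0 f1 hd (rfl : m ∈ ({m} : Set V)) (fun y hy g => (hB y hy).2.1 g) hc
  have hee : adj h e := z1.2.resolve_left z2
  have heh : e ≠ h := z1.1
  have h7 : ∀ y ∈ B0, y ≠ h ∧ y ≠ m ∧ y ≠ z := by
    intro y hy
    refine ⟨?_, fun g => (z8 y hy).2 g, ?_⟩
    · rcases (z8 y hy).1 with g | g | g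
      · exact (hB y g).1
      · exact hT0 g
      · exact hT1 g
    · rcases (z8 y hy).1 with g | g | g
      · exact (hB y g).2.2
      · exact fun k => f0.vT (k ▸ g)
      · exact fun k => f1.vT (k ▸ g)
  have h8 : ∀ y ∈ P0, y ≠ h ∧ y ≠ m ∧ y ≠ z ∧ y ∉ B0 := by
    intro y hy
    refine ⟨?_, fun g => (z9 y hy).2.1 g, ?_, (z9 y hy).2.2⟩
    · rcases (z9 y hy).1 with g | g
      · exact hT0 g
      · exact hT1 g
    · rcases (z9 y hy).1 with g | g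
      · exact fun k => f0.vT (k ▸ g)
      · exact fun k => f1.vT (k ▸ g)
  have h6 : Conn adj P0 e z := Conn.congr (fun u w _ _ g => g.1) z7
  have key : ∀ {W : Set V} {w : V}, (∀ y ∈ W, y ≠ h ∧ y ≠ m) → Tail adj W w z →
      RR adj (Ch h \ {m}) w z := by
    rintro W w hW (g | ⟨hw, q, hq, g1, g2⟩)
    · subst g
      exact ReflTransGen.refl
    · exact (RR.mono (fun y hy => hW y hy) g1).tail ⟨hW q hq, ⟨hz, hmz.symm⟩, g2⟩
  refine ⟨B0 ∩ {y | Tail adj B0 y z}, P0 ∩ {y | Tail adj P0 y z}, e, hee, z2, z3, fun g => z4 g.1,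
    z6.tails, h6.tails, ?_, ?_, ?_⟩
  · intro y hy
    have g := h7 y hy.1
    exact ⟨g.1, g.2.1, g.2.2, key (fun y hy => ⟨(h7 y hy).1, (h7 y hy).2.1⟩) hy.2⟩
  · intro y hy
    have g := h8 y hy.1
    exact ⟨g.1, g.2.1, g.2.2.1, fun k => g.2.2.2 k.1,
      key (fun y hy => ⟨(h8 y hy).1, (h8 y hy).2.1⟩) hy.2⟩
  · rcases h6 with g | ⟨p, hp, q, hq, g1, g2, g3⟩
    · exact ReflTransGen.single ⟨⟨heh, z2⟩, ⟨hz, hmz.symm⟩, g⟩
    · have hP' : ∀ y ∈ P0, y ∈ Ch h \ {m} := fun y hy => ⟨(h8 y hy).1, (h8 y hy).2.1⟩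
      exact ReflTransGen.head ⟨⟨heh, z2⟩, hP' p hp, g1⟩
        ((RR.mono hP' g2).tail ⟨hP' q hq, ⟨hz, hmz.symm⟩, g3⟩)

/-- If `y` is the only vertex of `S` sending outside, the arc from `y` to `z` in the torso is a
path of a subdivision minus an arc. -/
theorem Frag.oneK (irr : ∀ u, ¬ adj u u) (hstr : ∀ u w, u ≠ h → w ≠ h → RR adj (Ch h) u w)
    (hF : Frag adj h S z) {y : V} (hy : y ∈ S) (hyz : gam adj h z S y z)
    (hS2 : ∃ s ∈ S, s ≠ y) :
    ∃ (c : V) (T : Seg → Set V), IsK (gam adj h z S) (insert z S) z y c T ∧ T .b = ∅ := by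
  have hT := hF.torso irr hstr
  have hyz' : y ≠ z := fun g => hF.zS (g ▸ hy)
  have hsub : ∀ s, S \ {s} ⊆ insert z S \ {s} := fun s w hw => ⟨Or.inr hw.1, hw.2⟩
  have gRR : ∀ {s a b : V}, RR adj (S \ {s}) a b → RR (gam adj h z S) (insert z S \ {s}) a b :=
    fun g => RR.mono (hsub _) (Frag.gam_RR Set.sdiff_subset g)
  have toy : ∀ s, s ≠ y → s ≠ z → ∀ a ∈ S, a ≠ s →
      RR (gam adj h z S) (insert z S \ {s}) z a := by
    intro s hsy hsz a ha has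
    obtain ⟨n, n1, n2, n3, n4⟩ := hF.reachN hstr s ha has
    exact ReflTransGen.head ⟨⟨Or.inl rfl, hsz.symm⟩, ⟨Or.inr n1, n3⟩,
      Or.inl ⟨n1, Or.inr rfl, n2⟩⟩ (gRR n4)
  refine gArc (adj := gam adj h z S) (C := insert z S)
    (N := {r | r ∈ insert z S ∧ gam adj h z S r y}) hT.irr (Or.inr hy) (Or.inl rfl) hyz
    (fun r hr => hr) ?_ ?_ ?_
  · intro s hs
    by_cases hsz : s = z
    · subst hsz
      obtain ⟨t, ht, hty⟩ := hS2
      rcases ReflTransGen.cases_tail (hF.inS ht hy) with g | ⟨r, _, g⟩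
      · exact absurd g.symm hty
      · have hr : r ∈ S := g.1
        refine ⟨r, ⟨Or.inr hr, Or.inl ⟨hy, Or.inl hr, g.2.2⟩⟩, fun k => hF.zS (k ▸ hr), ?_⟩
        have h1 := hF.inS hy hr
        refine RR.mono ?_ (Frag.gam_RR (Set.Subset.refl _) h1)
        exact fun w hw => ⟨Or.inr hw, fun k => hF.zS ((show w = s from k) ▸ hw)⟩
    · obtain ⟨n, n1, n2, n3, n4⟩ := hF.reachN hstr s hy hs.symm
      have hz1 : Induced (gam adj h z S) (insert z S \ {s}) y z :=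
        ⟨⟨Or.inr hy, hs.symm⟩, ⟨Or.inl rfl, fun k => hsz k.symm⟩, hyz⟩
      rcases ReflTransGen.cases_tail n4 with g | ⟨r, g1, g2⟩
      · subst g
        exact ⟨z, ⟨Or.inl rfl, Or.inl ⟨hy, Or.inr rfl, n2⟩⟩, fun k => hsz k.symm,
          ReflTransGen.single hz1⟩
      · refine ⟨r, ⟨Or.inr g2.1.1, Or.inl ⟨hy, Or.inl g2.1.1, g2.2.2⟩⟩, g2.1.2, ?_⟩
        exact ReflTransGen.head hz1 (ReflTransGen.head ⟨⟨Or.inl rfl, fun k => hsz k.symm⟩,
          ⟨Or.inr n1, n3⟩, Or.inl ⟨n1, Or.inr rfl, n2⟩⟩ (gRR g1))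
  · rintro r ⟨hr, hry⟩
    rcases hr with hr | hr
    · rw [hr]
    · have hry' : r ≠ y := fun g => hT.irr y (g ▸ hry)
      obtain ⟨n, n1, n2, n3, n4⟩ := hF.reachN hstr y hr hry'
      exact ReflTransGen.head ⟨⟨Or.inl rfl, fun g => hyz' g.symm⟩, ⟨Or.inr n1, n3⟩,
        Or.inl ⟨n1, Or.inr rfl, n2⟩⟩ (gRR n4)
  · intro s h1 h2
    exact toy s h2 h1 y hy h2.symm

/-- If `y` is the only vertex of `S` sending outside, it is an exit and not an entry. -/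
theorem Frag.one (hE : EYB adj h) (hstr : ∀ u w, u ≠ h → w ≠ h → RR adj (Ch h) u w)
    (hF : Frag adj h S z) {y : V} (hy : y ∈ S) (honly : ∀ q ∈ S, gam adj h z S q z → q = y)
    (hS2 : ∃ s ∈ S, s ≠ y) : TY adj h y := by
  classical
  have hyh := hF.Sh y hy
  have hyz' : y ≠ z := fun g => hF.zS (g ▸ hy)
  have hyz : gam adj h z S y z := by
    obtain ⟨q, hq, g⟩ := (hF.torso hE.irr hstr).out
    exact honly q hq g ▸ g
  refine ⟨hyh, fun hyE => ?_⟩
  obtain ⟨c, T, hk, hTb⟩ := hF.oneK hE.irr hstr hy hyz hS2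
  have hSz : insert z S ⊆ Ch h := by
    rintro y (g | g)
    · rw [g]
      exact hF.zh
    · exact hF.Sh y g
  have hcz : c ≠ z := hk.vc.symm
  have hcS : c ∈ S := hk.cC.resolve_left hcz
  have hTS : ∀ i, T i ⊆ S := fun i w hw =>
    (hk.sub i hw).resolve_left fun g => hk.nv i (g ▸ hw)
  -- the subdivision for an arbitrary path outside
  have hkP : ∀ P : Set V, P ⊆ Out h z S → Conn adj P y z →
      IsK adj (Ch h) z y c (fun j => if j = Seg.b then P else T j) := by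
    intro P hP hc
    refine hk.repl .b (hSz hk.vC) (hSz hk.eC) (hSz hk.cC) (fun w hw => (hP hw).1)
      (fun j _ => (hk.sub j).trans hSz) (fun g => (hP g).2.1 rfl) (fun g => (hP g).2.2 hy)
      (fun g => (hP g).2.2 hcS) (fun j _ u hu g => (hP hu).2.2 (hTS j g)) hc ?_
    intro j hj
    refine Frag.gam_conn' (hk.nv j) ?_ (hk.conn j)
    cases j
    · exact hyz'
    · exact absurd rfl hj
    · exact hcz
    · exact hcz
    · exact hyz'
  -- walks from `S` to `z` pass `y`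
  have hsep : ∀ w ∈ S, w ≠ y → ¬ RR adj (Ch h \ {y}) w z := by
    intro w hw hwy hr
    rcases last_exit (B := S) hr hF.zS with g | ⟨t, o, g1, g2, g3, g4, g5, _⟩
    · exact absurd hw g.2
    · exact g1.2 (honly t g2 (Or.inr ⟨g2, rfl, o, g3.1, g4, g5⟩))
  obtain ⟨P0, hP0, hc0⟩ : ∃ P0 ⊆ Out h z S, Conn adj P0 y z :=
    ⟨_, Set.Subset.refl _, hF.gam_arc hstr hyz⟩
  have hzn : ¬ adj h z := hE.tip (hkP P0 hP0 hc0) hyE
  obtain ⟨B', P, e, e1, e2, e3, e4, e5, e6, e7, e8, e9⟩ := hE.fx hyh hF.zh hyz' hzn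
    (fun w hw => ⟨(hP0 hw).1, fun g => (hP0 hw).2.2 (g ▸ hy), (hP0 hw).2.1⟩) hc0
  have heh : e ≠ h := by
    rintro rfl
    exact hE.irr _ e1
  have heO : e ∈ Out h z S := ⟨heh, e3, fun g => hsep e g e2 e9⟩
  have hB'O : B' ⊆ Out h z S := fun w hw =>
    ⟨(e7 w hw).1, (e7 w hw).2.2.1, fun g => hsep w g (e7 w hw).2.1 (e7 w hw).2.2.2⟩
  have hPO : P ⊆ Out h z S := fun w hw =>
    ⟨(e8 w hw).1, (e8 w hw).2.2.1, fun g => hsep w g (e8 w hw).2.1 (e8 w hw).2.2.2.2⟩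
  have hk2 := hkP B' hB'O e5
  have hconn : Conn adj (P ∪ {e}) h z := by
    have := Conn.join (U := ∅) (Or.inl e1 : Conn adj ∅ h e) e6
    rw [Set.empty_union] at this
    exact Or.inr this
  refine hE.L2 hk2 hyE (Q := P ∪ {e}) ?_ ?_ hconn
  · rintro w (hw | hw)
    · exact (hPO hw).1
    · have : w = e := hw
      rw [this]
      exact heh
  · have hgen : ∀ w, w ∈ Out h z S → w ∉ B' →
        ¬ OnK z y c (fun j => if j = Seg.b then B' else T j) w := by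
      rintro w hw hwB (g | g | g | ⟨j, g⟩)
      · exact hw.2.1 g
      · exact hw.2.2 (g ▸ hy)
      · exact hw.2.2 (g ▸ hcS)
      · by_cases hj : j = Seg.b
        · simp only [hj, if_true] at g
          exact hwB g
        · simp only [if_neg hj] at g
          exact hw.2.2 (hTS j g)
    rintro w (hw | hw)
    · exact hgen w (hPO hw) (e8 w hw).2.2.2.1
    · have : w = e := hw
      rw [this]
      exact hgen e heO e4

end

end Pool.Agent.H.MP_0cacf8
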