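import Pool.Agent.H.MP_0cacf8.EYT2

/-!
# Torso lemma: loops
-/

set_option autoImplicit false

namespace Pool.Agent.H.MP_0cacf8

open Relation Pool.Agent.H.MP_0d008e_co

section merge

variable {V : Type*} {adj : V → V → Prop}

/-- Two walks inside `X` which reach `r` meet. -/
theorem lp_merge [Finite V] {X T : Set V} {p a q b r s : V} (hpa : Conn adj T p a) (ha : a ∈ X)
    (hqb : adj q b) (hb : b ∈ X) (h1 : RR adj X a r) (h2 : RR adj X b r) (hrs : adj r s) :
    ∃ c ∈ X, ∃ T1 T2 T3 : Set V, T1 ⊆ X \ {c} ∧ T2 ⊆ X \ {c} ∧ T3 ⊆ X \ {c} ∧ Disjoint T1 T2 ∧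
      Disjoint T1 T3 ∧ Disjoint T2 T3 ∧ Conn adj (T ∪ T1) p c ∧ Conn adj T2 q c ∧
      Conn adj T3 c s := by
  have hr : r ∈ X := h1.mem_right ha
  -- the first hit of the walk from `b`
  have key : ∀ B : Set V, B ⊆ X → r ∈ B → ∃ c ∈ B, Conn adj (X \ B) q c := by
    intro B hB hrB
    by_cases hbB : b ∈ B
    · exact ⟨b, hbB, Or.inl hqb⟩
    · rcases first_hit (B := B) h2 hbB with ⟨_, g⟩ | ⟨y, z, g1, g2, g3, _, g5, g6, _⟩
      · exact absurd hrB g
      · exact ⟨z, g5, Or.inr ⟨b, ⟨hb, hbB⟩, y, ⟨g2, g3⟩, hqb, g1, g6⟩⟩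
  have hj : ∀ {W : Set V} {c : V}, Conn adj W c r → Conn adj (W ∪ {r}) c s := by
    intro W c k
    have h := Conn.join k (W := ∅) (Or.inl hrs)
    rw [Set.empty_union] at h
    exact Or.inr h
  by_cases har : a = r
  · subst har
    obtain ⟨c, hc, h3⟩ := key {a} (Set.singleton_subset_iff.2 ha) rfl
    have hc' : c = a := hc
    subst hc'
    refine ⟨c, ha, ∅, X \ {c}, ∅, Set.empty_subset _, Set.Subset.refl _, Set.empty_subset _,
      Set.empty_disjoint _, Set.empty_disjoint _, Set.disjoint_empty _, ?_, h3, Or.inl hrs⟩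
    rw [Set.union_empty]
    exact hpa
  · obtain ⟨Q, hQ, hm⟩ := exists_MP (conn_of_RR h1 har)
    have hQX : Q ⊆ X := fun y hy => (hQ hy).1.1
    have hQa : a ∉ Q := fun h => (hQ h).1.2 rfl
    have hQr : r ∉ Q := fun h => (hQ h).2 rfl
    obtain ⟨c, hc, h3⟩ := key (Q ∪ {a, r}) (by
      rintro y (hy | hy | hy)
      · exact hQX hy
      · rw [hy]; exact ha
      · rw [show y = r from hy]; exact hr) (Or.inr (Or.inr rfl))
    have hT2 : X \ (Q ∪ {a, r}) ⊆ X \ {c} := by
      rintro y ⟨hy, hy'⟩
      refine ⟨hy, ?_⟩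
      intro h4
      rw [show y = c from h4] at hy'
      exact hy' hc
    rcases hc with hc | hc | hc
    · -- inside `Q`
      obtain ⟨U, W, hU, hW, hUW, k1, k2⟩ := hm.split hc
      refine ⟨c, hQX hc, U ∪ {a}, X \ (Q ∪ {a, r}), W ∪ {r}, ?_, hT2, ?_, ?_, ?_, ?_, ?_, h3, hj k2⟩
      · rintro y (hy | hy)
        · exact ⟨hQX (hU hy).1, (hU hy).2⟩
        · rw [show y = a from hy]
          exact ⟨ha, fun h4 => hQa (by rw [show a = c from h4]; exact hc)⟩
      · rintro y (hy | hy)
        · exact ⟨hQX (hW hy).1, (hW hy).2⟩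
        · rw [show y = r from hy]
          exact ⟨hr, fun h4 => hQr (by rw [show r = c from h4]; exact hc)⟩
      · rw [Set.disjoint_left]
        rintro y (hy | hy) ⟨_, h4⟩
        · exact h4 (Or.inl (hU hy).1)
        · exact h4 (Or.inr (Or.inl hy))
      · rw [Set.disjoint_left]
        rintro y (hy | hy) (h4 | h4)
        · exact Set.disjoint_left.1 hUW hy h4
        · exact hQr (by rw [← show y = r from h4]; exact (hU hy).1)
        · exact hQa (by rw [← show y = a from hy]; exact (hW h4).1)
        · exact har ((show y = a from hy).symm.trans h4)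
      · rw [Set.disjoint_left]
        rintro y ⟨_, h4⟩ (h5 | h5)
        · exact h4 (Or.inl (hW h5).1)
        · exact h4 (Or.inr (Or.inr h5))
      · exact Or.inr (Conn.join hpa k1)
    · -- `c = a`
      have hc' : c = a := hc
      subst hc'
      refine ⟨c, ha, ∅, X \ (Q ∪ {c, r}), Q ∪ {r}, Set.empty_subset _, hT2, ?_,
        Set.empty_disjoint _, Set.empty_disjoint _, ?_, ?_, h3, hj hm.1⟩
      · rintro y (hy | hy)
        · exact ⟨hQX hy, fun h4 => hQa (by rw [← show y = c from h4]; exact hy)⟩
        · rw [show y = r from hy]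
          exact ⟨hr, fun h4 => har (show r = c from h4).symm⟩
      · rw [Set.disjoint_left]
        rintro y ⟨_, h4⟩ (h5 | h5)
        · exact h4 (Or.inl h5)
        · exact h4 (Or.inr (Or.inr h5))
      · rw [Set.union_empty]
        exact hpa
    · -- `c = r`
      have hc' : c = r := hc
      subst hc'
      refine ⟨c, hr, Q ∪ {a}, X \ (Q ∪ {a, c}), ∅, ?_, hT2, Set.empty_subset _, ?_,
        Set.disjoint_empty _, Set.disjoint_empty _, ?_, h3, Or.inl hrs⟩
      · rintro y (hy | hy)
        · exact ⟨hQX hy, fun h4 => hQr (by rw [← show y = c from h4]; exact hy)⟩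
        · rw [show y = a from hy]
          exact ⟨ha, fun h4 => har h4⟩
      · rw [Set.disjoint_left]
        rintro y (hy | hy) ⟨_, h4⟩
        · exact h4 (Or.inl hy)
        · exact h4 (Or.inr (Or.inl hy))
      · exact Or.inr (Conn.join hpa hm.1)

end merge

variable {V : Type*} {g : V → V → Prop} {Q : Set V} {r : V}

/-- `a` sends into the class of `b`. -/
def En (g : V → V → Prop) (Q : Set V) (r a b : V) : Prop := ∃ v, g a v ∧ Cl g Q r b v

namespace Torso

theorem Cl_mem (_T : Torso g Q r) {p v : V} (hp : Top g Q r p) (h : Cl g Q r p v) :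
    v ∈ insert r Q := by
  rcases h with h | h
  · rw [h]
    rcases hp with hp | hp
    · exact Or.inl hp
    · exact Or.inr hp.1
  · exact Or.inr h.2.1

/-- inside a class one reaches its top -/
theorem cl_rr (T : Torso g Q r) {p v : V} (h : Cl g Q r p v) :
    RR g {u | Cl g Q r p u} v p := by
  rcases h with h | h
  · rw [h]
  · have h1 : RR g Q v p := T.str v h.2.1 p h.1
    have key : ∀ v, RR g Q v p → Cl g Q r p v → RR g {u | Cl g Q r p u} v p := by
      intro v hv
      induction hv using ReflTransGen.head_induction_on with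
      | refl => intro _; exact ReflTransGen.refl
      | @head a c hac hc ih =>
        intro ha
        rcases ha with ha | ha
        · rw [ha]
        · have hc' : Cl g Q r p c := T.dom_out ha (Or.inr hac.2.1) hac.2.2
          exact ReflTransGen.head ⟨Or.inr ha, hc', hac.2.2⟩ (ih hc')
    exact key v h1 (Or.inr h)

/-- A walk through classes. -/
theorem chain (T : Torso g Q r) (w : ℕ → V) (m : ℕ) (hEn : ∀ k < m, En g Q r (w k) (w (k + 1)))
    {a : V} (ha : g (w m) a) :
    Conn g {u | ∃ k, 1 ≤ k ∧ k ≤ m ∧ Cl g Q r (w k) u} (w 0) a := by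
  induction m generalizing a with
  | zero => exact Or.inl ha
  | succ m ih =>
    obtain ⟨v, hv, hcv⟩ := hEn m (Nat.lt_succ_self m)
    have h1 := ih (fun k hk => hEn k (Nat.lt_succ_of_lt hk)) hv
    have h2 := Conn.glue h1 (T := {u | Cl g Q r (w (m + 1)) u}) hcv (Or.inl rfl) (T.cl_rr hcv) ha
    refine Or.inr (ConnN.mono ?_ h2)
    rintro u (⟨k, h3, h4, h5⟩ | hu)
    · exact ⟨k, h3, by omega, h5⟩
    · exact ⟨m + 1, by omega, le_refl _, hu⟩

end Torso

/-- The subdivision of a loop. -/
theorem loopK [Finite V] (T : Torso g Q r) (n i : ℕ) (z : ℕ → V) (hi : 0 < i) (hin : i < n)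
    (top : ∀ k ≤ n, Top g Q r (z k)) (inj : ∀ i ≤ n, ∀ j ≤ n, z i = z j → i = j)
    (down : ∀ k < n, En g Q r (z (k + 1)) (z k)) (close : En g Q r (z 0) (z n))
    (h1 : g (z (i - 1)) (z i)) (h2 : En g Q r (z i) (z (i + 1))) (h3 : g (z (i + 1)) (z i)) :
    ∃ (c : V) (S : Seg → Set V), IsK g (insert r Q) (z (i - 1)) (z i) c S ∧
      ∀ u, InK (z (i - 1)) (z i) c S u → ∃ k ≤ n, Cl g Q r (z k) u := by
  have uniq : ∀ i ≤ n, ∀ j ≤ n, ∀ v, Cl g Q r (z i) v → Cl g Q r (z j) v → i = j := fun i hi j hj v
    ha hb => inj i hi j hj (T.top_unique (top i hi) (top j hj) ha hb)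
  -- the walk from `z (i - 1)` to the class of `z (i + 1)`
  set w : ℕ → V := fun k => if k < i then z (i - 1 - k) else z (n + i - k) with hw
  obtain ⟨a, ha, hca⟩ : En g Q r (w (n - 2)) (z (i + 1)) := by
    by_cases hni : n = i + 1
    · have h4 : w (n - 2) = z 0 := by
        rw [hw]
        show (if n - 2 < i then z (i - 1 - (n - 2)) else z (n + i - (n - 2))) = z 0
        rw [if_pos (by omega)]
        congr 1
        omega
      rw [h4, ← hni]
      exact close
    · have h4 : w (n - 2) = z (i + 2) := by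
        rw [hw]
        show (if n - 2 < i then z (i - 1 - (n - 2)) else z (n + i - (n - 2))) = z (i + 2)
        rw [if_neg (by omega)]
        congr 1
        omega
      rw [h4]
      exact down (i + 1) (by omega)
  have hw0 : w 0 = z (i - 1) := by
    rw [hw]
    show (if 0 < i then z (i - 1 - 0) else z (n + i - 0)) = z (i - 1)
    rw [if_pos hi]
    rfl
  have hEn : ∀ k < n - 2, En g Q r (w k) (w (k + 1)) := by
    intro k hk
    rw [hw]
    show En g Q r (if k < i then z (i - 1 - k) else z (n + i - k))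
      (if k + 1 < i then z (i - 1 - (k + 1)) else z (n + i - (k + 1)))
    by_cases hki : k < i
    · rw [if_pos hki]
      by_cases hki' : k + 1 < i
      · rw [if_pos hki']
        have := down (i - 1 - (k + 1)) (by omega)
        rwa [show i - 1 - (k + 1) + 1 = i - 1 - k by omega] at this
      · rw [if_neg hki', show i - 1 - k = 0 by omega, show n + i - (k + 1) = n by omega]
        exact close
    · rw [if_neg hki, if_neg (by omega)]
      have := down (n + i - (k + 1)) (by omega)
      rwa [show n + i - (k + 1) + 1 = n + i - k by omega] at this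
  have hch := T.chain w (n - 2) hEn ha
  rw [hw0] at hch
  -- the set of the walk
  set W : Set V := {u | ∃ k, 1 ≤ k ∧ k ≤ n - 2 ∧ Cl g Q r (w k) u} with hW
  have hWk : ∀ u ∈ W, ∃ k ≤ n, k ≠ i - 1 ∧ k ≠ i ∧ k ≠ i + 1 ∧ Cl g Q r (z k) u := by
    rintro u ⟨k, hk1, hk2, hk3⟩
    by_cases hki : k < i
    · refine ⟨i - 1 - k, by omega, by omega, by omega, by omega, ?_⟩
      have : w k = z (i - 1 - k) := by
        rw [hw]
        exact if_pos hki
      rwa [this] at hk3
    · refine ⟨n + i - k, by omega, by omega, by omega, by omega, ?_⟩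
      have : w k = z (n + i - k) := by
        rw [hw]
        exact if_neg hki
      rwa [this] at hk3
  obtain ⟨b, hb, hcb⟩ := h2
  obtain ⟨c, hc, T1, T2, T3, hT1, hT2, hT3, d12, d13, d23, k1, k2, k3⟩ :=
    lp_merge (X := {u | Cl g Q r (z (i + 1)) u}) hch hca hb hcb (T.cl_rr hca) (T.cl_rr hcb) h3
  -- the walk from `z i` up to `z (i - 1)`
  obtain ⟨v, hv, hcv⟩ : En g Q r (z i) (z (i - 1)) := by
    have := down (i - 1) (by omega)
    rwa [show i - 1 + 1 = i by omega] at this
  have kB : Conn g {u | Dom g Q r (z (i - 1)) u} (z i) (z (i - 1)) := by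
    rcases hcv with hcv | hcv
    · rw [hcv] at hv
      exact Or.inl hv
    · rcases first_hit (B := {z (i - 1)}) (T.cl_rr (Or.inr hcv)) (fun h => hcv.2.2.1 h) with
        ⟨_, h⟩ | ⟨y, t, g1, g2, g3, g4, g5, g6, _⟩
      · exact absurd rfl h
      · have ht : t = z (i - 1) := g5
        subst ht
        have hs : {u | Cl g Q r (z (i - 1)) u} \ {z (i - 1)} ⊆ {u | Dom g Q r (z (i - 1)) u} := by
          rintro u ⟨hu | hu, hu'⟩
          · exact absurd hu hu'
          · exact hu
        exact Or.inr ⟨v, hcv, y, hs ⟨g2, g3⟩, hv, RR.mono hs g1, g6⟩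
  have hcl : ∀ u, u = c → Cl g Q r (z (i + 1)) u := fun u hu => by rw [hu]; exact hc
  have e1 : ∀ u, u = z (i - 1) → Cl g Q r (z (i - 1)) u := fun u hu => Or.inl hu
  have e2 : ∀ u, u = z i → Cl g Q r (z i) u := fun u hu => Or.inl hu
  have sub1 : ∀ u, u ∈ T1 → Cl g Q r (z (i + 1)) u := fun u hu => (hT1 hu).1
  have sub2 : ∀ u, u ∈ T2 → Cl g Q r (z (i + 1)) u := fun u hu => (hT2 hu).1
  have sub3 : ∀ u, u ∈ T3 → Cl g Q r (z (i + 1)) u := fun u hu => (hT3 hu).1
  have hK := mkK (adj := g) (C := insert r Q) (A1 := ∅) (B := {u | Dom g Q r (z (i - 1)) u})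
    (A2 := W ∪ T1) (B2 := T2) (C1 := T3) (v := z (i - 1)) (e := z i) (c := c)
    (T.Cl_mem (top (i - 1) (by omega)) (Or.inl rfl)) (T.Cl_mem (top i (by omega)) (Or.inl rfl))
    (T.Cl_mem (top (i + 1) (by omega)) hc)
    (fun h => by
      have := inj (i - 1) (by omega) i (by omega) h
      omega)
    (fun h => by
      have := uniq (i - 1) (by omega) (i + 1) (by omega) c (Or.inl h.symm) hc
      omega)
    (fun h => by
      have := uniq i (by omega) (i + 1) (by omega) c (Or.inl h.symm) hc
      omega)
    (by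
      intro j y hy
      cases j with
      | a1 => exact absurd hy (Set.notMem_empty y)
      | b =>
        have hy : Dom g Q r (z (i - 1)) y := hy
        refine ⟨Or.inr hy.2.1, hy.2.2.1, fun h => ?_, fun h => ?_⟩
        · have := uniq (i - 1) (by omega) i (by omega) y (Or.inr hy) (e2 y h)
          omega
        · have := uniq (i - 1) (by omega) (i + 1) (by omega) y (Or.inr hy) (hcl y h)
          omega
      | a2 =>
        have hy : y ∈ W ∪ T1 := hy
        rcases hy with hy | hy
        · obtain ⟨k, l1, l2, l3, l4, l5⟩ := hWk y hy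
          refine ⟨T.Cl_mem (top k l1) l5, fun h => ?_, fun h => ?_, fun h => ?_⟩
          · exact l2 (uniq k l1 (i - 1) (by omega) y l5 (e1 y h))
          · exact l3 (uniq k l1 i (by omega) y l5 (e2 y h))
          · exact l4 (uniq k l1 (i + 1) (by omega) y l5 (hcl y h))
        · refine ⟨T.Cl_mem (top (i + 1) (by omega)) (sub1 y hy), fun h => ?_, fun h => ?_,
            (hT1 hy).2⟩
          · have := uniq (i + 1) (by omega) (i - 1) (by omega) y (sub1 y hy) (e1 y h)
            omega
          · have := uniq (i + 1) (by omega) i (by omega) y (sub1 y hy) (e2 y h)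
            omega
      | b2 =>
        have hy : y ∈ T2 := hy
        refine ⟨T.Cl_mem (top (i + 1) (by omega)) (sub2 y hy), fun h => ?_, fun h => ?_,
          (hT2 hy).2⟩
        · have := uniq (i + 1) (by omega) (i - 1) (by omega) y (sub2 y hy) (e1 y h)
          omega
        · have := uniq (i + 1) (by omega) i (by omega) y (sub2 y hy) (e2 y h)
          omega
      | c1 =>
        have hy : y ∈ T3 := hy
        refine ⟨T.Cl_mem (top (i + 1) (by omega)) (sub3 y hy), fun h => ?_, fun h => ?_,
          (hT3 hy).2⟩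
        · have := uniq (i + 1) (by omega) (i - 1) (by omega) y (sub3 y hy) (e1 y h)
          omega
        · have := uniq (i + 1) (by omega) i (by omega) y (sub3 y hy) (e2 y h)
          omega)
    (by
      intro y
      have dB : Dom g Q r (z (i - 1)) y → ¬ Cl g Q r (z (i + 1)) y := fun h h' => by
        have := uniq (i - 1) (by omega) (i + 1) (by omega) y (Or.inr h) h'
        omega
      have dW : y ∈ W → ¬ Cl g Q r (z (i + 1)) y := fun h h' => by
        obtain ⟨k, l1, l2, l3, l4, l5⟩ := hWk y h
        exact l4 (uniq k l1 (i + 1) (by omega) y l5 h')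
      refine ⟨fun h => absurd h (Set.notMem_empty y), fun h => ⟨?_, ?_, ?_⟩, ?_, fun h h' => ?_⟩
      · rintro (h4 | h4)
        · obtain ⟨k, l1, l2, l3, l4, l5⟩ := hWk y h4
          exact l2 (uniq k l1 (i - 1) (by omega) y l5 (Or.inr h))
        · exact dB h (sub1 y h4)
      · exact fun h4 => dB h (sub2 y h4)
      · exact fun h4 => dB h (sub3 y h4)
      · rintro (h | h)
        · exact ⟨fun h4 => dW h (sub2 y h4), fun h4 => dW h (sub3 y h4)⟩
        · exact ⟨fun h4 => Set.disjoint_left.1 d12 h h4, fun h4 => Set.disjoint_left.1 d13 h h4⟩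
      · exact Set.disjoint_left.1 d23 h h')
    (Or.inl h1) kB k1 k2 k3
  refine ⟨c, _, hK, ?_⟩
  rintro u (h | h | h | ⟨j, hj⟩)
  · exact ⟨i - 1, by omega, e1 u h⟩
  · exact ⟨i, by omega, e2 u h⟩
  · exact ⟨i + 1, by omega, hcl u h⟩
  · cases j with
    | a1 => exact absurd hj (Set.notMem_empty u)
    | b => exact ⟨i - 1, by omega, Or.inr hj⟩
    | a2 =>
      have hj : u ∈ W ∪ T1 := hj
      rcases hj with hj | hj
      · obtain ⟨k, l1, l2, l3, l4, l5⟩ := hWk u hj
        exact ⟨k, l1, l5⟩
      · exact ⟨i + 1, by omega, sub1 u hj⟩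
    | b2 => exact ⟨i + 1, by omega, sub2 u hj⟩
    | c1 => exact ⟨i + 1, by omega, sub3 u hj⟩

section T3

variable {E Y : V → Prop} [Fintype V] [DecidableEq V]

omit [Fintype V] [DecidableEq V] in
theorem IsP_IsM (T : Torso g Q r) (H : Typed g Q r E Y) {u : V} (h1 : u = r ∨ (R0 g Q r u ∧ E u))
    (h2 : R0 g Q r u ∧ Y u) : False := by
  rcases h1 with h1 | h1
  · exact T.rQ (by rw [← h1]; exact h2.1.1)
  · exact H.EY u h1.2 h2.2

/-- the facts on two neighbours -/
theorem Dlt_facts (T : Torso g Q r) (H : Typed g Q r E Y) (two : ∀ x, ∃ x', R0 g Q r x' ∧ x' ≠ x)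
    {p y : V} (h : Dlt g Q r E Y p y) :
    p ≠ y ∧ Top g Q r p ∧ Top g Q r y ∧ g p y ∧ En g Q r y p ∧ En g Q r p y := by
  obtain ⟨h1, h2, v, h3, h4⟩ := h
  have hne : p ≠ y := by
    rintro rfl
    exact IsP_IsM T H h2 h1
  have hp : Top g Q r p := by
    rcases h2 with h2 | h2
    · exact Or.inl h2
    · exact Or.inr h2.1
  have h5 := (T2_two T H h1.1 h1.2 (two y) hp hne h3 h4).1
  exact ⟨hne, hp, Or.inr h1.1, h5, ⟨v, h3, h4⟩, ⟨y, h5, Or.inl rfl⟩⟩

omit [Fintype V] [DecidableEq V] in
theorem Sim_symm {a b : V} (h : Sim g Q r E Y a b) : Sim g Q r E Y b a := h.symm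

theorem Sim_facts (T : Torso g Q r) (H : Typed g Q r E Y) (two : ∀ x, ∃ x', R0 g Q r x' ∧ x' ≠ x)
    {a b : V} (h : Sim g Q r E Y a b) :
    a ≠ b ∧ Top g Q r a ∧ Top g Q r b ∧ En g Q r a b ∧ En g Q r b a := by
  rcases h with h | h
  · obtain ⟨h1, h2, h3, _, h4, h5⟩ := Dlt_facts T H two h
    exact ⟨h1, h2, h3, h5, h4⟩
  · obtain ⟨h1, h2, h3, _, h4, h5⟩ := Dlt_facts T H two h
    exact ⟨h1.symm, h3, h2, h4, h5⟩

omit [Fintype V] [DecidableEq V] in
/-- A neighbour of an entry or of the root is an exit. -/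
theorem Sim_P (T : Torso g Q r) (H : Typed g Q r E Y) {a b : V} (h : Sim g Q r E Y a b)
    (ha : a = r ∨ (R0 g Q r a ∧ E a)) : Dlt g Q r E Y a b := by
  rcases h with h | h
  · exact h
  · exact absurd h.1 (fun h1 => IsP_IsM T H ha h1)

omit [Fintype V] [DecidableEq V] in
/-- A neighbour of an exit is an entry or the root. -/
theorem Sim_M (T : Torso g Q r) (H : Typed g Q r E Y) {a b : V} (h : Sim g Q r E Y a b)
    (ha : R0 g Q r a ∧ Y a) : Dlt g Q r E Y b a := by
  rcases h with h | h
  · exact absurd h.2.1 (fun h1 => IsP_IsM T H h1 ha)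
  · exact h

/-- (7) -/
theorem T3_no_loop (T : Torso g Q r) (H : Typed g Q r E Y)
    (two : ∀ x, ∃ x', R0 g Q r x' ∧ x' ≠ x) : ∀ n z, ¬ Loop g Q r E Y n z := by
  intro n
  induction n using Nat.strong_induction_on with
  | _ n ih =>
    intro z L
    obtain ⟨i, hi, hin, hR, hY⟩ := L.mid
    have s1 : Sim g Q r E Y (z (i - 1)) (z i) := by
      have := L.sim (i - 1) (by omega)
      rwa [show i - 1 + 1 = i by omega] at this
    have s2 : Sim g Q r E Y (z i) (z (i + 1)) := L.sim i hin
    have D1 := Sim_M T H (Sim_symm s1) ⟨hR, hY⟩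
    have D2 := Sim_M T H s2 ⟨hR, hY⟩
    obtain ⟨_, _, _, a1, _, _⟩ := Dlt_facts T H two D1
    obtain ⟨_, _, _, a2, b2, _⟩ := Dlt_facts T H two D2
    have top : ∀ k ≤ n, Top g Q r (z k) := by
      intro k hk
      rcases Nat.lt_or_ge k n with h | h
      · exact (Sim_facts T H two (L.sim k h)).2.1
      · have := (Sim_facts T H two (L.sim (n - 1) (by omega))).2.2.1
        rwa [show n - 1 + 1 = k by omega] at this
    have down : ∀ k < n, En g Q r (z (k + 1)) (z k) := fun k hk =>
      (Sim_facts T H two (L.sim k hk)).2.2.2.2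
    -- the in-neighbours of `z i` are on the loop
    have hall : ∀ u ∈ insert r Q, g u (z i) → u ≠ r → ∃ k ≤ n, z k = u := by
      intro u hu hui hur
      have hu0 := T2_four' T H hR hY (two (z i)) hu hui
      have hu1 : R0 g Q r u := by
        rcases hu0 with h | h
        · exact absurd h hur
        · exact h.1
      obtain ⟨v, hv, hc⟩ := L.close
      rcases hc with hc | ⟨hc1, hc2, hc3⟩
      · obtain ⟨c, S, hk, hS⟩ := loopK T n i z hi hin top L.inj down ⟨v, hc, hv⟩ a1 b2 a2
        obtain ⟨k, hk1, hk2⟩ := hS u (T2_all T H (two (z i)) hk hR hY hu hui)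
        refine ⟨k, hk1, ?_⟩
        rcases hk2 with hk2 | hk2
        · exact hk2.symm
        · exact absurd hk2 (hu1.2 _)
      · obtain ⟨c, S, hk, hS⟩ := loopK T (n + 1) (i + 1) (fun k => if k = 0 then r else z (k - 1))
          (by omega) (by omega)
          (by
            intro k hk
            show Top g Q r (if k = 0 then r else z (k - 1))
            by_cases h0 : k = 0
            · rw [if_pos h0]; exact Or.inl rfl
            · rw [if_neg h0]; exact top _ (by omega))
          (by
            intro k hk l hl h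
            have h : (if k = 0 then r else z (k - 1)) = (if l = 0 then r else z (l - 1)) := h
            by_cases h0 : k = 0
            · by_cases h1 : l = 0
              · rw [h0, h1]
              · rw [if_pos h0, if_neg h1] at h
                exact absurd h.symm (hc3 _ (by omega))
            · by_cases h1 : l = 0
              · rw [if_neg h0, if_pos h1] at h
                exact absurd h (hc3 _ (by omega))
              · rw [if_neg h0, if_neg h1] at h
                have := L.inj _ (by omega) _ (by omega) h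
                omega)
          (by
            intro k hk
            show En g Q r (if k + 1 = 0 then r else z (k + 1 - 1)) (if k = 0 then r else z (k - 1))
            rw [if_neg (by omega), Nat.add_sub_cancel]
            by_cases h0 : k = 0
            · rw [if_pos h0, h0]
              exact ⟨r, hc1, Or.inl rfl⟩
            · rw [if_neg h0]
              have := down (k - 1) (by omega)
              rwa [show k - 1 + 1 = k by omega] at this)
          (by
            show En g Q r (if 0 = 0 then r else z (0 - 1)) (if n + 1 = 0 then r else z (n + 1 - 1))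
            rw [if_pos rfl, if_neg (by omega), Nat.add_sub_cancel]
            exact ⟨v, hc2, hv⟩)
          (by
            show g (if i + 1 - 1 = 0 then r else z (i + 1 - 1 - 1))
              (if i + 1 = 0 then r else z (i + 1 - 1))
            rw [if_neg (by omega), if_neg (by omega), Nat.add_sub_cancel]
            exact a1)
          (by
            show En g Q r (if i + 1 = 0 then r else z (i + 1 - 1))
              (if i + 1 + 1 = 0 then r else z (i + 1 + 1 - 1))
            rw [if_neg (by omega), if_neg (by omega), Nat.add_sub_cancel, Nat.add_sub_cancel]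
            exact b2)
          (by
            show g (if i + 1 + 1 = 0 then r else z (i + 1 + 1 - 1))
              (if i + 1 = 0 then r else z (i + 1 - 1))
            rw [if_neg (by omega), if_neg (by omega), Nat.add_sub_cancel, Nat.add_sub_cancel]
            exact a2)
        have e0 : (if i + 1 = 0 then r else z (i + 1 - 1)) = z i := by
          rw [if_neg (by omega), Nat.add_sub_cancel]
        rw [e0] at hk hS
        obtain ⟨k, hk1, hk2⟩ := hS u (T2_all T H (two (z i)) hk hR hY hu hui)
        have hk2 : Cl g Q r (if k = 0 then r else z (k - 1)) u := hk2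
        by_cases h0 : k = 0
        · rw [if_pos h0] at hk2
          rcases hk2 with hk2 | hk2
          · exact absurd hk2 hur
          · exact absurd hk2 (hu1.2 _)
        · rw [if_neg h0] at hk2
          refine ⟨k - 1, by omega, ?_⟩
          rcases hk2 with hk2 | hk2
          · exact hk2.symm
          · exact absurd hk2 (hu1.2 _)
    -- a third one
    obtain ⟨u, hu, u1, u2, u3, hui⟩ := H.deg (z i) hR hY (z (i - 1)) (z (i + 1)) r
    obtain ⟨m, hm, rfl⟩ := hall u hu hui u3
    have hP : z m = r ∨ (R0 g Q r (z m) ∧ E (z m)) := T2_four' T H hR hY (two (z i)) hu hui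
    have m1 : m ≠ i - 1 := fun h => u1 (by rw [h])
    have m2 : m ≠ i + 1 := fun h => u2 (by rw [h])
    have m3 : m ≠ i := fun h => IsP_IsM T H (u := z i) (by rw [← h]; exact hP) ⟨hR, hY⟩
    rcases Nat.lt_or_ge m i with hmi | hmi
    · -- below
      refine ih (i - m) (by omega) (fun k => z (m + k)) ⟨?_, ?_, ?_, ?_⟩
      · intro k hk l hl h
        have := L.inj (m + k) (by omega) (m + l) (by omega) h
        omega
      · intro k hk
        exact L.sim (m + k) (by omega)
      · have := Sim_P T H (L.sim m (by omega)) hP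
        exact ⟨1, by omega, by omega, this.1⟩
      · refine ⟨z i, Or.inl ?_, Or.inl hui⟩
        show z i = z (m + (i - m))
        rw [show m + (i - m) = i by omega]
    · -- above
      refine ih (m - i) (by omega) (fun k => z (m - k)) ⟨?_, ?_, ?_, ?_⟩
      · intro k hk l hl h
        have := L.inj (m - k) (by omega) (m - l) (by omega) h
        omega
      · intro k hk
        have := L.sim (m - (k + 1)) (by omega)
        rw [show m - (k + 1) + 1 = m - k by omega] at this
        exact Sim_symm this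
      · have h1 := L.sim (m - 1) (by omega)
        rw [show m - 1 + 1 = m by omega] at h1
        have := Sim_P T H (Sim_symm h1) hP
        exact ⟨1, by omega, by omega, this.1⟩
      · refine ⟨z i, Or.inl ?_, Or.inl hui⟩
        show z i = z (m - (m - i))
        rw [show m - (m - i) = i by omega]

/-- a maximal path -/
theorem max_path (s : V) {S : V → V → Prop} : ∃ (n : ℕ) (z : ℕ → V), z 0 = s ∧
    (∀ i ≤ n, ∀ j ≤ n, z i = z j → i = j) ∧ (∀ i < n, S (z i) (z (i + 1))) ∧
    ∀ w, S (z n) w → ∃ k ≤ n, z k = w := by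
  classical
  let P : ℕ → Prop := fun n => ∃ z : ℕ → V, z 0 = s ∧ (∀ i ≤ n, ∀ j ≤ n, z i = z j → i = j) ∧
    ∀ i < n, S (z i) (z (i + 1))
  have h0 : P 0 := ⟨fun _ => s, rfl, fun i hi j hj _ => by omega, fun i hi => by omega⟩
  have hb : ∀ n, P n → n ≤ Fintype.card V := by
    rintro n ⟨z, _, hz, _⟩
    by_contra hn
    have : Fintype.card (Fin (n + 1)) ≤ Fintype.card V :=
      Fintype.card_le_of_injective (fun i : Fin (n + 1) => z i) (by
        intro i j hij
        exact Fin.ext (hz i (by omega) j (by omega) hij))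
    rw [Fintype.card_fin] at this
    omega
  have hP := Nat.findGreatest_spec (P := P) (Nat.zero_le (Fintype.card V)) h0
  obtain ⟨z, hz0, hz1, hz2⟩ := hP
  refine ⟨_, z, hz0, hz1, hz2, ?_⟩
  set n := Nat.findGreatest P (Fintype.card V) with hn
  intro w hw
  by_contra hno
  have hno' : ∀ k ≤ n, z k ≠ w := fun k hk h => hno ⟨k, hk, h⟩
  have h1 : P (n + 1) := by
    refine ⟨fun k => if k ≤ n then z k else w, ?_, ?_, ?_⟩
    · show (if 0 ≤ n then z 0 else w) = s
      rw [if_pos (Nat.zero_le n)]
      exact hz0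
    · intro i hi j hj h
      have h : (if i ≤ n then z i else w) = (if j ≤ n then z j else w) := h
      by_cases hi' : i ≤ n
      · by_cases hj' : j ≤ n
        · rw [if_pos hi', if_pos hj'] at h
          exact hz1 i hi' j hj' h
        · rw [if_pos hi', if_neg hj'] at h
          exact absurd h (hno' i hi')
      · by_cases hj' : j ≤ n
        · rw [if_neg hi', if_pos hj'] at h
          exact absurd h.symm (hno' j hj')
        · omega
    · intro i hi
      show S (if i ≤ n then z i else w) (if i + 1 ≤ n then z (i + 1) else w)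
      rw [if_pos (by omega)]
      by_cases hi' : i + 1 ≤ n
      · rw [if_pos hi']
        exact hz2 i (by omega)
      · rw [if_neg hi', show i = n by omega]
        exact hw
  have h2 := Nat.le_findGreatest (hb _ h1) h1
  omega

/-- (8) -/
theorem T3_loop (T : Torso g Q r) (H : Typed g Q r E Y)
    (two : ∀ x, ∃ x', R0 g Q r x' ∧ x' ≠ x) : ∃ n z, Loop g Q r E Y n z := by
  -- the start
  obtain ⟨s, hsP, hsr, t, hst⟩ : ∃ s, (s = r ∨ (R0 g Q r s ∧ E s)) ∧ (s = r ∨ g s r) ∧
      ∃ t, Dlt g Q r E Y s t := by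
    by_cases hx : ∃ x, R0 g Q r x ∧ E x ∧ g x r
    · obtain ⟨x, h1, h2, h3⟩ := hx
      exact ⟨x, Or.inr ⟨h1, h2⟩, Or.inr h3, T2_six' T H h1 h2 (two x)⟩
    · obtain ⟨q, hq, hqr⟩ := T.out
      have h1 : R0 g Q r q := T.to_root hq hqr
      have h2 : Y q := by
        rcases T2_type T H (two q) h1 with h | h
        · exact absurd ⟨q, h1, h, hqr⟩ hx
        · exact h
      exact ⟨r, Or.inl rfl, Or.inl rfl, q, ⟨h1, h2⟩, Or.inl rfl, r, hqr, Or.inl rfl⟩
  obtain ⟨n, z, hz0, inj, sim, hmax⟩ := max_path s (S := Sim g Q r E Y)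
  have hz0P : z 0 = r ∨ (R0 g Q r (z 0) ∧ E (z 0)) := by rw [hz0]; exact hsP
  have hn1 : 1 ≤ n := by
    by_contra hn
    have hn0 : n = 0 := by omega
    obtain ⟨k, hk, hkt⟩ := hmax t (by rw [hn0, hz0]; exact Or.inl hst)
    have : k = 0 := by omega
    rw [this] at hkt
    exact (Dlt_facts T H two hst).1 (by rw [← hz0, hkt])
  have sl : Sim g Q r E Y (z (n - 1)) (z n) := by
    have := sim (n - 1) (by omega)
    rwa [show n - 1 + 1 = n by omega] at this
  -- closing a part
  have close : ∀ k, k + 2 ≤ n → (∃ i, k < i ∧ i < n ∧ R0 g Q r (z i) ∧ Y (z i)) →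
      (∃ v, Cl g Q r (z n) v ∧ g (z k) v) → ∃ n z, Loop g Q r E Y n z := by
    rintro k hk ⟨i, hi1, hi2, hi3⟩ ⟨v, hv1, hv2⟩
    refine ⟨n - k, fun j => z (k + j), ?_, ?_, ?_, ?_⟩
    · intro i hi j hj h
      have := inj (k + i) (by omega) (k + j) (by omega) h
      omega
    · intro i hi
      exact sim (k + i) (by omega)
    · refine ⟨i - k, by omega, by omega, ?_⟩
      show R0 g Q r (z (k + (i - k))) ∧ Y (z (k + (i - k)))
      rw [show k + (i - k) = i by omega]
      exact hi3
    · refine ⟨v, ?_, Or.inl hv2⟩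
      show Cl g Q r (z (k + (n - k))) v
      rw [show k + (n - k) = n by omega]
      exact hv1
  have hcase : (R0 g Q r (z n) ∧ Y (z n)) ∨ (z n = r ∨ (R0 g Q r (z n) ∧ E (z n))) := by
    rcases sl with h | h
    · exact Or.inl h.1
    · exact Or.inr h.2.1
  rcases hcase with hM | hP
  · -- the end is an exit
    obtain ⟨q, hq1, hq2⟩ := T2_five T H hM.1 hM.2 (two _) (z (n - 1))
    obtain ⟨k, hk, rfl⟩ := hmax q (Or.inr hq2)
    have k1 : k ≠ n - 1 := fun h => hq1 (by rw [h])
    have k2 : k ≠ n := fun h => (Dlt_facts T H two hq2).1 (by rw [h])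
    refine close k (by omega) ⟨k + 1, by omega, by omega, ?_⟩ ⟨z n, Or.inl rfl,
      (Dlt_facts T H two hq2).2.2.2.1⟩
    exact (Sim_P T H (sim k (by omega)) hq2.2.1).1
  · have hM1 : R0 g Q r (z (n - 1)) ∧ Y (z (n - 1)) := (Sim_P T H (Sim_symm sl) hP).1
    have hn2 : n ≠ 1 := by
      intro h
      rw [h] at hM1
      exact IsP_IsM T H hz0P hM1
    rcases hP with hP | hP
    · -- the end is the root
      have hsr' : g s r := by
        rcases hsr with h | h
        · exfalso
          have := inj 0 (Nat.zero_le n) n (le_refl n) (by rw [hz0, h, hP])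
          omega
        · exact h
      refine close 0 (by omega) ⟨n - 1, by omega, by omega, hM1⟩ ⟨r, Or.inl hP.symm, ?_⟩
      rw [hz0]
      exact hsr'
    · obtain ⟨e, v, he1, hv, hev, he⟩ := T2_six T H hP.1 hP.2 (two _) (z (n - 1))
      by_cases hon : ∃ k ≤ n, z k = e
      · obtain ⟨k, hk, rfl⟩ := hon
        have k1 : k ≠ n - 1 := fun h => he1 (by rw [h])
        have k2 : k ≠ n := by
          intro h
          rw [h] at he
          rcases he with he | he
          · exact T.rQ (by rw [← he]; exact hP.1.1)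
          · exact (Dlt_facts T H two he).1 rfl
        exact close k (by omega) ⟨n - 1, by omega, by omega, hM1⟩ ⟨v, hv, hev⟩
      · rcases he with he | he
        · -- the root is not on the path
          subst he
          have hsr' : g s e := by
            rcases hsr with h | h
            · exact absurd ⟨0, Nat.zero_le n, by rw [hz0, h]⟩ hon
            · exact h
          refine ⟨n, z, inj, sim, ⟨n - 1, by omega, by omega, hM1⟩, v, hv, Or.inr ⟨?_, hev, ?_⟩⟩
          · rw [hz0]; exact hsr'
          · exact fun i hi h => hon ⟨i, hi, h⟩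
        · exact absurd (hmax e (Or.inl he)) hon

/-- TORSO LEMMA -/
theorem torso_main (T : Torso g Q r) (H : Typed g Q r E Y) {x x' : V} (hx : R0 g Q r x)
    (hx' : R0 g Q r x') : x = x' := by
  by_contra hne
  have two : ∀ y, ∃ x', R0 g Q r x' ∧ x' ≠ y := by
    intro y
    by_cases h : x = y
    · exact ⟨x', hx', fun h' => hne (h.trans h'.symm)⟩
    · exact ⟨x, hx, h⟩
  obtain ⟨n, z, h⟩ := T3_loop T H two
  exact T3_no_loop T H two n z h

end T3

end Pool.Agent.H.MP_0cacf8
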