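import Pool.Agent.H.MP_0cacf8.EYS3
import Pool.Agent.H.MP_0cacf8.EYT3

/-!
# Only one vertex of a minimal fragment is undominated
-/

set_option autoImplicit false

namespace Pool.Agent.H.MP_0cacf8

open Relation Finset Pool.Agent.H.MP_0d008e_co

variable {V : Type*} {adj : V → V → Prop} {h z : V} {S : Set V}

section

variable [Fintype V] [DecidableEq V]

theorem frag_one_of (hE : EYB adj h) (hstr : ∀ u w, u ≠ h → w ≠ h → RR adj (Ch h) u w)
    (in2 : ∀ u, u ≠ h → ∀ x, ∃ w, w ≠ h ∧ w ≠ x ∧ adj w u) (hF : Frag adj h S z)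
    (hmain : Torso (gam adj h z S) S z → Typed (gam adj h z S) S z (TE adj h) (TY adj h) →
      ∀ x x', R0 (gam adj h z S) S z x → R0 (gam adj h z S) S z x' → x = x') :
    ∃ y, R0 (gam adj h z S) S z y ∧ (∀ x, R0 (gam adj h z S) S z x → x = y) ∧ ¬ adj h y := by
  have hT := hF.torso hE.irr hstr
  obtain ⟨y, hy, hyz⟩ := hT.out
  have hy0 : R0 (gam adj h z S) S z y := hT.to_root hy hyz
  have huniq : ∀ x, R0 (gam adj h z S) S z x → x = y := by
    intro x hx
    by_contra hne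
    have two : ∀ v, ∃ x', R0 (gam adj h z S) S z x' ∧ x' ≠ v := by
      intro v
      by_cases hxv : x = v
      · exact ⟨y, hy0, fun g => hne (hxv.trans g.symm)⟩
      · exact ⟨x, hx, hxv⟩
    refine hne (hmain hT (hF.typed hE hstr ?_) x y hx hy0)
    intro b hb hzb
    obtain ⟨a, T, h1, _⟩ := hT.lemB' (two b) hb (Or.inl rfl) hzb
    exact ⟨a, T, h1⟩
  refine ⟨y, hy0, huniq, ?_⟩
  have hone : TY adj h y := by
    refine hF.one hE hstr hy (fun q hq g => huniq q (hT.to_root hq g)) ?_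
    obtain ⟨w, h1, h2, h3⟩ := in2 y (hF.Sh y hy) z
    refine ⟨w, ?_, ?_⟩
    · by_contra hw
      exact h2 (hF.ent w h1 hw y hy h3)
    · rintro rfl
      exact hE.irr w h3
  exact hone.2

/-- The torso of a minimal fragment has only one undominated vertex, and it is no entry. -/
theorem frag_one (hE : EYB adj h) (hstr : ∀ u w, u ≠ h → w ≠ h → RR adj (Ch h) u w)
    (in2 : ∀ u, u ≠ h → ∀ x, ∃ w, w ≠ h ∧ w ≠ x ∧ adj w u) (hF : Frag adj h S z) :
    ∃ y, R0 (gam adj h z S) S z y ∧ (∀ x, R0 (gam adj h z S) S z x → x = y) ∧ ¬ adj h y :=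
  frag_one_of hE hstr in2 hF fun hT hH _ _ h1 h2 => torso_main hT hH h1 h2

end

end Pool.Agent.H.MP_0cacf8
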