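import Pool.Agent.H.MP_0cacf8.EYS4
import Pool.Agent.H.MP_0cacf8.EYT3

/-!
# The torso of a terminal component
-/

set_option autoImplicit false

namespace Pool.Agent.H.MP_0cacf8

open Relation Finset Pool.Agent.H.MP_0d008e_co

variable {V : Type*} {adj : V → V → Prop} {h z : V} {S : Set V}

/-- A terminal component. -/
structure TC (adj : V → V → Prop) (h : V) (S : Set V) (y : V) (Q : Set V) : Prop where
  sub : Q ⊆ S \ {y}
  ne : Q.Nonempty
  cl : ∀ a ∈ Q, ∀ w, w ≠ h → adj a w → w ∈ Q ∨ w = y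
  str : ∀ a ∈ Q, ∀ b ∈ Q, RR adj Q a b

theorem exists_TC [Finite V] {y : V} (hS2 : ∃ s ∈ S, s ≠ y)
    (hcl : ∀ a ∈ S, a ≠ y → ∀ w, w ≠ h → adj a w → w ∈ S) :
    ∃ Q : Set V, TC adj h S y Q := by
  classical
  have key : ∀ n : ℕ, ∀ A : Set V, A.ncard = n → A ⊆ S \ {y} → A.Nonempty →
      (∀ a ∈ A, ∀ w, w ≠ h → adj a w → w ∈ A ∨ w = y) → ∃ Q : Set V, TC adj h S y Q := by
    intro n
    induction n using Nat.strong_induction_on with
    | _ n ih =>
      intro A hn hA hne hAcl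
      by_cases hs : ∀ a ∈ A, ∀ b ∈ A, RR adj A a b
      · exact ⟨A, hA, hne, hAcl, hs⟩
      · push Not at hs
        obtain ⟨a, ha, b, hb, hab⟩ := hs
        have hlt : {w | w ∈ A ∧ RR adj A a w}.ncard < n := by
          rw [← hn]
          refine Set.ncard_lt_ncard ⟨fun w hw => hw.1, fun g => hab (g hb).2⟩ (Set.toFinite A)
        refine ih _ hlt _ rfl (fun w hw => hA hw.1) ⟨a, ha, ReflTransGen.refl⟩ ?_
        rintro c ⟨hc, hac⟩ w hw hcw
        rcases hAcl c hc w hw hcw with g | g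
        · exact Or.inl ⟨g, hac.tail ⟨hc, g, hcw⟩⟩
        · exact Or.inr g
  obtain ⟨s, hs, hsy⟩ := hS2
  refine key _ (S \ {y}) rfl (fun w hw => hw) ⟨s, hs, hsy⟩ ?_
  rintro a ⟨ha, hay⟩ w hw haw
  by_cases hwy : w = y
  · exact Or.inr hwy
  · exact Or.inl ⟨hcl a ha hay w hw haw, hwy⟩

/-- the torso of `Q` -/
def gamQ (adj : V → V → Prop) (h y : V) (Q : Set V) (a b : V) : Prop :=
  gam (fun x w => adj w x) h y Q b a

namespace TC

variable {y : V} {Q : Set V}

theorem pre (hF : Frag adj h S z) (hy : y ∈ S) (hQ : TC adj h S y Q) :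
    Pre (fun x w => adj w x) h Q y where
  zh := hF.Sh y hy
  zS := fun g => (hQ.sub g).2 rfl
  Sh := fun w hw => hF.Sh w (hQ.sub hw).1
  Sne := hQ.ne
  One := ⟨z, hF.zh, fun g => hF.zS (g ▸ hy), fun g => hF.zS (hQ.sub g).1⟩
  ent := by
    intro u hu huQ s hs hsu
    exact (hQ.cl s hs u hu hsu).resolve_left huQ

theorem g_arc (hQ : TC adj h S y Q) {a b : V} (hb : b ∈ Q) (ha : a ∈ Q) :
    gamQ adj h y Q a b ↔ adj a b := by
  constructor
  · rintro (⟨_, _, g⟩ | ⟨_, g, _⟩)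
    · exact g
    · exact absurd (g ▸ ha) (fun k => (hQ.sub k).2 rfl)
  · intro g
    exact Or.inl ⟨ha, Or.inl hb, g⟩

theorem gRR (hQ : TC adj h S y Q) {a b : V} (hr : RR adj Q a b) : RR (gamQ adj h y Q) Q a b :=
  RR.congr (fun _ hu _ hw g => (hQ.g_arc hw hu).2 g) hr

theorem torso (irr : ∀ u, ¬ adj u u) (hstr : ∀ u w, u ≠ h → w ≠ h → RR adj (Ch h) u w)
    (hF : Frag adj h S z) (hy : y ∈ S) (hQ : TC adj h S y Q) :
    Torso (gamQ adj h y Q) Q y where
  rQ := fun g => (hQ.sub g).2 rfl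
  irr := by
    rintro u (⟨_, _, g⟩ | ⟨g1, g2, _⟩)
    · exact irr u g
    · exact (hQ.sub g1).2 g2
  str := fun u hu w hw => hQ.gRR (hQ.str u hu w hw)
  ent := by
    intro A hA hne hAQ x
    have hout : ∀ a ∈ A, ∀ u, u ≠ h → u ∉ Q → adj u a → gamQ adj h y Q y a := by
      intro a ha u hu huQ hua
      exact Or.inr ⟨hA ha, rfl, u, hu, huQ, hua⟩
    by_cases hx : x ∈ Q
    · have hAS : A ⊆ S := fun a ha => (hQ.sub (hA ha)).1
      have hAne : A ≠ S := by
        rintro rfl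
        exact (hQ.sub (hA hy)).2 rfl
      obtain ⟨a, ha, u, hu, huA, hux, hua⟩ := hF.min A hAS hne hAne x
      by_cases huQ : u ∈ Q
      · exact ⟨u, Or.inr huQ, huA, hux, a, ha, (hQ.g_arc (hA ha) huQ).2 hua⟩
      · refine ⟨y, Or.inl rfl, fun g => (hQ.sub (hA g)).2 rfl, ?_, a, ha, hout a ha u hu huQ hua⟩
        rintro rfl
        exact (hQ.sub hx).2 rfl
    · obtain ⟨b, hb, hbA⟩ : ∃ b ∈ Q, b ∉ A := by
        by_contra hcon
        push Not at hcon
        exact hAQ (Set.Subset.antisymm hA hcon)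
      obtain ⟨a, ha⟩ := hne
      rcases first_hit (B := A) (hQ.str b hb a (hA ha)) hbA with g | ⟨u, t, _, g2, g3, _, g5, g6, _⟩
      · exact absurd ha g.2
      · exact ⟨u, Or.inr g2, g3, fun k => hx (k ▸ g2), t, g5, (hQ.g_arc (hA g5) g2).2 g6⟩
  out := by
    obtain ⟨q, hq⟩ := hQ.ne
    rcases last_exit (B := Q) (hstr q z (hF.Sh q (hQ.sub hq).1) hF.zh)
      (fun g => hF.zS (hQ.sub g).1) with g | ⟨a, t, _, g2, g3, g4, g5, _⟩
    · exact absurd hq g.2
    · have ht : t = y := (hQ.cl a g2 t g3 g5).resolve_left g4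
      subst ht
      exact ⟨a, g2, Or.inl ⟨g2, Or.inr rfl, g5⟩⟩

end TC

section

variable [Fintype V] [DecidableEq V] {y : V} {Q : Set V}

/-- Lifting from the torso of `Q`: the center is in `Q`. -/
theorem TC.liftQ (hstr : ∀ u w, u ≠ h → w ≠ h → RR adj (Ch h) u w) (hF : Frag adj h S z)
    (hy : y ∈ S) (hQ : TC adj h S y Q) {a b c : V} {T : Seg → Set V}
    (hk : IsK (gamQ adj h y Q) (insert y Q) a b c T) (hb : b ∈ Q) :
    ∃ (a' : V) (T' : Seg → Set V), IsK adj (Ch h) a' b c T' ∧ (a ∈ Q → a' = a) ∧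
      (∀ u ∈ Q, InK a' b c T' u → InK a b c T u) := by
  have hP := hQ.pre hF hy
  have hstr' : ∀ u w, u ≠ h → w ≠ h → RR (fun x w => adj w x) (Ch h) u w :=
    fun u w hu hw => RR_flip' (hstr w u hw hu)
  have hk' : IsK (gam (fun x w => adj w x) h y Q) (insert y Q) c b a (fun i => T (rev i)) :=
    IsK.flip hk
  have hin : ∀ {v : V} {T' : Seg → Set V} {u : V}, KV c b v (fun i => T' i) u →
      InK v b c (fun i => T' (rev i)) u := by
    rintro v T' u (g | g | g | ⟨i, g⟩)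
    · exact Or.inr (Or.inr (Or.inl g))
    · exact Or.inr (Or.inl g)
    · exact Or.inl g
    · refine Or.inr (Or.inr (Or.inr ⟨rev i, ?_⟩))
      cases i <;> exact g
  have hin' : ∀ {v : V} {T' : Seg → Set V} {u : V}, InK v b c (fun i => T' (rev i)) u →
      KV c b v T' u := by
    rintro v T' u (g | g | g | ⟨i, g⟩)
    · exact Or.inr (Or.inr (Or.inl g))
    · exact Or.inr (Or.inl g)
    · exact Or.inl g
    · exact Or.inr (Or.inr (Or.inr ⟨rev i, g⟩))
  have hback : ∀ {v : V} {u : V}, KV c b v (fun i => T (rev i)) u → InK v b c T u := by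
    rintro v u (g | g | g | ⟨i, g⟩)
    · exact Or.inr (Or.inr (Or.inl g))
    · exact Or.inr (Or.inl g)
    · exact Or.inl g
    · exact Or.inr (Or.inr (Or.inr ⟨rev i, g⟩))
  by_cases ha : a = y
  · subst ha
    obtain ⟨a', T', h1, h2, h3, h4⟩ := hP.lift2 hstr' hk' hb
    refine ⟨a', fun i => T' (rev i), h1.flip, fun g => absurd g hP.zS, ?_⟩
    intro u hu g
    exact hback (h4 u hu (hin' g))
  · obtain ⟨T', h1, h2, _⟩ := hP.lift1 hstr' hk' hb ha
    refine ⟨a, fun i => T' (rev i), h1.flip, fun _ => rfl, ?_⟩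
    intro u hu g
    exact hback (h2 u hu (hin' g))

theorem TC.typed (hE : EYB adj h) (hstr : ∀ u w, u ≠ h → w ≠ h → RR adj (Ch h) u w)
    (hF : Frag adj h S z) (hy : y ∈ S) (hyY : ¬ adj h y) (hQ : TC adj h S y Q)
    (two : ∀ v, ∃ x', R0 (gamQ adj h y Q) Q y x' ∧ x' ≠ v) :
    Typed (gamQ adj h y Q) Q y (TE adj h) (TY adj h) := by
  have hT := hQ.torso hE.irr hstr hF hy
  have hyh : y ≠ h := hF.Sh y hy
  have hyx : adj y h := (hE.ey y hyh).resolve_right hyY
  have hQh : ∀ q ∈ Q, q ≠ h := fun q hq => hF.Sh q (hQ.sub hq).1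
  have hex : ∀ {u}, TY adj h u → adj u h := fun g => (hE.ey _ g.1).resolve_right g.2
  have hen : ∀ {u}, TE adj h u → adj h u := fun g => (hE.ey _ g.1).resolve_left g.2
  -- no arc from `y` to undominated exits
  have hno : ∀ b, R0 (gamQ adj h y Q) Q y b → TY adj h b → ¬ gamQ adj h y Q y b := by
    intro b hb hY g
    obtain ⟨a, T, h1, _⟩ := hT.lemB' (two b) hb (Or.inl rfl) g
    obtain ⟨a', T', h2, _⟩ := hQ.liftQ hstr hF hy h1 hb.1
    exact hE.third h2 (hex hY) hyx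
  have hpath : ∀ {u a : V}, u ∈ Q → a ∈ Q → TE adj h u → gamQ adj h y Q u a →
      Conn adj {u} h a ∧ ({u} : Set V) ⊆ Ch h := by
    intro u a hu ha hEu hua
    refine ⟨Or.inr ⟨u, rfl, u, rfl, hen hEu, ReflTransGen.refl, (hQ.g_arc ha hu).1 hua⟩, ?_⟩
    rintro w rfl
    exact hEu.1
  exact
    { EY := by
        rintro u ⟨h1, h2⟩ ⟨_, h3⟩
        rcases hE.ey u h1 with g | g
        · exact h2 g
        · exact h3 g
      ctr := by
        intro a b c T hk hb
        obtain ⟨a', T', h1, _⟩ := hQ.liftQ hstr hF hy hk hb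
        by_contra hcon
        refine hE.center h1 ?_ ?_
        · by_contra g
          exact hcon (Or.inl ⟨hQh b hb, g⟩)
        · by_contra g
          exact hcon (Or.inr ⟨hQh b hb, g⟩)
      yc := by
        intro a b c T hk hb hY hc
        obtain ⟨a', T', h1, _⟩ := hQ.liftQ hstr hF hy hk hb
        exact ⟨hQh c hc, hE.third h1 (hex hY)⟩
      ea := by
        intro a b c T hk hb hX ha
        obtain ⟨a', T', h1, h2, _⟩ := hQ.liftQ hstr hF hy hk hb
        have := hE.tip h1 (hen hX)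
        rw [h2 ha] at this
        exact ⟨hQh a ha, this⟩
      bad := by
        intro a b c T hk hb hX ha u hu hEu hua
        obtain ⟨a', T', h1, h2, h3⟩ := hQ.liftQ hstr hF hy hk hb
        by_contra hcon
        obtain ⟨k1, k2⟩ := hpath hu ha hEu hua
        rw [h2 ha] at h1 h3
        refine hE.L2 h1 (hen hX) k2 ?_ k1
        rintro w rfl g
        exact hcon (h3 w hu g)
      lemK := by
        intro a b c T hk hb hY u hu hEu hub
        obtain ⟨a', T', h1, h2, h3⟩ := hQ.liftQ hstr hF hy hk hb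
        by_contra hcon
        obtain ⟨k1, k2⟩ := hpath hu hb hEu hub
        refine hE.lemK h1 (hex hY) k2 ?_ k1
        rintro w rfl g
        exact hcon (h3 w hu g)
      lemKr := fun _ hb hY g => absurd g (hno _ hb hY)
      deg := by
        intro b hb hY x1 x2 x3
        obtain ⟨w, h1, h2, h3⟩ := hE.din b hY.1 hY.2 {x1, x2, x3} Finset.card_le_three
        simp only [Finset.mem_insert, Finset.mem_singleton, not_or] at h2
        have hw : w ∈ Q := by
          by_contra hw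
          exact hno b hb hY (Or.inr ⟨hb.1, rfl, w, h1, hw, h3⟩)
        exact ⟨w, Or.inr hw, h2.1, h2.2.1, h2.2.2, (hQ.g_arc hb.1 hw).2 h3⟩ }

/-- Section 3, first part. -/
theorem sec3_u (hE : EYB adj h) (hstr : ∀ u w, u ≠ h → w ≠ h → RR adj (Ch h) u w)
    (hF : Frag adj h S z) (hy : y ∈ S) (hyY : ¬ adj h y)
    (honly : ∀ q ∈ S, gam adj h z S q z → q = y) (hS2 : ∃ s ∈ S, s ≠ y) :
    ∃ (Q : Set V) (u : V), Q ⊆ S \ {y} ∧ u ∈ Q ∧ adj u y ∧ (∀ q ∈ Q, adj q y → q = u) ∧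
      (∀ a ∈ Q, ∀ w, w ≠ h → adj a w → w ∈ Q ∨ w = y) := by
  obtain ⟨Q, hQ⟩ := exists_TC (adj := adj) (h := h) (S := S) hS2 (by
    intro a ha hay w hw haw
    by_contra hwS
    exact hay (honly a ha (Or.inr ⟨ha, rfl, w, hw, hwS, haw⟩)))
  have hT := hQ.torso hE.irr hstr hF hy
  obtain ⟨u, hu, huy⟩ := hT.out
  have hu0 := hT.to_root hu huy
  have hgy : ∀ q ∈ Q, adj q y → gamQ adj h y Q q y := fun q hq g => Or.inl ⟨hq, Or.inr rfl, g⟩
  have hgy' : adj u y := by
    rcases huy with ⟨_, _, g⟩ | ⟨g, _, _⟩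
    · exact g
    · exact absurd rfl (hQ.sub g).2
  refine ⟨Q, u, hQ.sub, hu, hgy', ?_, hQ.cl⟩
  intro q hq hqy
  by_contra hne
  have hq0 := hT.to_root hq (hgy q hq hqy)
  have two : ∀ v, ∃ x', R0 (gamQ adj h y Q) Q y x' ∧ x' ≠ v := by
    intro v
    by_cases hqv : q = v
    · exact ⟨u, hu0, fun g => hne (hqv.trans g.symm)⟩
    · exact ⟨q, hq0, hqv⟩
  exact hne (torso_main hT (hQ.typed hE hstr hF hy hyY two) hq0 hu0)

end

end Pool.Agent.H.MP_0cacf8
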