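import Pool.Agent.H.MP_0cacf8.EYT3

/-!
# Torso lemma: only one undominated vertex

`T6_end`: the configuration `P_y`, `P_r`, `W`.
-/

set_option autoImplicit false

namespace Pool.Agent.H.MP_0cacf8

open Relation Finset Pool.Agent.H.MP_0d008e_co

variable {V : Type*} {g : V → V → Prop} {Q : Set V} {r : V}

/-- The hypotheses which are used for one undominated vertex. -/
structure Typed0 (g : V → V → Prop) (Q : Set V) (r : V) (E Y : V → Prop) : Prop where
  EY : ∀ u, E u → Y u → False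
  ctr : ∀ {a b c : V} {S : Seg → Set V}, IsK g (insert r Q) a b c S → b ∈ Q → E b ∨ Y b
  yc : ∀ {a b c : V} {S : Seg → Set V}, IsK g (insert r Q) a b c S → b ∈ Q → Y b → c ∈ Q → E c
  ea : ∀ {a b c : V} {S : Seg → Set V}, IsK g (insert r Q) a b c S → b ∈ Q → E b → a ∈ Q → Y a
  bad : ∀ {a b c : V} {S : Seg → Set V}, IsK g (insert r Q) a b c S → b ∈ Q → E b → a ∈ Q →
    ∀ u ∈ Q, E u → g u a → InK a b c S u
  lemK : ∀ {a b c : V} {S : Seg → Set V}, IsK g (insert r Q) a b c S → b ∈ Q → Y b →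
    ∀ u ∈ Q, E u → g u b → InK a b c S u

/-- A walk from `a` to `b`, cut: the inner vertices. -/
theorem conn_of_set {S : Set V} {a b q : V} (ha : a ∈ S) (hb : b ∉ S) (h1 : RR g S a q)
    (h2 : g q b) : Conn g (S \ {a}) a b := by
  have hq : q ∈ S := h1.mem_right ha
  have hab : a ≠ b := fun k => hb (k ▸ ha)
  have k : RR g (insert b S) a b :=
    (RR.mono (Set.subset_insert b S) h1).tail ⟨Or.inr hq, Or.inl rfl, h2⟩
  refine Conn.mono ?_ (conn_of_RR k hab)
  rintro y ⟨⟨hy, hya⟩, hyb⟩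
  rcases hy with hy | hy
  · exact absurd hy hyb
  · exact ⟨hy, hya⟩

section fin

variable [Fintype V] [DecidableEq V]

/-- Two disjoint paths from `y` and from the root to `e`. -/
theorem Torso.two_in (T : Torso g Q r) {y e : V} (hy : y ∈ Q) (he : e ∈ Q) (hye : e ≠ y) :
    ∃ Py Pr : Set V, Disjoint Py Pr ∧ Py ⊆ Q \ {y, e} ∧ Pr ⊆ Q \ {y, e} ∧ Conn g Py y e ∧
      Conn g Pr r e := by
  classical
  set C : Finset V := (insert r Q).toFinset with hC
  have hcoe : (C : Set V) = insert r Q := by simp [hC]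
  have hre : r ≠ e := fun k => T.rQ (k ▸ he)
  have hyr : y ≠ r := fun k => T.rQ (k ▸ hy)
  obtain ⟨P, s, hd, hT⟩ := fan (adj := g) C {y, r} e
    (by
      intro x hx
      rw [mem_insert, mem_singleton] at hx
      rw [← Finset.mem_coe, hcoe]
      rcases hx with rfl | rfl
      · exact Or.inr hy
      · exact Or.inl rfl)
    (by
      rw [mem_insert, mem_singleton]
      rintro (k | k)
      · exact hye k
      · exact hre k.symm)
    ⟨y, mem_insert_self _ _⟩
    (by
      intro x hx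
      rw [hcoe]
      by_cases hxr : x = r
      · subst hxr
        refine ⟨y, mem_insert_self _ _, hyr, RR.mono ?_ (T.str y hy e he)⟩
        exact fun w hw => ⟨Or.inr hw, fun k => T.rQ (k ▸ hw)⟩
      · refine ⟨r, mem_insert_of_mem (mem_singleton_self _), fun k => hxr k.symm, ?_⟩
        by_cases hxQ : x ∈ Q
        · exact T.star hxQ he hx.symm
        · refine RR.mono ?_ (T.star hy he hye)
          intro w hw
          refine ⟨hw.1, ?_⟩
          rintro rfl
          rcases hw.1 with k | k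
          · exact hxr k
          · exact hxQ k)
  rw [hcoe] at hT
  rw [Set.disjoint_left] at hd
  have h0 : s 0 = y ∨ s 0 = r := by
    have := (hT 0).2.1
    rw [mem_insert, mem_singleton] at this
    exact this
  have h1 : s 1 = y ∨ s 1 = r := by
    have := (hT 1).2.1
    rw [mem_insert, mem_singleton] at this
    exact this
  have hne : s 0 ≠ s 1 := by
    intro k
    have := (hT 1).2.2.1
    rw [← k] at this
    exact hd (hT 0).2.2.1 this
  have w0 : ∀ i, Conn g (P i \ {s i}) (s i) e := by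
    intro i
    obtain ⟨q, _, h2, h3⟩ := ((hT i).2.2.2 (s i) (hT i).2.2.1).2
    exact conn_of_set (hT i).2.2.1 (fun k => ((hT i).1 k).2 rfl) h2 h3
  have key : ∀ i j, (∀ w ∈ P i, w ∉ P j) → s i = y → s j = r →
      Disjoint (P i \ {s i}) (P j \ {s j}) ∧ P i \ {s i} ⊆ Q \ {y, e} ∧
        P j \ {s j} ⊆ Q \ {y, e} := by
    intro i j hij hi hj
    refine ⟨Set.disjoint_left.2 fun w hw k => hij w hw.1 k.1, ?_, ?_⟩
    · rintro w ⟨hw, hw'⟩
      have k := (hT i).1 hw
      rcases k.1 with k1 | k1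
      · have : w ∈ P j := by
          rw [k1, ← hj]
          exact (hT j).2.2.1
        exact absurd this (hij w hw)
      · refine ⟨k1, ?_⟩
        rintro (k2 | k2)
        · exact hw' (k2.trans hi.symm)
        · exact k.2 k2
    · rintro w ⟨hw, hw'⟩
      have k := (hT j).1 hw
      rcases k.1 with k1 | k1
      · exact absurd (k1.trans hj.symm) hw'
      · refine ⟨k1, ?_⟩
        rintro (k2 | k2)
        · have : w ∈ P i := by
            rw [k2, ← hi]
            exact (hT i).2.2.1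
          exact hij w this hw
        · exact k.2 k2
  rcases h0 with h0 | h0
  · have h1' : s 1 = r := h1.resolve_left (fun k => hne (h0.trans k.symm))
    obtain ⟨k1, k2, k3⟩ := key 0 1 (fun w a b => hd a b) h0 h1'
    refine ⟨_, _, k1, k2, k3, ?_, ?_⟩
    · have := w0 0
      rwa [h0] at this ⊢
    · have := w0 1
      rwa [h1'] at this ⊢
  · have h1' : s 1 = y := h1.resolve_right (fun k => hne (h0.trans k.symm))
    obtain ⟨k1, k2, k3⟩ := key 1 0 (fun w a b => hd b a) h1' h0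
    refine ⟨_, _, k1, k2, k3, ?_, ?_⟩
    · have := w0 1
      rwa [h1'] at this ⊢
    · have := w0 0
      rwa [h0] at this ⊢

/-- The configuration `P_y`, `P_r`, `W`. -/
theorem cfg {C : Set V} {y e u1 : V} {Py Pr : Set V} (hyC : y ∈ C) (heC : e ∈ C) (hrC : r ∈ C)
    (hye : e ≠ y) (hry : r ≠ y) (hre : r ≠ e) (hd : Disjoint Py Pr) (hPy : Py ⊆ C \ {y, e, r})
    (hPr : Pr ⊆ C \ {y, e, r}) (c1 : Conn g Py y e) (c2 : Conn g Pr r e) (hyr : g y r)
    (hey : g e y) (hW : RR g (C \ {y, e}) r u1) (hu1 : g u1 y) :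
    ∃ (t : V) (S : Seg → Set V), IsK g C t y e S := by
  classical
  obtain ⟨Py', s1, m1⟩ := exists_MP c1
  obtain ⟨Pr', s2, m2⟩ := exists_MP c2
  rw [Set.disjoint_left] at hd
  have fy : ∀ w ∈ Py', w ∈ C ∧ w ≠ y ∧ w ≠ e ∧ w ≠ r ∧ w ∉ Pr' := by
    intro w hw
    have k := hPy (s1 hw)
    simp only [Set.mem_sdiff, Set.mem_insert_iff, Set.mem_singleton_iff, not_or] at k
    exact ⟨k.1, k.2.1, k.2.2.1, k.2.2.2, fun k' => hd (s1 hw) (s2 k')⟩
  have fr : ∀ w ∈ Pr', w ∈ C ∧ w ≠ y ∧ w ≠ e ∧ w ≠ r := by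
    intro w hw
    have k := hPr (s2 hw)
    simp only [Set.mem_sdiff, Set.mem_insert_iff, Set.mem_singleton_iff, not_or] at k
    exact ⟨k.1, k.2.1, k.2.2.1, k.2.2.2⟩
  set P : Set V := Py' ∪ Pr' ∪ {r} with hP
  set A : Set V := (C \ {y, e}) \ P with hA
  have fA : ∀ w ∈ A, w ∈ C ∧ w ≠ y ∧ w ≠ e ∧ w ≠ r ∧ w ∉ Py' ∧ w ∉ Pr' := by
    intro w hw
    simp only [hA, hP, Set.mem_sdiff, Set.mem_insert_iff, Set.mem_singleton_iff, not_or,
      Set.mem_union] at hw
    exact ⟨hw.1.1, hw.1.2.1, hw.1.2.2, hw.2.2, hw.2.1.1, hw.2.1.2⟩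
  have hrP : r ∈ P := Or.inr rfl
  have hu1C : u1 ∈ C \ {y, e} := hW.mem_right ⟨hrC, by
    rintro (k | k)
    · exact hry k
    · exact hre k⟩
  obtain ⟨t, htP, hAt⟩ : ∃ t ∈ P, Conn g A t y := by
    by_cases h1 : u1 ∈ P
    · exact ⟨u1, h1, Or.inl hu1⟩
    · rcases last_exit (B := P) hW h1 with ⟨_, k⟩ | ⟨t, z, _, h3, h4, h5, h6, h7, _⟩
      · exact absurd hrP k
      · exact ⟨t, h3, Or.inr ⟨z, ⟨h4, h5⟩, u1, ⟨hu1C, h1⟩, h6, h7, hu1⟩⟩
  rcases htP with (ht | ht) | ht
  · -- `t` on `P_y`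
    obtain ⟨U, W, hU, hWs, hUW, k1, k2⟩ := m1.split ht
    rw [Set.disjoint_left] at hUW
    have ft := fy t ht
    have hB2 : Conn g (Pr' ∪ {r}) y e := by
      have := Conn.join (Or.inl hyr : Conn g ∅ y r) m2.1
      exact Or.inr (ConnN.mono (by rw [Set.empty_union]) this)
    refine ⟨t, seg5 A U W (Pr' ∪ {r}) ∅, mkK ft.1 hyC heC ft.2.1 ft.2.2.1 hye.symm ?_ ?_ hAt k1 k2
      hB2 (Or.inl hey)⟩
    · intro i w hw
      cases i <;> simp only [seg5] at hw
      · have k := fA w hw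
        exact ⟨k.1, fun k' => k.2.2.2.2.1 (k' ▸ ht), k.2.1, k.2.2.1⟩
      · have k := fy w (hU hw).1
        exact ⟨k.1, (hU hw).2, k.2.1, k.2.2.1⟩
      · have k := fy w (hWs hw).1
        exact ⟨k.1, (hWs hw).2, k.2.1, k.2.2.1⟩
      · rcases hw with hw | hw
        · have k := fr w hw
          exact ⟨k.1, fun k' => ft.2.2.2.2 (k' ▸ hw), k.2.1, k.2.2.1⟩
        · have : w = r := hw
          subst this
          exact ⟨hrC, fun k' => ft.2.2.2.1 k'.symm, hry, hre⟩
      · exact hw.elim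
    · intro w
      have a1 := fA w
      have a2 := fun k => (fy w (hU (a := w) k).1)
      have a3 := fun k => (fy w (hWs (a := w) k).1)
      have a2' := fun k => (hU (a := w) k).1
      have a3' := fun k => (hWs (a := w) k).1
      have a4 := hUW (a := w)
      have a5 := fr w
      simp only [Set.mem_union, Set.mem_singleton_iff, Set.mem_empty_iff_false]
      clear hUW hU hWs fA fy fr hP hA
      grind
  · -- `t` on `P_r`
    obtain ⟨U, W, hU, hWs, hUW, k1, k2⟩ := m2.split ht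
    rw [Set.disjoint_left] at hUW
    have ft := fr t ht
    have hB : Conn g (U ∪ {r}) y t := by
      have := Conn.join (Or.inl hyr : Conn g ∅ y r) k1
      exact Or.inr (ConnN.mono (by rw [Set.empty_union]) this)
    refine ⟨t, seg5 A (U ∪ {r}) W Py' ∅, mkK ft.1 hyC heC ft.2.1 ft.2.2.1 hye.symm ?_ ?_ hAt hB k2
      m1.1 (Or.inl hey)⟩
    · intro i w hw
      cases i <;> simp only [seg5] at hw
      · have k := fA w hw
        exact ⟨k.1, fun k' => k.2.2.2.2.2 (k' ▸ ht), k.2.1, k.2.2.1⟩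
      · rcases hw with hw | hw
        · have k := fr w (hU hw).1
          exact ⟨k.1, (hU hw).2, k.2.1, k.2.2.1⟩
        · have : w = r := hw
          subst this
          exact ⟨hrC, fun k' => ft.2.2.2 k'.symm, hry, hre⟩
      · have k := fr w (hWs hw).1
        exact ⟨k.1, (hWs hw).2, k.2.1, k.2.2.1⟩
      · have k := fy w hw
        exact ⟨k.1, fun k' => k.2.2.2.2 (k' ▸ ht), k.2.1, k.2.2.1⟩
      · exact hw.elim
    · intro w
      have a1 := fA w
      have a2 := fun k => (fr w (hU (a := w) k).1)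
      have a3 := fun k => (fr w (hWs (a := w) k).1)
      have a2' := fun k => (hU (a := w) k).1
      have a3' := fun k => (hWs (a := w) k).1
      have a4 := hUW (a := w)
      have a5 := fy w
      simp only [Set.mem_union, Set.mem_singleton_iff, Set.mem_empty_iff_false]
      clear hUW hU hWs fA fy fr hP hA
      grind
  · -- `t = r`
    have ht' : t = r := ht
    subst ht'
    refine ⟨t, seg5 A ∅ Pr' Py' ∅, mkK hrC hyC heC hry hre hye.symm ?_ ?_ hAt (Or.inl hyr) m2.1
      m1.1 (Or.inl hey)⟩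
    · intro i w hw
      cases i <;> simp only [seg5] at hw
      · have k := fA w hw
        exact ⟨k.1, k.2.2.2.1, k.2.1, k.2.2.1⟩
      · exact hw.elim
      · have k := fr w hw
        exact ⟨k.1, k.2.2.2, k.2.1, k.2.2.1⟩
      · have k := fy w hw
        exact ⟨k.1, k.2.2.2.1, k.2.1, k.2.2.1⟩
      · exact hw.elim
    · intro w
      have a1 := fA w
      have a2 := fr w
      have a5 := fy w
      simp only [Set.mem_empty_iff_false]
      clear fA fy fr hP hA
      grind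

/-- Only one undominated vertex `y`: contradiction from a vertex `u`. -/
theorem T6_end {E Y : V → Prop} (T : Torso g Q r) (H : Typed0 g Q r E Y)
    (hdeg : ∀ b ∈ Q, Y b → ∀ x1 x2 x3, ∃ u ∈ insert r Q, u ≠ x1 ∧ u ≠ x2 ∧ u ≠ x3 ∧ g u b)
    {y u : V} (hy : R0 g Q r y) (hY : Y y) (huniq : ∀ x, R0 g Q r x → x = y) (huQ : u ∈ Q) (huy : u ≠ y)
    (hgu : g u y) (hu : ∀ v, RR g (Q \ {y}) u v → g v y → v = u) : False := by
  classical
  have hyQ := hy.1
  have hry : r ≠ y := fun k => T.rQ (k ▸ hyQ)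
  have hroot : ∀ q ∈ Q, g q r → q = y := fun q hq k => huniq q (T.to_root hq k)
  have hyr : g y r := by
    obtain ⟨q, hq, k⟩ := T.out
    rwa [hroot q hq k] at k
  -- off `y` the root cannot be entered
  have offy : ∀ {S : Set V} {a b : V}, S ⊆ insert r Q → y ∉ S → a ∈ Q → RR g S a b →
      RR g (S ∩ Q) a b ∧ b ∈ Q := by
    intro S a b hS hyS ha h
    induction h with
    | refl => exact ⟨ReflTransGen.refl, ha⟩
    | @tail b c _ hbc ih =>
      have hbQ := ih.2
      have hcQ : c ∈ Q := by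
        rcases hS hbc.2.1 with k | k
        · exfalso
          have := hroot b hbQ (k ▸ hbc.2.2)
          exact hyS (this ▸ hbc.1)
        · exact k
      exact ⟨ih.1.tail ⟨⟨hbc.1, hbQ⟩, ⟨hbc.2.1, hcQ⟩, hbc.2.2⟩, hcQ⟩
  -- from `u` off `y`
  have fromu : ∀ {S : Set V} {v : V}, S ⊆ insert r Q → y ∉ S → RR g S u v → g v y → v = u := by
    intro S v hS hyS h hv
    refine hu v (RR.mono ?_ (offy hS hyS huQ h).1) hv
    rintro w ⟨hw, hwQ⟩
    exact ⟨hwQ, fun k => hyS (k ▸ hw)⟩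
  have huC : u ∈ insert r Q := Or.inr huQ
  -- the third vertex `u`
  have hEu : E u := by
    obtain ⟨u1, hu1C, hu1u, _, _, hu1y⟩ := hdeg y hyQ hY u u u
    have hu1ne : u1 ≠ y := by
      rintro rfl
      exact T.irr _ hu1y
    obtain ⟨Py, Pr, d1, d2, d3, d4, d5⟩ := T.two_in hyQ huQ huy
    have hW : RR g (insert r Q \ {y, u}) r u1 := by
      rcases hu1C with k | k
      · rw [k]
      · have h1 := T.star hyQ k hu1ne
        rcases first_hit (B := {u}) h1 (fun k' => T.rQ (k' ▸ huQ)) with ⟨k1, _⟩ | ⟨p, z, _, _, _, h4, h5, _, h7⟩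
        · refine RR.mono ?_ k1
          rintro w ⟨⟨hw1, hw2⟩, hw3⟩
          refine ⟨hw1, ?_⟩
          rintro (k' | k')
          · exact hw2 k'
          · exact hw3 k'
        · exfalso
          have hz : z = u := h5
          subst hz
          exact hu1u (fromu (fun w hw => hw.1) (fun k' => k'.2 rfl) h7 hu1y)
    have hsub : ∀ {P : Set V}, P ⊆ Q \ {y, u} → P ⊆ insert r Q \ {y, u, r} := by
      intro P hP w hw
      have k := hP hw
      refine ⟨Or.inr k.1, ?_⟩
      rintro (k' | k' | k')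
      · exact k.2 (Or.inl k')
      · exact k.2 (Or.inr k')
      · exact T.rQ (k' ▸ k.1)
    obtain ⟨t, S, hk⟩ := cfg (C := insert r Q) (Or.inr hyQ) huC (Or.inl rfl) huy hry
      (fun k => T.rQ (k ▸ huQ)) d1 (hsub d2) (hsub d3) d4 d5 hyr hgu hW hu1y
    exact H.yc hk hyQ hY huQ
  -- the key step
  have key : ∀ e u1, e ∈ Q → e ≠ u → g e y → u1 ≠ u → g u1 y →
      ¬ RR g (insert r Q \ {y, e}) r u1 := by
    intro e u1 heQ heu hey hu1u hu1y hW
    have hney : e ≠ y := by
      rintro rfl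
      exact T.irr _ hey
    have hru : r ≠ u := fun k => T.rQ (k ▸ huQ)
    have hre : r ≠ e := fun k => T.rQ (k ▸ heQ)
    obtain ⟨Py, Pr, d1, d2, d3, d4, d5⟩ := T.two_in hyQ heQ hney
    -- `u` is not on the paths
    have hP : ∀ {P : Set V} {s : V}, P ⊆ Q \ {y, e} → Conn g P s e → Conn g (P \ {u}) s e := by
      intro P s hPs hc
      refine Conn.mono ?_ (Conn.restrict (K := {w | w ≠ u}) hc ?_)
      · exact fun w hw => ⟨hw.1, hw.2⟩
      · rintro w hw _ g2 rfl
        apply heu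
        rcases g2 with g2 | ⟨_, q, hq, g2, g3⟩
        · exact g2.symm
        · have hq' : q ∈ insert e P := Or.inr hq
          refine fromu (S := insert e P) ?_ ?_
            ((RR.mono (Set.subset_insert e P) g2).tail ⟨Or.inr hq, Or.inl rfl, g3⟩) hey
          · rintro x (hx | hx)
            · rw [hx]
              exact Or.inr heQ
            · exact Or.inr (hPs hx).1
          · rintro (hx | hx)
            · exact hney hx.symm
            · exact (hPs hx).2 (Or.inl rfl)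
    have hW' : RR g ((insert r Q \ {u}) \ {y, e}) r u1 := by
      rcases first_hit (B := {u}) hW hru with ⟨k1, _⟩ | ⟨p, z, _, _, _, _, h5, _, h7⟩
      · refine RR.mono ?_ k1
        rintro w ⟨⟨hw1, hw2⟩, hw3⟩
        exact ⟨⟨hw1, hw3⟩, hw2⟩
      · exfalso
        have hz : z = u := h5
        subst hz
        exact hu1u (fromu (fun w hw => hw.1) (fun k' => k'.2 (Or.inl rfl)) h7 hu1y)
    have hsub : ∀ {P : Set V}, P ⊆ Q \ {y, e} → P \ {u} ⊆ (insert r Q \ {u}) \ {y, e, r} := by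
      rintro P hP' w ⟨hw, hwu⟩
      have k := hP' hw
      refine ⟨⟨Or.inr k.1, hwu⟩, ?_⟩
      rintro (k' | k' | k')
      · exact k.2 (Or.inl k')
      · exact k.2 (Or.inr k')
      · exact T.rQ (k' ▸ k.1)
    obtain ⟨t, S, hk⟩ := cfg (C := insert r Q \ {u}) ⟨Or.inr hyQ, huy.symm⟩ ⟨Or.inr heQ, heu⟩
      ⟨Or.inl rfl, hru⟩ hney hry hre
      (Set.disjoint_left.2 fun w hw k => (Set.disjoint_left.1 d1) hw.1 k.1)
      (hsub d2) (hsub d3) (hP d2 d4) (hP d3 d5) hyr hey hW' hu1y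
    have hk' : IsK g (insert r Q) t y e S :=
      ⟨hk.vC.1, hk.eC.1, hk.cC.1, hk.ve, hk.vc, hk.ec, fun i => (hk.sub i).trans Set.sdiff_subset,
        hk.nv, hk.ne, hk.nc, hk.disj, hk.conn⟩
    rcases H.lemK hk' hyQ hY u huQ hEu hgu with k | k | k | ⟨i, k⟩
    · exact hk.vC.2 k.symm
    · exact huy k
    · exact heu k.symm
    · exact (hk.sub i k).2 rfl
  -- the root does not send to `y`
  have hnr : ¬ g r y := by
    intro hr
    obtain ⟨e, he, heu, her, _, hey⟩ := hdeg y hyQ hY u r r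
    have heQ : e ∈ Q := he.resolve_left her
    exact key e r heQ heu hey (fun k => T.rQ (k ▸ huQ)) hr ReflTransGen.refl
  obtain ⟨e, he, heu, _, _, hey⟩ := hdeg y hyQ hY u u u
  have heQ : e ∈ Q := he.resolve_left (fun k => hnr (k ▸ hey))
  obtain ⟨f, hf, hfu, hfe, _, hfy⟩ := hdeg y hyQ hY u e e
  have hfQ : f ∈ Q := hf.resolve_left (fun k => hnr (k ▸ hfy))
  have hfney : f ≠ y := by
    rintro rfl
    exact T.irr _ hfy
  have h1 := T.star hyQ hfQ hfney
  rcases first_hit (B := {e, f}) h1 (by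
    rintro (k | k)
    · exact T.rQ (k ▸ heQ)
    · exact T.rQ (k ▸ hfQ)) with ⟨_, k⟩ | ⟨p, z, g1, g2, g3, g4, g5, g6, _⟩
  · exact k (Or.inr rfl)
  · rcases g5 with k | k
    · -- reaches `e` first: off `f`
      subst k
      refine key f z hfQ hfu hfy heu hey ?_
      refine ReflTransGen.tail (RR.mono ?_ g1) ⟨?_, ?_, g6⟩
      · rintro w ⟨⟨hw1, hw2⟩, hw3⟩
        refine ⟨hw1, ?_⟩
        rintro (k' | k')
        · exact hw2 k'
        · exact hw3 (Or.inr k')
      · refine ⟨g2.1, ?_⟩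
        rintro (k' | k')
        · exact g2.2 k'
        · exact g3 (Or.inr k')
      · refine ⟨g4.1, ?_⟩
        rintro (k' | k')
        · exact g4.2 k'
        · exact hfe k'.symm
    · have k' : z = f := k
      subst k'
      refine key e z heQ heu hey hfu hfy ?_
      refine ReflTransGen.tail (RR.mono ?_ g1) ⟨?_, ?_, g6⟩
      · rintro w ⟨⟨hw1, hw2⟩, hw3⟩
        refine ⟨hw1, ?_⟩
        rintro (k' | k')
        · exact hw2 k'
        · exact hw3 (Or.inl k')
      · refine ⟨g2.1, ?_⟩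
        rintro (k' | k')
        · exact g2.2 k'
        · exact g3 (Or.inl k')
      · refine ⟨g4.1, ?_⟩
        rintro (k' | k')
        · exact g4.2 k'
        · exact hfe k'

end fin

/-! ### The torso of a terminal component -/

/-- `P` is a set of vertices of the torso, everything else is contracted to `y`. -/
def tor (g : V → V → Prop) (Q : Set V) (r y : V) (P : Set V) (a b : V) : Prop :=
  (a ∈ P ∧ b ∈ P ∧ g a b) ∨ (a ∈ P ∧ b = y ∧ g a y) ∨
    (a = y ∧ b ∈ P ∧ ∃ o ∈ insert r Q, o ∉ P ∧ g o b)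

theorem conn_tail {U W : Set V} {a w b : V} (h1 : Conn g U a w) (h2 : Tail g W w b) :
    Conn g (U ∪ W) a b := by
  obtain ⟨p, k1, k2⟩ := h1.last
  exact bypass k2 k1 h2

/-- The situation. -/
structure Term (g : V → V → Prop) (Q : Set V) (r y : V) (P : Set V) : Prop where
  rQ : r ∉ Q
  irr : ∀ u, ¬ g u u
  yQ : y ∈ Q
  PQ : P ⊆ Q
  yP : y ∉ P
  out : ∀ a ∈ P, ∀ b ∈ insert r Q, g a b → b ∈ P ∨ b = y
  reach : ∀ o ∈ insert r Q, o ∉ P → RR g (insert r Q \ P) y o

namespace Term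

variable {y : V} {P : Set V}

theorem nPO (h : Term g Q r y P) {w : V} (hw : w ∈ insert y P) :
    w ∉ (insert r Q \ P) \ {y} := by
  rintro ⟨⟨_, k1⟩, k2⟩
  rcases hw with k | k
  · exact k2 k
  · exact k1 k

/-- arcs of the torso which do not start in `y` -/
theorem arc (_ : Term g Q r y P) {a b : V} (ha : a ≠ y) (hab : tor g Q r y P a b) : g a b := by
  rcases hab with ⟨_, _, k⟩ | ⟨_, rfl, k⟩ | ⟨k, _⟩
  · exact k
  · exact k
  · exact absurd k ha

/-- arcs of the torso which start in `y` -/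
theorem yarc (h : Term g Q r y P) {b : V} (hab : tor g Q r y P y b) :
    b ∈ P ∧ Conn g ((insert r Q \ P) \ {y}) y b := by
  rcases hab with ⟨k, _⟩ | ⟨k, _⟩ | ⟨_, hb, o, ho, hoP, k⟩
  · exact absurd k h.yP
  · exact absurd k h.yP
  · exact ⟨hb, conn_of_set ⟨Or.inr h.yQ, h.yP⟩ (fun k' => k'.2 hb) (h.reach o ho hoP) k⟩

theorem any (h : Term g Q r y P) {a b : V} (hab : tor g Q r y P a b) :
    Conn g ((insert r Q \ P) \ {y}) a b := by
  by_cases ha : a = y
  · subst ha
    exact (h.yarc hab).2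
  · exact Or.inl (h.arc ha hab)

theorem conn' (h : Term g Q r y P) {W : Set V} {a b : V} (hyW : y ∉ W) (hay : a ≠ y)
    (hc : Conn (tor g Q r y P) W a b) : Conn g W a b := by
  refine Conn.congr ?_ hc
  rintro u w (k | k) _ k'
  · exact h.arc (k ▸ hay) k'
  · exact h.arc (fun e => hyW (e ▸ k)) k'

theorem tail' (h : Term g Q r y P) {W : Set V} {a b : V} (hyW : y ∉ W)
    (hc : Tail (tor g Q r y P) W a b) : Tail g W a b := by
  refine Tail.congr hc ?_
  intro u w hu _ k
  exact h.arc (fun e => hyW (e ▸ hu)) k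

/-- a walk of the torso is a walk -/
theorem conn (h : Term g Q r y P) {W : Set V} {a b : V} (hc : Conn (tor g Q r y P) W a b) :
    Conn g (W ∪ ((insert r Q \ P) \ {y})) a b := by
  set O : Set V := (insert r Q \ P) \ {y} with hO
  rcases hc with k | ⟨p, hp, q, hq, g1, g2, g3⟩
  · exact Conn.mono Set.subset_union_right (h.any k)
  · have step : ∀ {x w : V}, x ∈ W → w ∈ W → tor g Q r y P x w → RR g (W ∪ O) x w := by
      intro x w hx hw k
      rcases h.any k with k | ⟨p, hp, q, hq, k1, k2, k3⟩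
      · exact ReflTransGen.single ⟨Or.inl hx, Or.inl hw, k⟩
      · exact ReflTransGen.head ⟨Or.inl hx, Or.inr hp, k1⟩
          ((RR.mono Set.subset_union_right k2).tail ⟨Or.inr hq, Or.inl hw, k3⟩)
    have key : ∀ w, RR (tor g Q r y P) W p w → RR g (W ∪ O) p w := by
      intro w hw
      induction hw with
      | refl => exact ReflTransGen.refl
      | tail _ hxy ih => exact ih.trans (step hxy.1 hxy.2.1 hxy.2.2)
    have g2' := key q g2
    have k1 := h.any g1
    have k3 := h.any g3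
    have hsub : O ∪ (W ∪ O) ⊆ W ∪ O :=
      Set.union_subset Set.subset_union_right (Set.Subset.refl _)
    rcases k3 with k3 | ⟨p', hp', q', hq', m1, m2, m3⟩
    · exact Or.inr (ConnN.mono hsub (Conn.glue k1 (Or.inl hp) (Or.inl hq) g2' k3))
    · refine Or.inr (ConnN.mono hsub (Conn.glue k1 (Or.inl hp) (Or.inr hq') ?_ m3))
      exact g2'.trans (ReflTransGen.head ⟨Or.inl hq, Or.inr hp', m1⟩
        (RR.mono Set.subset_union_right m2))

/-- Lifting, tip in `P`. -/
theorem lift1 (h : Term g Q r y P) {a b c : V} {S : Seg → Set V}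
    (hk : IsK (tor g Q r y P) (insert y P) a b c S) (hb : b ∈ P) (ha : a ≠ y) :
    ∃ S' : Seg → Set V, IsK g (insert r Q) a b c S' ∧
      ∀ u ∈ P, InK a b c S' u → InK a b c S u := by
  classical
  set O : Set V := (insert r Q \ P) \ {y} with hO
  have hsub : insert y P ⊆ insert r Q := by
    rintro w (k | k)
    · rw [k]
      exact Or.inr h.yQ
    · exact Or.inr (h.PQ k)
  have hOs : O ⊆ insert r Q := fun w hw => hw.1.1
  have hby : b ≠ y := fun k => h.yP (k ▸ hb)
  have hsubS : ∀ i, S i ⊆ insert r Q := fun i => (hk.sub i).trans hsub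
  have nO : ∀ {w : V}, w ∈ insert y P → w ∉ O := fun hw => h.nPO hw
  have main : ∀ i0 : Seg, (∀ j, j ≠ i0 → y ∉ S j ∧ src a b c j ≠ y) →
      IsK g (insert r Q) a b c (fun j => if j = i0 then S i0 ∪ O else S j) := by
    intro i0 hi0
    refine hk.repl i0 (hsub hk.vC) (hsub hk.eC) (hsub hk.cC) (Set.union_subset (hsubS i0) hOs)
      (fun j _ => hsubS j) ?_ ?_ ?_ ?_ (h.conn (hk.conn i0))
      (fun j hj => h.conn' (hi0 j hj).1 (hi0 j hj).2 (hk.conn j))
    · rintro (k | k)
      · exact hk.nv _ k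
      · exact nO hk.vC k
    · rintro (k | k)
      · exact hk.ne _ k
      · exact nO hk.eC k
    · rintro (k | k)
      · exact hk.nc _ k
      · exact nO hk.cC k
    · rintro j hj u (k | k) k'
      · exact hk.disj _ _ (Ne.symm hj) u k k'
      · exact nO (hk.sub j k') k
  have mainK : ∀ i0 : Seg, ∀ u ∈ P,
      InK a b c (fun j => if j = i0 then S i0 ∪ O else S j) u → InK a b c S u := by
    rintro i0 u hu (k | k | k | ⟨j, k⟩)
    · exact Or.inl k
    · exact Or.inr (Or.inl k)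
    · exact Or.inr (Or.inr (Or.inl k))
    · by_cases hj : j = i0
      · simp only [hj, if_true] at k
        rcases k with k | k
        · exact Or.inr (Or.inr (Or.inr ⟨i0, k⟩))
        · exact absurd hu k.1.2
      · simp only [if_neg hj] at k
        exact Or.inr (Or.inr (Or.inr ⟨j, k⟩))
  by_cases hcy : c = y
  · refine ⟨_, main .c1 ?_, mainK .c1⟩
    intro j hj
    refine ⟨fun k => hk.nc j (hcy ▸ k), ?_⟩
    cases j
    · exact ha
    · exact hby
    · exact ha
    · exact hby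
    · exact absurd rfl hj
  · have hsrc : ∀ j, src a b c j ≠ y := by
      intro j
      cases j
      · exact ha
      · exact hby
      · exact ha
      · exact hby
      · exact hcy
    by_cases hi : ∃ i, y ∈ S i
    · obtain ⟨i, hi⟩ := hi
      exact ⟨_, main i (fun j hj => ⟨fun k => hk.disj _ _ hj y k hi, hsrc j⟩), mainK i⟩
    · push Not at hi
      exact ⟨S, ⟨hsub hk.vC, hsub hk.eC, hsub hk.cC, hk.ve, hk.vc, hk.ec, hsubS, hk.nv, hk.ne,
        hk.nc, hk.disj, fun i => h.conn' (hi i) (hsrc i) (hk.conn i)⟩, fun u _ k => k⟩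

/-- Lifting, the tip is the root. -/
theorem lift2 [Finite V] (h : Term g Q r y P) {b c : V} {S : Seg → Set V}
    (hk : IsK (tor g Q r y P) (insert y P) y b c S) (hb : b ∈ P) :
    ∃ (a' : V) (S' : Seg → Set V), IsK g (insert r Q) a' b c S' ∧
      ∀ u ∈ P, InK a' b c S' u → InK y b c S u := by
  classical
  set O : Set V := (insert r Q \ P) \ {y} with hO
  have hsub : insert y P ⊆ insert r Q := by
    rintro w (k | k)
    · rw [k]
      exact Or.inr h.yQ
    · exact Or.inr (h.PQ k)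
  have hby : b ≠ y := fun k => h.yP (k ▸ hb)
  have hcy : c ≠ y := fun k => hk.vc k.symm
  have hcP : c ∈ P := hk.cC.resolve_left hcy
  have hyS : ∀ i, y ∉ S i := fun i => hk.nv i
  have hSP : ∀ i, ∀ w ∈ S i, w ∈ P := by
    intro i w hw
    rcases hk.sub i hw with k | k
    · exact absurd (k ▸ hw) (hyS i)
    · exact k
  obtain ⟨w1, f1, t1⟩ := (hk.conn .a1).first
  obtain ⟨w2, f2, t2⟩ := (hk.conn .a2).first
  have t1' : Tail g (S .a1) w1 b := h.tail' (hyS _) t1
  have t2' : Tail g (S .a2) w2 c := h.tail' (hyS _) t2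
  obtain ⟨_, e1⟩ := h.yarc f1
  obtain ⟨_, e2⟩ := h.yarc f2
  obtain ⟨P1, hP1, hm⟩ := exists_MP e1
  have kb : Conn g (S .b) b y := h.conn' (hyS _) hby (hk.conn .b)
  have kb2 : Conn g (S .b2) b c := h.conn' (hyS _) hby (hk.conn .b2)
  have kc1 : Conn g (S .c1) c b := h.conn' (hyS _) hcy (hk.conn .c1)
  have fO : ∀ w ∈ O, w ∈ insert r Q ∧ w ∉ P ∧ w ≠ y := fun w hw => ⟨hw.1.1, hw.1.2, hw.2⟩
  have mk : ∀ (t : V) (PA PB PC : Set V), (t = y ∨ t ∈ O) → PA ⊆ O → PB ⊆ O →
      (∀ w ∈ PC, w = y ∨ w ∈ O) → (∀ w ∈ PA, w ∉ PB ∧ w ∉ PC ∧ w ≠ t) →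
      (∀ w ∈ PB, w ∉ PC ∧ w ≠ t) → (∀ w ∈ PC, w ≠ t) → Conn g PA t w1 → Conn g PB t w2 →
      Conn g (S .b ∪ PC) b t →
      ∃ (a' : V) (S' : Seg → Set V), IsK g (insert r Q) a' b c S' ∧
        ∀ u ∈ P, InK a' b c S' u → InK y b c S u := by
    intro t PA PB PC ht hPA hPB hPC d1 d2 d3 k1 k2 k3
    have htP : t ∉ P := by
      rcases ht with k | k
      · rw [k]
        exact h.yP
      · exact (fO t k).2.1
    have htC : t ∈ insert r Q := by
      rcases ht with k | k
      · rw [k]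
        exact Or.inr h.yQ
      · exact (fO t k).1
    have nA : ∀ w ∈ PA, w ∈ insert r Q ∧ w ∉ P := fun w hw =>
      ⟨(fO w (hPA hw)).1, (fO w (hPA hw)).2.1⟩
    have nB : ∀ w ∈ PB, w ∈ insert r Q ∧ w ∉ P := fun w hw =>
      ⟨(fO w (hPB hw)).1, (fO w (hPB hw)).2.1⟩
    have nC : ∀ w ∈ PC, w ∈ insert r Q ∧ w ∉ P := by
      intro w hw
      rcases hPC w hw with k | k
      · rw [k]
        exact ⟨Or.inr h.yQ, h.yP⟩
      · exact ⟨(fO w k).1, (fO w k).2.1⟩
    have hbn : ∀ w, w ∉ P → w ≠ b := fun w hw k => hw (k ▸ hb)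
    have hcn : ∀ w, w ∉ P → w ≠ c := fun w hw k => hw (k ▸ hcP)
    have hT : ∀ i, ∀ w ∈ S i, w ∈ insert r Q ∧ w ≠ t ∧ w ≠ b ∧ w ≠ c := fun i w hw =>
      ⟨Or.inr (h.PQ (hSP i w hw)), fun k => htP (k ▸ hSP i w hw), (hk.ne_of_mem hw).2.1,
        (hk.ne_of_mem hw).2.2⟩
    refine ⟨t, seg5 (PA ∪ S .a1) (S .b ∪ PC) (PB ∪ S .a2) (S .b2) (S .c1), ?_, ?_⟩
    · refine mkK htC (Or.inr (h.PQ hb)) (Or.inr (h.PQ hcP)) (hbn t htP) (hcn t htP) hk.ec ?_ ?_
        (conn_tail k1 t1') k3 (conn_tail k2 t2') kb2 kc1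
      · intro i w hw
        cases i <;> simp only [seg5] at hw
        · rcases hw with hw | hw
          · exact ⟨(nA w hw).1, (d1 w hw).2.2, hbn w (nA w hw).2, hcn w (nA w hw).2⟩
          · exact hT _ w hw
        · rcases hw with hw | hw
          · exact hT _ w hw
          · exact ⟨(nC w hw).1, d3 w hw, hbn w (nC w hw).2, hcn w (nC w hw).2⟩
        · rcases hw with hw | hw
          · exact ⟨(nB w hw).1, (d2 w hw).2, hbn w (nB w hw).2, hcn w (nB w hw).2⟩
          · exact hT _ w hw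
        · exact hT _ w hw
        · exact hT _ w hw
      · intro w
        have f := hk.dfacts w
        have tA := fun k : w ∈ PA => (nA w k).2
        have tB := fun k : w ∈ PB => (nB w k).2
        have tC := fun k : w ∈ PC => (nC w k).2
        have t := fun i (k : w ∈ S i) => hSP i w k
        have e1 := d1 w
        have e2 := d2 w
        simp only [Set.mem_union]
        clear d1 d2 d3 nA nB nC hT hPA hPB hPC fO hP1 hSP hyS hm
        grind (splits := 40)
    · rintro u hu (k | k | k | ⟨i, k⟩)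
      · exact absurd (k ▸ hu) htP
      · exact Or.inr (Or.inl k)
      · exact Or.inr (Or.inr (Or.inl k))
      · cases i <;> simp only [seg5] at k
        · rcases k with k | k
          · exact absurd hu (nA u k).2
          · exact Or.inr (Or.inr (Or.inr ⟨_, k⟩))
        · rcases k with k | k
          · exact Or.inr (Or.inr (Or.inr ⟨_, k⟩))
          · exact absurd hu (nC u k).2
        · rcases k with k | k
          · exact absurd hu (nB u k).2
          · exact Or.inr (Or.inr (Or.inr ⟨_, k⟩))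
        · exact Or.inr (Or.inr (Or.inr ⟨_, k⟩))
        · exact Or.inr (Or.inr (Or.inr ⟨_, k⟩))
  rcases hit_conn (P := P1) (Conn_flip' e2) with k | ⟨z, hz, _, k⟩
  · have k' := Conn_flip k
    refine mk y P1 (O \ P1) ∅ (Or.inl rfl) hP1 Set.sdiff_subset (fun w hw => hw.elim) ?_ ?_
      (fun w hw => hw.elim) hm.1 k' (by rw [Set.union_empty]; exact kb)
    · exact fun w hw => ⟨fun k => k.2 hw, fun k => k, (fO w (hP1 hw)).2.2⟩
    · exact fun w hw => ⟨fun k => k, (fO w hw.1).2.2⟩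
  · have k' := Conn_flip k
    obtain ⟨U, W, hU, hW, hUW, k1, k2⟩ := hm.split hz
    rw [Set.disjoint_left] at hUW
    refine mk z W (O \ P1) (U ∪ {y}) (Or.inr (hP1 hz)) (fun w hw => hP1 (hW hw).1)
      Set.sdiff_subset ?_ ?_ ?_ ?_ k2 k' ?_
    · rintro w (hw | hw)
      · exact Or.inr (hP1 (hU hw).1)
      · exact Or.inl hw
    · intro w hw
      refine ⟨fun k => k.2 (hW hw).1, ?_, (hW hw).2⟩
      rintro (k | k)
      · exact hUW k hw
      · exact (fO w (hP1 (hW hw).1)).2.2 k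
    · intro w hw
      refine ⟨?_, fun k => hw.2 (k ▸ hz)⟩
      rintro (k | k)
      · exact hw.2 (hU k).1
      · exact (fO w hw.1).2.2 k
    · rintro w (hw | hw)
      · exact (hU hw).2
      · have : w = y := hw
        rw [this]
        exact fun k => (fO z (hP1 hz)).2.2 k.symm
    · have := Conn.join kb k1
      exact Or.inr this

/-- Lifting. -/
theorem lift [Finite V] (h : Term g Q r y P) {a b c : V} {S : Seg → Set V}
    (hk : IsK (tor g Q r y P) (insert y P) a b c S) (hb : b ∈ P) :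
    ∃ (a' : V) (S' : Seg → Set V), IsK g (insert r Q) a' b c S' ∧ (a ≠ y → a' = a) ∧
      ∀ u ∈ P, InK a' b c S' u → InK a b c S u := by
  by_cases ha : a = y
  · subst ha
    obtain ⟨a', S', h1, h2⟩ := h.lift2 hk hb
    exact ⟨a', S', h1, fun k => absurd rfl k, h2⟩
  · obtain ⟨S', h1, h2⟩ := h.lift1 hk hb ha
    exact ⟨a, S', h1, fun _ => rfl, h2⟩

end Term

section fin

variable [Fintype V] [DecidableEq V] {E Y : V → Prop} {y : V} {P : Set V}

/-- A strong set closed off `y` has only one vertex sending to `y`. -/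
theorem Term.one (T : Torso g Q r) (H : Typed0 g Q r E Y)
    (hdeg : ∀ b ∈ Q, Y b → ∀ x1 x2 x3, ∃ u ∈ insert r Q, u ≠ x1 ∧ u ≠ x2 ∧ u ≠ x3 ∧ g u b)
    (hY : Y y) (h : Term g Q r y P) (hs : ∀ a ∈ P, ∀ b ∈ P, RR g P a b) {q q' : V}
    (hq : q ∈ P) (hq' : q' ∈ P) (k : g q y) (k' : g q' y) : q = q' := by
  classical
  by_contra hne
  have T' : Torso (tor g Q r y P) P y := by
    refine ⟨h.yP, ?_, ?_, ?_, ⟨q, hq, Or.inr (Or.inl ⟨hq, rfl, k⟩)⟩⟩
    · rintro u (⟨_, _, e⟩ | ⟨e1, e2, _⟩ | ⟨e1, e2, _⟩)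
      · exact h.irr u e
      · exact h.yP (e2 ▸ e1)
      · exact h.yP (e1 ▸ e2)
    · intro u hu w hw
      exact RR.congr (fun a ha b hb e => Or.inl ⟨ha, hb, e⟩) (hs u hu w hw)
    · intro A hA hAne hAP x
      have hAQ : A ≠ Q := by
        rintro rfl
        exact hAP (Set.Subset.antisymm hA h.PQ)
      obtain ⟨u, hu, huA, hux, a, ha, hua⟩ := T.ent A (hA.trans h.PQ) hAne hAQ x
      by_cases huP : u ∈ P
      · exact ⟨u, Or.inr huP, huA, hux, a, ha, Or.inl ⟨huP, hA ha, hua⟩⟩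
      · by_cases hyx : y = x
        · -- a vertex of `P` outside `A` sending into `A`
          obtain ⟨b, hb, hbA⟩ : ∃ b ∈ P, b ∉ A := by
            by_contra hc
            push Not at hc
            exact hAP (Set.Subset.antisymm hA hc)
          rcases first_hit (B := A) (hs b hb a (hA ha)) hbA with
            ⟨_, e⟩ | ⟨p, z, _, e2, e3, e4, e5, e6, _⟩
          · exact absurd ha e
          · exact ⟨p, Or.inr e2, e3, fun e => h.yP (hyx ▸ e ▸ e2), z, e5, Or.inl ⟨e2, e4, e6⟩⟩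
        · exact ⟨y, Or.inl rfl, fun e => h.yP (hA e), hyx, a, ha,
            Or.inr (Or.inr ⟨rfl, hA ha, u, hu, huP, hua⟩)⟩
  have r1 : R0 (tor g Q r y P) P y q := T'.to_root hq (Or.inr (Or.inl ⟨hq, rfl, k⟩))
  have r2 : R0 (tor g Q r y P) P y q' := T'.to_root hq' (Or.inr (Or.inl ⟨hq', rfl, k'⟩))
  have two : ∀ b, ∃ x', R0 (tor g Q r y P) P y x' ∧ x' ≠ b := by
    intro b
    by_cases e : q = b
    · exact ⟨q', r2, fun e' => hne (e.trans e'.symm)⟩
    · exact ⟨q, r1, e⟩
  -- the root does not send to undominated exits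
  have nroot : ∀ b, R0 (tor g Q r y P) P y b → Y b → ¬ tor g Q r y P y b := by
    intro b hb hYb hyb
    obtain ⟨a, S, hk, _⟩ := T'.lemB' (two b) hb (Or.inl rfl) hyb
    obtain ⟨a', S', hk', _, _⟩ := h.lift hk hb.1
    exact H.EY y (H.yc hk' (h.PQ hb.1) hYb h.yQ) hY
  have H' : Typed (tor g Q r y P) P y E Y := by
    refine ⟨H.EY, ?_, ?_, ?_, ?_, ?_, ?_, ?_⟩
    · intro a b c S hk hb
      obtain ⟨a', S', hk', _, _⟩ := h.lift hk hb
      exact H.ctr hk' (h.PQ hb)
    · intro a b c S hk hb hYb hc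
      obtain ⟨a', S', hk', _, _⟩ := h.lift hk hb
      exact H.yc hk' (h.PQ hb) hYb (h.PQ hc)
    · intro a b c S hk hb hEb ha
      obtain ⟨a', S', hk', e, _⟩ := h.lift hk hb
      have e' := e (fun e => h.yP (e ▸ ha))
      subst e'
      exact H.ea hk' (h.PQ hb) hEb (h.PQ ha)
    · intro a b c S hk hb hEb ha u hu hEu hua
      obtain ⟨a', S', hk', e, e2⟩ := h.lift hk hb
      have e' := e (fun e => h.yP (e ▸ ha))
      subst e'
      exact e2 u hu (H.bad hk' (h.PQ hb) hEb (h.PQ ha) u (h.PQ hu) hEu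
        (h.arc (fun e => h.yP (e ▸ hu)) hua))
    · intro a b c S hk hb hYb u hu hEu hub
      obtain ⟨a', S', hk', _, e2⟩ := h.lift hk hb
      exact e2 u hu (H.lemK hk' (h.PQ hb) hYb u (h.PQ hu) hEu
        (h.arc (fun e => h.yP (e ▸ hu)) hub))
    · intro a b c S _ hb hYb hyb
      exact absurd hyb (nroot b hb hYb)
    · intro b hb hYb x1 x2 x3
      obtain ⟨u, hu, h1, h2, h3, hub⟩ := hdeg b (h.PQ hb.1) hYb x1 x2 x3
      have huP : u ∈ P := by
        by_contra huP
        exact nroot b hb hYb (Or.inr (Or.inr ⟨rfl, hb.1, u, hu, huP, hub⟩))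
      exact ⟨u, Or.inr huP, h1, h2, h3, Or.inl ⟨huP, hb.1, hub⟩⟩
  exact hne (torso_main T' H' r1 r2)

/-- T6: the torso lemma leads to a contradiction when there is an undominated exit. -/
theorem T6 (T : Torso g Q r) (H : Typed0 g Q r E Y)
    (hdeg : ∀ b ∈ Q, Y b → ∀ x1 x2 x3, ∃ u ∈ insert r Q, u ≠ x1 ∧ u ≠ x2 ∧ u ≠ x3 ∧ g u b)
    {v : V} (hy : R0 g Q r y) (hY : Y y) (huniq : ∀ x, R0 g Q r x → x = y) (hv : v ∈ Q)
    (hvy : v ≠ y) : False := by
  classical
  have hyQ := hy.1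
  have hroot : ∀ q ∈ Q, g q r → q = y := fun q hq k => huniq q (T.to_root hq k)
  have hyr : g y r := by
    obtain ⟨q, hq, k⟩ := T.out
    rwa [hroot q hq k] at k
  -- terminal component
  let R : V → Set V := fun u => {w | RR g (Q \ {y}) u w}
  obtain ⟨u0, hu0, hmin⟩ : ∃ u0 ∈ Q \ {y}, ∀ u ∈ Q \ {y}, (R u0).ncard ≤ (R u).ncard := by
    obtain ⟨u0, h1, h2⟩ := Set.exists_min_image (Q \ {y}) (fun u => (R u).ncard)
      (Set.toFinite _) ⟨v, hv, hvy⟩
    exact ⟨u0, h1, h2⟩
  set P : Set V := R u0 with hP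
  have hPQ : ∀ w ∈ P, w ∈ Q \ {y} := fun w hw => RR.mem_right hw hu0
  have hyP : y ∉ P := fun k => (hPQ y k).2 rfl
  have hclosed : ∀ a ∈ P, ∀ b ∈ Q \ {y}, g a b → b ∈ P := fun a ha b hb k =>
    ReflTransGen.tail ha ⟨hPQ a ha, hb, k⟩
  have hback : ∀ a ∈ P, RR g (Q \ {y}) a u0 := by
    intro a ha
    have hsub : R a ⊆ P := fun w hw => ReflTransGen.trans ha hw
    have heq : R a = P := Set.eq_of_subset_of_ncard_le hsub (hmin a (hPQ a ha)) (Set.toFinite _)
    have : u0 ∈ R a := by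
      rw [heq]
      exact ReflTransGen.refl
    exact this
  have hstay : ∀ a ∈ P, ∀ b, RR g (Q \ {y}) a b → RR g P a b := by
    intro a ha b hab
    have : RR g P a b ∧ b ∈ P := by
      induction hab with
      | refl => exact ⟨ReflTransGen.refl, ha⟩
      | @tail b c _ hbc ih =>
        have hc : c ∈ P := hclosed b ih.2 c hbc.2.1 hbc.2.2
        exact ⟨ih.1.tail ⟨ih.2, hc, hbc.2.2⟩, hc⟩
    exact this.1
  have hs : ∀ a ∈ P, ∀ b ∈ P, RR g P a b := fun a ha b hb =>
    hstay a ha b (ReflTransGen.trans (hback a ha) hb)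
  have hout : ∀ a ∈ P, ∀ b ∈ insert r Q, g a b → b ∈ P ∨ b = y := by
    intro a ha b hb k
    rcases hb with e | e
    · exfalso
      have := hroot a (hPQ a ha).1 (e ▸ k)
      exact (hPQ a ha).2 this
    · by_cases hby : b = y
      · exact Or.inr hby
      · exact Or.inl (hclosed a ha b ⟨e, hby⟩ k)
  have hreach : ∀ o ∈ insert r Q, o ∉ P → RR g (insert r Q \ P) y o := by
    intro o ho hoP
    by_cases hoy : o = y
    · rw [hoy]
    · have h1 : RR g (insert r Q \ {y}) r o := by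
        rcases ho with e | e
        · rw [e]
        · exact T.star hyQ e hoy
      have hrP : r ∉ P := fun e => T.rQ (hPQ r e).1
      rcases first_hit (B := P) h1 hrP with ⟨e, _⟩ | ⟨p, z, _, _, _, _, e5, _, e7⟩
      · refine ReflTransGen.head ⟨⟨Or.inr hyQ, hyP⟩, ⟨Or.inl rfl, hrP⟩, hyr⟩ (RR.mono ?_ e)
        exact fun w hw => ⟨hw.1.1, hw.2⟩
      · exfalso
        apply hoP
        clear_value P
        induction e7 with
        | refl => exact e5
        | @tail b c _ hbc ih =>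
          by_cases hbP : b ∈ P
          · exact (hout b hbP c hbc.2.1.1 hbc.2.2).resolve_right hbc.2.1.2
          · exact absurd (ih hbc.1.1 hbP hbc.1.2 (Or.elim hbc.1.1 (fun e => by
              subst e; exact ReflTransGen.refl) (fun e => T.star hyQ e hbc.1.2))) hbP
  have hT : Term g Q r y P := ⟨T.rQ, T.irr, hyQ, fun w hw => (hPQ w hw).1, hyP, hout, hreach⟩
  -- some vertex of `P` sends to `y`
  obtain ⟨q, hq, hqy⟩ : ∃ q ∈ P, g q y := by
    have hu0P : u0 ∈ P := ReflTransGen.refl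
    rcases last_exit (B := P) (T.str u0 hu0.1 y hyQ) hyP with ⟨_, e⟩ | ⟨p, z, e1, e2, e3, e4, e5, _, _⟩
    · exact absurd hu0P e
    · rcases hout p e2 z (Or.inr e3) e5 with e | e
      · exact absurd e e4
      · exact ⟨p, e2, e ▸ e5⟩
  refine T6_end T H hdeg hy hY huniq (hPQ q hq).1 (hPQ q hq).2 hqy ?_
  intro w hw hwy
  have hwP : w ∈ P := (hstay q hq w hw).mem_right hq
  exact Term.one T H hdeg hY hT hs hwP hq hwy hqy

end fin

end Pool.Agent.H.MP_0cacf8
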