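import Pool.Agent.H.MP_0cacf8.EYS4
import Pool.Agent.H.MP_0cacf8.EYT6

/-!
# The end of section 3
-/

set_option autoImplicit false

namespace Pool.Agent.H.MP_0cacf8

open Relation Finset Pool.Agent.H.MP_0d008e_co

variable {V : Type*} {adj : V → V → Prop} {h z : V} {S : Set V}

section

variable [Fintype V] [DecidableEq V]

theorem Frag.degS (hE : EYB adj h) (hF : Frag adj h S z) {b : V} (hb : b ∈ S) (hY : TY adj h b)
    (x1 x2 x3 : V) : ∃ u ∈ insert z S, u ≠ x1 ∧ u ≠ x2 ∧ u ≠ x3 ∧ gam adj h z S u b := by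
  obtain ⟨w, h1, h2, h3⟩ := hE.din b hY.1 hY.2 {x1, x2, x3} Finset.card_le_three
  simp only [Finset.mem_insert, Finset.mem_singleton, not_or] at h2
  have h4 := (hF.gam_in hb h1).1 h3
  refine ⟨w, ?_, h2.1, h2.2.1, h2.2.2, h4⟩
  rcases h4 with ⟨_, g | g, _⟩ | ⟨g, _, _⟩
  · exact Or.inr g
  · exact Or.inl g
  · exact Or.inr g

theorem Frag.typed0 (hE : EYB adj h) (hstr : ∀ u w, u ≠ h → w ≠ h → RR adj (Ch h) u w)
    (hF : Frag adj h S z) :
    Typed0 (gam adj h z S) S z (TE adj h) (TY adj h) := by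
  have hex : ∀ {u}, TY adj h u → adj u h := fun g => (hE.ey _ g.1).resolve_right g.2
  have hen : ∀ {u}, TE adj h u → adj h u := fun g => (hE.ey _ g.1).resolve_left g.2
  have hlift : ∀ {a b c : V} {T : Seg → Set V}, IsK (gam adj h z S) (insert z S) a b c T → b ∈ S →
      ∃ (c' : V) (T' : Seg → Set V), IsK adj (Ch h) a b c' T' ∧ (c ∈ S → c' = c) ∧
        (∀ u ∈ S, InK a b c' T' u → InK a b c T u) := by
    intro a b c T hk hb
    by_cases hc : c = z
    · subst hc
      obtain ⟨c', T', h1, _, _, h3⟩ := hF.lift2 hstr hk hb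
      exact ⟨c', T', h1, fun g => absurd g hF.zS, h3⟩
    · obtain ⟨T', h1, h3, _⟩ := hF.lift1 hstr hk hb hc
      exact ⟨c, T', h1, fun _ => rfl, h3⟩
  have hpath : ∀ {u a : V}, u ∈ S → a ∈ S → TE adj h u → gam adj h z S u a →
      Conn adj {u} h a ∧ ({u} : Set V) ⊆ Ch h := by
    intro u a hu ha hEu hua
    refine ⟨Or.inr ⟨u, rfl, u, rfl, hen hEu, ReflTransGen.refl,
      (hF.gam_in ha (hF.Sh u hu)).2 hua⟩, ?_⟩
    rintro w rfl
    exact hEu.1
  exact
    { EY := by
        rintro u ⟨h1, h2⟩ ⟨_, h3⟩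
        rcases hE.ey u h1 with g | g
        · exact h2 g
        · exact h3 g
      ctr := by
        intro a b c T hk hb
        obtain ⟨c', T', h1, _⟩ := hlift hk hb
        by_contra hcon
        refine hE.center h1 ?_ ?_
        · by_contra g
          exact hcon (Or.inl ⟨hF.Sh b hb, g⟩)
        · by_contra g
          exact hcon (Or.inr ⟨hF.Sh b hb, g⟩)
      yc := by
        intro a b c T hk hb hY hc
        obtain ⟨c', T', h1, h2, _⟩ := hlift hk hb
        have := hE.third h1 (hex hY)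
        rw [h2 hc] at this
        exact ⟨hF.Sh c hc, this⟩
      ea := by
        intro a b c T hk hb hX ha
        obtain ⟨c', T', h1, _⟩ := hlift hk hb
        exact ⟨hF.Sh a ha, hE.tip h1 (hen hX)⟩
      bad := by
        intro a b c T hk hb hX ha u hu hEu hua
        obtain ⟨c', T', h1, _, h3⟩ := hlift hk hb
        by_contra hcon
        obtain ⟨k1, k2⟩ := hpath hu ha hEu hua
        refine hE.L2 h1 (hen hX) k2 ?_ k1
        rintro w rfl g
        exact hcon (h3 w hu g)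
      lemK := by
        intro a b c T hk hb hY u hu hEu hub
        obtain ⟨c', T', h1, _, h3⟩ := hlift hk hb
        by_contra hcon
        obtain ⟨k1, k2⟩ := hpath hu hb hEu hub
        refine hE.lemK h1 (hex hY) k2 ?_ k1
        rintro w rfl g
        exact hcon (h3 w hu g) }

/-- Section 3, last part. -/
theorem sec3_end (hE : EYB adj h) (hstr : ∀ u w, u ≠ h → w ≠ h → RR adj (Ch h) u w)
    (hF : Frag adj h S z) {y : V} (hy : y ∈ S) (hyY : ¬ adj h y)
    (hR : ∀ x, R0 (gam adj h z S) S z x → x = y) {Q : Set V} {u : V}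
    (hQ : Q ⊆ S \ {y}) (hu : u ∈ Q) (huy : adj u y) (huniq : ∀ q ∈ Q, adj q y → q = u)
    (hcl : ∀ a ∈ Q, ∀ w, w ≠ h → adj a w → w ∈ Q ∨ w = y) : False := by
  have hT := hF.torso hE.irr hstr
  have hy0 : R0 (gam adj h z S) S z y := by
    obtain ⟨q, hq, hqz⟩ := hT.out
    have := hT.to_root hq hqz
    rwa [hR q this] at this
  have hYy : TY adj h y := ⟨hF.Sh y hy, hyY⟩
  have huS := hQ hu
  refine T6_end hT (hF.typed0 hE hstr) (fun b hb hY x1 x2 x3 => hF.degS hE hb hY x1 x2 x3) hy0 hYy hR huS.1 huS.2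
    ((hF.gam_in hy (hF.Sh u huS.1)).1 huy) ?_
  intro v hv hvy
  have hvQ : v ∈ Q := by
    induction hv with
    | refl => exact hu
    | @tail b c _ hbc ih =>
      have hvy' : ∀ b ∈ Q, gam adj h z S b c → c ∈ Q := by
        intro b hb g
        have hcS : c ∈ S := hbc.2.1.1
        have g' : adj b c := (hF.gam_in hcS (hF.Sh b (hQ hb).1)).2 g
        exact (hcl b hb c (hF.Sh c hcS) g').resolve_right hbc.2.1.2
      have key : ∀ w, RR (gam adj h z S) (S \ {y}) u w → w ∈ Q := by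
        intro w hw
        induction hw with
        | refl => exact hu
        | @tail b c _ hbc ih =>
          have g' : adj b c := (hF.gam_in hbc.2.1.1 (hF.Sh b (hQ ih).1)).2 hbc.2.2
          exact (hcl b ih c (hF.Sh c hbc.2.1.1) g').resolve_right hbc.2.1.2
      exact hvy' b (key b (by assumption)) hbc.2.2
  exact huniq v hvQ ((hF.gam_in hy (hF.Sh v (hQ hvQ).1)).2 hvy)

/-- There is no minimal fragment. -/
theorem frag_false (hE : EYB adj h) (hstr : ∀ u w, u ≠ h → w ≠ h → RR adj (Ch h) u w)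
    (in2 : ∀ u, u ≠ h → ∀ x, ∃ w, w ≠ h ∧ w ≠ x ∧ adj w u) (hF : Frag adj h S z) : False := by
  obtain ⟨y, hy, hR, hyY⟩ := frag_one hE hstr in2 hF
  have hYy : TY adj h y := ⟨hF.Sh y hy.1, hyY⟩
  obtain ⟨w, h1, h2, h3⟩ := in2 y (hF.Sh y hy.1) z
  have hwS : w ∈ S := by
    by_contra hw
    exact h2 (hF.ent w h1 hw y hy.1 h3)
  have hwy : w ≠ y := by
    rintro rfl
    exact hE.irr w h3
  exact T6 (hF.torso hE.irr hstr) (hF.typed0 hE hstr)
    (fun b hb hY x1 x2 x3 => hF.degS hE hb hY x1 x2 x3) hy hYy hR hwS hwy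

end

end Pool.Agent.H.MP_0cacf8
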