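import Pool.Agent.H.MP_0cacf8.EYT0

/-!
# Torso lemma, part 1: classes, and the subdivisions of Lemma B and Lemma B'
-/

set_option autoImplicit false

namespace Pool.Agent.H.MP_0cacf8

open Relation Finset Pool.Agent.H.MP_0d008e_co

variable {V : Type*}

/-! ### A general construction -/

section gen

variable [Fintype V] [DecidableEq V]

/-- Fan of two paths from `N` into `x` with the start `w ∈ N` kept. -/
theorem fan_keep {g : V → V → Prop} {C N : Set V} {x w : V} (hN : N ⊆ C)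
    (hxN : x ∉ N) (hwN : w ∈ N)
    (H1 : ∀ s ∈ C, s ≠ x → ∃ n ∈ N, RR g (C \ {s}) n x) (Hv : RR g C w x) :
    ∃ (A P : Set V) (z : V), z ∈ N ∧ z ≠ w ∧ z ≠ x ∧ z ∉ A ∧ z ∉ P ∧ Conn g A w x ∧ MP g P z x ∧
      w ∉ A ∧ w ∉ P ∧ x ∉ A ∧ x ∉ P ∧ A ⊆ C ∧ P ⊆ C ∧ (∀ y ∈ A, y ∉ P) := by
  classical
  have hwx : w ≠ x := fun h => hxN (h ▸ hwN)
  set L : V → V → Prop := fun a b => g a b ∧ b ≠ w with hL
  have hLw : ∀ s ∈ C, s ≠ x → ∃ n ∈ N, n ≠ s ∧ RR L (C \ {s}) n x := by
    intro s hs hsx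
    obtain ⟨n, hn, hw⟩ := H1 s hs hsx
    have hnx : n ≠ x := fun h => hxN (h ▸ hn)
    have hxs : x ∈ C \ {s} := by
      rcases ReflTransGen.cases_tail hw with h | ⟨q, _, h⟩
      · exact absurd h.symm hnx
      · exact h.2.1
    have hns : n ∈ C \ {s} := RR.mem_left hw hxs
    have conv : ∀ a, RR g ((C \ {s}) \ {w}) a x → RR L (C \ {s}) a x := by
      intro a ha
      refine RR.congr (adj' := L) ?_ ha |> RR.mono Set.sdiff_subset
      exact fun u _ y hy h => ⟨h, hy.2⟩
    rcases last_exit (B := {w}) hw (by simpa using hwx.symm) with ⟨h1, _⟩ |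
      ⟨y, z, h1, h2, h3, h4, h5, h6, h7⟩
    · exact ⟨n, hn, fun h => hns.2 h, conv n h1⟩
    · have hyw : y = w := h2
      subst hyw
      refine ⟨y, hwN, fun h => h1.2 h, ReflTransGen.head ⟨h1, h3, h5, ?_⟩ (conv z h6)⟩
      exact h4
  obtain ⟨Tt, r', hd, hT⟩ := fan (adj := L) C.toFinset N.toFinset x
    (by simpa using hN) (by simpa using hxN) ⟨w, by simpa using hwN⟩
    (by
      intro s hs
      by_cases hsC : s ∈ C
      · obtain ⟨n, h1, h2, h3⟩ := hLw s hsC hs
        exact ⟨n, by simpa using h1, h2, by simpa using h3⟩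
      · refine ⟨w, by simpa using hwN, fun h => hsC (h ▸ hN hwN), ?_⟩
        have e1 : C \ {s} = C := by
          ext y
          simp only [Set.mem_sdiff, Set.mem_singleton_iff, and_iff_left_iff_imp]
          rintro hy rfl
          exact hsC hy
        simp only [Set.coe_toFinset, e1]
        rcases last_exit (B := {w}) Hv (by simpa using hwx.symm) with ⟨_, h2⟩ |
          ⟨y, z, h1, h2, h3, h4, h5, h6, h7⟩
        · exact absurd rfl h2
        · have hyw : y = w := h2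
          subst hyw
          refine ReflTransGen.head ⟨h1, h3, h5, h4⟩ ?_
          refine RR.congr (adj' := L) ?_ h6 |> RR.mono Set.sdiff_subset
          exact fun u _ y hy h => ⟨h, hy.2⟩)
  simp only [Set.coe_toFinset] at hT
  have f : ∀ i, FP L N {w} (Tt i) (r' i) x := fun i =>
    ⟨by simpa using (hT i).2.1, (hT i).2.2.1, fun g => ((hT i).1 g).2 rfl, (hT i).2.2.2⟩
  have hB : Conn g ((C \ {w}) \ {x}) w x := conn_of_RR Hv hwx
  obtain ⟨A, P0, z, z1, z2, z3, z4, z5, z6, z7, z8, z9⟩ :=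
    exch (adj := g) (L := L) (E := N) (M := {w}) (e := w) (fun u y h => by simpa using h.2)
      (fun u y h => h.1) (f 0) (f 1) hd rfl (fun y hy => hy.1.2) hB
  have hP0 : Conn g P0 z x := Conn.congr (fun u y _ _ h => h.1) z7
  obtain ⟨P, hPP, hP⟩ := exists_MP hP0
  have hAC : ∀ y ∈ A, y ∈ C ∧ y ≠ x := by
    intro y hy
    rcases (z8 y hy).1 with h | h | h
    · exact ⟨h.1.1, h.2⟩
    · exact (hT 0).1 h
    · exact (hT 1).1 h
  have hPC : ∀ y ∈ P0, y ∈ C ∧ y ≠ x := by
    intro y hy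
    rcases (z9 y hy).1 with h | h
    · exact (hT 0).1 h
    · exact (hT 1).1 h
  exact ⟨A, P, z, z1, z2, z3, z4, fun h => z5 (hPP h), z6, hP, fun h => (z8 w h).2 rfl,
    fun h => (z9 w (hPP h)).2.1 rfl, fun h => (hAC x h).2 rfl, fun h => (hPC x (hPP h)).2 rfl,
    fun y hy => (hAC y hy).1, fun y hy => (hPC y (hPP hy)).1,
    fun y hy h => (z9 y (hPP h)).2.2 hy⟩

/-- Two cycles through `x` and two paths from `w`: a subdivision with tip `w`, center `x`, whose
path `b` is the arc `x → w`. -/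
theorem GB {g g1 : V → V → Prop} {C N : Set V} {x w : V} (h1 : ∀ a b, g1 a b → g a b)
    (hxC : x ∈ C) (hN : N ⊆ C) (hxN : x ∉ N) (hwN : w ∈ N) (hout : ∀ n ∈ N, g x n)
    (H1 : ∀ s ∈ C, s ≠ x → ∃ n ∈ N, RR g1 (C \ {s}) n x) (Hv : RR g1 C w x)
    (H2 : ∀ q ∈ C, q ≠ x → g1 q x → RR g (C \ {x}) w q)
    (H3 : ∀ s ∈ C, s ≠ w → s ≠ x → RR g (C \ {s}) w x) :
    ∃ (c : V) (S : Seg → Set V), IsK g C w x c S ∧ S .b = ∅ := by
  classical
  have hwx : w ≠ x := fun h => hxN (h ▸ hwN)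
  obtain ⟨A, P, z, z1, z2, z3, z4, z5, z6, z7, z8, z9, z10, z11, z12, z13, z14⟩ :=
    fan_keep hN hxN hwN H1 Hv
  -- the last vertex of the second path
  obtain ⟨q1, hq1, hq1P⟩ : ∃ q1, g1 q1 x ∧ (q1 = z ∨ q1 ∈ P) := by
    rcases z7.1 with h | ⟨p, hp, q, hq, _, _, h⟩
    · exact ⟨z, h, Or.inl rfl⟩
    · exact ⟨q, h, Or.inr hq⟩
  have hq1C : q1 ∈ C ∧ q1 ≠ x := by
    rcases hq1P with h | h
    · rw [h]
      exact ⟨hN z1, z3⟩
    · exact ⟨z13 h, fun h' => z11 (h' ▸ h)⟩
  set M : Set V := insert x (insert z P) with hM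
  have hMC : M ⊆ C := by
    rintro y (h | h | h)
    · rw [h]; exact hxC
    · rw [h]; exact hN z1
    · exact z13 h
  have hwM : w ∉ M := by
    rintro (h | h | h)
    · exact hwx h
    · exact z2 h.symm
    · exact z9 h
  have hA' : Conn (fun a b => g b a) A x w := Conn_flip' (Conn.congr (fun u y _ _ h => h1 u y h) z6)
  -- the fan out of `w`
  set L : V → V → Prop := fun a b => g b a ∧ b ∉ M with hL
  have conv : ∀ (D : Set V) (e : V), e ∈ M → RR g D w e → ∃ n ∈ M, RR L D n w ∧ (e ∈ D → n ∈ D) := by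
    intro D e he hr
    have hr' : RR (fun a b => g b a) D e w := RR_flip' hr
    rcases last_exit (B := M) hr' hwM with ⟨_, h2⟩ | ⟨y, y', h1, h2, h3, h4, h5, h6, h7⟩
    · exact absurd he h2
    · refine ⟨y, h2, ReflTransGen.head ⟨h1, h3, h5, h4⟩ ?_, fun _ => h1⟩
      refine RR.congr (adj' := L) ?_ h6 |> RR.mono Set.sdiff_subset
      exact fun u _ y hy h => ⟨h, hy.2⟩
  obtain ⟨Tt, r', hd, hT⟩ := fan (adj := L) C.toFinset M.toFinset w
    (by simpa using hMC) (by simpa using hwM) ⟨x, by simp [hM]⟩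
    (by
      intro s hs
      simp only [Set.coe_toFinset, Set.mem_toFinset]
      by_cases hsC : s ∈ C
      · by_cases hsx : s = x
        · subst hsx
          have hq1M : q1 ∈ M := by
            rcases hq1P with h | h
            · exact Or.inr (Or.inl h)
            · exact Or.inr (Or.inr h)
          obtain ⟨n, e1, e2, e3⟩ := conv (C \ {s}) q1 hq1M (H2 q1 hq1C.1 hq1C.2 hq1)
          exact ⟨n, e1, (e3 ⟨hq1C.1, hq1C.2⟩).2, e2⟩
        · obtain ⟨n, e1, e2, e3⟩ := conv (C \ {s}) x (Or.inl rfl) (H3 s hsC hs hsx)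
          exact ⟨n, e1, (e3 ⟨hxC, fun h => hsx h.symm⟩).2, e2⟩
      · have e1 : C \ {s} = C := by
          ext y
          simp only [Set.mem_sdiff, Set.mem_singleton_iff, and_iff_left_iff_imp]
          rintro hy rfl
          exact hsC hy
        rw [e1]
        obtain ⟨n, e2, e3, _⟩ := conv C x (Or.inl rfl)
          (RR.congr (fun u _ y _ h => h1 u y h) Hv)
        exact ⟨n, e2, fun h => hsC (h ▸ hMC e2), e3⟩)
  simp only [Set.coe_toFinset] at hT
  have f : ∀ i, FP L M M (Tt i) (r' i) w := fun i =>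
    ⟨by simpa using (hT i).2.1, (hT i).2.2.1, fun g => ((hT i).1 g).2 rfl, (hT i).2.2.2⟩
  obtain ⟨B2, P2, c, c1, c2, c3, c4, c5, c6, c7, c8, c9⟩ :=
    exch (adj := fun a b => g b a) (L := L) (E := M) (M := M) (e := x) (fun u y h => h.2)
      (fun u y h => h.1) (f 0) (f 1) hd (Or.inl rfl)
      (fun y hy => by
        rintro (h | h | h)
        · exact z10 (h ▸ hy)
        · exact z4 (h ▸ hy)
        · exact z14 y hy h) hA'
  have k1 : Conn g B2 w x := Conn_flip' c6
  have k3 : Conn g P2 w c := Conn_flip' (Conn.congr (fun u y _ _ h => h.1) c7)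
  have hB2 : ∀ y ∈ B2, y ∈ C ∧ y ≠ w := by
    intro y hy
    rcases (c8 y hy).1 with h | h | h
    · exact ⟨z12 h, fun h' => z8 (h' ▸ h)⟩
    · exact (hT 0).1 h
    · exact (hT 1).1 h
  have hP2 : ∀ y ∈ P2, y ∈ C ∧ y ≠ w := by
    intro y hy
    rcases (c9 y hy).1 with h | h
    · exact (hT 0).1 h
    · exact (hT 1).1 h
  have hB2M := fun y hy => (c8 y hy).2
  have hP2M := fun y hy => (c9 y hy).2
  have mM : ∀ y, y ∈ M ↔ (y = x ∨ y = z ∨ y ∈ P) := fun y => Iff.rfl
  have hcC : c ∈ C := hMC c1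
  have k2 : Conn g ∅ x w := Or.inl (hout w hwN)
  have hzC : z ∈ C := hN z1
  have hxz : g x z := hout z z1
  rcases c1 with h | h | h
  · exact absurd h c2
  · -- `c = z`
    subst h
    refine ⟨c, _, mkK (A1 := B2) (B := ∅) (A2 := P2) (B2 := ∅) (C1 := P) (hN hwN) hxC hcC hwx
      c3.symm c2.symm ?_ ?_ k1 k2 k3 (Or.inl hxz)
      (Conn.congr (fun u y _ _ h => h1 u y h) z7.1), rfl⟩
    · intro i y hy
      have f1 := hB2 y
      have f2 := hP2 y
      have f3 := hB2M y
      have f4 := hP2M y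
      rw [mM] at f3 f4
      have f5 := @z13 y
      cases i <;> simp only [seg5, Set.mem_empty_iff_false] at hy <;> grind
    · intro y
      have f3 := hB2M y
      have f4 := hP2M y
      rw [mM] at f3 f4
      simp only [Set.mem_empty_iff_false]
      grind
  · -- `c ∈ P`
    obtain ⟨U, W, hU, hW, hUW, u1, u2⟩ := z7.split h
    rw [Set.disjoint_left] at hUW
    have j1 : Conn g (U ∪ {z}) x c := by
      have := Conn.join (U := ∅) (Or.inl hxz) (Conn.congr (fun u y _ _ h => h1 u y h) u1)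
      rw [Set.empty_union] at this
      exact Or.inr this
    refine ⟨c, _, mkK (A1 := B2) (B := ∅) (A2 := P2) (B2 := U ∪ {z}) (C1 := W) (hN hwN) hxC hcC hwx
      c3.symm c2.symm ?_ ?_ k1 k2 k3 j1 (Conn.congr (fun u y _ _ h => h1 u y h) u2), rfl⟩
    · intro i y hy
      have f1 := hB2 y
      have f2 := hP2 y
      have f3 := hB2M y
      have f4 := hP2M y
      rw [mM] at f3 f4
      have f5 := @z13 y
      have f6 := @hU y
      have f7 := @hW y
      cases i <;> simp only [seg5, Set.mem_empty_iff_false, Set.mem_union, Set.mem_singleton_iff,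
        Set.mem_sdiff] at hy f6 f7 <;> grind
    · intro y
      have f3 := hB2M y
      have f4 := hP2M y
      rw [mM] at f3 f4
      have f5 := @z13 y
      have f6 := @hU y
      have f7 := @hW y
      have f8 := @hUW y
      simp only [Set.mem_empty_iff_false, Set.mem_union, Set.mem_singleton_iff,
        Set.mem_sdiff] at f6 f7 ⊢
      grind

end gen

/-! ### Classes -/

variable {g : V → V → Prop} {Q : Set V} {r : V}

theorem Dom.memQ {x v : V} (h : Dom g Q r x v) : x ∈ Q ∧ v ∈ Q ∧ v ≠ x := ⟨h.1, h.2.1, h.2.2.1⟩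

theorem Cl.root {v : V} (hr : r ∉ Q) (h : Cl g Q r r v) : v = r := by
  rcases h with h | h
  · exact h
  · exact absurd h.1 hr

theorem Top.mem {p : V} (h : Top g Q r p) : p ∈ insert r Q := by
  rcases h with h | h
  · exact Or.inl h
  · exact Or.inr h.1

theorem Cl.mem {p v : V} (hp : Top g Q r p) (h : Cl g Q r p v) : v ∈ insert r Q := by
  rcases h with h | h
  · rw [h]; exact hp.mem
  · exact Or.inr h.2.1

theorem sd1 {D : Set V} {p q : V} : D \ {p, q} ⊆ D \ {p} :=
  fun _ hu => ⟨hu.1, fun h => hu.2 (Or.inl h)⟩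

theorem sd2 {D : Set V} {p q : V} : D \ {p, q} ⊆ D \ {q} :=
  fun _ hu => ⟨hu.1, fun h => hu.2 (Or.inr h)⟩

theorem sd3 {D : Set V} {p q : V} : (D \ {p}) \ {q} ⊆ D \ {q} :=
  fun _ hu => ⟨hu.1.1, hu.2⟩

theorem sd4 {D : Set V} {p q : V} : (D \ {p}) \ {q} ⊆ (D \ {q}) \ {p} :=
  fun _ hu => ⟨⟨hu.1.1, hu.2⟩, hu.1.2⟩

namespace Torso

theorem star (T : Torso g Q r) {x v : V} (hx : x ∈ Q) (hv : v ∈ Q) (hne : v ≠ x) :
    RR g (insert r Q \ {x}) r v := by
  by_contra hcon
  obtain ⟨u, huC, huA, hux, a, ha, hua⟩ := T.ent {u | u ∈ Q ∧ u ≠ x ∧ ¬ RR g (insert r Q \ {x}) r u}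
    (fun u hu => hu.1) ⟨v, hv, hne, hcon⟩
    (fun h => by
      have h' : x ∈ {u | u ∈ Q ∧ u ≠ x ∧ ¬ RR g (insert r Q \ {x}) r u} := by
        rw [h]
        exact hx
      exact h'.2.1 rfl) x
  have hru : RR g (insert r Q \ {x}) r u := by
    rcases huC with h | h
    · rw [h]
    · by_contra h2
      exact huA ⟨h, hux, h2⟩
  exact ha.2.2 (hru.tail ⟨⟨huC, hux⟩, ⟨Or.inr ha.1, ha.2.1⟩, hua⟩)

theorem rne (T : Torso g Q r) {x : V} (hx : x ∈ Q) : r ≠ x := fun h => T.rQ (h ▸ hx)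

theorem toRoot (T : Torso g Q r) {v : V} (hv : v ∈ insert r Q) : RR g (insert r Q) v r := by
  rcases hv with h | h
  · rw [h]
  · obtain ⟨q, hq, hqr⟩ := T.out
    exact (RR.mono (Set.subset_insert r Q) (T.str v h q hq)).tail ⟨Or.inr hq, Or.inl rfl, hqr⟩

theorem und (_T : Torso g Q r) {x y : V} (hx : R0 g Q r x) (hy : y ∈ Q) (hxy : x ≠ y) :
    RR g (insert r Q \ {y}) x r := by
  by_contra h
  exact hx.2 y ⟨hy, hx.1, hxy, h⟩

theorem topUnd (T : Torso g Q r) {x y : V} (hx : Top g Q r x) (hy : y ∈ Q) (hxy : x ≠ y) :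
    RR g (insert r Q \ {y}) x r := by
  rcases hx with h | h
  · rw [h]
  · exact T.und h hy hxy

theorem asymm (T : Torso g Q r) {x v : V} (h1 : Dom g Q r x v) (h2 : Dom g Q r v x) : False := by
  obtain ⟨hx, hv, hne, hn⟩ := h1
  obtain ⟨_, _, _, hn'⟩ := h2
  have hr := T.toRoot (v := v) (Or.inr hv)
  rcases last_exit (B := {v, x}) hr (by
    rintro (h | h)
    · exact T.rne hv h
    · exact T.rne hx h) with ⟨_, h⟩ | ⟨y, z, a1, a2, a3, a4, a5, a6, _⟩
  · exact h (Or.inl rfl)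
  · rcases a2 with h | h
    · rw [h] at a1 a5
      refine hn (ReflTransGen.head ⟨⟨a1, hne⟩, ⟨a3, fun h => a4 (Or.inr h)⟩, a5⟩
        (RR.mono ?_ a6))
      exact fun u hu => ⟨hu.1, fun h => hu.2 (Or.inr h)⟩
    · have h' : y = x := h
      rw [h'] at a1 a5
      refine hn' (ReflTransGen.head ⟨⟨a1, hne.symm⟩, ⟨a3, fun h => a4 (Or.inl h)⟩, a5⟩
        (RR.mono ?_ a6))
      exact fun u hu => ⟨hu.1, fun h => hu.2 (Or.inl h)⟩

theorem dtrans (T : Torso g Q r) {x y v : V} (h1 : Dom g Q r y x) (h2 : Dom g Q r x v) :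
    Dom g Q r y v := by
  refine ⟨h1.1, h2.2.1, ?_, ?_⟩
  · rintro rfl
    exact T.asymm h1 h2
  · intro hr
    rcases first_hit (B := {x}) hr (by simpa using h2.2.2.1) with ⟨a1, _⟩ |
      ⟨p, q, _, _, _, _, a5, _, a7⟩
    · exact h2.2.2.2 (RR.mono sd3 a1)
    · have : q = x := a5
      rw [this] at a7
      exact h1.2.2.2 a7

theorem exists_top [Finite V] (T : Torso g Q r) {v : V} (hv : v ∈ Q) :
    ∃ p, R0 g Q r p ∧ Cl g Q r p v := by
  classical
  by_cases hv0 : R0 g Q r v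
  · exact ⟨v, hv0, Or.inl rfl⟩
  · have hex : ∃ x, Dom g Q r x v := by
      by_contra h
      push Not at h
      exact hv0 ⟨hv, h⟩
    have key : ∀ n : ℕ, ∀ x, Dom g Q r x v → {u | ¬ Dom g Q r x u}.ncard = n →
        ∃ p, R0 g Q r p ∧ Dom g Q r p v := by
      intro n
      induction n using Nat.strong_induction_on with
      | _ n ih =>
        intro x hx hn
        by_cases hx0 : R0 g Q r x
        · exact ⟨x, hx0, hx⟩
        · have hex' : ∃ y, Dom g Q r y x := by
            by_contra h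
            push Not at h
            exact hx0 ⟨hx.1, h⟩
          obtain ⟨y, hy⟩ := hex'
          refine ih _ ?_ y (T.dtrans hy hx) rfl
          rw [← hn]
          refine Set.ncard_lt_ncard ⟨fun u hu h => hu (T.dtrans hy h), fun h => ?_⟩ (Set.toFinite _)
          have : x ∈ {u | ¬ Dom g Q r y u} := h (fun h' : Dom g Q r x x => h'.2.2.1 rfl)
          exact this hy
    obtain ⟨x, hx⟩ := hex
    obtain ⟨p, h1, h2⟩ := key _ x hx rfl
    exact ⟨p, h1, Or.inr h2⟩

theorem top_unique (T : Torso g Q r) {p q v : V} (hp : Top g Q r p) (hq : Top g Q r q)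
    (h1 : Cl g Q r p v) (h2 : Cl g Q r q v) : p = q := by
  by_contra hne
  rcases h1 with h1 | h1
  · subst h1
    rcases h2 with h2 | h2
    · exact hne h2
    · rcases hp with hp | hp
      · subst hp
        exact T.rQ h2.2.1
      · exact hp.2 q h2
  · rcases h2 with h2 | h2
    · subst h2
      rcases hq with hq | hq
      · subst hq
        exact T.rQ h1.2.1
      · exact hq.2 p h1
    · have hvr := T.toRoot (v := v) (Or.inr h1.2.1)
      rcases first_hit (B := {p, q}) hvr (by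
        rintro (h | h)
        · exact h1.2.2.1 h
        · exact h2.2.2.1 h) with ⟨a1, _⟩ | ⟨y, z, a1, a2, a3, a4, a5, a6, _⟩
      · exact h1.2.2.2 (RR.mono sd1 a1)
      · rcases a5 with h | h
        · rw [h] at a4 a6
          have b1 := T.topUnd hp h2.1 hne
          refine h2.2.2.2 (((RR.mono sd2 a1).tail
            ⟨⟨a2, fun h => a3 (Or.inr h)⟩, ⟨a4, hne⟩, a6⟩).trans b1)
        · have h' : z = q := h
          rw [h'] at a4 a6
          have b1 := T.topUnd hq h1.1 (Ne.symm hne)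
          refine h1.2.2.2 (((RR.mono sd1 a1).tail
            ⟨⟨a2, fun h => a3 (Or.inl h)⟩, ⟨a4, Ne.symm hne⟩, a6⟩).trans b1)

theorem dom_out (T : Torso g Q r) {x v w : V} (h : Dom g Q r x v) (hw : w ∈ insert r Q)
    (hvw : g v w) : Cl g Q r x w := by
  by_cases hwx : w = x
  · exact Or.inl hwx
  right
  rcases hw with hw | hw
  · subst hw
    exact (h.2.2.2 (ReflTransGen.single ⟨⟨Or.inr h.2.1, h.2.2.1⟩, ⟨Or.inl rfl, hwx⟩, hvw⟩)).elim
  · exact ⟨h.1, hw, hwx, fun hr => h.2.2.2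
      (ReflTransGen.head ⟨⟨Or.inr h.2.1, h.2.2.1⟩, ⟨Or.inr hw, hwx⟩, hvw⟩ hr)⟩

/-- Whoever sends into a class from outside is undominated (or the root). -/
theorem enter_top [Finite V] (T : Torso g Q r) {x f s : V} (hx : Top g Q r x)
    (hf : Cl g Q r x f) (hs : s ∈ insert r Q) (hsx : ¬ Cl g Q r x s) (hsf : g s f) :
    Top g Q r s := by
  rcases hs with h | h
  · exact Or.inl h
  · obtain ⟨p, hp, hc⟩ := T.exists_top h
    rcases hc with hc | hc
    · rw [hc]
      exact Or.inr hp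
    · have h1 := T.dom_out hc (hf.mem hx) hsf
      have h2 := T.top_unique (Or.inr hp) hx h1 hf
      subst h2
      exact absurd (Or.inr hc) hsx

theorem to_root (T : Torso g Q r) {q : V} (hq : q ∈ Q) (h : g q r) : R0 g Q r q :=
  ⟨hq, fun _ hy => hy.2.2.2 (ReflTransGen.single
    ⟨⟨Or.inr hq, hy.2.2.1⟩, ⟨Or.inl rfl, T.rne hy.1⟩, h⟩)⟩

/-- Leaving the class of `w` is possible only from `w`. -/
theorem leave (T : Torso g Q r) {w a b : V} (ha : Cl g Q r w a) (hb : b ∈ insert r Q)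
    (hnb : ¬ Cl g Q r w b) (h : g a b) : a = w := by
  rcases ha with ha | ha
  · exact ha
  · exact absurd (T.dom_out ha hb h) hnb

/-- From `s` one reaches `p` through the class of `p`. -/
theorem up (T : Torso g Q r) {s p v : V} (h : g s v) (hv : Cl g Q r p v) :
    Conn g {u | Dom g Q r p u} s p := by
  rcases hv with hv | hv
  · rw [← hv]
    exact Or.inl h
  · have hvr := T.toRoot (v := v) (Or.inr hv.2.1)
    rcases first_hit (B := {p}) hvr (by simpa using hv.2.2.1) with ⟨a1, _⟩ |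
      ⟨y, z, a1, a2, a3, a4, a5, a6, _⟩
    · exact absurd a1 hv.2.2.2
    · have hz : z = p := a5
      rw [hz] at a6
      have key : ∀ u, RR g (insert r Q \ {p}) v u →
          RR g {u | Dom g Q r p u} v u ∧ Dom g Q r p u := by
        intro u hu
        induction hu with
        | refl => exact ⟨ReflTransGen.refl, hv⟩
        | @tail b c _ hbc ih =>
          have hc : Dom g Q r p c := by
            rcases T.dom_out ih.2 hbc.2.1.1 hbc.2.2 with h | h
            · exact absurd h hbc.2.1.2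
            · exact h
          exact ⟨ih.1.tail ⟨ih.2, hc, hbc.2.2⟩, hc⟩
      exact Or.inr ⟨v, hv, y, (key y a1).2, h, (key y a1).1, a6⟩

/-- A walk from the class of `w` to a vertex outside: its last part starts in `w` and avoids the
class. -/
theorem outOf (T : Torso g Q r) {w a b : V} {D : Set V} (hD : D ⊆ insert r Q)
    (h : RR g D a b) (ha : Cl g Q r w a) (hb : ¬ Cl g Q r w b) :
    w ∈ D ∧ RR g (D \ {u | Dom g Q r w u}) w b := by
  rcases last_exit (B := {u | Cl g Q r w u}) h hb with ⟨_, h2⟩ |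
    ⟨y, z, h1, h2, h3, h4, h5, h6, h7⟩
  · exact absurd ha h2
  · have hyw : y = w := T.leave h2 (hD h3) h4 h5
    rw [hyw] at h1 h5
    refine ⟨h1, ReflTransGen.head ⟨⟨h1, fun h => h.2.2.1 rfl⟩, ⟨h3, fun h => h4 (Or.inr h)⟩, h5⟩
      (RR.mono ?_ h6)⟩
    exact fun u hu => ⟨hu.1, fun h => hu.2 (Or.inr h)⟩

/-- A vertex `x ∈ R0` has an out-neighbour outside its class leading to the root, off `s`. -/
theorem toRootOff (T : Torso g Q r) {x s : V} (hx : R0 g Q r x) (hsx : s ≠ x)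
    (hsr : s ≠ r) : ∃ n ∈ insert r Q, g x n ∧ ¬ Dom g Q r x n ∧ RR g (insert r Q \ {s}) n r ∧
      RR g ((insert r Q \ {x}) \ {s}) n r := by
  have h0 : RR g (insert r Q \ {s}) x r := by
    by_cases hs : s ∈ Q
    · exact T.und hx hs hsx.symm
    · have e1 : insert r Q \ {s} = insert r Q := by
        ext y
        simp only [Set.mem_sdiff, Set.mem_singleton_iff, and_iff_left_iff_imp]
        rintro hy rfl
        rcases hy with h | h
        · exact hsr h
        · exact hs h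
      rw [e1]
      exact T.toRoot (Or.inr hx.1)
  rcases last_exit (B := {x}) h0 (by simpa using T.rne hx.1) with ⟨_, h⟩ |
    ⟨y, z, a1, a2, a3, a4, a5, a6, _⟩
  · exact absurd rfl h
  · have hy : y = x := a2
    rw [hy] at a5
    have e : RR g ((insert r Q \ {x}) \ {s}) z r := RR.mono sd4 a6
    refine ⟨z, a3.1, a5, ?_, RR.mono Set.sdiff_subset a6, e⟩
    intro hd
    exact hd.2.2.2 (RR.mono Set.sdiff_subset e)

section fin

variable [Fintype V] [DecidableEq V]

/-- LEMMA B (tip `w`, center `x`). -/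
theorem lemB (T : Torso g Q r) {x w : V} (two : ∃ x', R0 g Q r x' ∧ x' ≠ x) (hx : R0 g Q r x)
    (hw : Top g Q r w) (hxw : x ≠ w) {P : Set V} (hP : ∀ u ∈ P, Dom g Q r w u)
    (hc : Conn g P x w) : ∃ (c : V) (S : Seg → Set V), IsK g (insert r Q) w x c S ∧ S .b = P ∧
      ¬ Dom g Q r w c ∧ ∀ i, i ≠ Seg.b → ∀ u ∈ S i, ¬ Dom g Q r w u := by
  classical
  set C : Set V := insert r Q with hC
  set F : Set V := {u | Dom g Q r w u} with hF
  have hxC : x ∈ C := Or.inr hx.1
  have hwC : w ∈ C := hw.mem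
  have hxnw : ¬ Cl g Q r w x := by
    intro h
    exact hxw (T.top_unique (v := x) (Or.inr hx) hw (Or.inl rfl) h)
  have hxF : x ∉ F := fun h => hxnw (Or.inr h)
  have hwF : w ∉ F := fun h => h.2.2.1 rfl
  set g2 : V → V → Prop := fun a b => g a b ∨ (a = x ∧ b = w) with hg2
  set N : Set V := {n | n ∈ C \ F ∧ n ≠ x ∧ g2 x n} with hN
  have hg : ∀ a b, g a b → g2 a b := fun a b h => Or.inl h
  -- walks from `n` to `x` in `C` off `s` give walks in `C \ F`
  have conv : ∀ (D : Set V) (n : V), D ⊆ C → g x n → n ≠ x → n ∈ C → RR g D n x →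
      ∃ m ∈ N, RR g (D \ F) m x := by
    intro D n hD hxn hnx hnC hr
    by_cases hn : Cl g Q r w n
    · obtain ⟨h1, h2⟩ := T.outOf hD hr hn hxnw
      exact ⟨w, ⟨⟨hwC, hwF⟩, hxw.symm, Or.inr ⟨rfl, rfl⟩⟩, h2⟩
    · rcases last_exit (B := {u | Cl g Q r w u}) hr hxnw with ⟨h1, h2⟩ |
        ⟨y, z, h1, h2, h3, h4, h5, h6, h7⟩
      · refine ⟨n, ⟨⟨hnC, fun h => hn (Or.inr h)⟩, hnx, Or.inl hxn⟩, RR.mono ?_ h1⟩
        exact fun u hu => ⟨hu.1, fun h => hu.2 (Or.inr h)⟩
      · have hyw : y = w := T.leave h2 (hD h3) h4 h5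
        rw [hyw] at h1 h5
        refine ⟨w, ⟨⟨hwC, hwF⟩, hxw.symm, Or.inr ⟨rfl, rfl⟩⟩, ReflTransGen.head
          ⟨⟨h1, hwF⟩, ⟨h3, fun h => h4 (Or.inr h)⟩, h5⟩ (RR.mono ?_ h6)⟩
        exact fun u hu => ⟨hu.1, fun h => hu.2 (Or.inr h)⟩
  have wx : ∀ s ∈ C, s ≠ w → s ≠ x → RR g (C \ {s}) w x := by
    intro s hs hsw hsx
    by_cases hsr : s = r
    · subst hsr
      rcases hw with h | h
      · exact absurd h.symm hsw
      · refine RR.mono ?_ (T.str w h.1 x hx.1)
        exact fun u hu => ⟨Or.inr hu, fun h' => T.rQ (h' ▸ hu)⟩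
    · have hsQ : s ∈ Q := hs.resolve_left hsr
      exact (T.topUnd hw hsQ hsw.symm).trans (T.star hsQ hx.1 hsx.symm)
  have H1 : ∀ s ∈ C \ F, s ≠ x → ∃ n ∈ N, RR g ((C \ F) \ {s}) n x := by
    intro s hs hsx
    have main : ∃ n ∈ C, n ≠ x ∧ g x n ∧ RR g (C \ {s}) n x := by
      by_cases hsr : s = r
      · subst hsr
        obtain ⟨x', hx', hne⟩ := two
        have h1 := T.str x hx.1 x' hx'.1
        have h2 := T.str x' hx'.1 x hx.1
        rcases last_exit (B := {x}) h1 (by simpa using hne) with ⟨_, h⟩ |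
          ⟨y, z, a1, a2, a3, a4, a5, a6, _⟩
        · exact absurd rfl h
        · have hy : y = x := a2
          rw [hy] at a5
          have hsub : Q ⊆ C \ {s} := fun u hu => ⟨Or.inr hu, fun h' => T.rQ (h' ▸ hu)⟩
          exact ⟨z, Or.inr a3, a4, a5, (RR.mono (Set.sdiff_subset.trans hsub) a6).trans
            (RR.mono hsub h2)⟩
      · have hsQ : s ∈ Q := hs.1.resolve_left hsr
        obtain ⟨n, n1, n2, n3, n4, n5⟩ := T.toRootOff hx hsx hsr
        refine ⟨n, n1, ?_, n2, n4.trans (T.star hsQ hx.1 hsx.symm)⟩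
        rintro rfl
        exact T.irr _ n2
    obtain ⟨n, n1, n2, n3, n4⟩ := main
    obtain ⟨m, hm, hr⟩ := conv _ n Set.sdiff_subset n3 n2 n1 n4
    refine ⟨m, hm, RR.mono ?_ hr⟩
    exact fun u hu => ⟨⟨hu.1.1, hu.2⟩, hu.1.2⟩
  have Hv0 : RR g C w x := by
    rcases hw with h | h
    · rw [h]
      obtain ⟨x', hx', hne⟩ := two
      exact RR.mono Set.sdiff_subset (T.star hx'.1 hx.1 hne.symm)
    · exact RR.mono (Set.subset_insert _ _) (T.str w h.1 x hx.1)
  have inF : ∀ (D : Set V) (q : V), D ⊆ C → q ∉ F → RR g D w q → RR g (D \ F) w q := by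
    intro D q hD hq hr
    by_cases hqw : q = w
    · rw [hqw]
    · exact (T.outOf hD hr (Or.inl rfl) (fun h => h.elim hqw hq)).2
  obtain ⟨c, S, hk, hb⟩ := GB (g := g2) (g1 := g) (C := C \ F) (N := N) (x := x) (w := w) hg
    ⟨hxC, hxF⟩ (fun n hn => hn.1) (fun h => h.2.1 rfl)
    ⟨⟨hwC, hwF⟩, hxw.symm, Or.inr ⟨rfl, rfl⟩⟩ (fun n hn => hn.2.2)
    H1
    (inF C x (fun _ h => h) hxF Hv0)
    (by
      intro q hq hqx _
      refine RR.congr (fun u _ y _ h => hg u y h) (RR.mono ?_ (inF (C \ {x}) q Set.sdiff_subset hq.2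
        ?_))
      · exact fun u hu => ⟨⟨hu.1.1, hu.2⟩, hu.1.2⟩
      · have h1 := T.topUnd hw hx.1 hxw.symm
        by_cases hqr : q = r
        · rw [hqr]
          exact h1
        · exact h1.trans (T.star hx.1 (hq.1.resolve_left hqr) hqx))
    (by
      intro s hs hsw hsx
      refine RR.congr (fun u _ y _ h => hg u y h) (RR.mono ?_ (inF (C \ {s}) x Set.sdiff_subset hxF
        (wx s hs.1 hsw hsx)))
      exact fun u hu => ⟨⟨hu.1.1, hu.2⟩, hu.1.2⟩)
  have hPC : P ⊆ C := fun u hu => Or.inr (hP u hu).2.1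
  refine ⟨c, _, hk.repl (adj' := g) (C' := C) (T := P) .b hwC hxC hk.cC.1 hPC
    (fun j _ => (hk.sub j).trans Set.sdiff_subset) (fun h => hwF (hP w h)) (fun h => hxF (hP x h))
    (fun h => hk.cC.2 (hP c h)) (fun j _ u hu h => (hk.sub j h).2 (hP u hu)) hc ?_, ?_, hk.cC.2, ?_⟩
  · intro j hj
    refine Conn.congr ?_ (hk.conn j)
    rintro a b ha hb' h
    rcases h with h | ⟨h1, h2⟩
    · exact h
    · exfalso
      subst h1 h2
      have d1 := hk.nv j
      have d2 := hk.ne j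
      have d3 := hk.ve
      have d4 := hk.vc
      have d5 := hk.ec
      cases j <;> simp only [src, dst] at ha hb' <;> grind
  · simp
  · intro i hi u hu h
    simp only [if_neg hi] at hu
    exact (hk.sub i hu).2 h

/-- LEMMA B' (tip `a`, center `y`, third `u`, the path `c1` is the arc `u → y`). -/
theorem lemB' (T : Torso g Q r) {y u : V} (two : ∃ x', R0 g Q r x' ∧ x' ≠ y) (hy : R0 g Q r y)
    (hu : u ∈ insert r Q) (huy : g u y) :
    ∃ (a : V) (S : Seg → Set V), IsK g (insert r Q) a y u S ∧ S .c1 = ∅ := by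
  classical
  set C : Set V := insert r Q with hC
  have huny : u ≠ y := by
    rintro rfl
    exact T.irr _ huy
  have hyC : y ∈ C := Or.inr hy.1
  -- walk from `y` to `u` off `s`
  have yu : ∀ s ∈ C, s ≠ u → s ≠ y → RR g (C \ {s}) y u := by
    intro s hs hsu hsy
    by_cases hsr : s = r
    · subst hsr
      refine RR.mono ?_ (T.str y hy.1 u (hu.resolve_left hsu.symm))
      exact fun v hv => ⟨Or.inr hv, fun h' => T.rQ (h' ▸ hv)⟩
    · have hsQ : s ∈ Q := hs.resolve_left hsr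
      have h1 := T.und hy hsQ hsy.symm
      by_cases hur : u = r
      · rw [hur]
        exact h1
      · exact h1.trans (T.star hsQ (hu.resolve_left hur) hsu.symm)
  -- from out-neighbours `q` outside `F_y` to `u`, off `y`
  have qu : ∀ q ∈ C, q ≠ y → ¬ Dom g Q r y q → RR g (C \ {y}) q u := by
    intro q hq hqy hd
    have h1 : RR g (C \ {y}) q r := by
      by_cases hqr : q = r
      · rw [hqr]
      · by_contra h
        exact hd ⟨hy.1, hq.resolve_left hqr, hqy, h⟩
    by_cases hur : u = r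
    · rw [hur]
      exact h1
    · exact h1.trans (T.star hy.1 (hu.resolve_left hur) huny)
  set g1 : V → V → Prop := fun a b => g b a ∧ ¬ (b = y ∧ Dom g Q r y a) with hg1
  have conv : ∀ (D : Set V) (q n : V), RR g (D \ {y}) q n → g y q → ¬ Dom g Q r y q → q ∈ D → y ∈ D →
      RR g1 D n y := by
    intro D q n hr hyq hd hq hy'
    have h1 : RR g1 (D \ {y}) n q := by
      refine RR.congr (adj := fun a b => g b a) ?_ (RR_flip' hr)
      rintro a ha b hb h
      exact ⟨h, fun h' => hb.2 h'.1⟩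
    exact (RR.mono Set.sdiff_subset h1).tail ⟨hq, hy', hyq, fun h => hd h.2⟩
  obtain ⟨c, S, hk, hb⟩ := GB (g := fun a b => g b a) (g1 := g1) (C := C)
    (N := {n | n ∈ C ∧ n ≠ y ∧ g n y}) (x := y) (w := u) (fun a b h => h.1) hyC
    (fun n hn => hn.1) (fun h => h.2.1 rfl) ⟨hu, huny, huy⟩ (fun n hn => hn.2.2)
    (by
      intro s hs hsy
      by_cases hsr : s = r
      · subst hsr
        obtain ⟨x', hx', hne⟩ := two
        have h1 := T.str y hy.1 x' hx'.1
        have h2 := T.str x' hx'.1 y hy.1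
        have hsub : Q ⊆ C \ {s} := fun v hv => ⟨Or.inr hv, fun h' => T.rQ (h' ▸ hv)⟩
        rcases last_exit (B := {y}) h1 (by simpa using hne) with ⟨_, h⟩ |
          ⟨p, q, a1, a2, a3, a4, a5, a6, _⟩
        · exact absurd rfl h
        rcases first_hit (B := {y}) h2 (by simpa using hne) with ⟨_, h⟩ |
          ⟨n, m, b1, b2, b3, b4, b5, b6, _⟩
        · exact absurd rfl h
        have hp : p = y := a2
        have hm : m = y := b5
        rw [hp] at a5
        rw [hm] at b6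
        refine ⟨n, ⟨Or.inr b2, b3, b6⟩, conv _ q n (RR.mono ?_ (a6.trans b1)) a5 ?_ (hsub a3)
          (hsub hy.1)⟩
        · exact fun v hv => ⟨hsub hv.1, hv.2⟩
        · intro hd
          refine hd.2.2.2 ((RR.mono ?_ a6).trans (T.und hx' hy.1 hne))
          exact fun v hv => ⟨Or.inr hv.1, hv.2⟩
      · have hsQ : s ∈ Q := hs.resolve_left hsr
        obtain ⟨q, n1, n2, n3, n4, n5⟩ := T.toRootOff hy hsy hsr
        have h2 := T.star hsQ hy.1 hsy.symm
        rcases first_hit (B := {y}) h2 (by simpa using T.rne hy.1) with ⟨_, h⟩ |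
          ⟨n, m, b1, b2, b3, b4, b5, b6, _⟩
        · exact absurd rfl h
        have hm : m = y := b5
        rw [hm] at b6
        have hrs : r ∈ C \ {s} := ⟨Or.inl rfl, fun h => hsr h.symm⟩
        refine ⟨n, ⟨b2.1, b3, b6⟩, conv _ q n ((RR.mono ?_ n5).trans b1) n2 n3
          (RR.mem_left n4 hrs) ⟨hyC, hsy.symm⟩⟩
        exact fun v hv => ⟨⟨hv.1.1, hv.2⟩, hv.1.2⟩)
    (by
      obtain ⟨x', hx', hne⟩ := two
      obtain ⟨q, n1, n2, n3, n4, n5⟩ := T.toRootOff hy hne (T.rne hx'.1).symm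
      have hqy : q ≠ y := by
        rintro rfl
        exact T.irr _ n2
      exact conv C q u (qu q n1 hqy n3) n2 n3 n1 hyC)
    (by
      intro q hq hqy h
      exact RR_flip' (qu q hq hqy (fun hd => h.2 ⟨rfl, hd⟩)))
    (by
      intro s hs hsu hsy
      exact RR_flip' (yu s hs hsu hsy))
  exact ⟨c, _, hk.flip, hb⟩

end fin

end Torso

end Pool.Agent.H.MP_0cacf8
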