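import Pool.Agent.H.MP_0cacf8.EYS2
import Pool.Agent.H.MP_0cacf8.EYT1

/-!
# Only one vertex of a minimal fragment is undominated: the end
-/

set_option autoImplicit false
set_option linter.unusedSimpArgs false

namespace Pool.Agent.H.MP_0cacf8

open Relation Finset Pool.Agent.H.MP_0d008e_co

variable {V : Type*}

section pure

variable [Fintype V] [DecidableEq V]

/-- Two disjoint paths into `e`, one through the arc `y → ρ`, and a way back to `y`. -/
theorem GW {g : V → V → Prop} {C : Set V} {y ρ e : V} (hy : y ∈ C) (hρ : ρ ∈ C) (he : e ∈ C)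
    (hyρ : y ≠ ρ) (hye : y ≠ e) (hρe : ρ ≠ e) (g1 : g y ρ) (g2 : g e y)
    (Ha : ∀ s ∈ C, s ≠ e → ∃ n ∈ ({y, ρ} : Set V), RR g (C \ {s}) n e) (Hv : RR g C y e)
    (Hb : RR g (C \ {e}) ρ y) : ∃ (t : V) (S : Seg → Set V), IsK g C t y e S := by
  classical
  obtain ⟨A0, P, z, hz, hzy, _, hzA, hzP, cA0, hP, hyA0, hyP, heA0, heP, hA0C, hPC, hd0⟩ :=
    fan_keep (g := g) (C := C) (N := {y, ρ}) (x := e) (w := y)
      (by rintro v (h | h) <;> rw [h] <;> assumption)
      (by rintro (h | h); exacts [hye h.symm, hρe h.symm]) (Or.inl rfl) Ha Hv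
  have hzρ : z = ρ := hz.resolve_left hzy
  subst hzρ
  obtain ⟨A, hAA, hA⟩ := exists_MP cA0
  have hyA : y ∉ A := fun h => hyA0 (hAA h)
  have heA : e ∉ A := fun h => heA0 (hAA h)
  have hzA' : z ∉ A := fun h => hzA (hAA h)
  have hAC : A ⊆ C := hAA.trans hA0C
  have hd : ∀ v ∈ A, v ∉ P := fun v hv => hd0 v (hAA hv)
  -- the way back
  obtain ⟨t, ht, _, hR, _⟩ := exit_conn (A := A ∪ P ∪ {z}) Hb (Or.inr rfl)
    (by
      rintro ((h | h) | h)
      · exact hyA h
      · exact hyP h
      · exact hyρ h)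
  set R : Set V := ((C \ {e}) \ (A ∪ P ∪ {z})) \ {y} with hRdef
  have mR : ∀ v, v ∈ R → v ∈ C ∧ v ≠ e ∧ v ∉ A ∧ v ∉ P ∧ v ≠ z ∧ v ≠ y := by
    rintro v ⟨⟨⟨h1, h2⟩, h3⟩, h4⟩
    exact ⟨h1, h2, fun h => h3 (Or.inl (Or.inl h)), fun h => h3 (Or.inl (Or.inr h)),
      fun h => h3 (Or.inr h), h4⟩
  clear_value R
  rcases ht with (ht | ht) | ht
  · -- on the first path
    obtain ⟨U, W, hU, hW, hUW, k1, k2⟩ := hA.split ht
    rw [Set.disjoint_left] at hUW
    have hty : t ≠ y := fun h => hyA (h ▸ ht)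
    have hte : t ≠ e := fun h => heA (h ▸ ht)
    refine ⟨t, _, mkK (A1 := R) (B := U) (A2 := W) (B2 := P ∪ {z}) (C1 := ∅) (hAC ht) hy he
      hty hte hye ?_ ?_ hR k1 k2 ?_ (Or.inl g2)⟩
    · intro i v hv
      have m := mR v
      have u := @hU v
      have u' := @hW v
      have p := @hPC v
      have a := @hAC v
      have d := hd v
      clear hU hW hPC hAC hd mR
      cases i <;> simp only [seg5, Set.mem_union, Set.mem_singleton_iff, Set.mem_sdiff,
        Set.mem_empty_iff_false] at hv u u' <;> grind (splits := 40)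
    · intro v
      have m := mR v
      have u := @hU v
      have u' := @hW v
      have uw := @hUW v
      have d := hd v
      clear hU hW hPC hAC hd mR
      simp only [Set.mem_union, Set.mem_singleton_iff, Set.mem_sdiff,
        Set.mem_empty_iff_false] at u u' ⊢
      grind (splits := 40)
    · have h1 := Conn.join (U := ∅) (Or.inl g1) hP.1
      rw [Set.empty_union] at h1
      exact Or.inr h1
  · -- on the second path
    obtain ⟨U, W, hU, hW, hUW, k1, k2⟩ := hP.split ht
    rw [Set.disjoint_left] at hUW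
    have hty : t ≠ y := fun h => hyP (h ▸ ht)
    have hte : t ≠ e := fun h => heP (h ▸ ht)
    refine ⟨t, _, mkK (A1 := R) (B := U ∪ {z}) (A2 := W) (B2 := A) (C1 := ∅) (hPC ht) hy he
      hty hte hye ?_ ?_ hR ?_ k2 hA.1 (Or.inl g2)⟩
    · intro i v hv
      have m := mR v
      have u := @hU v
      have u' := @hW v
      have p := @hPC v
      have a := @hAC v
      have d := hd v
      clear hU hW hPC hAC hd mR
      cases i <;> simp only [seg5, Set.mem_union, Set.mem_singleton_iff, Set.mem_sdiff,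
        Set.mem_empty_iff_false] at hv u u' <;> grind (splits := 40)
    · intro v
      have m := mR v
      have u := @hU v
      have u' := @hW v
      have uw := @hUW v
      have d := hd v
      clear hU hW hPC hAC hd mR
      simp only [Set.mem_union, Set.mem_singleton_iff, Set.mem_sdiff,
        Set.mem_empty_iff_false] at u u' ⊢
      grind (splits := 40)
    · have h1 := Conn.join (U := ∅) (Or.inl g1) k1
      rw [Set.empty_union] at h1
      exact Or.inr h1
  · have ht' : t = z := ht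
    subst ht'
    refine ⟨t, _, mkK (A1 := R) (B := ∅) (A2 := P) (B2 := A) (C1 := ∅) hρ hy he
      hyρ.symm hρe hye ?_ ?_ hR (Or.inl g1) hP.1 hA.1 (Or.inl g2)⟩
    · intro i v hv
      have m := mR v
      have p := @hPC v
      have a := @hAC v
      have d := hd v
      clear hPC hAC hd mR
      cases i <;> simp only [seg5, Set.mem_union, Set.mem_singleton_iff, Set.mem_sdiff,
        Set.mem_empty_iff_false] at hv <;> grind (splits := 40)
    · intro v
      have m := mR v
      have d := hd v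
      clear hPC hAC hd mR
      simp only [Set.mem_union, Set.mem_singleton_iff, Set.mem_sdiff,
        Set.mem_empty_iff_false]
      grind (splits := 40)

end pure

section

variable {adj : V → V → Prop} {h z : V} {S : Set V} [Fintype V] [DecidableEq V]

/-- Lemma K for the torso. -/
theorem Frag.lemK (hE : EYB adj h) (hstr : ∀ u w, u ≠ h → w ≠ h → RR adj (Ch h) u w)
    (hF : Frag adj h S z) {a b c : V} {T : Seg → Set V}
    (hk : IsK (gam adj h z S) (insert z S) a b c T) (hb : b ∈ S) (hY : ¬ adj h b) {u : V}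
    (hu : u ∈ S) (hue : adj h u) (hub : adj u b) : InK a b c T u := by
  by_contra hcon
  have hbe : adj b h := (hE.ey b (hF.Sh b hb)).resolve_right hY
  have hc1 : Conn adj {u} h b := Or.inr ⟨u, rfl, u, rfl, hue, ReflTransGen.refl, hub⟩
  have hsub : ({u} : Set V) ⊆ Ch h := by
    rintro y rfl
    exact hF.Sh y hu
  by_cases hc : c = z
  · subst hc
    obtain ⟨c', T', hk', _, _, h3⟩ := hF.lift2 hstr hk hb
    refine hE.lemK hk' hbe hsub ?_ hc1
    rintro y rfl g
    exact hcon (h3 y hu g)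
  · obtain ⟨T', hk', h3, _⟩ := hF.lift1 hstr hk hb hc
    refine hE.lemK hk' hbe hsub ?_ hc1
    rintro y rfl g
    exact hcon (h3 y hu g)

theorem sec3_end (hE : EYB adj h) (hstr : ∀ u w, u ≠ h → w ≠ h → RR adj (Ch h) u w)
    (hF : Frag adj h S z) {y : V} (hy : y ∈ S) (hyY : ¬ adj h y)
    (honly : ∀ q ∈ S, gam adj h z S q z → q = y) {Q : Set V} {u : V} (hQ : Q ⊆ S \ {y})
    (huQ : u ∈ Q) (huy : adj u y) (hQu : ∀ q ∈ Q, adj q y → q = u)
    (hQo : ∀ a ∈ Q, ∀ w, w ≠ h → adj a w → w ∈ Q ∨ w = y) : False := by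
  classical
  have hT := hF.torso hE.irr hstr
  set g := gam adj h z S with hg
  have hQS : ∀ q ∈ Q, q ∈ S := fun q hq => (hQ hq).1
  have hyQ : y ∉ Q := fun hq => (hQ hq).2 rfl
  have hzQ : z ∉ Q := fun hq => hF.zS (hQS z hq)
  have hyz : y ≠ z := fun e => hF.zS (e ▸ hy)
  have gyz : g y z := by
    obtain ⟨q, hq, hqz⟩ := hT.out
    rwa [honly q hq hqz] at hqz
  -- arcs out of `Q`
  have hout : ∀ a ∈ Q, ∀ w, g a w → w ∈ Q ∨ w = y := by
    rintro a ha w (⟨h1, _, h3⟩ | ⟨_, _, o, h1, h2, h3⟩)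
    · exact hQo a ha w (hF.Sh w h1) h3
    · rcases hQo a ha o h1 h3 with h4 | h4
      · exact absurd (hQS o h4) h2
      · exact absurd (h4 ▸ hy) h2
  -- walks which avoid `y` avoid `Q`
  have avoid : ∀ {D : Set V} {a b : V}, RR g D a b → y ∉ D → a ∉ Q → b ∉ Q →
      RR g (D \ Q) a b := by
    intro D a b hr hyD ha hb
    rcases first_hit (B := Q) hr ha with k | ⟨p, q, _, _, _, hqD, hq, _, hqb⟩
    · exact k.1
    · exfalso
      have key : ∀ w, RR g D q w → w ∈ Q := by
        intro w hw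
        induction hw with
        | refl => exact hq
        | @tail a b _ hab ih =>
          rcases hout a ih b hab.2.2 with k | k
          · exact k
          · exact absurd (k ▸ hab.2.1) hyD
      exact hb (key b hqb)
  have avoid2 : ∀ {D : Set V} {a b : V}, RR g D a b → b ∉ Q →
      RR g (D \ Q) a b ∨ (y ∈ D ∧ RR g (D \ Q) y b) := by
    intro D a b hr hb
    rcases last_exit (B := Q) hr hb with k | ⟨p, q, _, hp, hqD, hq, hpq, hqb, _⟩
    · exact Or.inl k.1
    · rcases hout p hp q hpq with k | k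
      · exact absurd k hq
      · subst k
        exact Or.inr ⟨hqD, hqb⟩
  have hyi : y ∈ insert z S := Or.inr hy
  have hzi : z ∈ insert z S := Or.inl rfl
  have hbe : adj y h := (hE.ey y (hF.Sh y hy)).resolve_right hyY
  -- in-neighbours of `y`
  have hin : ∀ w, w ≠ h → w ≠ z → adj w y → w ∈ S ∧ w ≠ y ∧ g w y := by
    intro w hwh hwz hwy
    have hwS : w ∈ S := by
      by_contra k
      exact hwz (hF.ent w hwh k y hy hwy)
    exact ⟨hwS, fun e => hE.irr y (e ▸ hwy), Or.inl ⟨hy, Or.inl hwS, hwy⟩⟩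
  -- `u` is an entry
  have huS := hQS u huQ
  have huy' : u ≠ y := fun e => hyQ (e ▸ huQ)
  have huz : u ≠ z := fun e => hzQ (e ▸ huQ)
  have hue : adj h u := by
    obtain ⟨w, w1, w2, w3⟩ := hE.din y (hF.Sh y hy) hyY {u, z} (Finset.card_le_two.trans (by omega))
    simp only [Finset.mem_insert, Finset.mem_singleton, not_or] at w2
    obtain ⟨hwS, hwy, gwy⟩ := hin w w1 w2.2 w3
    have hwQ : w ∉ Q := fun k => w2.1 (hQu w k w3)
    obtain ⟨t, T, hk⟩ := GW (g := g) (C := insert z S) (y := y) (ρ := z) (e := u) hyi hzi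
      (Or.inr huS) hyz huy'.symm huz.symm gyz (Or.inl ⟨hy, Or.inl huS, huy⟩)
      (by
        intro s hs hsu
        by_cases hsz : s = z
        · subst hsz
          refine ⟨y, Or.inl rfl, RR.mono ?_ (hT.str y hy u huS)⟩
          exact fun v hv => ⟨Or.inr hv, fun e => hF.zS (e ▸ hv)⟩
        · exact ⟨z, Or.inr rfl, hT.star (hs.resolve_left hsz) huS (Ne.symm hsu)⟩)
      (RR.mono (Set.subset_insert _ _) (hT.str y hy u huS))
      (by
        have h1 := avoid (hT.star hy hwS hwy) (fun k => k.2 rfl) hzQ hwQ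
        have h2 : RR g (insert z S \ {u}) z w := by
          refine RR.mono ?_ h1
          exact fun v hv => ⟨hv.1.1, fun e => hv.2 (e ▸ huQ)⟩
        exact h2.tail ⟨⟨Or.inr hwS, w2.1⟩, ⟨hyi, huy'.symm⟩, gwy⟩)
    obtain ⟨T', hk', _⟩ := hF.lift1 hstr hk hy huz
    exact (hE.ey u (hF.Sh u huS)).resolve_left (hE.third hk' hbe)
  -- in-neighbours of `y` dominate each other
  have hdom : ∀ e ∈ S, ∀ w ∈ S, adj e y → adj w y → e ≠ u → w ≠ u → e ≠ w → e ≠ y → w ≠ y →
      ¬ RR g (insert z S \ {y, e}) z w := by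
    intro e he w hw hey hwy heu hwu hew hey' hwy' hr
    have heQ : e ∉ Q := fun k => heu (hQu e k hey)
    have hwQ : w ∉ Q := fun k => hwu (hQu w k hwy)
    have hez : e ≠ z := fun k => hF.zS (k ▸ he)
    have gwy : g w y := Or.inl ⟨hy, Or.inl hw, hwy⟩
    have gey : g e y := Or.inl ⟨hy, Or.inl he, hey⟩
    obtain ⟨t, T, hk⟩ := GW (g := g) (C := insert z S \ Q) (y := y) (ρ := z) (e := e)
      ⟨hyi, hyQ⟩ ⟨hzi, hzQ⟩ ⟨Or.inr he, heQ⟩ hyz hey'.symm hez.symm gyz gey
      (by
        intro s hs hse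
        have hsub : ∀ {D : Set V}, D ⊆ insert z S \ {s} → D \ Q ⊆ (insert z S \ Q) \ {s} :=
          fun hD v hv => ⟨⟨(hD hv.1).1, hv.2⟩, (hD hv.1).2⟩
        by_cases hsz : s = z
        · subst hsz
          have h1 : RR g (insert s S \ {s}) y e := by
            refine RR.mono ?_ (hT.str y hy e he)
            exact fun v hv => ⟨Or.inr hv, fun e => hF.zS (e ▸ hv)⟩
          rcases avoid2 h1 heQ with k | k
          · exact ⟨y, Or.inl rfl, RR.mono (hsub (Set.Subset.refl _)) k⟩
          · exact ⟨y, Or.inl rfl, RR.mono (hsub (Set.Subset.refl _)) k.2⟩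
        · rcases avoid2 (hT.star (hs.1.resolve_left hsz) he (Ne.symm hse)) heQ with k | k
          · exact ⟨z, Or.inr rfl, RR.mono (hsub (Set.Subset.refl _)) k⟩
          · exact ⟨y, Or.inl rfl, RR.mono (hsub (Set.Subset.refl _)) k.2⟩)
      (by
        have h1 : RR g (insert z S) y e := RR.mono (Set.subset_insert _ _) (hT.str y hy e he)
        rcases avoid2 h1 heQ with k | k
        · exact k
        · exact k.2)
      (by
        have h1 := avoid hr (fun k => k.2 (Or.inl rfl)) hzQ hwQ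
        have h2 : RR g ((insert z S \ Q) \ {e}) z w := by
          refine RR.mono ?_ h1
          exact fun v hv => ⟨⟨hv.1.1, hv.2⟩, fun k => hv.1.2 (Or.inr k)⟩
        exact h2.tail ⟨⟨⟨Or.inr hw, hwQ⟩, hew.symm⟩, ⟨⟨hyi, hyQ⟩, hey'.symm⟩, gwy⟩)
    have hk2 : IsK g (insert z S) t y e T := hk.le (fun v hv => hv.1)
    have h3 := hF.lemK hE hstr hk2 hy hyY huS hue huy
    have h4 : u ∈ insert z S \ Q := by
      rcases h3 with k | k | k | ⟨i, k⟩
      · rw [k]
        exact hk.vC
      · rw [k]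
        exact hk.eC
      · rw [k]
        exact hk.cC
      · exact hk.sub i k
    exact h4.2 huQ
  obtain ⟨e, e1, e2, e3⟩ := hE.din y (hF.Sh y hy) hyY {u, z} (Finset.card_le_two.trans (by omega))
  simp only [Finset.mem_insert, Finset.mem_singleton, not_or] at e2
  obtain ⟨heS, hey, gey⟩ := hin e e1 e2.2 e3
  obtain ⟨w, w1, w2, w3⟩ := hE.din y (hF.Sh y hy) hyY {u, z, e} Finset.card_le_three
  simp only [Finset.mem_insert, Finset.mem_singleton, not_or] at w2
  obtain ⟨hwS, hwy, gwy⟩ := hin w w1 w2.2.1 w3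
  have n1 := hdom e heS w hwS e3 w3 e2.1 w2.1 (Ne.symm w2.2.2) hey hwy
  have n2 := hdom w hwS e heS w3 e3 w2.1 e2.1 w2.2.2 hwy hey
  have hzB : z ∉ ({e, w} : Set V) := by
    rintro (k | k)
    · exact e2.2 k.symm
    · exact w2.2.1 k.symm
  rcases first_hit (B := {e, w}) (hT.star hy hwS hwy) hzB with k | ⟨p, q, hp, hpD, hpB, hqD, hq, hpq, _⟩
  · exact k.2 (Or.inr rfl)
  · rcases hq with hq | hq
    · subst hq
      refine n2 ((RR.mono ?_ hp).tail ⟨⟨hpD.1, ?_⟩, ⟨hqD.1, ?_⟩, hpq⟩)
      · rintro v ⟨⟨h1, h2⟩, h3⟩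
        refine ⟨h1, ?_⟩
        rintro (k | k)
        · exact h2 k
        · exact h3 (Or.inr k)
      · rintro (k | k)
        · exact hpD.2 k
        · exact hpB (Or.inr k)
      · rintro (k | k)
        · exact hey k
        · exact w2.2.2 k.symm
    · have hq' : q = w := hq
      subst hq'
      refine n1 ((RR.mono ?_ hp).tail ⟨⟨hpD.1, ?_⟩, ⟨hqD.1, ?_⟩, hpq⟩)
      · rintro v ⟨⟨h1, h2⟩, h3⟩
        refine ⟨h1, ?_⟩
        rintro (k | k)
        · exact h2 k
        · exact h3 (Or.inl k)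
      · rintro (k | k)
        · exact hpD.2 k
        · exact hpB (Or.inl k)
      · rintro (k | k)
        · exact hwy k
        · exact w2.2.2 k

end

end Pool.Agent.H.MP_0cacf8
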