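import Pool.Agent.H.MP_0cacf8.EYT1

/-!
# Torso lemma, part 2: exits have reverse arcs, entries and exits alternate
-/

set_option autoImplicit false
set_option linter.unusedSimpArgs false

namespace Pool.Agent.H.MP_0cacf8

open Relation Finset Pool.Agent.H.MP_0d008e_co

variable {V : Type*} {g : V → V → Prop} {Q : Set V} {r : V}

/-- The last arc of a minimal path is unique. -/
theorem MP.uniq_end {P : Set V} {a b w w' : V} (h : MP g P a b) (h1 : g w b) (h2 : g w' b)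
    (hw : w ∈ P ∨ w = a) (hw' : w' ∈ P ∨ w' = a) : w = w' := by
  have hf : MP (fun x y => g y x) P b a :=
    ⟨Conn_flip' h.1, fun y hy hc => h.2 y hy (Conn_flip hc)⟩
  exact hf.uniq h1 h2 hw hw'

/-- An arc replaces `a1`: new tip `u` on the path `b`. -/
theorem IsK.cut_b {C : Set V} {a y c : V} {S : Seg → Set V} (h : IsK g C a y c S)
    (hm : MP g (S .b) y a) {u : V} (hu : u ∈ S .b) (huy : g u y) :
    ∃ S' : Seg → Set V, IsK g C u y c S' ∧ ∀ j, ∀ w ∈ S' j, w ∉ S .a1 := by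
  obtain ⟨U, W, hU, hW, hUW, k1, k2⟩ := hm.split hu
  rw [Set.disjoint_left] at hUW
  obtain ⟨w1, w2, w3⟩ := h.ne_of_mem hu
  have hvC := h.vC
  have ve := h.ve
  have vc := h.vc
  have nv := h.nv
  refine ⟨_, mkK (A1 := ∅) (B := U) (A2 := W ∪ (S .a2 ∪ {a})) (B2 := S .b2) (C1 := S .c1)
    (h.sub _ hu) h.eC h.cC w2 w3 h.ec ?_ ?_ (Or.inl huy) k1
    (Or.inr (Conn.join k2 (h.conn .a2))) (h.conn .b2) (h.conn .c1), ?_⟩
  · intro i w hw
    have f := h.dfacts w
    have g := fun i (g : w ∈ S i) => h.ne_of_mem g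
    have g' := fun i (g : w ∈ S i) => h.sub i g
    have u := @hU w
    have u' := @hW w
    cases i <;> simp only [seg5, Set.mem_union, Set.mem_singleton_iff, Set.mem_sdiff,
      Set.mem_empty_iff_false] at hw u u' <;> grind (splits := 40)
  · intro w
    have f := h.dfacts w
    have u := @hU w
    have u' := @hW w
    have uw := @hUW w
    simp only [Set.mem_union, Set.mem_singleton_iff, Set.mem_sdiff,
      Set.mem_empty_iff_false] at u u' ⊢
    grind (splits := 40)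
  · intro j w hw
    have f := h.dfacts w
    have u := @hU w
    have u' := @hW w
    cases j <;> simp only [seg5, Set.mem_union, Set.mem_singleton_iff, Set.mem_sdiff,
      Set.mem_empty_iff_false] at hw u u' <;> grind (splits := 40)

/-- An arc replaces `a1`: new tip `u` on the path `a2`. -/
theorem IsK.cut_a2 {C : Set V} {a y c : V} {S : Seg → Set V} (h : IsK g C a y c S)
    (hm : MP g (S .a2) a c) {u : V} (hu : u ∈ S .a2) (huy : g u y) :
    ∃ S' : Seg → Set V, IsK g C u y c S' ∧ ∀ j, ∀ w ∈ S' j, w ∉ S .a1 := by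
  obtain ⟨U, W, hU, hW, hUW, k1, k2⟩ := hm.split hu
  rw [Set.disjoint_left] at hUW
  obtain ⟨w1, w2, w3⟩ := h.ne_of_mem hu
  have hvC := h.vC
  have ve := h.ve
  have vc := h.vc
  have nv := h.nv
  refine ⟨_, mkK (A1 := ∅) (B := S .b ∪ (U ∪ {a})) (A2 := W) (B2 := S .b2) (C1 := S .c1)
    (h.sub _ hu) h.eC h.cC w2 w3 h.ec ?_ ?_ (Or.inl huy)
    (Or.inr (Conn.join (h.conn .b) k1)) k2 (h.conn .b2) (h.conn .c1), ?_⟩
  · intro i w hw
    have f := h.dfacts w
    have g := fun i (g : w ∈ S i) => h.ne_of_mem g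
    have g' := fun i (g : w ∈ S i) => h.sub i g
    have u := @hU w
    have u' := @hW w
    cases i <;> simp only [seg5, Set.mem_union, Set.mem_singleton_iff, Set.mem_sdiff,
      Set.mem_empty_iff_false] at hw u u' <;> grind (splits := 40)
  · intro w
    have f := h.dfacts w
    have u := @hU w
    have u' := @hW w
    have uw := @hUW w
    simp only [Set.mem_union, Set.mem_singleton_iff, Set.mem_sdiff,
      Set.mem_empty_iff_false] at u u' ⊢
    grind (splits := 40)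
  · intro j w hw
    have f := h.dfacts w
    have u := @hU w
    have u' := @hW w
    cases j <;> simp only [seg5, Set.mem_union, Set.mem_singleton_iff, Set.mem_sdiff,
      Set.mem_empty_iff_false] at hw u u' <;> grind (splits := 40)

/-- An arc replaces `a1`: new tip `u` on the path `b2`. -/
theorem IsK.cut_b2 {C : Set V} {a y c : V} {S : Seg → Set V} (h : IsK g C a y c S)
    (hm : MP g (S .b2) y c) {u : V} (hu : u ∈ S .b2) (huy : g u y) :
    ∃ S' : Seg → Set V, IsK g C u y c S' ∧ ∀ j, ∀ w ∈ S' j, w ∉ S .a1 := by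
  obtain ⟨U, W, hU, hW, hUW, k1, k2⟩ := hm.split hu
  rw [Set.disjoint_left] at hUW
  obtain ⟨w1, w2, w3⟩ := h.ne_of_mem hu
  have hvC := h.vC
  have ve := h.ve
  have vc := h.vc
  have nv := h.nv
  refine ⟨_, mkK (A1 := ∅) (B := U) (A2 := W) (B2 := S .b ∪ (S .a2 ∪ {a})) (C1 := S .c1)
    (h.sub _ hu) h.eC h.cC w2 w3 h.ec ?_ ?_ (Or.inl huy) k1 k2
    (Or.inr (Conn.join (h.conn .b) (h.conn .a2))) (h.conn .c1), ?_⟩
  · intro i w hw
    have f := h.dfacts w
    have g := fun i (g : w ∈ S i) => h.ne_of_mem g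
    have g' := fun i (g : w ∈ S i) => h.sub i g
    have u := @hU w
    have u' := @hW w
    cases i <;> simp only [seg5, Set.mem_union, Set.mem_singleton_iff, Set.mem_sdiff,
      Set.mem_empty_iff_false] at hw u u' <;> grind (splits := 40)
  · intro w
    have f := h.dfacts w
    have u := @hU w
    have u' := @hW w
    have uw := @hUW w
    simp only [Set.mem_union, Set.mem_singleton_iff, Set.mem_sdiff,
      Set.mem_empty_iff_false] at u u' ⊢
    grind (splits := 40)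
  · intro j w hw
    have f := h.dfacts w
    have u := @hU w
    have u' := @hW w
    cases j <;> simp only [seg5, Set.mem_union, Set.mem_singleton_iff, Set.mem_sdiff,
      Set.mem_empty_iff_false] at hw u u' <;> grind (splits := 40)

section T2

variable {E Y : V → Prop} [Fintype V] [DecidableEq V]

/-- (1) -/
theorem T2_one (T : Torso g Q r) (H : Typed g Q r E Y) {y : V}
    (two : ∃ x', R0 g Q r x' ∧ x' ≠ y) (hy : R0 g Q r y) (hY : Y y) {u : V} (hu : u ∈ Q)
    (huy : g u y) : E u := by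
  obtain ⟨a, S, hk, _⟩ := T.lemB' two hy (Or.inr hu) huy
  exact H.yc hk hy.1 hY hu

theorem T2_type (T : Torso g Q r) (H : Typed g Q r E Y) {y : V}
    (two : ∃ x', R0 g Q r x' ∧ x' ≠ y) (hy : R0 g Q r y) : E y ∨ Y y := by
  obtain ⟨x', hx', hne⟩ := two
  obtain ⟨u, hu, _, _, a, ha, hua⟩ := T.ent {y} (by simpa using hy.1) ⟨y, rfl⟩
    (by
      intro h
      apply hne
      have : x' ∈ ({y} : Set V) := h ▸ hx'.1
      exact this) y
  have ha' : a = y := ha
  subst ha'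
  obtain ⟨a', S, hk, _⟩ := T.lemB' ⟨x', hx', hne⟩ hy hu hua
  exact H.ctr hk hy.1

/-- (E) -/
theorem T2_all (T : Torso g Q r) (H : Typed g Q r E Y) {a y c : V} {S : Seg → Set V}
    (two : ∃ x', R0 g Q r x' ∧ x' ≠ y) (hk : IsK g (insert r Q) a y c S) (hy : R0 g Q r y)
    (hY : Y y) {u : V} (hu : u ∈ insert r Q) (huy : g u y) : InK a y c S u := by
  rcases hu with hu | hu
  · subst hu
    exact H.lemKr hk hy hY huy
  · exact H.lemK hk hy.1 hY u hu (T2_one T H two hy hY hu huy) huy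

/-- (G*) -/
theorem T2_gstar (T : Torso g Q r) (H : Typed g Q r E Y) {a y c : V} {S : Seg → Set V}
    (two : ∃ x', R0 g Q r x' ∧ x' ≠ y) (hk : IsK g (insert r Q) a y c S) (hy : R0 g Q r y)
    (hY : Y y) : g a y := by
  by_contra hay
  obtain ⟨S1, _, hk1, hmp⟩ := hk.shrink
  obtain ⟨_, _, u1, hu1, _, _, h1⟩ : ConnN g (S1 .a1) a y := (hk1.conn .a1).resolve_left hay
  -- a subdivision with center `y` and without the path `a1`
  have hno : ∀ {u : V} {S' : Seg → Set V}, IsK g (insert r Q) u y c S' →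
      (∀ j, ∀ w ∈ S' j, w ∉ S1 .a1) → u ≠ u1 → False := by
    intro u S' hk' hS' hne
    rcases T2_all T H two hk' hy hY (hk1.sub _ hu1) h1 with g1 | g1 | g1 | ⟨j, g1⟩
    · exact hne g1.symm
    · exact hk1.ne .a1 (g1 ▸ hu1)
    · exact hk1.nc .a1 (g1 ▸ hu1)
    · exact hS' j u1 g1 hu1
  -- where the in-neighbours of `y` are
  have key : ∀ u ∈ insert r Q, u ≠ u1 → g u y → u ∈ S1 .c1 ∨ u = c := by
    intro u hu hne huy
    rcases T2_all T H two hk1 hy hY hu huy with g1 | g1 | g1 | ⟨j, g1⟩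
    · exact absurd (g1 ▸ huy) hay
    · exact absurd (g1 ▸ huy) (T.irr _)
    · exact Or.inr g1
    · cases j
      · exact absurd ((hmp .a1).uniq_end huy h1 (Or.inl g1) (Or.inl hu1)) hne
      · obtain ⟨S', k1, k2⟩ := hk1.cut_b (hmp .b) g1 huy
        exact (hno k1 k2 hne).elim
      · obtain ⟨S', k1, k2⟩ := hk1.cut_a2 (hmp .a2) g1 huy
        exact (hno k1 k2 hne).elim
      · obtain ⟨S', k1, k2⟩ := hk1.cut_b2 (hmp .b2) g1 huy
        exact (hno k1 k2 hne).elim
      · exact Or.inl g1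
  obtain ⟨u, hu, a1, _, _, a2⟩ := H.deg y hy hY u1 u1 u1
  obtain ⟨u', hu', b1, b2, _, b3⟩ := H.deg y hy hY u1 u u
  exact b2 ((hmp .c1).uniq_end b3 a2 (key u' hu' b1 b3) (key u hu a1 a2))

/-- (2) -/
theorem T2_two (T : Torso g Q r) (H : Typed g Q r E Y) {y w v : V} (hy : R0 g Q r y) (hY : Y y)
    (two : ∃ x', R0 g Q r x' ∧ x' ≠ y)
    (hw : Top g Q r w) (hwy : w ≠ y) (hv : g y v) (hc : Cl g Q r w v) :
    g w y ∧ (w = r ∨ (R0 g Q r w ∧ E w)) := by
  obtain ⟨c, S, hk, _, _, _⟩ := T.lemB two hy hw hwy.symm (fun u hu => hu) (T.up hv hc)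
  have h1 := T2_gstar T H two hk hy hY
  refine ⟨h1, ?_⟩
  rcases hw with hw | hw
  · exact Or.inl hw
  · exact Or.inr ⟨hw, T2_one T H two hy hY hw.1 h1⟩

/-- (3) -/
theorem T2_three (T : Torso g Q r) (H : Typed g Q r E Y) {x w v : V} (hx : R0 g Q r x) (hE : E x)
    (two : ∃ x', R0 g Q r x' ∧ x' ≠ x)
    (hw : R0 g Q r w) (hwx : w ≠ x) (hv : g x v) (hc : Cl g Q r w v) : Y w := by
  obtain ⟨c, S, hk, _, _, _⟩ := T.lemB two hx (Or.inr hw) hwx.symm (fun u hu => hu)
    (T.up hv hc)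
  exact H.ea hk hx.1 hE hw.1

omit [Fintype V] [DecidableEq V] in
/-- An undominated vertex is in no other class. -/
theorem not_Cl_of_R0 {x x' : V} (hx' : R0 g Q r x') (hne : x' ≠ x) : ¬ Cl g Q r x x' := by
  rintro (h | h)
  · exact hne h
  · exact hx'.2 x h

/-- The key fact for (4). -/
theorem T2_star (T : Torso g Q r) (H : Typed g Q r E Y) {y s : V} (hy : R0 g Q r y) (hY : Y y)
    (two : ∃ x', R0 g Q r x' ∧ x' ≠ y) (hs : R0 g Q r s) (hE : E s) (hsy : s ≠ y) {P : Set V}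
    (hP : ∀ u ∈ P, Dom g Q r y u) (hc : Conn g P s y) {u : V} (hu : Dom g Q r y u)
    (huy : g u y) : u ∈ P := by
  obtain ⟨c, S, hk, hb, hcn, hi⟩ := T.lemB ⟨y, hy, hsy.symm⟩ hs (Or.inr hy) hsy hP hc
  rcases H.bad hk hs.1 hE hy.1 u hu.2.1 (T2_one T H two hy hY hu.2.1 huy) huy with
    h | h | h | ⟨i, h⟩
  · exact absurd h hu.2.2.1
  · exact absurd (Or.inr (h ▸ hu)) (not_Cl_of_R0 hs hsy)
  · exact absurd (h ▸ hu) hcn
  · by_cases hib : i = Seg.b
    · subst hib
      rwa [hb] at h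
    · exact absurd hu (hi i hib u h)

/-- (4) -/
theorem T2_four (T : Torso g Q r) (H : Typed g Q r E Y) {y : V} (hy : R0 g Q r y) (hY : Y y)
    (two : ∃ x', R0 g Q r x' ∧ x' ≠ y) : ∀ v, ¬ Dom g Q r y v := by
  intro f hf
  have hyr : y ≠ r := fun h => T.rQ (h ▸ hy.1)
  -- an entry in the class of `y` sends to `y`
  obtain ⟨u, hu, huy⟩ : ∃ u, Dom g Q r y u ∧ g u y := by
    rcases last_exit (B := {v | Dom g Q r y v}) (T.str f hf.2.1 y hy.1) (fun h => h.2.2.1 rfl)
      with ⟨_, h⟩ | ⟨u, w, _, hu, hw, hw', huw, _, _⟩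
    · exact absurd hf h
    · rcases T.dom_out hu (Or.inr hw) huw with h | h
      · exact ⟨u, hu, h ▸ huw⟩
      · exact absurd h hw'
  have hEu := T2_one T H two hy hY hu.2.1 huy
  -- an undominated entry sends into the class
  obtain ⟨x', hx', hx'y⟩ := two
  have two : ∃ x', R0 g Q r x' ∧ x' ≠ y := ⟨x', hx', hx'y⟩
  obtain ⟨s, v, hs, hsy, hEs, hsv, hv⟩ : ∃ s v, R0 g Q r s ∧ s ≠ y ∧ E s ∧ g s v ∧
      Cl g Q r y v := by
    rcases first_hit (B := {v | Cl g Q r y v}) (T.str x' hx'.1 y hy.1)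
      (not_Cl_of_R0 hx' hx'y) with ⟨_, h⟩ | ⟨s, v, _, hs, hs', _, hv, hsv, _⟩
    · exact absurd (Or.inl rfl) h
    · have hsT := T.enter_top (Or.inr hy) hv (Or.inr hs) hs' hsv
      have hsR : R0 g Q r s := by
        rcases hsT with h | h
        · exact absurd (h ▸ hs) T.rQ
        · exact h
      have hsy : s ≠ y := fun h => hs' (Or.inl h)
      refine ⟨s, v, hsR, hsy, ?_, hsv, hv⟩
      rcases T2_type T H ⟨y, hy, hsy.symm⟩ hsR with h | h
      · exact h
      · rcases (T2_two T H hsR h ⟨y, hy, hsy.symm⟩ (Or.inr hy) hsy.symm hsv hv).2 with h1 | h1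
        · exact absurd h1 hyr
        · exact (H.EY y h1.2 hY).elim
  -- all other in-neighbours of `y` are `r`
  obtain ⟨P, hP, hmp⟩ := exists_MP (T.up hsv hv)
  obtain ⟨w, hw, w1, w2, _, w3⟩ := H.deg y hy hY u r r
  have hwQ : w ∈ Q := hw.resolve_left w2
  by_cases hwd : Dom g Q r y w
  · have h1 := T2_star T H hy hY two hs hEs hsy (fun u hu => hP hu) hmp.1 hu huy
    have h2 := T2_star T H hy hY two hs hEs hsy (fun u hu => hP hu) hmp.1 hwd w3
    exact w1 (hmp.uniq_end w3 huy (Or.inl h2) (Or.inl h1))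
  · have hwy : w ≠ y := fun h => T.irr _ (h ▸ w3)
    have hwc : ¬ Cl g Q r y w := fun h => h.elim hwy hwd
    have hwR : R0 g Q r w := (T.enter_top (Or.inr hy) (Or.inl rfl) hw hwc w3).resolve_left w2
    have hEw := T2_one T H two hy hY hwQ w3
    exact T2_star T H hy hY two hwR hEw hwy (P := ∅) (fun u hu => absurd hu (by simp))
      (Or.inl w3) hu huy

theorem T2_four' (T : Torso g Q r) (H : Typed g Q r E Y) {y : V} (hy : R0 g Q r y) (hY : Y y)
    (two : ∃ x', R0 g Q r x' ∧ x' ≠ y) {u : V} (hu : u ∈ insert r Q) (huy : g u y) :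
    u = r ∨ (R0 g Q r u ∧ E u) := by
  rcases hu with hu | hu
  · exact Or.inl hu
  · have huy' : u ≠ y := fun h => T.irr _ (h ▸ huy)
    have huc : ¬ Cl g Q r y u := fun h => h.elim huy' (T2_four T H hy hY two u)
    rcases T.enter_top (Or.inr hy) (Or.inl rfl) (Or.inr hu) huc huy with h | h
    · exact Or.inl h
    · exact Or.inr ⟨h, T2_one T H two hy hY hu huy⟩

/-- (5) -/
theorem T2_five (T : Torso g Q r) (H : Typed g Q r E Y) {y : V} (hy : R0 g Q r y) (hY : Y y)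
    (two : ∃ x', R0 g Q r x' ∧ x' ≠ y) (p : V) : ∃ q, q ≠ p ∧ Dlt g Q r E Y q y := by
  have hyr : y ≠ r := fun h => T.rQ (h ▸ hy.1)
  -- the class of an out-neighbour in `Q`
  have key : ∀ v ∈ Q, g y v → ∃ q, R0 g Q r q ∧ q ≠ y ∧ Cl g Q r q v ∧ Dlt g Q r E Y q y := by
    intro v hv hyv
    obtain ⟨q, hq, hqv⟩ := T.exists_top hv
    have hqy : q ≠ y := by
      rintro rfl
      rcases hqv with h | h
      · exact T.irr _ (h ▸ hyv)
      · exact T2_four T H hy hY two v h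
    exact ⟨q, hq, hqy, hqv, ⟨hy, hY⟩, (T2_two T H hy hY two (Or.inr hq) hqy hyv hqv).2,
      v, hyv, hqv⟩
  obtain ⟨x', hx', hx'y⟩ := two
  by_cases hp : p ∈ Q ∧ p ≠ y
  · have hnd := hy.2 p
    have hr : RR g (insert r Q \ {p}) y r := by
      by_contra hcon
      exact hnd ⟨hp.1, hy.1, hp.2.symm, hcon⟩
    rcases ReflTransGen.cases_head hr with h | ⟨v, hyv, hv⟩
    · exact absurd h hyr
    · rcases hyv.2.1.1 with h | h
      · refine ⟨r, fun h' => T.rQ (h' ▸ hp.1), ⟨hy, hY⟩, Or.inl rfl, r, ?_, Or.inl rfl⟩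
        exact h ▸ hyv.2.2
      · obtain ⟨q, hq, _, hqv, hd⟩ := key v h hyv.2.2
        refine ⟨q, ?_, hd⟩
        rintro rfl
        rcases hqv with h1 | h1
        · exact hyv.2.1.2 h1
        · exact h1.2.2.2 hv
  · obtain ⟨v, hyv⟩ : ∃ v, Induced g Q y v := by
      rcases ReflTransGen.cases_head (T.str y hy.1 x' hx'.1) with h | ⟨v, h, _⟩
      · exact absurd h.symm hx'y
      · exact ⟨v, h⟩
    obtain ⟨q, hq, hqy, _, hd⟩ := key v hyv.2.1 hyv.2.2
    refine ⟨q, ?_, hd⟩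
    rintro rfl
    exact hp ⟨hq.1, hqy⟩

/-- (6) -/
theorem T2_six (T : Torso g Q r) (H : Typed g Q r E Y) {x : V} (hx : R0 g Q r x) (hE : E x)
    (two : ∃ x', R0 g Q r x' ∧ x' ≠ x) (p : V) :
    ∃ e v, e ≠ p ∧ Cl g Q r x v ∧ g e v ∧ (e = r ∨ Dlt g Q r E Y x e) := by
  obtain ⟨x', hx', hx'x⟩ := two
  obtain ⟨e, he, heA, hep, v, hv, hev⟩ := T.ent {v | Cl g Q r x v}
    (by
      rintro v (h | h)
      · exact h ▸ hx.1
      · exact h.2.1)
    ⟨x, Or.inl rfl⟩
    (by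
      intro h
      have h1 : x' ∈ {v | Cl g Q r x v} := by
        rw [h]
        exact hx'.1
      exact not_Cl_of_R0 hx' hx'x h1) p
  refine ⟨e, v, hep, hv, hev, ?_⟩
  rcases T.enter_top (Or.inr hx) hv he heA hev with h | h
  · exact Or.inl h
  · have hex : e ≠ x := fun h' => heA (Or.inl h')
    refine Or.inr ⟨⟨h, ?_⟩, Or.inr ⟨hx, hE⟩, v, hev, hv⟩
    rcases T2_type T H ⟨x, hx, hex.symm⟩ h with h1 | h1
    · exact (H.EY x hE (T2_three T H h h1 ⟨x, hx, hex.symm⟩ hx hex.symm hev hv)).elim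
    · exact h1

theorem T2_six' (T : Torso g Q r) (H : Typed g Q r E Y) {x : V} (hx : R0 g Q r x) (hE : E x)
    (two : ∃ x', R0 g Q r x' ∧ x' ≠ x) : ∃ e, Dlt g Q r E Y x e := by
  obtain ⟨e, v, h1, _, _, h2⟩ := T2_six T H hx hE two r
  exact ⟨e, h2.resolve_left h1⟩

end T2

end Pool.Agent.H.MP_0cacf8
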