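import Pool.Agent.H.MP_0cacf8.EYT2

/-!
# Torso lemma, part 3b: there is a loop
-/

set_option autoImplicit false
set_option linter.unusedSectionVars false

namespace Pool.Agent.H.MP_0cacf8

open Relation Finset Pool.Agent.H.MP_0d008e_co

variable {V : Type*} {g : V → V → Prop} {Q : Set V} {r : V}

/-- A path in the bipartite graph. -/
structure DPath (g : V → V → Prop) (Q : Set V) (r : V) (E Y : V → Prop) (x : V) (n : ℕ)
    (z : ℕ → V) : Prop where
  start : z 0 = x
  inj : ∀ i ≤ n, ∀ j ≤ n, z i = z j → i = j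
  sim : ∀ i < n, Sim g Q r E Y (z i) (z (i + 1))

section T3b

variable {E Y : V → Prop} [Fintype V] [DecidableEq V]

theorem pos_neg (T : Torso g Q r) (H : Typed g Q r E Y) {a : V}
    (ha : a = r ∨ (R0 g Q r a ∧ E a)) (hb : R0 g Q r a ∧ Y a) : False := by
  rcases ha with h | h
  · exact T.rQ (h ▸ hb.1.1)
  · exact H.EY a h.2 hb.2

theorem Sim.of_pos (T : Torso g Q r) (H : Typed g Q r E Y) {a b : V}
    (hs : Sim g Q r E Y a b) (ha : a = r ∨ (R0 g Q r a ∧ E a)) : Dlt g Q r E Y a b := by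
  rcases hs with h | h
  · exact h
  · exact (pos_neg T H ha h.1).elim

theorem Sim.of_neg (T : Torso g Q r) (H : Typed g Q r E Y) {a b : V}
    (hs : Sim g Q r E Y a b) (ha : R0 g Q r a ∧ Y a) : Dlt g Q r E Y b a := by
  rcases hs with h | h
  · exact (pos_neg T H h.2.1 ha).elim
  · exact h

theorem DPath.exists_max {x : V} : ∃ n z, DPath g Q r E Y x n z ∧
    ∀ z', ¬ DPath g Q r E Y x (n + 1) z' := by
  by_contra hcon
  push Not at hcon
  have hall : ∀ n, ∃ z, DPath g Q r E Y x n z := by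
    intro n
    induction n with
    | zero =>
      exact ⟨fun _ => x, rfl, fun i hi j hj _ => by omega, fun i hi => absurd hi (by omega)⟩
    | succ n ih =>
      obtain ⟨z, hz⟩ := ih
      exact hcon n z hz
  obtain ⟨z, hz⟩ := hall (Fintype.card V)
  have hinj : Function.Injective (fun i : Fin (Fintype.card V + 1) => z i.1) := by
    intro i j hij
    exact Fin.ext (hz.inj i.1 (by omega) j.1 (by omega) hij)
  have := Fintype.card_le_of_injective _ hinj
  rw [Fintype.card_fin] at this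
  omega

theorem DPath.mem {x : V} {n : ℕ} {z : ℕ → V} (hp : DPath g Q r E Y x n z)
    (hm : ∀ z', ¬ DPath g Q r E Y x (n + 1) z') {q : V} (hs : Sim g Q r E Y (z n) q) :
    ∃ k ≤ n, z k = q := by
  by_contra hcon
  push Not at hcon
  refine hm (fun i => if i ≤ n then z i else q) ⟨?_, ?_, ?_⟩
  · simp only [Nat.zero_le, if_true]
    exact hp.start
  · intro i hi j hj hij
    by_cases h1 : i ≤ n
    · by_cases h2 : j ≤ n
      · simp only [h1, h2, if_true] at hij
        exact hp.inj i h1 j h2 hij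
      · simp only [h1, h2, if_true, if_false] at hij
        exact absurd hij (hcon i h1)
    · by_cases h2 : j ≤ n
      · simp only [h1, h2, if_true, if_false] at hij
        exact absurd hij.symm (hcon j h2)
      · omega
  · intro i hi
    by_cases h1 : i < n
    · have h2 : i ≤ n := by omega
      have h3 : i + 1 ≤ n := by omega
      simp only [h2, h3, if_true]
      exact hp.sim i h1
    · have h2 : i = n := by omega
      subst h2
      have h3 : ¬ i + 1 ≤ i := by omega
      simp only [le_refl, h3, if_true, if_false]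
      exact hs

theorem DPath.shift {x : V} {n k : ℕ} {z : ℕ → V} (hp : DPath g Q r E Y x n z) (hk : k ≤ n)
    (hmid : ∃ i, 0 < i ∧ i < n - k ∧ R0 g Q r (z (k + i)) ∧ Y (z (k + i)))
    (hclose : ∃ v, Cl g Q r (z n) v ∧ g (z k) v) :
    Loop g Q r E Y (n - k) (fun i => z (k + i)) where
  inj := by
    intro i hi j hj hij
    have := hp.inj (k + i) (by omega) (k + j) (by omega) hij
    omega
  sim := by
    intro i hi
    exact hp.sim (k + i) (by omega)
  mid := hmid
  close := by
    obtain ⟨v, h1, h2⟩ := hclose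
    refine ⟨v, ?_, Or.inl ?_⟩
    · have : k + (n - k) = n := by omega
      simp only [this]
      exact h1
    · simpa using h2

/-- (8) -/
theorem T3_loop (T : Torso g Q r) (H : Typed g Q r E Y)
    (two : ∀ x, ∃ x', R0 g Q r x' ∧ x' ≠ x) : ∃ n z, Loop g Q r E Y n z := by
  -- the start
  obtain ⟨x, hx, hx2⟩ : ∃ x, (x = r ∨ (R0 g Q r x ∧ E x ∧ g x r)) ∧ ∃ y, Dlt g Q r E Y x y := by
    by_cases hc : ∃ x, R0 g Q r x ∧ E x ∧ g x r
    · obtain ⟨x, h1, h2, h3⟩ := hc
      exact ⟨x, Or.inr ⟨h1, h2, h3⟩, T2_six' T H h1 h2 (two x)⟩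
    · obtain ⟨q, hq, hqr⟩ := T.out
      have hq0 := T.to_root hq hqr
      refine ⟨r, Or.inl rfl, q, ⟨hq0, ?_⟩, Or.inl rfl, r, hqr, Or.inl rfl⟩
      rcases T2_type T H (two q) hq0 with h | h
      · exact absurd ⟨q, hq0, h, hqr⟩ hc
      · exact h
  have hxp : x = r ∨ (R0 g Q r x ∧ E x) := hx.imp id (fun h => ⟨h.1, h.2.1⟩)
  obtain ⟨n, z, hp, hm⟩ := DPath.exists_max (g := g) (Q := Q) (r := r) (E := E) (Y := Y) (x := x)
  -- at least three vertices
  have hn0 : n ≠ 0 := by
    rintro rfl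
    obtain ⟨y, hy⟩ := hx2
    obtain ⟨k, hk, hk2⟩ := hp.mem hm (q := y) (by rw [hp.start]; exact Or.inl hy)
    have hk0 : k = 0 := by omega
    subst hk0
    rw [hp.start] at hk2
    exact pos_neg T H hxp (hk2 ▸ hy.1)
  have h01 : Dlt g Q r E Y (z 0) (z 1) := (hp.sim 0 (by omega)).of_pos T H (by rwa [hp.start])
  have hn1 : n ≠ 1 := by
    rintro rfl
    obtain ⟨q, hq, hq2⟩ := T2_five T H h01.1.1 h01.1.2 (two _) (z 0)
    obtain ⟨k, hk, hk2⟩ := hp.mem hm (q := q) (Or.inr hq2)
    have hk' : k = 0 ∨ k = 1 := by omega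
    rcases hk' with h | h
    · subst h
      exact hq hk2.symm
    · subst h
      exact pos_neg T H hq2.2.1 (hk2 ▸ h01.1)
  have hn : 2 ≤ n := by omega
  -- the next vertex of a positive vertex
  have hnext : ∀ k < n, (z k = r ∨ (R0 g Q r (z k) ∧ E (z k))) →
      R0 g Q r (z (k + 1)) ∧ Y (z (k + 1)) := fun k hk h => ((hp.sim k hk).of_pos T H h).1
  have hnext' : ∀ k < n, (R0 g Q r (z k) ∧ Y (z k)) →
      (z (k + 1) = r ∨ (R0 g Q r (z (k + 1)) ∧ E (z (k + 1)))) :=
    fun k hk h => ((hp.sim k hk).of_neg T H h).2.1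
  -- the last vertex
  have hlast : (R0 g Q r (z n) ∧ Y (z n)) ∨ (z n = r ∨ (R0 g Q r (z n) ∧ E (z n))) := by
    have h := hp.sim (n - 1) (by omega)
    have h' : n - 1 + 1 = n := by omega
    rw [h'] at h
    rcases h with h | h
    · exact Or.inl h.1
    · exact Or.inr h.2.1
  have hx0 : z 0 ≠ r → R0 g Q r (z 0) ∧ E (z 0) ∧ g (z 0) r := by
    intro h
    rw [hp.start] at h ⊢
    exact hx.resolve_left h
  rcases hlast with hl | hl | hl
  · -- the last vertex is an exit
    obtain ⟨q, hq, hq2⟩ := T2_five T H hl.1 hl.2 (two _) (z (n - 1))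
    obtain ⟨k, hk, hk2⟩ := hp.mem hm (q := q) (Or.inr hq2)
    subst hk2
    have hkn : k ≠ n := fun h => pos_neg T H hq2.2.1 (by rw [h]; exact hl)
    have hkn1 : k ≠ n - 1 := fun h => hq (by rw [h])
    obtain ⟨v, hv, hv2⟩ := hq2.2.2
    have hne : z k ≠ z n := fun h => hkn (hp.inj k hk n le_rfl h)
    have hg := (T2_two T H hl.1 hl.2 (two _) (hq2.2.1.imp id (fun h => h.1)) hne hv hv2).1
    have hlt : k < n := by omega
    exact ⟨_, _, hp.shift hk ⟨1, by omega, by omega, hnext k hlt hq2.2.1⟩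
      ⟨z n, Or.inl rfl, hg⟩⟩
  · -- the last vertex is the root
    have h0 : z 0 ≠ r := fun h => by
      have := hp.inj 0 (by omega) n le_rfl (h.trans hl.symm)
      omega
    have h := hp.shift (k := 0) (by omega)
      ⟨1, by omega, by omega, by rw [Nat.zero_add]; exact h01.1⟩
      ⟨r, Or.inl hl.symm, (hx0 h0).2.2⟩
    exact ⟨_, _, h⟩
  · -- the last vertex is an entry
    obtain ⟨e, v, he, hv, hev, hor⟩ := T2_six T H hl.1 hl.2 (two _) (z (n - 1))
    rcases hor with h | h
    · subst h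
      by_cases hon : ∃ k ≤ n, z k = e
      · obtain ⟨k, hk, hk2⟩ := hon
        have hkn : k ≠ n := fun h => T.rQ (by rw [← hk2, h]; exact hl.1.1)
        have hkn1 : k ≠ n - 1 := fun h => he (by rw [← hk2, h])
        refine ⟨_, _, hp.shift hk ⟨1, by omega, by omega, hnext k (by omega) (Or.inl hk2)⟩
          ⟨v, hv, ?_⟩⟩
        rw [hk2]
        exact hev
      · push Not at hon
        have h0 := hx0 (hon 0 (by omega))
        exact ⟨n, z, hp.inj, hp.sim, ⟨1, by omega, by omega, h01.1⟩,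
          ⟨v, hv, Or.inr ⟨h0.2.2, hev, hon⟩⟩⟩
    · obtain ⟨k, hk, hk2⟩ := hp.mem hm (q := e) (Or.inl h)
      subst hk2
      have hkn : k ≠ n := by
        rintro rfl
        exact pos_neg T H (Or.inr hl) h.1
      have hkn1 : k ≠ n - 1 := fun h => he (by rw [h])
      have h2 := hnext' k (by omega) h.1
      have h3 := hnext (k + 1) (by omega) h2
      have hk3 : k + 1 + 1 ≠ n := by
        intro h4
        rw [h4] at h3
        exact pos_neg T H (Or.inr hl) h3
      exact ⟨_, _, hp.shift hk ⟨2, by omega, by omega, h3⟩ ⟨v, hv, hev⟩⟩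

end T3b

end Pool.Agent.H.MP_0cacf8
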