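import Pool.Agent.H.MP_0cacf8.EYFrag
import Pool.Agent.H.MP_0cacf8.EYLoc
import Pool.Agent.H.MP_0cacf8.EYS4
import Pool.Agent.H.MP_0cacf8.EYS5
import Pool.Agent.H.MP_0cacf8.EYS7
import Pool.Agent.H.MP_0cacf8.EYT3

/-!
# Hub pairs: the theorem
-/

set_option autoImplicit false

namespace Pool.Agent.H.MP_0cacf8

open Relation Finset Pool.Agent.H.MP_0d008e_co

universe u

variable {V : Type u} {adj : V → V → Prop} {h : V}

section fin

variable [Fintype V] [DecidableEq V]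

theorem EYB.frag_false (hE : EYB adj h) {S : Set V} {z : V} (hF : Frag adj h S z)
    (str : ∀ u w, u ≠ h → w ≠ h → RR adj (Ch h) u w)
    (in2 : ∀ u, u ≠ h → ∀ x, ∃ w, w ≠ h ∧ w ≠ x ∧ adj w u) : False := by
  obtain ⟨y, hy, hone, hyY⟩ := frag_one_of hE str in2 hF
    (fun T H x x' a b => torso_main T H a b)
  have hT := hF.torso hE.irr str
  have honly : ∀ q ∈ S, gam adj h z S q z → q = y := fun q hq g => hone q (hT.to_root hq g)
  have hS2 : ∃ s ∈ S, s ≠ y := by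
    obtain ⟨w, h1, h2, h3⟩ := in2 y (hF.Sh y hy.1) z
    refine ⟨w, ?_, ?_⟩
    · by_contra hw
      exact h2 (hF.ent w h1 hw y hy.1 h3)
    · rintro rfl
      exact hE.irr w h3
  obtain ⟨Q, u, h1, h2, h3, h4, h5⟩ := sec3_u hE str hF hy.1 hyY honly hS2
  exact sec3_end hE str hF hy.1 hyY honly h1 h2 h3 h4 h5

/-- **Theorem.** -/
theorem eystar (adj : V → V → Prop) (h : V) : EYStarFor adj h := by
  intro irr ey dout din from_h to_h str in2 ne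
  by_contra hno
  have hE : EYB adj h := ⟨irr, ey, dout, din, from_h, to_h, hno⟩
  have str' : ∀ u w, u ≠ h → w ≠ h → RR adj (Ch h) u w := fun u w hu hw => str u hu w hw
  have in2' : ∀ u, u ≠ h → ∀ x, ∃ w, w ≠ h ∧ w ≠ x ∧ adj w u := by
    intro u hu x
    obtain ⟨p, q, h1, h2, h3, h4, h5⟩ := in2 u hu
    by_cases hp : p = x
    · exact ⟨q, h2, fun g => h3 (hp.trans g.symm), h5⟩
    · exact ⟨p, h1, hp, h4⟩
  obtain ⟨S, z, hF⟩ := hE.frag ne str' in2'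
  exact hE.frag_false hF str' in2'

/-- The local theorem. -/
theorem eyloc (irr : ∀ v, ¬ adj v v) (hstr : ∀ u v, ReflTransGen adj u v) (h : V) (X : Finset V)
    (hX : X.Nonempty) (hhX : h ∉ X)
    (h0 : ∀ x ∈ X, ExitOff adj X h x ∨ EntryOff adj X h x)
    (h1 : ∀ x ∈ X, ∃ p ∈ X, ∃ q ∈ X, p ≠ q ∧ adj p x ∧ adj q x)
    (h2 : ∀ x ∈ X, ¬ EntryOff adj X h x → ∀ A : Finset V, A.card ≤ 3 → ∃ w ∈ X, w ∉ A ∧ adj w x)
    (h3 : ∀ x ∈ X, ¬ ExitOff adj X h x → ∀ A : Finset V, A.card ≤ 3 → ∃ w ∈ X, w ∉ A ∧ adj x w) :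
    K3off adj h :=
  local_EY (fun _ _ _ g t => eystar g t) irr hstr h X hX hhX h0 h1 h2 h3

theorem exitOff_flip {X : Finset V} {x : V} :
    ExitOff (fun a b => adj b a) X h x ↔ EntryOff adj X h x := by
  constructor
  · rintro ⟨o, h1, h2, h3⟩
    exact ⟨o, h1, h2, RR_flip (adj := adj) h3⟩
  · rintro ⟨o, h1, h2, h3⟩
    exact ⟨o, h1, h2, RR_flip' h3⟩

theorem entryOff_flip {X : Finset V} {x : V} :
    EntryOff (fun a b => adj b a) X h x ↔ ExitOff adj X h x := by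
  constructor
  · rintro ⟨o, h1, h2, h3⟩
    exact ⟨o, h1, h2, RR_flip (adj := adj) h3⟩
  · rintro ⟨o, h1, h2, h3⟩
    exact ⟨o, h1, h2, RR_flip' h3⟩

/-- The local theorem, dual form. -/
theorem eyloc' (irr : ∀ v, ¬ adj v v) (hstr : ∀ u v, ReflTransGen adj u v) (h : V) (X : Finset V)
    (hX : X.Nonempty) (hhX : h ∉ X)
    (h0 : ∀ x ∈ X, ExitOff adj X h x ∨ EntryOff adj X h x)
    (h1 : ∀ x ∈ X, ∃ p ∈ X, ∃ q ∈ X, p ≠ q ∧ adj x p ∧ adj x q)
    (h2 : ∀ x ∈ X, ¬ EntryOff adj X h x → ∀ A : Finset V, A.card ≤ 3 → ∃ w ∈ X, w ∉ A ∧ adj w x)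
    (h3 : ∀ x ∈ X, ¬ ExitOff adj X h x → ∀ A : Finset V, A.card ≤ 3 → ∃ w ∈ X, w ∉ A ∧ adj x w) :
    K3off adj h := by
  refine K3off_flip (eyloc (adj := fun a b => adj b a) irr (fun u v => rtg_flip' (hstr v u)) h X
    hX hhX ?_ h1 ?_ ?_)
  · intro x hx
    exact (h0 x hx).symm.imp exitOff_flip.2 entryOff_flip.2
  · intro x hx hx'
    exact h3 x hx (fun g => hx' (entryOff_flip.2 g))
  · intro x hx hx'
    exact h2 x hx (fun g => hx' (exitOff_flip.2 g))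

theorem K3set_of_K3off (hk : K3off adj h) : K3set adj := by
  obtain ⟨a, b, c, lab, _, h1, h2, h3, h4, h5, h6, g1, g2, g3, g4, g5, g6⟩ := hk
  exact ⟨a, b, c, lab, h1, h2, h3, h4, h5, h6, g1, g2, g3, g4, g5, g6⟩

end fin

end Pool.Agent.H.MP_0cacf8
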