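import Pool.Agent.H.MP_0cacf8.Basic

/-!
# Two disjoint paths from a set to a vertex
-/

set_option autoImplicit false

namespace Pool.Agent.H.MP_0cacf8

open Relation Finset Pool.Agent.H.MP_0d008e_co

variable {V : Type*} {adj : V → V → Prop}

/-- The digraph with the vertex `x` added twice as a sink. -/
def twin (adj : V → V → Prop) (x : V) : V ⊕ Fin 2 → V ⊕ Fin 2 → Prop
  | Sum.inl u, Sum.inl v => adj u v
  | Sum.inl u, Sum.inr _ => adj u x
  | Sum.inr _, _ => False

theorem twin_walk {x : V} {P : Set (V ⊕ Fin 2)} {a : V} {z : V ⊕ Fin 2}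
    (h : ReflTransGen (Induced (twin adj x) P) (Sum.inl a) z) :
    (∀ b, z = Sum.inl b → RR adj {v | Sum.inl v ∈ P} a b) ∧
    (∀ j, z = Sum.inr j → ∃ q, Sum.inl q ∈ P ∧ RR adj {v | Sum.inl v ∈ P} a q ∧ adj q x) := by
  induction h with
  | refl =>
    constructor
    · intro b hb
      have : a = b := Sum.inl_injective hb
      subst this
      exact ReflTransGen.refl
    · intro j hj
      cases hj
  | @tail y z hy hyz ih =>
    obtain ⟨h1, h2, h3⟩ := hyz
    rcases y with u | i
    · have hu := ih.1 u rfl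
      constructor
      · rintro b rfl
        exact hu.tail ⟨h1, h2, h3⟩
      · rintro j rfl
        exact ⟨u, h1, hu, h3⟩
    · exact h3.elim

theorem fan [Fintype V] [DecidableEq V] (C E : Finset V) (x : V) (hE : E ⊆ C)
    (hxE : x ∉ E) (hne : E.Nonempty)
    (h : ∀ s, s ≠ x → ∃ r ∈ E, r ≠ s ∧ RR adj ((C : Set V) \ {s}) r x) :
    ∃ (S : Fin 2 → Set V) (r : Fin 2 → V), Disjoint (S 0) (S 1) ∧
      ∀ i, S i ⊆ (C : Set V) \ {x} ∧ r i ∈ E ∧ r i ∈ S i ∧
        ∀ p ∈ S i, RR adj (S i) (r i) p ∧ ∃ q ∈ S i, RR adj (S i) p q ∧ adj q x := by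
  classical
  set R : Finset (V ⊕ Fin 2) := E.map Function.Embedding.inl with hR
  set I : Finset (V ⊕ Fin 2) := (C \ (E ∪ {x})).map Function.Embedding.inl with hI
  set L : Finset (V ⊕ Fin 2) := (univ : Finset (Fin 2)).map Function.Embedding.inr with hL
  have mR : ∀ v, Sum.inl v ∈ R ↔ v ∈ E := by intro v; simp [hR]
  have mI : ∀ v, Sum.inl v ∈ I ↔ v ∈ C ∧ v ∉ E ∧ v ≠ x := by intro v; simp [hI]; tauto
  have mL : ∀ v, Sum.inl v ∉ L := by intro v; simp [hL]
  have nR : ∀ j, (Sum.inr j : V ⊕ Fin 2) ∉ R := by intro v; simp [hR]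
  have nI : ∀ j, (Sum.inr j : V ⊕ Fin 2) ∉ I := by intro v; simp [hI]
  have nL : ∀ j, (Sum.inr j : V ⊕ Fin 2) ∈ L := by intro v; simp [hL]
  have hRI : Disjoint R I := by
    rw [Finset.disjoint_left]
    rintro (v | j) h1 h2
    · exact ((mI v).1 h2).2.1 ((mR v).1 h1)
    · exact nR j h1
  have hRL : Disjoint R L := by
    rw [Finset.disjoint_left]
    rintro (v | j) h1 h2
    · exact mL v h2
    · exact nR j h1
  have hIL : Disjoint I L := by
    rw [Finset.disjoint_left]
    rintro (v | j) h1 h2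
    · exact mL v h2
    · exact nI j h1
  have hk : ∀ A Z, SepPair (twin adj x) R I L A Z → 2 ≤ Z.card := by
    intro A Z hs
    by_contra hcard
    have hZ1 : Z.card ≤ 1 := by omega
    -- a twin of `x` outside `Z`
    obtain ⟨j, hj⟩ : ∃ j : Fin 2, (Sum.inr j : V ⊕ Fin 2) ∉ Z := by
      by_contra hcon
      push Not at hcon
      have h01 := Finset.card_le_one.1 hZ1 _ (hcon 0) _ (hcon 1)
      simp at h01
    have hjA : (Sum.inr j : V ⊕ Fin 2) ∈ A \ Z := by
      rw [mem_sdiff]
      exact ⟨hs.Lsub (nL j), hj⟩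
    -- the separating vertex
    obtain ⟨s, hsx, hsZ⟩ : ∃ s, s ≠ x ∧ ∀ v, Sum.inl v ∈ Z → v = s := by
      by_cases hz : ∃ v, Sum.inl v ∈ Z
      · obtain ⟨v, hv⟩ := hz
        refine ⟨v, ?_, ?_⟩
        · rintro rfl
          have := hs.sub (hs.Zsub hv)
          simp only [mem_union] at this
          rcases this with (h1 | h1) | h1
          · exact hxE ((mR _).1 h1)
          · exact ((mI _).1 h1).2.2 rfl
          · exact mL _ h1
        · intro w hw
          exact Sum.inl_injective (Finset.card_le_one.1 hZ1 _ hw _ hv)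
      · obtain ⟨r, hr⟩ := hne
        refine ⟨r, ?_, ?_⟩
        · rintro rfl; exact hxE hr
        · intro v hv; exact absurd ⟨v, hv⟩ hz
    obtain ⟨r, hrE, hrs, hwalk⟩ := h s hsx
    have key : ∀ y, RR adj ((C : Set V) \ {s}) r y → y ≠ x ∧ Sum.inl y ∉ A := by
      intro y hy
      induction hy with
      | refl =>
        refine ⟨fun h => hxE (h ▸ hrE), ?_⟩
        intro hA
        have : Sum.inl r ∈ Z := hs.Rsub (mem_inter.2 ⟨hA, (mR r).2 hrE⟩)
        exact hrs (hsZ r this)
      | @tail y z _ hyz ih =>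
        obtain ⟨⟨hyC, hys⟩, ⟨hzC, hzs⟩, hadj⟩ := hyz
        have hyU : Sum.inl y ∈ (R ∪ I ∪ L) \ A := by
          rw [mem_sdiff]
          refine ⟨?_, ih.2⟩
          simp only [mem_union]
          by_cases hyE : y ∈ E
          · exact Or.inl (Or.inl ((mR y).2 hyE))
          · exact Or.inl (Or.inr ((mI y).2 ⟨hyC, hyE, ih.1⟩))
        have hzx : z ≠ x := by
          rintro rfl
          exact hs.noarc _ hyU _ hjA hadj
        refine ⟨hzx, ?_⟩
        intro hzA
        refine hs.noarc _ hyU (Sum.inl z) ?_ hadj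
        rw [mem_sdiff]
        exact ⟨hzA, fun hzZ => hzs (hsZ z hzZ)⟩
    exact (key x hwalk).1 rfl
  obtain ⟨xs, ys, P, hxs, hys, hlink, hPsub, hdisj⟩ := exists_links hRI hRL hIL hk
  have hx' : ∀ i, ∃ r ∈ E, xs i = Sum.inl r := by
    intro i
    have := hxs i
    rcases hxi : xs i with v | j
    · rw [hxi] at this; exact ⟨v, (mR v).1 this, rfl⟩
    · rw [hxi] at this; exact absurd this (nR j)
  choose r hrE hrx using hx'
  have hy' : ∀ i, ∃ j, ys i = Sum.inr j := by
    intro i
    have := hys i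
    rcases hyi : ys i with v | j
    · rw [hyi] at this; exact absurd this (mL v)
    · exact ⟨j, rfl⟩
  choose jj hjj using hy'
  refine ⟨fun i => {v | Sum.inl v ∈ (P i : Set (V ⊕ Fin 2))}, r, ?_, ?_⟩
  · rw [Set.disjoint_left]
    intro v h0 h1
    exact (Finset.disjoint_left.1 (hdisj 0 1 (by decide))) h0 h1
  · intro i
    obtain ⟨l1, l2, l3⟩ := hlink i
    refine ⟨?_, hrE i, ?_, ?_⟩
    · intro v hv
      have := hPsub i hv
      rw [hrx i, hjj i] at this
      simp only [mem_union, mem_insert, mem_singleton, Sum.inl.injEq, reduceCtorEq, or_false,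
        mI] at this
      rcases this with h1 | h1
      · rw [h1]
        exact ⟨hE (hrE i), fun h2 => hxE (by rw [← h2]; exact hrE i)⟩
      · exact ⟨h1.1, h1.2.2⟩
    · have := l1
      rw [hrx i] at this
      exact this
    · intro p hp
      obtain ⟨g1, g2⟩ := l3 (Sum.inl p) hp
      rw [hrx i] at g1
      rw [hjj i] at g2
      refine ⟨(twin_walk g1).1 p rfl, ?_⟩
      obtain ⟨q, q1, q2, q3⟩ := (twin_walk g2).2 _ rfl
      exact ⟨q, q1, q2, q3⟩

end Pool.Agent.H.MP_0cacf8
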