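import Pool.Agent.H.MP_0cacf8.Core

/-!
# From the core to subdivisions of the bidirected triangle
-/

set_option autoImplicit false

namespace Pool.Agent.H.MP_0cacf8

open Relation Finset Pool.Agent.H.MP_0d008e_co

variable {V : Type*} {adj : V → V → Prop}

/-- A subdivision of the bidirected triangle; the interiors of the six paths are classes of the
labelling `lab`. -/
def K3set (adj : V → V → Prop) : Prop :=
  ∃ (a b c : V) (lab : V → ℕ), a ≠ b ∧ a ≠ c ∧ b ≠ c ∧ lab a = 0 ∧ lab b = 0 ∧ lab c = 0 ∧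
    Conn adj {u | lab u = 1} a b ∧ Conn adj {u | lab u = 2} b a ∧
    Conn adj {u | lab u = 3} a c ∧ Conn adj {u | lab u = 4} b c ∧
    Conn adj {u | lab u = 5} c b ∧ Conn adj {u | lab u = 6} c a

theorem RR_flip {S : Set V} {a b : V} (h : RR (fun x y => adj y x) S a b) : RR adj S b a := by
  induction h with
  | refl => exact ReflTransGen.refl
  | tail _ h ih => exact ReflTransGen.head ⟨h.2.1, h.1, h.2.2⟩ ih

theorem Conn_flip {S : Set V} {a b : V} (h : Conn (fun x y => adj y x) S a b) : Conn adj S b a := by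
  rcases h with h | ⟨p, hp, q, hq, h1, h2, h3⟩
  · exact Or.inl h
  · exact Or.inr ⟨q, hq, p, hp, h3, RR_flip h2, h1⟩

theorem K3set_flip (h : K3set (fun x y => adj y x)) : K3set adj := by
  obtain ⟨a, b, c, lab, h1, h2, h3, h4, h5, h6, g1, g2, g3, g4, g5, g6⟩ := h
  let f : ℕ → ℕ := fun i => if i = 1 then 2 else if i = 2 then 1 else if i = 3 then 6 else
    if i = 4 then 5 else if i = 5 then 4 else if i = 6 then 3 else 0
  have hf : ∀ i j, f i = j → {u | lab u = i} ⊆ {u | f (lab u) = j} := by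
    rintro i j hij u hu
    have : lab u = i := hu
    show f (lab u) = j
    rw [this, hij]
  refine ⟨a, b, c, fun u => f (lab u), h1, h2, h3, ?_, ?_, ?_, ?_, ?_, ?_, ?_, ?_, ?_⟩
  · simp [f, h4]
  · simp [f, h5]
  · simp [f, h6]
  · exact Conn.mono (hf 2 1 (by simp [f])) (Conn_flip g2)
  · exact Conn.mono (hf 1 2 (by simp [f])) (Conn_flip g1)
  · exact Conn.mono (hf 6 3 (by simp [f])) (Conn_flip g6)
  · exact Conn.mono (hf 5 4 (by simp [f])) (Conn_flip g5)
  · exact Conn.mono (hf 4 5 (by simp [f])) (Conn_flip g4)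
  · exact Conn.mono (hf 3 6 (by simp [f])) (Conn_flip g3)

/-! ### Lists -/

theorem RR_list {S : Set V} {p q : V} (h : RR adj S p q) (hq : q ∈ S) :
    ∃ l : List V, (p :: l).Nodup ∧ (∀ u ∈ p :: l, u ∈ S) ∧ (p :: l).IsChain adj ∧
      (p :: l).getLast (List.cons_ne_nil p l) = q := by
  classical
  induction h using ReflTransGen.head_induction_on with
  | refl => exact ⟨[], by simp, by simpa using hq, by simp, by simp⟩
  | @head a c hac _ ih =>
    obtain ⟨l, h1, h2, h3, h4⟩ := ih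
    by_cases ha : a ∈ c :: l
    · obtain ⟨s, t, hst⟩ := List.append_of_mem ha
      have hsuf : (a :: t) <:+ (c :: l) := ⟨s, hst.symm⟩
      refine ⟨t, h1.sublist hsuf.sublist, fun u hu => h2 u (hsuf.subset hu), ?_, ?_⟩
      · exact h3.suffix hsuf
      · rw [← h4]
        exact hsuf.getLast (List.cons_ne_nil a t)
    · refine ⟨c :: l, List.nodup_cons.2 ⟨ha, h1⟩, ?_, ?_, ?_⟩
      · intro u hu
        rcases List.mem_cons.1 hu with rfl | hu
        · exact hac.1
        · exact h2 u hu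
      · exact List.isChain_cons_cons.2 ⟨hac.2.2, h3⟩
      · rw [List.getLast_cons (List.cons_ne_nil c l)]
        exact h4

theorem Conn_list {S : Set V} {a b : V} (h : Conn adj S a b) :
    ∃ l : List V, l.Nodup ∧ (∀ u ∈ l, u ∈ S) ∧ (a :: (l ++ [b])).IsChain adj := by
  rcases h with h | ⟨p, hp, q, hq, h1, h2, h3⟩
  · exact ⟨[], by simp, by simp, by simpa using h⟩
  · obtain ⟨l, g1, g2, g3, g4⟩ := RR_list h2 hq
    refine ⟨p :: l, g1, g2, ?_⟩
    rw [List.cons_append]
    refine List.isChain_cons_cons.2 ⟨h1, ?_⟩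
    rw [← List.cons_append, List.isChain_append]
    refine ⟨g3, by simp, ?_⟩
    intro x hx y hy
    simp only [List.head?_cons, Option.mem_def, Option.some.injEq] at hy
    rw [List.getLast?_eq_getLast_of_ne_nil (List.cons_ne_nil p l)] at hx
    simp only [Option.mem_def, Option.some.injEq] at hx
    rw [← hx, ← hy, g4]
    exact h3

theorem zip_of_chain {l : List V} (h : l.IsChain adj) : ∀ p ∈ l.zip l.tail, adj p.1 p.2 := by
  induction l with
  | nil => simp
  | cons a l ih =>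
    cases l with
    | nil => simp
    | cons b l =>
      rw [List.isChain_cons_cons] at h
      intro p hp
      simp only [List.tail_cons, List.zip_cons_cons, List.mem_cons] at hp
      rcases hp with rfl | hp
      · exact h.1
      · exact ih h.2 p (by simpa using hp)

theorem nodup_lab {lab : V → ℕ} {l m : List V} {s : Finset ℕ} {k : ℕ} (hl : l.Nodup) (hm : m.Nodup)
    (h1 : ∀ u ∈ l, lab u ∈ s) (h2 : ∀ u ∈ m, lab u = k) (hk : k ∉ s) :
    (l ++ m).Nodup ∧ ∀ u ∈ l ++ m, lab u ∈ insert k s := by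
  constructor
  · rw [List.nodup_append]
    refine ⟨hl, hm, ?_⟩
    rintro a ha b hb rfl
    exact hk (h2 a hb ▸ h1 a ha)
  · intro u hu
    rcases List.mem_append.1 hu with hu | hu
    · exact Finset.mem_insert_of_mem (h1 u hu)
    · rw [h2 u hu]; exact Finset.mem_insert_self _ _

/-- The set version gives the lists of the problem. -/
theorem lists_of_K3set (h : K3set adj) :
    ∃ a b c : V, ∃ P₁ P₂ P₃ P₄ P₅ P₆ : List V,
      (∀ L ∈ [a :: (P₁ ++ [b]), b :: (P₂ ++ [a]), b :: (P₃ ++ [c]),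
              c :: (P₄ ++ [b]), c :: (P₅ ++ [a]), a :: (P₆ ++ [c])],
        ∀ p ∈ L.zip L.tail, adj p.1 p.2) ∧
      ([a, b, c] ++ P₁ ++ P₂ ++ P₃ ++ P₄ ++ P₅ ++ P₆).Nodup := by
  obtain ⟨a, b, c, lab, h1, h2, h3, h4, h5, h6, g1, g2, g3, g4, g5, g6⟩ := h
  obtain ⟨P1, a1, b1, c1⟩ := Conn_list g1
  obtain ⟨P2, a2, b2, c2⟩ := Conn_list g2
  obtain ⟨P6, a6, b6, c6⟩ := Conn_list g3
  obtain ⟨P3, a3, b3, c3⟩ := Conn_list g4
  obtain ⟨P4, a4, b4, c4⟩ := Conn_list g5
  obtain ⟨P5, a5, b5, c5⟩ := Conn_list g6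
  refine ⟨a, b, c, P1, P2, P3, P4, P5, P6, ?_, ?_⟩
  · intro L hL
    simp only [List.mem_cons, List.not_mem_nil, or_false] at hL
    rcases hL with rfl | rfl | rfl | rfl | rfl | rfl
    · exact zip_of_chain c1
    · exact zip_of_chain c2
    · exact zip_of_chain c3
    · exact zip_of_chain c4
    · exact zip_of_chain c5
    · exact zip_of_chain c6
  · have e0 : ([a, b, c] : List V).Nodup := by simp [h1, h2, h3]
    have f0 : ∀ u ∈ [a, b, c], lab u ∈ ({0} : Finset ℕ) := by
      intro u hu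
      simp only [List.mem_cons, List.not_mem_nil, or_false] at hu
      rcases hu with rfl | rfl | rfl
      · simp [h4]
      · simp [h5]
      · simp [h6]
    obtain ⟨e1, f1⟩ := nodup_lab (k := 1) e0 a1 f0 b1 (by decide)
    obtain ⟨e2, f2⟩ := nodup_lab (k := 2) e1 a2 f1 b2 (by decide)
    obtain ⟨e3, f3⟩ := nodup_lab (k := 4) e2 a3 f2 b3 (by decide)
    obtain ⟨e4, f4⟩ := nodup_lab (k := 5) e3 a4 f3 b4 (by decide)
    obtain ⟨e5, f5⟩ := nodup_lab (k := 6) e4 a5 f4 b5 (by decide)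
    obtain ⟨e6, _⟩ := nodup_lab (k := 3) e5 a6 f5 b6 (by decide)
    exact e6

/-! ### The theorem -/

section main

variable [Fintype V] [DecidableEq V]

/-- A source component of the digraph induced on `G`. -/
theorem exists_source (G : Finset V) (hG : G.Nonempty) :
    ∃ Y, Y ⊆ G ∧ Y.Nonempty ∧ (∀ u ∈ G, ∀ v ∈ Y, adj u v → u ∈ Y) ∧
      ∀ u ∈ Y, ∀ v ∈ Y, RR adj (Y : Set V) u v := by
  classical
  have hne' : ((univ : Finset (Finset V)).filter (fun Y => Y ⊆ G ∧ Y.Nonempty ∧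
      (∀ u ∈ G, ∀ v ∈ Y, adj u v → u ∈ Y))).Nonempty :=
    ⟨G, mem_filter.2 ⟨mem_univ _, Finset.Subset.refl _, hG, fun u hu _ _ _ => hu⟩⟩
  obtain ⟨Y, hY, hYm⟩ := exists_min_image _ (fun G : Finset V => G.card) hne'
  obtain ⟨_, h1, h2, h3⟩ := mem_filter.1 hY
  refine ⟨Y, h1, h2, h3, ?_⟩
  intro u hu v hv
  set Z := Y.filter (fun w => RR adj (Y : Set V) w v) with hZ
  have h4 : Y.card ≤ Z.card := by
    refine hYm Z (mem_filter.2 ⟨mem_univ _, (filter_subset _ _).trans h1,
      ⟨v, mem_filter.2 ⟨hv, ReflTransGen.refl⟩⟩, ?_⟩)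
    intro w hw z hz hwz
    obtain ⟨hz1, hz2⟩ := mem_filter.1 hz
    have hwY := h3 w hw z hz1 hwz
    exact mem_filter.2 ⟨hwY, ReflTransGen.head ⟨hwY, hz1, hwz⟩ hz2⟩
  have h5 : Z = Y := Finset.eq_of_subset_of_card_le (filter_subset _ _) h4
  rw [← h5] at hu
  exact (mem_filter.1 hu).2

/-- Theorem E. -/
theorem thmE (t : V) (X : Finset V) (hX : X.Nonempty) (htX : t ∉ X)
    (hdeg : ∀ x ∈ X, ∃ p ∈ X, ∃ q ∈ X, p ≠ q ∧ p ≠ x ∧ q ≠ x ∧ adj p x ∧ adj q x)
    (hto : ∀ x ∈ X, ReflTransGen adj t x)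
    (hfrom : ∀ x ∈ X, ReflTransGen (fun a b => adj a b ∧ b ∉ X) x t) : K3set adj := by
  classical
  obtain ⟨Q, hQX, hQne, hQcl, hQs⟩ := exists_source (adj := adj) X hX
  obtain ⟨q0, hq0⟩ := hQne
  have htQ : t ∉ (Q : Set V) := fun h => htX (hQX h)
  have huniv : ∀ {a b : V}, ReflTransGen adj a b → RR adj Set.univ a b := by
    intro a b h
    induction h with
    | refl => exact ReflTransGen.refl
    | tail _ h ih => exact ih.tail ⟨trivial, trivial, h⟩
  obtain ⟨y, r, hty, _, hyQ, _, hr, hyr, _⟩ :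
      ∃ y z, RR adj (Set.univ \ (Q : Set V)) t y ∧ y ∈ Set.univ ∧ y ∉ (Q : Set V) ∧
        z ∈ Set.univ ∧ z ∈ (Q : Set V) ∧ adj y z ∧ RR adj Set.univ z q0 := by
    rcases first_hit (B := (Q : Set V)) (huniv (hto q0 (hQX hq0))) htQ with h | h
    · exact absurd hq0 h.2
    · exact h
  have hrQ : r ∈ Q := hr
  have hF : F1 adj Q {r} := by
    refine core Q.card Q {r} rfl (by simpa using hrQ) ⟨r, by simp⟩ hQs ?_ ?_
    · intro c hc _
      obtain ⟨p, hp, q, hq, h1, h2, h3, h4, h5⟩ := hdeg c (hQX hc)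
      exact ⟨p, hQcl p hp c hc h4, q, hQcl q hq c hc h5, h1, h2, h3, h4, h5⟩
    · obtain ⟨p, hp, q, hq, h1, h2, h3, h4, h5⟩ := hdeg r (hQX hrQ)
      refine ⟨r, Q.erase r, hrQ, Finset.erase_subset _ _,
        ⟨p, Finset.mem_erase.2 ⟨h2, hQcl p hp r hrQ h4⟩⟩, Finset.notMem_erase _ _, ?_, ?_⟩
      · rw [Finset.disjoint_singleton_right]
        exact Finset.notMem_erase _ _
      · intro u hu g _ _
        by_cases hur : u = r
        · exact Or.inr hur
        · exact Or.inl (Finset.mem_erase.2 ⟨hur, hu⟩)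
  obtain ⟨v, e, c, lab, hv, he, hc, hve, hvc, hec, l1, l2, l3, hlab, c1, c2, c3, c4, c5, hroot⟩ := hF
  let lab' : V → ℕ := fun u => if u ∈ Q then lab u else 6
  have hin : ∀ i, i ≠ 0 → {u | lab u = i} ⊆ {u | lab' u = i} := by
    intro i hi u hu
    have hu' : lab u = i := hu
    have : u ∈ Q := hlab u (by rw [hu']; exact hi)
    show lab' u = i
    simp only [lab', if_pos this]
    exact hu'
  have hout : ∀ u, u ∉ Q → u ∈ {u | lab' u = 6} := by
    intro u h2
    show lab' u = 6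
    simp only [lab', if_neg h2]
  refine ⟨v, e, c, lab', hve, hvc, hec, ?_, ?_, ?_,
    Conn.mono (hin 1 (by norm_num)) c1, Conn.mono (hin 2 (by norm_num)) c2,
    Conn.mono (hin 3 (by norm_num)) c3, Conn.mono (hin 4 (by norm_num)) c4,
    Conn.mono (hin 5 (by norm_num)) c5, ?_⟩
  · simp [lab', hv, l1]
  · simp [lab', he, l2]
  · simp [lab', hc, l3]
  · -- the walk from `c` through `t` to `v`
    obtain ⟨c', hcc', hc't⟩ : ∃ c', (adj c c' ∧ c' ∉ X) ∧
        ReflTransGen (fun a b => adj a b ∧ b ∉ X) c' t := by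
      rcases ReflTransGen.cases_head (hfrom c (hQX hc)) with h | h
      · exact absurd (h ▸ hQX hc) htX
      · exact h
    have hc'6 : c' ∈ {u | lab' u = 6} := hout c' (fun h => hcc'.2 (hQX h))
    have w0 : ∀ w, ReflTransGen (fun a b => adj a b ∧ b ∉ X) c' w →
        RR adj {u | lab' u = 6} c' w ∧ w ∈ {u | lab' u = 6} := by
      intro w hw
      induction hw with
      | refl => exact ⟨ReflTransGen.refl, hc'6⟩
      | @tail a b _ hab ih =>
        have hb : b ∈ {u | lab' u = 6} := hout b (fun h => hab.2 (hQX h))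
        exact ⟨ih.1.tail ⟨ih.2, hb, hab.1⟩, hb⟩
    have w1 := w0 t hc't
    have w2 : RR adj {u | lab' u = 6} t y := by
      refine RR.mono ?_ hty
      intro u hu
      exact hout u hu.2
    have hy6 : y ∈ {u | lab' u = 6} := hout y hyQ
    rcases hroot with h | ⟨r', hr', hr'6, q, hq, h1, h2⟩
    · have : v = r := by simpa using h
      subst this
      exact Or.inr ⟨c', hc'6, y, hy6, hcc'.1, w1.1.trans w2, hyr⟩
    · have : r' = r := by simpa using hr'
      subst this
      exact Or.inr ⟨c', hc'6, q, hin 6 (by norm_num) hq, hcc'.1,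
        ((w1.1.trans w2).tail ⟨hy6, hin 6 (by norm_num) hr'6, hyr⟩).trans
          (RR.mono (hin 6 (by norm_num)) h1), h2⟩

end main

end Pool.Agent.H.MP_0cacf8
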