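import Pool.Agent.H.MP_0cacf8.EYE

/-!
# An arc as a path of a subdivision minus an arc, in a digraph which is not 2-strong
-/

set_option autoImplicit false

namespace Pool.Agent.H.MP_0cacf8

open Relation Finset Pool.Agent.H.MP_0d008e_co

variable {V : Type*} {adj : V → V → Prop}

section fin

variable [Fintype V] [DecidableEq V]

/-- If `x → v` is an arc, there are two disjoint closed walks through `x` ending with arcs from
`N`, and the walks from `v` needed for an exchange exist, then `x → v` is a path of a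
subdivision minus an arc with center `x` and tip `v`. -/
theorem gArc {C N : Set V} {x v : V} (irr : ∀ u, ¬ adj u u) (hx : x ∈ C) (hv : v ∈ C)
    (hxv : adj x v) (hN : ∀ r ∈ N, r ∈ C ∧ adj r x)
    (H1 : ∀ s, s ≠ x → ∃ r ∈ N, r ≠ s ∧ RR adj (C \ {s}) x r)
    (H2 : ∀ r ∈ N, RR adj (C \ {x}) v r)
    (H3 : ∀ s, s ≠ v → s ≠ x → RR adj (C \ {s}) v x) :
    ∃ (c : V) (S : Seg → Set V), IsK adj C v x c S ∧ S .b = ∅ := by
  classical
  have hvx : v ≠ x := by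
    rintro rfl
    exact irr _ hxv
  set CF : Finset V := univ.filter (fun y => y ∈ C) with hCF
  have mCF : ∀ y, y ∈ CF ↔ y ∈ C := by
    intro y
    rw [hCF, mem_filter]
    exact ⟨fun g => g.2, fun g => ⟨mem_univ _, g⟩⟩
  have hcoe : (CF : Set V) = C := by
    ext y
    exact mCF y
  set NF : Finset V := univ.filter (fun y => y ∈ N) with hNF
  have mNF : ∀ y, y ∈ NF ↔ y ∈ N := by
    intro y
    rw [hNF, mem_filter]
    exact ⟨fun g => g.2, fun g => ⟨mem_univ _, g⟩⟩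
  have hxN : x ∉ N := fun g => irr x (hN x g).2
  obtain ⟨n0, hn0, _, _⟩ := H1 v hvx
  obtain ⟨T, r, hd, hT⟩ := fan (adj := fun a b => adj b a) CF NF x
    (fun y hy => (mCF y).2 (hN y ((mNF y).1 hy)).1) (fun g => hxN ((mNF x).1 g))
    ⟨n0, (mNF n0).2 hn0⟩
    (by
      intro s hs
      rw [hcoe]
      obtain ⟨r, h1, h2, h3⟩ := H1 s hs
      exact ⟨r, (mNF r).2 h1, h2, RR_flip' h3⟩)
  rw [hcoe] at hT
  rw [Set.disjoint_left] at hd
  -- the two closed walks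
  have hrN : ∀ i, r i ∈ N := fun i => (mNF _).1 (hT i).2.1
  have hto : ∀ i, ∀ p ∈ T i, RR adj (T i) p (r i) := fun i p hp =>
    RR_flip (adj := adj) ((hT i).2.2.2 p hp).1
  have hfrom : ∀ i, ∃ q ∈ T i, RR adj (T i) q (r i) ∧ adj x q := by
    intro i
    obtain ⟨q, h1, h2, h3⟩ := ((hT i).2.2.2 (r i) (hT i).2.2.1).2
    exact ⟨q, h1, RR_flip (adj := adj) h2, h3⟩
  -- the closed walk through `v`
  have step : ∀ i j : Fin 2, (∀ y ∈ T i, y ∉ T j) →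
      (v ∈ T i ∨ ∃ t ∈ T i, t ≠ v ∧ Conn adj ((C \ {x}) \ (T 0 ∪ T 1)) v t) →
      ∃ P : Set V, (∀ y ∈ P, y ∈ C ∧ y ≠ x ∧ y ∉ T j) ∧ Conn adj P v x := by
    intro i j hij hor
    rcases hor with g | ⟨t, ht, htv, g⟩
    · refine ⟨T i, fun y hy => ⟨((hT i).1 hy).1, fun k => ((hT i).1 hy).2 k, hij y hy⟩, ?_⟩
      rcases ReflTransGen.cases_head (hto i v g) with k | ⟨w, k1, k2⟩
      · left
        rw [k]
        exact (hN _ (hrN i)).2
      · exact Or.inr ⟨w, k1.2.1, r i, (hT i).2.2.1, k1.2.2, k2, (hN _ (hrN i)).2⟩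
    · refine ⟨((C \ {x}) \ (T 0 ∪ T 1)) ∪ T i, ?_, ?_⟩
      · rintro y (hy | hy)
        · refine ⟨hy.1.1, fun k => hy.1.2 k, fun k => hy.2 ?_⟩
          fin_cases j
          · exact Or.inl k
          · exact Or.inr k
        · exact ⟨((hT i).1 hy).1, fun k => ((hT i).1 hy).2 k, hij y hy⟩
      · exact Or.inr (Conn.glue g ht (hT i).2.2.1 (hto i t ht) (hN _ (hrN i)).2)
  have hwalk : ∃ j : Fin 2, v ∉ T j ∧ ∃ P : Set V, (∀ y ∈ P, y ∈ C ∧ y ≠ x ∧ y ∉ T j) ∧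
      Conn adj P v x := by
    have d01 : ∀ y ∈ T 0, y ∉ T 1 := fun y h1 h2 => hd h1 h2
    have d10 : ∀ y ∈ T 1, y ∉ T 0 := fun y h1 h2 => hd h2 h1
    by_cases h0 : v ∈ T 0
    · exact ⟨1, d01 v h0, step 0 1 d01 (Or.inl h0)⟩
    by_cases h1 : v ∈ T 1
    · exact ⟨0, h0, step 1 0 d10 (Or.inl h1)⟩
    have hvr : v ≠ r 0 := by
      intro g
      exact h0 (g ▸ (hT 0).2.2.1)
    have k0 : Conn adj (C \ {x}) v (r 0) :=
      Conn.mono (Set.sdiff_subset.trans Set.sdiff_subset) (conn_of_RR (H2 _ (hrN 0)) hvr)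
    rcases hit_conn (P := T 0 ∪ T 1) k0 with g | ⟨t, ht, _, g⟩
    · exact ⟨1, h1, step 0 1 d01 (Or.inr ⟨r 0, (hT 0).2.2.1, hvr.symm, g⟩)⟩
    · rcases ht with ht | ht
      · exact ⟨1, h1, step 0 1 d01 (Or.inr ⟨t, ht, fun k => h0 (k ▸ ht), g⟩)⟩
      · exact ⟨0, h0, step 1 0 d10 (Or.inr ⟨t, ht, fun k => h1 (k ▸ ht), g⟩)⟩
  obtain ⟨j, hvj, P, hP, hPc⟩ := hwalk
  -- the other closed walk, minimal
  have hLc : Conn (fun a b => adj a b ∧ (b = x → a ∈ N)) (T j) x x := by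
    obtain ⟨q, h1, h2, h3⟩ := hfrom j
    refine Or.inr ⟨q, h1, r j, (hT j).2.2.1, ⟨h3, ?_⟩, ?_, (hN _ (hrN j)).2, fun _ => hrN j⟩
    · rintro rfl
      exact absurd h3 (irr _)
    · refine RR.congr ?_ h2
      intro a ha b hb g
      exact ⟨g, fun k => absurd k ((hT j).1 hb).2⟩
  obtain ⟨Q, hQ, hmpL⟩ := exists_MP hLc
  have hmpc : Conn adj Q x x := Conn.congr (fun a b _ _ g => g.1) hmpL.1
  obtain ⟨q0, hq0, hq0N⟩ : ∃ q0 ∈ Q, q0 ∈ N := by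
    rcases hmpL.1 with g | ⟨_, _, q, hq, _, _, g⟩
    · exact absurd g.1 (irr x)
    · exact ⟨q, hq, g.2 rfl⟩
  have hQC : ∀ y ∈ Q, y ∈ C ∧ y ≠ x ∧ y ∉ P ∧ y ≠ v := fun y hy =>
    ⟨((hT j).1 (hQ hy)).1, fun k => ((hT j).1 (hQ hy)).2 k, fun g => (hP y g).2.2 (hQ hy),
      fun k => hvj (k ▸ hQ hy)⟩
  set Z : Finset V := univ.filter (fun y => y = x ∨ y ∈ Q) with hZ
  have mZ : ∀ y, y ∈ Z ↔ (y = x ∨ y ∈ Q) := by
    intro y
    rw [hZ, mem_filter]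
    exact ⟨fun g => g.2, fun g => ⟨mem_univ _, g⟩⟩
  have hvZ : v ∉ Z := by
    rw [mZ]
    rintro (g | g)
    · exact hvx g
    · exact (hQC v g).2.2.2 rfl
  obtain ⟨F, f, hFd, hF⟩ := fan (adj := fun a b => adj b a) CF Z v
    (by
      intro y hy
      rcases (mZ y).1 hy with g | g
      · exact (mCF y).2 (g ▸ hx)
      · exact (mCF y).2 (hQC y g).1)
    hvZ ⟨x, (mZ x).2 (Or.inl rfl)⟩
    (by
      intro s hs
      rw [hcoe]
      by_cases hsx : s = x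
      · subst hsx
        exact ⟨q0, (mZ q0).2 (Or.inr hq0), (hQC q0 hq0).2.1, RR_flip' (H2 q0 hq0N)⟩
      · exact ⟨x, (mZ x).2 (Or.inl rfl), fun g => hsx g.symm, RR_flip' (H3 s hs hsx)⟩)
  rw [hcoe] at hF
  have hf : ∀ i, FP (fun a b => adj b a) (Z : Set V) ∅ (F i) (f i) v := fun i =>
    ⟨(hF i).2.1, (hF i).2.2.1, fun g => ((hF i).1 g).2 rfl, (hF i).2.2.2⟩
  have hz : ∀ i, ∃ z, z ∈ (Z : Set V) ∧ z ∈ F i ∧ Conn adj (F i \ (Z : Set V)) v z := by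
    intro i
    have k := Conn_flip (hf i).conn
    rcases hit_conn (P := (Z : Set V)) k with k1 | ⟨z, k1, k2, k3⟩
    · refine ⟨f i, (hF i).2.1, (hF i).2.2.1, Conn.mono ?_ k1⟩
      exact fun y hy => ⟨hy.1.1, hy.2⟩
    · refine ⟨z, k1, k2.1, Conn.mono ?_ k3⟩
      exact fun y hy => ⟨hy.1.1, hy.2⟩
  choose z z1 z2 z3 using hz
  rw [Set.disjoint_left] at hFd
  have hzz : z 0 ≠ z 1 := by
    intro g
    have := z2 1
    rw [← g] at this
    exact hFd (z2 0) this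
  have hcP : Conn adj (P \ {v}) v x := by
    obtain ⟨P', hP', hm⟩ := exists_MP hPc
    refine Conn.mono ?_ hm.1
    intro y hy
    refine ⟨hP' hy, ?_⟩
    rintro rfl
    obtain ⟨_, W, _, hW, _, _, k⟩ := hm.split hy
    exact hm.2 y hy (Conn.mono hW k)
  set A : Fin 2 → Set V := fun i =>
    (F i \ (Z : Set V)) ∩ {y | Head adj (F i \ (Z : Set V)) v y} with hA
  obtain ⟨B0, B1, s, hB, b0, b1, hs, hsx, sB0, sB1⟩ := exch2 (A0 := A 0) (A1 := A 1)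
    (P := P \ {v}) (Z := (Z : Set V)) (w := v) (u := x) (z0 := z 0) (z1 := z 1)
    (Set.disjoint_left.2 fun y hy g => hFd hy.1.1 g.1.1) (z1 0) (z1 1) hzz (hd_conn (z3 0))
    (hd_conn (z3 1)) (fun y hy => hd_head hy.2) (fun y hy => hd_head hy.2) hcP
  have hsQ : s ∈ Q := ((mZ s).1 hs).resolve_left hsx
  obtain ⟨U, W, hU, hW, hUW, k1, k2⟩ := hmpL.split hsQ
  rw [Set.disjoint_left] at hB hUW
  have hall : ∀ y, y ∈ (A 0 ∪ A 1) ∪ (P \ {v}) → y ∈ C ∧ y ≠ v ∧ y ≠ x ∧ y ∉ Q := by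
    rintro y ((hy | hy) | hy)
    · have g1 := (hF 0).1 hy.1.1
      have g2 := hy.1.2
      exact ⟨g1.1, g1.2, fun g => g2 ((mZ y).2 (Or.inl g)), fun g => g2 ((mZ y).2 (Or.inr g))⟩
    · have g1 := (hF 1).1 hy.1.1
      have g2 := hy.1.2
      exact ⟨g1.1, g1.2, fun g => g2 ((mZ y).2 (Or.inl g)), fun g => g2 ((mZ y).2 (Or.inr g))⟩
    · exact ⟨(hP y hy.1).1, hy.2, (hP y hy.1).2.1, fun g => (hQC y g).2.2.1 hy.1⟩
  have hvQ : v ∉ Q := fun g => hvZ ((mZ v).2 (Or.inr g))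
  refine ⟨s, _, mkK (A1 := B0) (B := ∅) (A2 := B1) (B2 := U) (C1 := W) hv hx (hQC s hsQ).1 hvx
    (fun g => hvQ (g ▸ hsQ)) hsx.symm ?_ ?_ b0 (Or.inl hxv) b1
    (Conn.congr (fun a b _ _ g => g.1) k1) (Conn.congr (fun a b _ _ g => g.1) k2), rfl⟩
  · intro i y hy
    have a0 := fun g => hall y (@sB0 y g)
    have a1 := fun g => hall y (@sB1 y g)
    have u0 : y ∈ U → y ∈ Q ∧ y ≠ s := fun g => ⟨(hU g).1, (hU g).2⟩
    have u1 : y ∈ W → y ∈ Q ∧ y ≠ s := fun g => ⟨(hW g).1, (hW g).2⟩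
    have u2 : y ∈ Q → y ∈ C ∧ y ≠ x ∧ y ≠ v := fun g => ⟨(hQC y g).1, (hQC y g).2.1,
      fun k => hvQ (k ▸ g)⟩
    have u3 : y ∉ Q → y ≠ s := fun g k => g (k ▸ hsQ)
    clear hU hW hUW hB sB0 sB1
    cases i <;> simp only [seg5, Set.mem_empty_iff_false] at hy
    · have b := a0 hy
      exact ⟨b.1, b.2.1, b.2.2.1, u3 b.2.2.2⟩
    · have b := a1 hy
      exact ⟨b.1, b.2.1, b.2.2.1, u3 b.2.2.2⟩
    · have b := u2 (u0 hy).1
      exact ⟨b.1, b.2.2, b.2.1, (u0 hy).2⟩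
    · have b := u2 (u1 hy).1
      exact ⟨b.1, b.2.2, b.2.1, (u1 hy).2⟩
  · intro y
    have a0 := fun g => hall y (@sB0 y g)
    have a1 := fun g => hall y (@sB1 y g)
    refine ⟨fun g => ⟨fun k => k, fun k => hB g k, fun k => (a0 g).2.2.2 (hU k).1,
      fun k => (a0 g).2.2.2 (hW k).1⟩, fun g => g.elim, fun g => ⟨fun k => (a1 g).2.2.2 (hU k).1,
      fun k => (a1 g).2.2.2 (hW k).1⟩, fun g k => hUW g k⟩

/-- The dual: an arc `u → y` is a path of a subdivision minus an arc with center `y` and third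
vertex `u`. -/
theorem gArc' {C N : Set V} {y u : V} (irr : ∀ u, ¬ adj u u) (hy : y ∈ C) (hu : u ∈ C)
    (huy : adj u y) (hN : ∀ r ∈ N, r ∈ C ∧ adj y r)
    (H1 : ∀ s, s ≠ y → ∃ r ∈ N, r ≠ s ∧ RR adj (C \ {s}) r y)
    (H2 : ∀ r ∈ N, RR adj (C \ {y}) r u)
    (H3 : ∀ s, s ≠ u → s ≠ y → RR adj (C \ {s}) y u) :
    ∃ (a : V) (S : Seg → Set V), IsK adj C a y u S ∧ S .c1 = ∅ := by
  obtain ⟨a, S, h1, h2⟩ := gArc (adj := fun a b => adj b a) (C := C) (N := N) irr hy hu huy hN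
    (fun s hs => by
      obtain ⟨r, g1, g2, g3⟩ := H1 s hs
      exact ⟨r, g1, g2, RR_flip' g3⟩)
    (fun r hr => RR_flip' (H2 r hr)) (fun s h1 h2 => RR_flip' (H3 s h1 h2))
  exact ⟨a, _, h1.flip, h2⟩

end fin

end Pool.Agent.H.MP_0cacf8
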