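import Pool.Agent.H.MP_0cacf8.LLL

/-!
# Two-sided partitions with exempt points

The versions of `exists_split_local` and `exists_split_count` in which some of the sets `P v`, `Q v`
may be empty: nothing is required for them.
-/

set_option autoImplicit false

open Finset

namespace Pool.Agent.H.MP_0cacf8

/-- Two-sided partition by the local lemma, with exempt points (those with an empty set). -/
theorem exists_split_local_exempt {V : Type*} [Fintype V] [DecidableEq V] (k Δ : ℕ)
    (P Q : V → Finset V) (hk1 : 1 ≤ k) (hΔ : 1 ≤ Δ)
    (hP : ∀ v, (P v).card = k ∨ P v = ∅) (hQ : ∀ v, (Q v).card = k ∨ Q v = ∅)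
    (hPΔ : ∀ x, (univ.filter fun v => x ∈ P v).card ≤ Δ)
    (hQΔ : ∀ x, (univ.filter fun v => x ∈ Q v).card ≤ Δ)
    (hk : 8 * k * (k + 1) * Δ ≤ 2 ^ k) :
    ∃ A : Finset V, (∀ v, P v = ∅ ∨ 2 ≤ (P v ∩ A).card) ∧ (∀ v, Q v = ∅ ∨ 2 ≤ (Q v \ A).card) := by
  classical
  let N : V ⊕ V → Finset V := Sum.elim P Q
  let c : V ⊕ V → Bool := Sum.elim (fun _ => true) (fun _ => false)
  have hNk : ∀ i, (N i).card = k ∨ N i = ∅ := by
    rintro (v | v)
    · exact hP v
    · exact hQ v
  obtain ⟨ω, hω⟩ := Pool.Agent.H.MP_5bc4af.H5.local_lemma (V := V) (K := Bool) (I := V ⊕ V)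
    (fun i ω => (N i).Nonempty ∧ ((N i).filter fun x => ω x = c i).card ≤ 1) N
    (by
      intro i ω ω' h hA
      have : ((N i).filter fun x => ω' x = c i) = ((N i).filter fun x => ω x = c i) := by
        refine Finset.filter_congr (fun x hx => ?_)
        rw [h x hx]
      rw [this]; exact hA)
    ((k + 1 : ℝ) / 2 ^ k) (by positivity) (2 * k * Δ)
    (by
      have : 1 * 1 ≤ k * Δ := Nat.mul_le_mul hk1 hΔ
      nlinarith)
    (by
      intro i
      rcases hNk i with hi | hi
      · have h := card_few (N i) (c i)
        rw [hi] at h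
        have h0 : (univ.filter fun ω : V → Bool =>
            (N i).Nonempty ∧ ((N i).filter fun x => ω x = c i).card ≤ 1).card ≤
            (univ.filter fun ω : V → Bool => ((N i).filter fun x => ω x = c i).card ≤ 1).card := by
          refine card_le_card ?_
          intro ω hω
          exact mem_filter.2 ⟨mem_univ _, (mem_filter.1 hω).2.2⟩
        have h' : ((univ.filter fun ω : V → Bool =>
            (N i).Nonempty ∧ ((N i).filter fun x => ω x = c i).card ≤ 1).card : ℝ) * 2 ^ k ≤
            (k + 1) * Fintype.card (V → Bool) := by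
          exact_mod_cast (Nat.mul_le_mul_right _ h0).trans h
        rw [div_mul_eq_mul_div, le_div_iff₀ (by positivity)]
        exact h'
      · have h0 : (univ.filter fun ω : V → Bool =>
            (N i).Nonempty ∧ ((N i).filter fun x => ω x = c i).card ≤ 1) = ∅ := by
          refine Finset.filter_false_of_mem (fun ω _ h => ?_)
          rw [hi] at h
          exact Finset.not_nonempty_empty h.1
        rw [h0, card_empty, Nat.cast_zero]
        positivity)
    (by
      intro i
      have hsub : (univ.filter fun j => ¬ Disjoint (N i) (N j)) ⊆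
          (N i).biUnion (fun x => (univ.filter fun j : V ⊕ V => x ∈ N j)) := by
        intro j hj
        simp only [mem_filter, mem_univ, true_and, Finset.not_disjoint_iff] at hj
        obtain ⟨x, hx1, hx2⟩ := hj
        simp only [mem_biUnion, mem_filter, mem_univ, true_and]
        exact ⟨x, hx1, hx2⟩
      have hx : ∀ x, (univ.filter fun j : V ⊕ V => x ∈ N j).card ≤ 2 * Δ := by
        intro x
        have h2 : (univ.filter fun j : V ⊕ V => x ∈ N j) ⊆
            (univ.filter fun v => x ∈ P v).map ⟨Sum.inl, Sum.inl_injective⟩ ∪
              (univ.filter fun v => x ∈ Q v).map ⟨Sum.inr, Sum.inr_injective⟩ := by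
          rintro (v | v) hj
          · simp only [mem_filter, mem_univ, true_and] at hj
            simp only [mem_union, mem_map, mem_filter, mem_univ, true_and]
            exact Or.inl ⟨v, hj, rfl⟩
          · simp only [mem_filter, mem_univ, true_and] at hj
            simp only [mem_union, mem_map, mem_filter, mem_univ, true_and]
            exact Or.inr ⟨v, hj, rfl⟩
        refine (card_le_card h2).trans ((card_union_le _ _).trans ?_)
        rw [card_map, card_map]
        have := hPΔ x
        have := hQΔ x
        omega
      calc _ ≤ _ := card_le_card hsub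
        _ ≤ ∑ x ∈ N i, (univ.filter fun j : V ⊕ V => x ∈ N j).card := card_biUnion_le
        _ ≤ ∑ x ∈ N i, 2 * Δ := Finset.sum_le_sum (fun x _ => hx x)
        _ = (N i).card * (2 * Δ) := by rw [Finset.sum_const, smul_eq_mul]
        _ ≤ k * (2 * Δ) := by
            refine Nat.mul_le_mul_right _ ?_
            rcases hNk i with hi | hi
            · exact hi.le
            · rw [hi]; simp
        _ = 2 * k * Δ := by ring)
    (by
      have h : ((8 * k * (k + 1) * Δ : ℕ) : ℝ) ≤ 2 ^ k := by exact_mod_cast hk
      push_cast at h ⊢
      have h2 : (0 : ℝ) < 2 ^ k := by positivity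
      rw [show (4 : ℝ) * ((k + 1) / 2 ^ k) * (2 * k * Δ) = (8 * k * (k + 1) * Δ) / 2 ^ k by
        field_simp; ring]
      rw [div_le_one h2]
      exact h)
  refine ⟨univ.filter fun x => ω x = true, fun v => ?_, fun v => ?_⟩
  · rcases Finset.eq_empty_or_nonempty (P v) with he | hne
    · exact Or.inl he
    right
    have h := hω (Sum.inl v)
    simp only [N, c, Sum.elim_inl, not_and, not_le] at h
    have h := h hne
    have h2 : (P v ∩ univ.filter fun x => ω x = true) = (P v).filter fun x => ω x = true := by
      ext x; simp
    rw [h2]; exact h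
  · rcases Finset.eq_empty_or_nonempty (Q v) with he | hne
    · exact Or.inl he
    right
    have h := hω (Sum.inr v)
    simp only [N, c, Sum.elim_inr, not_and, not_le] at h
    have h := h hne
    have h2 : (Q v \ univ.filter fun x => ω x = true) = (Q v).filter fun x => ω x = false := by
      ext x; simp
    rw [h2]; exact h

/-- Two-sided partition by counting, with exempt points. -/
theorem exists_split_count_exempt {V : Type*} [Fintype V] [DecidableEq V] (k : ℕ)
    (P Q : V → Finset V) (hP : ∀ v, (P v).card = k ∨ P v = ∅) (hQ : ∀ v, (Q v).card = k ∨ Q v = ∅)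
    (hk : 2 * (k + 1) * Fintype.card V < 2 ^ k) :
    ∃ A : Finset V, (∀ v, P v = ∅ ∨ 2 ≤ (P v ∩ A).card) ∧ (∀ v, Q v = ∅ ∨ 2 ≤ (Q v \ A).card) := by
  classical
  let N : V ⊕ V → Finset V := Sum.elim P Q
  let c : V ⊕ V → Bool := Sum.elim (fun _ => true) (fun _ => false)
  have hNk : ∀ i, (N i).card = k ∨ N i = ∅ := by
    rintro (v | v)
    · exact hP v
    · exact hQ v
  have hmain : ∃ ω : V → Bool, ∀ i, ¬ ((N i).Nonempty ∧
      ((N i).filter fun x => ω x = c i).card ≤ 1) := by
    by_contra hcon
    push Not at hcon
    have hcov : (univ : Finset (V → Bool)) ⊆ (univ : Finset (V ⊕ V)).biUnion (fun i =>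
        univ.filter fun ω : V → Bool => (N i).Nonempty ∧
          ((N i).filter fun x => ω x = c i).card ≤ 1) := by
      intro ω _
      obtain ⟨i, hi⟩ := hcon ω
      simp only [mem_biUnion, mem_filter, mem_univ, true_and]
      exact ⟨i, hi⟩
    have h1 : Fintype.card (V → Bool) * 2 ^ k ≤
        (2 * (k + 1) * Fintype.card V) * Fintype.card (V → Bool) := by
      calc Fintype.card (V → Bool) * 2 ^ k
          ≤ (∑ i : V ⊕ V, (univ.filter fun ω : V → Bool => (N i).Nonempty ∧
              ((N i).filter fun x => ω x = c i).card ≤ 1).card) * 2 ^ k :=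
            Nat.mul_le_mul_right _ ((card_le_card hcov).trans card_biUnion_le)
        _ = ∑ i : V ⊕ V, (univ.filter fun ω : V → Bool => (N i).Nonempty ∧
              ((N i).filter fun x => ω x = c i).card ≤ 1).card * 2 ^ k := Finset.sum_mul _ _ _
        _ ≤ ∑ _i : V ⊕ V, (k + 1) * Fintype.card (V → Bool) := by
            refine Finset.sum_le_sum (fun i _ => ?_)
            rcases hNk i with hi | hi
            · have h := card_few (N i) (c i)
              rw [hi] at h
              refine (Nat.mul_le_mul_right _ (card_le_card ?_)).trans h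
              intro ω hω
              exact mem_filter.2 ⟨mem_univ _, (mem_filter.1 hω).2.2⟩
            · have h0 : (univ.filter fun ω : V → Bool =>
                  (N i).Nonempty ∧ ((N i).filter fun x => ω x = c i).card ≤ 1) = ∅ := by
                refine Finset.filter_false_of_mem (fun ω _ h => ?_)
                rw [hi] at h
                exact Finset.not_nonempty_empty h.1
              rw [h0, card_empty, Nat.zero_mul]
              exact Nat.zero_le _
        _ = _ := by
            rw [Finset.sum_const, Finset.card_univ, Fintype.card_sum, smul_eq_mul]; ring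
    have h2 : 0 < Fintype.card (V → Bool) := Fintype.card_pos
    have h3 : Fintype.card (V → Bool) * 2 ^ k ≤
        Fintype.card (V → Bool) * (2 * (k + 1) * Fintype.card V) := by
      rw [mul_comm (Fintype.card (V → Bool)) (2 * (k + 1) * Fintype.card V)]; exact h1
    exact absurd (Nat.le_of_mul_le_mul_left h3 h2) (not_le.2 hk)
  obtain ⟨ω, hω⟩ := hmain
  refine ⟨univ.filter fun x => ω x = true, fun v => ?_, fun v => ?_⟩
  · rcases Finset.eq_empty_or_nonempty (P v) with he | hne
    · exact Or.inl he
    right
    have h := hω (Sum.inl v)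
    simp only [N, c, Sum.elim_inl, not_and, not_le] at h
    have h := h hne
    have h2 : (P v ∩ univ.filter fun x => ω x = true) = (P v).filter fun x => ω x = true := by
      ext x; simp
    rw [h2]; exact h
  · rcases Finset.eq_empty_or_nonempty (Q v) with he | hne
    · exact Or.inl he
    right
    have h := hω (Sum.inr v)
    simp only [N, c, Sum.elim_inr, not_and, not_le] at h
    have h := h hne
    have h2 : (Q v \ univ.filter fun x => ω x = true) = (Q v).filter fun x => ω x = false := by
      ext x; simp
    rw [h2]; exact h

end Pool.Agent.H.MP_0cacf8
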