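import Pool.Agent.H.MP_0cacf8.PartExempt
import Pool.Agent.H.MP_0cacf8.LLLExempt

/-!
# A strong hub set and a subdigraph of bounded degree outside it

`D` strong, `Z` a hub set with `D[Z]` strong, `W` a set outside `Z`, every `v ∈ W` with a set `P v` of
`k` out-neighbours in `W` or (`P v = ∅`) an arc into `Z`, and dually `Q v`. If the multiplicities are
bounded and `W` contains a closed nonempty set `X`, then `D` contains a subdivision of `K3`.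
-/

set_option autoImplicit false

namespace Pool.Agent.H.MP_0cacf8

open Relation Finset Pool.Agent.H.MP_0d008e_co

variable {V : Type*} [Fintype V] [DecidableEq V]

/-- The split of `W`. -/
theorem hubSplit_exists (k Δ : ℕ) (W : Finset V) (P Q : V → Finset V) (hk : 1 ≤ k)
    (hP : ∀ v ∈ W, P v ⊆ W ∧ ((P v).card = k ∨ P v = ∅))
    (hQ : ∀ v ∈ W, Q v ⊆ W ∧ ((Q v).card = k ∨ Q v = ∅))
    (h : ((∀ x ∈ W, (W.filter fun v => x ∈ P v).card ≤ Δ ∧ (W.filter fun v => x ∈ Q v).card ≤ Δ) ∧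
        8 * k * (k + 1) * Δ ≤ 2 ^ k) ∨ 2 * (k + 1) * W.card < 2 ^ k) :
    ∃ A : Finset V, A ⊆ W ∧ (∀ v ∈ W, P v = ∅ ∨ 2 ≤ (P v ∩ A).card) ∧
      (∀ v ∈ W, Q v = ∅ ∨ 2 ≤ (Q v ∩ (W \ A)).card) := by
  classical
  let P' : {v // v ∈ W} → Finset {v // v ∈ W} := fun v => (P v).subtype (fun x => x ∈ W)
  let Q' : {v // v ∈ W} → Finset {v // v ∈ W} := fun v => (Q v).subtype (fun x => x ∈ W)
  have hsub : ∀ (R : V → Finset V), (∀ v ∈ W, R v ⊆ W ∧ ((R v).card = k ∨ R v = ∅)) →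
      ∀ v : {v // v ∈ W}, ((R v).subtype (fun x => x ∈ W)).card = k ∨
        (R v).subtype (fun x => x ∈ W) = ∅ := by
    intro R hR v
    rcases (hR v v.2).2 with h1 | h1
    · left
      rw [Finset.card_subtype, Finset.filter_true_of_mem, h1]
      intro x hx
      exact (hR v v.2).1 hx
    · right
      rw [h1]
      rfl
  have hcount : ∀ (R : V → Finset V) (x : {v // v ∈ W}),
      (Finset.filter (fun v : {v // v ∈ W} => x ∈ (R v).subtype (fun y => y ∈ W))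
        univ).card ≤
      (W.filter fun v => (x : V) ∈ R v).card := by
    intro R x
    refine Finset.card_le_card_of_injOn (fun v : {v // v ∈ W} => (v : V)) ?_ ?_
    · intro v hv
      have hv' := (mem_filter.1 (mem_coe.1 hv)).2
      exact mem_coe.2 (mem_filter.2 ⟨v.2, Finset.mem_subtype.1 hv'⟩)
    · intro a _ b _ hab
      exact Subtype.ext hab
  obtain ⟨A', hA', hB'⟩ : ∃ A : Finset {v // v ∈ W}, (∀ v, P' v = ∅ ∨ 2 ≤ (P' v ∩ A).card) ∧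
      (∀ v, Q' v = ∅ ∨ 2 ≤ (Q' v \ A).card) := by
    rcases h with ⟨hΔ, hkΔ⟩ | h
    · rcases Nat.eq_zero_or_pos Δ with h0 | hΔ1
      · have hnone : ∀ (R : V → Finset V),
            (∀ x ∈ W, (W.filter fun v => x ∈ R v).card ≤ Δ) → ∀ v : {v // v ∈ W},
              (R v).subtype (fun x => x ∈ W) = ∅ := by
          intro R hR v
          rw [Finset.eq_empty_iff_forall_notMem]
          intro x hx
          have h1 : (v : V) ∈ (W.filter fun v => (x : V) ∈ R v) :=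
            mem_filter.2 ⟨v.2, Finset.mem_subtype.1 hx⟩
          have h2 := Finset.card_pos.2 ⟨_, h1⟩
          have h3 := hR x x.2
          omega
        exact ⟨∅, fun v => Or.inl (hnone P (fun x hx => (hΔ x hx).1) v),
          fun v => Or.inl (hnone Q (fun x hx => (hΔ x hx).2) v)⟩
      · exact exists_split_local_exempt k Δ P' Q' hk hΔ1 (hsub P hP) (hsub Q hQ)
          (fun x => (hcount P x).trans (hΔ x x.2).1) (fun x => (hcount Q x).trans (hΔ x x.2).2) hkΔ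
    · refine exists_split_count_exempt k P' Q' (hsub P hP) (hsub Q hQ) ?_
      rw [Fintype.card_coe]
      exact h
  set A : Finset V := A'.map ⟨Subtype.val, Subtype.val_injective⟩ with hAdef
  have hmem : ∀ x : {v // v ∈ W}, x ∈ A' ↔ (x : V) ∈ A := by
    intro x
    constructor
    · intro hx
      exact mem_map.2 ⟨x, hx, rfl⟩
    · intro hx
      obtain ⟨y, hy, hyx⟩ := mem_map.1 hx
      have : y = x := Subtype.ext hyx
      exact this ▸ hy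
  refine ⟨A, ?_, ?_, ?_⟩
  · intro x hx
    obtain ⟨y, _, rfl⟩ := mem_map.1 hx
    exact y.2
  · intro v hv
    rcases hA' ⟨v, hv⟩ with h1 | h1
    · left
      rw [Finset.eq_empty_iff_forall_notMem]
      intro x hx
      have : (⟨x, (hP v hv).1 hx⟩ : {v // v ∈ W}) ∈ P' ⟨v, hv⟩ := Finset.mem_subtype.2 hx
      rw [h1] at this
      exact Finset.notMem_empty _ this
    · right
      refine h1.trans (Finset.card_le_card_of_injOn (fun v : {v // v ∈ W} => (v : V)) ?_ ?_)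
      · intro x hx
        have hx' := mem_inter.1 (mem_coe.1 hx)
        exact mem_coe.2 (mem_inter.2 ⟨Finset.mem_subtype.1 hx'.1, (hmem x).1 hx'.2⟩)
      · intro a _ b _ hab
        exact Subtype.ext hab
  · intro v hv
    rcases hB' ⟨v, hv⟩ with h1 | h1
    · left
      rw [Finset.eq_empty_iff_forall_notMem]
      intro x hx
      have : (⟨x, (hQ v hv).1 hx⟩ : {v // v ∈ W}) ∈ Q' ⟨v, hv⟩ := Finset.mem_subtype.2 hx
      rw [h1] at this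
      exact Finset.notMem_empty _ this
    · right
      refine h1.trans (Finset.card_le_card_of_injOn (fun v : {v // v ∈ W} => (v : V)) ?_ ?_)
      · intro x hx
        have hx' := mem_sdiff.1 (mem_coe.1 hx)
        exact mem_coe.2 (mem_inter.2 ⟨Finset.mem_subtype.1 hx'.1,
          mem_sdiff.2 ⟨x.2, fun h2 => hx'.2 ((hmem x).2 h2)⟩⟩)
      · intro a _ b _ hab
        exact Subtype.ext hab

/-- The hypothesis of the theorem: outside the hub set `Z`, hubs `H₁` (for the out-neighbours) and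
`H₂` (for the in-neighbours), and sets `P v`, `Q v` of ordinary vertices. -/
structure HubFam (adj : V → V → Prop) (k : ℕ) (Z W H₁ H₂ : Finset V) (P Q : V → Finset V) :
    Prop where
  strong : ∀ u v, ReflTransGen adj u v
  strongZ : ∀ u ∈ Z, ∀ v ∈ Z, RR adj (Z : Set V) u v
  disjZ : Disjoint Z W
  sub₁ : H₁ ⊆ W
  sub₂ : H₂ ⊆ W
  disj : Disjoint H₁ H₂
  hP : ∀ v ∈ W, (P v ⊆ W \ (H₁ ∪ H₂) ∧ ∀ x ∈ P v, x ≠ v ∧ adj v x) ∧
    ((P v).card = k ∨ P v = ∅ ∧ ((∃ z ∈ Z, adj v z) ∨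
      ∃ p ∈ H₁, ∃ q ∈ H₁, p ≠ q ∧ p ≠ v ∧ q ≠ v ∧ adj v p ∧ adj v q))
  hQ : ∀ v ∈ W, (Q v ⊆ W \ (H₁ ∪ H₂) ∧ ∀ x ∈ Q v, x ≠ v ∧ adj x v) ∧
    ((Q v).card = k ∨ Q v = ∅ ∧ ((∃ z ∈ Z, adj z v) ∨
      ∃ p ∈ H₂, ∃ q ∈ H₂, p ≠ q ∧ p ≠ v ∧ q ≠ v ∧ adj p v ∧ adj q v))

theorem HubFam.flip {adj : V → V → Prop} {k : ℕ} {Z W H₁ H₂ : Finset V} {P Q : V → Finset V}
    (h : HubFam adj k Z W H₁ H₂ P Q) : HubFam (fun x y => adj y x) k Z W H₂ H₁ Q P where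
  strong := fun u v => rtg_flip (h.strong v u) (fun _ _ h => h)
  strongZ := fun u hu v hv => rr_flip' (h.strongZ v hv u hu)
  disjZ := h.disjZ
  sub₁ := h.sub₂
  sub₂ := h.sub₁
  disj := h.disj.symm
  hP := by
    intro v hv
    rw [union_comm H₂ H₁]
    exact h.hQ v hv
  hQ := by
    intro v hv
    rw [union_comm H₂ H₁]
    exact h.hP v hv

/-- The theorem with a closed set `X` for the out-neighbours. -/
theorem K3_of_hubFam {adj : V → V → Prop} {k : ℕ} {Z W H₁ H₂ : Finset V} {P Q : V → Finset V}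
    (H : HubFam adj k Z W H₁ H₂ P Q) (Δ : ℕ) (X : Finset V) (hk : 1 ≤ k)
    (hXW : X ⊆ W) (hXne : X.Nonempty)
    (hX : ∀ v ∈ X, (P v ⊆ X ∧ (P v).card = k) ∨
      ∃ p ∈ H₁ ∩ X, ∃ q ∈ H₁ ∩ X, p ≠ q ∧ p ≠ v ∧ q ≠ v ∧ adj v p ∧ adj v q)
    (h : ((∀ x ∈ W, (W.filter fun v => x ∈ P v).card ≤ Δ ∧ (W.filter fun v => x ∈ Q v).card ≤ Δ) ∧
        8 * k * (k + 1) * Δ ≤ 2 ^ k) ∨ 2 * (k + 1) * W.card < 2 ^ k) :
    K3set adj := by
  classical
  obtain ⟨A₀, hAW, hA, hB⟩ := hubSplit_exists k Δ W P Q hk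
    (fun v hv => ⟨(H.hP v hv).1.1.trans sdiff_subset, (H.hP v hv).2.imp id And.left⟩)
    (fun v hv => ⟨(H.hQ v hv).1.1.trans sdiff_subset, (H.hQ v hv).2.imp id And.left⟩) h
  have hk0 : ∀ R : Finset V, R.card = k → R ≠ ∅ := by
    rintro R hR rfl
    rw [card_empty] at hR
    omega
  -- the hubs `H₁` go to `A`, the hubs `H₂` to `B`
  set A : Finset V := (A₀ \ H₂) ∪ H₁ with hAdef
  have hAW' : A ⊆ W := union_subset (sdiff_subset.trans hAW) H.sub₁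
  have hH₁A : H₁ ⊆ A := subset_union_right
  have hH₂B : H₂ ⊆ W \ A := by
    intro x hx
    refine mem_sdiff.2 ⟨H.sub₂ hx, fun h1 => ?_⟩
    rcases mem_union.1 h1 with h1 | h1
    · exact (mem_sdiff.1 h1).2 hx
    · exact Finset.disjoint_left.1 H.disj h1 hx
  have hmemA : ∀ x ∈ W \ (H₁ ∪ H₂), x ∈ A₀ → x ∈ A := by
    intro x hx hxA
    have h1 := (mem_sdiff.1 hx).2
    rw [mem_union, not_or] at h1
    exact mem_union_left _ (mem_sdiff.2 ⟨hxA, h1.2⟩)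
  have hmemB : ∀ x ∈ W \ (H₁ ∪ H₂), x ∈ W \ A₀ → x ∈ W \ A := by
    intro x hx hxA
    have h1 := (mem_sdiff.1 hx).2
    rw [mem_union, not_or] at h1
    refine mem_sdiff.2 ⟨(mem_sdiff.1 hx).1, fun h2 => ?_⟩
    rcases mem_union.1 h2 with h2 | h2
    · exact (mem_sdiff.1 hxA).2 (mem_sdiff.1 h2).1
    · exact h1.1 h2
  have hZA : Disjoint Z A := H.disjZ.mono_right hAW'
  have hZB : Disjoint Z (W \ A) := H.disjZ.mono_right sdiff_subset
  -- two out-neighbours in `A`, two in-neighbours in `W \ A`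
  have hA1 : ∀ v ∈ W, (P v).card = k →
      ∃ p ∈ P v ∩ A, ∃ q ∈ P v ∩ A, p ≠ q ∧ p ≠ v ∧ q ≠ v ∧ adj v p ∧ adj v q := by
    intro v hv h1
    rcases hA v hv with h2 | h2
    · exact absurd h2 (hk0 _ h1)
    · obtain ⟨p, hp, q, hq, hpq⟩ := Finset.one_lt_card.1 h2
      rw [mem_inter] at hp hq
      have h3 := (H.hP v hv).1.2 p hp.1
      have h4 := (H.hP v hv).1.2 q hq.1
      exact ⟨p, mem_inter.2 ⟨hp.1, hmemA p ((H.hP v hv).1.1 hp.1) hp.2⟩,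
        q, mem_inter.2 ⟨hq.1, hmemA q ((H.hP v hv).1.1 hq.1) hq.2⟩, hpq, h3.1, h4.1, h3.2, h4.2⟩
  have hA2 : ∀ v ∈ W, (∃ z ∈ Z, adj v z) ∨
      ∃ p ∈ A, ∃ q ∈ A, p ≠ q ∧ p ≠ v ∧ q ≠ v ∧ adj v p ∧ adj v q := by
    intro v hv
    rcases (H.hP v hv).2 with h1 | ⟨_, h1 | ⟨p, hp, q, hq, h2⟩⟩
    · right
      obtain ⟨p, hp, q, hq, h2⟩ := hA1 v hv h1
      exact ⟨p, (mem_inter.1 hp).2, q, (mem_inter.1 hq).2, h2⟩
    · exact Or.inl h1
    · exact Or.inr ⟨p, hH₁A hp, q, hH₁A hq, h2⟩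
  have hB2 : ∀ v ∈ W, (∃ z ∈ Z, adj z v) ∨
      ∃ p ∈ W \ A, ∃ q ∈ W \ A, p ≠ q ∧ p ≠ v ∧ q ≠ v ∧ adj p v ∧ adj q v := by
    intro v hv
    rcases (H.hQ v hv).2 with h1 | ⟨_, h1 | ⟨p, hp, q, hq, h2⟩⟩
    · right
      rcases hB v hv with h2 | h2
      · exact absurd h2 (hk0 _ h1)
      · obtain ⟨p, hp, q, hq, hpq⟩ := Finset.one_lt_card.1 h2
        rw [mem_inter] at hp hq
        have h3 := (H.hQ v hv).1.2 p hp.1
        have h4 := (H.hQ v hv).1.2 q hq.1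
        exact ⟨p, hmemB p ((H.hQ v hv).1.1 hp.1) hp.2, q, hmemB q ((H.hQ v hv).1.1 hq.1) hq.2,
          hpq, h3.1, h4.1, h3.2, h4.2⟩
    · exact Or.inl h1
    · exact Or.inr ⟨p, hH₂B hp, q, hH₂B hq, h2⟩
  have hT : TwoExempt adj Z A (W \ A) := by
    refine ⟨H.strong, H.strongZ, disjoint_sdiff, hZA, hZB, fun x hx => hA2 x (hAW' hx),
      fun x hx => hB2 x (mem_sdiff.1 hx).1, ?_, ?_⟩
    · intro v hv
      rcases hB2 v (hAW' hv) with ⟨z, hz, hzv⟩ | ⟨p, hp, _, _, _, _, _, h5, _⟩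
      · exact ⟨z, Or.inr hz,
          ReflTransGen.single ⟨hzv, fun h1 => Finset.disjoint_left.1 hZA hz h1⟩⟩
      · exact ⟨p, Or.inl hp, ReflTransGen.single ⟨h5, (mem_sdiff.1 hp).2⟩⟩
    · intro v hv
      rcases hA2 v (mem_sdiff.1 hv).1 with ⟨z, hz, hzv⟩ | ⟨p, hp, _, _, _, _, _, h5, _⟩
      · exact ⟨z, Or.inr hz,
          ReflTransGen.single ⟨hzv, fun h1 => Finset.disjoint_left.1 hZB hz h1⟩⟩
      · exact ⟨p, Or.inl hp, ReflTransGen.single ⟨h5, fun h1 => (mem_sdiff.1 h1).2 hp⟩⟩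
  have hXA : ∀ v ∈ X, ∃ p ∈ X ∩ A, ∃ q ∈ X ∩ A, p ≠ q ∧ p ≠ v ∧ q ≠ v ∧ adj v p ∧ adj v q := by
    intro v hv
    rcases hX v hv with h1 | ⟨p, hp, q, hq, h1⟩
    · obtain ⟨p, hp, q, hq, h2⟩ := hA1 v (hXW hv) h1.2
      rw [mem_inter] at hp hq
      exact ⟨p, mem_inter.2 ⟨h1.1 hp.1, hp.2⟩, q, mem_inter.2 ⟨h1.1 hq.1, hq.2⟩, h2⟩
    · rw [mem_inter] at hp hq
      exact ⟨p, mem_inter.2 ⟨hp.2, hH₁A hp.1⟩, q, mem_inter.2 ⟨hq.2, hH₁A hq.1⟩, h1⟩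
  refine K3_of_twoExempt (X := X ∩ A) hT ⟨inter_subset_right, ?_, fun v hv => hXA v (mem_inter.1 hv).1⟩
  obtain ⟨x, hx⟩ := hXne
  obtain ⟨p, hp, _⟩ := hXA x hx
  exact ⟨p, hp⟩

/-- The dual theorem, with a closed set `X` for the in-neighbours. -/
theorem K3_of_hubFam' {adj : V → V → Prop} {k : ℕ} {Z W H₁ H₂ : Finset V} {P Q : V → Finset V}
    (H : HubFam adj k Z W H₁ H₂ P Q) (Δ : ℕ) (X : Finset V) (hk : 1 ≤ k)
    (hXW : X ⊆ W) (hXne : X.Nonempty)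
    (hX : ∀ v ∈ X, (Q v ⊆ X ∧ (Q v).card = k) ∨
      ∃ p ∈ H₂ ∩ X, ∃ q ∈ H₂ ∩ X, p ≠ q ∧ p ≠ v ∧ q ≠ v ∧ adj p v ∧ adj q v)
    (h : ((∀ x ∈ W, (W.filter fun v => x ∈ P v).card ≤ Δ ∧ (W.filter fun v => x ∈ Q v).card ≤ Δ) ∧
        8 * k * (k + 1) * Δ ≤ 2 ^ k) ∨ 2 * (k + 1) * W.card < 2 ^ k) :
    K3set adj :=
  K3set_flip (K3_of_hubFam H.flip Δ X hk hXW hXne hX
    (h.imp (fun h1 => ⟨fun x hx => (h1.1 x hx).symm, h1.2⟩) id))

end Pool.Agent.H.MP_0cacf8
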