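import Pool.Agent.H.MP_5bc4af_co.helper5.LLL

/-!
# Two-sided partitions by the local lemma and by counting

`P v`, `Q v` are `k`-element sets. If every point lies in at most `Δ` of the sets `P v` and in at
most `Δ` of the sets `Q v` and `8 k (k + 1) Δ ≤ 2 ^ k`, then there is a set `A` with
`2 ≤ |P v ∩ A|` and `2 ≤ |Q v \ A|` for all `v`. The same if `2 (k + 1) |V| < 2 ^ k`.
-/

set_option autoImplicit false

open Finset

namespace Pool.Agent.H.MP_0cacf8

/-- The number of 0-1 colourings with a given restriction to `S`. -/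
theorem card_pattern {V : Type*} [Fintype V] [DecidableEq V] (S : Finset V) (g : V → Bool) :
    (univ.filter fun ω : V → Bool => ∀ x ∈ S, ω x = g x).card * 2 ^ S.card =
      Fintype.card (V → Bool) := by
  have h : (univ.filter fun ω : V → Bool => ∀ x ∈ S, ω x = g x) =
      Fintype.piFinset (fun x => if x ∈ S then {g x} else univ) := by
    ext ω
    simp only [mem_filter, mem_univ, true_and, Fintype.mem_piFinset]
    constructor
    · intro h x
      by_cases hx : x ∈ S
      · simp [hx, h x hx]
      · simp [hx]
    · intro h x hx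
      have := h x
      simpa [hx] using this
  rw [h, Fintype.card_piFinset]
  have h2 : ∀ x : V, (if x ∈ S then ({g x} : Finset Bool) else univ).card =
      if x ∈ S then 1 else 2 := by
    intro x
    by_cases hx : x ∈ S <;> simp [hx]
  simp_rw [h2]
  rw [Finset.prod_ite, Finset.prod_const_one, one_mul, Finset.prod_const, ← pow_add]
  simp only [Fintype.card_fun, Fintype.card_bool]
  congr 1
  have h3 : (univ.filter fun x : V => x ∉ S) = Sᶜ := by
    ext x; simp
  rw [h3, Finset.card_compl]
  have := Finset.card_le_univ S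
  omega

/-- The number of 0-1 colourings in which the `k`-set `S` has at most one point of colour `c`. -/
theorem card_few {V : Type*} [Fintype V] [DecidableEq V] (S : Finset V) (c : Bool) :
    (univ.filter fun ω : V → Bool => (S.filter fun x => ω x = c).card ≤ 1).card * 2 ^ S.card ≤
      (S.card + 1) * Fintype.card (V → Bool) := by
  have hsub : (univ.filter fun ω : V → Bool => (S.filter fun x => ω x = c).card ≤ 1) ⊆
      (univ.filter fun ω : V → Bool => ∀ x ∈ S, ω x = !c) ∪
        S.biUnion (fun y => univ.filter fun ω : V → Bool =>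
          ∀ x ∈ S, ω x = if x = y then c else !c) := by
    intro ω hω
    simp only [mem_filter, mem_univ, true_and] at hω
    simp only [mem_union, mem_filter, mem_univ, true_and, mem_biUnion]
    rcases Nat.lt_or_ge (S.filter fun x => ω x = c).card 1 with h | h
    · left
      intro x hx
      have h0 : (S.filter fun x => ω x = c) = ∅ := by
        rw [← Finset.card_eq_zero]; omega
      have : x ∉ (S.filter fun x => ω x = c) := by rw [h0]; simp
      have h1 : ω x ≠ c := fun h => this (by simp [hx, h])
      cases hc : c <;> cases hw : ω x <;> simp_all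
    · right
      have h1 : (S.filter fun x => ω x = c).card = 1 := le_antisymm hω h
      obtain ⟨y, hy⟩ := Finset.card_eq_one.1 h1
      have hyS : y ∈ (S.filter fun x => ω x = c) := by rw [hy]; simp
      refine ⟨y, (Finset.mem_filter.1 hyS).1, fun x hx => ?_⟩
      by_cases hxy : x = y
      · subst hxy; simpa using (Finset.mem_filter.1 hyS).2
      · have : x ∉ (S.filter fun x => ω x = c) := by rw [hy]; simpa using hxy
        have h1 : ω x ≠ c := fun h => this (by simp [hx, h])
        simp only [hxy, if_false]
        cases hc : c <;> cases hw : ω x <;> simp_all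
  calc _ ≤ ((univ.filter fun ω : V → Bool => ∀ x ∈ S, ω x = !c) ∪
        S.biUnion (fun y => univ.filter fun ω : V → Bool =>
          ∀ x ∈ S, ω x = if x = y then c else !c)).card * 2 ^ S.card :=
        Nat.mul_le_mul_right _ (card_le_card hsub)
    _ ≤ ((univ.filter fun ω : V → Bool => ∀ x ∈ S, ω x = !c).card +
        ∑ y ∈ S, (univ.filter fun ω : V → Bool =>
          ∀ x ∈ S, ω x = if x = y then c else !c).card) * 2 ^ S.card := by
        refine Nat.mul_le_mul_right _ ((card_union_le _ _).trans ?_)
        exact Nat.add_le_add_left card_biUnion_le _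
    _ = (S.card + 1) * Fintype.card (V → Bool) := by
        rw [Nat.add_mul, Finset.sum_mul, card_pattern S (fun _ => !c)]
        rw [Finset.sum_congr rfl (fun y _ => card_pattern S (fun x => if x = y then c else !c))]
        rw [Finset.sum_const, smul_eq_mul]
        ring

/-- Two-sided partition by the local lemma. -/
theorem exists_split_local {V : Type*} [Fintype V] [DecidableEq V] (k Δ : ℕ) (P Q : V → Finset V)
    (hk1 : 1 ≤ k) (hP : ∀ v, (P v).card = k) (hQ : ∀ v, (Q v).card = k)
    (hPΔ : ∀ x, (univ.filter fun v => x ∈ P v).card ≤ Δ)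
    (hQΔ : ∀ x, (univ.filter fun v => x ∈ Q v).card ≤ Δ)
    (hk : 8 * k * (k + 1) * Δ ≤ 2 ^ k) :
    ∃ A : Finset V, (∀ v, 2 ≤ (P v ∩ A).card) ∧ (∀ v, 2 ≤ (Q v \ A).card) := by
  classical
  rcases isEmpty_or_nonempty V with hV | ⟨⟨v0⟩⟩
  · exact ⟨∅, fun v => (hV.false v).elim, fun v => (hV.false v).elim⟩
  have hΔ : 1 ≤ Δ := by
    obtain ⟨x, hx⟩ : (P v0).Nonempty := by
      rw [← Finset.card_pos, hP]; exact hk1
    refine le_trans ?_ (hPΔ x)
    exact Finset.card_pos.2 ⟨v0, by simpa using hx⟩
  let N : V ⊕ V → Finset V := Sum.elim P Q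
  let c : V ⊕ V → Bool := Sum.elim (fun _ => true) (fun _ => false)
  have hNk : ∀ i, (N i).card = k := by
    rintro (v | v)
    · exact hP v
    · exact hQ v
  obtain ⟨ω, hω⟩ := Pool.Agent.H.MP_5bc4af.H5.local_lemma (V := V) (K := Bool) (I := V ⊕ V)
    (fun i ω => ((N i).filter fun x => ω x = c i).card ≤ 1) N
    (by
      intro i ω ω' h hA
      have : ((N i).filter fun x => ω' x = c i) = ((N i).filter fun x => ω x = c i) := by
        refine Finset.filter_congr (fun x hx => ?_)
        rw [h x hx]
      rw [this]; exact hA)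
    ((k + 1 : ℝ) / 2 ^ k) (by positivity) (2 * k * Δ)
    (by
      have : 1 * 1 ≤ k * Δ := Nat.mul_le_mul hk1 hΔ
      nlinarith)
    (by
      intro i
      have h := card_few (N i) (c i)
      rw [hNk i] at h
      have h' : ((univ.filter fun ω : V → Bool =>
          ((N i).filter fun x => ω x = c i).card ≤ 1).card : ℝ) * 2 ^ k ≤
          (k + 1) * Fintype.card (V → Bool) := by exact_mod_cast h
      rw [div_mul_eq_mul_div, le_div_iff₀ (by positivity)]
      exact h')
    (by
      intro i
      have hsub : (univ.filter fun j => ¬ Disjoint (N i) (N j)) ⊆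
          (N i).biUnion (fun x => (univ.filter fun j : V ⊕ V => x ∈ N j)) := by
        intro j hj
        simp only [mem_filter, mem_univ, true_and, Finset.not_disjoint_iff] at hj
        obtain ⟨x, hx1, hx2⟩ := hj
        simp only [mem_biUnion, mem_filter, mem_univ, true_and]
        exact ⟨x, hx1, hx2⟩
      have hx : ∀ x, (univ.filter fun j : V ⊕ V => x ∈ N j).card ≤ 2 * Δ := by
        intro x
        have h2 : (univ.filter fun j : V ⊕ V => x ∈ N j) ⊆
            (univ.filter fun v => x ∈ P v).map ⟨Sum.inl, Sum.inl_injective⟩ ∪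
              (univ.filter fun v => x ∈ Q v).map ⟨Sum.inr, Sum.inr_injective⟩ := by
          rintro (v | v) hj
          · simp only [mem_filter, mem_univ, true_and] at hj
            simp only [mem_union, mem_map, mem_filter, mem_univ, true_and]
            exact Or.inl ⟨v, hj, rfl⟩
          · simp only [mem_filter, mem_univ, true_and] at hj
            simp only [mem_union, mem_map, mem_filter, mem_univ, true_and]
            exact Or.inr ⟨v, hj, rfl⟩
        refine (card_le_card h2).trans ((card_union_le _ _).trans ?_)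
        rw [card_map, card_map]
        have := hPΔ x
        have := hQΔ x
        omega
      calc _ ≤ _ := card_le_card hsub
        _ ≤ ∑ x ∈ N i, (univ.filter fun j : V ⊕ V => x ∈ N j).card := card_biUnion_le
        _ ≤ ∑ x ∈ N i, 2 * Δ := Finset.sum_le_sum (fun x _ => hx x)
        _ = 2 * k * Δ := by rw [Finset.sum_const, hNk i, smul_eq_mul]; ring)
    (by
      have h : ((8 * k * (k + 1) * Δ : ℕ) : ℝ) ≤ 2 ^ k := by exact_mod_cast hk
      push_cast at h ⊢
      have h2 : (0 : ℝ) < 2 ^ k := by positivity
      rw [show (4 : ℝ) * ((k + 1) / 2 ^ k) * (2 * k * Δ) = (8 * k * (k + 1) * Δ) / 2 ^ k by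
        field_simp; ring]
      rw [div_le_one h2]
      exact h)
  refine ⟨univ.filter fun x => ω x = true, fun v => ?_, fun v => ?_⟩
  · have h := hω (Sum.inl v)
    simp only [N, c, Sum.elim_inl, not_le] at h
    have h2 : (P v ∩ univ.filter fun x => ω x = true) = (P v).filter fun x => ω x = true := by
      ext x; simp
    rw [h2]; exact h
  · have h := hω (Sum.inr v)
    simp only [N, c, Sum.elim_inr, not_le] at h
    have h2 : (Q v \ univ.filter fun x => ω x = true) = (Q v).filter fun x => ω x = false := by
      ext x; simp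
    rw [h2]; exact h

/-- Two-sided partition by counting. -/
theorem exists_split_count {V : Type*} [Fintype V] [DecidableEq V] (k : ℕ) (P Q : V → Finset V)
    (hP : ∀ v, (P v).card = k) (hQ : ∀ v, (Q v).card = k)
    (hk : 2 * (k + 1) * Fintype.card V < 2 ^ k) :
    ∃ A : Finset V, (∀ v, 2 ≤ (P v ∩ A).card) ∧ (∀ v, 2 ≤ (Q v \ A).card) := by
  classical
  let N : V ⊕ V → Finset V := Sum.elim P Q
  let c : V ⊕ V → Bool := Sum.elim (fun _ => true) (fun _ => false)
  have hNk : ∀ i, (N i).card = k := by
    rintro (v | v)
    · exact hP v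
    · exact hQ v
  have hmain : ∃ ω : V → Bool, ∀ i, ¬ ((N i).filter fun x => ω x = c i).card ≤ 1 := by
    by_contra hcon
    push Not at hcon
    have hcov : (univ : Finset (V → Bool)) ⊆ (univ : Finset (V ⊕ V)).biUnion (fun i =>
        univ.filter fun ω : V → Bool => ((N i).filter fun x => ω x = c i).card ≤ 1) := by
      intro ω _
      obtain ⟨i, hi⟩ := hcon ω
      simp only [mem_biUnion, mem_filter, mem_univ, true_and]
      exact ⟨i, hi⟩
    have h1 : Fintype.card (V → Bool) * 2 ^ k ≤
        (2 * (k + 1) * Fintype.card V) * Fintype.card (V → Bool) := by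
      calc Fintype.card (V → Bool) * 2 ^ k
          ≤ (∑ i : V ⊕ V, (univ.filter fun ω : V → Bool =>
              ((N i).filter fun x => ω x = c i).card ≤ 1).card) * 2 ^ k :=
            Nat.mul_le_mul_right _ ((card_le_card hcov).trans card_biUnion_le)
        _ = ∑ i : V ⊕ V, (univ.filter fun ω : V → Bool =>
              ((N i).filter fun x => ω x = c i).card ≤ 1).card * 2 ^ k := Finset.sum_mul _ _ _
        _ ≤ ∑ _i : V ⊕ V, (k + 1) * Fintype.card (V → Bool) := by
            refine Finset.sum_le_sum (fun i _ => ?_)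
            have h := card_few (N i) (c i)
            rwa [hNk i] at h
        _ = _ := by
            rw [Finset.sum_const, Finset.card_univ, Fintype.card_sum, smul_eq_mul]; ring
    have h2 : 0 < Fintype.card (V → Bool) := Fintype.card_pos
    have h3 : Fintype.card (V → Bool) * 2 ^ k ≤
        Fintype.card (V → Bool) * (2 * (k + 1) * Fintype.card V) := by
      rw [mul_comm (Fintype.card (V → Bool)) (2 * (k + 1) * Fintype.card V)]; exact h1
    exact absurd (Nat.le_of_mul_le_mul_left h3 h2) (not_le.2 hk)
  obtain ⟨ω, hω⟩ := hmain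
  refine ⟨univ.filter fun x => ω x = true, fun v => ?_, fun v => ?_⟩
  · have h := hω (Sum.inl v)
    simp only [N, c, Sum.elim_inl, not_le] at h
    have h2 : (P v ∩ univ.filter fun x => ω x = true) = (P v).filter fun x => ω x = true := by
      ext x; simp
    rw [h2]; exact h
  · have h := hω (Sum.inr v)
    simp only [N, c, Sum.elim_inr, not_le] at h
    have h2 : (Q v \ univ.filter fun x => ω x = true) = (Q v).filter fun x => ω x = false := by
      ext x; simp
    rw [h2]; exact h

/-- The partition for a digraph in which every vertex has `k` out-neighbours of in-degree at most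
`Δ` and `k` in-neighbours of out-degree at most `Δ`; or `k` out-neighbours, `k` in-neighbours and
few vertices (loops are not counted). -/
theorem exists_split_digraph {V : Type*} [Fintype V] [DecidableEq V] (adj : V → V → Prop)
    [DecidableRel adj] (k Δ : ℕ) (hk1 : 1 ≤ k)
    (h : ((∀ v, k ≤ (univ.filter fun p => p ≠ v ∧ adj v p ∧
            (univ.filter fun u => u ≠ p ∧ adj u p).card ≤ Δ).card) ∧
          (∀ v, k ≤ (univ.filter fun p => p ≠ v ∧ adj p v ∧
            (univ.filter fun u => u ≠ p ∧ adj p u).card ≤ Δ).card) ∧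
          8 * k * (k + 1) * Δ ≤ 2 ^ k) ∨
        ((∀ v, k ≤ (univ.filter fun p => p ≠ v ∧ adj v p).card) ∧
          (∀ v, k ≤ (univ.filter fun p => p ≠ v ∧ adj p v).card) ∧
          2 * (k + 1) * Fintype.card V < 2 ^ k)) :
    ∃ A : Finset V,
      (∀ v, ∃ p ∈ A, ∃ q ∈ A, p ≠ q ∧ p ≠ v ∧ q ≠ v ∧ adj v p ∧ adj v q) ∧
      (∀ v, ∃ p, p ∉ A ∧ ∃ q, q ∉ A ∧ p ≠ q ∧ p ≠ v ∧ q ≠ v ∧ adj p v ∧ adj q v) := by
  classical
  obtain ⟨P, Q, hPs, hQs, A, hA, hB⟩ : ∃ P Q : V → Finset V,
      (∀ v, P v ⊆ (univ.filter fun p => p ≠ v ∧ adj v p)) ∧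
      (∀ v, Q v ⊆ (univ.filter fun p => p ≠ v ∧ adj p v)) ∧
      ∃ A : Finset V, (∀ v, 2 ≤ (P v ∩ A).card) ∧ (∀ v, 2 ≤ (Q v \ A).card) := by
    rcases h with ⟨ho, hi, hc⟩ | ⟨ho, hi, hc⟩
    · choose P hPs hPc using fun v => Finset.exists_subset_card_eq (ho v)
      choose Q hQs hQc using fun v => Finset.exists_subset_card_eq (hi v)
      refine ⟨P, Q, fun v p hp => ?_, fun v p hp => ?_,
        exists_split_local k Δ P Q hk1 hPc hQc ?_ ?_ hc⟩
      · have := hPs v hp
        simp only [mem_filter, mem_univ, true_and] at this ⊢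
        exact ⟨this.1, this.2.1⟩
      · have := hQs v hp
        simp only [mem_filter, mem_univ, true_and] at this ⊢
        exact ⟨this.1, this.2.1⟩
      · intro x
        rcases Finset.eq_empty_or_nonempty (univ.filter fun v => x ∈ P v) with he | ⟨v0, hv0⟩
        · rw [he]; simp
        · have h0 : x ∈ P v0 := by simpa using hv0
          have h1 := hPs v0 h0
          simp only [mem_filter, mem_univ, true_and] at h1
          refine (card_le_card ?_).trans h1.2.2
          intro v hv
          simp only [mem_filter, mem_univ, true_and] at hv ⊢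
          have := hPs v hv
          simp only [mem_filter, mem_univ, true_and] at this
          exact ⟨fun h => this.1 h.symm, this.2.1⟩
      · intro x
        rcases Finset.eq_empty_or_nonempty (univ.filter fun v => x ∈ Q v) with he | ⟨v0, hv0⟩
        · rw [he]; simp
        · have h0 : x ∈ Q v0 := by simpa using hv0
          have h1 := hQs v0 h0
          simp only [mem_filter, mem_univ, true_and] at h1
          refine (card_le_card ?_).trans h1.2.2
          intro v hv
          simp only [mem_filter, mem_univ, true_and] at hv ⊢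
          have := hQs v hv
          simp only [mem_filter, mem_univ, true_and] at this
          exact ⟨fun h => this.1 h.symm, this.2.1⟩
    · choose P hPs hPc using fun v => Finset.exists_subset_card_eq (ho v)
      choose Q hQs hQc using fun v => Finset.exists_subset_card_eq (hi v)
      exact ⟨P, Q, hPs, hQs, exists_split_count k P Q hPc hQc hc⟩
  refine ⟨A, fun v => ?_, fun v => ?_⟩
  · obtain ⟨p, hp, q, hq, hpq⟩ := Finset.one_lt_card.1 (hA v)
    rw [mem_inter] at hp hq
    have h1 := hPs v hp.1
    have h2 := hPs v hq.1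
    simp only [mem_filter, mem_univ, true_and] at h1 h2
    exact ⟨p, hp.2, q, hq.2, hpq, h1.1, h2.1, h1.2, h2.2⟩
  · obtain ⟨p, hp, q, hq, hpq⟩ := Finset.one_lt_card.1 (hB v)
    rw [mem_sdiff] at hp hq
    have h1 := hQs v hp.1
    have h2 := hQs v hq.1
    simp only [mem_filter, mem_univ, true_and] at h1 h2
    exact ⟨p, hp.2, q, hq.2, hpq, h1.1, h2.1, h1.2, h2.2⟩

end Pool.Agent.H.MP_0cacf8
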