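import Pool.Agent.H.MP_0cacf8.EYH

/-!
# Linked sets, their contraction, lifting, and maximal linked sets
-/

set_option autoImplicit false

namespace Pool.Agent.H.MP_0cacf8

open Relation Finset Pool.Agent.H.MP_0d008e_co

variable {V : Type*} {adj : V → V → Prop}

/-- `Q` is linked: every in-neighbour `p` and every out-neighbour `p'` of `Q` are joined by a walk
`p → q ⇒ q' → p'` with `q ⇒ q'` inside `Q`. -/
def Linked (adj : V → V → Prop) (Q : Set V) : Prop :=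
  Q.Nonempty ∧ ∀ p, p ∉ Q → ∀ p', p' ∉ Q → (∃ q ∈ Q, adj p q) → (∃ q ∈ Q, adj q p') →
    ConnN adj Q p p'

theorem linked_singleton (v : V) : Linked adj {v} := by
  refine ⟨⟨v, rfl⟩, ?_⟩
  rintro p _ p' _ ⟨q, hq, h1⟩ ⟨q', hq', h2⟩
  have e1 : q = v := hq
  have e2 : q' = v := hq'
  subst e1
  subst e2
  exact ⟨_, rfl, _, rfl, h1, ReflTransGen.refl, h2⟩

theorem linked_of_strong {Q : Set V} (hne : Q.Nonempty) (h : ∀ x ∈ Q, ∀ y ∈ Q, RR adj Q x y) :
    Linked adj Q := by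
  refine ⟨hne, ?_⟩
  rintro p _ p' _ ⟨q, hq, h1⟩ ⟨q', hq', h2⟩
  exact ⟨q, hq, q', hq', h1, h q hq q' hq', h2⟩

theorem Linked.flip {Q : Set V} (h : Linked adj Q) : Linked (fun x y => adj y x) Q := by
  refine ⟨h.1, ?_⟩
  rintro p hp p' hp' ⟨q, hq, h1⟩ ⟨q', hq', h2⟩
  obtain ⟨x, hx, y, hy, g1, g2, g3⟩ := h.2 p' hp' p hp ⟨q', hq', h2⟩ ⟨q, hq, h1⟩
  exact ⟨y, hy, x, hx, g3, RR_flip g2, g1⟩

/-! ### Projection of walks -/

open Classical in
/-- the projection onto the contraction -/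
noncomputable def pj (Z : Set V) (x : V) : Option {v // v ∉ Z} :=
  if h : x ∈ Z then none else some ⟨x, h⟩

theorem pj_mem {Z : Set V} {x : V} (h : x ∈ Z) : pj Z x = none := by
  simp [pj, h]

theorem pj_not {Z : Set V} {x : V} (h : x ∉ Z) : pj Z x = some ⟨x, h⟩ := by
  simp [pj, h]

theorem pj_some {Z : Set V} (x : {v // v ∉ Z}) : pj Z (x : V) = some x := pj_not x.2

theorem pj_adj {Z : Set V} {x y : V} (h : adj x y) (hxy : x ∉ Z ∨ y ∉ Z) :
    cn adj Z (pj Z x) (pj Z y) := by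
  by_cases hx : x ∈ Z
  · have hy : y ∉ Z := hxy.resolve_left (fun g => g hx)
    rw [pj_mem hx, pj_not hy]
    exact ⟨x, hx, h⟩
  · by_cases hy : y ∈ Z
    · rw [pj_mem hy, pj_not hx]
      exact ⟨y, hy, h⟩
    · rw [pj_not hx, pj_not hy]
      exact h

theorem pj_walk {Z S : Set V} {S' : Set (Option {v // v ∉ Z})} (hS : ∀ v ∈ S, pj Z v ∈ S')
    {x y : V} (h : RR adj S x y) : RR (cn adj Z) S' (pj Z x) (pj Z y) := by
  induction h with
  | refl => exact ReflTransGen.refl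
  | @tail y z _ h ih =>
    by_cases hyz : y ∉ Z ∨ z ∉ Z
    · exact ih.tail ⟨hS y h.1, hS z h.2.1, pj_adj h.2.2 hyz⟩
    · push Not at hyz
      rw [pj_mem hyz.2, ← pj_mem hyz.1]
      exact ih

/-- the vertices of `V` in `Q'` -/
def pre (Z : Set V) (Q' : Set (Option {v // v ∉ Z})) : Set V := {v | pj Z v ∈ Q'}

/-- the image of `Q` -/
def img (Z Q : Set V) : Set (Option {v // v ∉ Z}) := {x | ∃ v ∈ Q, pj Z v = x}

theorem mem_pre_some {Z : Set V} {Q' : Set (Option {v // v ∉ Z})} {u : {v // v ∉ Z}} :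
    (u : V) ∈ pre Z Q' ↔ some u ∈ Q' := by
  show pj Z (u : V) ∈ Q' ↔ _
  rw [pj_some]

theorem subset_pre {Z : Set V} {Q' : Set (Option {v // v ∉ Z})} (h : none ∈ Q') :
    Z ⊆ pre Z Q' := by
  intro v hv
  show pj Z v ∈ Q'
  rwa [pj_mem hv]

theorem some_mem_img {Z Q : Set V} {u : {v // v ∉ Z}} : some u ∈ img Z Q ↔ (u : V) ∈ Q := by
  constructor
  · rintro ⟨v, hv, h⟩
    by_cases hvZ : v ∈ Z
    · rw [pj_mem hvZ] at h
      exact absurd h.symm (Option.some_ne_none _)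
    · rw [pj_not hvZ] at h
      rw [← Option.some.inj h]
      exact hv
  · intro h
    exact ⟨u, h, pj_some u⟩

theorem Linked.push {Z Q : Set V} (hZQ : Z ⊆ Q) (hQ : Linked adj Q) :
    Linked (cn adj Z) (img Z Q) := by
  have hn : ∀ x, x ∉ img Z Q → Z.Nonempty → ∃ u : {v // v ∉ Z}, x = some u ∧ (u : V) ∉ Q := by
    intro x hx hne
    cases x with
    | none =>
      obtain ⟨z, hz⟩ := hne
      exact absurd ⟨z, hZQ hz, pj_mem hz⟩ hx
    | some u => exact ⟨u, rfl, fun g => hx (some_mem_img.2 g)⟩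
  have hmem : ∀ v ∈ Q, pj Z v ∈ img Z Q := fun v hv => ⟨v, hv, rfl⟩
  have harc : ∀ x y, cn adj Z x y → ∃ v w, pj Z v = x ∧ pj Z w = y ∧ adj v w := by
    intro x y h
    cases x with
    | none =>
      cases y with
      | none => exact h.elim
      | some w =>
        obtain ⟨z, hz, g⟩ := h
        exact ⟨z, w, pj_mem hz, pj_some w, g⟩
    | some u =>
      cases y with
      | none =>
        obtain ⟨z, hz, g⟩ := h
        exact ⟨u, z, pj_some u, pj_mem hz, g⟩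
      | some w => exact ⟨u, w, pj_some u, pj_some w, h⟩
  have hback : ∀ v, pj Z v ∈ img Z Q → v ∈ Q := by
    intro v hv
    by_cases hvZ : v ∈ Z
    · exact hZQ hvZ
    · rw [pj_not hvZ] at hv
      exact some_mem_img.1 hv
  refine ⟨?_, ?_⟩
  · obtain ⟨q, hq⟩ := hQ.1
    exact ⟨pj Z q, q, hq, rfl⟩
  rintro p hp p' hp' ⟨q, hq, h1⟩ ⟨q', hq', h2⟩
  obtain ⟨v, w, hv, hw, g1⟩ := harc _ _ h1
  obtain ⟨v', w', hv', hw', g2⟩ := harc _ _ h2
  subst hv hw hv' hw'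
  have k1 : v ∉ Q := fun g => hp (hmem v g)
  have k2 : w' ∉ Q := fun g => hp' (hmem w' g)
  obtain ⟨x, hx, y, hy, e1, e2, e3⟩ := hQ.2 v k1 w' k2 ⟨w, hback w hq, g1⟩ ⟨v', hback v' hq', g2⟩
  exact ⟨pj Z x, hmem x hx, pj Z y, hmem y hy, pj_adj e1 (Or.inl fun g => k1 (hZQ g)),
    pj_walk hmem e2, pj_adj e3 (Or.inr fun g => k2 (hZQ g))⟩

/-! ### Lifting -/

theorem walk_off {Z S : Set V} {S' : Set (Option {v // v ∉ Z})}
    (h1 : ∀ u : {v // v ∉ Z}, some u ∈ S' → (u : V) ∈ S) {u : {v // v ∉ Z}}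
    {q : Option {v // v ∉ Z}} (h : RR (cn adj Z) (S' \ {none}) (some u) q) :
    ∃ w : {v // v ∉ Z}, q = some w ∧ RR adj S u w := by
  induction h with
  | refl => exact ⟨u, rfl, ReflTransGen.refl⟩
  | @tail y z _ h ih =>
    obtain ⟨w, rfl, hw⟩ := ih
    obtain ⟨z, rfl⟩ := Option.ne_none_iff_exists'.1 (fun g => h.2.1.2 g)
    exact ⟨z, rfl, hw.tail ⟨h1 w h.1.1, h1 z h.2.1.1, h.2.2⟩⟩

theorem walk_off' {Z S : Set V} {S' : Set (Option {v // v ∉ Z})}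
    (h1 : ∀ u : {v // v ∉ Z}, some u ∈ S' → (u : V) ∈ S) {u w : {v // v ∉ Z}}
    (h : RR (cn adj Z) (S' \ {none}) (some u) (some w)) : RR adj S u w := by
  obtain ⟨w', hw', h'⟩ := walk_off h1 h
  rw [Option.some.inj hw']
  exact h'

theorem lift_connN {Z S : Set V} {S' : Set (Option {v // v ∉ Z})} (hZ : Linked adj Z)
    (h1 : ∀ u : {v // v ∉ Z}, some u ∈ S' → (u : V) ∈ S) (h2 : none ∈ S' → Z ⊆ S)
    {a b : {v // v ∉ Z}} (hc : ConnN (cn adj Z) S' (some a) (some b)) : ConnN adj S a b := by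
  obtain ⟨p, hp, q, hq, g1, g2, g3⟩ := hc
  -- the walk without the contracted vertex, or its first and last visits
  have start : (p ≠ none ∧ RR (cn adj Z) (S' \ {none}) p q ∧ q ≠ none) ∨
      (none ∈ S' ∧ ∃ x : V, x ∉ Z ∧ (∃ z ∈ Z, adj x z) ∧
        ∀ z ∈ Z, adj x z → ∃ s ∈ S, adj a s ∧ RR adj S s z) := by
    by_cases hpn : p = none
    · subst hpn
      right
      refine ⟨hp, a, a.2, g1, ?_⟩
      intro z hz haz
      exact ⟨z, h2 hp hz, haz, ReflTransGen.refl⟩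
    · obtain ⟨p, rfl⟩ := Option.ne_none_iff_exists'.1 hpn
      rcases first_hit (B := {none}) g2 (fun g => hpn g) with ⟨k1, k2⟩ | ⟨y, z, k1, k2, k3, k4, k5, k6, _⟩
      · exact Or.inl ⟨hpn, k1, fun g => k2 g⟩
      · have hz : z = none := k5
        subst hz
        right
        obtain ⟨w, rfl, hw⟩ := walk_off h1 k1
        obtain ⟨z, hz, hwz⟩ := k6
        refine ⟨k4, w, w.2, ⟨z, hz, hwz⟩, ?_⟩
        intro z hz hwz
        exact ⟨p, h1 p hp, g1, hw.tail ⟨h1 w k2, h2 k4 hz, hwz⟩⟩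
  rcases start with ⟨k1, k2, k3⟩ | ⟨hn, x, hx, hxZ, hx'⟩
  · obtain ⟨p, rfl⟩ := Option.ne_none_iff_exists'.1 k1
    obtain ⟨q, rfl⟩ := Option.ne_none_iff_exists'.1 k3
    exact ⟨p, h1 p hp, q, h1 q hq, g1, walk_off' h1 k2, g3⟩
  · -- the end
    have fin : (∃ y : V, y ∉ Z ∧ (∃ z ∈ Z, adj z y) ∧
        ∀ z ∈ Z, adj z y → ∃ t ∈ S, adj t b ∧ RR adj S z t) ∨
        (p ≠ none ∧ RR (cn adj Z) (S' \ {none}) p q ∧ q ≠ none) := by
      by_cases hqn : q = none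
      · subst hqn
        left
        refine ⟨b, b.2, g3, ?_⟩
        intro z hz hzb
        exact ⟨z, h2 hq hz, hzb, ReflTransGen.refl⟩
      · obtain ⟨q, rfl⟩ := Option.ne_none_iff_exists'.1 hqn
        rcases last_exit (B := {none}) g2 (fun g => hqn g) with ⟨k1, k2⟩ | ⟨y, z, k1, k2, k3, k4, k5, k6, _⟩
        · exact Or.inr ⟨fun g => k2 g, k1, hqn⟩
        · have hy : y = none := k2
          subst hy
          left
          obtain ⟨z, rfl⟩ := Option.ne_none_iff_exists'.1 (fun g => k4 g)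
          have k7 := walk_off' h1 k6
          refine ⟨z, z.2, k5, ?_⟩
          intro z0 hz0 hz0z
          exact ⟨q, h1 q hq, g3, ReflTransGen.head ⟨h2 k1 hz0, h1 z k3, hz0z⟩ k7⟩
    rcases fin with ⟨y, hy, hyZ, hy'⟩ | ⟨k1, k2, k3⟩
    · obtain ⟨z, hz, z', hz', e1, e2, e3⟩ := hZ.2 x hx y hy hxZ hyZ
      obtain ⟨s, hs, has, hsz⟩ := hx' z hz e1
      obtain ⟨t, ht, htb, hzt⟩ := hy' z' hz' e3
      exact ⟨s, hs, t, ht, has, (hsz.trans (RR.mono (h2 hn) e2)).trans hzt, htb⟩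
    · obtain ⟨p, rfl⟩ := Option.ne_none_iff_exists'.1 k1
      obtain ⟨q, rfl⟩ := Option.ne_none_iff_exists'.1 k3
      exact ⟨p, h1 p hp, q, h1 q hq, g1, walk_off' h1 k2, g3⟩

theorem lift_connL {Z S : Set V} {S' : Set (Option {v // v ∉ Z})} (hZ : Linked adj Z)
    (h1 : ∀ u : {v // v ∉ Z}, some u ∈ S' → (u : V) ∈ S) (h2 : none ∈ S' → Z ⊆ S)
    {a b : {v // v ∉ Z}} (hc : Conn (cn adj Z) S' (some a) (some b)) : Conn adj S a b := by
  rcases hc with hc | hc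
  · exact Or.inl hc
  · exact Or.inr (lift_connN hZ h1 h2 hc)

theorem Linked.pull {Z : Set V} {Q' : Set (Option {v // v ∉ Z})} (hZ : Linked adj Z)
    (hn : none ∈ Q') (hQ : Linked (cn adj Z) Q') : Linked adj (pre Z Q') := by
  refine ⟨hZ.1.mono (subset_pre hn), ?_⟩
  rintro p hp p' hp' ⟨q, hq, g1⟩ ⟨q', hq', g2⟩
  have k1 : p ∉ Z := fun g => hp (subset_pre hn g)
  have k2 : p' ∉ Z := fun g => hp' (subset_pre hn g)
  have e1 : pj Z p = some ⟨p, k1⟩ := pj_not k1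
  have e2 : pj Z p' = some ⟨p', k2⟩ := pj_not k2
  have k3 : some ⟨p, k1⟩ ∉ Q' := fun g => hp (by show pj Z p ∈ Q'; rwa [e1])
  have k4 : some ⟨p', k2⟩ ∉ Q' := fun g => hp' (by show pj Z p' ∈ Q'; rwa [e2])
  have c := hQ.2 _ k3 _ k4 ⟨pj Z q, hq, e1 ▸ pj_adj g1 (Or.inl k1)⟩
    ⟨pj Z q', hq', e2 ▸ pj_adj g2 (Or.inr k2)⟩
  exact lift_connN hZ (fun u hu => mem_pre_some.2 hu) (fun _ => subset_pre hn) c

/-- A subdivision of the bidirected triangle whose branch vertices are not in `Z`. -/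
def K3offS (adj : V → V → Prop) (Z : Set V) : Prop :=
  ∃ (a b c : V) (lab : V → ℕ), (a ∉ Z ∧ b ∉ Z ∧ c ∉ Z) ∧ a ≠ b ∧ a ≠ c ∧ b ≠ c ∧ lab a = 0 ∧
    lab b = 0 ∧ lab c = 0 ∧ Conn adj {u | lab u = 1} a b ∧ Conn adj {u | lab u = 2} b a ∧
    Conn adj {u | lab u = 3} a c ∧ Conn adj {u | lab u = 4} b c ∧
    Conn adj {u | lab u = 5} c b ∧ Conn adj {u | lab u = 6} c a

theorem K3offS.mono {Z Z' : Set V} (h : Z' ⊆ Z) (hk : K3offS adj Z) : K3offS adj Z' := by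
  obtain ⟨a, b, c, lab, ⟨ha, hb, hc⟩, hk⟩ := hk
  exact ⟨a, b, c, lab, ⟨fun g => ha (h g), fun g => hb (h g), fun g => hc (h g)⟩, hk⟩

theorem K3offS.set {Z : Set V} (hk : K3offS adj Z) : K3set adj := by
  obtain ⟨a, b, c, lab, _, hk⟩ := hk
  exact ⟨a, b, c, lab, hk⟩

theorem K3offS_singleton {h : V} : K3offS adj {h} ↔ K3off adj h := Iff.rfl

theorem K3offS.lift {Z : Set V} {Z' : Set (Option {v // v ∉ Z})} (hZ : Linked adj Z)
    (hn : none ∈ Z') (hk : K3offS (cn adj Z) Z') : K3offS adj (pre Z Z') := by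
  classical
  obtain ⟨a, b, c, lab, ⟨ha, hb, hc⟩, hab, hac, hbc, l1, l2, l3, g1, g2, g3, g4, g5, g6⟩ := hk
  have hne : ∀ x : Option {v // v ∉ Z}, x ∉ Z' → x ≠ none := by
    rintro x hx rfl
    exact hx hn
  obtain ⟨a, rfl⟩ := Option.ne_none_iff_exists'.1 (hne a ha)
  obtain ⟨b, rfl⟩ := Option.ne_none_iff_exists'.1 (hne b hb)
  obtain ⟨c, rfl⟩ := Option.ne_none_iff_exists'.1 (hne c hc)
  have k1 : ∀ i, ∀ u : {v // v ∉ Z}, some u ∈ {x | lab x = i} →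
      (u : V) ∈ {x | lab (pj Z x) = i} := by
    intro i u hu
    show lab (pj Z (u : V)) = i
    rw [pj_some]
    exact hu
  have k2 : ∀ i, none ∈ {x | lab x = i} → Z ⊆ {x | lab (pj Z x) = i} := by
    intro i hn u hu
    show lab (pj Z u) = i
    rw [pj_mem hu]
    exact hn
  refine ⟨a, b, c, fun u => lab (pj Z u), ⟨?_, ?_, ?_⟩, ?_, ?_, ?_, ?_, ?_, ?_,
    lift_connL hZ (k1 1) (k2 1) g1,
    lift_connL hZ (k1 2) (k2 2) g2, lift_connL hZ (k1 3) (k2 3) g3, lift_connL hZ (k1 4) (k2 4) g4,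
    lift_connL hZ (k1 5) (k2 5) g5, lift_connL hZ (k1 6) (k2 6) g6⟩
  · exact fun g => ha (mem_pre_some.1 g)
  · exact fun g => hb (mem_pre_some.1 g)
  · exact fun g => hc (mem_pre_some.1 g)
  · exact fun g => hab (congrArg some (Subtype.ext g))
  · exact fun g => hac (congrArg some (Subtype.ext g))
  · exact fun g => hbc (congrArg some (Subtype.ext g))
  · show lab (pj Z (a : V)) = 0
    rw [pj_some, l1]
  · show lab (pj Z (b : V)) = 0
    rw [pj_some, l2]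
  · show lab (pj Z (c : V)) = 0
    rw [pj_some, l3]

theorem pre_none {Z : Set V} : pre Z {none} = Z := by
  ext v
  show pj Z v = none ↔ _
  by_cases hv : v ∈ Z
  · simp [pj_mem hv, hv]
  · simp [pj_not hv, hv]

theorem K3offS_of_cn {Z : Set V} (hZ : Linked adj Z) (hk : K3off (cn adj Z) none) :
    K3offS adj Z := by
  have := K3offS.lift hZ (Z' := {none}) rfl hk
  rwa [pre_none] at this

end Pool.Agent.H.MP_0cacf8
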