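import Pool.Agent.H.MP_0cacf8.LNK3

/-!
# Separations of frames
-/

set_option autoImplicit false

namespace Pool.Agent.H.MP_0cacf8

open Relation Finset Pool.Agent.H.MP_0d008e_co

variable {V : Type*} {adj : V → V → Prop}

/-! ### The linked side of a separation of any order -/

/-- `N⁺(S) ⊆ S ∪ T`, everything else is `A`: a walk from `t ∈ T` to `A` avoiding `T \ {t}` gives a
walk inside `A`. -/
theorem sep_reach {S T A : Set V} (cov : ∀ v, v ∈ S ∨ v ∈ T ∨ v ∈ A)
    (dAT : ∀ a ∈ A, a ∉ T) (hS : ∀ s ∈ S, ∀ w, adj s w → w ∉ A) {t a : V} (ht : t ∈ T) (ha : a ∈ A)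
    (hr : RR adj (T \ {t})ᶜ t a) : ∃ z ∈ A, adj t z ∧ RR adj A z a := by
  rcases last_exit (B := Aᶜ) hr (fun g => g ha) with ⟨_, g⟩ |
    ⟨y, z, g1, g2, g3, g4, g5, g6, _⟩
  · exact absurd (not_not.1 g) (fun g' => dAT t g' ht)
  · have hz : z ∈ A := not_not.1 g4
    have hyt : y = t := by
      rcases cov y with hy | hy | hy
      · exact absurd hz (hS y hy z g5)
      · by_contra hne
        exact g1 ⟨hy, hne⟩
      · exact absurd hy g2
    subst hyt
    exact ⟨z, hz, g5, RR.mono (fun v hv => not_not.1 hv.2) g6⟩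

/-- **Separation lemma.** `V = S ∪ T ∪ A` with no arcs from `S` to `A`, and the digraph without
`T \ {t}` is strong for all `t ∈ T`. Then `A` together with the vertices of `T` with an
in-neighbour in `A` is linked. -/
theorem sep_linked {S T A : Set V} (cov : ∀ v, v ∈ S ∨ v ∈ T ∨ v ∈ A)
    (dAT : ∀ a ∈ A, a ∉ T) (hA : A.Nonempty)
    (hS : ∀ s ∈ S, ∀ w, adj s w → w ∉ A)
    (hstr : ∀ t ∈ T, ∀ a ∈ A, RR adj (T \ {t})ᶜ t a) :
    Linked adj (A ∪ {t | t ∈ T ∧ ∃ a ∈ A, adj a t}) := by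
  obtain ⟨a0, ha0⟩ := hA
  set Q : Set V := A ∪ {t | t ∈ T ∧ ∃ a ∈ A, adj a t} with hQ
  have hAQ : A ⊆ Q := fun v hv => Or.inl hv
  -- from any vertex of `A` hit by all walks, every vertex of `Q` is reached
  have key : ∀ q ∈ Q, ∀ t ∈ T, ∃ z ∈ A, adj t z ∧ RR adj Q z q := by
    rintro q (hq | ⟨hqT, a, ha, haq⟩) t ht
    · obtain ⟨z, hz, h1, h2⟩ := sep_reach cov dAT hS ht hq (hstr t ht q hq)
      exact ⟨z, hz, h1, RR.mono hAQ h2⟩
    · obtain ⟨z, hz, h1, h2⟩ := sep_reach cov dAT hS ht ha (hstr t ht a ha)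
      exact ⟨z, hz, h1, (RR.mono hAQ h2).tail ⟨Or.inl ha, Or.inr ⟨hqT, a, ha, haq⟩, haq⟩⟩
  refine ⟨⟨a0, Or.inl ha0⟩, ?_⟩
  rintro p hp p' _ ⟨q, hq, g1⟩ ⟨q', hq', g2⟩
  rcases cov p with hpS | hpT | hpA
  · -- `q ∈ T`
    have hqT : q ∈ T := by
      rcases hq with hq | hq
      · exact absurd hq (hS p hpS q g1)
      · exact hq.1
    obtain ⟨z, hz, h1, h2⟩ := key q' hq' q hqT
    exact ⟨q, hq, q', hq', g1, ReflTransGen.head ⟨hq, Or.inl hz, h1⟩ h2, g2⟩
  · obtain ⟨z, hz, h1, h2⟩ := key q' hq' p hpT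
    exact ⟨z, Or.inl hz, q', hq', h1, h2, g2⟩
  · exact absurd (Or.inl hpA) hp

/-! ### Small cuts off the hub -/

theorem ncard_split [Finite V] {P A T : Set V} {k m : ℕ} (h : k ≤ P.ncard)
    (hP : ∀ w ∈ P, w ∈ A ∨ w ∈ T) (hT : T.ncard + m ≤ k) : m ≤ {w | w ∈ A ∧ w ∈ P}.ncard := by
  have h1 : P ⊆ {w | w ∈ A ∧ w ∈ P} ∪ T := by
    intro w hw
    rcases hP w hw with g | g
    · exact Or.inl ⟨g, hw⟩
    · exact Or.inr g
  have h2 := Set.ncard_le_ncard h1 (Set.toFinite _)
  have h3 := Set.ncard_union_le {w | w ∈ A ∧ w ∈ P} T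
  omega

/-- **Small cuts.** In a frame, if some set `Y` of at most `K - m` vertices other than the hub
separates some vertex from the hub, then the hub has at most `|Y|` in-neighbours and no
out-neighbour of the hub is an in-neighbour of the hub. -/
theorem frame_cut [Finite V] {h : V} {m K : ℕ} (hf : Frame adj h m K) {Y : Set V} (hY : h ∉ Y)
    (hc : Y.ncard + m ≤ K) {v : V} (hv : v ∉ Y) (hno : ¬ RR adj Yᶜ v h) :
    {u | adj u h}.ncard ≤ Y.ncard ∧ (∀ w, adj h w → ¬ adj w h) ∧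
      ∀ s, s ≠ h → ¬ adj s h → ¬ RR adj {u | adj u h}ᶜ s h := by
  classical
  let F : Set (Set V) := {T | h ∉ T ∧ T.ncard + m ≤ K ∧ ∃ v, v ∉ T ∧ ¬ RR adj Tᶜ v h}
  have hYF : Y ∈ F := ⟨hY, hc, v, hv, hno⟩
  obtain ⟨T, hTF, hTmin⟩ := Set.Finite.exists_minimalFor Set.ncard F (Set.toFinite F) ⟨Y, hYF⟩
  have hTY : T.ncard ≤ Y.ncard := by
    rcases le_total T.ncard Y.ncard with g | g
    · exact g
    · exact hTmin hYF g
  obtain ⟨hhT, hTc, v0, hv0, hno0⟩ := hTF
  set S : Set V := {s | s ∉ T ∧ ¬ RR adj Tᶜ s h} with hSdef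
  have hv0S : v0 ∈ S := ⟨hv0, hno0⟩
  have hhS : h ∉ S := fun g => g.2 ReflTransGen.refl
  -- out-arcs of `S`
  have hSout : ∀ s ∈ S, ∀ w, adj s w → w ∈ S ∨ w ∈ T := by
    intro s hs w hw
    by_cases hwT : w ∈ T
    · exact Or.inr hwT
    · refine Or.inl ⟨hwT, fun g => hs.2 (ReflTransGen.head ⟨hs.1, hwT, hw⟩ g)⟩
  have hSh : ∀ s ∈ S, ¬ adj s h := by
    intro s hs g
    rcases hSout s hs h g with g' | g'
    · exact hhS g'
    · exact hhT g'
  -- every vertex of `T` has an out-neighbour which reaches the hub off `T`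
  have hTout : ∀ t ∈ T, ∃ a, a ∉ T ∧ adj t a ∧ RR adj Tᶜ a h := by
    intro t ht
    by_contra hcon
    push Not at hcon
    have hlt : (T \ {t}).ncard < T.ncard :=
      Set.ncard_lt_ncard (Set.sdiff_singleton_ssubset.2 ht) (Set.toFinite _)
    have hmem : T \ {t} ∈ F := by
      refine ⟨fun g => hhT g.1, by omega, v0, fun g => hv0 g.1, ?_⟩
      intro hr
      have hinv : ∀ w, RR adj (T \ {t})ᶜ v0 w → w ∈ S ∨ w = t := by
        intro w hw
        induction hw with
        | refl => exact Or.inl hv0S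
        | @tail y z _ hyz ih =>
          by_cases hzt : z = t
          · exact Or.inr hzt
          · have hzT : z ∉ T := fun g => hyz.2.1 ⟨g, hzt⟩
            rcases ih with ih | ih
            · exact Or.inl ((hSout y ih z hyz.2.2).resolve_right hzT)
            · subst ih
              exact Or.inl ⟨hzT, hcon z hzT hyz.2.2⟩
      rcases hinv h hr with g | g
      · exact hhS g
      · exact hhT (g ▸ ht)
    have := hTmin hmem hlt.le
    omega
  -- `S` contains a core
  have hcore : HasCore adj m S := by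
    refine ⟨S, Set.Subset.refl _, Or.inr ⟨⟨v0, hv0S⟩, ?_⟩⟩
    intro s hs
    exact ncard_split (hf.dout s (fun g => hhS (g ▸ hs)) (hSh s hs)) (fun w hw => hSout s hs w hw)
      hTc
  -- vertices off `S` reach the hub off `S`
  have hA : ∀ a, a ∉ T → RR adj Tᶜ a h → RR adj Sᶜ a h := by
    intro a ha hr
    refine RR.mono ?_ (RR_between hr)
    rintro w ⟨_, hw⟩ hwS
    exact hwS.2 hw
  have hreach : ∀ w, w ∉ S → RR adj Sᶜ w h := by
    intro w hw
    by_cases hwT : w ∈ T
    · obtain ⟨a, ha, hwa, har⟩ := hTout w hwT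
      refine ReflTransGen.head ⟨hw, ?_, hwa⟩ (hA a ha har)
      exact fun g => g.2 har
    · exact hA w hwT (by
        by_contra g
        exact hw ⟨hwT, g⟩)
  -- the hub is not adjacent to vertices off `S`
  have hcomp : {v | RR adj Sᶜ h v ∧ RR adj Sᶜ v h} = {h} := by
    by_contra hne
    have hhm : h ∈ {v | RR adj Sᶜ h v ∧ RR adj Sᶜ v h} := ⟨ReflTransGen.refl, ReflTransGen.refl⟩
    refine hf.max _ (linked_of_strong ⟨h, hhm⟩ (comp_strong h)) hhm hne (hcore.mono ?_)
    intro s hs g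
    exact RR.mem_right g.1 hhS hs
  have hEnt : ∀ w, adj h w → w ∈ S := by
    intro w hw
    by_contra hwS
    have : w ∈ {v | RR adj Sᶜ h v ∧ RR adj Sᶜ v h} :=
      ⟨ReflTransGen.single ⟨hhS, hwS, hw⟩, hreach w hwS⟩
    rw [hcomp] at this
    have e : w = h := this
    subst e
    exact hf.irr _ hw
  -- there are no other vertices
  have hAh : ∀ a, a ∉ S → a ∉ T → a = h := by
    by_contra hcon
    push Not at hcon
    obtain ⟨a0, ha0S, ha0T, ha0h⟩ := hcon
    have hcore2 : HasCore adj m {a | a ∉ S ∧ a ∉ T ∧ a ≠ h} := by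
      refine ⟨_, Set.Subset.refl _, Or.inl ⟨⟨a0, ha0S, ha0T, ha0h⟩, ?_⟩⟩
      rintro x ⟨hxS, hxT, hxh⟩
      have hx : ¬ adj h x := fun g => hxS (hEnt x g)
      refine ncard_split (hf.din x hxh hx) (A := {a | a ∉ S ∧ a ∉ T ∧ a ≠ h}) (T := T) ?_ hTc
      intro p hp
      by_cases hpT : p ∈ T
      · exact Or.inr hpT
      · refine Or.inl ⟨fun g => ?_, hpT, fun g => hx (g ▸ hp)⟩
        rcases hSout p g x hp with k | k
        · exact hxS k
        · exact hxT k
    obtain ⟨x, hx1, hx2⟩ := frame_cores_meet hf hcore hcore2 hhS (fun g => g.2.2 rfl)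
    exact hx2.1 hx1
  have hNT : {u | adj u h} = T := by
    ext u
    constructor
    · intro hu
      have huh : adj u h := hu
      by_contra huT
      have huS : u ∉ S := fun g => hSh u g huh
      have := hAh u huS huT
      subst this
      exact hf.irr _ huh
    · intro hu
      obtain ⟨a, ha, hua, har⟩ := hTout u hu
      have := hAh a (fun g => g.2 har) ha
      subst this
      exact hua
  refine ⟨hNT ▸ hTY, ?_, ?_⟩
  · intro w hw g
    exact hSh w (hEnt w hw) g
  · intro s hsh hs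
    rw [hNT]
    have hsT : s ∉ T := by
      rw [← hNT]
      exact hs
    have hsS : s ∈ S := by
      by_contra g
      exact hsh (hAh s g hsT)
    exact hsS.2

/-- In a frame whose hub has more than `K - m` in-neighbours, every vertex reaches the hub off any
set of at most `K - m` other vertices. -/
theorem frame_reach_hub [Finite V] {h : V} {m K : ℕ} (hf : Frame adj h m K)
    (hbig : K < {u | adj u h}.ncard + m) {Y : Set V} (hY : h ∉ Y) (hc : Y.ncard + m ≤ K) {v : V}
    (hv : v ∉ Y) : RR adj Yᶜ v h := by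
  by_contra hno
  have := (frame_cut hf hY hc hv hno).1
  omega

/-- In a frame whose hub has more than `K - m` out-neighbours, every vertex is reached from the hub
off any set of at most `K - m` other vertices. -/
theorem frame_hub_reach [Finite V] {h : V} {m K : ℕ} (hf : Frame adj h m K)
    (hbig : K < {u | adj h u}.ncard + m) {Y : Set V} (hY : h ∉ Y) (hc : Y.ncard + m ≤ K) {v : V}
    (hv : v ∉ Y) : RR adj Yᶜ h v :=
  RR_flip (frame_reach_hub (frame_flip hf) hbig hY hc hv)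

/-- **A frame with a large hub is `(K - m + 1)`-strong off the hub.** -/
theorem frame_strong_off [Finite V] {h : V} {m K : ℕ} (hf : Frame adj h m K)
    (h1 : K < {u | adj u h}.ncard + m) (h2 : K < {u | adj h u}.ncard + m) {Y : Set V} (hY : h ∉ Y)
    (hc : Y.ncard + m ≤ K) : SStrong adj Yᶜ := fun _ hx _ hy =>
  (frame_reach_hub hf h1 hY hc hx).trans (frame_hub_reach hf h2 hY hc hy)

end Pool.Agent.H.MP_0cacf8
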