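import Pool.Agent.H.MP_0cacf8.LNKF

/-!
# Frames: the digraph off the hub is strong; no two disjoint cores
-/

set_option autoImplicit false

namespace Pool.Agent.H.MP_0cacf8

open Relation Finset Pool.Agent.H.MP_0d008e_co

variable {V : Type*} {adj : V → V → Prop}

/-- `S` is strong (in itself). -/
def SStrong (adj : V → V → Prop) (S : Set V) : Prop := ∀ x ∈ S, ∀ y ∈ S, RR adj S x y

theorem SStrong.flip {S : Set V} (h : SStrong adj S) : SStrong (fun x y => adj y x) S :=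
  fun x hx y hy => RR_flip' (h y hy x hx)

theorem InCore.strong [Finite V] {m : ℕ} {M : Set V} (h : InCore adj m M) :
    ∃ M', M' ⊆ M ∧ InCore adj m M' ∧ SStrong adj M' := by
  classical
  have := Fintype.ofFinite V
  obtain ⟨Y, h1, h2, h3, h4⟩ := exists_source (adj := adj) (Set.toFinite M).toFinset (by
    obtain ⟨x, hx⟩ := h.1
    exact ⟨x, (Set.toFinite M).mem_toFinset.2 hx⟩)
  have hsub : (Y : Set V) ⊆ M := fun x hx => (Set.toFinite M).mem_toFinset.1 (h1 hx)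
  refine ⟨Y, hsub, ⟨h2, ?_⟩, h4⟩
  intro x hx
  refine (h.2 x (hsub hx)).trans (Set.ncard_le_ncard ?_ (Set.toFinite _))
  rintro p ⟨hp, hpx⟩
  exact ⟨h3 p ((Set.toFinite M).mem_toFinset.2 hp) x hx hpx, hpx⟩

theorem OutCore.strong [Finite V] {m : ℕ} {M : Set V} (h : OutCore adj m M) :
    ∃ M', M' ⊆ M ∧ OutCore adj m M' ∧ SStrong adj M' := by
  obtain ⟨M', h1, h2, h3⟩ := InCore.strong h.flip
  exact ⟨M', h1, h2, SStrong.flip h3⟩

/-! ### Walks -/

/-- A walk runs inside the set of vertices reached from its start and reaching its end. -/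
theorem RR_between {S : Set V} {a b : V} (h : RR adj S a b) :
    RR adj {v | RR adj S a v ∧ RR adj S v b} a b := by
  induction h using ReflTransGen.head_induction_on with
  | refl => exact ReflTransGen.refl
  | @head a c hac hcb ih =>
    have h0 : {v | RR adj S c v ∧ RR adj S v b} ⊆ {v | RR adj S a v ∧ RR adj S v b} :=
      fun v hv => ⟨ReflTransGen.head hac hv.1, hv.2⟩
    have h1 : RR adj {v | RR adj S a v ∧ RR adj S v b} c b := RR.mono h0 ih
    exact ReflTransGen.head ⟨⟨ReflTransGen.refl, ReflTransGen.head hac hcb⟩,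
      ⟨ReflTransGen.single hac, hcb⟩, hac.2.2⟩ h1

/-- Strong components are strong. -/
theorem comp_strong {S : Set V} (c : V) :
    SStrong adj {v | RR adj S c v ∧ RR adj S v c} := by
  rintro x ⟨hx1, hx2⟩ y ⟨hy1, hy2⟩
  have h1 : {v | RR adj S x v ∧ RR adj S v c} ⊆ {v | RR adj S c v ∧ RR adj S v c} :=
    fun v hv => ⟨hx1.trans hv.1, hv.2⟩
  have h2 : {v | RR adj S c v ∧ RR adj S v y} ⊆ {v | RR adj S c v ∧ RR adj S v c} :=
    fun v hv => ⟨hv.1, hv.2.trans hy2⟩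
  have e1 : RR adj {v | RR adj S c v ∧ RR adj S v c} x c := RR.mono h1 (RR_between hx2)
  have e2 : RR adj {v | RR adj S c v ∧ RR adj S v c} c y := RR.mono h2 (RR_between hy1)
  exact e1.trans e2

theorem reach_hub_off {h : V} {C : Set V} (str : ∀ u w, RR adj Set.univ u w) (hC : h ∉ C) {q : V}
    (hq : q ∉ C) (hcl : q ≠ h → ∀ z ∈ C, ¬ RR adj {h}ᶜ q z) : RR adj Cᶜ q h := by
  by_cases hqh : q = h
  · rw [hqh]
  rcases first_hit (B := C) (str q h) hq with ⟨g1, _⟩ | ⟨y, z, g1, _, g3, _, g5, g6, _⟩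
  · exact RR.mono (fun v hv => hv.2) g1
  · rcases first_hit (B := {h}) g1 (fun g => hqh g) with ⟨k1, k2⟩ | ⟨y', z', k1, k2, _, k4, k5, k6, _⟩
    · have hzh : z ≠ h := fun g => hC (g ▸ g5)
      have k3 : RR adj {h}ᶜ q y := RR.mono (fun v hv => hv.2) k1
      exact absurd (k3.tail ⟨fun g => k2 g, fun g => hzh g, g6⟩) (hcl hqh z g5)
    · have hz' : z' = h := k5
      subst hz'
      have hSm : Set.univ \ C ⊆ Cᶜ := fun v hv => hv.2
      exact (RR.mono (Set.sdiff_subset.trans hSm) k1).tail ⟨k2.2, k4.2, k6⟩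

/-! ### The properties -/

/-- A monotone property of sets of vertices which passes to a strong subset. -/
structure SProp (adj : V → V → Prop) (P : Set V → Prop) : Prop where
  mono : ∀ {X Y : Set V}, X ⊆ Y → P X → P Y
  strong : ∀ {X : Set V}, P X → ∃ M, M ⊆ X ∧ M.Nonempty ∧ P M ∧ SStrong adj M

theorem sprop_hasCore [Finite V] {m : ℕ} : SProp adj (HasCore adj m) where
  mono := fun h hc => HasCore.mono h hc
  strong := by
    rintro X ⟨M, hM, hc | hc⟩
    · obtain ⟨M', h1, h2, h3⟩ := hc.strong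
      exact ⟨M', h1.trans hM, h2.1, ⟨M', Set.Subset.refl _, Or.inl h2⟩, h3⟩
    · obtain ⟨M', h1, h2, h3⟩ := hc.strong
      exact ⟨M', h1.trans hM, h2.1, ⟨M', Set.Subset.refl _, Or.inr h2⟩, h3⟩

theorem sprop_hasCycle : SProp adj (HasCycle adj) where
  mono := fun h hc => HasCycle.mono h hc
  strong := by
    rintro X ⟨x, hx, y, hy, g1, g2⟩
    have hxy : RR adj X x y := ReflTransGen.single ⟨hx, hy, g1⟩
    have hsub : {v | RR adj X x v ∧ RR adj X v x} ⊆ X := fun v hv => RR.mem_right hv.1 hx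
    have hs := comp_strong (adj := adj) (S := X) x
    have hxm : x ∈ {v | RR adj X x v ∧ RR adj X v x} := ⟨ReflTransGen.refl, ReflTransGen.refl⟩
    have hym : y ∈ {v | RR adj X x v ∧ RR adj X v x} := ⟨hxy, g2⟩
    exact ⟨_, hsub, ⟨x, hxm⟩, ⟨x, hxm, y, hym, g1, hs y hym x hxm⟩, hs⟩

theorem SProp.flip {P : Set V → Prop} (h : SProp adj P) : SProp (fun x y => adj y x) P where
  mono := h.mono
  strong := by
    intro X hX
    obtain ⟨M, h1, h2, h3, h4⟩ := h.strong hX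
    exact ⟨M, h1, h2, h3, h4.flip⟩

/-! ### The digraph off the hub is strong -/

theorem PFrame.G_strong {h : V} {P : Set V → Prop} {K : ℕ} (hf : PFrame adj h P K)
    (hP : SProp adj P) : SStrong adj {h}ᶜ := by
  obtain ⟨M, hM, ⟨m0, hm0⟩, hPM, hs⟩ := hP.strong hf.has
  have hm0h : m0 ≠ h := hM hm0
  set C : Set V := {v | RR adj {h}ᶜ m0 v ∧ RR adj {h}ᶜ v m0} with hCdef
  have hhC : h ∉ C := fun g => RR.mem_right g.1 hm0h rfl
  have hMC : M ⊆ C := fun v hv => ⟨RR.mono hM (hs m0 hm0 v hv), RR.mono hM (hs v hv m0 hm0)⟩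
  have hQ : Linked adj Cᶜ := by
    refine ⟨⟨h, hhC⟩, ?_⟩
    rintro p hp p' hp' ⟨q, hq, h1⟩ ⟨q', hq', h2⟩
    have hp : p ∈ C := not_not.1 hp
    have hp' : p' ∈ C := not_not.1 hp'
    have hph : p ≠ h := fun g => hhC (g ▸ hp)
    have hph' : p' ≠ h := fun g => hhC (g ▸ hp')
    have e1 : RR adj Cᶜ q h := by
      refine reach_hub_off hf.str hhC hq ?_
      intro hqh z hz g
      exact hq ⟨hp.1.tail ⟨hph, hqh, h1⟩, g.trans hz.2⟩
    have e2 : RR (fun x y => adj y x) Cᶜ q' h := by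
      refine reach_hub_off (fun u w => RR_flip' (hf.str w u)) hhC hq' ?_
      intro hqh z hz g
      have g' : RR adj {h}ᶜ z q' := RR_flip g
      exact hq' ⟨hz.1.trans g', ReflTransGen.head ⟨hqh, hph', h2⟩ hp'.2⟩
    exact ⟨q, hq, q', hq', h1, e1.trans (RR_flip e2), h2⟩
  have hCh : Cᶜ = {h} := by
    by_contra hne
    exact hf.max Cᶜ hQ hhC hne (hP.mono (by rw [compl_compl]; exact hMC) hPM)
  have hC : C = {h}ᶜ := by rw [← hCh, compl_compl]
  have := comp_strong (adj := adj) (S := {h}ᶜ) m0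
  rw [← hCdef, hC] at this
  exact this

/-! ### No two disjoint cores -/

theorem PFrame.disj_aux {h : V} {P : Set V → Prop} {K : ℕ} (hf : PFrame adj h P K)
    (hP : SProp adj P) {M1 M2 : Set V} (h1 : P M1) (h2 : P M2) (s1 : SStrong adj M1)
    (s2 : SStrong adj M2) (n2 : M2.Nonempty) (hh1 : h ∉ M1) (hh2 : h ∉ M2) (hd : Disjoint M1 M2)
    {x0 : V} (hx0 : x0 ∈ M1) (hr : RR adj M2ᶜ h x0) : False := by
  have hd' : ∀ x ∈ M1, x ∉ M2 := fun x hx g => Set.disjoint_left.1 hd hx g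
  have hM1 : M1 ⊆ M2ᶜ := fun x hx => hd' x hx
  -- `M1` does not reach the hub off `M2`
  have hA : ∀ x ∈ M1, ¬ RR adj M2ᶜ x h := by
    intro x hx hxh
    have hhx : RR adj M2ᶜ h x := hr.trans (RR.mono hM1 (s1 x0 hx0 x hx))
    have hs := comp_strong (adj := adj) (S := M2ᶜ) h
    have hhm : h ∈ {v | RR adj M2ᶜ h v ∧ RR adj M2ᶜ v h} := ⟨ReflTransGen.refl, ReflTransGen.refl⟩
    refine hf.max _ (linked_of_strong ⟨h, hhm⟩ hs) hhm ?_ (hP.mono ?_ h2)
    · intro g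
      have : x ∈ ({h} : Set V) := by
        rw [← g]
        exact ⟨hhx, hxh⟩
      exact hh1 (this ▸ hx)
    · intro v hv g
      exact RR.mem_right g.1 hh2 hv
  -- the vertices which do not reach the hub off `M2`
  set Q : Set V := {v | v ∈ M2 ∨ RR adj M2ᶜ v h} with hQdef
  have hM2Q : M2 ⊆ Q := fun v hv => Or.inl hv
  have hhQ : h ∈ Q := Or.inr ReflTransGen.refl
  have hout : ∀ v, v ∉ Q → ∀ w ∈ Q, adj v w → w ∈ M2 := by
    intro v hv w hw hvw
    by_contra hwM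
    have hw' : RR adj M2ᶜ w h := hw.resolve_left hwM
    have hvM : v ∉ M2 := fun g => hv (Or.inl g)
    exact hv (Or.inr (ReflTransGen.head ⟨hvM, hwM, hvw⟩ hw'))
  have e1 : ∀ t ∈ M2, RR adj Q t h := by
    intro t ht
    rcases last_exit (B := M2) (hf.str t h) hh2 with ⟨_, g⟩ | ⟨y, z, _, g2, _, g4, g5, g6, _⟩
    · exact absurd ht g
    · have g7 : RR adj M2ᶜ z h := RR.mono (fun v hv => hv.2) g6
      have g9 : {v | RR adj M2ᶜ z v ∧ RR adj M2ᶜ v h} ⊆ Q := fun v hv => Or.inr hv.2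
      have g8 : RR adj Q z h := RR.mono g9 (RR_between g7)
      exact (RR.mono hM2Q (s2 t ht y g2)).trans
        (ReflTransGen.head ⟨hM2Q g2, Or.inr g7, g5⟩ g8)
  have e2 : ∀ t ∈ M2, ∀ q ∈ Q, RR adj Q t q := by
    intro t ht q hq
    rcases last_exit (B := Qᶜ) (hf.str h q) (fun g => g hq) with ⟨g1, _⟩ |
      ⟨y, z, _, g2, _, g4, g5, g6, _⟩
    · exact (e1 t ht).trans (RR.mono (fun v hv => not_not.1 hv.2) g1)
    · have hzQ : z ∈ Q := not_not.1 g4
      have hz := hout y g2 z hzQ g5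
      exact (RR.mono hM2Q (s2 t ht z hz)).trans (RR.mono (fun v hv => not_not.1 hv.2) g6)
  refine hf.max Q ⟨⟨h, hhQ⟩, ?_⟩ hhQ ?_ (hP.mono ?_ h1)
  · rintro p hp p' hp' ⟨q, hq, k1⟩ ⟨q', hq', k2⟩
    exact ⟨q, hq, q', hq', k1, e2 q (hout p hp q hq k1) q' hq', k2⟩
  · intro g
    obtain ⟨t, ht⟩ := n2
    have : t ∈ ({h} : Set V) := by
      rw [← g]
      exact hM2Q ht
    exact hh2 (this ▸ ht)
  · rintro v hv (g | g)
    · exact hd' v hv g
    · exact hA v hv g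

/-- **No two disjoint sets with `P` off the hub.** -/
theorem PFrame.meet {h : V} {P : Set V → Prop} {K : ℕ} (hf : PFrame adj h P K)
    (hP : SProp adj P) {M1 M2 : Set V} (h1 : P M1) (h2 : P M2) (hh1 : h ∉ M1) (hh2 : h ∉ M2) :
    (M1 ∩ M2).Nonempty := by
  obtain ⟨N1, n1, n2, n3, n4⟩ := hP.strong h1
  obtain ⟨N2, k1, k2, k3, k4⟩ := hP.strong h2
  by_contra hne
  have hd : Disjoint N1 N2 := by
    rw [Set.disjoint_left]
    intro x hx hx'
    exact hne ⟨x, n1 hx, k1 hx'⟩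
  have hhN1 : h ∉ N1 := fun g => hh1 (n1 g)
  have hhN2 : h ∉ N2 := fun g => hh2 (k1 g)
  obtain ⟨x1, hx1⟩ := n2
  have hh : h ∉ N1 ∪ N2 := by
    rintro (g | g)
    · exact hhN1 g
    · exact hhN2 g
  rcases first_hit (B := N1 ∪ N2) (hf.str h x1) hh with ⟨_, g⟩ | ⟨y, z, g1, _, g3, _, g5, g6, _⟩
  · exact g (Or.inl hx1)
  · have hyN : y ∉ N1 ∪ N2 := g3
    rcases g5 with g5 | g5
    · refine hf.disj_aux hP n3 k3 n4 k4 k2 hhN1 hhN2 hd g5 ?_
      refine (RR.mono ?_ g1).tail ⟨fun g => hyN (Or.inr g), fun g => Set.disjoint_left.1 hd g5 g, g6⟩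
      intro v hv g
      exact hv.2 (Or.inr g)
    · refine hf.disj_aux hP k3 n3 k4 n4 ⟨x1, hx1⟩ hhN2 hhN1 hd.symm g5 ?_
      refine (RR.mono ?_ g1).tail ⟨fun g => hyN (Or.inl g), fun g => Set.disjoint_left.1 hd g g5, g6⟩
      intro v hv g
      exact hv.2 (Or.inl g)

theorem frame_G_strong [Finite V] {h : V} {m K : ℕ} (hf : Frame adj h m K) :
    SStrong adj {h}ᶜ := hf.G_strong sprop_hasCore

theorem frame_cores_meet [Finite V] {h : V} {m K : ℕ} (hf : Frame adj h m K) {M1 M2 : Set V}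
    (h1 : HasCore adj m M1) (h2 : HasCore adj m M2) (hh1 : h ∉ M1) (hh2 : h ∉ M2) :
    (M1 ∩ M2).Nonempty := hf.meet sprop_hasCore h1 h2 hh1 hh2

end Pool.Agent.H.MP_0cacf8
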