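import Pool.Agent.H.MP_0cacf8.LNK1

/-!
# Cores and frames
-/

set_option autoImplicit false

namespace Pool.Agent.H.MP_0cacf8

open Relation Finset Pool.Agent.H.MP_0d008e_co

variable {V : Type*} {adj : V → V → Prop}

/-- `M` is an in-`m`-core. -/
def InCore (adj : V → V → Prop) (m : ℕ) (M : Set V) : Prop :=
  M.Nonempty ∧ ∀ x ∈ M, m ≤ {p | p ∈ M ∧ adj p x}.ncard

/-- `M` is an out-`m`-core. -/
def OutCore (adj : V → V → Prop) (m : ℕ) (M : Set V) : Prop :=
  M.Nonempty ∧ ∀ x ∈ M, m ≤ {q | q ∈ M ∧ adj x q}.ncard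

/-- `X` contains an in- or out-`m`-core. -/
def HasCore (adj : V → V → Prop) (m : ℕ) (X : Set V) : Prop :=
  ∃ M, M ⊆ X ∧ (InCore adj m M ∨ OutCore adj m M)

/-- `X` contains a directed cycle. -/
def HasCycle (adj : V → V → Prop) (X : Set V) : Prop :=
  ∃ x ∈ X, ∃ y ∈ X, adj x y ∧ RR adj X y x

theorem InCore.flip {m : ℕ} {M : Set V} (h : InCore adj m M) :
    OutCore (fun x y => adj y x) m M := h

theorem OutCore.flip {m : ℕ} {M : Set V} (h : OutCore adj m M) :
    InCore (fun x y => adj y x) m M := h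

theorem HasCore.mono {m : ℕ} {X Y : Set V} (h : X ⊆ Y) (hc : HasCore adj m X) :
    HasCore adj m Y := by
  obtain ⟨M, hM, hc⟩ := hc
  exact ⟨M, hM.trans h, hc⟩

theorem HasCore.flip {m : ℕ} {X : Set V} (h : HasCore adj m X) :
    HasCore (fun x y => adj y x) m X := by
  obtain ⟨M, hM, hc⟩ := h
  exact ⟨M, hM, hc.symm⟩

theorem HasCycle.mono {X Y : Set V} (h : X ⊆ Y) (hc : HasCycle adj X) : HasCycle adj Y := by
  obtain ⟨x, hx, y, hy, g1, g2⟩ := hc
  exact ⟨x, h hx, y, h hy, g1, RR.mono h g2⟩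

theorem HasCycle.flip {X : Set V} (h : HasCycle adj X) : HasCycle (fun x y => adj y x) X := by
  obtain ⟨x, hx, y, hy, g1, g2⟩ := h
  exact ⟨y, hy, x, hx, g1, RR_flip' g2⟩

/-! ### Cores and the contraction -/

theorem pj_inj {Z : Set V} {x y : V} (hx : x ∉ Z) (h : pj Z x = pj Z y) : x = y := by
  by_cases hy : y ∈ Z
  · rw [pj_not hx, pj_mem hy] at h
    exact absurd h (Option.some_ne_none _)
  · rw [pj_not hx, pj_not hy] at h
    exact congrArg Subtype.val (Option.some.inj h)

theorem pj_surj {Z : Set V} (hZ : Z.Nonempty) (x : Option {v // v ∉ Z}) : ∃ v, pj Z v = x := by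
  cases x with
  | none =>
    obtain ⟨z, hz⟩ := hZ
    exact ⟨z, pj_mem hz⟩
  | some u => exact ⟨u, pj_some u⟩

theorem pj_none {Z : Set V} {v : V} (h : pj Z v = none) : v ∈ Z := by
  by_contra hv
  rw [pj_not hv] at h
  exact Option.some_ne_none _ h

theorem cn_pj {Z : Set V} {x y : V} (hx : x ∉ Z) (hy : y ∉ Z) :
    cn adj Z (pj Z x) (pj Z y) ↔ adj x y := by
  rw [pj_not hx, pj_not hy]
  rfl

theorem not_mem_of_pre {Z : Set V} {M : Set (Option {v // v ∉ Z})} (hn : none ∉ M) {v : V}
    (hv : v ∈ pre Z M) : v ∉ Z := by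
  intro g
  have : pj Z v ∈ M := hv
  rw [pj_mem g] at this
  exact hn this

/-- Counting in the contraction. -/
theorem ncard_pre {Z : Set V} {A : Set V} {A' : Set (Option {v // v ∉ Z})}
    (h1 : ∀ v, v ∈ A ↔ pj Z v ∈ A') (hn : none ∉ A') : A'.ncard = A.ncard := by
  have himg : A' = pj Z '' A := by
    ext x
    constructor
    · intro hx
      cases x with
      | none => exact absurd hx hn
      | some u => exact ⟨u, (h1 u).2 (by rw [pj_some]; exact hx), pj_some u⟩
    · rintro ⟨v, hv, rfl⟩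
      exact (h1 v).1 hv
  rw [himg]
  refine Set.InjOn.ncard_image ?_
  intro x hx y _ hxy
  refine pj_inj (fun g => ?_) hxy
  have := (h1 x).1 hx
  rw [pj_mem g] at this
  exact hn this

theorem inCore_pre {Z : Set V} {m : ℕ} {M : Set (Option {v // v ∉ Z})} (hn : none ∉ M) :
    InCore (cn adj Z) m M ↔ InCore adj m (pre Z M) := by
  have key : ∀ x : V, x ∉ Z → {p | p ∈ M ∧ cn adj Z p (pj Z x)}.ncard =
      {p | p ∈ pre Z M ∧ adj p x}.ncard := by
    intro x hx
    refine ncard_pre (fun v => ?_) (fun g => hn g.1)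
    constructor
    · rintro ⟨g1, g2⟩
      exact ⟨g1, pj_adj g2 (Or.inr hx)⟩
    · rintro ⟨g1, g2⟩
      have hv : v ∉ Z := not_mem_of_pre hn g1
      exact ⟨g1, (cn_pj hv hx).1 g2⟩
  constructor
  · rintro ⟨⟨x, hx⟩, h⟩
    refine ⟨?_, fun v hv => ?_⟩
    · cases x with
      | none => exact absurd hx hn
      | some u => exact ⟨u, mem_pre_some.2 hx⟩
    · rw [← key v (not_mem_of_pre hn hv)]
      exact h _ hv
  · rintro ⟨⟨v, hv⟩, h⟩
    refine ⟨⟨_, hv⟩, fun x hx => ?_⟩
    cases x with
    | none => exact absurd hx hn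
    | some u =>
      have := key u u.2
      rw [pj_some] at this
      rw [this]
      exact h u (mem_pre_some.2 hx)

theorem cn_flip {Z : Set V} : cn (fun x y => adj y x) Z = fun x y => cn adj Z y x := by
  funext x y
  cases x <;> cases y <;> rfl

theorem outCore_pre {Z : Set V} {m : ℕ} {M : Set (Option {v // v ∉ Z})} (hn : none ∉ M) :
    OutCore (cn adj Z) m M ↔ OutCore adj m (pre Z M) := by
  have h := inCore_pre (adj := fun x y => adj y x) (m := m) hn
  rw [cn_flip] at h
  exact h

theorem hasCore_pre {Z : Set V} {m : ℕ} {X : Set (Option {v // v ∉ Z})} (hn : none ∉ X) :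
    HasCore (cn adj Z) m X ↔ HasCore adj m (pre Z X) := by
  constructor
  · rintro ⟨M, hM, hc⟩
    have hnM : none ∉ M := fun g => hn (hM g)
    exact ⟨pre Z M, fun v hv => hM hv, hc.imp (inCore_pre hnM).1 (outCore_pre hnM).1⟩
  · rintro ⟨M, hM, hc⟩
    have hd : ∀ v ∈ M, v ∉ Z := fun v hv => not_mem_of_pre hn (hM hv)
    have hnM : none ∉ img Z M := by
      rintro ⟨v, hv, g⟩
      exact hd v hv (pj_none g)
    have hpre : pre Z (img Z M) = M := by
      ext v
      constructor
      · rintro ⟨w, hw, g⟩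
        rw [← pj_inj (hd w hw) g]
        exact hw
      · intro hv
        exact ⟨v, hv, rfl⟩
    refine ⟨img Z M, ?_, ?_⟩
    · rintro _ ⟨v, hv, rfl⟩
      exact hM hv
    · refine hc.imp (fun h => (inCore_pre hnM).2 ?_) (fun h => (outCore_pre hnM).2 ?_)
      · rwa [hpre]
      · rwa [hpre]

theorem hasCycle_pre {Z : Set V} {X : Set (Option {v // v ∉ Z})} (hn : none ∉ X) :
    HasCycle (cn adj Z) X ↔ HasCycle adj (pre Z X) := by
  constructor
  · rintro ⟨x, hx, y, hy, g1, g2⟩
    cases x with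
    | none => exact absurd hx hn
    | some x =>
      cases y with
      | none => exact absurd hy hn
      | some y =>
        refine ⟨x, mem_pre_some.2 hx, y, mem_pre_some.2 hy, g1, ?_⟩
        refine walk_off' (S' := X) (fun u hu => mem_pre_some.2 hu) (RR.mono ?_ g2)
        intro z hz
        exact ⟨hz, fun g => hn (g ▸ hz)⟩
  · rintro ⟨x, hx, y, hy, g1, g2⟩
    have hx' := not_mem_of_pre hn hx
    exact ⟨pj Z x, hx, pj Z y, hy, pj_adj g1 (Or.inl hx'), pj_walk (fun v hv => hv) g2⟩

/-! ### Frames -/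

/-- A pair (digraph, hub): strong, all vertices which are not in-neighbours of the hub have
out-degree at least `K`, all vertices which are not out-neighbours of the hub have in-degree at
least `K`. -/
structure HPair (adj : V → V → Prop) (h : V) (K : ℕ) : Prop where
  irr : ∀ u, ¬ adj u u
  str : ∀ u w, RR adj Set.univ u w
  dout : ∀ v, v ≠ h → ¬ adj v h → K ≤ {w | adj v w}.ncard
  din : ∀ v, v ≠ h → ¬ adj h v → K ≤ {w | adj w v}.ncard

/-- A frame for the property `P`: `P` holds for the set of all vertices but the hub, but not for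
the complement of any larger linked set containing the hub. -/
structure PFrame (adj : V → V → Prop) (h : V) (P : Set V → Prop) (K : ℕ) : Prop
    extends HPair adj h K where
  has : P {h}ᶜ
  max : ∀ Q, Linked adj Q → h ∈ Q → Q ≠ {h} → ¬ P Qᶜ

/-- A frame for `m`-cores. -/
abbrev Frame (adj : V → V → Prop) (h : V) (m K : ℕ) : Prop := PFrame adj h (HasCore adj m) K

theorem HPair.flip {h : V} {K : ℕ} (hp : HPair adj h K) : HPair (fun x y => adj y x) h K where
  irr := hp.irr
  str := fun u w => RR_flip' (hp.str w u)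
  dout := fun v h1 h2 => hp.din v h1 h2
  din := fun v h1 h2 => hp.dout v h1 h2

theorem PFrame.flip {h : V} {P : Set V → Prop} {K : ℕ} (hp : PFrame adj h P K) :
    PFrame (fun x y => adj y x) h P K where
  toHPair := hp.toHPair.flip
  has := hp.has
  max := fun Q h1 h2 h3 => hp.max Q (Linked.flip h1) h2 h3

theorem PFrame.congr {h : V} {P P' : Set V → Prop} {K : ℕ} (hp : PFrame adj h P K)
    (hPP : ∀ X, h ∉ X → (P X ↔ P' X)) : PFrame adj h P' K where
  toHPair := hp.toHPair
  has := (hPP _ (by simp)).1 hp.has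
  max := fun Q h1 h2 h3 g => hp.max Q h1 h2 h3 ((hPP _ (by simpa using h2)).2 g)

theorem hasCore_flip_iff {m : ℕ} {X : Set V} :
    HasCore adj m X ↔ HasCore (fun x y => adj y x) m X :=
  ⟨HasCore.flip, fun h => HasCore.flip h⟩

theorem frame_flip {h : V} {m K : ℕ} (hp : Frame adj h m K) : Frame (fun x y => adj y x) h m K :=
  PFrame.congr (PFrame.flip hp) fun _ _ => hasCore_flip_iff

theorem HPair.contract [Finite V] {h : V} {K : ℕ} {Z : Set V} (hZ : h ∈ Z) (hp : HPair adj h K) :
    HPair (cn adj Z) none K where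
  irr := by
    intro u
    cases u with
    | none => exact fun g => g
    | some u => exact hp.irr u
  str := by
    intro u w
    obtain ⟨u, rfl⟩ := pj_surj ⟨h, hZ⟩ u
    obtain ⟨w, rfl⟩ := pj_surj ⟨h, hZ⟩ w
    exact pj_walk (fun _ _ => Set.mem_univ _) (hp.str u w)
  dout := by
    intro v hv hno
    obtain ⟨v, rfl⟩ := Option.ne_none_iff_exists'.1 hv
    have hno' : ∀ z ∈ Z, ¬ adj v z := fun z hz g => hno ⟨z, hz, g⟩
    have hvh : (v : V) ≠ h := fun g => v.2 (g ▸ hZ)
    have := ncard_pre (Z := Z) (A := {w | adj v w}) (A' := {w | cn adj Z (some v) w})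
      (fun w => ?_) hno
    · rw [this]
      exact hp.dout v hvh (hno' h hZ)
    · constructor
      · intro g
        have := pj_adj (Z := Z) (show adj v w from g) (Or.inl v.2)
        rw [pj_some] at this
        exact this
      · intro g
        by_cases hw : w ∈ Z
        · have g' : cn adj Z (some v) (pj Z w) := g
          rw [pj_mem hw] at g'
          exact absurd g' hno
        · have g' : cn adj Z (some v) (pj Z w) := g
          rw [pj_not hw] at g'
          exact g'
  din := by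
    intro v hv hno
    obtain ⟨v, rfl⟩ := Option.ne_none_iff_exists'.1 hv
    have hno' : ∀ z ∈ Z, ¬ adj z v := fun z hz g => hno ⟨z, hz, g⟩
    have hvh : (v : V) ≠ h := fun g => v.2 (g ▸ hZ)
    have := ncard_pre (Z := Z) (A := {w | adj w v}) (A' := {w | cn adj Z w (some v)})
      (fun w => ?_) hno
    · rw [this]
      exact hp.din v hvh (hno' h hZ)
    · constructor
      · intro g
        have := pj_adj (Z := Z) (show adj w v from g) (Or.inr v.2)
        rw [pj_some] at this
        exact this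
      · intro g
        by_cases hw : w ∈ Z
        · have g' : cn adj Z (pj Z w) (some v) := g
          rw [pj_mem hw] at g'
          exact absurd g' hno
        · have g' : cn adj Z (pj Z w) (some v) := g
          rw [pj_not hw] at g'
          exact g'

/-- Every pair contracts to a frame. -/
theorem exists_pframe [Finite V] {h : V} {K : ℕ} {P : Set V → Prop} (hp : HPair adj h K)
    (hP : P {h}ᶜ) : ∃ Z : Set V, h ∈ Z ∧ Linked adj Z ∧ P Zᶜ ∧
      PFrame (cn adj Z) none (fun X => P (pre Z X)) K := by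
  classical
  let F : Set (Set V) := {Z | h ∈ Z ∧ Linked adj Z ∧ P Zᶜ}
  have hF : F.Nonempty := ⟨{h}, rfl, linked_singleton h, hP⟩
  obtain ⟨Z, hZ, hmax⟩ := Set.Finite.exists_maximalFor Set.ncard F (Set.toFinite F) hF
  refine ⟨Z, hZ.1, hZ.2.1, hZ.2.2, hp.contract hZ.1, ?_, ?_⟩
  · have : pre Z {none}ᶜ = Zᶜ := by
      show (pre Z {none})ᶜ = Zᶜ
      rw [pre_none]
    show P (pre Z {none}ᶜ)
    rw [this]
    exact hZ.2.2
  · intro Q hQ hn hne hPQ
    have hPQ' : P (pre Z Q)ᶜ := hPQ
    have hsub : Z ⊆ pre Z Q := subset_pre hn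
    have hmem : pre Z Q ∈ F := ⟨hsub hZ.1, Linked.pull hZ.2.1 hn hQ, hPQ'⟩
    have hle := hmax hmem (Set.ncard_le_ncard hsub (Set.toFinite _))
    have heq : Z = pre Z Q := Set.eq_of_subset_of_ncard_le hsub hle (Set.toFinite _)
    refine hne (Set.Subset.antisymm ?_ ?_)
    · intro x hx
      cases x with
      | none => rfl
      | some u =>
        have : (u : V) ∈ pre Z Q := mem_pre_some.2 hx
        rw [← heq] at this
        exact absurd this u.2
    · intro x hx
      rw [hx]
      exact hn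

/-- Every pair with an `m`-core off the hub contracts to a frame for `m`-cores. -/
theorem exists_frame [Finite V] {h : V} {m K : ℕ} (hp : HPair adj h K)
    (hc : HasCore adj m {h}ᶜ) : ∃ Z : Set V, h ∈ Z ∧ Linked adj Z ∧ HasCore adj m Zᶜ ∧
      Frame (cn adj Z) none m K := by
  obtain ⟨Z, h1, h2, h3, h4⟩ := exists_pframe hp hc
  exact ⟨Z, h1, h2, h3, h4.congr fun X hX => (hasCore_pre hX).symm⟩

/-- Every pair with a cycle off the hub contracts to a frame for cycles. -/
theorem exists_cframe [Finite V] {h : V} {K : ℕ} (hp : HPair adj h K)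
    (hc : HasCycle adj {h}ᶜ) : ∃ Z : Set V, h ∈ Z ∧ Linked adj Z ∧ HasCycle adj Zᶜ ∧
      PFrame (cn adj Z) none (HasCycle (cn adj Z)) K := by
  obtain ⟨Z, h1, h2, h3, h4⟩ := exists_pframe hp hc
  exact ⟨Z, h1, h2, h3, h4.congr fun X hX => (hasCycle_pre hX).symm⟩

theorem hasCore_of_degree [Finite V] {m : ℕ} (irr : ∀ u, ¬ adj u u)
    (din : ∀ v, m + 1 ≤ {w | adj w v}.ncard) (h : V) : HasCore adj m {h}ᶜ := by
  refine ⟨{h}ᶜ, Set.Subset.refl _, Or.inl ⟨?_, ?_⟩⟩
  · have h1 : 0 < {w | adj w h}.ncard := lt_of_lt_of_le (Nat.succ_pos m) (din h)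
    obtain ⟨w, hw⟩ := Set.nonempty_of_ncard_ne_zero h1.ne'
    exact ⟨w, fun g => irr h (by
      have g' : w = h := g
      have hw' : adj w h := hw
      rwa [g'] at hw')⟩
  · intro x _
    have h1 := din x
    have h2 : {w | adj w x} ⊆ insert h {p | p ∈ ({h}ᶜ : Set V) ∧ adj p x} := by
      intro w hw
      by_cases hwh : w = h
      · exact Or.inl hwh
      · exact Or.inr ⟨hwh, hw⟩
    have h3 := Set.ncard_le_ncard h2 (Set.toFinite _)
    have h4 := Set.ncard_insert_le h {p | p ∈ ({h}ᶜ : Set V) ∧ adj p x}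
    omega

/-- **Reduction to frames.** If every frame with `m`-cores contains a subdivision of the
bidirected triangle off the hub, then every strong digraph with all degrees at least `K > m`
contains a subdivision of the bidirected triangle. -/
theorem K3set_of_frames.{u} {m K : ℕ} (hmK : m + 1 ≤ K)
    (H : ∀ (W : Type u) (_ : Finite W) (adj' : W → W → Prop) (h : W), Frame adj' h m K →
      K3off adj' h) {V : Type u} [Finite V] [Nonempty V] {adj : V → V → Prop}
    (irr : ∀ u, ¬ adj u u) (str : ∀ u w, RR adj Set.univ u w)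
    (dout : ∀ v, K ≤ {w | adj v w}.ncard) (din : ∀ v, K ≤ {w | adj w v}.ncard) :
    K3set adj := by
  obtain ⟨h⟩ := ‹Nonempty V›
  have hp : HPair adj h K := ⟨irr, str, fun v _ _ => dout v, fun v _ _ => din v⟩
  obtain ⟨Z, _, h2, _, h4⟩ := exists_frame hp
    (hasCore_of_degree irr (fun v => hmK.trans (din v)) h)
  exact (K3offS_of_cn h2 (H _ inferInstance _ _ h4)).set

end Pool.Agent.H.MP_0cacf8
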