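import Pool.Agent.H.MP_0cacf8.LNK3

/-!
# Minimal cycles; neighbourhoods are acyclic
-/

set_option autoImplicit false

namespace Pool.Agent.H.MP_0cacf8

open Relation Finset Pool.Agent.H.MP_0d008e_co

variable {V : Type*} {adj : V → V → Prop}

/-- `O` is the vertex set of an induced cycle. -/
def MinCycle (adj : V → V → Prop) (O : Set V) : Prop :=
  HasCycle adj O ∧ ∀ O', O' ⊆ O → HasCycle adj O' → O' = O

theorem HasCycle.exists_min [Finite V] {X : Set V} (h : HasCycle adj X) :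
    ∃ O, O ⊆ X ∧ MinCycle adj O := by
  classical
  let F : Set (Set V) := {Z | Z ⊆ X ∧ HasCycle adj Z}
  have hF : F.Nonempty := ⟨X, Set.Subset.refl _, h⟩
  obtain ⟨O, hO, hmin⟩ := Set.Finite.exists_minimalFor Set.ncard F (Set.toFinite F) hF
  refine ⟨O, hO.1, hO.2, fun O' h1 h2 => ?_⟩
  have h3 := hmin (⟨h1.trans hO.1, h2⟩ : O' ∈ F) (Set.ncard_le_ncard h1 (Set.toFinite _))
  exact Set.eq_of_subset_of_ncard_le h1 h3 (Set.toFinite _)

theorem MinCycle.strong {O : Set V} (h : MinCycle adj O) : SStrong adj O := by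
  obtain ⟨M, h1, _, h3, h4⟩ := sprop_hasCycle.strong h.1
  rw [h.2 M h1 h3] at h4
  exact h4

theorem MinCycle.flip {O : Set V} (h : MinCycle adj O) : MinCycle (fun x y => adj y x) O :=
  ⟨h.1.flip, fun O' h1 h2 => h.2 O' h1 h2.flip⟩

/-- The two arcs of a minimal cycle between two of its vertices. -/
theorem MinCycle.arcs [Finite V] {O : Set V} (h : MinCycle adj O) {a b : V} (ha : a ∈ O)
    (hb : b ∈ O) (hab : a ≠ b) : ∃ A B : Set V, A ⊆ O \ {a, b} ∧ B ⊆ O \ {a, b} ∧ Disjoint A B ∧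
      Conn adj A a b ∧ Conn adj B b a := by
  have hs := h.strong
  obtain ⟨A, hA, mA⟩ := exists_MP (conn_of_RR (hs a ha b hb) hab)
  obtain ⟨B, hB, mB⟩ := exists_MP (conn_of_RR (hs b hb a ha) hab.symm)
  have hA' : ∀ y ∈ A, y ∈ O ∧ y ≠ a ∧ y ≠ b := fun y hy => ⟨(hA hy).1.1, (hA hy).1.2, (hA hy).2⟩
  have hB' : ∀ y ∈ B, y ∈ O ∧ y ≠ a ∧ y ≠ b := fun y hy => ⟨(hB hy).1.1, (hB hy).2, (hB hy).1.2⟩
  refine ⟨A, B, ?_, ?_, ?_, mA.1, mB.1⟩
  · intro y hy
    obtain ⟨g1, g2, g3⟩ := hA' y hy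
    exact ⟨g1, by simp [g2, g3]⟩
  · intro y hy
    obtain ⟨g1, g2, g3⟩ := hB' y hy
    exact ⟨g1, by simp [g2, g3]⟩
  · rw [Set.disjoint_left]
    intro c hcA hcB
    obtain ⟨U, _, hU, _, _, c1, _⟩ := mA.split hcA
    obtain ⟨_, W, _, hW, _, _, c2⟩ := mB.split hcB
    -- the closed walk `a ⇒ c ⇒ a` avoids `b`
    have c3 := Conn.join c1 c2
    obtain ⟨p, hp, q, hq, g1, g2, g3⟩ := c3
    have hsub : insert a (U ∪ (W ∪ {c})) ⊆ O := by
      rintro y (rfl | hy | hy | hy)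
      · exact ha
      · exact (hA' y (hU hy).1).1
      · exact (hB' y (hW hy).1).1
      · have hy' : y = c := hy
        rw [hy']
        exact (hA' c hcA).1
    have hcyc : HasCycle adj (insert a (U ∪ (W ∪ {c}))) :=
      ⟨a, Or.inl rfl, p, Or.inr hp, g1,
        (RR.mono (Set.subset_insert _ _) g2).tail ⟨Or.inr hq, Or.inl rfl, g3⟩⟩
    have heq := h.2 _ hsub hcyc
    have hb' : b ∈ insert a (U ∪ (W ∪ {c})) := by
      rw [heq]
      exact hb
    rcases hb' with hb' | hb' | hb' | hb'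
    · exact hab hb'.symm
    · exact (hA' b (hU hb').1).2.2 rfl
    · exact (hB' b (hW hb').1).2.2 rfl
    · have hb'' : b = c := hb'
      exact (hA' c hcA).2.2 hb''.symm

/-- **Fact N.** If every vertex but `h` reaches `w` off any vertex and there is a cycle (off `h`)
all of whose vertices are out-neighbours of `w`, then there is a subdivision of the bidirected
triangle off `h`. -/
theorem factN_out [Finite V] {h w : V} (hwh : w ≠ h) (irr : ∀ u, ¬ adj u u) {O : Set V}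
    (hO : HasCycle adj O) (hOh : h ∉ O) (hOw : ∀ u ∈ O, adj w u)
    (str : ∀ s, s ≠ w → ∀ u ∈ O, u ≠ s → RR adj {s}ᶜ u w) : K3off adj h := by
  classical
  have := Fintype.ofFinite V
  obtain ⟨C, hCO, hC⟩ := hO.exists_min
  have hwC : w ∉ C := fun g => irr w (hOw w (hCO g))
  -- two vertices of `C`
  have htwo : ∀ s, ∃ u ∈ C, u ≠ s := by
    intro s
    by_contra hcon
    push Not at hcon
    obtain ⟨x, hx, y, hy, g, _⟩ := hC.1
    rw [hcon x hx, hcon y hy] at g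
    exact irr s g
  -- the digraph without the arcs into `C`
  let adj' : V → V → Prop := fun a b => adj a b ∧ b ∉ C
  have hsub : ∀ {S : Set V} {a b : V}, RR adj' S a b → RR adj S a b := by
    intro S a b hr
    induction hr with
    | refl => exact ReflTransGen.refl
    | tail _ g ih => exact ih.tail ⟨g.1, g.2.1, g.2.2.1⟩
  have hfan : ∀ s, s ≠ w → ∃ r ∈ C.toFinset, r ≠ s ∧
      RR adj' (((univ : Finset V) : Set V) \ {s}) r w := by
    intro s hs
    obtain ⟨u, hu, hus⟩ := htwo s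
    rcases last_exit (B := C) (str s hs u (hCO hu) hus) hwC with ⟨_, g⟩ |
      ⟨y, z, g1, g2, g3, g4, g5, g6, _⟩
    · exact absurd hu g
    · refine ⟨y, by simpa using g2, g1, ?_⟩
      have key : ∀ x, RR adj ({s}ᶜ \ C) z x → RR adj' (((univ : Finset V) : Set V) \ {s}) y x := by
        intro x hx
        induction hx with
        | refl => exact ReflTransGen.single ⟨⟨by simp, g1⟩, ⟨by simp, g3⟩, g5, g4⟩
        | tail _ k ih => exact ih.tail ⟨⟨by simp, k.1.1⟩, ⟨by simp, k.2.1.1⟩, k.2.2, k.2.1.2⟩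
      exact key w g6
  have hwC' : w ∉ C.toFinset := by simpa using hwC
  have hne : C.toFinset.Nonempty := by
    obtain ⟨u, hu, _⟩ := htwo w
    exact ⟨u, by simpa using hu⟩
  obtain ⟨S, r, hd, hS⟩ := fan (adj := adj') univ C.toFinset w (Finset.subset_univ _) hwC' hne hfan
  have hrC : ∀ i, r i ∈ C := fun i => by simpa using (hS i).2.1
  have hrS : ∀ i, r i ∈ S i := fun i => (hS i).2.2.1
  have hwS : ∀ i, w ∉ S i := fun i g => ((hS i).1 g).2 rfl
  -- `S i` meets `C` in `r i` only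
  have hSC : ∀ i, ∀ p ∈ S i, p ∈ C → p = r i := by
    intro i p hp hpC
    have hr := ((hS i).2.2.2 p hp).1
    rcases ReflTransGen.cases_tail hr with g | ⟨q, _, g⟩
    · exact g
    · exact absurd hpC g.2.2.2
  have hconn : ∀ i, Conn adj (S i \ {r i}) (r i) w := by
    intro i
    obtain ⟨_, q, hq, g1, g2⟩ := (hS i).2.2.2 (r i) (hrS i)
    have g3 : RR adj (insert w (S i)) (r i) w :=
      (RR.mono (Set.subset_insert _ _) (hsub g1)).tail ⟨Or.inr hq, Or.inl rfl, g2.1⟩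
    have hrw : r i ≠ w := fun g => hwS i (g ▸ hrS i)
    refine Conn.mono ?_ (conn_of_RR g3 hrw)
    rintro y ⟨⟨hy | hy, hyr⟩, hyw⟩
    · exact absurd hy hyw
    · exact ⟨hy, hyr⟩
  have hr01 : r 0 ≠ r 1 := fun g => Set.disjoint_left.1 hd (hrS 0) (g ▸ hrS 1)
  obtain ⟨A, B, hA, hB, hAB, cA, cB⟩ := hC.arcs (hrC 0) (hrC 1) hr01
  have hne0 : r 0 ≠ w := fun g => hwC (g ▸ hrC 0)
  have hne1 : r 1 ≠ w := fun g => hwC (g ▸ hrC 1)
  let T0 : Set V := S 0 \ {r 0}
  let T1 : Set V := S 1 \ {r 1}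
  let lab : V → ℕ := fun u => if u ∈ T0 then 2 else if u ∈ T1 then 6 else if u ∈ A then 4 else
    if u ∈ B then 5 else 0
  have hT0C : ∀ y ∈ T0, y ∉ C := fun y hy g => hy.2 (hSC 0 y hy.1 g)
  have hT1C : ∀ y ∈ T1, y ∉ C := fun y hy g => hy.2 (hSC 1 y hy.1 g)
  have hAC : ∀ y ∈ A, y ∈ C := fun y hy => (hA hy).1
  have hBC : ∀ y ∈ B, y ∈ C := fun y hy => (hB hy).1
  have hAr : ∀ y ∈ A, y ≠ r 0 ∧ y ≠ r 1 := fun y hy => by
    have := (hA hy).2
    simpa using this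
  have hBr : ∀ y ∈ B, y ≠ r 0 ∧ y ≠ r 1 := fun y hy => by
    have := (hB hy).2
    simpa using this
  have l2 : T0 ⊆ {u | lab u = 2} := by
    intro u hu
    show lab u = 2
    simp [lab, hu]
  have l6 : T1 ⊆ {u | lab u = 6} := by
    intro u hu
    have h1 : u ∉ T0 := fun g => Set.disjoint_left.1 hd g.1 hu.1
    show lab u = 6
    simp [lab, hu, h1]
  have l4 : A ⊆ {u | lab u = 4} := by
    intro u hu
    have h1 : u ∉ T0 := fun g => hT0C u g (hAC u hu)
    have h2 : u ∉ T1 := fun g => hT1C u g (hAC u hu)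
    show lab u = 4
    simp [lab, hu, h1, h2]
  have l5 : B ⊆ {u | lab u = 5} := by
    intro u hu
    have h1 : u ∉ T0 := fun g => hT0C u g (hBC u hu)
    have h2 : u ∉ T1 := fun g => hT1C u g (hBC u hu)
    have h3 : u ∉ A := fun g => Set.disjoint_left.1 hAB g hu
    show lab u = 5
    simp [lab, hu, h1, h2, h3]
  have l0 : ∀ u, u ∉ T0 → u ∉ T1 → u ∉ A → u ∉ B → lab u = 0 := by
    intro u h1 h2 h3 h4
    simp [lab, h1, h2, h3, h4]
  refine ⟨w, r 0, r 1, lab, ⟨hwh, fun g => hOh (g ▸ hCO (hrC 0)), fun g => hOh (g ▸ hCO (hrC 1))⟩,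
    hne0.symm, hne1.symm, hr01, ?_, ?_, ?_, Or.inl (hOw _ (hCO (hrC 0))),
    Conn.mono l2 (hconn 0), Or.inl (hOw _ (hCO (hrC 1))), Conn.mono l4 cA, Conn.mono l5 cB,
    Conn.mono l6 (hconn 1)⟩
  · exact l0 w (fun g => hwS 0 g.1) (fun g => hwS 1 g.1) (fun g => hwC (hAC w g))
      (fun g => hwC (hBC w g))
  · exact l0 _ (fun g => g.2 rfl) (fun g => hT1C _ g (hrC 0)) (fun g => (hAr _ g).1 rfl)
      (fun g => (hBr _ g).1 rfl)
  · exact l0 _ (fun g => hT0C _ g (hrC 1)) (fun g => g.2 rfl) (fun g => (hAr _ g).2 rfl)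
      (fun g => (hBr _ g).2 rfl)

/-- **Fact N**, in-neighbours. -/
theorem factN_in [Finite V] {h w : V} (hwh : w ≠ h) (irr : ∀ u, ¬ adj u u) {O : Set V}
    (hO : HasCycle adj O) (hOh : h ∉ O) (hOw : ∀ u ∈ O, adj u w)
    (str : ∀ s, s ≠ w → ∀ u ∈ O, u ≠ s → RR adj {s}ᶜ w u) : K3off adj h :=
  K3off_flip (factN_out hwh irr hO.flip hOh hOw fun s hs u hu hus => RR_flip' (str s hs u hu hus))

end Pool.Agent.H.MP_0cacf8
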