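import Pool.Agent.H.MP_0cacf8.Arc

/-!
# Two-sided partitions force a subdivision of the bidirected triangle

Let `D` be strongly connected and let `A`, `B` be disjoint vertex sets such that every vertex of `A`
has two out-neighbours in `A`, every vertex of `B` has two in-neighbours in `B`, every vertex
outside `B` ends a walk from `B` whose other vertices avoid `A`, and every vertex outside `A` starts
a walk to `A` whose other vertices avoid `B`. Then `D` contains a subdivision of the bidirected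
triangle. The proof is a descent: an out-core `T ⊆ A` and a source component `S` of `D - T` give an
in-core `U ⊆ S` and a sink component `F` of `D - U` with `F ⊆ S \ U`.
-/

set_option autoImplicit false

namespace Pool.Agent.H.MP_0cacf8

open Relation Finset Pool.Agent.H.MP_0d008e_co

section fam

variable {V : Type*}

/-- An out-core: nonempty, strongly connected, out-degrees at least two inside, and every vertex has
an in-neighbour outside. -/
def OutCore (adj : V → V → Prop) (T : Finset V) : Prop :=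
  T.Nonempty ∧ (∀ u ∈ T, ∀ v ∈ T, RR adj (T : Set V) u v) ∧
    (∀ x ∈ T, ∃ p ∈ T, ∃ q ∈ T, p ≠ q ∧ p ≠ x ∧ q ≠ x ∧ adj x p ∧ adj x q) ∧
    ∀ x ∈ T, ∃ y, y ∉ T ∧ adj y x

/-- `S` is a source component of `D - T`. -/
def SrcComp (adj : V → V → Prop) (T S : Finset V) : Prop :=
  S.Nonempty ∧ Disjoint S T ∧ (∀ u, u ∉ T → ∀ v ∈ S, adj u v → u ∈ S) ∧
    ∀ u ∈ S, ∀ v ∈ S, RR adj (S : Set V) u v

/-- Families of out-cores (for `adj`) and of in-cores (out-cores of the reversed digraph), such that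
every source component of `D - T` contains an in-core of the family and every sink component of
`D - U` contains an out-core of the family. -/
structure CoreFam (adj : V → V → Prop) (FT FU : Finset V → Prop) : Prop where
  strong : ∀ u v, ReflTransGen adj u v
  coreT : ∀ T, FT T → OutCore adj T
  coreU : ∀ U, FU U → OutCore (fun x y => adj y x) U
  stepT : ∀ T S, FT T → SrcComp adj T S → ∃ U, U ⊆ S ∧ FU U
  stepU : ∀ U F, FU U → SrcComp (fun x y => adj y x) U F → ∃ T, T ⊆ F ∧ FT T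

theorem CoreFam.flip {adj : V → V → Prop} {FT FU : Finset V → Prop} (h : CoreFam adj FT FU) :
    CoreFam (fun x y => adj y x) FU FT where
  strong := fun u v => rtg_flip (h.strong v u) (fun _ _ h => h)
  coreT := h.coreU
  coreU := h.coreT
  stepT := h.stepU
  stepU := h.stepT

variable [Fintype V] [DecidableEq V]

/-- One step of the descent. -/
theorem CoreFam.step {adj : V → V → Prop} {FT FU : Finset V → Prop} (h : CoreFam adj FT FU)
    (hK : ¬ K3set adj) {T S : Finset V} (hT : FT T) (hS : SrcComp adj T S) :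
    ∃ U F, FU U ∧ SrcComp (fun x y => adj y x) U F ∧ F.card < S.card := by
  classical
  obtain ⟨hSne, hST, hScl, hSs⟩ := hS
  obtain ⟨U, hUS, hU⟩ := h.stepT T S hT ⟨hSne, hST, hScl, hSs⟩
  obtain ⟨hUne, hUs, hUdeg, hUout⟩ := h.coreU U hU
  obtain ⟨hTne, hTs, _, _⟩ := h.coreT T hT
  obtain ⟨t, ht⟩ := hTne
  have hTU : ∀ x ∈ T, x ∉ U := by
    intro x hx hxU
    exact Finset.disjoint_left.1 hST (hUS hxU) hx
  -- vertices outside `U` that do not reach `t` outside `U`
  set R : Finset V := (univ : Finset V).filter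
    (fun v => v ∉ U ∧ ¬ ReflTransGen (fun a b => adj a b ∧ b ∉ U) v t) with hR
  have hRne : R.Nonempty := by
    by_contra hcon
    rw [Finset.not_nonempty_iff_eq_empty] at hcon
    have hall : ∀ v, v ∉ U → ReflTransGen (fun a b => adj a b ∧ b ∉ U) v t := by
      intro v hv
      by_contra hv2
      have : v ∈ R := mem_filter.2 ⟨mem_univ _, hv, hv2⟩
      rw [hcon] at this
      exact absurd this (Finset.notMem_empty v)
    refine hK (thmE t U hUne (hTU t ht) hUdeg (fun x _ => h.strong t x) ?_)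
    intro x hx
    obtain ⟨y, hy, hxy⟩ := hUout x hx
    exact ReflTransGen.head ⟨hxy, hy⟩ (hall y hy)
  obtain ⟨F, hFR, hFne, hFcl, hFs⟩ := exists_source (adj := fun x y => adj y x) R hRne
  have hRcl : ∀ u, u ∉ U → ∀ v ∈ R, adj v u → u ∈ R := by
    intro u hu v hv hvu
    obtain ⟨_, hv1, hv2⟩ := mem_filter.1 hv
    exact mem_filter.2 ⟨mem_univ _, hu, fun hut => hv2 (ReflTransGen.head ⟨hvu, hu⟩ hut)⟩
  have hFU : Disjoint F U := by
    rw [Finset.disjoint_left]
    intro x hx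
    exact (mem_filter.1 (hFR hx)).2.1
  have hFcl' : ∀ u, u ∉ U → ∀ v ∈ F, adj v u → u ∈ F := by
    intro u hu v hv hvu
    exact hFcl u (hRcl u hu v (hFR hv) hvu) v hv hvu
  have hFT : ∀ x ∈ F, x ∉ T := by
    intro x hx hxT
    refine (mem_filter.1 (hFR hx)).2.2 ?_
    have h1 := hTs x hxT t ht
    clear_value R
    induction h1 using ReflTransGen.head_induction_on with
    | refl => exact ReflTransGen.refl
    | head hab _ ih => 
      exact ReflTransGen.head ⟨hab.2.2, hTU _ hab.2.1⟩ (ih (hFcl' _ (hTU _ hab.2.1) _ hx hab.2.2) hab.2.1)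
  -- a vertex of `F` has an arc to `U`
  obtain ⟨f0, hf0⟩ := hFne
  obtain ⟨u0, hu0⟩ := hUne
  have hex : ∃ f ∈ F, ∃ u ∈ U, adj f u := by
    by_contra hcon
    push Not at hcon
    have key : ∀ w, ReflTransGen adj f0 w → w ∈ F := by
      intro w hw
      induction hw with
      | refl => exact hf0
      | @tail b c _ hbc ih =>
        by_cases hc : c ∈ U
        · exact absurd hbc (hcon b ih c hc)
        · exact hFcl' c hc b ih hbc
    exact Finset.disjoint_left.1 hFU (key u0 (h.strong f0 u0)) hu0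
  obtain ⟨f, hf, u, hu, hfu⟩ := hex
  have hfS : f ∈ S := hScl f (hFT f hf) u (hUS hu) hfu
  have hFS : F ⊆ S := by
    intro x hx
    have h1 := RR_flip (hFs f hf x hx)
    have key : ∀ w, RR adj (F : Set V) w f → w ∈ S := by
      intro w hw
      induction hw using ReflTransGen.head_induction_on with
      | refl => exact hfS
      | head hab _ ih => exact hScl _ (hFT _ hab.1) _ ih hab.2.2
    exact key x h1
  refine ⟨U, F, hU, ⟨⟨f0, hf0⟩, hFU, hFcl', hFs⟩, ?_⟩
  refine Finset.card_lt_card (Finset.ssubset_iff_subset_ne.2 ⟨hFS, ?_⟩)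
  rintro rfl
  exact Finset.disjoint_left.1 hFU (hUS hu0) hu0

/-- The family version. -/
theorem CoreFam.descent (n : ℕ) : ∀ (adj : V → V → Prop) (FT FU : Finset V → Prop),
    CoreFam adj FT FU → ∀ T S, FT T → SrcComp adj T S → S.card = n → K3set adj := by
  induction n using Nat.strong_induction_on with
  | _ n ih =>
    intro adj FT FU h T S hT hS hn
    by_contra hK
    obtain ⟨U, F, hU, hF, hlt⟩ := h.step hK hT hS
    exact hK (K3set_flip (ih F.card (hn ▸ hlt) _ FU FT h.flip U F hU hF rfl))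

theorem exists_srcComp (adj : V → V → Prop) (T : Finset V) (hT : ∃ y, y ∉ T) :
    ∃ S, SrcComp adj T S := by
  obtain ⟨y, hy⟩ := hT
  obtain ⟨S, h1, h2, h3, h4⟩ := exists_source (adj := adj) (univ \ T)
    ⟨y, Finset.mem_sdiff.2 ⟨mem_univ _, hy⟩⟩
  refine ⟨S, h2, ?_, ?_, h4⟩
  · rw [Finset.disjoint_left]
    intro x hx
    exact (Finset.mem_sdiff.1 (h1 hx)).2
  · intro u hu
    exact h3 u (Finset.mem_sdiff.2 ⟨mem_univ _, hu⟩)

theorem K3_of_coreFam {adj : V → V → Prop} {FT FU : Finset V → Prop} (h : CoreFam adj FT FU)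
    (hne : ∃ T, FT T) : K3set adj := by
  obtain ⟨T, hT⟩ := hne
  obtain ⟨⟨x, hx⟩, _, _, hout⟩ := h.coreT T hT
  obtain ⟨y, hy, _⟩ := hout x hx
  obtain ⟨S, hS⟩ := exists_srcComp adj T ⟨y, hy⟩
  exact CoreFam.descent S.card adj FT FU h T S hT hS rfl

end fam

section part

variable {V : Type*}

/-- The hypothesis of the partition theorem. -/
structure TwoSided (adj : V → V → Prop) (A B : Finset V) : Prop where
  strong : ∀ u v, ReflTransGen adj u v
  disj : Disjoint A B
  degA : ∀ x ∈ A, ∃ p ∈ A, ∃ q ∈ A, p ≠ q ∧ p ≠ x ∧ q ≠ x ∧ adj x p ∧ adj x q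
  degB : ∀ x ∈ B, ∃ p ∈ B, ∃ q ∈ B, p ≠ q ∧ p ≠ x ∧ q ≠ x ∧ adj p x ∧ adj q x
  fromB : ∀ v, v ∉ B → ∃ b ∈ B, ReflTransGen (fun x y => adj x y ∧ x ∉ A) b v
  toA : ∀ v, v ∉ A → ∃ a ∈ A, ReflTransGen (fun x y => adj x y ∧ y ∉ B) v a

theorem TwoSided.flip {adj : V → V → Prop} {A B : Finset V} (h : TwoSided adj A B) :
    TwoSided (fun x y => adj y x) B A where
  strong := fun u v => rtg_flip (h.strong v u) (fun _ _ h => h)
  disj := h.disj.symm
  degA := h.degB
  degB := h.degA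
  fromB := by
    intro v hv
    obtain ⟨a, ha, hp⟩ := h.toA v hv
    exact ⟨a, ha, rtg_flip hp (fun _ _ h => h)⟩
  toA := by
    intro v hv
    obtain ⟨b, hb, hp⟩ := h.fromB v hv
    exact ⟨b, hb, rtg_flip hp (fun _ _ h => h)⟩

/-- The cores in `A`. -/
theorem TwoSided.coreT {adj : V → V → Prop} {A B : Finset V} (h : TwoSided adj A B) (T : Finset V)
    (hT : T ⊆ A ∧ T.Nonempty ∧ (∀ u ∈ T, ∀ v ∈ T, RR adj (T : Set V) u v) ∧
      (∀ x ∈ T, ∃ p ∈ T, ∃ q ∈ T, p ≠ q ∧ p ≠ x ∧ q ≠ x ∧ adj x p ∧ adj x q)) :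
    OutCore adj T := by
  obtain ⟨hTA, hne, hs, hd⟩ := hT
  refine ⟨hne, hs, hd, ?_⟩
  intro x hx
  have hxB : x ∉ B := Finset.disjoint_left.1 h.disj (hTA hx)
  obtain ⟨b, hb, hp⟩ := h.fromB x hxB
  rcases ReflTransGen.cases_tail hp with h1 | ⟨y, _, hy1, hy2⟩
  · exact absurd (h1 ▸ hb) hxB
  · exact ⟨y, fun h2 => hy2 (hTA h2), hy1⟩

variable [Fintype V] [DecidableEq V]

/-- A source component of `D - T`, `T ⊆ A`, contains an in-core in `B`. -/
theorem TwoSided.stepT {adj : V → V → Prop} {A B : Finset V} (h : TwoSided adj A B)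
    (T S : Finset V) (hTA : T ⊆ A) (hS : SrcComp adj T S) :
    ∃ U, U ⊆ S ∧ (U ⊆ B ∧ U.Nonempty ∧
      (∀ u ∈ U, ∀ v ∈ U, RR (fun x y => adj y x) (U : Set V) u v) ∧
      (∀ x ∈ U, ∃ p ∈ U, ∃ q ∈ U, p ≠ q ∧ p ≠ x ∧ q ≠ x ∧ adj p x ∧ adj q x)) := by
  classical
  obtain ⟨⟨s, hs⟩, hST, hScl, hSs⟩ := hS
  -- `S` meets `B`
  have hmeet : (S ∩ B).Nonempty := by
    by_cases hsB : s ∈ B
    · exact ⟨s, Finset.mem_inter.2 ⟨hs, hsB⟩⟩
    · obtain ⟨b, hb, hp⟩ := h.fromB s hsB
      refine ⟨b, Finset.mem_inter.2 ⟨?_, hb⟩⟩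
      have key : ∀ w, ReflTransGen (fun x y => adj x y ∧ x ∉ A) w s → w ∈ S := by
        intro w hw
        induction hw using ReflTransGen.head_induction_on with
        | refl => exact hs
        | head hab _ ih => exact hScl _ (fun h2 => hab.2 (hTA h2)) _ ih hab.1
      exact key b hp
  obtain ⟨U, hUSB, hUne, hUcl, hUs⟩ := exists_source (adj := adj) (S ∩ B) hmeet
  refine ⟨U, fun x hx => (Finset.mem_inter.1 (hUSB hx)).1,
    fun x hx => (Finset.mem_inter.1 (hUSB hx)).2, hUne, ?_, ?_⟩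
  · intro u hu v hv
    exact RR_flip (adj := fun x y => adj y x) (hUs v hv u hu)
  · intro x hx
    have hxS := (Finset.mem_inter.1 (hUSB hx)).1
    have hxB := (Finset.mem_inter.1 (hUSB hx)).2
    obtain ⟨p, hp, q, hq, h1, h2, h3, h4, h5⟩ := h.degB x hxB
    have hpT : p ∉ T := fun h6 => Finset.disjoint_left.1 h.disj (hTA h6) hp
    have hqT : q ∉ T := fun h6 => Finset.disjoint_left.1 h.disj (hTA h6) hq
    exact ⟨p, hUcl p (Finset.mem_inter.2 ⟨hScl p hpT x hxS h4, hp⟩) x hx h4,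
      q, hUcl q (Finset.mem_inter.2 ⟨hScl q hqT x hxS h5, hq⟩) x hx h5, h1, h2, h3, h4, h5⟩

/-- The two-sided partition theorem. -/
theorem K3_of_twoSided {adj : V → V → Prop} {A B : Finset V} (h : TwoSided adj A B)
    (hA : A.Nonempty) : K3set adj := by
  classical
  refine K3_of_coreFam (adj := adj)
    (FT := fun T => T ⊆ A ∧ T.Nonempty ∧ (∀ u ∈ T, ∀ v ∈ T, RR adj (T : Set V) u v) ∧
      (∀ x ∈ T, ∃ p ∈ T, ∃ q ∈ T, p ≠ q ∧ p ≠ x ∧ q ≠ x ∧ adj x p ∧ adj x q))
    (FU := fun U => U ⊆ B ∧ U.Nonempty ∧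
      (∀ u ∈ U, ∀ v ∈ U, RR (fun x y => adj y x) (U : Set V) u v) ∧
      (∀ x ∈ U, ∃ p ∈ U, ∃ q ∈ U, p ≠ q ∧ p ≠ x ∧ q ≠ x ∧ adj p x ∧ adj q x)) ?_ ?_
  · refine ⟨h.strong, h.coreT, h.flip.coreT, ?_, ?_⟩
    · intro T S hT hS
      exact h.stepT T S hT.1 hS
    · intro U F hU hF
      exact h.flip.stepT U F hU.1 hF
  · obtain ⟨T, h1, h2, h3, h4⟩ := exists_source (adj := fun x y => adj y x) A hA
    refine ⟨T, h1, h2, ?_, ?_⟩
    · intro u hu v hv
      exact RR_flip (h4 v hv u hu)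
    · intro x hx
      obtain ⟨p, hp, q, hq, g1, g2, g3, g4, g5⟩ := h.degA x (h1 hx)
      exact ⟨p, h3 p hp x hx g4, q, h3 q hq x hx g5, g1, g2, g3, g4, g5⟩

end part

end Pool.Agent.H.MP_0cacf8
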