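import Pool.Agent.H.MP_0cacf8.Arc

/-!
# Two disjoint sets in a strong digraph force a subdivision of the bidirected triangle

Let `D` be strongly connected, `Z` a (possibly empty) vertex set with `D[Z]` strong, and let `A`, `B`
be vertex sets, not both empty, `A`, `B`, `Z` pairwise disjoint, such that every vertex of `A` has two
out-neighbours in `A` and ends a walk from `B ∪ Z` whose other vertices avoid `A`, and every vertex of
`B` has two in-neighbours in `B` and starts a walk to `A ∪ Z` whose other vertices avoid `B`. Then `D`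
contains a subdivision of the bidirected triangle. There is no condition on the other vertices. The
proof: take a strong set `Ω ⊇ Z` of maximal size that is disjoint from an out-core in `A` or from an
in-core in `B`.
-/

set_option autoImplicit false

namespace Pool.Agent.H.MP_0cacf8

open Relation Finset Pool.Agent.H.MP_0d008e_co

variable {V : Type*}

/-- The hypothesis of the theorem. -/
structure TwoDisj (adj : V → V → Prop) (Z A B : Finset V) : Prop where
  strong : ∀ u v, ReflTransGen adj u v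
  strongZ : ∀ u ∈ Z, ∀ v ∈ Z, RR adj (Z : Set V) u v
  disj : Disjoint A B
  disjA : Disjoint Z A
  disjB : Disjoint Z B
  degA : ∀ x ∈ A, ∃ p ∈ A, ∃ q ∈ A, p ≠ q ∧ p ≠ x ∧ q ≠ x ∧ adj x p ∧ adj x q
  degB : ∀ x ∈ B, ∃ p ∈ B, ∃ q ∈ B, p ≠ q ∧ p ≠ x ∧ q ≠ x ∧ adj p x ∧ adj q x
  fromB : ∀ v ∈ A, ∃ b, (b ∈ B ∨ b ∈ Z) ∧ ReflTransGen (fun x y => adj x y ∧ x ∉ A) b v
  toA : ∀ v ∈ B, ∃ a, (a ∈ A ∨ a ∈ Z) ∧ ReflTransGen (fun x y => adj x y ∧ y ∉ B) v a

theorem rr_flip' {adj : V → V → Prop} {W : Set V} {v w : V} (hw : RR adj W v w) :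
    RR (fun x y => adj y x) W w v := by
  induction hw with
  | refl => exact ReflTransGen.refl
  | tail _ h3 ih => exact ReflTransGen.head ⟨h3.2.1, h3.1, h3.2.2⟩ ih

theorem TwoDisj.flip {adj : V → V → Prop} {Z A B : Finset V} (h : TwoDisj adj Z A B) :
    TwoDisj (fun x y => adj y x) Z B A where
  strong := fun u v => rtg_flip (h.strong v u) (fun _ _ h => h)
  strongZ := fun u hu v hv => rr_flip' (h.strongZ v hv u hu)
  disj := h.disj.symm
  disjA := h.disjB
  disjB := h.disjA
  degA := h.degB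
  degB := h.degA
  fromB := by
    intro v hv
    obtain ⟨a, ha, hp⟩ := h.toA v hv
    exact ⟨a, ha, rtg_flip hp (fun _ _ h => h)⟩
  toA := by
    intro v hv
    obtain ⟨b, hb, hp⟩ := h.fromB v hv
    exact ⟨b, hb, rtg_flip hp (fun _ _ h => h)⟩

/-- A core in `A`: a nonempty subset in which every vertex has two out-neighbours. -/
def CoreIn (adj : V → V → Prop) (A X : Finset V) : Prop :=
  X ⊆ A ∧ X.Nonempty ∧ ∀ x ∈ X, ∃ p ∈ X, ∃ q ∈ X, p ≠ q ∧ p ≠ x ∧ q ≠ x ∧ adj x p ∧ adj x q

/-- `Ω ⊇ Z` is nonempty and strongly connected, `X` is a core in `A` disjoint from it. -/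
def Good (adj : V → V → Prop) (Z A Ω X : Finset V) : Prop :=
  Ω.Nonempty ∧ (∀ u ∈ Ω, ∀ v ∈ Ω, RR adj (Ω : Set V) u v) ∧ CoreIn adj A X ∧ Disjoint Ω X ∧ Z ⊆ Ω

variable [Fintype V] [DecidableEq V]

/-- One step: a larger strong set which is disjoint from a core on the other side. -/
theorem TwoDisj.step {adj : V → V → Prop} {Z A B : Finset V} (h : TwoDisj adj Z A B)
    (hK : ¬ K3set adj) {Ω X : Finset V} (hg : Good adj Z A Ω X) :
    ∃ Ω' U, Good (fun x y => adj y x) Z B Ω' U ∧ Ω.card < Ω'.card := by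
  classical
  obtain ⟨hΩne, hΩs, ⟨hXA, hXne, hXdeg⟩, hΩX, hZΩ⟩ := hg
  -- a sink component `T` of `X`
  obtain ⟨T, hTX, hTne, hTcl, hTs'⟩ := exists_source (adj := fun x y => adj y x) X hXne
  have hTs : ∀ u ∈ T, ∀ v ∈ T, RR adj (T : Set V) u v := fun u hu v hv => RR_flip (hTs' v hv u hu)
  have hTA : T ⊆ A := hTX.trans hXA
  have hTdeg : ∀ x ∈ T, ∃ p ∈ T, ∃ q ∈ T, p ≠ q ∧ p ≠ x ∧ q ≠ x ∧ adj x p ∧ adj x q := by
    intro x hx
    obtain ⟨p, hp, q, hq, h1, h2, h3, h4, h5⟩ := hXdeg x (hTX hx)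
    exact ⟨p, hTcl p hp x hx h4, q, hTcl q hq x hx h5, h1, h2, h3, h4, h5⟩
  have hΩT : ∀ x ∈ Ω, x ∉ T := fun x hx hxT => Finset.disjoint_left.1 hΩX hx (hTX hxT)
  have hTB : ∀ x ∈ T, x ∉ B := fun x hx => Finset.disjoint_left.1 h.disj (hTA hx)
  obtain ⟨t0, ht0⟩ := hTne
  obtain ⟨o0, ho0⟩ := hΩne
  -- the vertices above `Ω` in `D - T`
  set Anc : Finset V := (univ : Finset V).filter
    (fun v => v ∉ T ∧ RR adj ((T : Set V)ᶜ) v o0) with hAnc
  have hΩAnc : ∀ x ∈ Ω, x ∈ Anc := by
    intro x hx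
    refine mem_filter.2 ⟨mem_univ _, hΩT x hx, RR.mono ?_ (hΩs x hx o0 ho0)⟩
    intro u hu
    exact hΩT u hu
  obtain ⟨S, hSA, ⟨r, hrS⟩, hScl', hSs⟩ := exists_source (adj := adj) Anc ⟨o0, hΩAnc o0 ho0⟩
  have hST : ∀ x ∈ S, x ∉ T := fun x hx => (mem_filter.1 (hSA hx)).2.1
  have hScl : ∀ u, u ∉ T → ∀ v ∈ S, adj u v → u ∈ S := by
    intro u hu v hv huv
    refine hScl' u (mem_filter.2 ⟨mem_univ _, hu, ?_⟩) v hv huv
    exact ReflTransGen.head ⟨hu, hST v hv, huv⟩ (mem_filter.1 (hSA hv)).2.2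
  have hrT : r ∉ T := hST r hrS
  -- the vertices reached from `r` in `D - T`
  set R : Finset V := (univ : Finset V).filter (fun v => RR adj ((T : Set V)ᶜ) r v) with hR
  have hRT : ∀ x ∈ R, x ∉ T := fun x hx => RR.mem_right (mem_filter.1 hx).2 hrT
  have hrR : r ∈ R := mem_filter.2 ⟨mem_univ _, ReflTransGen.refl⟩
  have hRstep : ∀ u ∈ R, ∀ v, v ∉ T → adj u v → v ∈ R := by
    intro u hu v hv huv
    exact mem_filter.2 ⟨mem_univ _, (mem_filter.1 hu).2.tail ⟨hRT u hu, hv, huv⟩⟩
  have hSR : ∀ x ∈ S, x ∈ R := by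
    intro x hx
    refine mem_filter.2 ⟨mem_univ _, RR.mono ?_ (hSs r hrS x hx)⟩
    intro u hu
    exact hST u hu
  have hΩR : ∀ x ∈ Ω, x ∈ R := by
    intro x hx
    refine mem_filter.2 ⟨mem_univ _, (mem_filter.1 (hSA hrS)).2.2.trans (RR.mono ?_ (hΩs o0 ho0 x hx))⟩
    intro u hu
    exact hΩT u hu
  by_cases hBR : B ⊆ R
  · -- Theorem E' with root `r` and `X = T`
    exfalso
    refine hK (K3set_flip (thmE (adj := fun x y => adj y x) r T ⟨t0, ht0⟩ hrT hTdeg ?_ ?_))
    · intro x _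
      exact rtg_flip (h.strong x r) (fun _ _ h => h)
    · intro x hx
      obtain ⟨b, hb, hp⟩ := h.fromB x (hTA hx)
      have hbR : b ∈ R := by
        rcases hb with hb | hb
        · exact hBR hb
        · exact hΩR b (hZΩ hb)
      have h1 : ReflTransGen (fun a b => adj a b ∧ a ∉ T) r b := by
        have h2 := (mem_filter.1 hbR).2
        clear_value R Anc
        clear hp hb hbR
        induction h2 with
        | refl => exact ReflTransGen.refl
        | tail _ h3 ih => exact ih.tail ⟨h3.2.2, h3.1⟩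
      have h2 : ReflTransGen (fun a b => adj a b ∧ a ∉ T) b x := by
        refine ReflTransGen.mono ?_ _ _ hp
        intro u v huv
        exact ⟨huv.1, fun h3 => huv.2 (hTA h3)⟩
      exact rtg_flip (h1.trans h2) (fun _ _ h => h)
  · -- a larger strong set
    obtain ⟨b0, hb0B, hb0R⟩ := Finset.not_subset.1 hBR
    refine ⟨R ∪ T, B \ R, ⟨⟨r, mem_union_left _ hrR⟩, ?_,
      ⟨sdiff_subset, ⟨b0, mem_sdiff.2 ⟨hb0B, hb0R⟩⟩, ?_⟩, ?_,
      fun x hx => mem_union_left _ (hΩR x (hZΩ hx))⟩, ?_⟩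
    · -- strongly connected
      set W : Set V := ((R ∪ T : Finset V) : Set V) with hW
      have hWR : ∀ x ∈ R, x ∈ W := fun x hx => mem_coe.2 (mem_union_left _ hx)
      have hWT : ∀ x ∈ T, x ∈ W := fun x hx => mem_coe.2 (mem_union_right _ hx)
      -- an arc from `T` to `S`
      obtain ⟨t1, ht1, s1, hs1, hts⟩ : ∃ t ∈ T, ∃ s ∈ S, adj t s := by
        by_contra hcon
        push Not at hcon
        have key : ∀ w, ReflTransGen adj w r → w ∈ S := by
          intro w hw
          induction hw using ReflTransGen.head_induction_on with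
          | refl => exact hrS
          | @head a c hac _ ih =>
            by_cases ha : a ∈ T
            · exact absurd hac (hcon a ha c ih)
            · exact hScl a ha c ih hac
        exact hST t0 (key t0 (h.strong t0 r)) ht0
      have hTr : ∀ t ∈ T, RR adj W t r := by
        intro t ht
        refine ((RR.mono ?_ (hTs t ht t1 ht1)).tail ⟨hWT t1 ht1, hWR s1 (hSR s1 hs1), hts⟩).trans
          (RR.mono ?_ (hSs s1 hs1 r hrS))
        · intro u hu; exact hWT u hu
        · intro u hu; exact hWR u (hSR u hu)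
      have hRr : ∀ v ∈ R, RR adj W v r ∧ ∃ z ∈ T, RR adj W v z := by
        intro v hv
        have h1 : ∀ w, ReflTransGen adj w t0 → w ∈ R → ∃ z ∈ T, RR adj W w z := by
          intro w hw
          induction hw using ReflTransGen.head_induction_on with
          | refl => exact fun h2 => absurd ht0 (hRT t0 h2)
          | @head a c hac _ ih =>
            intro ha
            by_cases hc : c ∈ T
            · exact ⟨c, hc, ReflTransGen.single ⟨hWR a ha, hWT c hc, hac⟩⟩
            · have hcR := hRstep a ha c hc hac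
              obtain ⟨z, hz, hz2⟩ := ih hcR
              exact ⟨z, hz, ReflTransGen.head ⟨hWR a ha, hWR c hcR, hac⟩ hz2⟩
        obtain ⟨z, hz, hz2⟩ := h1 v (h.strong v t0) hv
        exact ⟨hz2.trans (hTr z hz), z, hz, hz2⟩
      have hrv : ∀ v ∈ R ∪ T, RR adj W r v := by
        intro v hv
        rcases mem_union.1 hv with hv | hv
        · have h1 : ∀ w, RR adj ((T : Set V)ᶜ) r w → RR adj W r w ∧ w ∈ R := by
            intro w hw
            induction hw with
            | refl => exact ⟨ReflTransGen.refl, hrR⟩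
            | @tail a c _ hac ih =>
              have hc := hRstep a ih.2 c hac.2.1 hac.2.2
              exact ⟨ih.1.tail ⟨hWR a ih.2, hWR c hc, hac.2.2⟩, hc⟩
          exact (h1 v (mem_filter.1 hv).2).1
        · obtain ⟨_, z, hz, hz2⟩ := hRr r hrR
          refine hz2.trans (RR.mono ?_ (hTs z hz v hv))
          intro u hu; exact hWT u hu
      intro u hu v hv
      have h1 : RR adj W v r := by
        rcases mem_union.1 hv with hv | hv
        · exact (hRr v hv).1
        · exact hTr v hv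
      exact rr_flip' (h1.trans (hrv u hu))
    · -- `B \ R` is a core
      intro x hx
      obtain ⟨hxB, hxR⟩ := mem_sdiff.1 hx
      obtain ⟨p, hp, q, hq, h1, h2, h3, h4, h5⟩ := h.degB x hxB
      have hxT : x ∉ T := fun h6 => hTB x h6 hxB
      exact ⟨p, mem_sdiff.2 ⟨hp, fun h6 => hxR (hRstep p h6 x hxT h4)⟩,
        q, mem_sdiff.2 ⟨hq, fun h6 => hxR (hRstep q h6 x hxT h5)⟩, h1, h2, h3, h4, h5⟩
    · rw [Finset.disjoint_left]
      intro x hx hx2
      obtain ⟨hxB, hxR⟩ := mem_sdiff.1 hx2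
      rcases mem_union.1 hx with h1 | h1
      · exact hxR h1
      · exact hTB x h1 hxB
    · refine Finset.card_lt_card (Finset.ssubset_iff_subset_ne.2 ⟨?_, ?_⟩)
      · intro x hx
        exact mem_union_left _ (hΩR x hx)
      · rintro rfl
        exact hΩT t0 (mem_union_right _ ht0) ht0

theorem TwoDisj.main (n : ℕ) : ∀ (adj : V → V → Prop) (Z A B : Finset V), TwoDisj adj Z A B →
    ∀ Ω X, Good adj Z A Ω X → Fintype.card V - Ω.card = n → K3set adj := by
  induction n using Nat.strong_induction_on with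
  | _ n ih =>
    intro adj Z A B h Ω X hg hn
    by_contra hK
    obtain ⟨Ω', U, hg', hlt⟩ := h.step hK hg
    have hle : Ω'.card ≤ Fintype.card V := Finset.card_le_univ _
    exact hK (K3set_flip (ih (Fintype.card V - Ω'.card) (by omega) _ Z B A h.flip Ω' U hg' rfl))

/-- The case `A ≠ ∅`. -/
theorem K3_of_twoDisj {adj : V → V → Prop} {Z A B : Finset V} (h : TwoDisj adj Z A B)
    (hA : A.Nonempty) : K3set adj := by
  obtain ⟨a, ha⟩ := hA
  rcases Z.eq_empty_or_nonempty with hZ | hZ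
  · subst hZ
    obtain ⟨b, hb, _⟩ := h.fromB a ha
    rcases hb with hb | hb
    · refine TwoDisj.main _ adj ∅ A B h {b} A ⟨⟨b, mem_singleton_self b⟩, ?_,
        ⟨Finset.Subset.refl _, ⟨a, ha⟩, h.degA⟩, ?_, Finset.empty_subset _⟩ rfl
      · intro u hu v hv
        rw [mem_singleton] at hu hv
        rw [hu, hv]
      · rw [Finset.disjoint_singleton_left]
        exact fun h1 => Finset.disjoint_left.1 h.disj h1 hb
    · exact absurd hb (Finset.notMem_empty b)
  · exact TwoDisj.main _ adj Z A B h Z A ⟨hZ, h.strongZ, ⟨Finset.Subset.refl _, ⟨a, ha⟩, h.degA⟩,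
      h.disjA, Finset.Subset.refl _⟩ rfl

/-- Theorem P+. -/
theorem K3_of_twoDisj' {adj : V → V → Prop} {Z A B : Finset V} (h : TwoDisj adj Z A B)
    (hAB : (A ∪ B).Nonempty) : K3set adj := by
  obtain ⟨x, hx⟩ := hAB
  rcases mem_union.1 hx with hx | hx
  · exact K3_of_twoDisj h ⟨x, hx⟩
  · exact K3set_flip (K3_of_twoDisj h.flip ⟨x, hx⟩)

end Pool.Agent.H.MP_0cacf8
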