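import Pool.Agent.H.MP_0cacf8.RC3F

/-!
# The rooted theorem (RC3)

A finite strong digraph in which all vertices outside a nonempty set `X` have in-degree at least two and which contains a
subdivision of the bidirected triangle minus an arc contains such a subdivision together with a path from `X` to its tip
(the end of the missing arc) which meets it only in the tip.
-/

set_option autoImplicit false

namespace Pool.Agent.H.MP_0cacf8

open Relation Finset Pool.Agent.H.MP_0d008e_co

variable {V : Type*} {adj : V → V → Prop}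

/-- Two disjoint paths from `x` to `p`, an arc from `p` to `x`, and `C - x` strong. -/
theorem two_paths [Fintype V] [DecidableEq V] {C X : Finset V} {x p : V} (hxC : x ∈ C)
    (hpC : p ∈ C) (hpx : p ≠ x) (harc : adj p x) (hx : x ∈ X) (hs : Strong adj (C.erase x))
    {A B : Set V} (hA : A ⊆ ((C : Set V) \ {x}) \ {p}) (hB : B ⊆ ((C : Set V) \ {x}) \ {p})
    (hAB : Disjoint A B) (cA : ConnN adj A x p) (cB : ConnN adj B x p) : F1 adj C X := by
  classical
  have hcoe : ∀ T : Set V, (((univ : Finset V).filter (fun v => v ∈ T) : Finset V) : Set V) = T := by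
    intro T
    ext v
    simp
  rw [← hcoe A] at cA
  rw [← hcoe B] at cB
  obtain ⟨A1, hA1, cA1, mA⟩ := exists_min_connN _ cA
  obtain ⟨B1, hB1, cB1, mB⟩ := exists_min_connN _ cB
  have sA : ∀ u ∈ A1, u ∈ A := fun u hu => (mem_filter.1 (hA1 hu)).2
  have sB : ∀ u ∈ B1, u ∈ B := fun u hu => (mem_filter.1 (hB1 hu)).2
  set Y := C.erase x with hY
  have hpY : p ∈ Y := mem_erase.2 ⟨hpx, hpC⟩
  have hAY : A1 ⊆ Y := fun u hu => mem_erase.2 ⟨(hA (sA u hu)).1.2, (hA (sA u hu)).1.1⟩
  have hBY : B1 ⊆ Y := fun u hu => mem_erase.2 ⟨(hB (sB u hu)).1.2, (hB (sB u hu)).1.1⟩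
  have hpA : p ∉ A1 := fun g => (hA (sA p g)).2 rfl
  have hpB : p ∉ B1 := fun g => (hB (sB p g)).2 rfl
  have hd : Disjoint A1 B1 := by
    rw [Finset.disjoint_left]
    exact fun u h1 h2 => (Set.disjoint_left.1 hAB) (sA u h1) (sB u h2)
  have hT0 : (((C : Set V) \ Y) \ {x}) = ∅ := by
    ext u
    constructor
    · rintro ⟨⟨h1, h2⟩, h3⟩
      exact h2 (mem_erase.2 ⟨h3, h1⟩)
    · intro h
      exact h.elim
  obtain ⟨a, ha, _⟩ := id cA1
  obtain ⟨c, hc, _, hL⟩ := hit_from (B := (A1 : Set V) ∪ (B1 : Set V)) (hs p hpY a (hAY ha))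
    (by
      rintro (g | g)
      · exact hpA g
      · exact hpB g) (Or.inl ha)
  rcases hc with hc | hc
  · exact finish (A := A1) (B := B1) (c := c) (T := ∅) (Sr := ∅) (erase_subset _ _) hxC
      (notMem_erase _ _) hpY hAY hBY hpA hpB hd hc cA1 mA (Or.inr cB1) hL hT0.symm
      (Set.empty_subset _) (Or.inl harc) (Or.inl hx)
  · refine finish (A := B1) (B := A1) (c := c) (T := ∅) (Sr := ∅) (erase_subset _ _) hxC
      (notMem_erase _ _) hpY hBY hAY hpB hpA hd.symm hc cB1 mB (Or.inr cA1) ?_ hT0.symm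
      (Set.empty_subset _) (Or.inl harc) (Or.inl hx)
    rw [Set.union_comm]
    exact hL

theorem Ctx.false [Fintype V] [DecidableEq V] {C X : Finset V} (h : Ctx adj C X) : False := by
  classical
  obtain ⟨x, hx, hs⟩ := h.exists_strong
  obtain ⟨p, hp⟩ := h.pred hx
  have hxC := h.inst.sub hx
  have hpY : p ∈ C.erase x := mem_erase.2 ⟨hp.ne, hp.mem⟩
  have hnb := h.no_back hx hp
  have hcoe : ((C.erase x : Finset V) : Set V) = (C : Set V) \ {x} := Finset.coe_erase x C
  have hideg : Ideg (contr adj p x) (C.erase x) (X.erase x) := by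
    intro k hk hkX
    obtain ⟨hkx, hkC⟩ := mem_erase.1 hk
    obtain ⟨a, ha, b, hb, g1, g2, g3, g4, g5⟩ := h.inst.ideg k hkC
      (fun g => hkX (mem_erase.2 ⟨hkx, g⟩))
    have hkp : adj x k → p ≠ k := by
      rintro g rfl
      exact hnb g
    by_cases hax : a = x
    · rw [hax] at g1 g4
      have hbx : b ≠ x := fun g => g1 g.symm
      have hpk := hkp g4
      have hpb : p ≠ b := by
        rintro rfl
        exact h.no_common hx hp hkC hkx hpk.symm g4 g5
      exact ⟨p, hpY, b, mem_erase.2 ⟨hbx, hb⟩, hpb, hpk, g3, Or.inr ⟨rfl, g4⟩, Or.inl g5⟩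
    · by_cases hbx : b = x
      · rw [hbx] at g1 g5
        have hpk := hkp g5
        have hpa : a ≠ p := by
          rintro rfl
          exact h.no_common hx hp hkC hkx hpk.symm g5 g4
        exact ⟨a, mem_erase.2 ⟨hax, ha⟩, p, hpY, hpa, g2, hpk, Or.inl g4, Or.inr ⟨rfl, g5⟩⟩
      · exact ⟨a, mem_erase.2 ⟨hax, ha⟩, b, mem_erase.2 ⟨hbx, hb⟩, g1, g2, g3, Or.inl g4,
          Or.inl g5⟩
  have hkm : Km (contr adj p x) ((C.erase x : Finset V) : Set V) := by
    rw [hcoe]
    obtain ⟨v, e, c, S, hk⟩ := h.inst.km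
    obtain ⟨i, hi⟩ := h.interior hk hx
    obtain ⟨U, W, hU, hW, hUW, c1, c2⟩ := hk.split (h.in_all hx) hi
    obtain ⟨x1, x2, x3⟩ := hk.ne_of_mem hi
    have hax : src v e c i ≠ x := fun g => hk.src_nmem i i (g ▸ hi)
    have hh := head_pred hp (fun _ _ g => g) (hk.src_mem i) hax
      (fun u hu => ⟨hk.sub i (hU hu).1, (hU hu).2⟩) c1
    obtain ⟨w1, hw1, ht⟩ := c2.first
    have le1 : ∀ u w, adj u w → contr adj p x u w := fun _ _ g => Or.inl g
    have c3 : Conn (contr adj p x) (U ∪ W) (src v e c i) (dst v e c i) :=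
      bypass (hh.congr fun u y _ _ g => le1 u y g) (Or.inr ⟨rfl, hw1⟩)
        (ht.congr fun u y _ _ g => le1 u y g)
    have hT : U ∪ W ⊆ S i := by
      rintro u (hu | hu)
      · exact (hU hu).1
      · exact (hW hu).1
    refine ⟨v, e, c, _, hk.repl i ⟨hk.vC, x1.symm⟩ ⟨hk.eC, x2.symm⟩ ⟨hk.cC, x3.symm⟩
      (T := U ∪ W) ?_ ?_ (fun g => hk.nv i (hT g)) (fun g => hk.ne i (hT g))
      (fun g => hk.nc i (hT g)) (fun j hj u hu => hk.disj i j hj.symm u (hT hu)) c3
      (fun j _ => Conn.congr (fun u w _ _ g => le1 u w g) (hk.conn j))⟩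
    · rintro u (hu | hu)
      · exact ⟨hk.sub i (hU hu).1, (hU hu).2⟩
      · exact ⟨hk.sub i (hW hu).1, (hW hu).2⟩
    · intro j hj u hu
      refine ⟨hk.sub j hu, ?_⟩
      intro g
      rw [Set.mem_singleton_iff.1 g] at hu
      exact hk.disj i j hj.symm x hi hu
  have hinst : Inst (contr adj p x) (C.erase x) (X.erase x) := ⟨fun u hu w hw =>
    RR.congr (fun _ _ _ _ g => Or.inl g) (hs u hu w hw), erase_subset_erase _ h.inst.sub,
    h.two hx, hideg, hkm⟩
  have hrk := h.ih1 _ _ _ (Finset.card_erase_lt_of_mem hxC) hinst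
  rw [hcoe] at hrk
  rcases RK.uncontr (C := (C : Set V)) (X := (X : Set V)) hp.arc hp.mem hxC hp.ne hx
    (fun y hy => mem_of_mem_erase hy) hrk with g | ⟨A, B, hA, hB, hAB, cA, cB⟩
  · exact h.no g
  · exact h.no (RK_of_F1 (two_paths hxC hp.mem hp.ne hp.arc hx hs hA hB hAB cA cB))

/-- **The rooted theorem.** -/
theorem rc3 [Fintype V] [DecidableEq V] : ∀ (n : ℕ) (C : Finset V), C.card = n →
    ∀ (adj : V → V → Prop) (X : Finset V), Inst adj C X → RK adj (C : Set V) (X : Set V) := by
  intro n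
  induction n using Nat.strong_induction_on with
  | _ n ihn =>
    intro C hC
    have key : ∀ (m : ℕ) (adj : V → V → Prop), narc adj C = m → ∀ X : Finset V, Inst adj C X →
        RK adj (C : Set V) (X : Set V) := by
      intro m
      induction m using Nat.strong_induction_on with
      | _ m ihm =>
        intro adj hm
        have key2 : ∀ (k : ℕ) (X : Finset V), X.card = k → Inst adj C X →
            RK adj (C : Set V) (X : Set V) := by
          intro k
          induction k using Nat.strong_induction_on with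
          | _ k ihk =>
            intro X hX hinst
            by_contra hno
            exact Ctx.false (adj := adj) (C := C) (X := X) ⟨hinst, hno,
              fun adj' C' X' hlt hi => ihn C'.card (hC ▸ hlt) C' rfl adj' X' hi,
              fun adj' X' hlt hi => ihm (narc adj' C) (hm ▸ hlt) adj' rfl X' hi,
              fun X' hlt hi => ihk X'.card (hX ▸ hlt) X' rfl hi⟩
        exact fun X => key2 X.card X rfl
    exact fun adj => key (narc adj C) adj rfl

end Pool.Agent.H.MP_0cacf8
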