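import Pool.Agent.H.MP_0cacf8.Core

/-!
# Subdivisions of the bidirected triangle minus an arc, with set families

Tip `v`, center `e`, third vertex `c`; the five paths `a1 : v → e`, `b : e → v`, `a2 : v → c`, `b2 : e → c`,
`c1 : c → e`. `S i` contains the interior of the path `i`.
-/

set_option autoImplicit false

namespace Pool.Agent.H.MP_0cacf8

open Relation Finset Pool.Agent.H.MP_0d008e_co

variable {V : Type*} {adj : V → V → Prop}

/-- the five paths -/
inductive Seg
  | a1 | b | a2 | b2 | c1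
  deriving DecidableEq

/-- start of the paths -/
def src (v e c : V) : Seg → V
  | .a1 => v
  | .b => e
  | .a2 => v
  | .b2 => e
  | .c1 => c

/-- end of the paths -/
def dst (v e c : V) : Seg → V
  | .a1 => e
  | .b => v
  | .a2 => c
  | .b2 => c
  | .c1 => e

/-- A subdivision of the bidirected triangle minus an arc inside `C`. -/
structure IsK (adj : V → V → Prop) (C : Set V) (v e c : V) (S : Seg → Set V) : Prop where
  vC : v ∈ C
  eC : e ∈ C
  cC : c ∈ C
  ve : v ≠ e
  vc : v ≠ c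
  ec : e ≠ c
  sub : ∀ i, S i ⊆ C
  nv : ∀ i, v ∉ S i
  ne : ∀ i, e ∉ S i
  nc : ∀ i, c ∉ S i
  disj : ∀ i j, i ≠ j → ∀ u, u ∈ S i → u ∉ S j
  conn : ∀ i, Conn adj (S i) (src v e c i) (dst v e c i)

/-- `C` contains a subdivision of the bidirected triangle minus an arc. -/
def Km (adj : V → V → Prop) (C : Set V) : Prop := ∃ v e c S, IsK adj C v e c S

/-- `C` contains such a subdivision and a path from `X` to its tip, otherwise disjoint from it. -/
def RK (adj : V → V → Prop) (C X : Set V) : Prop :=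
  ∃ v e c S, ∃ R : Set V, IsK adj C v e c S ∧ R ⊆ C ∧ v ∉ R ∧ e ∉ R ∧ c ∉ R ∧
    (∀ i, ∀ u ∈ R, u ∉ S i) ∧ RootConn adj R X v

theorem RR.congr {adj' : V → V → Prop} {S : Set V} {p q : V}
    (h : ∀ u ∈ S, ∀ w ∈ S, adj u w → adj' u w) (hr : RR adj S p q) : RR adj' S p q := by
  induction hr with
  | refl => exact ReflTransGen.refl
  | tail _ hbc ih => exact ih.tail ⟨hbc.1, hbc.2.1, h _ hbc.1 _ hbc.2.1 hbc.2.2⟩

theorem Conn.congr {adj' : V → V → Prop} {S : Set V} {a b : V}
    (h : ∀ u w, (u = a ∨ u ∈ S) → (w = b ∨ w ∈ S) → adj u w → adj' u w) (hc : Conn adj S a b) :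
    Conn adj' S a b := by
  rcases hc with hc | ⟨p, hp, q, hq, h1, h2, h3⟩
  · exact Or.inl (h a b (Or.inl rfl) (Or.inl rfl) hc)
  · exact Or.inr ⟨p, hp, q, hq, h a p (Or.inl rfl) (Or.inr hp) h1,
      RR.congr (fun u hu w hw => h u w (Or.inr hu) (Or.inr hw)) h2,
      h q b (Or.inr hq) (Or.inl rfl) h3⟩

theorem RootConn.congr {adj' : V → V → Prop} {S E : Set V} {b : V}
    (h : ∀ u w, u ∈ S → (w = b ∨ w ∈ S) → adj u w → adj' u w) (hc : RootConn adj S E b) :
    RootConn adj' S E b := by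
  rcases hc with hc | ⟨r, hrE, hrS, q, hq, h2, h3⟩
  · exact Or.inl hc
  · exact Or.inr ⟨r, hrE, hrS, q, hq, RR.congr (fun u hu w hw => h u w hu (Or.inr hw)) h2,
      h q b hq (Or.inl rfl) h3⟩

theorem Conn.rr {S C : Set V} {a b : V} (h : Conn adj S a b) (hS : S ⊆ C) (ha : a ∈ C)
    (hb : b ∈ C) : RR adj C a b := by
  rcases h with h | ⟨p, hp, q, hq, h1, h2, h3⟩
  · exact ReflTransGen.single ⟨ha, hb, h⟩
  · exact (ReflTransGen.head ⟨ha, hS hp, h1⟩ (RR.mono hS h2)).tail ⟨hS hq, hb, h3⟩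

/-- Concatenation. -/
theorem Conn.join {U W : Set V} {a x b : V} (h1 : Conn adj U a x) (h2 : Conn adj W x b) :
    ConnN adj (U ∪ (W ∪ {x})) a b := by
  rcases h2 with h2 | ⟨p, hp, q, hq, g1, g2, g3⟩
  · exact Conn.glue h1 (Or.inr rfl) (Or.inr rfl) ReflTransGen.refl h2
  · exact Conn.glue h1 (Or.inr rfl) (Or.inl hq)
      (ReflTransGen.head ⟨Or.inr rfl, Or.inl hp, g1⟩ (RR.mono Set.subset_union_left g2)) g3

/-- Walks from `w` to `b` with all vertices but `b` in `W`, or `w = b`. -/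
def Tail (adj : V → V → Prop) (W : Set V) (w b : V) : Prop :=
  w = b ∨ (w ∈ W ∧ ∃ q ∈ W, RR adj W w q ∧ adj q b)

/-- Walks from `a` to `p` with all vertices but `a` in `U`, or `a = p`. -/
def Head (adj : V → V → Prop) (U : Set V) (a p : V) : Prop :=
  a = p ∨ (p ∈ U ∧ ∃ p1 ∈ U, adj a p1 ∧ RR adj U p1 p)

theorem Conn.first {W : Set V} {x b : V} (h : Conn adj W x b) :
    ∃ w, adj x w ∧ Tail adj W w b := by
  rcases h with h | ⟨p, hp, q, hq, h1, h2, h3⟩
  · exact ⟨b, h, Or.inl rfl⟩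
  · exact ⟨p, h1, Or.inr ⟨hp, q, hq, h2, h3⟩⟩

theorem Conn.last {U : Set V} {a x : V} (h : Conn adj U a x) : ∃ p, adj p x ∧ Head adj U a p := by
  rcases h with h | ⟨p, hp, q, hq, h1, h2, h3⟩
  · exact ⟨a, h, Or.inl rfl⟩
  · exact ⟨q, h3, Or.inr ⟨hq, p, hp, h1, h2⟩⟩

theorem Tail.mono {W W' : Set V} {w b : V} (h : Tail adj W w b) (hW : W ⊆ W') :
    Tail adj W' w b := by
  rcases h with h | ⟨h1, q, hq, h2, h3⟩
  · exact Or.inl h
  · exact Or.inr ⟨hW h1, q, hW hq, RR.mono hW h2, h3⟩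

theorem Head.mono {W W' : Set V} {w b : V} (h : Head adj W w b) (hW : W ⊆ W') :
    Head adj W' w b := by
  rcases h with h | ⟨h1, q, hq, h2, h3⟩
  · exact Or.inl h
  · exact Or.inr ⟨hW h1, q, hW hq, h2, RR.mono hW h3⟩

theorem Tail.congr {adj' : V → V → Prop} {W : Set V} {w b : V} (h : Tail adj W w b)
    (h' : ∀ u y, u ∈ W → (y = b ∨ y ∈ W) → adj u y → adj' u y) : Tail adj' W w b := by
  rcases h with h | ⟨h1, q, hq, h2, h3⟩
  · exact Or.inl h
  · exact Or.inr ⟨h1, q, hq, RR.congr (fun u hu y hy => h' u y hu (Or.inr hy)) h2,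
      h' q b hq (Or.inl rfl) h3⟩

theorem Head.congr {adj' : V → V → Prop} {U : Set V} {a p : V} (h : Head adj U a p)
    (h' : ∀ u y, (u = a ∨ u ∈ U) → y ∈ U → adj u y → adj' u y) : Head adj' U a p := by
  rcases h with h | ⟨h1, q, hq, h2, h3⟩
  · exact Or.inl h
  · exact Or.inr ⟨h1, q, hq, h' a q (Or.inl rfl) hq h2,
      RR.congr (fun u hu y hy => h' u y (Or.inr hu) hy) h3⟩

/-- `a → ... → p → w → ... → b` -/
theorem bypass {U W : Set V} {a p w b : V} (h1 : Head adj U a p) (h : adj p w)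
    (h2 : Tail adj W w b) : Conn adj (U ∪ W) a b := by
  rcases h1 with h1 | ⟨hp, p1, hp1, g1, g2⟩
  · subst h1
    rcases h2 with h2 | ⟨hw, q, hq, g3, g4⟩
    · subst h2
      exact Or.inl h
    · exact Or.inr ⟨w, Or.inr hw, q, Or.inr hq, h, RR.mono Set.subset_union_right g3, g4⟩
  · have g2' : RR adj (U ∪ W) p1 p := RR.mono Set.subset_union_left g2
    rcases h2 with h2 | ⟨hw, q, hq, g3, g4⟩
    · subst h2
      exact Or.inr ⟨p1, Or.inl hp1, p, Or.inl hp, g1, g2', h⟩
    · exact Or.inr ⟨p1, Or.inl hp1, q, Or.inr hq, g1,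
        (g2'.tail ⟨Or.inl hp, Or.inr hw, h⟩).trans (RR.mono Set.subset_union_right g3), g4⟩

/-- A walk stays in `K` if all vertices between the ends are in `K`. -/
theorem RR.restrict {S K : Set V} {p q : V} (h : RR adj S p q)
    (hK : ∀ w ∈ S, RR adj S p w → RR adj S w q → w ∈ K) : RR adj (S ∩ K) p q := by
  induction h using ReflTransGen.head_induction_on with
  | refl => exact ReflTransGen.refl
  | @head a c hac hcq ih =>
    have h1 : RR adj (S ∩ K) c q := ih fun w hw h2 h3 => hK w hw (ReflTransGen.head hac h2) h3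
    exact ReflTransGen.head ⟨⟨hac.1, hK a hac.1 ReflTransGen.refl (ReflTransGen.head hac hcq)⟩,
      ⟨hac.2.1, hK c hac.2.1 (ReflTransGen.single hac) hcq⟩, hac.2.2⟩ h1

theorem Conn.restrict {S K : Set V} {a b : V} (h : Conn adj S a b)
    (hK : ∀ w ∈ S, Head adj S a w → Tail adj S w b → w ∈ K) : Conn adj (S ∩ K) a b := by
  rcases h with h | ⟨p, hp, q, hq, h1, h2, h3⟩
  · exact Or.inl h
  · have key : ∀ w ∈ S, RR adj S p w → RR adj S w q → w ∈ K := fun w hw g1 g2 =>
      hK w hw (Or.inr ⟨hw, p, hp, h1, g1⟩) (Or.inr ⟨hw, q, hq, g2, h3⟩)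
    exact Or.inr ⟨p, ⟨hp, key p hp ReflTransGen.refl h2⟩, q, ⟨hq, key q hq h2 ReflTransGen.refl⟩,
      h1, RR.restrict h2 key, h3⟩

theorem Head.rr {S C : Set V} {a w : V} (h : Head adj S a w) (hS : S ⊆ C) (ha : a ∈ C) :
    RR adj C a w := by
  rcases h with h | ⟨hw, p, hp, h1, h2⟩
  · subst h
    exact ReflTransGen.refl
  · exact ReflTransGen.head ⟨ha, hS hp, h1⟩ (RR.mono hS h2)

theorem Tail.rr {S C : Set V} {w b : V} (h : Tail adj S w b) (hS : S ⊆ C) (hb : b ∈ C) :
    RR adj C w b := by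
  rcases h with h | ⟨hw, q, hq, h1, h2⟩
  · subst h
    exact ReflTransGen.refl
  · exact (RR.mono hS h1).tail ⟨hS hq, hb, h2⟩

namespace IsK

variable {C : Set V} {v e c : V} {S : Seg → Set V}

theorem src_mem (h : IsK adj C v e c S) (i : Seg) : src v e c i ∈ C := by
  cases i
  · exact h.vC
  · exact h.eC
  · exact h.vC
  · exact h.eC
  · exact h.cC

theorem dst_mem (h : IsK adj C v e c S) (i : Seg) : dst v e c i ∈ C := by
  cases i
  · exact h.eC
  · exact h.vC
  · exact h.cC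
  · exact h.cC
  · exact h.eC

theorem src_nmem (h : IsK adj C v e c S) (i j : Seg) : src v e c i ∉ S j := by
  cases i
  · exact h.nv j
  · exact h.ne j
  · exact h.nv j
  · exact h.ne j
  · exact h.nc j

theorem dst_nmem (h : IsK adj C v e c S) (i j : Seg) : dst v e c i ∉ S j := by
  cases i
  · exact h.ne j
  · exact h.nv j
  · exact h.nc j
  · exact h.nc j
  · exact h.ne j

theorem src_ne_dst (h : IsK adj C v e c S) (i : Seg) : src v e c i ≠ dst v e c i := by
  cases i
  · exact h.ve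
  · exact h.ve.symm
  · exact h.vc
  · exact h.ec
  · exact h.ec.symm

theorem seg_inj (h : IsK adj C v e c S) (i j : Seg) (h1 : src v e c i = src v e c j)
    (h2 : dst v e c i = dst v e c j) : i = j := by
  have a1 := h.ve
  have a2 := h.vc
  have a3 := h.ec
  cases i <;> cases j <;> simp only [src, dst] at h1 h2 <;>
    first | rfl | exact absurd h1 a1 | exact absurd h1 a2 | exact absurd h1 a3 |
      exact absurd h1.symm a1 | exact absurd h1.symm a2 | exact absurd h1.symm a3 |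
      exact absurd h2 a1 | exact absurd h2 a2 | exact absurd h2 a3 |
      exact absurd h2.symm a1 | exact absurd h2.symm a2 | exact absurd h2.symm a3

theorem mono {adj' : V → V → Prop} {C' : Set V} (h : IsK adj C v e c S) (hC : C ⊆ C')
    (ha : ∀ u w, adj u w → adj' u w) : IsK adj' C' v e c S where
  vC := hC h.vC
  eC := hC h.eC
  cC := hC h.cC
  ve := h.ve
  vc := h.vc
  ec := h.ec
  sub := fun i => (h.sub i).trans hC
  nv := h.nv
  ne := h.ne
  nc := h.nc
  disj := h.disj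
  conn := fun i => Conn.congr (fun u w _ _ => ha u w) (h.conn i)

/-- Replacing one path, and changing the digraph. -/
theorem repl {adj' : V → V → Prop} {C' T : Set V} (h : IsK adj C v e c S) (i : Seg)
    (hv : v ∈ C') (he : e ∈ C') (hc : c ∈ C') (hT : T ⊆ C') (hS : ∀ j, j ≠ i → S j ⊆ C')
    (nv : v ∉ T) (ne : e ∉ T) (nc : c ∉ T) (hd : ∀ j, j ≠ i → ∀ u ∈ T, u ∉ S j)
    (hconn : Conn adj' T (src v e c i) (dst v e c i))
    (hother : ∀ j, j ≠ i → Conn adj' (S j) (src v e c j) (dst v e c j)) :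
    IsK adj' C' v e c (fun j => if j = i then T else S j) where
  vC := hv
  eC := he
  cC := hc
  ve := h.ve
  vc := h.vc
  ec := h.ec
  sub := fun j => by
    by_cases hj : j = i
    · simpa only [if_pos hj] using hT
    · simpa only [if_neg hj] using hS j hj
  nv := fun j => by
    by_cases hj : j = i
    · simpa only [if_pos hj] using nv
    · simpa only [if_neg hj] using h.nv j
  ne := fun j => by
    by_cases hj : j = i
    · simpa only [if_pos hj] using ne
    · simpa only [if_neg hj] using h.ne j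
  nc := fun j => by
    by_cases hj : j = i
    · simpa only [if_pos hj] using nc
    · simpa only [if_neg hj] using h.nc j
  disj := fun j k hjk u => by
    by_cases hj : j = i
    · have hk : k ≠ i := fun hk => hjk (hj.trans hk.symm)
      simpa only [if_pos hj, if_neg hk] using hd k hk u
    · by_cases hk : k = i
      · simp only [if_neg hj, if_pos hk]
        exact fun h1 h2 => hd j hj u h2 h1
      · simpa only [if_neg hj, if_neg hk] using h.disj j k hjk u
  conn := fun j => by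
    by_cases hj : j = i
    · subst hj
      simpa only [if_true] using hconn
    · simpa only [if_neg hj] using hother j hj

end IsK

theorem Km.mono {adj' : V → V → Prop} {C C' : Set V} (h : Km adj C) (hC : C ⊆ C')
    (ha : ∀ u w, adj u w → adj' u w) : Km adj' C' := by
  obtain ⟨v, e, c, S, h⟩ := h
  exact ⟨v, e, c, S, h.mono hC ha⟩

theorem RK.mono {adj' : V → V → Prop} {C C' X X' : Set V} (h : RK adj C X) (hC : C ⊆ C')
    (ha : ∀ u w, adj u w → adj' u w) (hX : X ⊆ X') : RK adj' C' X' := by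
  obtain ⟨v, e, c, S, R, h, h1, h2, h3, h4, h5, h6⟩ := h
  refine ⟨v, e, c, S, R, h.mono hC ha, h1.trans hC, h2, h3, h4, h5, ?_⟩
  have h7 := RootConn.congr (fun u w _ _ => ha u w) h6
  rcases h7 with h7 | ⟨r, hr, h7⟩
  · exact Or.inl (hX h7)
  · exact Or.inr ⟨r, hX hr, h7⟩

/-- From the labelled version. -/
theorem RK_of_F1 {C E : Finset V} (h : F1 adj C E) : RK adj (C : Set V) (E : Set V) := by
  obtain ⟨v, e, c, lab, hv, he, hc, ve, vc, ec, l1, l2, l3, hlab, c1, c2, c3, c4, c5, c6⟩ := h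
  let f : Seg → ℕ := fun i => match i with
    | .a1 => 1
    | .b => 2
    | .a2 => 3
    | .b2 => 4
    | .c1 => 5
  have hf : ∀ i j, i ≠ j → f i ≠ f j := by
    intro i j hij
    cases i <;> cases j <;> first | exact absurd rfl hij | simp [f]
  have hf0 : ∀ i, f i ≠ 0 := by
    intro i
    cases i <;> simp [f]
  have hf6 : ∀ i, f i ≠ 6 := by
    intro i
    cases i <;> simp [f]
  refine ⟨v, e, c, fun i => {u | lab u = f i}, {u | lab u = 6}, ⟨hv, he, hc, ve, vc, ec, ?_, ?_, ?_,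
    ?_, ?_, ?_⟩, ?_, ?_, ?_, ?_, ?_, c6⟩
  · intro i u hu
    have hu' : lab u = f i := hu
    exact hlab u (by rw [hu']; exact hf0 i)
  · intro i hu
    have hu' : lab v = f i := hu
    exact hf0 i (hu'.symm.trans l1)
  · intro i hu
    have hu' : lab e = f i := hu
    exact hf0 i (hu'.symm.trans l2)
  · intro i hu
    have hu' : lab c = f i := hu
    exact hf0 i (hu'.symm.trans l3)
  · intro i j hij u h1 h2
    have h1' : lab u = f i := h1
    have h2' : lab u = f j := h2
    exact hf i j hij (h1'.symm.trans h2')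
  · intro i
    cases i
    · exact c1
    · exact c2
    · exact c3
    · exact c4
    · exact c5
  · intro u hu
    have hu' : lab u = 6 := hu
    exact hlab u (by rw [hu']; norm_num)
  · intro hu
    have hu' : lab v = 6 := hu
    rw [l1] at hu'
    norm_num at hu'
  · intro hu
    have hu' : lab e = 6 := hu
    rw [l2] at hu'
    norm_num at hu'
  · intro hu
    have hu' : lab c = 6 := hu
    rw [l3] at hu'
    norm_num at hu'
  · intro i u h1 h2
    have h1' : lab u = 6 := h1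
    have h2' : lab u = f i := h2
    exact hf6 i (h2'.symm.trans h1')

/-- Lifting a rooted subdivision from `K` to `C`. -/
theorem RK.lift {adj' : V → V → Prop} {K C X XK : Set V} (hK : K ⊆ C)
    (ha : ∀ u w, adj' u w → adj u w)
    (hX : ∀ r ∈ XK, r ∈ X ∨ ∃ r0 ∈ X, r0 ∈ C \ K ∧ ∃ u ∈ C \ K, RR adj (C \ K) r0 u ∧ adj u r)
    (h : RK adj' K XK) : RK adj C X := by
  obtain ⟨v, e, c, S, R, h, h1, h2, h3, h4, h5, h6⟩ := h
  have hRC : (C \ K) ⊆ R ∪ (C \ K) := Set.subset_union_right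
  have hRR : R ⊆ R ∪ (C \ K) := Set.subset_union_left
  refine ⟨v, e, c, S, R ∪ (C \ K), h.mono hK ha, ?_, ?_, ?_, ?_, ?_, ?_⟩
  · exact Set.union_subset (h1.trans hK) Set.sdiff_subset
  · rintro (g | g)
    · exact h2 g
    · exact g.2 h.vC
  · rintro (g | g)
    · exact h3 g
    · exact g.2 h.eC
  · rintro (g | g)
    · exact h4 g
    · exact g.2 h.cC
  · rintro i u (g | g) gS
    · exact h5 i u g gS
    · exact g.2 (h.sub i gS)
  · rcases RootConn.congr (fun u w _ _ => ha u w) h6 with h6 | ⟨r, hrX, hrR, q, hq, g1, g2⟩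
    · rcases hX v h6 with h7 | ⟨r0, h7, h8, u, h9, h10, h11⟩
      · exact Or.inl h7
      · exact Or.inr ⟨r0, h7, hRC h8, u, hRC h9, RR.mono hRC h10, h11⟩
    · rcases hX r hrX with h7 | ⟨r0, h7, h8, u, h9, h10, h11⟩
      · exact Or.inr ⟨r, h7, hRR hrR, q, hRR hq, RR.mono hRR g1, g2⟩
      · exact Or.inr ⟨r0, h7, hRC h8, q, hRR hq, ((RR.mono hRC h10).tail
          ⟨hRC h9, hRR hrR, h11⟩).trans (RR.mono hRR g1), g2⟩

/-- The strong component of a subdivision. -/
theorem comp [DecidableEq V] {C : Finset V} (h : Km adj (C : Set V)) :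
    ∃ K : Finset V, K ⊆ C ∧ K.Nonempty ∧ (∀ u ∈ K, ∀ w ∈ K, RR adj (K : Set V) u w) ∧
      Km adj (K : Set V) ∧
      ∀ u ∈ C, ∀ k ∈ K, ∀ k' ∈ K, RR adj (C : Set V) u k → RR adj (C : Set V) k' u → u ∈ K := by
  classical
  obtain ⟨v, e, c, S, h⟩ := h
  set K : Finset V := C.filter (fun w => RR adj (C : Set V) v w ∧ RR adj (C : Set V) w v) with hK
  have hm : ∀ w, w ∈ K ↔ w ∈ C ∧ RR adj (C : Set V) v w ∧ RR adj (C : Set V) w v := by
    intro w
    rw [hK, mem_filter]
  have hKC : K ⊆ C := filter_subset _ _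
  have rr : ∀ i, RR adj (C : Set V) (src v e c i) (dst v e c i) := fun i =>
    (h.conn i).rr (h.sub i) (h.src_mem i) (h.dst_mem i)
  have hvK : v ∈ K := (hm v).2 ⟨h.vC, ReflTransGen.refl, ReflTransGen.refl⟩
  have heK : e ∈ K := (hm e).2 ⟨h.eC, rr .a1, rr .b⟩
  have hcK : c ∈ K := (hm c).2 ⟨h.cC, rr .a2, ReflTransGen.trans (rr .c1) (rr .b)⟩
  have hsrc : ∀ i, src v e c i ∈ K := by
    intro i
    cases i <;> assumption
  have hdst : ∀ i, dst v e c i ∈ K := by
    intro i
    cases i <;> assumption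
  refine ⟨K, hKC, ⟨v, hvK⟩, ?_, ⟨v, e, c, fun i => S i ∩ K, hvK, heK, hcK, h.ve, h.vc, h.ec, ?_, ?_,
    ?_, ?_, ?_, ?_⟩, ?_⟩
  · intro u hu w hw
    obtain ⟨u1, u2, u3⟩ := (hm u).1 hu
    obtain ⟨w1, w2, w3⟩ := (hm w).1 hw
    have h1 : RR adj (C : Set V) u w := ReflTransGen.trans u3 w2
    have h2 := RR.restrict (K := (K : Set V)) h1 (fun y hy g1 g2 =>
      (hm y).2 ⟨hy, ReflTransGen.trans u2 g1, ReflTransGen.trans g2 w3⟩)
    exact RR.mono Set.inter_subset_right h2
  · intro i u hu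
    exact hu.2
  · intro i hu
    exact h.nv i hu.1
  · intro i hu
    exact h.ne i hu.1
  · intro i hu
    exact h.nc i hu.1
  · intro i j hij u h1 h2
    exact h.disj i j hij u h1.1 h2.1
  · intro i
    refine Conn.restrict (h.conn i) ?_
    intro w hw g1 g2
    have k1 := (hm _).1 (hsrc i)
    have k2 := (hm _).1 (hdst i)
    exact (hm w).2 ⟨h.sub i hw, ReflTransGen.trans k1.2.1 (g1.rr (h.sub i) k1.1),
      ReflTransGen.trans (g2.rr (h.sub i) k2.1) k2.2.2⟩
  · intro u hu k hk k' hk' g1 g2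
    exact (hm u).2 ⟨hu, ReflTransGen.trans ((hm k').1 hk').2.1 g2,
      ReflTransGen.trans g1 ((hm k).1 hk).2.2⟩

end Pool.Agent.H.MP_0cacf8
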