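import Pool.Agent.H.MP_0cacf8.RC3B

/-!
# Subdividing an arc, undoing a contraction
-/

set_option autoImplicit false

namespace Pool.Agent.H.MP_0cacf8

open Relation Finset Pool.Agent.H.MP_0d008e_co

variable {V : Type*} {adj : V → V → Prop}

theorem Conn.mid {T : Set V} {a p q b : V} (h1 : Conn adj T a p) (hp : p ∈ T) (h2 : RR adj T p q)
    (hq : q ∈ T) (h3 : Conn adj T q b) : Conn adj T a b := by
  obtain ⟨p', hp', g1, g2⟩ : ∃ p' ∈ T, adj a p' ∧ RR adj T p' p := by
    rcases h1 with h1 | ⟨r, hr, r', hr', k1, k2, k3⟩
    · exact ⟨p, hp, h1, ReflTransGen.refl⟩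
    · exact ⟨r, hr, k1, k2.tail ⟨hr', hp, k3⟩⟩
  obtain ⟨q', hq', g3, g4⟩ : ∃ q' ∈ T, adj q' b ∧ RR adj T q q' := by
    rcases h3 with h3 | ⟨r, hr, r', hr', k1, k2, k3⟩
    · exact ⟨q, hq, h3, ReflTransGen.refl⟩
    · exact ⟨r', hr', k3, ReflTransGen.head ⟨hq, hr, k1⟩ k2⟩
  exact Or.inr ⟨p', hp', q', hq', g1, (ReflTransGen.trans g2 h2).trans g4, g3⟩

theorem RR.expand {adj1 : V → V → Prop} {S P : Set V} {p q : V}
    (h : ∀ u ∈ S, ∀ w ∈ S, adj1 u w → Conn adj P u w) (hr : RR adj1 S p q) :
    RR adj (S ∪ P) p q := by
  induction hr with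
  | refl => exact ReflTransGen.refl
  | tail _ hbc ih =>
    exact ReflTransGen.trans ih ((h _ hbc.1 _ hbc.2.1 hbc.2.2).rr Set.subset_union_right
      (Or.inl hbc.1) (Or.inl hbc.2.1))

theorem Conn.expand {adj1 : V → V → Prop} {S P : Set V} {a b : V}
    (h : ∀ u w, (u = a ∨ u ∈ S) → (w = b ∨ w ∈ S) → adj1 u w → Conn adj P u w)
    (hc : Conn adj1 S a b) : Conn adj (S ∪ P) a b := by
  rcases hc with hc | ⟨p, hp, q, hq, h1, h2, h3⟩
  · exact Conn.mono Set.subset_union_right (h a b (Or.inl rfl) (Or.inl rfl) hc)
  · exact Conn.mid (Conn.mono Set.subset_union_right (h a p (Or.inl rfl) (Or.inr hp) h1))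
      (Or.inl hp) (RR.expand (fun u hu w hw => h u w (Or.inr hu) (Or.inr hw)) h2) (Or.inl hq)
      (Conn.mono Set.subset_union_right (h q b (Or.inr hq) (Or.inl rfl) h3))

theorem RootConn.expand {adj1 : V → V → Prop} {S P X : Set V} {b : V}
    (h : ∀ u w, u ∈ S → (w = b ∨ w ∈ S) → adj1 u w → Conn adj P u w)
    (hc : RootConn adj1 S X b) : RootConn adj (S ∪ P) X b := by
  rcases hc with hc | ⟨r, hr, hrS, q, hq, h1, h2⟩
  · exact Or.inl hc
  · have g1 : RR adj (S ∪ P) r q := RR.expand (fun u hu w hw => h u w hu (Or.inr hw)) h1
    rcases h q b hq (Or.inl rfl) h2 with g2 | ⟨p', hp', q', hq', k1, k2, k3⟩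
    · exact Or.inr ⟨r, hr, Or.inl hrS, q, Or.inl hq, g1, g2⟩
    · exact Or.inr ⟨r, hr, Or.inl hrS, q', Or.inr hq', (g1.tail ⟨Or.inl hq, Or.inr hp', k1⟩).trans
        (RR.mono Set.subset_union_right k2), k3⟩

section

variable {adj1 : V → V → Prop} {C C1 X X1 P R : Set V} {v e c : V} {S : Seg → Set V}

/-- The set `P` is added to the path `i`. -/
theorem RK.addSeg (h : IsK adj1 C1 v e c S) (hC : C1 ⊆ C) (hP : P ⊆ C) (hP1 : ∀ u ∈ P, u ∉ C1)
    (hR : R ⊆ C1) (r1 : v ∉ R) (r2 : e ∉ R) (r3 : c ∉ R) (r4 : ∀ i, ∀ u ∈ R, u ∉ S i) (i : Seg)
    (hi : Conn adj (S i ∪ P) (src v e c i) (dst v e c i))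
    (hj : ∀ j, j ≠ i → Conn adj (S j) (src v e c j) (dst v e c j))
    (hroot : RootConn adj R X v) : RK adj C X := by
  refine ⟨v, e, c, _, R, h.repl (adj' := adj) (C' := C) (T := S i ∪ P) i (hC h.vC) (hC h.eC)
    (hC h.cC) ?_ ?_ ?_ ?_ ?_ ?_ hi hj, hR.trans hC, r1, r2, r3, ?_, hroot⟩
  · exact Set.union_subset ((h.sub i).trans hC) hP
  · intro j _
    exact (h.sub j).trans hC
  · rintro (g | g)
    · exact h.nv i g
    · exact hP1 v g h.vC
  · rintro (g | g)
    · exact h.ne i g
    · exact hP1 e g h.eC
  · rintro (g | g)
    · exact h.nc i g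
    · exact hP1 c g h.cC
  · rintro j hji u (g | g) g2
    · exact h.disj i j hji.symm u g g2
    · exact hP1 u g (h.sub j g2)
  · intro j u hu g
    by_cases hji : j = i
    · simp only [if_pos hji] at g
      rcases g with g | g
      · exact r4 i u hu g
      · exact hP1 u g (hR hu)
    · simp only [if_neg hji] at g
      exact r4 j u hu g

/-- The set `P` is added to the root path. -/
theorem RK.addRoot (h : IsK adj1 C1 v e c S) (hC : C1 ⊆ C) (hP : P ⊆ C) (hP1 : ∀ u ∈ P, u ∉ C1)
    (hR : R ⊆ C1) (r1 : v ∉ R) (r2 : e ∉ R) (r3 : c ∉ R) (r4 : ∀ i, ∀ u ∈ R, u ∉ S i)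
    (hj : ∀ j, Conn adj (S j) (src v e c j) (dst v e c j))
    (hroot : RootConn adj (R ∪ P) X v) : RK adj C X := by
  refine ⟨v, e, c, S, R ∪ P, ⟨hC h.vC, hC h.eC, hC h.cC, h.ve, h.vc, h.ec,
    fun i => (h.sub i).trans hC, h.nv, h.ne, h.nc, h.disj, hj⟩,
    Set.union_subset (hR.trans hC) hP, ?_, ?_, ?_, ?_, hroot⟩
  · rintro (g | g)
    · exact r1 g
    · exact hP1 v g h.vC
  · rintro (g | g)
    · exact r2 g
    · exact hP1 e g h.eC
  · rintro (g | g)
    · exact r3 g
    · exact hP1 c g h.cC
  · rintro j u (g | g) g2
    · exact r4 j u g g2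
    · exact hP1 u g (h.sub j g2)

end

/-- An arc replaced by a path. -/
theorem RK.subdiv {adj1 : V → V → Prop} {C C1 X X1 P : Set V} {s t : V}
    (ha : ∀ u w, adj1 u w → adj u w ∨ (u = s ∧ w = t)) (hP : Conn adj P s t)
    (hPC : P ⊆ C) (hP1 : ∀ u ∈ P, u ∉ C1) (hC1 : C1 ⊆ C) (hX : X1 ⊆ X) (h : RK adj1 C1 X1) :
    RK adj C X := by
  obtain ⟨v, e, c, S, R, h, h1, h2, h3, h4, h5, h6⟩ := h
  have h6' : RootConn adj1 R X v := by
    rcases h6 with h6 | ⟨r, hr, h6⟩
    · exact Or.inl (hX h6)
    · exact Or.inr ⟨r, hX hr, h6⟩
  have hconn : ∀ u w, adj1 u w → Conn adj P u w := by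
    intro u w huw
    rcases ha u w huw with g | ⟨rfl, rfl⟩
    · exact Or.inl g
    · exact hP
  -- the arc does not belong to the path `j`
  have hno : ∀ j, ¬ ((s = src v e c j ∨ s ∈ S j) ∧ (t = dst v e c j ∨ t ∈ S j)) →
      Conn adj (S j) (src v e c j) (dst v e c j) := by
    intro j hj
    refine Conn.congr ?_ (h.conn j)
    intro u w hu hw huw
    rcases ha u w huw with g | ⟨rfl, rfl⟩
    · exact g
    · exact absurd ⟨hu, hw⟩ hj
  by_cases hex : ∃ i, (s = src v e c i ∨ s ∈ S i) ∧ (t = dst v e c i ∨ t ∈ S i)
  · obtain ⟨i, hs, ht⟩ := hex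
    refine RK.addSeg (P := P) h hC1 hPC hP1 h1 h2 h3 h4 h5 i ?_ ?_ ?_
    · exact Conn.expand (fun u w _ _ huw => hconn u w huw) (h.conn i)
    · intro j hji
      apply hno
      rintro ⟨hs', ht'⟩
      apply hji
      have e1 : src v e c i = src v e c j := by
        rcases hs with hs | hs
        · rcases hs' with hs' | hs'
          · exact hs.symm.trans hs'
          · rw [hs] at hs'
            exact absurd hs' (h.src_nmem i j)
        · rcases hs' with hs' | hs'
          · rw [hs'] at hs
            exact absurd hs (h.src_nmem j i)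
          · exact absurd hs (h.disj j i hji s hs')
      have e2 : dst v e c i = dst v e c j := by
        rcases ht with ht | ht
        · rcases ht' with ht' | ht'
          · exact ht.symm.trans ht'
          · rw [ht] at ht'
            exact absurd ht' (h.dst_nmem i j)
        · rcases ht' with ht' | ht'
          · rw [ht'] at ht
            exact absurd ht (h.dst_nmem j i)
          · exact absurd ht (h.disj j i hji t ht')
      exact (h.seg_inj i j e1 e2).symm
    · refine RootConn.congr ?_ h6'
      intro u w hu hw huw
      rcases ha u w huw with g | ⟨rfl, rfl⟩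
      · exact g
      · exfalso
        rcases hs with hs | hs
        · rw [hs] at hu
          cases i
          · exact h2 hu
          · exact h3 hu
          · exact h2 hu
          · exact h3 hu
          · exact h4 hu
        · exact h5 i u hu hs
  · push Not at hex
    refine RK.addRoot (P := P) h hC1 hPC hP1 h1 h2 h3 h4 h5 ?_ ?_
    · intro j
      exact hno j (fun g => hex j g.1 |>.1 ((g.2).resolve_right (hex j g.1).2))
    · exact RootConn.expand (fun u w _ _ huw => hconn u w huw) h6'

/-- Contraction of the arc `p → x` to `p`. -/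
def contr (adj : V → V → Prop) (p x : V) : V → V → Prop := fun u w => adj u w ∨ (u = p ∧ adj x w)

/-- Undoing a contraction. -/
theorem RK.uncontr {C X X1 : Set V} {p x : V} (hpx : adj p x) (hpC : p ∈ C) (hxC : x ∈ C)
    (hne : p ≠ x) (hxX : x ∈ X) (hX1 : X1 ⊆ X) (h : RK (contr adj p x) (C \ {x}) X1) :
    RK adj C X ∨ ∃ A B : Set V, A ⊆ (C \ {x}) \ {p} ∧ B ⊆ (C \ {x}) \ {p} ∧ Disjoint A B ∧
      ConnN adj A x p ∧ ConnN adj B x p := by
  obtain ⟨v, e, c, S, R, h, h1, h2, h3, h4, h5, h6⟩ := h
  have hCC : C \ {x} ⊆ C := Set.sdiff_subset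
  have hPC : ({x} : Set V) ⊆ C := by
    intro u hu
    rw [Set.mem_singleton_iff.1 hu]
    exact hxC
  have hP1 : ∀ u ∈ ({x} : Set V), u ∉ C \ {x} := fun u hu g => g.2 hu
  have h6' : RootConn (contr adj p x) R X v := by
    rcases h6 with h6 | ⟨r, hr, h6⟩
    · exact Or.inl (hX1 h6)
    · exact Or.inr ⟨r, hX1 hr, h6⟩
  have hconn : ∀ u w, contr adj p x u w → Conn adj {x} u w := by
    rintro u w (g | ⟨rfl, g⟩)
    · exact Or.inl g
    · exact Or.inr ⟨x, rfl, x, rfl, hpx, ReflTransGen.refl, g⟩
  have hconn' : ∀ u w, u ≠ p → contr adj p x u w → adj u w := by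
    rintro u w hu (g | ⟨rfl, g⟩)
    · exact g
    · exact absurd rfl hu
  have hexp : ∀ i, Conn adj (S i ∪ {x}) (src v e c i) (dst v e c i) := fun i =>
    Conn.expand (fun u w _ _ g => hconn u w g) (h.conn i)
  have hno : ∀ j, src v e c j ≠ p → p ∉ S j → Conn adj (S j) (src v e c j) (dst v e c j) := by
    intro j j1 j2
    refine Conn.congr ?_ (h.conn j)
    rintro u w (rfl | hu) _ g
    · exact hconn' _ w j1 g
    · exact hconn' u w (fun h => j2 (h ▸ hu)) g
  have hRno : p ∉ R → RootConn adj R X v := by
    intro hpR
    refine RootConn.congr ?_ h6'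
    intro u w hu _ g
    exact hconn' u w (fun h => hpR (h ▸ hu)) g
  -- a path starting at `p` starts with an arc from `p` or with one from `x`
  have hfirst : ∀ j, src v e c j = p → p ∉ S j → Conn adj (S j) p (dst v e c j) ∨
      Conn adj (S j) x (dst v e c j) := by
    intro j j1 j2
    have hj := h.conn j
    rw [j1] at hj
    rcases hj with (g | ⟨_, g⟩) | ⟨p', hp', q, hq, g1, g2, g3⟩
    · exact Or.inl (Or.inl g)
    · exact Or.inr (Or.inl g)
    · have g2' : RR adj (S j) p' q := RR.congr (fun u hu w _ g =>
        hconn' u w (fun h => j2 (h ▸ hu)) g) g2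
      have g3' : adj q (dst v e c j) := hconn' q _ (fun h => j2 (h ▸ hq)) g3
      rcases g1 with g1 | ⟨_, g1⟩
      · exact Or.inl (Or.inr ⟨p', hp', q, hq, g1, g2', g3'⟩)
      · exact Or.inr (Or.inr ⟨p', hp', q, hq, g1, g2', g3'⟩)
  have hxS : ∀ j, x ∉ S j := fun j g => (h.sub j g).2 rfl
  by_cases hpS : ∃ i, p ∈ S i
  · obtain ⟨i, hi⟩ := hpS
    left
    refine RK.addSeg (P := {x}) h hCC hPC hP1 h1 h2 h3 h4 h5 i (hexp i) ?_
      (hRno fun g => h5 i p g hi)
    intro j hji
    refine hno j ?_ (h.disj i j hji.symm p hi)
    intro g
    rw [← g] at hi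
    exact h.src_nmem j i hi
  · push Not at hpS
    by_cases hpc : p = c
    · left
      refine RK.addSeg (P := {x}) h hCC hPC hP1 h1 h2 h3 h4 h5 .c1 (hexp .c1) ?_
        (hRno fun g => h4 (hpc ▸ g))
      intro j hji
      refine hno j ?_ (hpS j)
      rw [hpc]
      cases j
      · exact h.vc
      · exact h.ec
      · exact h.vc
      · exact h.ec
      · exact absurd rfl hji
    · by_cases hpv : p = v
      · left
        have hpe : p ≠ e := fun g => h.ve (hpv.symm.trans g)
        have hroot := hRno fun g => h2 (hpv ▸ g)
        rcases hfirst .a1 hpv.symm (hpS _) with g1 | g1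
        · refine RK.addSeg (P := {x}) h hCC hPC hP1 h1 h2 h3 h4 h5 .a2 (hexp .a2) ?_ hroot
          intro j hji
          cases j
          · rw [hpv] at g1
            exact g1
          · exact hno .b hpe.symm (hpS _)
          · exact absurd rfl hji
          · exact hno .b2 hpe.symm (hpS _)
          · exact hno .c1 (Ne.symm hpc) (hpS _)
        · rcases hfirst .a2 hpv.symm (hpS _) with g2 | g2
          · refine RK.addSeg (P := {x}) h hCC hPC hP1 h1 h2 h3 h4 h5 .a1 (hexp .a1) ?_ hroot
            intro j hji
            cases j
            · exact absurd rfl hji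
            · exact hno .b hpe.symm (hpS _)
            · rw [hpv] at g2
              exact g2
            · exact hno .b2 hpe.symm (hpS _)
            · exact hno .c1 (Ne.symm hpc) (hpS _)
          · -- the tip is `x`
            have xe : x ≠ e := fun g => h.eC.2 g.symm
            have xc : x ≠ c := fun g => h.cC.2 g.symm
            have g3 : Conn adj (S .b ∪ {v}) e x := by
              have g4 := hno .b hpe.symm (hpS _)
              have g5 := Conn.glue (T := {v}) g4 rfl rfl ReflTransGen.refl (hpv ▸ hpx : adj v x)
              exact Or.inr g5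
            refine RK_of_tip (x := x) (e := e) (c := c)
              (S := fun j => if j = .b then S .b ∪ {v} else S j)
              ⟨hxC, hCC h.eC, hCC h.cC, xe, xc, h.ec, ?_, ?_, ?_, ?_, ?_, ?_⟩ hxX
            · intro j u hu
              by_cases hj : j = .b
              · simp only [if_pos hj] at hu
                rcases hu with hu | hu
                · exact hCC (h.sub _ hu)
                · rw [Set.mem_singleton_iff.1 hu]
                  exact hCC h.vC
              · simp only [if_neg hj] at hu
                exact hCC (h.sub _ hu)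
            · intro j hu
              by_cases hj : j = .b
              · simp only [if_pos hj] at hu
                rcases hu with hu | hu
                · exact hxS _ hu
                · exact h.vC.2 hu.symm
              · simp only [if_neg hj] at hu
                exact hxS _ hu
            · intro j hu
              by_cases hj : j = .b
              · simp only [if_pos hj] at hu
                rcases hu with hu | hu
                · exact h.ne _ hu
                · exact h.ve hu.symm
              · simp only [if_neg hj] at hu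
                exact h.ne _ hu
            · intro j hu
              by_cases hj : j = .b
              · simp only [if_pos hj] at hu
                rcases hu with hu | hu
                · exact h.nc _ hu
                · exact h.vc hu.symm
              · simp only [if_neg hj] at hu
                exact h.nc _ hu
            · intro j k hjk u hu hu'
              by_cases hj : j = .b
              · have hk : k ≠ .b := fun hk => hjk (hj.trans hk.symm)
                simp only [if_pos hj] at hu
                simp only [if_neg hk] at hu'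
                rcases hu with hu | hu
                · exact h.disj .b k hk.symm u hu hu'
                · rw [Set.mem_singleton_iff.1 hu] at hu'
                  exact h.nv _ hu'
              · simp only [if_neg hj] at hu
                by_cases hk : k = .b
                · simp only [if_pos hk] at hu'
                  rcases hu' with hu' | hu'
                  · exact h.disj j .b hj u hu hu'
                  · rw [Set.mem_singleton_iff.1 hu'] at hu
                    exact h.nv _ hu
                · simp only [if_neg hk] at hu'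
                  exact h.disj j k hjk u hu hu'
            · intro j
              cases j
              · exact g1
              · exact g3
              · exact g2
              · exact hno .b2 hpe.symm (hpS _)
              · exact hno .c1 (Ne.symm hpc) (hpS _)
      · by_cases hpe : p = e
        · have hroot := hRno fun g => h3 (hpe ▸ g)
          rcases hfirst .b hpe.symm (hpS _) with g1 | g1
          · left
            refine RK.addSeg (P := {x}) h hCC hPC hP1 h1 h2 h3 h4 h5 .b2 (hexp .b2) ?_ hroot
            intro j hji
            cases j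
            · exact hno .a1 (Ne.symm hpv) (hpS _)
            · rw [hpe] at g1
              exact g1
            · exact hno .a2 (Ne.symm hpv) (hpS _)
            · exact absurd rfl hji
            · exact hno .c1 (Ne.symm hpc) (hpS _)
          · rcases hfirst .b2 hpe.symm (hpS _) with g2 | g2
            · left
              refine RK.addSeg (P := {x}) h hCC hPC hP1 h1 h2 h3 h4 h5 .b (hexp .b) ?_ hroot
              intro j hji
              cases j
              · exact hno .a1 (Ne.symm hpv) (hpS _)
              · exact absurd rfl hji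
              · exact hno .a2 (Ne.symm hpv) (hpS _)
              · rw [hpe] at g2
                exact g2
              · exact hno .c1 (Ne.symm hpc) (hpS _)
            · -- two disjoint paths from `x` to `p`
              right
              have k1 : Conn adj (S .a1) v p := by
                have := hno .a1 (Ne.symm hpv) (hpS _)
                rw [hpe]
                exact this
              have k2 : Conn adj (S .c1) c p := by
                have := hno .c1 (Ne.symm hpc) (hpS _)
                rw [hpe]
                exact this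
              have sub : ∀ j, ∀ u ∈ S j, u ∈ (C \ {x}) \ {p} := by
                intro j u hu
                refine ⟨h.sub j hu, ?_⟩
                rintro rfl
                exact hpS j hu
              refine ⟨S .b ∪ (S .a1 ∪ {v}), S .b2 ∪ (S .c1 ∪ {c}), ?_, ?_, ?_,
                Conn.join g1 k1, Conn.join g2 k2⟩
              · rintro u (hu | hu | hu)
                · exact sub _ u hu
                · exact sub _ u hu
                · rw [Set.mem_singleton_iff.1 hu]
                  exact ⟨h.vC, fun g => hpv g.symm⟩
              · rintro u (hu | hu | hu)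
                · exact sub _ u hu
                · exact sub _ u hu
                · rw [Set.mem_singleton_iff.1 hu]
                  exact ⟨h.cC, fun g => hpc g.symm⟩
              · rw [Set.disjoint_left]
                rintro u (hu | hu | hu) (hu' | hu' | hu')
                · exact h.disj .b .b2 (by decide) u hu hu'
                · exact h.disj .b .c1 (by decide) u hu hu'
                · rw [Set.mem_singleton_iff.1 hu'] at hu
                  exact h.nc _ hu
                · exact h.disj .a1 .b2 (by decide) u hu hu'
                · exact h.disj .a1 .c1 (by decide) u hu hu'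
                · rw [Set.mem_singleton_iff.1 hu'] at hu
                  exact h.nc _ hu
                · rw [Set.mem_singleton_iff.1 hu] at hu'
                  exact h.nv _ hu'
                · rw [Set.mem_singleton_iff.1 hu] at hu'
                  exact h.nv _ hu'
                · exact h.vc ((Set.mem_singleton_iff.1 hu).symm.trans (Set.mem_singleton_iff.1 hu'))
        · left
          refine RK.addRoot (P := {x}) h hCC hPC hP1 h1 h2 h3 h4 h5 ?_
            (RootConn.expand (fun u w _ _ g => hconn u w g) h6')
          intro j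
          refine hno j ?_ (hpS j)
          cases j
          · exact Ne.symm hpv
          · exact Ne.symm hpe
          · exact Ne.symm hpv
          · exact Ne.symm hpe
          · exact Ne.symm hpc

end Pool.Agent.H.MP_0cacf8
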