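import Pool.Agent.H.MP_0cacf8.RC3C

/-!
# Minimal counterexamples to the rooted theorem: first reductions
-/

set_option autoImplicit false

namespace Pool.Agent.H.MP_0cacf8

open Relation Finset Pool.Agent.H.MP_0d008e_co

variable {V : Type*} {adj : V → V → Prop}

/-- `C` is strong. -/
def Strong (adj : V → V → Prop) (C : Finset V) : Prop := ∀ u ∈ C, ∀ w ∈ C, RR adj (C : Set V) u w

/-- All vertices of `C` outside `X` have two in-neighbours in `C`. -/
def Ideg (adj : V → V → Prop) (C X : Finset V) : Prop :=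
  ∀ c ∈ C, c ∉ X → ∃ p ∈ C, ∃ q ∈ C, p ≠ q ∧ p ≠ c ∧ q ≠ c ∧ adj p c ∧ adj q c

open Classical in
/-- number of arcs -/
noncomputable def narc (adj : V → V → Prop) (C : Finset V) : ℕ :=
  ((C ×ˢ C).filter (fun z => adj z.1 z.2)).card

/-- The hypotheses of the rooted theorem. -/
structure Inst (adj : V → V → Prop) (C X : Finset V) : Prop where
  strong : Strong adj C
  sub : X ⊆ C
  ne : X.Nonempty
  ideg : Ideg adj C X
  km : Km adj (C : Set V)

/-- A minimal counterexample. -/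
structure Ctx (adj : V → V → Prop) (C X : Finset V) : Prop where
  inst : Inst adj C X
  no : ¬ RK adj (C : Set V) (X : Set V)
  ih1 : ∀ (adj' : V → V → Prop) (C' X' : Finset V), C'.card < C.card → Inst adj' C' X' →
    RK adj' (C' : Set V) (X' : Set V)
  ih2 : ∀ (adj' : V → V → Prop) (X' : Finset V), narc adj' C < narc adj C → Inst adj' C X' →
    RK adj' (C : Set V) (X' : Set V)
  ih3 : ∀ X' : Finset V, X'.card < X.card → Inst adj C X' → RK adj (C : Set V) (X' : Set V)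

/-- `p` is the only in-neighbour of `x`. -/
structure IsPred (adj : V → V → Prop) (C : Finset V) (x p : V) : Prop where
  mem : p ∈ C
  ne : p ≠ x
  arc : adj p x
  uniq : ∀ u ∈ C, u ≠ x → adj u x → u = p

/-- An arc deleted. -/
def del (adj : V → V → Prop) (s t : V) : V → V → Prop := fun u w => adj u w ∧ ¬ (u = s ∧ w = t)

theorem del_le {s t : V} : ∀ u w, del adj s t u w → adj u w := fun _ _ h => h.1

theorem narc_del {C : Finset V} {s t : V} (hs : s ∈ C) (ht : t ∈ C) (h : adj s t) :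
    narc (del adj s t) C < narc adj C := by
  classical
  unfold narc
  refine Finset.card_lt_card ?_
  rw [Finset.ssubset_iff_of_subset]
  · refine ⟨(s, t), ?_, ?_⟩
    · rw [mem_filter, mem_product]
      exact ⟨⟨hs, ht⟩, h⟩
    · rw [mem_filter]
      rintro ⟨_, _, h2⟩
      exact h2 ⟨rfl, rfl⟩
  · intro z hz
    rw [mem_filter] at hz ⊢
    exact ⟨hz.1, hz.2.1⟩

namespace Ctx

variable {C X : Finset V}

theorem tip (h : Ctx adj C X) {v e c : V} {S : Seg → Set V} (hk : IsK adj (C : Set V) v e c S)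
    (hv : v ∈ X) : False :=
  h.no (RK_of_tip hk hv)

section fin

variable [Fintype V] [DecidableEq V]

theorem no_pod (h : Ctx adj C X) : ¬ ∃ x G, Pod adj C X x G := fun hp =>
  h.no (RK_of_F1 (core _ C X rfl h.inst.sub h.inst.ne h.inst.strong h.inst.ideg hp))

theorem erase_nonempty (h : Ctx adj C X) (x : V) : (C.erase x).Nonempty := by
  obtain ⟨v, e, c, S, hk⟩ := h.inst.km
  by_cases hv : v = x
  · exact ⟨e, mem_erase.2 ⟨fun g => hk.ve (hv.trans g.symm), hk.eC⟩⟩
  · exact ⟨v, mem_erase.2 ⟨hv, hk.vC⟩⟩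

theorem two (h : Ctx adj C X) {x : V} (hx : x ∈ X) : (X.erase x).Nonempty := by
  by_contra hcon
  rw [Finset.not_nonempty_iff_eq_empty] at hcon
  apply h.no_pod
  refine ⟨x, C.erase x, h.inst.sub hx, erase_subset _ _, h.erase_nonempty x, notMem_erase _ _, ?_,
    ?_⟩
  · rw [Finset.disjoint_left]
    intro y hy hyX
    have : y ∈ X.erase x := mem_erase.2 ⟨(mem_erase.1 hy).1, hyX⟩
    rw [hcon] at this
    exact notMem_empty _ this
  · intro u hu g _ _
    by_cases hux : u = x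
    · exact Or.inr hux
    · exact Or.inl (mem_erase.2 ⟨hux, hu⟩)

/-- Every subdivision contains `X`. -/
theorem in_all (h : Ctx adj C X) {x : V} (hx : x ∈ X) : ¬ Km adj ((C : Set V) \ {x}) := by
  classical
  intro hkm
  have hcoe : ((C.erase x : Finset V) : Set V) = (C : Set V) \ {x} := Finset.coe_erase x C
  rw [← hcoe] at hkm
  obtain ⟨K, hKC, hKne, hKs, hKk, hKmax⟩ := comp hkm
  have hxC := h.inst.sub hx
  have hxK : x ∉ K := fun g => notMem_erase x C (hKC g)
  have hKC' : K ⊆ C := hKC.trans (erase_subset _ _)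
  set XK : Finset V := K.filter (fun k => k ∈ X ∨ ∃ u ∈ C, u ∉ K ∧ adj u k) with hXK
  have mXK : ∀ k, k ∈ XK ↔ k ∈ K ∧ (k ∈ X ∨ ∃ u ∈ C, u ∉ K ∧ adj u k) := by
    intro k
    rw [hXK, mem_filter]
  have hinst : Inst adj K XK := by
    refine ⟨hKs, filter_subset _ _, ?_, ?_, hKk⟩
    · obtain ⟨k0, hk0⟩ := hKne
      rcases first_hit (B := (K : Set V)) (h.inst.strong x hxC k0 (hKC' hk0)) hxK with g | g
      · exact absurd hk0 g.2
      · obtain ⟨y, z, _, g2, g3, _, g5, g6, _⟩ := g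
        exact ⟨z, (mXK z).2 ⟨g5, Or.inr ⟨y, g2, g3, g6⟩⟩⟩
    · intro k hk hkX
      have hk' : ¬ (k ∈ X ∨ ∃ u ∈ C, u ∉ K ∧ adj u k) := fun g => hkX ((mXK k).2 ⟨hk, g⟩)
      push Not at hk'
      obtain ⟨p, hp, q, hq, g1, g2, g3, g4, g5⟩ := h.inst.ideg k (hKC' hk) hk'.1
      refine ⟨p, ?_, q, ?_, g1, g2, g3, g4, g5⟩
      · by_contra hpK
        exact hk'.2 p hp hpK g4
      · by_contra hqK
        exact hk'.2 q hq hqK g5
  have hcard : K.card < C.card := by
    refine Finset.card_lt_card ((Finset.ssubset_iff_of_subset hKC').2 ⟨x, hxC, hxK⟩)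
  have hrk := h.ih1 adj K XK hcard hinst
  apply h.no
  refine RK.lift (K := (K : Set V)) (fun u hu => hKC' hu) (fun _ _ g => g) ?_ hrk
  intro r hr
  obtain ⟨hrK, hr'⟩ := (mXK r).1 hr
  by_cases hrX : r ∈ X
  · exact Or.inl hrX
  · right
    obtain ⟨u, hu, huK, hur⟩ := hr'.resolve_left hrX
    refine ⟨x, hx, ⟨hxC, hxK⟩, u, ⟨hu, huK⟩, ?_, hur⟩
    by_cases hux : u = x
    · rw [hux]
    · rcases last_exit (B := {x}) (h.inst.strong x hxC u hu) (by simpa using hux) with g | g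
      · exact absurd rfl g.2
      · obtain ⟨y, z, _, g2, g3, g4, g5, g6, _⟩ := g
        have hyx : y = x := g2
        rw [hyx] at g5
        have g6' : RR adj ((C.erase x : Finset V) : Set V) z u := by
          rw [hcoe]
          exact g6
        have hz : z ∈ C.erase x := mem_erase.2 ⟨g4, g3⟩
        have hu' : u ∈ C.erase x := mem_erase.2 ⟨hux, hu⟩
        have g7 := RR.restrict (K := ((K : Set V))ᶜ) g6' (fun w hw k1 k2 hwK =>
          huK (hKmax u hu' r hrK w hwK (ReflTransGen.single ⟨hu', hKC hrK, hur⟩) k2))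
        have hsub : ((C.erase x : Finset V) : Set V) ∩ ((K : Set V))ᶜ ⊆ (C : Set V) \ K := by
          rintro w ⟨w1, w2⟩
          exact ⟨mem_of_mem_erase w1, w2⟩
        have hzK : z ∉ K := by
          intro hzK
          exact huK (hKmax u hu' r hrK z hzK (ReflTransGen.single ⟨hu', hKC hrK, hur⟩) g6')
        exact ReflTransGen.head ⟨⟨hxC, hxK⟩, ⟨g3, hzK⟩, g5⟩ (RR.mono hsub g7)

theorem indeg1 (h : Ctx adj C X) {x : V} (hx : x ∈ X) {u w : V} (hu : u ∈ C) (hw : w ∈ C)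
    (hux : u ≠ x) (hwx : w ≠ x) (h1 : adj u x) (h2 : adj w x) : u = w := by
  by_contra huw
  have hinst : Inst adj C (X.erase x) := by
    refine ⟨h.inst.strong, (erase_subset _ _).trans h.inst.sub, h.two hx, ?_, h.inst.km⟩
    intro k hk hkX
    by_cases hkx : k = x
    · rw [hkx]
      exact ⟨u, hu, w, hw, huw, hux, hwx, h1, h2⟩
    · exact h.inst.ideg k hk (fun g => hkX (mem_erase.2 ⟨hkx, g⟩))
  have hcard : (X.erase x).card < X.card := Finset.card_erase_lt_of_mem hx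
  exact h.no (RK.mono (h.ih3 _ hcard hinst) (fun _ g => g) (fun _ _ g => g)
    (fun y hy => mem_of_mem_erase hy))

theorem pred (h : Ctx adj C X) {x : V} (hx : x ∈ X) : ∃ p, IsPred adj C x p := by
  obtain ⟨y, hy⟩ := h.erase_nonempty x
  obtain ⟨hyx, hyC⟩ := mem_erase.1 hy
  have h1 := conn_of_RR (h.inst.strong y hyC x (h.inst.sub hx)) hyx
  obtain ⟨p, hp, h2⟩ := h1.last
  have hpC : p ∈ C ∧ p ≠ x := by
    rcases h2 with h2 | ⟨h2, _⟩
    · rw [← h2]
      exact ⟨hyC, hyx⟩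
    · exact ⟨h2.1.1, h2.2⟩
  exact ⟨p, hpC.1, hpC.2, hp, fun u hu hux g => h.indeg1 hx hu hpC.1 hux hpC.2 g hp⟩

/-- Vertices of `X` are interior vertices of paths. -/
theorem interior (h : Ctx adj C X) {v e c : V} {S : Seg → Set V}
    (hk : IsK adj (C : Set V) v e c S) {x : V} (hx : x ∈ X) : ∃ i, x ∈ S i := by
  rcases hk.mem_or (h.in_all hx) with g | g | g | g
  · rw [g] at hx
    exact (h.tip hk hx).elim
  · exfalso
    subst g
    obtain ⟨p, hp, hp'⟩ := (hk.conn .a1).last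
    obtain ⟨q, hq, hq'⟩ := (hk.conn .c1).last
    have hp1 : p ∈ C ∧ p ≠ x := by
      rcases hp' with g | ⟨g, _⟩
      · rw [← g]
        exact ⟨hk.vC, hk.ve⟩
      · exact ⟨hk.sub _ g, fun g' => hk.ne _ (g' ▸ g)⟩
    have hq1 : q ∈ C ∧ q ≠ x := by
      rcases hq' with g | ⟨g, _⟩
      · rw [← g]
        exact ⟨hk.cC, hk.ec.symm⟩
      · exact ⟨hk.sub _ g, fun g' => hk.ne _ (g' ▸ g)⟩
    have hpq := h.indeg1 hx hp1.1 hq1.1 hp1.2 hq1.2 hp hq
    subst hpq
    rcases hp' with g | ⟨g, _⟩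
    · rcases hq' with g' | ⟨g', _⟩
      · exact hk.vc (g.trans g'.symm)
      · rw [← g] at g'
        exact hk.nv _ g'
    · rcases hq' with g' | ⟨g', _⟩
      · rw [← g'] at g
        exact hk.nc _ g
      · exact hk.disj .a1 .c1 (by decide) _ g g'
  · exfalso
    subst g
    obtain ⟨p, hp, hp'⟩ := (hk.conn .a2).last
    obtain ⟨q, hq, hq'⟩ := (hk.conn .b2).last
    have hp1 : p ∈ C ∧ p ≠ x := by
      rcases hp' with g | ⟨g, _⟩
      · rw [← g]
        exact ⟨hk.vC, hk.vc⟩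
      · exact ⟨hk.sub _ g, fun g' => hk.nc _ (g' ▸ g)⟩
    have hq1 : q ∈ C ∧ q ≠ x := by
      rcases hq' with g | ⟨g, _⟩
      · rw [← g]
        exact ⟨hk.eC, hk.ec⟩
      · exact ⟨hk.sub _ g, fun g' => hk.nc _ (g' ▸ g)⟩
    have hpq := h.indeg1 hx hp1.1 hq1.1 hp1.2 hq1.2 hp hq
    subst hpq
    rcases hp' with g | ⟨g, _⟩
    · rcases hq' with g' | ⟨g', _⟩
      · exact hk.ve (g.trans g'.symm)
      · rw [← g] at g'
        exact hk.nv _ g'
    · rcases hq' with g' | ⟨g', _⟩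
      · rw [← g'] at g
        exact hk.ne _ g
      · exact hk.disj .a2 .b2 (by decide) _ g g'
  · exact g

end fin

end Ctx

/-- The first part of a path split at `x` ends in the only in-neighbour. -/
theorem head_pred {adj' : V → V → Prop} {C : Finset V} {U : Set V} {a x p : V}
    (hp : IsPred adj C x p) (ha : ∀ u w, adj' u w → adj u w) (haC : a ∈ C) (hax : a ≠ x)
    (hU : ∀ u ∈ U, u ∈ C ∧ u ≠ x) (h : Conn adj' U a x) : Head adj' U a p := by
  obtain ⟨q, hq, hq'⟩ := h.last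
  have h1 : q ∈ C ∧ q ≠ x := by
    rcases hq' with g | ⟨g, _⟩
    · rw [← g]
      exact ⟨haC, hax⟩
    · exact hU q g
  have := hp.uniq q h1.1 h1.2 (ha _ _ hq)
  rwa [this] at hq'

/-- A subdivision which does not use the arc `x → t` next after `x`. -/
theorem km_del {C : Set V} {v e c : V} {S : Seg → Set V} (hk : IsK adj C v e c S) {x t w : V}
    {i : Seg} (hi : x ∈ S i) {U W : Set V} (hU : U ⊆ S i \ {x}) (hW : W ⊆ S i \ {x})
    (h1 : Conn adj U (src v e c i) x) (hw : adj x w) (hwt : w ≠ t)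
    (h2 : Tail adj W w (dst v e c i)) : Km (del adj x t) C := by
  obtain ⟨x1, x2, x3⟩ := hk.ne_of_mem hi
  have hxC := hk.sub i hi
  have hsx : ∀ j, src v e c j ≠ x := by
    intro j g
    rw [← g] at hi
    exact hk.src_nmem j i hi
  have k1 : Conn (del adj x t) U (src v e c i) x := by
    refine Conn.congr ?_ h1
    rintro u y (rfl | hu) _ g
    · exact ⟨g, fun k => hsx i k.1⟩
    · exact ⟨g, fun k => (hU hu).2 k.1⟩
  have k2 : Conn (del adj x t) (∅ ∪ W) x (dst v e c i) := by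
    refine bypass (p := x) (w := w) (Or.inl rfl) ⟨hw, fun k => hwt k.2⟩ ?_
    exact h2.congr fun u y hu _ g => ⟨g, fun k => (hW hu).2 k.1⟩
  rw [Set.empty_union] at k2
  have k3 : Conn (del adj x t) (U ∪ (W ∪ {x})) (src v e c i) (dst v e c i) :=
    Or.inr (Conn.join k1 k2)
  have hT : U ∪ (W ∪ {x}) ⊆ S i := by
    rintro u (hu | hu | hu)
    · exact (hU hu).1
    · exact (hW hu).1
    · rw [Set.mem_singleton_iff.1 hu]
      exact hi
  refine ⟨v, e, c, _, hk.repl i hk.vC hk.eC hk.cC (T := U ∪ (W ∪ {x})) (hT.trans (hk.sub i))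
    (fun j _ => hk.sub j) (fun g => hk.nv i (hT g)) (fun g => hk.ne i (hT g))
    (fun g => hk.nc i (hT g)) (fun j hj u hu => hk.disj i j hj.symm u (hT hu)) k3 ?_⟩
  intro j hj
  refine Conn.congr ?_ (hk.conn j)
  rintro u y (rfl | hu) _ g
  · exact ⟨g, fun k => hsx j k.1⟩
  · refine ⟨g, fun k => ?_⟩
    rw [k.1] at hu
    exact hk.disj i j hj.symm x hi hu

/-- The component of a subdivision after the deletion of an arc is entered from nowhere. -/
theorem comp_closed [DecidableEq V] {C K : Finset V} {s t : V} (hs : Strong adj C) (hKC : K ⊆ C)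
    (hKne : K.Nonempty)
    (hmax : ∀ u ∈ C, ∀ k ∈ K, ∀ k' ∈ K, RR (del adj s t) (C : Set V) u k →
      RR (del adj s t) (C : Set V) k' u → u ∈ K)
    (htC : t ∈ C) (ht : t ∈ K ∨ ∃ p ∈ K, del adj s t p t) :
    ∀ u ∈ C, ∀ k ∈ K, RR (del adj s t) (C : Set V) u k → u ∈ K := by
  classical
  intro u hu k hk huk
  by_contra huK
  set A : Set V := {w | w ∈ C ∧ w ∉ K ∧ ∃ k ∈ K, RR (del adj s t) (C : Set V) w k} with hA
  have huA : u ∈ A := ⟨hu, huK, k, hk, huk⟩
  have hkA : k ∉ A := fun g => g.2.1 hk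
  rcases first_hit (B := A) (hs k (hKC hk) u hu) hkA with g | g
  · exact g.2 huA
  · obtain ⟨y, z, _, g2, g3, g4, g5, g6, _⟩ := g
    obtain ⟨z1, z2, k2, hk2, hzk⟩ := g5
    by_cases hyz : y = s ∧ z = t
    · -- `t ∈ A`
      rcases ht with ht | ⟨p, hp, hpt⟩
      · exact z2 (hyz.2 ▸ ht)
      · apply z2
        refine hmax z z1 k2 hk2 p hp hzk ?_
        rw [hyz.2]
        exact ReflTransGen.single ⟨hKC hp, htC, hpt⟩
    · have hyz' : del adj s t y z := ⟨g6, hyz⟩
      have hy1 : RR (del adj s t) (C : Set V) y k2 := ReflTransGen.head ⟨g2, z1, hyz'⟩ hzk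
      have hyK : y ∈ K := by
        by_contra hyK
        exact g3 ⟨g2, hyK, k2, hk2, hy1⟩
      exact z2 (hmax z z1 k2 hk2 y hyK hzk (ReflTransGen.single ⟨g2, z1, hyz'⟩))

end Pool.Agent.H.MP_0cacf8
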