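import Pool.Agent.H.MP_0cacf8.RC3D

/-!
# Minimal counterexamples: no common out-neighbours of `x` and its in-neighbour
-/

set_option autoImplicit false

namespace Pool.Agent.H.MP_0cacf8

open Relation Finset Pool.Agent.H.MP_0d008e_co

variable {V : Type*} {adj : V → V → Prop}

namespace Ctx

variable {C X : Finset V}

variable [Fintype V] [DecidableEq V]

/-- The induction hypothesis for a subset after the deletion of an arc. -/
theorem small (h : Ctx adj C X) {s t : V} (hs : s ∈ C) (ht : t ∈ C) (hst : adj s t)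
    {K X' : Finset V} (hKC : K ⊆ C) (hinst : Inst (del adj s t) K X') :
    RK (del adj s t) (K : Set V) (X' : Set V) := by
  by_cases hK : K = C
  · subst hK
    exact h.ih2 _ _ (narc_del hs ht hst) hinst
  · exact h.ih1 _ _ _ (Finset.card_lt_card (hKC.ssubset_of_ne hK)) hinst

/-- The component of a subdivision after the deletion of an arc contains `X` and the in-neighbours of
the vertices of `X`. -/
theorem comp_facts (h : Ctx adj C X) {s t : V} {K : Finset V} (hKC : K ⊆ C)
    (hKk : Km (del adj s t) (K : Set V)) : X ⊆ K ∧ ∀ x ∈ X, ∀ p, IsPred adj C x p → p ∈ K := by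
  classical
  have h1 : X ⊆ K := by
    intro y hy
    by_contra hyK
    apply h.in_all hy
    refine Km.mono hKk ?_ del_le
    intro u hu
    refine ⟨hKC hu, ?_⟩
    rintro rfl
    exact hyK hu
  refine ⟨h1, fun x hx p hp => ?_⟩
  obtain ⟨v, e, c, S, hk⟩ := hKk
  have hk' : IsK adj (C : Set V) v e c S := hk.mono hKC del_le
  obtain ⟨i, hi⟩ := h.interior hk' hx
  have hno : ¬ Km (del adj s t) ((K : Set V) \ {x}) := fun g =>
    h.in_all hx (Km.mono g (Set.sdiff_subset_sdiff_left hKC) del_le)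
  obtain ⟨U, W, hU, hW, _, c1, _⟩ := hk.split hno hi
  have hax : src v e c i ≠ x := fun g => hk.src_nmem i i (g ▸ hi)
  have hh := head_pred hp del_le (hKC (hk.src_mem i)) hax
    (fun u hu => ⟨hKC (hk.sub i (hU hu).1), (hU hu).2⟩) c1
  rcases hh with g | ⟨g, _⟩
  · rw [← g]
    exact hk.src_mem i
  · exact hk.sub i (hU g).1

/-- The in-degrees in the component. -/
theorem comp_ideg (h : Ctx adj C X) {s t : V} {K X' : Finset V} (hKC : K ⊆ C) (hX : X ⊆ X')
    (hcl : ∀ u ∈ C, ∀ k ∈ K, RR (del adj s t) (C : Set V) u k → u ∈ K)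
    (ht : ∀ k ∈ K, k ∉ X' → k ≠ t) : Ideg (del adj s t) K X' := by
  intro k hk hkX
  obtain ⟨p, hp, q, hq, g1, g2, g3, g4, g5⟩ := h.inst.ideg k (hKC hk) (fun g => hkX (hX g))
  have hkt := ht k hk hkX
  have e1 : del adj s t p k := ⟨g4, fun g => hkt g.2⟩
  have e2 : del adj s t q k := ⟨g5, fun g => hkt g.2⟩
  exact ⟨p, hcl p hp k hk (ReflTransGen.single ⟨hp, hKC hk, e1⟩), q,
    hcl q hq k hk (ReflTransGen.single ⟨hq, hKC hk, e2⟩), g1, g2, g3, e1, e2⟩

/-- `x` and its in-neighbour have no common out-neighbour. -/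
theorem no_common (h : Ctx adj C X) {x p w : V} (hx : x ∈ X) (hp : IsPred adj C x p) (hw : w ∈ C)
    (hwx : w ≠ x) (hwp : w ≠ p) (h1 : adj x w) (h2 : adj p w) : False := by
  classical
  have hxC := h.inst.sub hx
  have hpw : del adj x w p w := ⟨h2, fun g => hp.ne g.1⟩
  -- a subdivision without `x → w`
  have hkm : Km (del adj x w) (C : Set V) := by
    obtain ⟨v, e, c, S, hk⟩ := h.inst.km
    obtain ⟨i, hi⟩ := h.interior hk hx
    obtain ⟨U, W, hU, hW, hUW, c1, c2⟩ := hk.split (h.in_all hx) hi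
    obtain ⟨w1, hw1, ht⟩ := c2.first
    by_cases hww : w1 = w
    · exfalso
      subst hww
      have hax : src v e c i ≠ x := fun g => hk.src_nmem i i (g ▸ hi)
      have hh := head_pred hp (fun _ _ g => g) (hk.src_mem i) hax
        (fun u hu => ⟨hk.sub i (hU hu).1, (hU hu).2⟩) c1
      have hT : U ∪ W ⊆ S i := by
        rintro u (hu | hu)
        · exact (hU hu).1
        · exact (hW hu).1
      refine hk.no_avoid (h.in_all hx) hi (hT.trans (hk.sub i)) ?_ (fun g => hk.nv i (hT g))
        (fun g => hk.ne i (hT g)) (fun g => hk.nc i (hT g))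
        (fun j hj u hu => hk.disj i j hj.symm u (hT hu)) (bypass hh h2 ht)
      rintro (hu | hu)
      · exact (hU hu).2 rfl
      · exact (hW hu).2 rfl
    · exact km_del hk hi hU hW c1 hw1 hww ht
  obtain ⟨K, hKC, hKne, hKs, hKk, hKmax⟩ := comp hkm
  obtain ⟨hXK, hpred⟩ := h.comp_facts hKC hKk
  have hpK := hpred x hx p hp
  have hcl := comp_closed h.inst.strong hKC hKne hKmax hw (Or.inr ⟨p, hpK, hpw⟩)
  have hwK : w ∈ K := by
    by_contra hwK
    have hinst : Inst (del adj x w) K X := ⟨hKs, hXK, h.inst.ne,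
      h.comp_ideg hKC (Finset.Subset.refl _) hcl (fun k hk _ g => hwK (g ▸ hk)), hKk⟩
    exact h.no (RK.mono (h.small hxC hw h1 hKC hinst) hKC del_le (fun _ g => g))
  have hinst : Inst (del adj x w) K (insert w X) := ⟨hKs, insert_subset hwK hXK,
    ⟨w, mem_insert_self _ _⟩, h.comp_ideg hKC (subset_insert _ _) hcl
      (fun k _ hkX g => hkX (g ▸ mem_insert_self _ _)), hKk⟩
  obtain ⟨v, e, c, S, R, hk, r1, r2, r3, r4, r5, r6⟩ := h.small hxC hw h1 hKC hinst
  have hk' : IsK adj (C : Set V) v e c S := hk.mono hKC del_le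
  have hRC : R ⊆ (C : Set V) := r1.trans hKC
  -- the ear
  have hear : Tail adj R w v := by
    rcases r6 with g | ⟨r, hr, hrR, q, hq, g1, g2⟩
    · rcases mem_insert.1 g with g | g
      · exact Or.inl g.symm
      · exact (h.tip hk' g).elim
    · rcases mem_insert.1 hr with g | g
      · rw [g] at g1 hrR
        exact Or.inr ⟨hrR, q, hq, RR.congr (fun _ _ _ _ k => k.1) g1, g2.1⟩
      · exfalso
        exact h.no ⟨v, e, c, S, R, hk', hRC, r2, r3, r4, r5, Or.inr ⟨r, g, hrR, q, hq,
          RR.congr (fun _ _ _ _ k => k.1) g1, g2.1⟩⟩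
  obtain ⟨i, hi⟩ := h.interior hk' hx
  obtain ⟨U, W, hU, hW, hUW, c1, c2⟩ := hk'.split (h.in_all hx) hi
  have hxR : x ∉ R := fun g => r5 i x g hi
  by_cases hib : i = .b
  · subst hib
    have hax : src v e c .b ≠ x := fun g => hk.src_nmem .b .b (g ▸ hi)
    have hh := head_pred hp (fun _ _ g => g) (hk'.src_mem .b) hax
      (fun u hu => ⟨hk'.sub .b (hU hu).1, (hU hu).2⟩) c1
    have c3 : Conn adj (U ∪ R) (src v e c .b) (dst v e c .b) := bypass hh h2 hear
    refine hk'.no_avoid (h.in_all hx) hi (T := U ∪ R) ?_ ?_ ?_ ?_ ?_ ?_ c3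
    · rintro u (hu | hu)
      · exact hk'.sub _ (hU hu).1
      · exact hRC hu
    · rintro (hu | hu)
      · exact (hU hu).2 rfl
      · exact hxR hu
    · rintro (hu | hu)
      · exact hk'.nv _ (hU hu).1
      · exact r2 hu
    · rintro (hu | hu)
      · exact hk'.ne _ (hU hu).1
      · exact r3 hu
    · rintro (hu | hu)
      · exact hk'.nc _ (hU hu).1
      · exact r4 hu
    · rintro j hj u (hu | hu)
      · exact hk'.disj _ j hj.symm u (hU hu).1
      · exact r5 j u hu
  · have c3 : Conn adj (∅ ∪ R) x v := bypass (p := x) (Or.inl rfl) h1 hear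
    rw [Set.empty_union] at c3
    exact h.no (hk'.ear hx hib hi hU hW hUW c1 c2 hRC r2 r3 r4 r5 c3)

/-- There is no arc from `x` to its in-neighbour. -/
theorem no_back (h : Ctx adj C X) {x p : V} (hx : x ∈ X) (hp : IsPred adj C x p) :
    ¬ adj x p := by
  classical
  intro hxp
  have hxC := h.inst.sub hx
  have hkm : Km (del adj x p) (C : Set V) := by
    obtain ⟨v, e, c, S, hk⟩ := h.inst.km
    obtain ⟨i, hi⟩ := h.interior hk hx
    obtain ⟨U, W, hU, hW, hUW, c1, c2⟩ := hk.split (h.in_all hx) hi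
    obtain ⟨w1, hw1, ht⟩ := c2.first
    by_cases hww : w1 = p
    · exfalso
      subst hww
      have hax : src v e c i ≠ x := fun g => hk.src_nmem i i (g ▸ hi)
      have hh := head_pred hp (fun _ _ g => g) (hk.src_mem i) hax
        (fun u hu => ⟨hk.sub i (hU hu).1, (hU hu).2⟩) c1
      rcases ht with g | ⟨g, _⟩
      · rcases hh with g' | ⟨g', _⟩
        · exact hk.src_ne_dst i (g'.trans g)
        · rw [g] at g'
          exact hk.dst_nmem i i (hU g').1
      · rcases hh with g' | ⟨g', _⟩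
        · rw [← g'] at g
          exact hk.src_nmem i i (hW g).1
        · exact (Set.disjoint_left.1 hUW) g' g
    · exact km_del hk hi hU hW c1 hw1 hww ht
  obtain ⟨K, hKC, hKne, hKs, hKk, hKmax⟩ := comp hkm
  obtain ⟨hXK, hpred⟩ := h.comp_facts hKC hKk
  have hpK := hpred x hx p hp
  have hcl := comp_closed h.inst.strong hKC hKne hKmax hp.mem (Or.inl hpK)
  have hinst : Inst (del adj x p) K (insert p X) := ⟨hKs, insert_subset hpK hXK,
    ⟨p, mem_insert_self _ _⟩, h.comp_ideg hKC (subset_insert _ _) hcl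
      (fun k _ hkX g => hkX (g ▸ mem_insert_self _ _)), hKk⟩
  obtain ⟨v, e, c, S, R, hk, r1, r2, r3, r4, r5, r6⟩ := h.small hxC hp.mem hxp hKC hinst
  have hk' : IsK adj (C : Set V) v e c S := hk.mono hKC del_le
  have hRC : R ⊆ (C : Set V) := r1.trans hKC
  obtain ⟨i, hi⟩ := h.interior hk' hx
  obtain ⟨U, W, hU, hW, hUW, c1, c2⟩ := hk'.split (h.in_all hx) hi
  have hax : src v e c i ≠ x := fun g => hk.src_nmem i i (g ▸ hi)
  have hh := head_pred hp (fun _ _ g => g) (hk'.src_mem i) hax
    (fun u hu => ⟨hk'.sub i (hU hu).1, (hU hu).2⟩) c1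
  have hpR : p ∉ R := by
    intro g
    rcases hh with g' | ⟨g', _⟩
    · rw [← g'] at g
      cases i
      · exact r2 g
      · exact r3 g
      · exact r2 g
      · exact r3 g
      · exact r4 g
    · exact r5 i p g (hU g').1
  have hpv : p = v := by
    rcases r6 with g | ⟨r, hr, hrR, q, hq, g1, g2⟩
    · rcases mem_insert.1 g with g | g
      · exact g.symm
      · exact (h.tip hk' g).elim
    · rcases mem_insert.1 hr with g | g
      · rw [g] at hrR
        exact absurd hrR hpR
      · exfalso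
        exact h.no ⟨v, e, c, S, R, hk', hRC, r2, r3, r4, r5, Or.inr ⟨r, g, hrR, q, hq,
          RR.congr (fun _ _ _ _ k => k.1) g1, g2.1⟩⟩
  have hsv : src v e c i = v := by
    rcases hh with g' | ⟨g', _⟩
    · exact g'.trans hpv
    · rw [hpv] at g'
      exact absurd (hU g').1 (hk.nv i)
  have hib : i ≠ .b := by
    rintro rfl
    exact hk.ve hsv.symm
  have c3 : Conn adj ∅ x v := Or.inl (hpv ▸ hxp)
  exact h.no (hk'.ear hx hib hi hU hW hUW c1 c2 (Set.empty_subset _) (fun g => g) (fun g => g)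
    (fun g => g) (fun _ _ g => g.elim) c3)

end Ctx

end Pool.Agent.H.MP_0cacf8
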