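import Pool.Agent.H.MP_0cacf8.RC3E

/-!
# Minimal counterexamples: some vertex of `X` can be removed without destroying strong connectivity
-/

set_option autoImplicit false

namespace Pool.Agent.H.MP_0cacf8

open Relation Finset Pool.Agent.H.MP_0d008e_co

variable {V : Type*} {adj : V → V → Prop}

/-- Vertices with a walk to the closed set `W` inside `A` are in `W`. -/
theorem anc_RR {W A : Set V} {w q : V} (hcl : ∀ u ∈ A, ∀ y ∈ W, adj u y → u ∈ W)
    (h : RR adj A w q) (hq : q ∈ W) : w ∈ W := by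
  induction h using ReflTransGen.head_induction_on with
  | refl => exact hq
  | head hac _ ih => exact hcl _ hac.1 _ ih hac.2.2

theorem anc_Tail {W A : Set V} {w b : V} (hcl : ∀ u ∈ A, ∀ y ∈ W, adj u y → u ∈ W)
    (h : Tail adj A w b) (hb : b ∈ W) : w ∈ W := by
  rcases h with h | ⟨_, q, hq, h1, h2⟩
  · rw [h]
    exact hb
  · exact anc_RR hcl h1 (hcl q hq b hb h2)

/-- A path to a vertex of the closed set `W` is in `W`. -/
theorem anc_Conn {W A : Set V} {a b : V} (hcl : ∀ u ∈ A, ∀ y ∈ W, adj u y → u ∈ W)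
    (h : Conn adj A a b) (hb : b ∈ W) : Conn adj (A ∩ W) a b :=
  Conn.restrict h fun _ _ _ h2 => anc_Tail hcl h2 hb

theorem anc_start {W A : Set V} {a b : V} (hcl : ∀ u ∈ A, ∀ y ∈ W, adj u y → u ∈ W)
    (ha : ∀ y ∈ W, adj a y → a ∈ W) (h : Conn adj A a b) (hb : b ∈ W) : a ∈ W := by
  obtain ⟨w, hw, ht⟩ := h.first
  exact ha w (anc_Tail hcl ht hb) hw

/-- The last vertex in the closed set `W` of a path which starts in `W` and leaves it. -/
theorem leave {W U : Set V} {a x : V} (hcl : ∀ u ∈ U, ∀ y ∈ W, adj u y → u ∈ W)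
    (ha : a ∈ W) (h : Conn adj U a x) :
    ∃ s ∈ W, Head adj (U ∩ W) a s ∧ Conn adj (U \ W) s x := by
  rcases h with h | ⟨p, hp, q, hq, h1, h2, h3⟩
  · exact ⟨a, ha, Or.inl rfl, Or.inl h⟩
  · by_cases hqW : q ∈ W
    · have hpW := anc_RR hcl h2 hqW
      have h2' := RR.restrict (K := W) h2 (fun w _ _ k => anc_RR hcl k hqW)
      exact ⟨q, hqW, Or.inr ⟨⟨hq, hqW⟩, p, ⟨hp, hpW⟩, h1, h2'⟩, Or.inl h3⟩
    · rcases last_exit (B := W) h2 hqW with ⟨g1, g2⟩ | ⟨y, z, g1, g2, g3, g4, g5, g6, g7⟩
      · exact ⟨a, ha, Or.inl rfl, Or.inr ⟨p, ⟨hp, g2⟩, q, ⟨hq, hqW⟩, h1, g1, h3⟩⟩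
      · have hpW := anc_RR hcl g7 g2
        have h2' := RR.restrict (K := W) g7 (fun w _ _ k => anc_RR hcl k g2)
        exact ⟨y, g2, Or.inr ⟨⟨g1, g2⟩, p, ⟨hp, hpW⟩, h1, h2'⟩,
          Or.inr ⟨z, ⟨g3, g4⟩, q, ⟨hq, hqW⟩, g5, g6, h3⟩⟩

/-- An initial strong component. -/
theorem source_comp [Fintype V] [DecidableEq V] {D : Finset V} (hD : D.Nonempty) :
    ∃ W : Finset V, W ⊆ D ∧ W.Nonempty ∧ (∀ u ∈ D, ∀ w ∈ W, adj u w → u ∈ W) ∧ Strong adj W := by
  classical
  obtain ⟨Y, hYG, hYne, hYcl, hYmin⟩ : ∃ Y, Y ⊆ D ∧ Y.Nonempty ∧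
      (∀ u ∈ D, ∀ v ∈ Y, adj u v → u ∈ Y) ∧
      ∀ Z, Z ⊆ D → Z.Nonempty → (∀ u ∈ D, ∀ v ∈ Z, adj u v → u ∈ Z) → Y.card ≤ Z.card := by
    have hne' : ((univ : Finset (Finset V)).filter (fun Y => Y ⊆ D ∧ Y.Nonempty ∧
        (∀ u ∈ D, ∀ v ∈ Y, adj u v → u ∈ Y))).Nonempty :=
      ⟨D, mem_filter.2 ⟨mem_univ _, Finset.Subset.refl _, hD, fun u hu _ _ _ => hu⟩⟩
    obtain ⟨Y, hY, hYm⟩ := exists_min_image _ (fun G : Finset V => G.card) hne'
    obtain ⟨_, h1, h2, h3⟩ := mem_filter.1 hY
    exact ⟨Y, h1, h2, h3, fun Z g1 g2 g3 => hYm Z (mem_filter.2 ⟨mem_univ _, g1, g2, g3⟩)⟩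
  refine ⟨Y, hYG, hYne, hYcl, ?_⟩
  intro u hu v hv
  set Z := Y.filter (fun w => RR adj (Y : Set V) w v) with hZ
  have h1 : Y.card ≤ Z.card := by
    refine hYmin Z ((filter_subset _ _).trans hYG) ⟨v, mem_filter.2 ⟨hv, ReflTransGen.refl⟩⟩ ?_
    intro w hw z hz hwz
    obtain ⟨hz1, hz2⟩ := mem_filter.1 hz
    have hwY := hYcl w hw z hz1 hwz
    exact mem_filter.2 ⟨hwY, ReflTransGen.head ⟨hwY, hz1, hwz⟩ hz2⟩
  have h2 : Z = Y := Finset.eq_of_subset_of_card_le (filter_subset _ _) h1
  rw [← h2] at hu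
  exact (mem_filter.1 hu).2

/-- The data of a vertex `x` of `X` on the path `i` with a splitting of the path. -/
structure Cut (adj : V → V → Prop) (v e c : V) (S : Seg → Set V) (i : Seg) (x : V)
    (U W : Set V) : Prop where
  mem : x ∈ S i
  subU : U ⊆ S i \ {x}
  subW : W ⊆ S i \ {x}
  disj : Disjoint U W
  c1 : Conn adj U (src v e c i) x
  c2 : Conn adj W x (dst v e c i)

namespace Ctx

variable {C X : Finset V}

variable [Fintype V] [DecidableEq V]

theorem exists_cut (h : Ctx adj C X) {v e c : V} {S : Seg → Set V}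
    (hk : IsK adj (C : Set V) v e c S) {i : Seg} {x : V} (hx : x ∈ X) (hi : x ∈ S i) :
    ∃ U W, Cut adj v e c S i x U W := by
  obtain ⟨U, W, hU, hW, hUW, c1, c2⟩ := hk.split (h.in_all hx) hi
  exact ⟨U, W, hi, hU, hW, hUW, c1, c2⟩

/-- The last vertex of `X` on a path. -/
theorem exists_last (h : Ctx adj C X) {v e c : V} {S : Seg → Set V}
    (hk : IsK adj (C : Set V) v e c S) {i : Seg} (hex : ∃ x ∈ X, x ∈ S i) :
    ∃ x ∈ X, ∃ U W, Cut adj v e c S i x U W ∧
      ∀ y ∈ X, y ∈ S i → y ≠ x → ∃ T : Set V, T ⊆ S i \ {x} ∧ Conn adj T (src v e c i) y := by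
  classical
  have hP : ∃ n : ℕ, ∃ x ∈ X, ∃ U W : Set V, Cut adj v e c S i x U W ∧ W.ncard = n := by
    obtain ⟨x, hx, hi⟩ := hex
    obtain ⟨U, W, hc⟩ := h.exists_cut hk hx hi
    exact ⟨_, x, hx, U, W, hc, rfl⟩
  obtain ⟨x, hx, U, W, hc, hn⟩ := Nat.find_spec hP
  have hmin := fun (m : ℕ) (hm : m < Nat.find hP) => Nat.find_min hP hm
  refine ⟨x, hx, U, W, hc, ?_⟩
  intro y hy hyi hyx
  have hsub : ∀ T : Set V, T ⊆ S i → Conn adj T (src v e c i) (dst v e c i) → y ∈ T := by
    intro T hT hconn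
    by_contra hyT
    exact hk.no_avoid (h.in_all hy) hyi (hT.trans (hk.sub i)) hyT (fun g => hk.nv i (hT g))
      (fun g => hk.ne i (hT g)) (fun g => hk.nc i (hT g))
      (fun j hj u hu => hk.disj i j hj.symm u (hT hu)) hconn
  have hUS : U ⊆ S i := fun u hu => (hc.subU hu).1
  have hWS : W ⊆ S i := fun u hu => (hc.subW hu).1
  have hxS : ({x} : Set V) ⊆ S i := by
    intro u hu
    rw [Set.mem_singleton_iff.1 hu]
    exact hc.mem
  have hyT := hsub (U ∪ (W ∪ {x})) (Set.union_subset hUS (Set.union_subset hWS hxS))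
    (Or.inr (Conn.join hc.c1 hc.c2))
  rcases hyT with hyU | hyW | hyx'
  · -- `y` before `x`
    have hno : ¬ Conn adj (U \ {y}) (src v e c i) x := by
      intro g
      have := hsub (U \ {y} ∪ (W ∪ {x})) (Set.union_subset (Set.sdiff_subset.trans hUS)
        (Set.union_subset hWS hxS)) (Or.inr (Conn.join g hc.c2))
      rcases this with k | k | k
      · exact k.2 rfl
      · exact (Set.disjoint_left.1 hc.disj) hyU k
      · exact hyx k
    rcases hc.c1 with g | g
    · exact absurd (Or.inl g) hno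
    · obtain ⟨U', _, hU', _, _, k1, _⟩ := split_conn g hyU (fun k => hno (Or.inr k))
      exact ⟨U', fun u hu => hc.subU (hU' hu).1, k1⟩
  · -- `y` after `x`: not minimal
    exfalso
    have hno : ¬ Conn adj (W \ {y}) x (dst v e c i) := by
      intro g
      have := hsub (U ∪ (W \ {y} ∪ {x})) (Set.union_subset hUS
        (Set.union_subset (Set.sdiff_subset.trans hWS) hxS)) (Or.inr (Conn.join hc.c1 g))
      rcases this with k | k | k
      · exact (Set.disjoint_left.1 hc.disj) k hyW
      · exact k.2 rfl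
      · exact hyx k
    rcases hc.c2 with g | g
    · exact hno (Or.inl g)
    · obtain ⟨U', W', hU', hW', hUW', k1, k2⟩ := split_conn g hyW (fun k => hno (Or.inr k))
      have hcut : Cut adj v e c S i y (U ∪ (U' ∪ {x})) W' := by
        refine ⟨hyi, ?_, ?_, ?_, Or.inr (Conn.join hc.c1 k1), k2⟩
        · rintro u (hu | hu | hu)
          · refine ⟨hUS hu, ?_⟩
            intro huy
            rw [Set.mem_singleton_iff.1 huy] at hu
            exact (Set.disjoint_left.1 hc.disj) hu hyW
          · exact ⟨hWS (hU' hu).1, (hU' hu).2⟩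
          · rw [Set.mem_singleton_iff.1 hu]
            exact ⟨hc.mem, fun g => hyx (Set.mem_singleton_iff.1 g).symm⟩
        · intro u hu
          exact ⟨hWS (hW' hu).1, (hW' hu).2⟩
        · rw [Set.disjoint_left]
          rintro u (hu | hu | hu) hu'
          · exact (Set.disjoint_left.1 hc.disj) hu (hW' hu').1
          · exact (Set.disjoint_left.1 hUW') hu hu'
          · rw [Set.mem_singleton_iff.1 hu] at hu'
            exact (hc.subW (hW' hu').1).2 rfl
      have hlt : W'.ncard < W.ncard := by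
        refine Set.ncard_lt_ncard ?_ (Set.toFinite W)
        refine ⟨fun u hu => (hW' hu).1, fun g => ?_⟩
        exact (hW' (g hyW)).2 rfl
      rw [hn] at hlt
      exact hmin _ hlt ⟨y, hy, _, _, hcut, rfl⟩
  · exact absurd hyx' hyx

/-- The initial component `W` of `C - x` does not contain the three branch vertices. -/
theorem not_all (h : Ctx adj C X) {v e c : V} {S : Seg → Set V}
    (hk : IsK adj (C : Set V) v e c S) {i : Seg} {x : V} (hx : x ∈ X) {U W0 : Set V}
    (hcut : Cut adj v e c S i x U W0) {W : Finset V} (hWC : W ⊆ C.erase x)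
    (hWne : W ≠ C.erase x) (hcl : ∀ u ∈ C.erase x, ∀ w ∈ W, adj u w → u ∈ W)
    (hWs : Strong adj W) (hv : v ∈ W) (he : e ∈ W) (hc : c ∈ W) : False := by
  classical
  have hxC := h.inst.sub hx
  have hxW : x ∉ W := fun g => notMem_erase x C (hWC g)
  have hsrc : ∀ j, src v e c j ∈ W := by
    intro j
    cases j <;> assumption
  have hdst : ∀ j, dst v e c j ∈ W := by
    intro j
    cases j <;> assumption
  have hcl' : ∀ A : Set V, A ⊆ (C : Set V) → x ∉ A → ∀ u ∈ A, ∀ y ∈ (W : Set V), adj u y →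
      u ∈ (W : Set V) := by
    intro A hA hxA u hu y hy g
    refine hcl u (mem_erase.2 ⟨?_, hA hu⟩) y hy g
    rintro rfl
    exact hxA hu
  have hUC : U ⊆ (C : Set V) := fun u hu => hk.sub i (hcut.subU hu).1
  have hW0C : W0 ⊆ (C : Set V) := fun u hu => hk.sub i (hcut.subW hu).1
  have hxU : x ∉ U := fun g => (hcut.subU g).2 rfl
  have hxW0 : x ∉ W0 := fun g => (hcut.subW g).2 rfl
  obtain ⟨s, hs, hhead, hP⟩ := leave (hcl' U hUC hxU) (hsrc i) hcut.c1
  -- the smaller digraph
  obtain ⟨adj1, hadj1⟩ : ∃ adj1 : V → V → Prop, adj1 = fun u w => adj u w ∨ (u = s ∧ w = x) :=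
    ⟨_, rfl⟩
  have le1 : ∀ u w, adj u w → adj1 u w := by
    intro u w g
    rw [hadj1]
    exact Or.inl g
  have hsx : adj1 s x := by
    rw [hadj1]
    exact Or.inr ⟨rfl, rfl⟩
  set I : Finset V := insert x W with hI
  have hWI : W ⊆ I := subset_insert _ _
  have hxI : x ∈ I := mem_insert_self _ _
  have hIC : I ⊆ C := insert_subset hxC (hWC.trans (erase_subset _ _))
  have hIcard : I.card < C.card := by
    have h1 : W.card < (C.erase x).card := Finset.card_lt_card (hWC.ssubset_of_ne hWne)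
    have h2 := Finset.card_erase_of_mem hxC
    have h3 : I.card ≤ W.card + 1 := card_insert_le _ _
    have h4 : 0 < C.card := Finset.card_pos.2 ⟨x, hxC⟩
    omega
  have hstrong : Strong adj1 I := by
    have r1 : ∀ u ∈ I, RR adj1 (I : Set V) u x := by
      intro u hu
      rcases mem_insert.1 hu with g | g
      · rw [g]
      · have k1 : RR adj1 (I : Set V) u s := RR.congr (fun a _ b _ k => le1 a b k)
          (RR.mono (fun y hy => hWI hy) (hWs u g s hs))
        exact k1.tail ⟨hWI hs, hxI, hsx⟩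
    obtain ⟨z, hz, hxz⟩ : ∃ z ∈ W, adj x z := by
      rcases first_hit (B := (W : Set V)) (h.inst.strong x hxC v hk.vC) hxW with g | g
      · exact absurd hv g.2
      · obtain ⟨y, z, _, g2, g3, _, g5, g6, _⟩ := g
        by_cases hyx : y = x
        · rw [hyx] at g6
          exact ⟨z, g5, g6⟩
        · exact absurd (hcl y (mem_erase.2 ⟨hyx, g2⟩) z g5 g6) g3
    have r2 : ∀ w ∈ I, RR adj1 (I : Set V) x w := by
      intro w hw
      rcases mem_insert.1 hw with g | g
      · rw [g]
      · have k1 : RR adj1 (I : Set V) z w := RR.congr (fun a _ b _ k => le1 a b k)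
          (RR.mono (fun y hy => hWI hy) (hWs z hz w g))
        exact ReflTransGen.head ⟨hxI, hWI hz, le1 _ _ hxz⟩ k1
    intro u hu w hw
    exact ReflTransGen.trans (r1 u hu) (r2 w hw)
  have hideg : Ideg adj1 I (insert x (X ∩ W)) := by
    intro k hk1 hk2
    have hkx : k ≠ x := fun g => hk2 (g ▸ mem_insert_self _ _)
    have hkW : k ∈ W := (mem_insert.1 hk1).resolve_left hkx
    have hkX : k ∉ X := fun g => hk2 (mem_insert_of_mem (mem_inter.2 ⟨g, hkW⟩))
    obtain ⟨p, hp, q, hq, g1, g2, g3, g4, g5⟩ := h.inst.ideg k (hIC hk1) hkX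
    have hin : ∀ u ∈ C, adj u k → u ∈ I := by
      intro u hu g
      by_cases hux : u = x
      · rw [hux]
        exact hxI
      · exact hWI (hcl u (mem_erase.2 ⟨hux, hu⟩) k hkW g)
    exact ⟨p, hin p hp g4, q, hin q hq g5, g1, g2, g3, le1 _ _ g4, le1 _ _ g5⟩
  have hkm : Km adj1 (I : Set V) := by
    have hsubS : ∀ j, (if j = i then (U ∩ (W : Set V)) ∪ ((W0 ∩ (W : Set V)) ∪ {x}) else
        S j ∩ (W : Set V)) ⊆ S j := by
      intro j u hu
      by_cases hj : j = i
      · subst hj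
        simp only [if_true] at hu
        rcases hu with hu | hu | hu
        · exact (hcut.subU hu.1).1
        · exact (hcut.subW hu.1).1
        · rw [Set.mem_singleton_iff.1 hu]
          exact hcut.mem
      · simp only [if_neg hj] at hu
        exact hu.1
    refine ⟨v, e, c, fun j => if j = i then (U ∩ (W : Set V)) ∪ ((W0 ∩ (W : Set V)) ∪ {x}) else
        S j ∩ (W : Set V), hWI hv, hWI he, hWI hc, hk.ve, hk.vc, hk.ec, ?_,
        fun j g => hk.nv j (hsubS j g), fun j g => hk.ne j (hsubS j g),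
        fun j g => hk.nc j (hsubS j g),
        fun j k hjk u g g' => hk.disj j k hjk u (hsubS j g) (hsubS k g'), ?_⟩
    · intro j u hu
      by_cases hj : j = i
      · simp only [if_pos hj] at hu
        rcases hu with hu | hu | hu
        · exact hWI hu.2
        · exact hWI hu.2
        · rw [Set.mem_singleton_iff.1 hu]
          exact hxI
      · simp only [if_neg hj] at hu
        exact hWI hu.2
    · intro j
      by_cases hj : j = i
      · subst hj
        simp only [if_true]
        have k1 : Conn adj1 ((U ∩ (W : Set V)) ∪ ∅) (src v e c j) x :=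
          bypass (hhead.congr fun a b _ _ k => le1 a b k) hsx (Or.inl rfl)
        rw [Set.union_empty] at k1
        have k2 : Conn adj1 (W0 ∩ (W : Set V)) x (dst v e c j) :=
          Conn.congr (fun a b _ _ k => le1 a b k) (anc_Conn (hcl' W0 hW0C hxW0) hcut.c2 (hdst j))
        exact Or.inr (Conn.join k1 k2)
      · simp only [if_neg hj]
        have hxSj : x ∉ S j := hk.disj i j (Ne.symm hj) x hcut.mem
        exact Conn.congr (fun a b _ _ k => le1 a b k)
          (anc_Conn (hcl' (S j) (hk.sub j) hxSj) (hk.conn j) (hdst j))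
  have hinst : Inst adj1 I (insert x (X ∩ W)) := ⟨hstrong,
    insert_subset hxI (inter_subset_right.trans hWI), ⟨x, mem_insert_self _ _⟩, hideg, hkm⟩
  have hrk := h.ih1 adj1 I _ hIcard hinst
  apply h.no
  refine RK.subdiv (P := U \ (W : Set V)) (s := s) (t := x) ?_ hP (Set.sdiff_subset.trans hUC) ?_
    (fun u hu => hIC hu) ?_ hrk
  · intro u w g
    rw [hadj1] at g
    exact g
  · rintro u ⟨g1, g2⟩ g3
    rcases mem_insert.1 g3 with g | g
    · rw [g] at g1
      exact hxU g1
    · exact g2 g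
  · intro y hy
    rcases mem_insert.1 hy with g | g
    · rw [g]
      exact hx
    · exact (mem_inter.1 g).1

/-- Some vertex of `X` can be removed. -/
theorem exists_strong (h : Ctx adj C X) : ∃ x ∈ X, Strong adj (C.erase x) := by
  classical
  by_contra hcon
  push Not at hcon
  obtain ⟨v, e, c, S, hk⟩ := h.inst.km
  have hint := fun x (hx : x ∈ X) => h.interior hk hx
  -- the path `i` and the vertices of `X` on the other paths
  have main : ∀ i : Seg, (∃ x ∈ X, x ∈ S i) →
      (∀ j, j ≠ i → (∃ y ∈ X, y ∈ S j) → i ≠ .c1 ∧ (i = .b → j = .c1)) → False := by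
    intro i hex hoth
    obtain ⟨x, hx, U, W0, hcut, hlast⟩ := h.exists_last hk hex
    have hxC := h.inst.sub hx
    obtain ⟨W, hWC, hWne, hcl, hWs⟩ := source_comp (adj := adj) (h.erase_nonempty x)
    have hWne' : W ≠ C.erase x := by
      rintro rfl
      exact hcon x hx hWs
    have hxW : x ∉ W := fun g => notMem_erase x C (hWC g)
    -- `X` meets `W`
    obtain ⟨y, hyX, hyW⟩ : ∃ y ∈ X, y ∈ W := by
      by_contra hno
      push Not at hno
      apply h.no_pod
      refine ⟨x, W, hxC, hWC.trans (erase_subset _ _), hWne, hxW, ?_, ?_⟩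
      · rw [Finset.disjoint_left]
        exact fun u hu hu' => hno u hu' hu
      · intro u hu g hg hug
        by_cases hux : u = x
        · exact Or.inr hux
        · exact Or.inl (hcl u (mem_erase.2 ⟨hux, hu⟩) g hg hug)
    have hyx : y ≠ x := by
      rintro rfl
      exact hxW hyW
    have hcl' : ∀ A : Set V, A ⊆ (C : Set V) → x ∉ A → ∀ u ∈ A, ∀ y ∈ (W : Set V), adj u y →
        u ∈ (W : Set V) := by
      intro A hA hxA u hu y hy g
      refine hcl u (mem_erase.2 ⟨?_, hA hu⟩) y hy g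
      rintro rfl
      exact hxA hu
    have hsx : ∀ j, src v e c j ≠ x := by
      intro j g
      have := hcut.mem
      rw [← g] at this
      exact hk.src_nmem j i this
    have hst : ∀ (A : Set V) (j : Seg) (b : V), A ⊆ (C : Set V) → x ∉ A →
        Conn adj A (src v e c j) b → b ∈ W → src v e c j ∈ W := by
      intro A j b hA hxA hconn hb
      exact anc_start (hcl' A hA hxA) (fun y hy g =>
        hcl _ (mem_erase.2 ⟨hsx j, hk.src_mem j⟩) y hy g) hconn hb
    have harc : ∀ j, j ≠ i → dst v e c j ∈ W → src v e c j ∈ W := by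
      intro j hj hd
      exact hst (S j) j _ (hk.sub j) (hk.disj i j hj.symm x hcut.mem) (hk.conn j) hd
    obtain ⟨j, hyj⟩ := hint y hyX
    have hj0 : src v e c j ∈ W := by
      by_cases hji : j = i
      · subst hji
        obtain ⟨T, hT, hconn⟩ := hlast y hyX hyj hyx
        exact hst T j y (fun u hu => hk.sub j (hT hu).1) (fun g => (hT g).2 rfl) hconn hyW
      · obtain ⟨U', W', hc'⟩ := h.exists_cut hk hyX hyj
        refine hst U' j y (fun u hu => hk.sub j (hc'.subU hu).1) (fun g => ?_) hc'.c1 hyW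
        exact hk.disj i j (Ne.symm hji) x hcut.mem (hc'.subU g).1
    have hoj : j ≠ i → i ≠ .c1 ∧ (i = .b → j = .c1) := fun hji => hoth j hji ⟨y, hyX, hyj⟩
    have b1 := harc .a1
    have b2 := harc .b
    have b3 := harc .a2
    have b4 := harc .b2
    have b5 := harc .c1
    have hall : v ∈ W ∧ e ∈ W ∧ c ∈ W := by
      simp only [src, dst] at b1 b2 b3 b4 b5
      cases i <;> cases j <;> simp only [src] at hj0 <;> simp at hoj b1 b2 b3 b4 b5 <;> tauto
    exact h.not_all hk hx hcut hWC hWne' hcl hWs hall.1 hall.2.1 hall.2.2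
  by_cases e1 : ∃ x ∈ X, x ∈ S .a1
  · exact main .a1 e1 fun j _ _ => ⟨by decide, fun g => by cases g⟩
  · by_cases e2 : ∃ x ∈ X, x ∈ S .a2
    · exact main .a2 e2 fun j _ _ => ⟨by decide, fun g => by cases g⟩
    · by_cases e3 : ∃ x ∈ X, x ∈ S .b2
      · exact main .b2 e3 fun j _ _ => ⟨by decide, fun g => by cases g⟩
      · by_cases e4 : ∃ x ∈ X, x ∈ S .b
        · refine main .b e4 fun j hj hex => ⟨by decide, fun _ => ?_⟩
          cases j
          · exact absurd hex e1
          · exact absurd rfl hj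
          · exact absurd hex e2
          · exact absurd hex e3
          · rfl
        · obtain ⟨x, hx⟩ := h.inst.ne
          have e5 : ∃ x ∈ X, x ∈ S .c1 := by
            obtain ⟨i, hi⟩ := hint x hx
            cases i
            · exact absurd ⟨x, hx, hi⟩ e1
            · exact absurd ⟨x, hx, hi⟩ e4
            · exact absurd ⟨x, hx, hi⟩ e2
            · exact absurd ⟨x, hx, hi⟩ e3
            · exact ⟨x, hx, hi⟩
          refine main .c1 e5 fun j hj hex => ?_
          exfalso
          cases j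
          · exact e1 hex
          · exact e4 hex
          · exact e2 hex
          · exact e3 hex
          · exact hj rfl

end Ctx

end Pool.Agent.H.MP_0cacf8
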